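import Pool.Agent.P.MP_2cb329_al.F.C1Aux

/-! Theorem F: consequences of strong inertia (compression and the closing lemma). -/

set_option autoImplicit false

namespace CPOR
open ZT MulAction

namespace Sys

variable {G : Type} [Group G] {N : Type} [MulAction G N] {S : Sys G N} {σ : S.A → N}

/-- A convex block behaves like a vertex (collapse the `J`-translates of `U`, acting group `J`). -/
theorem block_beta {V : Type} {T : SimpleGraph V} [MulAction G V] (hG : GF T G) {J H : Subgroup G}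
    (hJ : J.FG) {U : Set V} (hU : Cvx T U) {c : V} (hc : c ∈ U) (hp : Pres T J c) (hH : H ≤ J)
    (hinv : Inv H U) (hblock : ∀ k ∈ J, ∀ x ∈ U, k • x ∈ U → k ∈ H) :
    H.FG ∧ (∀ (m : ℕ) (φ : Fin m → (Additive J →+ ℚ)), LinearIndependent ℚ φ →
      (∀ i (g : J), (g : G) ∈ H → φ i (Additive.ofMul g) = 0) → beta H + m ≤ beta J) ∧
      ((∀ H' ≤ J, H'.FG → H' ≠ ⊥ → 1 ≤ beta H') → beta J ≤ beta H → J ≤ H) := by
  have hT := hG.acyc
  have hGJ := C1.gf_sub hG J
  set Kp : Set (V × V) := {e | ¬ ∃ k : J, k • e.1 ∈ U ∧ k • e.2 ∈ U} with hKp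
  have hsym : SymInv J Kp := by
    constructor
    · rintro g e he ⟨k, h1, h2⟩
      exact he ⟨k * g, by rw [mul_smul]; exact h1, by rw [mul_smul]; exact h2⟩
    · rintro e he ⟨k, h1, h2⟩
      exact he ⟨k, h2, h1⟩
  obtain ⟨V', _, T', π, hcol, hG'⟩ := exists_col hGJ hsym
  have hfib : ∀ x, π c = π x ↔ x ∈ U := by
    intro x
    rw [hcol.eq_iff]
    constructor
    · rintro ⟨hr, hs⟩
      obtain ⟨p, hpU, hpr⟩ := hU.exists_proj hT hc hr.symm
      by_contra hx
      have hne : p ≠ x := fun e => hx (e ▸ hpU)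
      have h1 := sep_nxt hT (hpr c hc).1.symm hne
      have h2 := (sep_iff_of_btw hT (hpr c hc).symm _).2 (Or.inr h1)
      have h3 : (p, nxt T p x) ∉ Kp := fun h => hs _ h h2
      obtain ⟨k, k1, k2⟩ := not_not.1 h3
      have hk : (k : G) ∈ H := hblock k k.2 p hpU k1
      have h4 : nxt T p x ∈ U := (hinv.mem_iff hk _).1 k2
      exact not_btw_both hT h1.1 (hpr _ h4) h1.2.2
    · intro hx
      refine ⟨(hU c hc x hx).1, fun e he hs => he ⟨1, ?_, ?_⟩⟩
      · rw [one_smul]; exact (hU c hc x hx).2 _ (hs.btw hT).1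
      · rw [one_smul]; exact (hU c hc x hx).2 _ (hs.btw hT).2.1
  have hstab : ∀ k : J, k • π c = π c ↔ (k : G) ∈ H := by
    intro k
    rw [← hcol.smul, eq_comm, hfib]
    exact ⟨hblock k k.2 c hc, fun h => hinv k h c hc⟩
  have htop : (⊤ : Subgroup J).FG := Group.fg_def.1 ((Group.fg_iff_subgroup_fg J).2 hJ)
  have hpres : Pres T' (⊤ : Subgroup J) (π c) := fun k _ => by
    rw [← hcol.smul, hcol.reach_iff hGJ hsym]
    exact hp k k.2
  have hmap : (⊤ ⊓ stabilizer J (π c)).map J.subtype = H := by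
    ext g
    constructor
    · rintro ⟨k, hk, rfl⟩; exact (hstab k).1 hk.2
    · intro hg; exact ⟨⟨g, hH hg⟩, ⟨trivial, (hstab _).2 hg⟩, rfl⟩
  have hbH : beta H = beta (⊤ ⊓ stabilizer J (π c)) := by
    rw [← hmap, C1.beta_map _ J.subtype_injective]
  have hbJ : beta (⊤ : Subgroup J) = beta J := C1.beta_equiv Subgroup.topEquiv
  refine ⟨hmap ▸ C1.fg_map (fg_inf_stab hG' htop hpres) _, fun m φ hφ h0 => ?_,
    fun hpos hb => ?_⟩
  · rw [hbH, ← hbJ]
    refine beta_add_le hG' htop hpres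
      (fun i => C1.homEquiv (Subgroup.topEquiv (G := J)) (φ i))
      (hφ.map' (C1.homEquiv (Subgroup.topEquiv (G := J))).toLinearMap (LinearEquiv.ker _))
      fun i g hg => h0 i g ((hstab _).1 hg)
  · have := CPOR.le_stab_of_beta_le hG' htop hpres (fun x hx hne => ?_) (by rwa [hbJ, ← hbH])
    · exact fun g hg => (hstab ⟨g, hg⟩).1 (this (Subgroup.mem_top _))
    · rw [← C1.beta_map _ J.subtype_injective]
      refine hpos _ (Subgroup.map_subtype_le _)
        (C1.fg_map (fg_inf_stab hG' htop (hpres.of_reach hG'.acts hx)) _) ?_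
      rwa [Ne, Subgroup.map_eq_bot_iff_of_injective _ J.subtype_injective]

theorem SIs.single (h : S.SIs σ) {K : Subgroup G} (hK : K.FG) {a : S.A}
    (hle : K ≤ stabilizer G (σ a)) : beta (K ⊓ stabilizer G a) - 1 ≤ beta K - 1 := by
  have := h (σ a) K hK hle {a} (by simp) (by simp)
  simpa using this

/-- Two arrows of full rank are in one orbit. -/
theorem SIs.unique (h : S.SIs σ) {K : Subgroup G} (hK : K.FG) {a a' : S.A} (haa : σ a = σ a')
    (hle : K ≤ stabilizer G (σ a)) (hb : beta K ≤ beta (K ⊓ stabilizer G a))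
    (hb' : 2 ≤ beta (K ⊓ stabilizer G a')) : ∃ k ∈ K, k • a = a' := by
  classical
  by_contra hn
  have hne : a ≠ a' := fun e => hn ⟨1, K.one_mem, by rw [one_smul, e]⟩
  have := h (σ a) K hK hle {a, a'} (by simp [haa]) (by
    intro x hx y hy hk
    rw [Finset.mem_insert, Finset.mem_singleton] at hx hy
    rcases hx with rfl | rfl <;> rcases hy with rfl | rfl
    · rfl
    · exact (hn hk).elim
    · obtain ⟨k, hk, e⟩ := hk
      exact (hn ⟨k⁻¹, K.inv_mem hk, by rw [← e, inv_smul_smul]⟩).elim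
    · rfl)
  rw [Finset.sum_pair hne] at this
  omega

/-- Compression. -/
theorem SIs.compress (h : S.SIs σ) {K : Subgroup G} (hK : K.FG) {a : S.A}
    (hle : K ≤ stabilizer G (σ a)) (h2 : 2 ≤ beta K) (hb : beta K ≤ beta (K ⊓ stabilizer G a))
    {W : Type} [MulAction G W] {T : SimpleGraph W} (hG : GF T G) {X D : Set W} (hX : KC T K X)
    (hl : Leafless T X) (hD : KT T (K ⊓ stabilizer G a) D) (hsub : D ⊆ X) :
    ∀ e ∈ DartsIn T X, ∃ k ∈ K, k • e ∈ DartsIn T D := by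
  intro e he
  by_contra hn
  have hT := hG.acyc
  obtain ⟨d, hd⟩ := hD.ne
  set r : W → W → Prop := fun x y => T.Reachable x y ∧
    ∀ k ∈ K, ¬ Sep T (k • e) x y ∧ ¬ Sep T (k • e) y x with hr
  have rsymm : ∀ {x y}, r x y → r y x := fun h => ⟨h.1.symm, fun k hk => (h.2 k hk).symm⟩
  have rtrans : ∀ {x y z}, r x y → r y z → r x z := fun h h' =>
    ⟨h.1.trans h'.1, fun k hk =>
      ⟨fun s => (s.tri hT h.1).elim (h.2 k hk).1 (h'.2 k hk).1,
        fun s => (s.tri hT h'.1.symm).elim (h'.2 k hk).2 (h.2 k hk).2⟩⟩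
  have rsmul : ∀ {x y} {g : G}, g ∈ K → r x y → r (g • x) (g • y) := by
    intro x y g hg h
    refine ⟨hG.acts.reach g h.1, fun k hk => ?_⟩
    have hm := h.2 _ (K.mul_mem (K.inv_mem hg) hk)
    constructor
    · intro s
      have := s.smul hG.acts g⁻¹
      rw [inv_smul_smul, inv_smul_smul, ← mul_smul] at this
      exact hm.1 this
    · intro s
      have := s.smul hG.acts g⁻¹
      rw [inv_smul_smul, inv_smul_smul, ← mul_smul] at this
      exact hm.2 this
  have hDU : ∀ x ∈ D, r d x := by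
    intro x hx
    refine ⟨(hD.cvx d hd x hx).1, fun k hk => ⟨fun s => hn ⟨k, hk, s.1, ?_, ?_⟩,
      fun s => hn ⟨k, hk, s.1, ?_, ?_⟩⟩⟩
    · exact (hD.cvx d hd x hx).2 _ (s.btw hT).1
    · exact (hD.cvx d hd x hx).2 _ (s.btw hT).2.1
    · exact (hD.cvx x hx d hd).2 _ (s.btw hT).1
    · exact (hD.cvx x hx d hd).2 _ (s.btw hT).2.1
  have hU : Cvx T {x | r d x} := by
    intro x hx z hz
    have hxz : r x z := rtrans (rsymm hx) hz
    refine ⟨hxz.1, fun y hy => rtrans hx ⟨hy.1, fun k hk => ⟨fun s => ?_, fun s => ?_⟩⟩⟩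
    · exact (hxz.2 k hk).1 ((sep_iff_of_btw hT hy _).2 (Or.inl s))
    · exact (hxz.2 k hk).2 ((sep_iff_of_btw hT hy.symm _).2 (Or.inr s))
  let H : Subgroup G :=
    { carrier := {k | k ∈ K ∧ r d (k • d)}
      one_mem' := ⟨K.one_mem, by rw [one_smul]; exact hDU d hd⟩
      mul_mem' := fun {x y} hx hy =>
        ⟨K.mul_mem hx.1 hy.1, by rw [mul_smul]; exact rtrans hx.2 (rsmul hx.1 hy.2)⟩
      inv_mem' := fun {x} hx => ⟨K.inv_mem hx.1, by
        have := rsmul (K.inv_mem hx.1) hx.2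
        rw [inv_smul_smul] at this
        exact rsymm this⟩ }
  have hHK : H ≤ K := fun k hk => hk.1
  have hinv : Inv H {x | r d x} := fun k hk x hx => rtrans hk.2 (rsmul hk.1 hx)
  obtain ⟨hfg, -, h3⟩ := block_beta hG hK hU (hDU d hd) (hX.toKT.pres (hsub hd)) hHK hinv
    fun k hk x hx hkx => ⟨hk, rtrans hkx (rsymm (rsmul hk hx))⟩
  have hinf : H ⊓ stabilizer G a = K ⊓ stabilizer G a :=
    le_antisymm (inf_le_inf_right _ hHK) fun k hk => ⟨⟨hk.1, hDU _ (hD.inv k hk d hd)⟩, hk.2⟩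
  have hs := h.single hfg (hHK.trans hle)
  rw [hinf] at hs
  have hKH : K ≤ H := h3 (fun H' h1 h2 h3 => S.one_le_beta h2 (h1.trans hle) h3) (by omega)
  have hY : KT T K ({x | r d x} ∩ X) :=
    ⟨⟨d, hDU d hd, hsub hd⟩, Cvx.inter hU hX.cvx,
      fun k hk x hx => ⟨hinv k (hKH hk) x hx.1, hX.inv k hk x hx.2⟩⟩
  have hE := hX.eq_of_leafless hG hl hY Set.inter_subset_right
  have e1 : r d e.1 := (hE.ge he.2.1).1
  have e2 : r d e.2 := (hE.ge he.2.2).1
  refine ((rtrans (rsymm e1) e2).2 1 K.one_mem).1 ?_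
  rw [one_smul]
  exact sep_adj hT he.1

/-- Ping-pong: adding a high power of an element whose axis leaves the tree of `K`. -/
theorem pingpong {V : Type} {T : SimpleGraph V} [MulAction G V] (hF : FT T G) {K : Subgroup G}
    {X : Set V} (hX : KC T K X) {c : G} (hc : c ≠ 1) {x0 : V} (hx0 : x0 ∈ X)
    (hr : T.Reachable x0 (c • x0)) (hpow : ∀ M : ℕ, 1 ≤ M → c ^ M ∉ K) :
    ∃ (M : ℕ) (p q : V) (U : Set V), 1 ≤ M ∧ T.Adj p q ∧ Cvx T U ∧ X ⊆ U ∧ p ∈ U ∧ q ∉ U ∧
      (c ^ M)⁻¹ • q ∈ U ∧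
      (∀ k ∈ K ⊔ Subgroup.zpowers (c ^ M), ∀ x ∈ U, k • x ∈ U → k ∈ K) ∧ Inv K U := by
  have hT := hF.acyc
  have hA := hF.acts
  obtain ⟨a, l, R, ha, hgood⟩ := C1.exists_good hF hX hc hx0 hr hpow
  have hl := ha.2.1
  set B : ℕ := T.dist x0 (a 0) + 2 * R + l * l + 2 with hB
  set M : ℕ := 2 * B + 1 with hM
  have hMl : (M : ℤ) ≤ M * l := by
    have : M * 1 ≤ M * l := Nat.mul_le_mul_left M hl
    exact_mod_cast (by omega : M ≤ M * l)
  let A : Bool → ℤ → V := fun b => if b then a else fun i => a (0 - i)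
  let u : Bool → G := fun b => if b then c else c⁻¹
  let J : Bool → ℤ := fun b => if b then M * l - B - 1 else B
  have hAx : ∀ b, IsAxis T (u b) (A b) l := fun b => by
    cases b
    · exact ha.inv 0
    · exact ha
  have hGd : ∀ b, C1.Good T X x0 R (A b) := fun b => by
    cases b
    · exact hgood.rev
    · exact hgood
  have hA0 : ∀ b, A b 0 = a 0 := fun b => by cases b <;> simp [A]
  have hJ : ∀ b, (B : ℤ) ≤ J b := fun b => by
    cases b
    · exact le_rfl
    · show (B : ℤ) ≤ M * l - B - 1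
      omega
  have hRJ : ∀ b, (R : ℤ) ≤ J b := fun b => le_trans (by omega) (hJ b)
  have hu1 : ∀ b, u b ≠ 1 := fun b => by
    cases b
    · exact inv_ne_one.2 hc
    · exact hc
  have hunot : ∀ b, u (!b) = (u b)⁻¹ := fun b => by cases b <;> simp [u]
  set P : Bool → V := fun b => A b (J b) with hP
  set Q : Bool → V := fun b => A b (J b + 1) with hQ
  have hadj : ∀ b, T.Adj (P b) (Q b) := fun b => (hGd b).line.1 _
  have hout : ∀ b, ∀ x ∈ X, Btw T x (P b) (Q b) := fun b x hx => (hGd b).out hT hx (hRJ b)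
  have hout' : ∀ g ∈ K, ∀ b, ∀ x ∈ X, Btw T x (g • P b) (g • Q b) := fun g hg b x hx => by
    have := hA.btw g (hout b _ (hX.inv _ (K.inv_mem hg) x hx))
    rwa [smul_inv_smul] at this
  have hKr : ∀ g ∈ K, T.Reachable x0 (g • x0) := hX.toKT.pres hx0
  have hur : ∀ (b : Bool) (n : ℤ), T.Reachable x0 (u b ^ n • x0) := fun b n => by
    refine (dist_zpow_le hA ?_ n).1
    cases b
    · have := (dist_zpow_le hA hr (-1)).1
      rwa [zpow_neg_one] at this
    · exact hr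
  have key : ∀ g ∈ K, ∀ b b', Btw T (g • P b) (g • Q b) (Q b') → g = 1 ∧ b = b' := by
    intro g hg b b' hb
    have hgX : ∀ x, g • x ∈ X ↔ x ∈ X := hX.inv.mem_iff hg
    by_cases hbb : b = b'
    · subst hbb
      exact ⟨hF.free g _ (C1.same_side hT hA hX.cvx hx0 hgX (hadj b).ne (hout b) hb), rfl⟩
    · exfalso
      obtain rfl : b' = !b := Bool.eq_not_of_ne (Ne.symm hbb)
      obtain ⟨κ, hκ⟩ := C1.overlap hT hA hX.cvx hx0 (hGd b) (hGd !b) (by rw [hA0, hA0]) hgX
        (hRJ b) (hRJ !b) hb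
      rw [hA0] at hκ
      have hc2 := common_pow hF.toGF
        (((hAx b).conj hA g).shift (T.dist x0 (a 0) + 2 * R + 1))
        ((hAx !b).shift (T.dist x0 (a 0) + 2 * R + 1 + κ)) fun i h0 h1 => by
          have := hJ b
          show g • A b _ = A (!b) _
          rw [hκ _ (by omega) (by omega)]
          congr 1; ring
      rw [hunot, conj_pow, inv_pow] at hc2
      have h1 := hF.not_inverted (x := x0) (by simpa using hur b l) (hKr g hg) hc2
      exact hu1 b (hF.eq_one_of_zpow (x := x0) (n := l) (by simpa using hur b 1) (by omega)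
        (by rw [zpow_natCast, h1]))
  have disj : ∀ g ∈ K, ∀ b b' x, Btw T (g • P b) (g • Q b) x → Btw T (P b') (Q b') x →
      g = 1 ∧ b = b' := by
    intro g hg b b' x h1 h2
    have a1 := hA g _ _ (hadj b)
    rcases half_nested hT a1 (hadj b') (hout' g hg b x0 hx0) (hout b' x0 hx0) with h | h | h
    · have := hA.btw g⁻¹ (h _ (btw_right a1.reachable))
      rw [inv_smul_smul] at this
      obtain ⟨e1, e2⟩ := key _ (K.inv_mem hg) _ _ this
      exact ⟨inv_eq_one.1 e1, e2.symm⟩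
    · exact key g hg _ _ (h _ (btw_right (hadj b').reachable))
    · exact (h x h1 h2).elim
  set U : Set V := {x | T.Reachable x0 x ∧ ∀ g ∈ K, ∀ b, ¬ Btw T (g • P b) (g • Q b) x} with hU
  have hcompl : ∀ g ∈ K, ∀ b x, T.Reachable x0 x → ¬ Btw T (g • P b) (g • Q b) x →
      Btw T (g • Q b) (g • P b) x := fun g hg b x hx hn =>
    (adj_btw hT (hA g _ _ (hadj b)) ((hout' g hg b x0 hx0).1.symm.trans hx)).resolve_left hn
  have hPU : ∀ b, P b ∈ U := by
    intro b
    refine ⟨(hout b x0 hx0).1, fun g hg b' hb => ?_⟩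
    by_cases hq : Btw T (g • P b') (g • Q b') (Q b)
    · obtain ⟨rfl, rfl⟩ := key g hg _ _ hq
      rw [one_smul, one_smul] at hb
      exact (hadj _).ne hb.eq_of_self.symm
    · have hs : Sep T (g • Q b', g • P b') (P b) (Q b) :=
        ⟨(hA g _ _ (hadj b')).symm, hb.symm, hcompl g hg b' _ (hout b x0 hx0).reach hq⟩
      have he := hs.eq_of_adj hT (hadj b)
      rw [Prod.mk.injEq] at he
      have h1 := hout' g hg b' x0 hx0
      rw [he.1, he.2] at h1
      exact (hadj b).ne ((hout b x0 hx0).antisymm h1)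
  have ht : ∀ i, (c ^ M) • a i = a (i + M * l) := fun i => by
    rw [← zpow_natCast, ha.zpow_smul]
  have htQ : (c ^ M) • Q false = P true := by
    show (c ^ M) • a (0 - (B + 1)) = a (M * l - B - 1)
    rw [ht]; congr 1; ring
  have htP : (c ^ M) • P false = Q true := by
    show (c ^ M) • a (0 - B) = a (M * l - B - 1 + 1)
    rw [ht]; congr 1; ring
  have hbtw : ∀ (g : G) b x, Btw T (P b) (Q b) (g⁻¹ • x) ↔ Btw T (g • P b) (g • Q b) x :=
    fun g b x => ⟨fun h => by simpa using hA.btw g h, fun h => by simpa using hA.btw g⁻¹ h⟩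
  have hreach : ∀ (g : G) x, T.Reachable x0 (g • x0) → T.Reachable x0 x →
      T.Reachable x0 (g • x) := fun g x h1 h2 => h1.trans (hA.reach g h2)
  refine ⟨M, P true, Q true, U, by omega, hadj true, ?_, ?_, hPU true, ?_, ?_, ?_, ?_⟩
  · intro x hx z hz
    refine ⟨hx.1.symm.trans hz.1, fun y hy => ⟨hx.1.trans hy.1, fun g hg b => ?_⟩⟩
    have a1 := hA g _ _ (hadj b)
    have := (cvx_half hT a1.symm x (hcompl g hg b x hx.1 (hx.2 g hg b)) z
      (hcompl g hg b z hz.1 (hz.2 g hg b))).2 y hy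
    exact not_btw_both hT a1 (Btw.symm this)
  · exact fun x hx => ⟨(hX.cvx _ hx0 _ hx).1, fun g hg b =>
      not_btw_both hT (hA g _ _ (hadj b)) (hout' g hg b x hx)⟩
  · intro h
    refine h.2 1 K.one_mem true ?_
    rw [one_smul, one_smul]
    exact btw_right (hadj true).reachable
  · rw [← htP, inv_smul_smul]; exact hPU false
  · intro k hk x hx hkx
    refine C1.pp_abs (fun x => T.Reachable x0 x) (fun b x => Btw T (P b) (Q b) x)
      (fun g hg x hx => hreach g x (hKr g hg) hx) (fun b x hx => hreach _ x ?_ hx)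
      (fun g hg b b' x h1 h2 => disj g hg b b' x ((hbtw g b x).1 h1) h2) (fun b x hx hn => ?_)
      hx.1 (fun g hg b h => hx.2 g hg b ((hbtw g b x).1 h)) hk
      fun g hg b h => hkx.2 g hg b ((hbtw g b _).1 h)
    · cases b
      · simpa [u] using hur false M
      · simpa [u] using hur true M
    · have h1 := hcompl 1 K.one_mem (!b) x hx (by rwa [one_smul, one_smul])
      rw [one_smul, one_smul] at h1
      cases b
      · have := hA.btw (c ^ M)⁻¹ h1
        rw [Bool.not_false, ← htQ, ← htP, inv_smul_smul, inv_smul_smul] at this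
        exact this
      · have := hA.btw (c ^ M) h1
        rw [Bool.not_true, htQ, htP] at this
        exact this
  · intro k hk x hx
    refine ⟨hreach k x (hKr k hk) hx.1, fun g hg b h => ?_⟩
    have := hA.btw k⁻¹ h
    rw [inv_smul_smul, ← mul_smul, ← mul_smul] at this
    exact hx.2 _ (K.mul_mem (K.inv_mem hk) hg) b this

/-- The closing lemma. -/
theorem SIs.closing (h : S.SIs σ) (hσ : ∀ a, stabilizer G a ≤ stabilizer G (σ a))
    {K : Subgroup G} (hK : K.FG) {a : S.A} (hle : K ≤ stabilizer G (σ a)) (h1 : 1 ≤ beta K)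
    (hb : beta K ≤ beta (K ⊓ stabilizer G a)) {g c : G} (hg : g ∈ K) (hga : g • a ≠ a) (hc : c ≠ 1)
    (hca : c • a = a) (hcg : c • g • a = g • a) : ∃ M : ℕ, 1 ≤ M ∧ c ^ M ∈ K := by
  by_contra hn
  have hpow : ∀ M : ℕ, 1 ≤ M → c ^ M ∉ K := fun M hM hm => hn ⟨M, hM, hm⟩
  have hG := S.gf
  have hT := hG.acyc
  obtain ⟨x0, hx0⟩ := S.nd_surj (σ a)
  have hx0X : x0 ∈ hull S.B (orb K x0) := subset_hull _ (mem_orb_self x0)
  have hcv : c ∈ stabilizer G (σ a) := hσ a hca
  obtain ⟨M, p, q, U, -, hpq, hU, hXU, hp, hq, htq, hblock, hinv⟩ :=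
    pingpong S.ft (kc_hull hG hK (pres_of_le hle hx0)) hc hx0X
      (pres_of_le le_rfl hx0 c hcv) hpow
  set t := c ^ M with ht
  set K' := K ⊔ Subgroup.zpowers t with hK'
  have htK : t ∈ K' := Subgroup.mem_sup_right (Subgroup.mem_zpowers t)
  have hKK : K ≤ K' := le_sup_left
  have hK'fg : K'.FG := hK.sup (C1.fg_zpowers t)
  have hK'le : K' ≤ stabilizer G (σ a) :=
    sup_le hle (Subgroup.zpowers_le.2 (Subgroup.pow_mem _ hcv M))
  set J := K' ⊓ stabilizer G a with hJ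
  have hJfg : J.FG := S.howson hK'fg (S.fg a) hK'le (hσ a)
  have hx0U : x0 ∈ U := hXU hx0X
  have hpres : Pres S.B J x0 := pres_of_le (inf_le_left.trans hK'le) hx0
  obtain ⟨-, h2, -⟩ := block_beta hG hJfg hU hx0U hpres (H := K ⊓ stabilizer G a)
    (inf_le_inf_right _ hKK) (fun k hk => hinv k hk.1)
    fun k hk x hx hkx => ⟨hblock k hk.1 x hx hkx, hk.2⟩
  have zero : ∀ k ∈ K', ∀ x ∈ U, ∀ y ∈ U, cross S.B J (k • (p, q)) x y = 0 := by
    intro k hk
    have emp : ∀ x ∈ U, ∀ y ∈ U, {e' | e' ∈ orb J (k • (p, q)) ∧ Sep S.B e' x y} = ∅ := by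
      intro x hx y hy
      refine Set.eq_empty_of_forall_notMem ?_
      rintro _ ⟨⟨j, hj, rfl⟩, hs⟩
      have b1 : (j * k) • p ∈ U := by
        rw [mul_smul]; exact (hU x hx y hy).2 _ (hs.btw hT).1
      have b2 : (j * k) • q ∈ U := by
        rw [mul_smul]; exact (hU x hx y hy).2 _ (hs.btw hT).2.1
      exact hq ((hinv.mem_iff (hblock _ (K'.mul_mem hj.1 hk) p hp b1) q).1 b2)
    intro x hx y hy
    rw [cross, emp x hx y hy, emp y hy x hx, sub_self]
  have hτ : ∀ k : G, t • k⁻¹ • a = k⁻¹ • a → k ∈ K → k * t * k⁻¹ ∈ J := fun k hk hkK =>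
    ⟨K'.mul_mem (K'.mul_mem (hKK hkK) htK) (K'.inv_mem (hKK hkK)), by
      show (k * t * k⁻¹) • a = a
      rw [mul_smul, mul_smul, hk, smul_inv_smul]⟩
  have val : ∀ k ∈ K, ∀ k' ∈ K, ∀ φ : Additive J →+ ℚ,
      (∀ (g : J) x, S.B.Reachable x0 x →
        φ (Additive.ofMul g) = cross S.B J (k • (p, q)) x ((g : G) • x)) →
      (∀ g : J, (g : G) ∈ K ⊓ stabilizer G a → φ (Additive.ofMul g) = 0) ∧
      ∀ hm : k' * t * k'⁻¹ ∈ J,
        φ (Additive.ofMul ⟨_, hm⟩) = cross S.B J (k • (p, q)) (k' • p) (k' • q) := by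
    intro k hk k' hk' φ hφ
    refine ⟨fun g hg => ?_, fun hm => ?_⟩
    · rw [hφ g x0 (SimpleGraph.Reachable.refl _)]
      exact zero k (hKK hk) _ hx0U _ (hinv _ hg.1 _ hx0U)
    · have m1 : k' • t⁻¹ • q ∈ U := hinv _ hk' _ htq
      have m2 : k' • p ∈ U := hinv _ hk' _ hp
      rw [hφ _ _ (hU _ hx0U _ m1).1]
      have e : (k' * t * k'⁻¹) • k' • t⁻¹ • q = k' • q := by
        rw [mul_smul, mul_smul, inv_smul_smul, smul_inv_smul]
      show cross S.B J _ _ ((k' * t * k'⁻¹) • k' • t⁻¹ • q) = _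
      rw [e, cross_add hT _ (hU _ m1 _ m2).1 (hG.acts k' _ _ hpq).reachable,
        zero k (hKK hk) _ m1 _ m2, zero_add]
  have one : ∀ k : G, cross S.B J (k • (p, q)) (k • p) (k • q) = 1 := fun k =>
    cross_adj_of_mem hG (hG.acts k _ _ hpq) (mem_orb_self _)
  have nil : ∀ k k' : G, (∀ j ∈ J, k'⁻¹ * j * k ≠ 1) →
      cross S.B J (k • (p, q)) (k' • p) (k' • q) = 0 := by
    intro k k' hne
    refine cross_adj_of_not_mem hG (hG.acts k' _ _ hpq) ?_ ?_
    · rintro ⟨j, hj, e⟩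
      refine hne j hj (hG.dart_free (e := (p, q)) hpq ?_)
      rw [mul_smul, mul_smul, e, inv_smul_eq_iff]; rfl
    · rintro ⟨j, hj, e⟩
      refine hG.ne_swap (k'⁻¹ * j * k) (e := (p, q)) hpq ?_
      rw [mul_smul, mul_smul, e, inv_smul_eq_iff]; rfl
  obtain ⟨φ₀, hφ₀⟩ := exists_cross_hom hG hpres ((1 : G) • (p, q))
  obtain ⟨φ₁, hφ₁⟩ := exists_cross_hom hG hpres (g⁻¹ • (p, q))
  have hgi := K.inv_mem hg
  have m₀ : 1 * t * 1⁻¹ ∈ J := hτ 1 (by
    rw [inv_one, one_smul]; exact (stabilizer G a).pow_mem hca M) K.one_mem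
  have m₁ : g⁻¹ * t * g⁻¹⁻¹ ∈ J := hτ g⁻¹ (by
    rw [inv_inv]; exact (stabilizer G (g • a)).pow_mem hcg M) hgi
  have hgJ : g ∉ J := fun h => hga h.2
  have v00 := ((val 1 K.one_mem 1 K.one_mem φ₀ hφ₀).2 m₀).trans (one 1)
  have v11 := ((val _ hgi _ hgi φ₁ hφ₁).2 m₁).trans (one g⁻¹)
  have v01 := ((val 1 K.one_mem _ hgi φ₀ hφ₀).2 m₁).trans (nil 1 g⁻¹ fun j hj e => hgJ (by
    have : g = j⁻¹ := by rw [inv_inv, mul_one] at e; exact eq_inv_of_mul_eq_one_left e
    rw [this]; exact J.inv_mem hj))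
  have v10 := ((val _ hgi 1 K.one_mem φ₁ hφ₁).2 m₀).trans (nil g⁻¹ 1 fun j hj e => hgJ (by
    have : j = g := by rw [inv_one, one_mul] at e; exact mul_inv_eq_one.1 e
    rw [← this]; exact hj))
  have hli : LinearIndependent ℚ ![φ₀, φ₁] := by
    rw [LinearIndependent.pair_iff]
    intro x y hxy
    have e0 := DFunLike.congr_fun hxy (Additive.ofMul ⟨_, m₀⟩)
    have e1 := DFunLike.congr_fun hxy (Additive.ofMul ⟨_, m₁⟩)
    simp only [AddMonoidHom.add_apply, AddMonoidHom.smul_apply, v00, v01, v10, v11, smul_eq_mul,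
      AddMonoidHom.zero_apply] at e0 e1
    constructor <;> linarith
  have h3 := h2 2 _ hli fun i j hj => by
    fin_cases i
    · exact (val 1 K.one_mem 1 K.one_mem φ₀ hφ₀).1 j hj
    · exact (val _ hgi 1 K.one_mem φ₁ hφ₁).1 j hj
  have h4 := h.single hK'fg hK'le
  have h5 := beta_sup_zpowers hK t
  rw [← hJ] at h4
  rw [← hK'] at h5
  omega

end Sys

end CPOR
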