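import Pool.Agent.P.MP_2cb329_al.F.D3b
import Pool.Agent.P.MP_2cb329_al.F.C1

/-! Theorem F: the shared library (trees, ranks, systems, chains, derived systems). -/
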