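import Pool.Agent.P.MP_2cb329_al.F.O1

/-! Theorem F: orbits, part 2. -/

set_option autoImplicit false

namespace CPOR
open MulAction

variable {G : Type} [Group G] {X Y : Type} [MulAction G X] [MulAction G Y] {K K' : Subgroup G}

theorem nOrb_mono {S S' : Set X} (h : FinOrb K S') (hS : S ⊆ S') : nOrb K S ≤ nOrb K S' := by
  exact Set.ncard_le_ncard (Set.image_mono hS) (finOrb_iff.1 h)

theorem nOrb_diff_lt {S : Set X} (h : FinOrb K S) {x : X} (hx : x ∈ S) :
    nOrb K (S \ orb K x) < nOrb K S := by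
  apply Set.ncard_lt_ncard _ (finOrb_iff.1 h)
  refine ⟨Set.image_mono Set.sdiff_subset, fun hsub => ?_⟩
  obtain ⟨y, hy, e⟩ := hsub ⟨x, hx, rfl⟩
  exact hy.2 (orb_eq_iff.1 e.symm)

/-- An invariant relation that is onto on orbits and determines the orbit of `y`. -/
theorem nOrb_le_of_surj {S : Set X} {S' : Set Y} (h : FinOrb K S) (f : X → Y)
    (hf : ∀ x ∈ S, ∀ x' ∈ S, (∃ k ∈ K, k • x = x') → ∃ k ∈ K', k • f x = f x')
    (hs : ∀ y ∈ S', ∃ x ∈ S, ∃ k ∈ K', k • f x = y) : FinOrb K' S' ∧ nOrb K' S' ≤ nOrb K S := by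
  classical
  obtain ⟨F, hF⟩ := h.exists_reps
  have hsub : orb K' '' S' ⊆ (fun x => orb K' (f x)) '' (F : Set X) := by
    rintro _ ⟨y, hy, rfl⟩
    obtain ⟨x, hx, k, hk, rfl⟩ := hs y hy
    obtain ⟨k1, hk1, x1, hx1, e⟩ := hF.cover x hx
    obtain ⟨k2, hk2, e2⟩ := hf x1 (hF.sub x1 hx1) x hx ⟨k1, hk1, e.symm⟩
    refine ⟨x1, hx1, ?_⟩
    exact orb_eq_iff.2 ⟨k * k2, K'.mul_mem hk hk2, by rw [mul_smul, e2]⟩
  have hfin : ((fun x => orb K' (f x)) '' (F : Set X)).Finite := F.finite_toSet.image _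
  refine ⟨finOrb_iff.2 (hfin.subset hsub), ?_⟩
  calc nOrb K' S' ≤ ((fun x => orb K' (f x)) '' (F : Set X)).ncard :=
        Set.ncard_le_ncard hsub hfin
    _ ≤ (F : Set X).ncard := Set.ncard_image_le F.finite_toSet
    _ = nOrb K S := by rw [Set.ncard_coe_finset, hF.card]

theorem nOrb_le_of_inj {S : Set X} {S' : Set Y} (h : FinOrb K' S') (f : X → Y)
    (hm : ∀ x ∈ S, f x ∈ S')
    (hi : ∀ x ∈ S, ∀ x' ∈ S, (∃ k ∈ K', k • f x = f x') → ∃ k ∈ K, k • x = x') :
    FinOrb K S ∧ nOrb K S ≤ nOrb K' S' := by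
  classical
  rcases S.eq_empty_or_nonempty with rfl | ⟨x0, hx0⟩
  · refine ⟨finOrb_of_finite Set.finite_empty, ?_⟩
    simp [nOrb]
  let S2 : Set Y := {y | y ∈ S' ∧ ∃ x ∈ S, f x = y}
  have hS2 : S2 ⊆ S' := fun y hy => hy.1
  let g : Y → X := fun y => if hy : ∃ x ∈ S, f x = y then hy.choose else x0
  have hg : ∀ y ∈ S2, g y ∈ S ∧ f (g y) = y := by
    intro y hy
    have h2 : ∃ x ∈ S, f x = y := hy.2
    simp only [g, dif_pos h2]
    exact h2.choose_spec
  obtain ⟨h1, h2⟩ := nOrb_le_of_surj (K := K') (K' := K) (S := S2) (S' := S) (h.mono hS2) g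
    (by
      intro y hy y' hy' hyy
      apply hi _ (hg y hy).1 _ (hg y' hy').1
      rw [(hg y hy).2, (hg y' hy').2]
      exact hyy)
    (by
      intro x hx
      have hy : f x ∈ S2 := ⟨hm x hx, x, hx, rfl⟩
      refine ⟨f x, hy, ?_⟩
      apply hi _ (hg _ hy).1 _ hx
      exact ⟨1, K'.one_mem, by rw [one_smul, (hg _ hy).2]⟩)
  exact ⟨h1, h2.trans (nOrb_mono h hS2)⟩

/-- Onto on orbits with equal counts: injective on orbits. -/
theorem inj_of_surj_of_nOrb_le {S : Set X} {S' : Set Y} (h : FinOrb K S) (f : X → Y)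
    (hm : ∀ x ∈ S, f x ∈ S')
    (hf : ∀ x ∈ S, ∀ x' ∈ S, (∃ k ∈ K, k • x = x') → ∃ k ∈ K', k • f x = f x')
    (hs : ∀ y ∈ S', ∃ x ∈ S, ∃ k ∈ K', k • f x = y) (hn : nOrb K S ≤ nOrb K' S') :
    ∀ x ∈ S, ∀ x' ∈ S, (∃ k ∈ K', k • f x = f x') → ∃ k ∈ K, k • x = x' := by
  intro x hx x' hx' hxx
  by_contra hne
  have hlt := nOrb_diff_lt h hx'
  have hle := (nOrb_le_of_surj (K := K) (K' := K') (S := S \ orb K x') (S' := S')
    (h.mono Set.sdiff_subset) f (fun a ha b hb hab => hf a ha.1 b hb.1 hab) (by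
      intro y hy
      obtain ⟨z, hz, k, hk, rfl⟩ := hs y hy
      by_cases hzo : z ∈ orb K x'
      · obtain ⟨k1, hk1, e1⟩ := hf x' hx' z hz hzo
        obtain ⟨k2, hk2, e2⟩ := hxx
        refine ⟨x, ⟨hx, ?_⟩, k * k1 * k2, K'.mul_mem (K'.mul_mem hk hk1) hk2, ?_⟩
        · rintro ⟨k3, hk3, e3⟩
          exact hne ⟨k3⁻¹, K.inv_mem hk3, by rw [← e3, inv_smul_smul]⟩
        · rw [mul_smul, mul_smul, e2, e1]
      · exact ⟨z, ⟨hz, hzo⟩, k, hk, rfl⟩)).2
  have _ := hm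
  omega

/-- Injective on orbits with equal counts: onto on orbits. -/
theorem surj_of_inj_of_nOrb_le {S : Set X} {S' : Set Y} (h : FinOrb K' S') (f : X → Y)
    (hm : ∀ x ∈ S, f x ∈ S')
    (hi : ∀ x ∈ S, ∀ x' ∈ S, (∃ k ∈ K', k • f x = f x') → ∃ k ∈ K, k • x = x')
    (hn : nOrb K' S' ≤ nOrb K S) : ∀ y ∈ S', ∃ x ∈ S, ∃ k ∈ K', k • f x = y := by
  intro y hy
  by_contra hne
  have hlt := nOrb_diff_lt h hy
  have hle := (nOrb_le_of_inj (K := K) (K' := K') (S := S) (S' := S' \ orb K' y)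
    (h.mono Set.sdiff_subset) f (by
      intro x hx
      refine ⟨hm x hx, ?_⟩
      rintro ⟨k, hk, e⟩
      exact hne ⟨x, hx, k⁻¹, K'.inv_mem hk, by rw [← e, inv_smul_smul]⟩) hi).2
  omega

/-- Equivariant choice. -/
theorem exists_equiv_choice_on [Nonempty Y] {S : Set X} (hS : Inv (⊤ : Subgroup G) S)
    (Q : X → Y → Prop) (hQ : ∀ (g : G) x y, x ∈ S → Q x y → Q (g • x) (g • y))
    (hex : ∀ x ∈ S, ∃ y, Q x y ∧ stabilizer G x ≤ stabilizer G y) :
    ∃ f : X → Y, (∀ x ∈ S, Q x (f x)) ∧ ∀ (g : G), ∀ x ∈ S, f (g • x) = g • f x := by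
  classical
  let r : X → X := fun x => (Quotient.mk (orbitRel G X) x).out
  have hr : ∀ x, ∃ g : G, g • r x = x := by
    intro x
    have h1 : (orbitRel G X) x (r x) := (orbitRel G X).symm (Quotient.mk_out (s := orbitRel G X) x)
    exact orbitRel_apply.1 h1
  have hrs : ∀ (g : G) x, r (g • x) = r x := by
    intro g x
    have : (Quotient.mk (orbitRel G X) (g • x)) = Quotient.mk (orbitRel G X) x :=
      Quotient.sound (orbitRel_apply.2 ⟨g, rfl⟩)
    simp only [r, this]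
  choose t ht using hr
  have hrS : ∀ x ∈ S, r x ∈ S := by
    intro x hx
    have := hS (t x)⁻¹ (Subgroup.mem_top _) x hx
    rwa [show (t x)⁻¹ • x = r x from inv_smul_eq_iff.2 (ht x).symm] at this
  have hex' : ∀ x, ∃ y, x ∈ S → Q x y ∧ stabilizer G x ≤ stabilizer G y := by
    intro x
    by_cases hx : x ∈ S
    · obtain ⟨y, hy⟩ := hex x hx
      exact ⟨y, fun _ => hy⟩
    · exact ⟨Classical.arbitrary Y, fun h => absurd h hx⟩
  choose y0 hy0 using hex'
  refine ⟨fun x => t x • y0 (r x), ?_, ?_⟩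
  · intro x hx
    have := hQ (t x) _ _ (hrS x hx) (hy0 _ (hrS x hx)).1
    rwa [ht x] at this
  · intro g x hx
    have h1 : (g * t x)⁻¹ * t (g • x) ∈ stabilizer G (r x) := by
      rw [mem_stabilizer_iff, mul_smul, inv_smul_eq_iff, mul_smul, ht x]
      conv_lhs => rw [← hrs g x]
      exact ht _
    have h2 := (hy0 _ (hrS x hx)).2 h1
    rw [mem_stabilizer_iff, mul_smul, inv_smul_eq_iff, mul_smul] at h2
    simp only [hrs]
    exact h2

theorem exists_equiv_choice (Q : X → Y → Prop) (hQ : ∀ (g : G) x y, Q x y → Q (g • x) (g • y))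
    (hex : ∀ x, ∃ y, Q x y ∧ stabilizer G x ≤ stabilizer G y) :
    ∃ f : X → Y, (∀ x, Q x (f x)) ∧ ∀ (g : G) x, f (g • x) = g • f x := by
  rcases isEmpty_or_nonempty X with hX | ⟨⟨x0⟩⟩
  · exact ⟨fun x => isEmptyElim x, fun x => isEmptyElim x, fun _ x => isEmptyElim x⟩
  have : Nonempty Y := ⟨(hex x0).choose⟩
  obtain ⟨f, h1, h2⟩ := exists_equiv_choice_on (G := G) (S := (Set.univ : Set X))
    (fun _ _ _ _ => Set.mem_univ _) Q (fun g x y _ h => hQ g x y h) (fun x _ => hex x)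
  exact ⟨f, fun x => h1 x (Set.mem_univ _), fun g x => h2 g x (Set.mem_univ _)⟩

/-- An equivariant self-map that is injective is periodic up to translation. -/
theorem periodic_of_inj {S : Set X} (h : FinOrb (⊤ : Subgroup G) S) (hS : Inv (⊤ : Subgroup G) S)
    (σ : X → X) (hm : ∀ x ∈ S, σ x ∈ S) (hσ : ∀ (g : G), ∀ x ∈ S, σ (g • x) = g • σ x)
    (hi : ∀ x ∈ S, ∀ y ∈ S, σ x = σ y → x = y) :
    (∀ y ∈ S, ∃ x ∈ S, σ x = y) ∧ ∃ M : ℕ, 0 < M ∧ ∀ x ∈ S, ∃ g : G, σ^[M] x = g • x := by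
  have hmi : ∀ n, ∀ x ∈ S, σ^[n] x ∈ S := by
    intro n
    induction n with
    | zero => intro x hx; exact hx
    | succ n ih => intro x hx; rw [Function.iterate_succ_apply']; exact hm _ (ih x hx)
  have hσi : ∀ n (g : G), ∀ x ∈ S, σ^[n] (g • x) = g • σ^[n] x := by
    intro n g
    induction n with
    | zero => intro x hx; rfl
    | succ n ih =>
      intro x hx
      rw [Function.iterate_succ_apply', Function.iterate_succ_apply', ih x hx, hσ g _ (hmi n x hx)]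
  have hii : ∀ n, ∀ x ∈ S, ∀ y ∈ S, σ^[n] x = σ^[n] y → x = y := by
    intro n
    induction n with
    | zero => intro x _ y _ e; exact e
    | succ n ih =>
      intro x hx y hy e
      rw [Function.iterate_succ_apply', Function.iterate_succ_apply'] at e
      exact ih x hx y hy (hi _ (hmi n x hx) _ (hmi n y hy) e)
  refine ⟨?_, (nOrb (⊤ : Subgroup G) S).factorial, Nat.factorial_pos _, ?_⟩
  · intro y hy
    obtain ⟨x, hx, k, -, e⟩ := surj_of_inj_of_nOrb_le (K := ⊤) (K' := ⊤) h σ hm (by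
      rintro x hx x' hx' ⟨k, hk, e⟩
      refine ⟨k, hk, hi _ (hS k hk x hx) _ hx' ?_⟩
      rw [hσ k x hx, e]) le_rfl y hy
    exact ⟨k • x, hS k (Subgroup.mem_top _) x hx, by rw [hσ k x hx, e]⟩
  · intro x hx
    obtain ⟨i, j, hij, hj, k, hk, e⟩ := h.pigeon (fun i => σ^[i] x) (fun i _ => hmi i x hx)
    obtain ⟨p, rfl⟩ := Nat.exists_eq_add_of_lt hij
    have e1 : σ^[p + 1] x = k • x := by
      apply hii i _ (hmi _ x hx) _ (hS k hk x hx)
      rw [hσi i k x hx, ← Function.iterate_add_apply, ← add_assoc]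
      exact e.symm
    have e2 : ∀ m, ∃ g : G, σ^[(p + 1) * m] x = g • x := by
      intro m
      induction m with
      | zero => exact ⟨1, by simp⟩
      | succ m ih =>
        obtain ⟨g, hg⟩ := ih
        refine ⟨g * k, ?_⟩
        rw [Nat.mul_succ, add_comm, Function.iterate_add_apply, hg, hσi _ g x hx, e1, mul_smul]
    obtain ⟨m, hm'⟩ : (p + 1) ∣ (nOrb (⊤ : Subgroup G) S).factorial :=
      Nat.dvd_factorial (Nat.succ_pos p) (by omega)
    rw [hm']
    exact e2 m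

/-- An equivariant self-map of a free set that is onto is injective. -/
theorem inj_of_surj_free {S : Set X} (h : FinOrb (⊤ : Subgroup G) S) (hS : Inv (⊤ : Subgroup G) S)
    (hfree : ∀ (g : G), ∀ x ∈ S, g • x = x → g = 1)
    (σ : X → X) (hm : ∀ x ∈ S, σ x ∈ S) (hσ : ∀ (g : G), ∀ x ∈ S, σ (g • x) = g • σ x)
    (hs : ∀ y ∈ S, ∃ x ∈ S, σ x = y) : ∀ x ∈ S, ∀ y ∈ S, σ x = σ y → x = y := by
  intro x hx y hy e
  obtain ⟨k, hk, e1⟩ := inj_of_surj_of_nOrb_le (K := ⊤) (K' := ⊤) (S' := S) h σ hm (by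
      rintro a ha b _ ⟨k, hk, rfl⟩
      exact ⟨k, hk, (hσ k a ha).symm⟩) (by
      intro b hb
      obtain ⟨a, ha, e⟩ := hs b hb
      exact ⟨a, ha, 1, Subgroup.mem_top _, by rw [one_smul, e]⟩) le_rfl x hx y hy
      ⟨1, Subgroup.mem_top _, by rw [one_smul, e]⟩
  have _ := hS
  have h1 : k = 1 := by
    apply hfree k (σ x) (hm x hx)
    rw [← hσ k x hx, e1, e]
  rw [← e1, h1, one_smul]

/-- A decreasing sequence of invariant sets with finitely many orbits stabilises. -/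
theorem FinOrb.stabilises (S : ℕ → Set X) (h0 : FinOrb K (S 0)) (hinv : ∀ n, Inv K (S n))
    (hanti : ∀ n, S (n + 1) ⊆ S n) : ∃ n0, ∀ n, n0 ≤ n → S n = S n0 := by
  classical
  have hmono : ∀ m n, m ≤ n → S n ⊆ S m := by
    intro m n hmn
    induction hmn with
    | refl => exact subset_rfl
    | step _ ih => exact (hanti _).trans ih
  have hfin : ∀ n, FinOrb K (S n) := fun n => h0.mono (hmono 0 n (Nat.zero_le n))
  have hex : ∃ c, ∃ n, nOrb K (S n) = c := ⟨_, 0, rfl⟩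
  obtain ⟨n0, hn0⟩ := Nat.find_spec hex
  refine ⟨n0, fun n hn => Set.Subset.antisymm (hmono n0 n hn) ?_⟩
  intro x hx
  by_contra hxn
  have h1 : S n ⊆ S n0 \ orb K x := by
    intro y hy
    refine ⟨hmono n0 n hn hy, ?_⟩
    rintro ⟨k, hk, rfl⟩
    apply hxn
    have := hinv n k⁻¹ (K.inv_mem hk) _ hy
    rwa [inv_smul_smul] at this
  have h2 := nOrb_mono ((hfin n0).mono Set.sdiff_subset) h1
  have h3 := nOrb_diff_lt (hfin n0) hx
  have h4 : Nat.find hex ≤ nOrb K (S n) := Nat.find_min' hex ⟨n, rfl⟩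
  omega

/-- Threshold gap: among `M + 1` consecutive intervals one contains no value. -/
theorem exists_gap (θ : ℕ → ℕ) (hθ : Monotone θ) (F : Finset ℕ) :
    ∃ j ≤ F.card, ∀ x ∈ F, x ≤ θ j ∨ θ (j + 1) < x := by
  by_contra hne
  push Not at hne
  choose! u hu h1 h2 using hne
  have hinj : Set.InjOn u (Finset.range (F.card + 1) : Set ℕ) := by
    have key : ∀ i j, i ≤ F.card → j ≤ F.card → i < j → u i < u j := by
      intro i j hi hj hij
      exact lt_of_le_of_lt ((h2 i hi).trans (hθ hij)) (h1 j hj)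
    intro i hi j hj e
    have hi' : i ≤ F.card := by simpa [Nat.lt_succ_iff] using hi
    have hj' : j ≤ F.card := by simpa [Nat.lt_succ_iff] using hj
    rcases lt_trichotomy i j with h | h | h
    · exact absurd e (key i j hi' hj' h).ne
    · exact h
    · exact absurd e.symm (key j i hj' hi' h).ne
  have := Finset.card_le_card_of_injOn u (s := Finset.range (F.card + 1)) (t := F) (by
    intro i hi
    exact hu i (by simpa [Nat.lt_succ_iff] using hi)) hinj
  simp at this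

theorem stab_smul_mem {x : X} {g h : G} : h ∈ stabilizer G (g • x) ↔ g⁻¹ * h * g ∈ stabilizer G x := by
  rw [mem_stabilizer_iff, mem_stabilizer_iff, mul_smul, mul_smul, inv_smul_eq_iff]

theorem fg_conj (hK : K.FG) (g : G) : (K.map (MulAut.conj g).toMonoidHom).FG := by
  classical
  obtain ⟨F, rfl⟩ := hK
  refine ⟨F.image (MulAut.conj g).toMonoidHom, ?_⟩
  rw [MonoidHom.map_closure, Finset.coe_image]

theorem fg_stab_smul {x : X} (h : (stabilizer G x).FG) (g : G) : (stabilizer G (g • x)).FG := by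
  rw [stabilizer_smul_eq_stabilizer_map_conj]
  exact fg_conj h g

theorem isCyclic_of_le (hK : IsCyclic K') (h : K ≤ K') : IsCyclic K := by
  exact Subgroup.isCyclic_of_le h

theorem isCyclic_conj (g : G) : IsCyclic (K.map (MulAut.conj g).toMonoidHom) ↔ IsCyclic K := by
  exact (MulEquiv.isCyclic
    (K.equivMapOfInjective (MulAut.conj g).toMonoidHom (MulAut.conj g).injective)).symm

theorem exists_gen_of_isCyclic (hK : IsCyclic K) : ∃ c : G, K = Subgroup.zpowers c := by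
  obtain ⟨c, hc⟩ := K.isCyclic_iff_exists_zpowers_eq_top.1 hK
  exact ⟨c, hc.symm⟩

end CPOR
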