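import Pool.Agent.P.MP_2cb329_al.F.T4b

/-! Theorem F: first Betti numbers, part 2 (Euler characteristic). -/

set_option autoImplicit false

namespace CPOR
open ZT MulAction

variable {V : Type} {T : SimpleGraph V} {G : Type} [Group G] [MulAction G V] {K : Subgroup G}

/-- An invariant orientation. -/
theorem t5_orient (hG : GF T G) (K : Subgroup G) :
    ∃ P : Set (V × V), Inv K P ∧ ∀ e : V × V, T.Adj e.1 e.2 → (e ∈ P ↔ e.swap ∉ P) := by
  let s : Setoid (V × V) := {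
    r := fun e e' => ∃ k ∈ K, k • e = e' ∨ k • e.swap = e'
    iseqv := {
      refl := fun e => ⟨1, one_mem _, Or.inl (one_smul _ _)⟩
      symm := by
        rintro e _ ⟨k, hk, rfl | rfl⟩
        · exact ⟨k⁻¹, inv_mem hk, Or.inl (inv_smul_smul k e)⟩
        · exact ⟨k⁻¹, inv_mem hk, Or.inr (inv_smul_smul k e)⟩
      trans := by
        rintro e _ _ ⟨k, hk, rfl | rfl⟩ ⟨l, hl, rfl | rfl⟩
        · exact ⟨l * k, mul_mem hl hk, Or.inl (mul_smul l k e)⟩
        · exact ⟨l * k, mul_mem hl hk, Or.inr (mul_smul l k e.swap)⟩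
        · exact ⟨l * k, mul_mem hl hk, Or.inr (mul_smul l k e.swap)⟩
        · exact ⟨l * k, mul_mem hl hk, Or.inl (mul_smul l k e)⟩ } }
  let ρ : V × V → V × V := fun e => (Quotient.mk s e).out
  have h1 : ∀ e, s e (ρ e) := fun e => Quotient.exact (Quotient.out_eq _).symm
  have h2 : ∀ e e', s e e' → ρ e = ρ e' := fun e e' h => by
    simp only [ρ]
    rw [Quotient.sound h]
  have h3 : ∀ e : V × V, ρ e.swap = ρ e := fun e =>
    (h2 _ _ ⟨1, one_mem _, Or.inr (one_smul _ _)⟩).symm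
  refine ⟨{e | ∃ k ∈ K, k • e = ρ e}, ?_, fun e he => ⟨?_, fun h => ?_⟩⟩
  · rintro k hk e ⟨l, hl, h⟩
    exact ⟨l * k⁻¹, mul_mem hl (inv_mem hk), by
      rw [mul_smul, inv_smul_smul, h, h2 _ _ ⟨k, hk, Or.inl rfl⟩]⟩
  · rintro ⟨k, -, h⟩ ⟨l, -, h'⟩
    refine hG.ne_swap (l⁻¹ * k) he ?_
    rw [mul_smul, h, ← h3, ← h', inv_smul_smul]
  · obtain ⟨k, hk, H | H⟩ := h1 e
    · exact ⟨k, hk, H⟩
    · exact (h ⟨k, hk, H.trans (h3 e).symm⟩).elim

/-- Induction along a geodesic inside a convex set. -/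
theorem t5_cvx_ind {X : Set V} (hX : Cvx T X) {P : V → Prop} {x : V} (hx : x ∈ X) (h0 : P x)
    (hs : ∀ y ∈ X, ∀ z ∈ X, T.Adj y z → P y → P z) {y : V} (hy : y ∈ X) : P y := by
  obtain ⟨a, a0, an, a1, -, a3⟩ := exists_geod (hX x hx y hy).1
  have hm : ∀ i ≤ T.dist x y, a i ∈ X := fun i hi => (hX x hx y hy).2 _ (a3 i hi)
  have : ∀ i ≤ T.dist x y, P (a i) := by
    intro i
    induction i with
    | zero => exact fun _ => a0 ▸ h0
    | succ i ih =>
      exact fun hi => hs _ (hm i (by omega)) _ (hm _ hi) (a1 i (by omega)) (ih (by omega))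
  exact an ▸ this _ le_rfl

theorem t5_rank (hG : GF T G) {X : Set V} (hX : KT T K X) {F : Finset V} (hF : Reps K X F)
    {P : Set (V × V)} (hP1 : Inv K P) (hP2 : ∀ e : V × V, T.Adj e.1 e.2 → (e ∈ P ↔ e.swap ∉ P))
    {A : Finset (V × V)} (hA : Reps K (P ∩ DartsIn T X) A) :
    Module.finrank ℚ (LinearMap.ker (resHom K F)) + F.card = A.card + 1 := by
  classical
  obtain ⟨x0, hx0⟩ := hX.ne
  have hT := hG.acyc
  have hre : ∀ x ∈ X, ∀ y ∈ X, T.Reachable x y := fun x hx y hy => (hX.cvx x hx y hy).1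
  obtain ⟨k0, -, y0, hy0, -⟩ := hF.cover x0 hx0
  have hex : ∀ y, ∃ (r : F) (k : G), y ∈ X → k ∈ K ∧ y = k • (r : V) := fun y => by
    by_cases hy : y ∈ X
    · obtain ⟨k, hk, z, hz, e⟩ := hF.cover y hy
      exact ⟨⟨z, hz⟩, k, fun _ => ⟨hk, e⟩⟩
    · exact ⟨⟨y0, hy0⟩, 1, fun H => (hy H).elim⟩
  choose r κ hrκ using hex
  have hr1 : ∀ y ∈ X, ∀ (z : F), ∀ k ∈ K, y = k • (z : V) → r y = z := fun y hy z k hk e =>
    Subtype.ext (hF.dist _ (r y).2 _ z.2 ⟨k⁻¹ * κ y, mul_mem (inv_mem hk) (hrκ y hy).1, by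
      rw [mul_smul, ← (hrκ y hy).2, e, inv_smul_smul]⟩)
  have hr2 : ∀ k ∈ K, ∀ y ∈ X, r (k • y) = r y := fun k hk y hy =>
    hr1 _ (hX.inv k hk y hy) _ (k * κ y) (mul_mem hk (hrκ y hy).1) (by
      rw [mul_smul, ← (hrκ y hy).2])
  have hr3 : ∀ z : F, r z = z := fun z =>
    hr1 _ (hF.sub _ z.2) z 1 (one_mem _) (one_smul _ _).symm
  choose φ hφ using fun a : V × V => exists_cross_hom hG (hX.pres hx0) a
  let Fw : (A → ℚ) → V → V → ℚ := fun w x y => ∑ a : A, w a * cross T K a x y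
  have Fadd : ∀ w, ∀ x ∈ X, ∀ y ∈ X, ∀ z ∈ X, Fw w x z = Fw w x y + Fw w y z := by
    intro w x hx y hy z hz
    simp only [Fw, cross_add hT _ (hre x hx y hy) (hre y hy z hz), mul_add, Finset.sum_add_distrib]
  have Fsm : ∀ w, ∀ k ∈ K, ∀ x y, Fw w (k • x) (k • y) = Fw w x y := fun w k hk x y => by
    simp only [Fw, cross_smul hG.acts hk]
  have Fself : ∀ w x, Fw w x x = 0 := fun w x => by simp [Fw, cross_self hT]
  have Fa : ∀ w (a : A), Fw w a.1.1 a.1.2 = w a := by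
    intro w a
    obtain ⟨a1, a2, -⟩ := hA.sub _ a.2
    simp only [Fw]
    rw [Finset.sum_eq_single a, cross_adj_of_mem hG a2 (mem_orb_self _), mul_one]
    · intro b _ hb
      rw [cross_adj_of_not_mem hG a2, mul_zero]
      · exact fun h => hb (Subtype.ext (hA.dist _ b.2 _ a.2 h))
      · rintro ⟨k, hk, h⟩
        have := hP1 k hk _ (hA.sub _ b.2).1
        rw [h] at this
        exact (hP2 _ a2).1 a1 this
    · exact fun h => (h (Finset.mem_univ a)).elim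
  have KL : ∀ (w : A → ℚ) (H : V → ℚ),
      (∀ k ∈ K, ∀ a : A, H (k • a.1.2) - H (k • a.1.1) = w a) →
      ∀ y ∈ X, Fw w x0 y = H y - H x0 := by
    intro w H hH y hy
    have key : ∀ y ∈ X, ∀ z ∈ X, T.Adj y z → (y, z) ∈ P → Fw w y z = H z - H y := by
      intro y hy z hz ha hp
      obtain ⟨k, hk, a, ha', e⟩ := hA.cover (y, z) ⟨hp, ha, hy, hz⟩
      obtain rfl : y = k • a.1 := congrArg Prod.fst e
      obtain rfl : z = k • a.2 := congrArg Prod.snd e
      rw [Fsm w k hk, Fa w ⟨a, ha'⟩, hH k hk ⟨a, ha'⟩]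
    refine t5_cvx_ind hX.cvx (P := fun y => Fw w x0 y = H y - H x0) hx0 (by simp [Fself])
      (fun y hy z hz ha ih => ?_) hy
    rw [Fadd w x0 hx0 y hy z hz, ih]
    by_cases hp : (y, z) ∈ P
    · rw [key y hy z hz ha hp]
      ring
    · have a1 := key z hz y hy ha.symm ((hP2 (z, y) ha.symm).2 hp)
      have a2 := Fadd w y hy z hz y hy
      rw [Fself] at a2
      linarith
  let d : (F → ℚ) →ₗ[ℚ] (A → ℚ) :=
    { toFun := fun h a => h (r a.1.2) - h (r a.1.1)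
      map_add' := fun h h' => funext fun a => by simp only [Pi.add_apply]; ring
      map_smul' := fun c h => funext fun a => by
        simp only [Pi.smul_apply, smul_eq_mul, RingHom.id_apply]; ring }
  let Q : (A → ℚ) →ₗ[ℚ] (Additive K →+ ℚ) := Fintype.linearCombination ℚ fun a : A => φ a
  have hQ : ∀ w (g : K), ∀ x ∈ X, Q w (Additive.ofMul g) = Fw w x ((g : G) • x) := by
    intro w g x hx
    simp only [Q, Fintype.linearCombination_apply, AddMonoidHom.finsetSum_apply,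
      AddMonoidHom.smul_apply, smul_eq_mul, Fw, hφ _ g x (hre _ hx0 _ hx)]
  have hAX : ∀ a : A, a.1.1 ∈ X ∧ a.1.2 ∈ X := fun a => (hA.sub _ a.2).2.2
  have hd : ∀ (h : F → ℚ), ∀ y ∈ X, Fw (d h) x0 y = h (r y) - h (r x0) := fun h =>
    KL (d h) (fun y => h (r y)) fun k hk a => by
      rw [hr2 k hk _ (hAX a).1, hr2 k hk _ (hAX a).2]
      rfl
  have e1 : LinearMap.ker d = Submodule.span ℚ {fun _ => (1 : ℚ)} := by
    ext h
    rw [LinearMap.mem_ker, Submodule.mem_span_singleton]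
    constructor
    · intro H
      refine ⟨h (r x0), funext fun z => ?_⟩
      have := hd h z (hF.sub _ z.2)
      rw [H, hr3] at this
      simp only [Fw, Pi.zero_apply, zero_mul, Finset.sum_const_zero] at this
      simp only [Pi.smul_apply, smul_eq_mul, mul_one]
      linarith
    · rintro ⟨c, rfl⟩
      exact funext fun a => sub_self _
  have e2 : LinearMap.ker Q = LinearMap.range d := by
    ext w
    rw [LinearMap.mem_ker, LinearMap.mem_range]
    constructor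
    · intro H
      have hinv : ∀ k ∈ K, ∀ y ∈ X, Fw w x0 (k • y) = Fw w x0 y := fun k hk y hy => by
        have := hQ w ⟨k, hk⟩ x0 hx0
        rw [H] at this
        rw [Fadd w x0 hx0 _ (hX.inv k hk _ hx0) _ (hX.inv k hk _ hy), Fsm w k hk, ← this]
        exact zero_add _
      have hr4 : ∀ y ∈ X, Fw w x0 (r y) = Fw w x0 y := fun y hy => by
        rw [← hinv _ (hrκ y hy).1 _ (hF.sub _ (r y).2), ← (hrκ y hy).2]
      refine ⟨fun z => Fw w x0 z, funext fun a => ?_⟩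
      show Fw w x0 (r a.1.2) - Fw w x0 (r a.1.1) = w a
      rw [hr4 _ (hAX a).1, hr4 _ (hAX a).2, Fadd w x0 hx0 _ (hAX a).1 _ (hAX a).2, Fa]
      ring
    · rintro ⟨h, rfl⟩
      ext g
      show Q (d h) (Additive.ofMul g) = 0
      rw [hQ _ g x0 hx0, hd h _ (hX.inv _ g.2 _ hx0), hr2 _ g.2 _ hx0, sub_self]
  have e3 : LinearMap.range Q = LinearMap.ker (resHom K F) := by
    ext χ
    rw [LinearMap.mem_range, mem_ker_resHom]
    constructor
    · rintro ⟨w, rfl⟩ x hx g hg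
      rw [hQ w g x (hF.sub x hx), hg, Fself]
    · intro H
      let Hf : V → ℚ := fun y => if hy : y ∈ X then χ (Additive.ofMul ⟨κ y, (hrκ y hy).1⟩) else 0
      have hH : ∀ k (hk : k ∈ K), ∀ y ∈ X, Hf (k • y) = χ (Additive.ofMul ⟨k, hk⟩) + Hf y := by
        intro k hk y hy
        have hy' := hX.inv k hk y hy
        simp only [Hf, dif_pos hy, dif_pos hy']
        have a1 := H _ (r y).2 ((⟨_, (hrκ _ hy').1⟩ : K)⁻¹ * ⟨k, hk⟩ * ⟨_, (hrκ _ hy).1⟩) (by
          show ((κ (k • y))⁻¹ * k * κ y) • (r y : V) = r y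
          rw [mul_smul, mul_smul, ← (hrκ y hy).2, inv_smul_eq_iff, ← hr2 k hk y hy]
          exact (hrκ _ hy').2)
        rw [ofMul_mul, ofMul_mul, ofMul_inv, map_add, map_add, map_neg] at a1
        linarith
      refine ⟨fun a => Hf a.1.2 - Hf a.1.1, ?_⟩
      ext g
      show Q _ (Additive.ofMul g) = χ (Additive.ofMul g)
      rw [hQ _ g x0 hx0, KL _ Hf (fun k hk a => by
        rw [hH k hk _ (hAX a).1, hH k hk _ (hAX a).2]
        ring) _ (hX.inv _ g.2 _ hx0), hH _ g.2 _ hx0]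
      ring
  have b1 := d.finrank_range_add_finrank_ker
  have b2 := Q.finrank_range_add_finrank_ker
  rw [e1, finrank_span_singleton (fun h => one_ne_zero (congrFun h ⟨y0, hy0⟩))] at b1
  rw [e2, e3] at b2
  simp only [Module.finrank_fintype_fun_eq_card, Fintype.card_coe] at b1 b2
  omega

/-- Euler characteristic formula. -/
theorem euler (hG : GF T G) (hK : K.FG) {X : Set V} (hX : KC T K X) {F : Finset V}
    (hF : Reps K X F) :
    2 * beta K + 2 * F.card =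
      2 * ∑ x ∈ F, beta (K ⊓ stabilizer G x) + nOrb K (DartsIn T X) + 2 := by
  classical
  obtain ⟨P, hP1, hP2⟩ := t5_orient hG K
  obtain ⟨A, hA⟩ := (hX.finE.mono (Set.inter_subset_right (s := P))).exists_reps
  obtain ⟨x0, hx0⟩ := hX.ne
  have h1 := t5_rank hG hX.toKT hF hP1 hP2 hA
  have h2 := beta_eq_sum_add hG hK (hX.pres hx0) F (fun x hx => (hX.cvx _ hx0 _ (hF.sub x hx)).1)
    hF.dist
  have hsw : ∀ e ∈ DartsIn T X, e.swap ∈ DartsIn T X := fun e he => ⟨he.1.symm, he.2.2, he.2.1⟩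
  have h3 : Reps K (DartsIn T X) (A ∪ A.image Prod.swap) := by
    refine ⟨fun e he => ?_, fun e he => ?_, fun e he e' he' ⟨k, hk, h⟩ => ?_⟩
    · rcases Finset.mem_union.1 he with he | he
      · exact (hA.sub e he).2
      · obtain ⟨a, ha, rfl⟩ := Finset.mem_image.1 he
        exact hsw _ (hA.sub a ha).2
    · by_cases hp : e ∈ P
      · obtain ⟨k, hk, a, ha, h⟩ := hA.cover e ⟨hp, he⟩
        exact ⟨k, hk, a, Finset.mem_union_left _ ha, h⟩
      · obtain ⟨k, hk, a, ha, h⟩ := hA.cover e.swap ⟨(hP2 e.swap he.1.symm).2 hp, hsw e he⟩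
        exact ⟨k, hk, a.swap, Finset.mem_union_right _ (Finset.mem_image_of_mem _ ha),
          congrArg Prod.swap h⟩
    · rcases Finset.mem_union.1 he with he | he <;> rcases Finset.mem_union.1 he' with he' | he'
      · exact hA.dist _ he _ he' ⟨k, hk, h⟩
      · obtain ⟨a, ha, rfl⟩ := Finset.mem_image.1 he'
        exact ((hP2 a (hA.sub a ha).2.1).1 (hA.sub a ha).1 (h ▸ hP1 k hk _ (hA.sub e he).1)).elim
      · obtain ⟨a, ha, rfl⟩ := Finset.mem_image.1 he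
        have : k • a = e'.swap := congrArg Prod.swap h
        exact ((hP2 e' (hA.sub e' he').2.1).1 (hA.sub e' he').1
          (this ▸ hP1 k hk _ (hA.sub a ha).1)).elim
      · obtain ⟨a, ha, rfl⟩ := Finset.mem_image.1 he
        obtain ⟨b, hb, rfl⟩ := Finset.mem_image.1 he'
        rw [hA.dist _ ha _ hb ⟨k, hk, congrArg Prod.swap h⟩]
  have h4 := h3.card
  rw [Finset.card_union_of_disjoint, Finset.card_image_of_injective _ Prod.swap_injective] at h4
  · omega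
  · rw [Finset.disjoint_left]
    intro e he he'
    obtain ⟨a, ha, rfl⟩ := Finset.mem_image.1 he'
    exact (hP2 a (hA.sub a ha).2.1).1 (hA.sub a ha).1 (hA.sub _ he).1

theorem t5_fin (hG : GF T G) {X : Set V} (hX : KC T K X) {x : V} (hx : x ∈ X) :
    FinOrb (K ⊓ stabilizer G x) {y | y ∈ X ∧ T.Adj x y} :=
  ((hX.finE.fibre (inv_dartsIn hG.acts hX.inv) Prod.fst (fun _ _ _ _ => rfl) x).image Prod.snd
    fun _ _ _ _ _ => rfl).mono fun y hy => ⟨(x, y), ⟨⟨hy.2, hx, hy.1⟩, rfl⟩, rfl⟩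

open Classical in
theorem t5_sum (hG : GF T G) {X : Set V} (hX : KC T K X) {F : Finset V} (hF : Reps K X F)
    (Q : V → Prop) (hQ : ∀ k ∈ K, ∀ x, Q (k • x) → Q x) :
    nOrb K {e | e ∈ DartsIn T X ∧ Q e.1} =
      ∑ x ∈ F.filter Q, nOrb (K ⊓ stabilizer G x) {y | y ∈ X ∧ T.Adj x y} := by
  have hB : ∀ x, ∃ B : Finset V, x ∈ X → Reps (K ⊓ stabilizer G x) {y | y ∈ X ∧ T.Adj x y} B :=
    fun x => by
      by_cases hx : x ∈ X
      · obtain ⟨B, hB⟩ := (t5_fin hG hX hx).exists_reps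
        exact ⟨B, fun _ => hB⟩
      · exact ⟨∅, fun H => (hx H).elim⟩
  choose B hB using hB
  have h1 : Reps K {e | e ∈ DartsIn T X ∧ Q e.1}
      ((F.filter Q).biUnion fun x => (B x).image fun y => (x, y)) := by
    refine ⟨fun e he => ?_, fun e he => ?_, fun e he e' he' ⟨k, hk, h⟩ => ?_⟩
    · obtain ⟨x, hx, he⟩ := Finset.mem_biUnion.1 he
      obtain ⟨y, hy, rfl⟩ := Finset.mem_image.1 he
      rw [Finset.mem_filter] at hx
      have := (hB x (hF.sub x hx.1)).sub y hy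
      exact ⟨⟨this.2, hF.sub x hx.1, this.1⟩, hx.2⟩
    · obtain ⟨k, hk, x, hx, h⟩ := hF.cover e.1 he.1.2.1
      obtain ⟨l, hl, y, hy, h'⟩ := (hB x (hF.sub x hx)).cover (k⁻¹ • e.2)
        ⟨hX.inv _ (inv_mem hk) _ he.1.2.2, by
          have := hG.acts k⁻¹ _ _ he.1.1
          rwa [h, inv_smul_smul] at this⟩
      refine ⟨k * l, mul_mem hk hl.1, (x, y), Finset.mem_biUnion.2 ⟨x, Finset.mem_filter.2
        ⟨hx, hQ k hk x (h ▸ he.2)⟩, Finset.mem_image_of_mem _ hy⟩, Prod.ext ?_ ?_⟩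
      · show e.1 = (k * l) • x
        rw [mul_smul, show l • x = x from hl.2, h]
      · show e.2 = (k * l) • y
        rw [mul_smul, ← h', smul_inv_smul]
    · obtain ⟨x, hx, he⟩ := Finset.mem_biUnion.1 he
      obtain ⟨y, hy, rfl⟩ := Finset.mem_image.1 he
      obtain ⟨x', hx', he'⟩ := Finset.mem_biUnion.1 he'
      obtain ⟨y', hy', rfl⟩ := Finset.mem_image.1 he'
      rw [Finset.mem_filter] at hx hx'
      have a1 : k • x = x' := congrArg Prod.fst h
      obtain rfl := hF.dist _ hx.1 _ hx'.1 ⟨k, hk, a1⟩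
      rw [(hB x (hF.sub x hx.1)).dist _ hy _ hy' ⟨k, ⟨hk, a1⟩, congrArg Prod.snd h⟩]
  rw [← h1.card, Finset.card_biUnion]
  · refine Finset.sum_congr rfl fun x hx => ?_
    rw [Finset.card_image_of_injective _ (Prod.mk_right_injective x),
      (hB x (hF.sub x (Finset.mem_filter.1 hx).1)).card]
  · intro x _ x' _ hne
    rw [Function.onFun, Finset.disjoint_left]
    intro e he he'
    obtain ⟨y, -, rfl⟩ := Finset.mem_image.1 he
    obtain ⟨y', -, h⟩ := Finset.mem_image.1 he'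
    exact hne (congrArg Prod.fst h).symm

theorem nOrb_darts_eq_sum (hG : GF T G) {X : Set V} (hX : KC T K X) {F : Finset V}
    (hF : Reps K X F) :
    nOrb K (DartsIn T X) = ∑ x ∈ F, nOrb (K ⊓ stabilizer G x) {y | y ∈ X ∧ T.Adj x y} := by
  have := t5_sum hG hX hF (fun _ => True) fun _ _ _ _ => trivial
  simpa using this

theorem finOrb_nbrs (hG : GF T G) {X : Set V} (hX : KC T K X) {x : V} (hx : x ∈ X) :
    FinOrb (K ⊓ stabilizer G x) {y | y ∈ X ∧ T.Adj x y} := by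
  exact t5_fin hG hX hx

theorem nOrb_bot {Y : Type} [MulAction G Y] (S : Set Y) : nOrb (⊥ : Subgroup G) S = S.ncard := by
  refine Set.ncard_image_of_injective S fun x y h => ?_
  obtain ⟨k, hk, e⟩ := orb_eq_iff.1 h
  rw [← e, Subgroup.mem_bot.1 hk, one_smul]

theorem t5_deg (hG : GF T G) {X : Set V} (hX : KC T K X) {x : V} (hx : x ∈ X)
    (hb : K ⊓ stabilizer G x = ⊥) (B : Finset V) (hB : ∀ y ∈ B, y ∈ X ∧ T.Adj x y) :
    B.card ≤ nOrb (K ⊓ stabilizer G x) {y | y ∈ X ∧ T.Adj x y} :=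
  (t5_fin hG hX hx).card_le B hB fun y _ z _ ⟨k, hk, e⟩ => by
    rw [hb, Subgroup.mem_bot] at hk
    rw [← e, hk, one_smul]

theorem t5_deg2 (hG : GF T G) {X : Set V} (hX : KC T K X) {x : V} (hx : x ∈ X)
    (hb : K ⊓ stabilizer G x = ⊥) {y z : V} (hy : y ∈ X) (hz : z ∈ X) (h1 : T.Adj x y)
    (h2 : T.Adj x z) (hne : y ≠ z) : 2 ≤ nOrb (K ⊓ stabilizer G x) {y | y ∈ X ∧ T.Adj x y} := by
  classical
  have := t5_deg hG hX hx hb {y, z} (by simp [hy, hz, h1, h2])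
  rwa [Finset.card_pair hne] at this

theorem t5_deg3 (hG : GF T G) {X : Set V} (hX : KC T K X) {x : V} (hx : x ∈ X)
    (hb : K ⊓ stabilizer G x = ⊥) {y z w : V} (hy : y ∈ X) (hz : z ∈ X) (hw : w ∈ X)
    (h1 : T.Adj x y) (h2 : T.Adj x z) (h3 : T.Adj x w) (a1 : y ≠ z) (a2 : y ≠ w) (a3 : z ≠ w) :
    3 ≤ nOrb (K ⊓ stabilizer G x) {y | y ∈ X ∧ T.Adj x y} := by
  classical
  have := t5_deg hG hX hx hb {y, z, w} (by simp [hy, hz, hw, h1, h2, h3])
  rwa [Finset.card_eq_three.2 ⟨y, z, w, a1, a2, a3, rfl⟩] at this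

/-- A vertex group of full rank is the whole group. -/
theorem le_stab_of_beta_le (hG : GF T G) (hK : K.FG) {y : V} (hy : Pres T K y)
    (hpos : ∀ x, T.Reachable y x → K ⊓ stabilizer G x ≠ ⊥ → 1 ≤ beta (K ⊓ stabilizer G x))
    (h : beta K ≤ beta (K ⊓ stabilizer G y)) : K ≤ stabilizer G y := by
  classical
  have hT := hG.acyc
  have hX := kc_hull hG hK hy
  have hyX : y ∈ hull T (orb K y) := subset_hull _ (mem_orb_self y)
  have hre : ∀ x ∈ hull T (orb K y), T.Reachable y x := fun x hx => (hX.cvx _ hyX _ hx).1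
  obtain ⟨F, hF0, hF⟩ := hX.finV.extend_reps {y} (fun x hx => Finset.mem_singleton.1 hx ▸ hyX)
    fun a ha b hb _ => by rw [Finset.mem_singleton.1 ha, Finset.mem_singleton.1 hb]
  have hyF : y ∈ F := hF0 (Finset.mem_singleton_self y)
  have h1 := euler hG hK hX hF
  have h2 := sum_beta_le hG hK hy F (fun x hx => hre x (hF.sub x hx)) hF.dist
  have h3 := nOrb_darts_eq_sum hG hX hF
  rw [← Finset.add_sum_erase _ _ hyF] at h1 h2 h3
  have h4 : ∑ x ∈ F.erase y, beta (K ⊓ stabilizer G x) = 0 := by omega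
  have h5 : ∑ x ∈ F.erase y, 2 ≤ ∑ x ∈ F.erase y,
      nOrb (K ⊓ stabilizer G x) {z | z ∈ hull T (orb K y) ∧ T.Adj x z} := by
    refine Finset.sum_le_sum fun x hx => ?_
    have hxF := Finset.mem_of_mem_erase hx
    have hxX := hF.sub x hxF
    have hb : K ⊓ stabilizer G x = ⊥ := by
      by_contra H
      have := hpos x (hre x hxX) H
      have := Finset.sum_eq_zero_iff.1 h4 x hx
      omega
    have hno : ∀ p ∈ orb K y, p ≠ x := fun p hp e =>
      Finset.ne_of_mem_erase hx (hF.dist _ hyF _ hxF (e ▸ hp)).symm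
    obtain ⟨p, hp, q, hq, hb'⟩ := hxX
    have b1 := sep_nxt hT hb'.1.symm (hno p hp).symm
    have b2 := sep_nxt hT hb'.2.1 (hno q hq).symm
    exact t5_deg2 hG hX (hF.sub x hxF) hb
      ((hX.cvx _ (hF.sub x hxF) _ (subset_hull _ hp)).2 _ b1.2.2)
      ((hX.cvx _ (hF.sub x hxF) _ (subset_hull _ hq)).2 _ b2.2.2) b1.1 b2.1
      (nxt_ne_of_btw hT hb' (hno p hp) (hno q hq))
  rw [Finset.sum_const, Finset.card_erase_of_mem hyF, smul_eq_mul] at h5
  have h6 := Finset.card_pos.2 ⟨y, hyF⟩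
  intro k hk
  by_contra H
  have b1 := sep_nxt hT (hy k hk) fun e => H e.symm
  have h7 := (t5_fin hG hX hyX).card_le {nxt T y (k • y)} (fun z hz => by
    rw [Finset.mem_singleton.1 hz]
    exact ⟨(hX.cvx _ hyX _ (subset_hull _ ⟨k, hk, rfl⟩)).2 _ b1.2.2, b1.1⟩)
    fun a ha b hb _ => by rw [Finset.mem_singleton.1 ha, Finset.mem_singleton.1 hb]
  rw [Finset.card_singleton] at h7
  omega

/-- Bound for the number of edges of a reduced splitting. -/
theorem nOrb_darts_le (hG : GF T G) (hK : K.FG) {X : Set V} (hX : KC T K X)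
    (hpos : ∀ x ∈ X, K ⊓ stabilizer G x ≠ ⊥ → 1 ≤ beta (K ⊓ stabilizer G x))
    (hval : ∀ x ∈ X, K ⊓ stabilizer G x = ⊥ →
      ∃ y ∈ X, ∃ z ∈ X, ∃ w ∈ X, T.Adj x y ∧ T.Adj x z ∧ T.Adj x w ∧ y ≠ z ∧ y ≠ w ∧ z ≠ w) :
    nOrb K (DartsIn T X) ≤ 6 * beta K := by
  obtain ⟨F, hF⟩ := hX.finV.exists_reps
  have h1 := euler hG hK hX hF
  have h3 := nOrb_darts_eq_sum hG hX hF
  have h4 : ∑ x ∈ F, 6 ≤ ∑ x ∈ F, (2 * nOrb (K ⊓ stabilizer G x) {y | y ∈ X ∧ T.Adj x y} +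
      6 * beta (K ⊓ stabilizer G x)) := by
    refine Finset.sum_le_sum fun x hx => ?_
    by_cases hb : K ⊓ stabilizer G x = ⊥
    · obtain ⟨y, hy, z, hz, w, hw, a1, a2, a3, a4, a5, a6⟩ := hval x (hF.sub x hx) hb
      have := t5_deg3 hG hX (hF.sub x hx) hb hy hz hw a1 a2 a3 a4 a5 a6
      omega
    · have := hpos x (hF.sub x hx) hb
      omega
  rw [Finset.sum_add_distrib, ← Finset.mul_sum, ← Finset.mul_sum, Finset.sum_const,
    smul_eq_mul] at h4
  omega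

theorem FT.t5_bot (hF : FT T G) (K : Subgroup G) (x : V) : K ⊓ stabilizer G x = ⊥ :=
  eq_bot_iff.2 fun g hg => Subgroup.mem_bot.2 (hF.free g x hg.2)

theorem FT.t5_euler (hF : FT T G) (hK : K.FG) {X : Set V} (hX : KC T K X) {F : Finset V}
    (hR : Reps K X F) :
    2 * beta K + 2 * F.card = ∑ x ∈ F, {y | y ∈ X ∧ T.Adj x y}.ncard + 2 := by
  have h1 := euler hF.toGF hK hX hR
  rw [nOrb_darts_eq_sum hF.toGF hX hR] at h1
  simpa only [hF.t5_bot, beta_bot, nOrb_bot, Finset.sum_const_zero, mul_zero, zero_add] using h1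

theorem FT.t5_two (hF : FT T G) {X : Set V} (hX : KC T K X) (hl : Leafless T X) {x : V}
    (hx : x ∈ X) : 2 ≤ {y | y ∈ X ∧ T.Adj x y}.ncard := by
  obtain ⟨y, hy, z, hz, a1, a2, a3⟩ := hl x hx
  have := t5_deg2 hF.toGF hX hx (hF.t5_bot K x) hy hz a1 a2 a3
  rwa [hF.t5_bot, nOrb_bot] at this

theorem t5_ncard_smul (hA : Acts T G) {X : Set V} (hX : Inv K X) {k : G} (hk : k ∈ K) (x : V) :
    {y | y ∈ X ∧ T.Adj (k • x) y}.ncard = {y | y ∈ X ∧ T.Adj x y}.ncard := by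
  rw [← Set.ncard_image_of_injective {y | y ∈ X ∧ T.Adj x y} (MulAction.injective k)]
  congr 1
  ext y
  constructor
  · rintro ⟨h1, h2⟩
    refine ⟨k⁻¹ • y, ⟨hX _ (inv_mem hk) _ h1, ?_⟩, smul_inv_smul k y⟩
    simpa only [inv_smul_smul] using hA k⁻¹ _ _ h2
  · rintro ⟨z, ⟨h1, h2⟩, rfl⟩
    exact ⟨hX k hk _ h1, hA k _ _ h2⟩

theorem FT.one_le_beta (hF : FT T G) (hK : K.FG) (hne : K ≠ ⊥) {c : V} (hc : Pres T K c) :
    1 ≤ beta K := by
  by_contra H
  have := le_stab_of_beta_le hF.toGF hK hc (fun x _ h => (h (hF.t5_bot K x)).elim) (by omega)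
  exact hne ((inf_eq_left.2 this).symm.trans (hF.t5_bot K c))

theorem FT.isCyclic_iff (hF : FT T G) (hK : K.FG) {c : V} (hc : Pres T K c) :
    IsCyclic K ↔ beta K ≤ 1 := by
  refine ⟨beta_le_one_of_isCyclic, fun h => ?_⟩
  by_cases hne : K = ⊥
  · subst hne
    infer_instance
  have hX := hF.kc_minT hK hne hc
  have hl := leafless_minT (K := K) hF.toGF c
  obtain ⟨F, hR⟩ := hX.finV.exists_reps
  have h1 := hF.t5_euler hK hX hR
  have h2 : ∀ x ∈ MinT T K c, {y | y ∈ MinT T K c ∧ T.Adj x y}.ncard ≤ 2 := by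
    intro x hx
    obtain ⟨k, hk, z, hz, rfl⟩ := hR.cover x hx
    rw [t5_ncard_smul hF.acts hX.inv hk]
    by_contra H
    have h3 : ∑ x ∈ F, 2 < ∑ x ∈ F, {y | y ∈ MinT T K c ∧ T.Adj x y}.ncard :=
      Finset.sum_lt_sum (fun x hx => hF.t5_two hX hl (hR.sub x hx)) ⟨z, hz, not_le.1 H⟩
    rw [Finset.sum_const, smul_eq_mul] at h3
    omega
  obtain ⟨p, hp, g, hg, a, l, ha, i0, rfl⟩ := hX.ne
  have h4 : ∀ i, a i ∈ MinT T K c := fun i =>
    ⟨hp.trans (ha.1.dist hF.acyc i0 i).1, g, hg, a, l, ha, i, rfl⟩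
  have h5 : ∀ x ∈ MinT T K c, x ∈ Set.range a := fun x hx => by
    refine t5_cvx_ind hX.cvx (P := fun x => x ∈ Set.range a) (h4 0) ⟨0, rfl⟩ ?_ hx
    rintro _ hy z hz hyz ⟨i, rfl⟩
    by_contra H
    have b1 : T.Adj (a i) (a (i - 1)) := by
      have := (ha.1.1 (i - 1)).symm
      rwa [sub_add_cancel] at this
    have b2 := t5_deg3 hF.toGF hX hy (hF.t5_bot K _) (h4 (i - 1)) (h4 (i + 1)) hz b1 (ha.1.1 i) hyz
      (fun e => by have := ha.1.inj hF.acyc e; omega) (fun e => H ⟨_, e⟩) fun e => H ⟨_, e⟩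
    rw [hF.t5_bot, nOrb_bot] at b2
    have := h2 _ hy
    omega
  exact hF.isCyclic_of_line ha.1 fun k hk i => h5 _ (hX.inv k hk _ (h4 i))

/-- Number of orbits of branch vertices and of darts at them. -/
theorem FT.branch_count (hF : FT T G) (hK : K.FG) {X : Set V} (hX : KC T K X)
    (hl : Leafless T X) :
    nOrb K {e | e ∈ DartsIn T X ∧ 3 ≤ {y | y ∈ X ∧ T.Adj e.1 y}.ncard} ≤ 6 * beta K ∧
      (2 ≤ beta K → ∃ x ∈ X, 3 ≤ {y | y ∈ X ∧ T.Adj x y}.ncard) := by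
  classical
  obtain ⟨F, hR⟩ := hX.finV.exists_reps
  have h1 := hF.t5_euler hK hX hR
  constructor
  · rw [t5_sum hF.toGF hX hR (fun x => 3 ≤ {y | y ∈ X ∧ T.Adj x y}.ncard)
      fun k hk x h => t5_ncard_smul hF.acts hX.inv hk x ▸ h]
    simp only [hF.t5_bot, nOrb_bot]
    rw [Finset.sum_filter]
    have h2 : ∑ x ∈ F, ((if 3 ≤ {y | y ∈ X ∧ T.Adj x y}.ncard then
        {y | y ∈ X ∧ T.Adj x y}.ncard else 0) + 6) ≤
        ∑ x ∈ F, 3 * {y | y ∈ X ∧ T.Adj x y}.ncard := by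
      refine Finset.sum_le_sum fun x hx => ?_
      have := hF.t5_two hX hl (hR.sub x hx)
      split_ifs <;> omega
    rw [Finset.sum_add_distrib, ← Finset.mul_sum, Finset.sum_const, smul_eq_mul] at h2
    calc _ = ∑ x ∈ F, (if 3 ≤ {y | y ∈ X ∧ T.Adj x y}.ncard then
          {y | y ∈ X ∧ T.Adj x y}.ncard else 0) := Finset.sum_congr rfl fun x _ => by congr
      _ ≤ _ := by omega
  · intro h
    by_contra H
    push Not at H
    have h2 : ∑ x ∈ F, {y | y ∈ X ∧ T.Adj x y}.ncard ≤ ∑ x ∈ F, 2 :=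
      Finset.sum_le_sum fun x hx => Nat.lt_succ_iff.1 (H x (hR.sub x hx))
    rw [Finset.sum_const, smul_eq_mul] at h2
    omega

end CPOR
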