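import Pool.Agent.P.MP_2cb329_al.F.RN
import Pool.Agent.P.MP_2cb329_al.F.T5

/-! Train tracks: the bound on the number of edges, vertices with nontrivial stabiliser. -/

set_option autoImplicit false

namespace CPOR

open ZT MulAction

variable {G : Type} [Group G] {N : Type} [MulAction G N] {S : Sys G N}
variable {W : Type} [MulAction G W] {Z : Spl S W}

theorem RT.pos_beta (S : Sys G N) {v : N} {K : Subgroup G} (hK : K.FG) (hv : K ≤ stabilizer G v)
    (hne : K ≠ ⊥) : 1 ≤ beta K := by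
  obtain ⟨c, rfl⟩ := S.nd_surj v
  have hF : FT S.B G := { S.gf with free := S.free, lf := S.lf }
  exact hF.one_le_beta hK hne (c := c) fun k hk =>
    (S.nd_eq _ _).1 (by rw [S.nd_smul]; exact (hv hk).symm)

theorem Spl.pres {K : Subgroup G} {x : W} (h : K ≤ stabilizer G (Z.ν x)) : Pres Z.T K x :=
  fun _ hk => Spl.reach_smul (h hk)

theorem Spl.pos_beta {K : Subgroup G} (hK : K.FG) {x : W} (h : K ≤ stabilizer G (Z.ν x))
    (hne : K ⊓ stabilizer G x ≠ ⊥) : 1 ≤ beta (K ⊓ stabilizer G x) :=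
  RT.pos_beta S (fg_inf_stab Z.gf hK (Spl.pres h)) (inf_le_left.trans h) hne

theorem Spl.fg_stab (hS : S.Bij) (Z : Spl S W) (x : W) : (stabilizer G x).FG := by
  have := fg_inf_stab Z.gf (hS.fg (Z.ν x)) (Spl.pres (Z := Z) (x := x) le_rfl)
  rwa [inf_eq_right.2 (Spl.stab_le x)] at this

theorem Spl.kc_node (Z : Spl S W) (v : N) : KC Z.T (stabilizer G v) {x | Z.ν x = v} where
  ne := Z.ν_surj v
  cvx := fun x hx z hz => ⟨(Z.ν_eq _ _).1 (Eq.trans hx hz.symm),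
    fun y hy => ((Z.ν_eq _ _).2 hy.1).symm.trans hx⟩
  inv := fun k hk x hx => by
    show Z.ν (k • x) = v
    rw [Z.ν_smul, show Z.ν x = v from hx]
    exact hk
  finV := by
    have := Z.finW.fibre (fun _ _ _ _ => trivial) Z.ν (fun k _ x _ => Z.ν_smul k x) v
    rw [top_inf_eq] at this
    exact this.mono fun x hx => ⟨trivial, hx⟩
  finE := by
    have := Z.finE.fibre (fun k _ _ h => Z.gf.acts k _ _ h) (fun e => Z.ν e.1)
      (fun k _ x _ => Z.ν_smul k x.1) v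
    rw [top_inf_eq] at this
    exact this.mono fun x hx => ⟨hx.1, hx.2.1⟩

theorem edge_bound {ρ : ℕ} (hS : S.Aut ρ) :
    ∃ E0 : ℕ, ∀ (A : Adm S) (b : ℝ), A.Min b → A.E ≤ E0 := by
  classical
  obtain ⟨F, hF, hF'⟩ := S.finV
  refine ⟨hF.toFinset.card * (6 * ρ), fun A b h => ?_⟩
  let C : N → Finset A.Z.EO := fun v =>
    Finset.univ.filter fun c => ∃ d : A.Z.D, d.cl = c ∧ A.Z.ν d.o = v
  have h1 : ∀ v, (C v).card ≤ 6 * ρ := by
    intro v
    have hK := A.Z.kc_node v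
    have h2 := nOrb_darts_le A.Z.gf (hS.toBij.fg v) hK
      (fun x hx hne => Spl.pos_beta (hS.toBij.fg v) (by rw [show A.Z.ν x = v from hx]) hne)
      (fun x hx hb => by
        have hx' : A.Z.ν x = v := hx
        rw [inf_eq_right.2 (hx' ▸ Spl.stab_le x)] at hb
        obtain ⟨d1, d2, d3, rfl, a2, a3, b1, b2, b3⟩ := h.three hS hb
        exact ⟨d1.t, d1.ν_t.trans hx', d2.t, d2.ν_t.trans (a2 ▸ hx'), d3.t,
          d3.ν_t.trans (a3 ▸ hx'), d1.adj, a2 ▸ d2.adj, a3 ▸ d3.adj,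
          fun e => b1 (Spl.D.ext' a2.symm e), fun e => b2 (Spl.D.ext' a3.symm e),
          fun e => b3 (Spl.D.ext' (a2.trans a3.symm) e)⟩)
    rw [hS.bN] at h2
    refine le_trans ?_ h2
    have h3 : ∀ c : A.Z.EO, ∃ e : A.W × A.W, c ∈ C v →
        ∃ d : A.Z.D, d.p = e ∧ d.cl = c ∧ A.Z.ν d.o = v := fun c => by
      by_cases hc : c ∈ C v
      · obtain ⟨d, hd⟩ := (Finset.mem_filter.1 hc).2
        exact ⟨d.p, fun _ => ⟨d, rfl, hd⟩⟩
      · obtain ⟨d, -⟩ := Spl.cl_surj c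
        exact ⟨d.p, fun H => (hc H).elim⟩
    choose e he using h3
    rw [← Set.ncard_coe_finset]
    refine Set.ncard_le_ncard_of_injOn (fun c => orb (stabilizer G v) (e c)) (fun c hc => ?_)
      (fun c hc c' hc' H => ?_) (finOrb_iff.1 hK.finE)
    · obtain ⟨d, a1, -, a3⟩ := he c hc
      exact ⟨e c, a1 ▸ ⟨d.adj, a3, d.ν_t.trans a3⟩, rfl⟩
    · obtain ⟨d, a1, rfl, -⟩ := he c hc
      obtain ⟨d', a1', rfl, -⟩ := he c' hc'
      obtain ⟨k, -, hk⟩ := orb_eq_iff.1 H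
      rw [← a1, ← a1'] at hk
      rw [← Spl.D.p_inj (show (k • d).p = d'.p from hk), Spl.D.cl_smul]
  have h2 : (Finset.univ : Finset A.Z.EO) ⊆ hF.toFinset.biUnion fun p => C (S.nd p) := by
    intro c _
    obtain ⟨d, rfl⟩ := Spl.cl_surj c
    obtain ⟨p, hp⟩ := S.nd_surj (A.Z.ν d.o)
    obtain ⟨k, -, hk⟩ := hF' p trivial
    refine Finset.mem_biUnion.2 ⟨k • p, hF.mem_toFinset.2 hk, Finset.mem_filter.2
      ⟨Finset.mem_univ _, k • d, d.cl_smul k, ?_⟩⟩
    rw [Spl.D.smul_o, A.Z.ν_smul, S.nd_smul, hp]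
  exact (Finset.card_le_card h2).trans (Finset.card_biUnion_le_card_mul _ _ _ fun p _ => h1 _)

namespace TMap

variable (φ : TMap Z) (hS : S.Bij)
include hS

theorem stab_f_le (x : W) : stabilizer G (φ.f x) ≤ stabilizer G (Z.ν x) :=
  (Spl.stab_le _).trans (φ.stab_ν hS x).le

theorem beta_mono (x : W) : beta (stabilizer G x) ≤ beta (stabilizer G (φ.f x)) := by
  have := sum_beta_le Z.gf (Z.fg_stab hS (φ.f x)) (Spl.pres (φ.stab_f_le hS x)) {x}
    (fun y hy => by rw [Finset.mem_singleton.1 hy])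
    (fun y hy z hz _ => by rw [Finset.mem_singleton.1 hy, Finset.mem_singleton.1 hz])
  rwa [Finset.sum_singleton, inf_eq_right.2 (RT.stab_smul_le φ.smul x)] at this

theorem stab_eq {x : W} (h : beta (stabilizer G (φ.f x)) ≤ beta (stabilizer G x)) :
    stabilizer G x = stabilizer G (φ.f x) := by
  refine le_antisymm (RT.stab_smul_le φ.smul x) (le_stab_of_beta_le Z.gf (Z.fg_stab hS (φ.f x))
    (Spl.pres (φ.stab_f_le hS x)) 
    (fun y hy hne => Spl.pos_beta (Z := Z) (Z.fg_stab hS (φ.f x)) ?_ hne) ?_)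
  · rw [← (Z.ν_eq _ _).2 hy]
    exact φ.stab_f_le hS x
  · rwa [inf_eq_right.2 (RT.stab_smul_le φ.smul x)]

omit hS in
theorem f_iter_smul (g : G) (n : ℕ) (x : W) : φ.f^[n] (g • x) = g • φ.f^[n] x := by
  induction n with
  | zero => rfl
  | succ n ih => rw [Function.iterate_succ_apply', Function.iterate_succ_apply', ih, φ.smul]

theorem beta_iter (n : ℕ) (x : W) : beta (stabilizer G x) ≤ beta (stabilizer G (φ.f^[n] x)) := by
  induction n with
  | zero => rfl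
  | succ n ih =>
    rw [Function.iterate_succ_apply']
    exact ih.trans (φ.beta_mono hS _)

theorem per_pre {y : W} (h : ∃ (n : ℕ) (g : G), φ.f^[n + 1] y = g • y) :
    ∃ x, φ.f x = y ∧ stabilizer G x = stabilizer G y ∧
      ∃ (n : ℕ) (g : G), φ.f^[n + 1] x = g • x := by
  obtain ⟨n, g, h⟩ := h
  have h1 : φ.f (g⁻¹ • φ.f^[n] y) = y := by
    rw [φ.smul, ← Function.iterate_succ_apply' φ.f, h, inv_smul_smul]
  refine ⟨_, h1, ?_, n, g, by rw [Function.iterate_succ_apply, h1, smul_inv_smul]⟩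
  rw [φ.stab_eq hS, h1]
  rw [h1, beta_stab_smul]
  exact φ.beta_iter hS n y

theorem eq_of_fix {x x' : W} (h : φ.f x' = φ.f x) (hx : stabilizer G x = stabilizer G (φ.f x))
    (hx' : stabilizer G x' ≠ ⊥) : x' = x := by
  by_contra hne
  refine hx' (eq_bot_iff.2 fun g hg => ?_)
  have hr : Z.T.Reachable x' x := (φ.reach_iff hS).1 (by rw [h])
  have h1 : g • x = x := by
    have := RT.stab_smul_le φ.smul x' hg
    rwa [h, ← hx] at this
  obtain ⟨a1, a2⟩ := RT.nxt_spec hr hne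
  exact Z.gf.etriv g _ _ a1 hg (fix_btw Z.gf.acyc Z.gf.acts hg h1 a2)

theorem per_all {x : W} (hx : stabilizer G x ≠ ⊥) : ∃ (n : ℕ) (g : G), φ.f^[n + 1] x = g • x := by
  obtain ⟨F, hF, hF'⟩ := Z.finW
  choose k _ hk using fun n : ℕ => hF' (φ.f^[n] x) trivial
  obtain ⟨i, j, hij, h⟩ := hF.exists_lt_map_eq_of_forall_mem hk
  have h1 : ∃ (n : ℕ) (g : G), φ.f^[n + 1] (φ.f^[i] x) = g • φ.f^[i] x := by
    refine ⟨j - i - 1, (k j)⁻¹ * k i, ?_⟩
    rw [← Function.iterate_add_apply, show j - i - 1 + 1 + i = j by omega, mul_smul, h,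
      inv_smul_smul]
  clear h hij
  induction i with
  | zero => exact h1
  | succ i ih =>
    refine ih ?_
    obtain ⟨z, a1, a2, a3⟩ := φ.per_pre hS h1
    rw [Function.iterate_succ_apply'] at a1 a2
    rw [φ.eq_of_fix hS a1.symm (a1 ▸ a2) fun H => hx (eq_bot_iff.2
      (H ▸ RT.stab_smul_le (fun g x => φ.f_iter_smul g i x) x))]
    exact a3

theorem vsurj_of (y : W) (hy : stabilizer G y ≠ ⊥) :
    ∃ x, φ.f x = y ∧ stabilizer G x = stabilizer G y := by
  obtain ⟨x, h1, h2, -⟩ := φ.per_pre hS (φ.per_all hS hy)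
  exact ⟨x, h1, h2⟩

theorem vinj_of (x x' : W) (hx : stabilizer G x ≠ ⊥) (hx' : stabilizer G x' ≠ ⊥)
    (h : φ.f x = φ.f x') : x = x' := by
  obtain ⟨z, h1, h2⟩ := φ.vsurj_of hS (φ.f x) fun H =>
    hx (eq_bot_iff.2 (H ▸ RT.stab_smul_le φ.smul x))
  rw [φ.eq_of_fix hS h1.symm (h1 ▸ h2) hx, φ.eq_of_fix hS (h.symm.trans h1.symm) (h1 ▸ h2) hx']

end TMap

end CPOR
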