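import Pool.Agent.P.MP_2cb329_al.F.Api
import Pool.Agent.P.MP_2cb329_al.F.RE

/-! Theorem F: splittings and vertex systems. -/

set_option autoImplicit false

namespace CPOR
open ZT MulAction

variable {G : Type} [Group G] {N : Type} [MulAction G N] {S : Sys G N} {W : Type} [MulAction G W]

namespace Spl

variable (Z : Spl S W)

include Z in
theorem stab_fg (x : W) : (stabilizer G x).FG := by
  have := fg_inf_stab Z.gf (S.node_fg (Z.ν x)) (Spl.pres (Z := Z) (x := x) le_rfl)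
  rwa [inf_eq_right.2 (Spl.stab_le x)] at this

theorem beta_le (x : W) : beta (stabilizer G x) ≤ beta (stabilizer G (Z.ν x)) := by
  have := sum_beta_le Z.gf (S.node_fg (Z.ν x)) (Spl.pres (Z := Z) (x := x) le_rfl) {x}
    (fun y hy => by rw [Finset.mem_singleton.1 hy])
    (fun y hy z hz _ => by rw [Finset.mem_singleton.1 hy, Finset.mem_singleton.1 hz])
  rwa [Finset.sum_singleton, inf_eq_right.2 (Spl.stab_le x)] at this

theorem beta_lt (h : Z.NoFix) (x : W) : beta (stabilizer G x) < beta (stabilizer G (Z.ν x)) := by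
  by_contra hc
  refine h x (S.le_stab_of_beta_le (S.node_fg (Z.ν x)) le_rfl Z.gf
    (Spl.pres (Z := Z) (x := x) le_rfl) ?_)
  rw [inf_eq_right.2 (Spl.stab_le x)]
  exact Nat.le_of_not_lt hc

end Spl

theorem Mach.exists_vsys {Z : Spl S W} (M : Mach Z) :
    ∃ (S' : Sys G W) (O : Over S' S), O.ν = Z.ν ∧ O.IsDer M.R ∧ O.Tight := by
  obtain ⟨S', O, h1, h2⟩ := exists_der S Z.ν Z.ν_smul Z.finW Z.stab_fg M.R M.smul M.src M.tgt M.fin
  exact ⟨S', O, h1, h2, h2.tight M.func M.inj⟩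

theorem Mach.gall (hn : S_neg) (he : S_exp) {ρ : ℕ} (ih : IH G ρ) (hS : S.SI)
    (hr : ∀ v : N, beta (stabilizer G v) ≤ ρ) {Z : Spl S W} (M : Mach Z) (hZ : Z.NoFix)
    (hM : M.NEG ∨ M.EXP) : S.Gall := by
  obtain ⟨S', O, h1, h2, h3⟩ := M.exists_vsys
  have hG : S'.Gall := ih W S' ⟨O.si_out h3.1 hS.1, O.si_in h3.2 hS.2⟩
    fun x => lt_of_lt_of_le (Z.beta_lt hZ x) (hr _)
  rcases hM with hM | hM
  · exact hn G N S W Z M S' O h1 h2 hM hG
  · exact he G N S W Z M S' O h1 h2 hM hG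

end CPOR
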