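import Pool.Agent.P.MP_2cb329_al.F.Api

/-! Theorem F: the reversed system. -/

set_option autoImplicit false

namespace CPOR
open ZT MulAction

variable {G : Type} [Group G] {N : Type} [MulAction G N] {S : Sys G N}

theorem Sys.rev_path {a : ℤ → S.A} {i j : ℤ} (c : ℤ) (h : S.IsPath a i j) :
    S.rev.IsPath (fun l => a (c - l)) (c - j + 1) (c - i + 1) := by
  intro l h1 h2
  have := h (c - (l + 1)) (by omega) (by omega)
  have e : c - (l + 1) + 1 = c - l := by ring
  rw [e] at this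
  exact this.symm

theorem Sys.path_of_rev {a : ℤ → S.A} {i j : ℤ} (c : ℤ) (h : S.rev.IsPath a i j) :
    S.IsPath (fun l => a (c - l)) (c - j + 1) (c - i + 1) :=
  Sys.rev_path (S := S.rev) c h

theorem Sys.rev_fix (a : ℤ → S.A) (i j : ℤ) : S.rev.Fix a i j = S.Fix a i j := rfl

theorem Sys.fix_neg (a : ℤ → S.A) (i j c : ℤ) :
    S.Fix (fun l => a (c - l)) (c - j + 1) (c - i + 1) = S.Fix a i j := by
  ext g
  simp only [Sys.mem_fix]
  constructor
  · intro h l h1 h2
    have := h (c - l) (by omega) (by omega)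
    simpa using this
  · intro h l h1 h2
    exact h (c - l) (by omega) (by omega)

theorem Sys.Thread.rev {L k : ℕ} {u : G} {p : ℤ → S.P} (h : S.Thread L k u p) (c : ℤ) :
    S.rev.Thread L k u⁻¹ (fun i => p (c - i)) := by
  refine ⟨h.pos, h.le, fun i => ?_, fun i => ?_⟩
  · have := h.per (c - (i + k))
    have e : c - (i + k) + k = c - i := by ring
    rw [e] at this
    show p (c - (i + k)) = u⁻¹ • p (c - i)
    rw [this, inv_smul_smul]
  · have := h.ch (c - (i + 1))
    have e : c - (i + 1) + 1 = c - i := by ring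
    rw [e] at this
    exact this.symm

theorem Sys.Pers.rev {ρ : ℕ} (h : S.Pers ρ) : S.rev.Pers ρ := by
  refine ⟨⟨h.ncA, fun a => (h.bA a).symm, ?_, h.inE, h.outE, ?_, ?_⟩, ⟨h.si.2, h.si.1⟩, h.two,
    h.bN, ?_⟩
  · intro a i j hij hp hc
    have hp' := Sys.path_of_rev (S := S) 0 hp
    have hf := Sys.fix_neg (S := S) a i j 0
    have := h.bW _ _ _ (by omega) hp' (by rw [hf]; exact hc)
    rw [hf, h.bN] at this
    rw [h.bN]
    exact this
  · intro a i j hij hp hc
    have hp' := Sys.path_of_rev (S := S) 0 hp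
    have hf := Sys.fix_neg (S := S) a i j 0
    obtain ⟨b, hb, hb'⟩ := h.extB _ _ _ (by omega) hp' (by rw [hf]; exact hc)
    rw [hf] at hb'
    refine ⟨b, ?_, hb'⟩
    have e : (0 : ℤ) - (0 - j + 1) = j - 1 := by ring
    simp only [e] at hb
    exact hb
  · intro a i j hij hp hc
    have hp' := Sys.path_of_rev (S := S) 0 hp
    have hf := Sys.fix_neg (S := S) a i j 0
    obtain ⟨b, hb, hb'⟩ := h.extF _ _ _ (by omega) hp' (by rw [hf]; exact hc)
    rw [hf] at hb'
    refine ⟨b, ?_, hb'⟩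
    have e : (0 : ℤ) - (0 - i + 1 - 1) = i := by ring
    simp only [e] at hb
    exact hb
  · intro v v'
    obtain ⟨g, n, a, hn, hp, h0, h1⟩ := h.conn v' v
    refine ⟨g⁻¹, n, fun l => g⁻¹ • a (n - 1 - l), hn, ?_, ?_, ?_⟩
    · intro l h1 h2
      have := hp (n - 1 - (l + 1)) (by omega) (by omega)
      have e : (n : ℤ) - 1 - (l + 1) + 1 = n - 1 - l := by ring
      rw [e] at this
      show S.src (g⁻¹ • a (n - 1 - l)) = S.tgt (g⁻¹ • a (n - 1 - (l + 1)))
      rw [S.src_smul, S.tgt_smul, this]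
    · show S.tgt (g⁻¹ • a (n - 1 - 0)) = v
      rw [S.tgt_smul, sub_zero, h1, inv_smul_smul]
    · show S.src (g⁻¹ • a (n - 1 - (n - 1))) = g⁻¹ • v'
      rw [S.src_smul, sub_self, h0]

theorem Sys.fwdStable_of_rev (h : S.rev.BackStable) : S.FwdStable := by
  obtain ⟨M, hM, h⟩ := h
  refine ⟨M, hM, fun a i hp hc => ?_⟩
  have hp' := Sys.rev_path 0 hp
  have hf := Sys.fix_neg (S := S) a i (i + M + 1) 0
  have hf' := Sys.fix_neg (S := S) a i (i + M) 0
  have e1 : (0 : ℤ) - (i + M + 1) + 1 = -(i + M) := by ring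
  have e2 : (0 : ℤ) - i + 1 = -(i + M) + M + 1 := by ring
  have e3 : (0 : ℤ) - (i + M) + 1 = -(i + M) + 1 := by ring
  rw [e1, e2] at hp' hf
  rw [e3, e2] at hf'
  have := h (fun l => a (0 - l)) (-(i + M)) hp' (by rw [Sys.rev_fix, hf]; exact hc)
  rw [Sys.rev_fix, hf'] at this
  have e4 : (0 : ℤ) - -(i + M) = i + M := by ring
  simp only [e4] at this
  exact this

theorem Sys.g1_of_rev (h : S.rev.G1P S.rev.Any) : S.G1P S.Any := by
  obtain ⟨F, hF, h⟩ := h
  refine ⟨F, hF, fun L n x a hx hr _ h0 h1 => ?_⟩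
  have hr' : S.rev.Rigid x (fun l => a (n - 1 - l)) n := by
    refine ⟨?_, fun i h1 h2 => hr.fix _ (by omega) (by omega), fun i h1 h2 b hb hs => ?_,
      fun i h1 h2 b hb hs => ?_⟩
    · have := Sys.rev_path ((n : ℤ) - 1) hr.path
      have e1 : (n : ℤ) - 1 - n + 1 = 0 := by ring
      have e2 : (n : ℤ) - 1 - 0 + 1 = n := by ring
      rwa [e1, e2] at this
    · have hp := hr.path (n - 1 - i) (by omega) (by omega)
      have := hr.inn (n - 1 - i + 1) (by omega) (by omega) b hb (hs.trans hp)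
      have e : (n : ℤ) - 1 - i + 1 - 1 = n - 1 - i := by ring
      rw [e] at this
      exact this
    · have hp := hr.path (n - 1 - i) (by omega) (by omega)
      have := hr.out (n - 1 - i + 1) (by omega) (by omega) b hb (hs.trans hp)
      have e : (n : ℤ) - 1 - i + 1 = n - 1 - (i - 1) := by ring
      rw [e] at this
      exact this
  have t0 : S.rev.TL L x (S.rev.src ((fun l => a (n - 1 - l)) 0)) := by
    have e : (n : ℤ) - 1 - 0 = n - 1 := by ring
    simp only [e]
    exact h1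
  have t1 : S.rev.TL L x (S.rev.tgt ((fun l => a (n - 1 - l)) (n - 1))) := by
    have e : (n : ℤ) - 1 - (n - 1) = 0 := by ring
    simp only [e]
    exact h0
  rcases h L n x _ hx hr' trivial t0 t1 with h | ⟨g, i, j, hi, hij, hj, hc, hg⟩
  · exact Or.inl h
  · refine Or.inr ⟨g⁻¹, n - 1 - j, n - 1 - i, by omega, by omega, by omega, hc.inv_left, ?_⟩
    have hg' : g • a (n - 1 - i) = a (n - 1 - j) := hg
    rw [← hg', inv_smul_smul]

theorem Sys.g2_of_rev (h : S.rev.G2P S.rev.Any) : S.G2P S.Any := by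
  obtain ⟨M, hM, F, hF, h⟩ := h
  obtain ⟨C, hC⟩ := S.consts
  refine ⟨M, hM, fun L => F (L + C * (L + 1)),
    hF.comp (Bd.id.add ((Bd.const C).mul (Bd.id.add (Bd.const 1)))),
    fun L k n u u' p p' hp hp' ha _ h0 h1 => ?_⟩
  have t0 := (hC _ _ (ha 0 le_rfl (by omega))).2.2.1 L h0
  have t1 := (hC _ _ (ha n (by omega) le_rfl)).2.2.1 L h1
  have := h (L + C * (L + 1)) k n u⁻¹ u'⁻¹ (fun i => p (n - i)) (fun i => p' (n - i))
    ((hp.mono (by omega)).rev n) ((hp'.mono (by omega)).rev n)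
    (fun i h1 h2 => ha (n - i) (by omega) (by omega)) trivial
    (by
      have e : (n : ℤ) - 0 = n := by ring
      simp only [e]
      exact t1.mono (by omega))
    (by
      have e : (n : ℤ) - n = 0 := by ring
      simp only [e]
      exact t0.mono (by omega))
  rcases this with h | h
  · exact Or.inl h
  · refine Or.inr ?_
    rw [inv_pow, inv_pow] at h
    exact inv_injective h

theorem Sys.g3_of_rev (h : S.rev.G3P S.rev.Any) : S.G3P S.Any := by
  obtain ⟨F, hF, h⟩ := h
  obtain ⟨C, hC⟩ := S.consts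
  refine ⟨fun L => C * (F L + 1), (Bd.const C).mul (hF.add (Bd.const 1)),
    fun L k u p p' hp hp' ha _ => ?_⟩
  obtain ⟨e, hc, hf, hcl⟩ := h L k u⁻¹ (fun i => p (0 - i)) (fun i => p' (0 - i)) (hp.rev 0)
    (hp'.rev 0) (fun i => ha _) (fun _ _ => trivial)
  have hf' : ∀ i, e • S.arr (p i) = S.arr (p i) := by
    intro i
    have := hf (0 - i)
    have e : (0 : ℤ) - (0 - i) = i := by ring
    simp only [e] at this
    exact this
  refine ⟨e, by simpa using hc.inv_right, hf', ?_⟩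
  have hcl' : S.Cl (F L) (S.t (p 0)) (S.t (e • p' 0)) := by
    rw [S.t_smul]
    exact hcl
  have har : S.arr (p 0) = S.arr (e • p' 0) := by
    rw [S.arr_smul, ← ha, hf']
  have := (hC _ _ har).2.2.2.1 _ hcl'
  rwa [S.s_smul] at this

theorem Sys.gall_of_rev (h : S.rev.Gall) : S.Gall :=
  ⟨Sys.g1_of_rev h.1, Sys.g2_of_rev h.2.1, Sys.g3_of_rev h.2.2⟩

end CPOR
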