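import Pool.Agent.P.MP_2cb329_al.F.W4

/-! Theorem F: restriction to one cycle of node types. -/

set_option autoImplicit false

namespace CPOR
open ZT MulAction

variable {G : Type} [Group G] {N : Type} [MulAction G N]

namespace W5A

open Relation

variable (S : Sys G N)

/-- One step along an arrow, up to translation. -/
def Stp (v v' : N) : Prop := ∃ (a : S.A) (g : G), S.src a = v ∧ S.tgt a = g • v'

variable {S}

theorem Stp.right {v v' : N} (h : Stp S v v') (k : G) : Stp S v (k • v') := by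
  obtain ⟨a, g, h1, h2⟩ := h
  exact ⟨a, g * k⁻¹, h1, by rw [h2, mul_smul, inv_smul_smul]⟩

theorem Stp.left {v v' : N} {k : G} (h : Stp S (k • v) v') : Stp S v v' := by
  obtain ⟨a, g, h1, h2⟩ := h
  exact ⟨k⁻¹ • a, k⁻¹ * g, by rw [S.src_smul, h1, inv_smul_smul],
    by rw [S.tgt_smul, h2, mul_smul]⟩

theorem tg_right {v v' : N} (h : TransGen (Stp S) v v') (k : G) :
    TransGen (Stp S) v (k • v') := by
  cases h with
  | single h => exact TransGen.single (h.right k)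
  | tail h h' => exact h.tail (h'.right k)

theorem tg_refl (h : S.QPers) (hS : S.SI) (v : N) : TransGen (Stp S) v v := by
  choose e he using h.outE
  let x : ℕ → N := fun i => (fun w => S.tgt (e w))^[i] v
  have xs : ∀ i, x (i + 1) = S.tgt (e (x i)) := fun i => Function.iterate_succ_apply' _ _ _
  have rc : ∀ i, TransGen (Stp S) v (x (i + 1)) := by
    intro i
    induction i with
    | zero => exact TransGen.single ⟨e v, 1, he v, by rw [one_smul, xs]; rfl⟩
    | succ i ih => exact ih.tail ⟨e (x (i + 1)), 1, he _, by rw [one_smul, xs (i + 1)]⟩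
  have back : ∀ i d, (∃ k : G, k • x i = x (i + d)) → ∃ k : G, k • v = x d := by
    intro i d
    induction i with
    | zero => intro H; rw [zero_add] at H; exact H
    | succ i ih =>
      rintro ⟨k, hk⟩
      rw [show i + 1 + d = i + d + 1 by ring, xs, xs, ← S.tgt_smul] at hk
      obtain ⟨g, -, hg⟩ := h.in_unique hS hk
      refine ih ⟨g * k, ?_⟩
      have := congrArg S.src hg
      rwa [S.src_smul, S.src_smul, he, he, ← mul_smul] at this
  obtain ⟨i, j, hij, -, k, -, hk⟩ := S.finN.pigeon x fun _ _ => Set.mem_univ _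
  obtain ⟨d, rfl⟩ := Nat.exists_eq_add_of_lt hij
  obtain ⟨k', hk'⟩ := back i (d + 1) ⟨k, hk⟩
  have := tg_right (rc d) k'⁻¹
  rwa [← hk', inv_smul_smul] at this

theorem stp_symm (h : S.QPers) (hS : S.SI) {v v' : N} (hv : Stp S v v') :
    TransGen (Stp S) v' v := by
  obtain ⟨a, g, h1, h2⟩ := hv
  obtain ⟨c, ⟨a', g', h1', h2'⟩, hc⟩ := TransGen.head'_iff.1 (tg_refl h hS v)
  obtain ⟨k, -, hk⟩ := h.out_unique hS (h1.trans h1'.symm)
  have e : c = (g'⁻¹ * k * g) • v' := by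
    rw [mul_smul, mul_smul, ← h2, ← S.tgt_smul k, hk, h2', inv_smul_smul]
  rcases hc.cases_head with H | ⟨d, H, H'⟩
  · rw [← H, e]; exact tg_right (tg_refl h hS v') _
  · rw [e] at H
    exact TransGen.head' H.left H'

theorem tg_symm (h : S.QPers) (hS : S.SI) {v v' : N} (hv : TransGen (Stp S) v v') :
    TransGen (Stp S) v' v := by
  induction hv with
  | single H => exact stp_symm h hS H
  | tail _ H ih => exact (stp_symm h hS H).trans ih

theorem path_of_tg {v v' : N} (hv : TransGen (Stp S) v v') :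
    ∃ (g : G) (n : ℕ) (a : ℤ → S.A), 0 < n ∧ S.IsPath a 0 n ∧ S.src (a 0) = v ∧
      S.tgt (a (n - 1)) = g • v' := by
  classical
  induction hv with
  | single H =>
    obtain ⟨a, g, h1, h2⟩ := H
    exact ⟨g, 1, fun _ => a, one_pos, fun l a b => by omega, h1, h2⟩
  | tail _ H ih =>
    obtain ⟨e, g', h1, h2⟩ := H
    obtain ⟨g, n, a, hn, ha, a0, a1⟩ := ih
    refine ⟨g * g', n + 1, Function.update a n (g • e), by omega, fun l l0 l1 => ?_, ?_, ?_⟩
    · push_cast at l1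
      rw [Function.update_of_ne (by omega)]
      by_cases hl : l + 1 = n
      · rw [hl, Function.update_self, S.src_smul, h1, ← a1, show l = n - 1 by omega]
      · rw [Function.update_of_ne hl]
        exact ha l l0 (by omega)
    · rw [Function.update_of_ne (by omega), a0]
    · rw [show ((n + 1 : ℕ) : ℤ) - 1 = n by push_cast; ring, Function.update_self, S.tgt_smul, h2,
        mul_smul]

theorem beta_tg (h : S.QPers) {v v' : N} (hv : TransGen (Stp S) v v') :
    beta (stabilizer G v') = beta (stabilizer G v) := by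
  have key : ∀ {v v' : N}, Stp S v v' → beta (stabilizer G v') = beta (stabilizer G v) := by
    rintro v v' ⟨a, g, h1, h2⟩
    rw [← h1, h.bA a, h2, beta_stab_smul]
  induction hv with
  | single H => exact key H
  | tail _ H ih => exact (key H).trans ih

variable (S) in
/-- The nodes that can be reached from `v₀`. -/
def Cy (v₀ : N) : SubMulAction G N where
  carrier := {v | TransGen (Stp S) v₀ v}
  smul_mem' k _ h := tg_right h k

theorem cy_tgt {v₀ : N} {a : S.A} (ha : S.src a ∈ Cy S v₀) : S.tgt a ∈ Cy S v₀ :=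
  TransGen.tail ha ⟨a, 1, rfl, (one_smul _ _).symm⟩

theorem cy_src (h : S.QPers) (hS : S.SI) {v₀ : N} {a : S.A} (ha : S.tgt a ∈ Cy S v₀) :
    S.src a ∈ Cy S v₀ :=
  TransGen.trans ha (stp_symm h hS ⟨a, 1, rfl, (one_smul _ _).symm⟩)

theorem cy_line (h : S.QPers) (hS : S.SI) {v₀ : N} {a : ℤ → S.A}
    (ha : ∀ i, S.tgt (a i) = S.src (a (i + 1))) (h0 : S.src (a 0) ∈ Cy S v₀) (i : ℤ) :
    S.src (a i) ∈ Cy S v₀ := by
  induction i using Int.induction_on with
  | zero => exact h0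
  | succ i ih => rw [← ha]; exact cy_tgt ih
  | pred i ih =>
    refine cy_src h hS ?_
    rwa [ha, sub_add_cancel]

theorem local_gall (h : S.QPers) (hS : S.SI) {r : ℕ} (hr : ∀ v : N, beta (stabilizer G v) ≤ r)
    (H : ∀ (N' : Type) [MulAction G N'] (S' : Sys G N') (ρ : ℕ), ρ ≤ r → S'.Pers ρ → S'.Gall)
    (v₀ : N) : ∃ (M : ℕ) (F : ℕ → ℕ), 0 < M ∧ Bd F ∧
    (∀ (L n : ℕ) (x : G) (a : ℤ → S.A), S.src (a 0) ∈ Cy S v₀ → x ≠ 1 → S.Rigid x a n →
      S.TL L x (S.src (a 0)) → S.TL L x (S.tgt (a (n - 1))) →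
      n ≤ F L ∨ ∃ (g : G) (i j : ℤ), 0 ≤ i ∧ i < j ∧ j < n ∧ Commute g x ∧ g • a i = a j) ∧
    (∀ (L k n : ℕ) (u u' : G) (p p' : ℤ → S.P), S.src (S.arr (p 0)) ∈ Cy S v₀ →
      S.Thread L k u p → S.Thread L k u' p' →
      (∀ i : ℤ, 0 ≤ i → i ≤ n → S.arr (p i) = S.arr (p' i)) →
      S.Cl L (S.s (p 0)) (S.s (p' 0)) → S.Cl L (S.s (p n)) (S.s (p' n)) →
      n ≤ F L ∨ u ^ M = u' ^ M) ∧
    ∀ (L k : ℕ) (u : G) (p p' : ℤ → S.P), S.src (S.arr (p 0)) ∈ Cy S v₀ →
      S.Thread L k u p → S.Thread L k u p' → (∀ i, S.arr (p i) = S.arr (p' i)) →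
      ∃ e : G, Commute e u ∧ (∀ i, e • S.arr (p i) = S.arr (p i)) ∧
        S.Cl (F L) (S.s (p 0)) (e • S.s (p' 0)) := by
  have stb : ∀ ω : Cy S v₀, stabilizer G ω = stabilizer G (ω : N) := fun ω => by
    ext g
    rw [mem_stabilizer_iff, mem_stabilizer_iff, Subtype.ext_iff]
    rfl
  have hfin : FinOrb (⊤ : Subgroup G) (Set.univ : Set (Cy S v₀)) :=
    S.finN.of_rel (fun (x : Cy S v₀) (y : N) => (x : N) = y)
      (fun k _ x y e => by rw [← e]; rfl) (fun x _ => ⟨x, trivial, rfl⟩)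
      (fun y _ => Set.Subsingleton.finite fun x hx x' hx' => Subtype.ext (hx.trans hx'.symm))
  obtain ⟨S', O, hν, hD⟩ := exists_der S (Ω := Cy S v₀) (fun ω => (ω : N)) (fun _ _ => rfl) hfin
    (fun ω => by rw [stb]; exact S.node_fg _)
    (fun a x y => S.src a = x ∧ S.tgt a = y)
    (fun g a x y e => ⟨by rw [S.src_smul, e.1]; rfl, by rw [S.tgt_smul, e.2]; rfl⟩)
    (fun a x y e => e.1.symm) (fun a x y e => e.2.symm)
    (S.finA.of_rel
      (fun (τ : S.A × Cy S v₀ × Cy S v₀) (a : S.A) =>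
        τ.1 = a ∧ S.src a = τ.2.1 ∧ S.tgt a = τ.2.2)
      (fun k _ τ a e => ⟨by rw [← e.1]; rfl, by rw [S.src_smul, e.2.1]; rfl,
        by rw [S.tgt_smul, e.2.2]; rfl⟩)
      (fun τ hτ => ⟨τ.1, trivial, rfl, hτ⟩)
      (fun a _ => Set.Subsingleton.finite fun x hx x' hx' => Prod.ext (hx.1.trans hx'.1.symm)
        (Prod.ext (Subtype.ext (hx.2.1.symm.trans hx'.2.1))
          (Subtype.ext (hx.2.2.symm.trans hx'.2.2)))))
  have sA : ∀ b, S.src (O.A b) = S'.src b := fun b => (hD.mem b).1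
  have tA : ∀ b, S.tgt (O.A b) = S'.tgt b := fun b => (hD.mem b).2
  have inj : ∀ b b', O.A b = O.A b' → b = b' := fun b b' e =>
    O.det b b' e (Subtype.ext (by rw [← sA, ← sA, e])) (Subtype.ext (by rw [← tA, ← tA, e]))
  have lift : ∀ a, S.src a ∈ Cy S v₀ → ∃ b, O.A b = a := fun a ha => by
    obtain ⟨b, hb, -⟩ := hD.surj a ⟨_, ha⟩ ⟨_, cy_tgt ha⟩ ⟨rfl, rfl⟩
    exact ⟨b, hb⟩
  have stA : ∀ b, stabilizer G b = stabilizer G (O.A b) := fun b => by
    ext g
    rw [mem_stabilizer_iff, mem_stabilizer_iff, ← O.A_smul]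
    exact ⟨fun e => by rw [e], inj _ _⟩
  have fx : ∀ (b : ℤ → S'.A) i j, S'.Fix b i j = S.Fix (fun l => O.A (b l)) i j := fun b i j => by
    simp only [Sys.Fix, stA]
  have pth : ∀ (b : ℤ → S'.A) i j, S'.IsPath b i j → S.IsPath (fun l => O.A (b l)) i j :=
    fun b i j hb l l0 l1 => by
      simp only
      rw [tA, sA, hb l l0 l1]
  have hT : O.Tight := hD.tight
    (fun a x y y' e e' => Subtype.ext (e.2.symm.trans e'.2))
    (fun a x x' y e e' => Subtype.ext (e.1.symm.trans e'.1))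
  have tg' : ∀ (ω : Cy S v₀) (v : N), TransGen (Stp S) (ω : N) v →
      ∃ hv : v ∈ Cy S v₀, TransGen (Stp S') ω ⟨v, hv⟩ := by
    have key : ∀ (ω : Cy S v₀) (v : N), Stp S (ω : N) v → ∃ hv : v ∈ Cy S v₀, Stp S' ω ⟨v, hv⟩ := by
      intro ω v hv
      refine ⟨TransGen.tail ω.2 hv, ?_⟩
      obtain ⟨a, g, h1, h2⟩ := hv
      obtain ⟨b, rfl⟩ := lift a (by rw [h1]; exact ω.2)
      exact ⟨b, g, Subtype.ext (by rw [← sA, h1]), Subtype.ext ((tA b).symm.trans h2)⟩
    intro ω v hv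
    induction hv with
    | single H =>
      obtain ⟨a, b⟩ := key ω _ H
      exact ⟨a, TransGen.single b⟩
    | tail _ H ih =>
      obtain ⟨a, b⟩ := ih
      obtain ⟨c, d⟩ := key ⟨_, a⟩ _ H
      exact ⟨c, b.tail d⟩
  have pers : S'.Pers (beta (stabilizer G v₀)) :=
    { ncA := fun b => by rw [stA]; exact h.ncA _
      bA := fun b => by rw [stb, stb, ← sA, ← tA]; exact h.bA _
      bW := fun b i j hij hb hn => by
        rw [fx] at hn ⊢
        rw [stb, ← sA]
        exact h.bW _ i j hij (pth b i j hb) hn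
      outE := fun ω => by
        obtain ⟨a, ha⟩ := h.outE ω
        obtain ⟨b, rfl⟩ := lift a (by rw [ha]; exact ω.2)
        exact ⟨b, Subtype.ext (by rw [← sA, ha])⟩
      inE := fun ω => by
        obtain ⟨a, ha⟩ := h.inE ω
        obtain ⟨b, rfl⟩ := lift a (cy_src h hS (by rw [ha]; exact ω.2))
        exact ⟨b, Subtype.ext (by rw [← tA, ha])⟩
      extF := fun b i j hij hb hn => by
        rw [fx] at hn ⊢
        obtain ⟨a, ha, hc⟩ := h.extF _ i j hij (pth b i j hb) hn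
        obtain ⟨b', rfl⟩ := lift a (by rw [ha, tA]; exact (S'.tgt _).2)
        exact ⟨b', Subtype.ext (by rw [← sA, ha, tA]), by rwa [stA]⟩
      extB := fun b i j hij hb hn => by
        rw [fx] at hn ⊢
        obtain ⟨a, ha, hc⟩ := h.extB _ i j hij (pth b i j hb) hn
        obtain ⟨b', rfl⟩ := lift a (cy_src h hS (by rw [ha, sA]; exact (S'.src _).2))
        exact ⟨b', Subtype.ext (by rw [← tA, ha, sA]), by rwa [stA]⟩
      si := ⟨O.si_out hT.1 hS.1, O.si_in hT.2 hS.2⟩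
      two := by
        obtain ⟨a, rfl⟩ := h.outE v₀
        rw [← h.beta_arrow a]
        exact (S.nc_iff (S.fg a) (Sys.stab_le_src a)).1 (h.ncA a)
      bN := fun ω => by rw [stb]; exact beta_tg h ω.2
      conn := fun ω ω' => by
        obtain ⟨_, hh⟩ := tg' ω ω' ((tg_symm h hS ω.2).trans ω'.2)
        exact path_of_tg hh }
  obtain ⟨g1, g2, g3⟩ := H _ S' _ (hr v₀) pers
  obtain ⟨F1, hF1, f1⟩ := O.g1_lift hT g1
  obtain ⟨M, hM, F2, hF2, f2⟩ := O.g2_lift g2
  obtain ⟨F3, hF3, f3⟩ := O.g3_lift g3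
  obtain ⟨C, hC⟩ := hfin.bound (fun ω c => ∀ p, S.nd p = ω → O.Near c p ω)
    (fun ω _ c c' hc H p hp => (H p hp).mono hc)
    (fun k _ ω _ c _ H p hp => by
      have := (H (k⁻¹ • p) (by rw [S.nd_smul, hp]; exact inv_smul_smul k _)).smul k
      rwa [smul_inv_smul] at this)
    (fun ω _ => by
      obtain ⟨q, hq⟩ := S'.nd_surj ω
      have hq' : S.nd (O.V q) = ω := by rw [O.nd_V, hν, hq]
      obtain ⟨c, hc⟩ := (S.kc_node (ω : N)).cobdd S.gf (p := O.V q) (c := O.V q) hq'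
        (SimpleGraph.Reachable.refl _)
      refine ⟨c, fun p hp => ?_⟩
      obtain ⟨k, hk, hd⟩ := hc p hp
      rw [← stb] at hk
      have e : S'.nd (k • q) = ω := by rw [S'.nd_smul, hq]; exact hk
      refine ⟨k • q, e, ?_, by rwa [O.V_smul]⟩
      rw [O.nd_V, hν, e, hp])
  have plift : ∀ {L k : ℕ} {u : G} {p : ℤ → S.P}, S.Thread L k u p →
      S.src (S.arr (p 0)) ∈ Cy S v₀ → ∃ b, O.PLift k u p b := by
    intro L k u p hp h0
    have hl : ∀ i, S.tgt (S.arr (p i)) = S.src (S.arr (p (i + 1))) := fun i => by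
      rw [← S.nd_t, ← S.nd_s]; exact (hp.ch i).1
    choose b hb using fun i => lift _ (cy_line h hS (a := fun i => S.arr (p i)) hl h0 i)
    refine ⟨b, hb, fun i => Subtype.ext ?_, fun i => inj _ _ ?_⟩
    · rw [← tA, ← sA, hb, hb, hl]
    · rw [O.A_smul, hb, hb, hp.per, S.arr_smul]
  have near : ∀ (L : ℕ) (q : S.P) (b : S'.A), O.A b = S.arr q →
      O.Near (L + C) (S.s q) (S'.src b) ∧ O.Near (L + C) (S.t q) (S'.tgt b) := fun L q b e =>
    ⟨(hC _ trivial _ (by rw [S.nd_s, ← e, sA])).mono (by omega),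
      (hC _ trivial _ (by rw [S.nd_t, ← e, tA])).mono (by omega)⟩
  have bC : Bd fun L => L + C := Bd.id.add (Bd.const C)
  refine ⟨M, fun L => F1 L + F2 (L + C) + F3 (L + C), hM,
    (hF1.add (hF2.comp bC)).add (hF3.comp bC), ?_, ?_, ?_⟩
  · intro L n x a h0 hx hR t0 t1
    rcases Nat.eq_zero_or_pos n with rfl | hn
    · exact Or.inl (Nat.zero_le _)
    have mem : ∀ l : ℤ, 0 ≤ l → l < n → S.src (a l) ∈ Cy S v₀ := by
      intro l hl
      induction l, hl using Int.leInduction with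
      | base => exact fun _ => h0
      | succ l hl ih =>
        intro h1
        rw [← hR.path l hl h1]
        exact cy_tgt (ih (by omega))
    obtain ⟨b₀, -⟩ := lift _ h0
    have : ∀ l : ℤ, ∃ b, 0 ≤ l → l < n → O.A b = a l := fun l => by
      by_cases hl : 0 ≤ l ∧ l < n
      · obtain ⟨b, hb⟩ := lift _ (mem l hl.1 hl.2)
        exact ⟨b, fun _ _ => hb⟩
      · exact ⟨b₀, fun a b => absurd ⟨a, b⟩ hl⟩
    choose b hb using this
    have n0 : (0 : ℤ) < n := by exact_mod_cast hn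
    rcases f1 L n x a b hx hR ⟨fun l l0 l1 => Subtype.ext (by
        rw [← tA, ← sA, hb l l0 (by omega), hb (l + 1) (by omega) l1]
        exact hR.path l l0 l1), hb⟩
      (by rw [← S'.src_smul, inj (x • b 0) (b 0)
        (by rw [O.A_smul, hb 0 le_rfl n0, hR.fix 0 le_rfl n0])]) t0 t1 with e | e
    · exact Or.inl (by simp only; omega)
    · exact Or.inr e
  · intro L k n u u' p p' h0 hp hp' ha c0 c1
    obtain ⟨b, hb⟩ := plift hp h0
    obtain ⟨b', hb'⟩ := plift hp' (by rwa [← ha 0 le_rfl (by omega)])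
    rcases f2 (L + C) k n u u' p p' b b' (hp.mono (by omega)) (hp'.mono (by omega)) hb hb'
      (fun i i0 i1 => inj _ _ (by rw [hb.ov, hb'.ov, ha i i0 i1]))
      (fun i => near L _ _ (hb.ov i)) (fun i => near L _ _ (hb'.ov i))
      (c0.mono (by omega)) (c1.mono (by omega)) with e | e
    · exact Or.inl (by simp only; omega)
    · exact Or.inr e
  · intro L k u p p' h0 hp hp' ha
    obtain ⟨b, hb⟩ := plift hp h0
    obtain ⟨e, e1, e2, e3⟩ := f3 (L + C) k u p p' b (hp.mono (by omega)) (hp'.mono (by omega)) ha hb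
      (fun i => near L _ _ (hb.ov i)) (fun i => near L _ _ ((hb.ov i).trans (ha i)))
    exact ⟨e, e1, e2, e3.mono (Nat.le_add_left _ _)⟩

end W5A

theorem Sys.QPers.gall {S : Sys G N} (h : S.QPers) (hS : S.SI) {r : ℕ}
    (hr : ∀ v : N, beta (stabilizer G v) ≤ r)
    (H : ∀ (N' : Type) [MulAction G N'] (S' : Sys G N') (ρ : ℕ), ρ ≤ r → S'.Pers ρ → S'.Gall) :
    S.Gall := by
  classical
  choose M F hM hF g1 g2 g3 using W5A.local_gall h hS hr H
  obtain ⟨R, hR, hcov⟩ := S.finN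
  have cov : ∀ v : N, ∃ v₀ ∈ R, v ∈ W5A.Cy S v₀ := fun v => by
    obtain ⟨k, -, hk⟩ := hcov v trivial
    have := W5A.tg_right (W5A.tg_refl h hS (k • v)) k⁻¹
    rw [inv_smul_smul] at this
    exact ⟨_, hk, this⟩
  have := hR.to_subtype
  obtain ⟨F0, hF0, hle⟩ := Bd.finite_sup (fun v : R => F v) fun v => hF v
  refine ⟨⟨F0, hF0, ?_⟩, ⟨∏ v ∈ hR.toFinset, M v, Finset.prod_pos fun v _ => hM v, F0, hF0, ?_⟩,
    F0, hF0, ?_⟩
  · intro L n x a hx hRg _ t0 t1
    obtain ⟨v, hv, hm⟩ := cov (S.src (a 0))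
    exact (g1 v L n x a hm hx hRg t0 t1).imp_left fun e => e.trans (hle ⟨v, hv⟩ L)
  · intro L k n u u' p p' hp hp' ha _ c0 c1
    obtain ⟨v, hv, hm⟩ := cov (S.src (S.arr (p 0)))
    refine (g2 v L k n u u' p p' hm hp hp' ha c0 c1).imp (fun e => e.trans (hle ⟨v, hv⟩ L))
      fun e => ?_
    obtain ⟨d, hd⟩ := Finset.dvd_prod_of_mem M (hR.mem_toFinset.2 hv)
    rw [hd, pow_mul, pow_mul, e]
  · intro L k u p p' hp hp' ha _
    obtain ⟨v, hv, hm⟩ := cov (S.src (S.arr (p 0)))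
    obtain ⟨e, e1, e2, e3⟩ := g3 v L k u p p' hm hp hp' ha
    exact ⟨e, e1, e2, e3.mono (hle ⟨v, hv⟩ L)⟩

end CPOR
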