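import Pool.Agent.P.MP_2cb329_al.F.W2
import Pool.Agent.P.MP_2cb329_al.F.W5
import Pool.Agent.P.MP_2cb329_al.F.Rev
import Pool.Agent.P.MP_2cb329_al.F.M0

/-! Theorem F from its five blocks. -/

set_option autoImplicit false

namespace CPOR
open ZT MulAction

section

variable (hgap : S_gap) (hrtt : S_rtt) (heg : S_eg) (hn : S_neg) (he : S_exp)
variable {G : Type} [Group G]

theorem IH.mono {r r' : ℕ} (h : IH G r) (hr : r' ≤ r) : IH G r' :=
  fun N _ S hS hb => h N S hS fun v => lt_of_lt_of_le (hb v) hr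

include hgap hn he in
theorem gall_of_unstable {N : Type} [MulAction G N] {S : Sys G N} {ρ : ℕ} (ih : IH G ρ)
    (h : S.Pers ρ) (hb : ¬ S.BackStable) : S.Gall := by
  obtain ⟨m, hm, H⟩ := hgap G N S ρ h hb
  obtain ⟨N', _, S', O, w, hw⟩ := exists_win S hm
  obtain ⟨W, _, Z, M, hZ, hM⟩ := H N' S' O w hw
  have hp := hw.pers h
  exact hw.gall (M.gall hn he ih hp.si (fun v => (hp.bN v).le) hZ hM)

include hgap hrtt heg hn he in
theorem gall_of_pers {N : Type} [MulAction G N] {S : Sys G N} {ρ : ℕ} (ih : IH G ρ)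
    (h : S.Pers ρ) : S.Gall := by
  by_cases hb : S.BackStable
  · by_cases hf : S.FwdStable
    · obtain ⟨m, hm, H⟩ := h.aut hf hb
      obtain ⟨N', _, S', O, w, hw⟩ := exists_win S hm
      have hA := H N' S' O w hw
      refine hw.gall ?_
      obtain ⟨W, _, Z, ⟨M, hZ, hM⟩ | ⟨φ, hφ⟩⟩ := hrtt G N' S' ρ hA
      · exact M.gall hn he ih hA.toBij.si (fun v => (hA.bN v).le) hZ (Or.inl hM)
      · exact heg G N' S' ρ hA ih W Z φ hφ
    · exact Sys.gall_of_rev
        (gall_of_unstable hgap hn he ih h.rev fun hb' => hf (Sys.fwdStable_of_rev hb'))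
  · exact gall_of_unstable hgap hn he ih h hb

theorem ih_zero : IH G 0 := by
  intro N _ S _ hb
  have hA : (ℤ → S.A) → False := fun a => Nat.not_lt_zero _ (hb (S.src (a 0)))
  have hP : (ℤ → S.P) → False := fun p => hA fun i => S.arr (p i)
  exact ⟨⟨_, Bd.id, fun _ _ _ a => (hA a).elim⟩,
    ⟨1, Nat.one_pos, _, Bd.id, fun _ _ _ _ _ p => (hP p).elim⟩,
    ⟨_, Bd.id, fun _ _ _ p => (hP p).elim⟩⟩

include hgap hrtt heg hn he in
theorem ih_all (r : ℕ) : IH G r := by
  induction r with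
  | zero => exact ih_zero
  | succ r ih =>
    intro N _ S hS hb
    obtain ⟨K, hK, hst⟩ := Sys.exists_stable hS
    obtain ⟨N', _, S', O, w, hw⟩ := exists_win S hK
    refine hw.gall ((hw.qpers hst le_rfl).gall (hw.si hS) (r := r) (fun ω => ?_) ?_)
    · exact le_trans (hw.beta_le hS ω) (Nat.lt_succ_iff.1 (hb _))
    · intro N'' _ S'' ρ hρ hp
      exact gall_of_pers hgap hrtt heg hn he (ih.mono hρ) hp

include hgap hrtt heg hn he in
/-- Theorem F for systems. -/
theorem gall_of_blocks (G : Type) [Group G] (N : Type) [MulAction G N] (S : Sys G N) (hS : S.SI) :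
    S.Gall := by
  obtain ⟨C, hC⟩ := S.finN.bound (fun v c => beta (stabilizer G v) < c)
    (fun _ _ _ _ hc h => lt_of_lt_of_le h hc)
    (fun k _ x _ c _ h => by rw [beta_stab_smul]; exact h) (fun v _ => ⟨_, Nat.lt_succ_self _⟩)
  exact ih_all hgap hrtt heg hn he C N S hS fun v => hC v trivial

end

end CPOR
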