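import Pool.Agent.P.MP_2cb329_al.F.S2
import Pool.Agent.P.MP_2cb329_al.RK
import Pool.Agent.P.MP_2cb329_al.FG2

/-! Theorem F: from systems to flows. -/

set_option autoImplicit false

namespace CPOR
open ZT MulAction

namespace Flow

variable {Γ : Type} [Group Γ] (Φ : Flow Γ)

/-- The forest of a flow. -/
def gr : SimpleGraph Γ where
  Adj x y := ∃ f : FreeGroup Φ.I, f.norm = 1 ∧ y = x * Φ.b f
  symm := ⟨fun x y ⟨f, h1, h2⟩ => ⟨f⁻¹, by rw [FreeGroup.norm_inv_eq, h1], by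
    rw [h2, map_inv, mul_inv_cancel_right]⟩⟩
  loopless := ⟨fun x ⟨f, h1, h2⟩ => by
    have h3 : Φ.b f = Φ.b 1 := by rw [map_one]; exact mul_left_cancel (a := x) (by rw [← h2, mul_one])
    rw [Φ.inj h3, FreeGroup.norm_one] at h1
    omega⟩

/-- The Cayley tree mapped onto a component. -/
def emb (x : Γ) : cay Φ.I →g Φ.gr where
  toFun f := x * Φ.b f
  map_rel' := fun {f g} h => ⟨f⁻¹ * g, cay_adj_norm.1 h, by rw [map_mul, map_inv]; group⟩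

theorem emb_inj (x : Γ) : Function.Injective (Φ.emb x) := fun _ _ h => Φ.inj (mul_left_cancel h)

theorem lift_walk (x : Γ) {y z : Γ} (w : Φ.gr.Walk y z) (f : FreeGroup Φ.I)
    (hf : Φ.emb x f = y) : ∃ g, ∃ hg : Φ.emb x g = z, ∃ w' : (cay Φ.I).Walk f g,
      (w'.map (Φ.emb x)).copy hf hg = w := by
  induction w generalizing f with
  | nil => exact ⟨f, hf, SimpleGraph.Walk.nil, by subst hf; rfl⟩
  | @cons a b c h p ih =>
    obtain ⟨e, h1, h2⟩ := h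
    have hb : Φ.emb x (f * e) = b := by
      rw [h2, ← hf]; change x * Φ.b (f * e) = x * Φ.b f * Φ.b e; rw [map_mul, mul_assoc]
    obtain ⟨g, hg, w', hw⟩ := ih (f * e) hb
    refine ⟨g, hg, w'.cons (cay_adj_norm.2 (by rw [inv_mul_cancel_left, h1])), ?_⟩
    subst hf hg hb
    rw [← hw]
    rfl

theorem emb_one (x : Γ) : Φ.emb x 1 = x := by
  change x * Φ.b 1 = x
  rw [map_one, mul_one]

theorem gr_acyclic : Φ.gr.IsAcyclic := by
  intro x c hc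
  obtain ⟨g, hg, w', hw⟩ := Φ.lift_walk x c 1 (Φ.emb_one x)
  have : g = 1 := Φ.emb_inj x (hg.trans (Φ.emb_one x).symm)
  subst this
  rw [← hw, SimpleGraph.Walk.isCycle_copy,
    SimpleGraph.Walk.isCycle_map_iff_of_injective (Φ.emb_inj x)] at hc
  exact cay_acyclic w' hc

theorem gr_reach {x y : Γ} : Φ.gr.Reachable x y ↔ ∃ f, y = x * Φ.b f := by
  constructor
  · rintro ⟨w⟩
    obtain ⟨g, hg, -⟩ := Φ.lift_walk x w 1 (Φ.emb_one x)
    exact ⟨g, hg.symm⟩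
  · rintro ⟨f, rfl⟩
    have := (cay_reach (1 : FreeGroup Φ.I) f).map (Φ.emb x)
    rwa [Φ.emb_one] at this

theorem nd_eq_iff {x y : Γ} : Φ.nd x = Φ.nd y ↔ ∃ f, y = x * Φ.b f := by
  rw [QuotientGroup.eq]
  constructor
  · rintro ⟨f, hf⟩; exact ⟨f, by rw [hf, mul_inv_cancel_left]⟩
  · rintro ⟨f, rfl⟩; exact ⟨f, by rw [inv_mul_cancel_left]⟩

theorem gr_dist (x : Γ) (f : FreeGroup Φ.I) : Φ.gr.dist x (x * Φ.b f) = f.norm := by
  apply le_antisymm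
  · obtain ⟨w, hw⟩ := (cay_reach (1 : FreeGroup Φ.I) f).exists_walk_length_eq_dist
    have := SimpleGraph.dist_le ((w.map (Φ.emb x)).copy (Φ.emb_one x) rfl)
    rw [SimpleGraph.Walk.length_copy, SimpleGraph.Walk.length_map, hw, cay_dist, inv_one,
      one_mul] at this
    exact this
  · obtain ⟨w, hw⟩ := (Φ.gr_reach.2 ⟨f, rfl⟩ : Φ.gr.Reachable x _).exists_walk_length_eq_dist
    obtain ⟨g, hg, w', hw'⟩ := Φ.lift_walk x w 1 (Φ.emb_one x)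
    have : g = f := Φ.emb_inj x hg
    subst this
    rw [← hw, ← hw', SimpleGraph.Walk.length_copy, SimpleGraph.Walk.length_map]
    have := norm_le_walk w'
    rwa [inv_one, one_mul] at this

theorem dLe_iff' {n : ℕ} {x y : Γ} : Φ.DLe n x y ↔ Φ.nd x = Φ.nd y ∧ Φ.gr.dist x y ≤ n := by
  constructor
  · rintro ⟨f, h1, rfl⟩
    exact ⟨Φ.nd_eq_iff.2 ⟨f, rfl⟩, by rw [gr_dist]; exact h1⟩
  · rintro ⟨h1, h2⟩
    obtain ⟨f, rfl⟩ := Φ.nd_eq_iff.1 h1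
    exact ⟨f, by rwa [gr_dist] at h2, rfl⟩

theorem gr_gf : GF Φ.gr Γ where
  acyc := Φ.gr_acyclic
  acts := fun g x y ⟨f, h1, h2⟩ => ⟨f, h1, by rw [h2, smul_eq_mul, smul_eq_mul, mul_assoc]⟩
  noinv := by
    rintro g x y ⟨f, h1, rfl⟩ h2 h3
    rw [smul_eq_mul] at h2 h3
    have h4 : Φ.b (f ^ (2 : ℤ)) = Φ.b 1 := by
      rw [map_one, zpow_two, map_mul]
      apply mul_left_cancel (a := x)
      rw [← mul_assoc, ← h2, mul_assoc, h3, mul_one]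
    refine zpow_ne_one (f := f) (fun h => ?_) (n := 2) (by norm_num) (Φ.inj h4)
    rw [h, FreeGroup.norm_one] at h1
    omega
  etriv := fun g x y _ h _ => by
    rw [smul_eq_mul] at h
    exact mul_right_cancel (b := x) (by rw [h, one_mul])

theorem gr_lf (x : Γ) : (Φ.gr.neighborSet x).Finite := by
  obtain ⟨s, hs, -⟩ := ball_card (Y := Φ.I) 1
  refine (s.finite_toSet.image fun f => x * Φ.b f).subset ?_
  rintro y ⟨f, h1, rfl⟩
  exact ⟨f, (hs f).2 h1.le, rfl⟩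

theorem Conn.mul_left {κ : Γ} (h : Φ.Conn κ) (f : FreeGroup Φ.I) : Φ.Conn (Φ.b f * κ) := by
  obtain ⟨c, hc, α, β, rfl⟩ := h
  exact ⟨c, hc, f * α, β, by rw [map_mul]; group⟩

theorem Conn.mul_right {κ : Γ} (h : Φ.Conn κ) (f : FreeGroup Φ.I) : Φ.Conn (κ * Φ.b f) := by
  obtain ⟨c, hc, α, β, rfl⟩ := h
  exact ⟨c, hc, α, β * f, by rw [map_mul]; group⟩

/-- Arrows: pairs of nodes joined by a connector. -/
def Ar : Type :=
  {p : (Γ ⧸ Φ.V) × (Γ ⧸ Φ.V) // ∃ x κ, Φ.Conn κ ∧ p = (Φ.nd x, Φ.nd (x * κ))}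

instance : MulAction Γ Φ.Ar where
  smul g a := ⟨g • a.1, by
    obtain ⟨x, κ, h, e⟩ := a.2
    exact ⟨g * x, κ, h, by rw [e, mul_assoc]; rfl⟩⟩
  one_smul a := Subtype.ext (one_smul _ a.1)
  mul_smul g h a := Subtype.ext (mul_smul g h a.1)

theorem ar_smul (g : Γ) (a : Φ.Ar) : (g • a).1 = g • a.1 := rfl

theorem ar_ext {a b : Φ.Ar} (h1 : a.1.1 = b.1.1) (h2 : a.1.2 = b.1.2) : a = b :=
  Subtype.ext (Prod.ext h1 h2)

theorem ar_out (a : Φ.Ar) {x : Γ} (h : a.1.1 = Φ.nd x) : ∃ κ, Φ.Conn κ ∧ a.1.2 = Φ.nd (x * κ) := by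
  obtain ⟨y, κ, hκ, e⟩ := a.2
  rw [e] at h ⊢
  obtain ⟨f, rfl⟩ := Φ.nd_eq_iff.1 h.symm
  exact ⟨Φ.b f * κ, hκ.mul_left Φ f, by rw [mul_assoc]⟩

theorem ar_in (a : Φ.Ar) {x : Γ} (h : a.1.2 = Φ.nd x) :
    ∃ κ, Φ.Conn κ ∧ a.1.1 = Φ.nd (x * κ⁻¹) := by
  obtain ⟨y, κ, hκ, e⟩ := a.2
  rw [e] at h ⊢
  obtain ⟨f, rfl⟩ := Φ.nd_eq_iff.1 h
  exact ⟨κ * Φ.b f, hκ.mul_right Φ f, congrArg Φ.nd (by group)⟩

/-- Arrow points. -/
@[ext] structure Pt where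
  x : Γ
  c : Γ
  hc : c ∈ Φ.arr

instance : MulAction Γ Φ.Pt where
  smul g p := ⟨g * p.x, p.c, p.hc⟩
  one_smul p := Pt.ext (one_mul _) rfl
  mul_smul g h p := Pt.ext (mul_assoc _ _ _) rfl

theorem conn_arr {c : Γ} (h : c ∈ Φ.arr) : Φ.Conn c := ⟨c, h, 1, 1, by simp⟩

theorem stab_one : stabilizer Γ (Φ.nd 1) = Φ.V := by
  rw [stabilizer_coe]; ext g; simp

theorem fg_of_rkLe {K : Subgroup Γ} {n : ℕ} (h : RkLe K n) : K.FG := by
  obtain ⟨f, rfl⟩ := h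
  exact (Subgroup.fg_iff _).2 ⟨_, rfl, Set.finite_range f⟩

theorem rkLe_of_fg {K : Subgroup Γ} (h : K.FG) : ∃ n, RkLe K n := by
  obtain ⟨s, rfl⟩ := h
  refine ⟨s.card, fun i => (s.equivFin.symm i : Γ), ?_⟩
  congr 1
  ext g
  constructor
  · rintro ⟨i, rfl⟩; exact (s.equivFin.symm i).2
  · intro hg; exact ⟨s.equivFin ⟨g, hg⟩, by simp⟩

theorem stab_ar (a : Φ.Ar) : stabilizer Γ a = stabilizer Γ a.1.1 ⊓ stabilizer Γ a.1.2 := by
  ext g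
  simp only [mem_stabilizer_iff, Subgroup.mem_inf]
  exact ⟨fun h => ⟨congrArg (fun b : Φ.Ar => b.1.1) h, congrArg (fun b : Φ.Ar => b.1.2) h⟩,
    fun h => Φ.ar_ext h.1 h.2⟩

theorem isFree_V : IsFreeGroup Φ.V := isFree_range Φ.b Φ.inj

theorem ar_fg (h : Φ.SI) (a : Φ.Ar) : (stabilizer Γ a).FG := by
  obtain ⟨x, κ, hκ, e⟩ := a.2
  have h1 : stabilizer Γ a = cj x (Φ.V ⊓ stabilizer Γ (Φ.nd κ)) := by
    rw [stab_ar, e]
    ext g
    simp only [stabilizer_coe, Subgroup.mem_inf, mem_cj, mul_inv_rev, mul_assoc]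
  obtain ⟨n, -, h2, -⟩ := rkLe_of_bound (isFree_of_le Φ.isFree_V
    (inf_le_left : Φ.V ⊓ stabilizer Γ (Φ.nd κ) ≤ _)) (r := Fintype.card Φ.I) fun ρ hρ => by
      have := h.1 Φ.V _ 0 (fun _ => κ) (fun _ => ρ) le_rfl (rk_range Φ.b Φ.inj).1 (fun _ => hκ)
        (fun i j _ => Subsingleton.elim (α := Fin 1) i j) (fun _ => hρ)
      simpa using this
  rw [h1]
  exact fg_of_rkLe ((rkLe_cj_iff x).2 h2)

/-- The system of a flow. -/
def sys (h : Φ.SI) : Sys Γ (Γ ⧸ Φ.V) where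
  V := Γ
  B := Φ.gr
  gf := Φ.gr_gf
  free := fun g x h => mul_right_cancel (b := x) (by rw [one_mul]; exact h)
  finV := ⟨{1}, Set.finite_singleton _, fun x _ => ⟨x⁻¹, trivial, inv_mul_cancel x⟩⟩
  lf := Φ.gr_lf
  nd := Φ.nd
  nd_smul := fun _ _ => rfl
  nd_surj := Quotient.mk''_surjective
  nd_eq := fun _ _ => Φ.nd_eq_iff.trans Φ.gr_reach.symm
  A := Φ.Ar
  src a := a.1.1
  tgt a := a.1.2
  src_smul := fun _ _ => rfl
  tgt_smul := fun _ _ => rfl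
  fg := Φ.ar_fg h
  P := Φ.Pt
  finP := ⟨Set.range fun c : Φ.arr => ⟨1, c.1, c.2⟩, Set.finite_range _,
    fun p _ => ⟨p.x⁻¹, trivial, ⟨p.c, p.hc⟩, Pt.ext (inv_mul_cancel _).symm rfl⟩⟩
  arr p := ⟨(Φ.nd p.x, Φ.nd (p.x * p.c)), p.x, p.c, Φ.conn_arr p.hc, rfl⟩
  arr_smul := fun g p => Φ.ar_ext rfl (congrArg Φ.nd (mul_assoc _ _ _))
  arr_surj := fun a => by
    obtain ⟨x, κ, ⟨c, hc, α, β, rfl⟩, e⟩ := a.2
    refine ⟨⟨x * Φ.b α, c, hc⟩, Φ.ar_ext ?_ ?_⟩ <;> rw [e]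
    · exact (Φ.nd_eq_iff.2 ⟨α, rfl⟩).symm
    · exact Φ.nd_eq_iff.2 ⟨β, by group⟩
  s p := p.x
  t p := p.x * p.c
  s_smul := fun _ _ => rfl
  t_smul := fun _ _ => mul_assoc _ _ _
  nd_s := fun _ => rfl
  nd_t := fun _ => rfl

variable (h : Φ.SI)

theorem cl_iff {n : ℕ} {x y : Γ} : (Φ.sys h).Cl n x y ↔ Φ.DLe n x y := Φ.dLe_iff'.symm

theorem sis_aux (σ : Γ → Γ) (hσ : Φ.SIs σ) (τ ω : Φ.Ar → Γ ⧸ Φ.V)
    (hst : ∀ a, stabilizer Γ a = stabilizer Γ (τ a) ⊓ stabilizer Γ (ω a))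
    (hτ : ∀ (g : Γ) a, τ (g • a) = g • τ a) (hω : ∀ (g : Γ) a, ω (g • a) = g • ω a)
    (hext : ∀ a b, τ a = τ b → ω a = ω b → a = b)
    (H : ∀ a x, τ a = Φ.nd x → ∃ κ, Φ.Conn κ ∧ ω a = Φ.nd (x * σ κ)) :
    (Φ.sys h).SIs τ := by
  classical
  change ∀ (v : Γ ⧸ Φ.V) (K : Subgroup Γ), K.FG → K ≤ stabilizer Γ v → ∀ (F : Finset Φ.Ar),
    (∀ a ∈ F, τ a = v) → (∀ a ∈ F, ∀ a' ∈ F, (∃ k ∈ K, k • a = a') → a = a') →
    ∑ a ∈ F, (beta (K ⊓ stabilizer Γ a) - 1) ≤ beta K - 1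
  intro v K hK hKv F hF hd
  obtain ⟨x, rfl⟩ := Quotient.mk''_surjective v
  change K ≤ stabilizer Γ (Φ.nd x) at hKv
  have hle : cj x⁻¹ K ≤ Φ.V := fun g hg => by
    have := hKv (mem_cj.1 hg)
    rw [stabilizer_coe, mem_cj] at this
    simpa [mul_assoc] using this
  have hN : RkLe K (beta K) := by
    have hfree : IsFreeGroup K :=
      isFree_of_le (isFree_cj x Φ.isFree_V) (by rw [← stabilizer_coe]; exact hKv)
    obtain ⟨n, hn⟩ := rkLe_of_fg hK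
    obtain ⟨m, -, h1, h2⟩ := rkLe_of_bound hfree (r := n) fun ρ hρ => rk_le hn hρ
    exact h1.mono (le_beta_of_rkGe hK h2)
  set F' : Finset Φ.Ar := Finset.filter (fun a => 1 ≤ beta (K ⊓ stabilizer Γ a)) F with hF'
  have hsum : ∑ a ∈ F, (beta (K ⊓ stabilizer Γ a) - 1) =
      ∑ a ∈ F', (beta (K ⊓ stabilizer Γ a) - 1) := by
    refine (Finset.sum_filter_of_ne fun a _ ha => ?_).symm
    omega
  rw [hsum]
  rcases Nat.eq_zero_or_pos F'.card with h0 | h0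
  · rw [Finset.card_eq_zero.1 h0, Finset.sum_empty]; exact Nat.zero_le _
  obtain ⟨m, hm⟩ : ∃ m, F'.card = m + 1 := ⟨F'.card - 1, by omega⟩
  let e : Fin (m + 1) ≃ F' := (F'.equivFinOfCardEq hm).symm
  have hmem : ∀ i, (e i).1 ∈ F := fun i => (Finset.mem_filter.1 (e i).2).1
  choose κ hκ hκ' using fun i => H (e i).1 x (hF _ (hmem i))
  have key := hσ (cj x⁻¹ K) (beta K) m κ (fun i => beta (K ⊓ stabilizer Γ (e i).1)) hle
    ((rkLe_cj_iff _).2 hN) hκ (fun i j ⟨k, hk, hkk⟩ => by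
      apply e.injective
      apply Subtype.ext
      have hk' := mem_cj.1 hk
      rw [inv_inv] at hk'
      refine hd _ (hmem i) _ (hmem j) ⟨_, hk', hext _ _ ?_ ?_⟩
      · rw [hτ, hF _ (hmem i), hF _ (hmem j)]; exact hKv hk'
      · rw [hω, hκ', hκ']
        have := congrArg (fun z => x • z) hkk
        refine Eq.trans ?_ this
        exact congrArg Φ.nd (by simp [mul_assoc]))
    (fun i => by
      have h1 : cj x⁻¹ K ⊓ stabilizer Γ (Φ.nd (σ (κ i))) =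
          cj x⁻¹ (K ⊓ stabilizer Γ (e i).1) := by
        rw [hst, hF _ (hmem i), hκ', ← inf_assoc, inf_eq_left.2 hKv]
        ext g
        simp [stabilizer_coe, mul_assoc]
      rw [h1, rkGe_cj_iff]
      refine rkGe_beta ((Φ.sys h).howson hK ((Φ.sys h).fg _) hKv ?_)
      change stabilizer Γ (e i).1 ≤ _
      rw [hst, hF _ (hmem i)]
      exact inf_le_left)
  have h2 : ∑ a ∈ F', (beta (K ⊓ stabilizer Γ a) - 1) =
      ∑ i, (beta (K ⊓ stabilizer Γ (e i).1) - 1) := by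
    rw [← Finset.sum_coe_sort F', ← e.sum_comp]
  have h3 : ∑ i, beta (K ⊓ stabilizer Γ (e i).1) =
      ∑ i : Fin (m + 1), (beta (K ⊓ stabilizer Γ (e i).1) - 1 + 1) :=
    Finset.sum_congr rfl fun i _ => by
      have := (Finset.mem_filter.1 (e i).2).2
      omega
  rw [h3, Finset.sum_add_distrib] at key
  simp only [Finset.sum_const, Finset.card_univ, Fintype.card_fin, smul_eq_mul, mul_one] at key
  omega

theorem sys_si : (Φ.sys h).SI :=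
  ⟨Φ.sis_aux h _ h.1 (fun a => a.1.1) (fun a => a.1.2) Φ.stab_ar (fun _ _ => rfl) (fun _ _ => rfl)
      (fun _ _ => Φ.ar_ext) (fun a _ => Φ.ar_out a),
    Φ.sis_aux h _ h.2 (fun a => a.1.2) (fun a => a.1.1) (fun a => by rw [stab_ar, inf_comm])
      (fun _ _ => rfl) (fun _ _ => rfl) (fun _ _ h1 h2 => Φ.ar_ext h2 h1) (fun a _ => Φ.ar_in a)⟩

theorem g1_of (H : (Φ.sys h).G1P (Φ.sys h).Any) : Φ.G1 := by
  obtain ⟨F, hF, H⟩ := H
  refine ⟨F, hF, fun L n g y hg hc hfix hout hin h0 hn => ?_⟩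
  rcases Nat.eq_zero_or_pos n with rfl | hpos
  · exact Or.inl (Nat.zero_le _)
  let a : ℤ → Φ.Ar := fun i => ⟨(Φ.nd (y (min i.toNat (n - 1))), Φ.nd (y (min i.toNat (n - 1) + 1))),
    _, _, hc (min i.toNat (n - 1)) (by omega), by rw [mul_inv_cancel_left]⟩
  have ha : ∀ i : ℕ, i < n → (a i).1 = (Φ.nd (y i), Φ.nd (y (i + 1))) := fun i hi => by
    simp only [a, Int.toNat_natCast, min_eq_left (show i ≤ n - 1 by omega)]
  have tl : ∀ i, Φ.CycLe L g (y i) → (Φ.sys h).TL L g (Φ.nd (y i)) := fun i ⟨z, h1, h2⟩ =>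
    ⟨z, h1, (Φ.cl_iff h).2 h2⟩
  have hr : (Φ.sys h).Rigid g a n := by
    refine ⟨fun l h1 h2 => ?_, fun i h1 h2 => ?_, fun i h1 h2 b hb hs => ?_,
      fun i h1 h2 b hb hs => ?_⟩
    · obtain ⟨l, rfl⟩ := Int.eq_ofNat_of_zero_le h1
      change (a l).1.2 = (a ((l + 1 : ℕ) : ℤ)).1.1
      rw [ha l (by omega), ha (l + 1) (by omega)]
    · obtain ⟨i, rfl⟩ := Int.eq_ofNat_of_zero_le h1
      apply Subtype.ext
      change g • (a i).1 = (a i).1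
      rw [ha i (by omega)]
      exact Prod.ext (hfix i (by omega)) (hfix (i + 1) (by omega))
    · obtain ⟨i, rfl⟩ := Int.eq_ofNat_of_zero_le h1.le
      change b.1.1 = (a i).1.1 at hs
      refine Φ.ar_ext hs ?_
      rw [ha i (by omega)] at hs ⊢
      obtain ⟨κ, hκ, e⟩ := Φ.ar_out b hs
      rw [e]
      refine hout i (by omega) κ hκ ?_
      rw [← e]
      exact congrArg (fun b : Φ.Ar => b.1.2) hb
    · obtain ⟨i, rfl⟩ : ∃ j : ℕ, i = ((j + 1 : ℕ) : ℤ) := ⟨(i - 1).toNat, by omega⟩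
      change b.1.2 = (a ((i + 1 : ℕ) : ℤ)).1.1 at hs
      rw [show ((i + 1 : ℕ) : ℤ) - 1 = i by omega]
      rw [ha (i + 1) (by omega)] at hs
      obtain ⟨κ, hκ, e⟩ := Φ.ar_in b hs
      refine Φ.ar_ext ?_ ?_ <;> rw [ha i (by omega)]
      · rw [e]
        refine hin i (by omega) κ hκ ?_
        rw [← e]
        exact congrArg (fun b : Φ.Ar => b.1.1) hb
      · exact hs
  rcases H L n g a hg hr trivial (by
      change (Φ.sys h).TL L g (a ((0 : ℕ) : ℤ)).1.1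
      rw [ha 0 hpos]; exact tl 0 h0) (by
      change (Φ.sys h).TL L g (a _).1.2
      rw [show (n : ℤ) - 1 = ((n - 1 : ℕ) : ℤ) by omega, ha (n - 1) (by omega),
        Nat.sub_add_cancel hpos]
      exact tl n hn) with h1 | ⟨k, i, j, h1, h2, h3, h4, h5⟩
  · exact Or.inl h1
  · obtain ⟨i, rfl⟩ := Int.eq_ofNat_of_zero_le h1
    obtain ⟨j, rfl⟩ := Int.eq_ofNat_of_zero_le (h1.trans h2.le)
    refine Or.inr ⟨k, i, j, by omega, by omega, h4, ?_⟩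
    have h6 : k • (a i).1.1 = (a j).1.1 := congrArg (fun b : Φ.Ar => b.1.1) h5
    rwa [ha i (by omega), ha j (by omega)] at h6

theorem exists_thread {L k : ℕ} {u : Γ} {x : ℤ → Γ} (hx : Φ.Thread L k u x) (L' : ℕ)
    (hL : 2 * L ≤ L') : ∃ p : ℤ → Φ.Pt, (Φ.sys h).Thread L' k u p ∧
      (∀ i, ((Φ.sys h).arr (p i)).1 = (Φ.nd (x i), Φ.nd (x (i + 1)))) ∧
      (∀ i, (Φ.sys h).Cl L (x i) ((Φ.sys h).s (p i))) ∧
      ∀ i, (Φ.sys h).Cl L ((Φ.sys h).t (p i)) (x (i + 1)) := by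
  obtain ⟨h1, h2, h3, h4⟩ := hx
  have : ∀ κ, ∃ (c : Γ) (α β : FreeGroup Φ.I), Φ.ConnLe L κ →
      c ∈ Φ.arr ∧ α.norm ≤ L ∧ β.norm ≤ L ∧ κ = Φ.b α * c * Φ.b β := fun κ => by
    by_cases hκ : Φ.ConnLe L κ
    · obtain ⟨c, hc, α, β, e⟩ := hκ
      exact ⟨c, α, β, fun _ => ⟨hc, e⟩⟩
    · exact ⟨1, 1, 1, fun h => (hκ h).elim⟩
  choose c α β hc using this
  let p : ℤ → Φ.Pt := fun i =>
    ⟨x i * Φ.b (α ((x i)⁻¹ * x (i + 1))), c ((x i)⁻¹ * x (i + 1)), (hc _ (h4 i)).1⟩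
  have hs : ∀ i, (Φ.sys h).Cl L (x i) ((Φ.sys h).s (p i)) := fun i =>
    (Φ.cl_iff h).2 ⟨_, (hc _ (h4 i)).2.1, rfl⟩
  have ht : ∀ i, (Φ.sys h).Cl L ((Φ.sys h).t (p i)) (x (i + 1)) := fun i =>
    (Φ.cl_iff h).2 ⟨_, (hc _ (h4 i)).2.2.1, by
      have := (hc _ (h4 i)).2.2.2
      rw [inv_mul_eq_iff_eq_mul] at this
      refine this.trans ?_
      change _ = x i * _ * _ * _
      simp only [mul_assoc]
      rfl⟩
  refine ⟨p, ⟨h1, by omega, fun i => ?_, fun i => ((ht i).trans (hs (i + 1))).mono (by omega)⟩,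
    fun i => Prod.ext (hs i).1.symm (ht i).1, hs, ht⟩
  have e : (x (i + k))⁻¹ * x (i + k + 1) = (x i)⁻¹ * x (i + 1) := by
    rw [show i + k + 1 = i + 1 + k by ring, h3, h3]; group
  refine Pt.ext ?_ ?_
  · change x (i + k) * Φ.b (α _) = u * (x i * _)
    rw [e, h3, mul_assoc]
  · change c _ = c _
    rw [e]

theorem g2_of (H : (Φ.sys h).G2P (Φ.sys h).Any) : Φ.G2 := by
  obtain ⟨M, hM, F, hF, H⟩ := H
  obtain ⟨F0, hF0, H0⟩ := (Φ.sys h).chain_lip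
  have b1 : Bd fun L => 3 * L + 1 := ((Bd.const 3).mul Bd.id).add (Bd.const 1)
  refine ⟨M, fun L => F (F0 (3 * L + 1) + (3 * L + 1)) + 1, hM,
    (hF.comp ((hF0.comp b1).add b1)).add (Bd.const 1),
    fun L k n u u' x x' hx hx' hn h0 h1 => ?_⟩
  rcases n with _ | n
  · exact Or.inl (Nat.zero_le _)
  obtain ⟨p, tp, ap, sp, tp'⟩ := Φ.exists_thread h hx (F0 (3 * L + 1) + (3 * L + 1)) (by omega)
  obtain ⟨q, tq, aq, sq, tq'⟩ := Φ.exists_thread h hx' (F0 (3 * L + 1) + (3 * L + 1)) (by omega)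
  have harr : ∀ i : ℤ, 0 ≤ i → i ≤ n → (Φ.sys h).arr (p i) = (Φ.sys h).arr (q i) :=
    fun i h1 h2 => Subtype.ext (by
      rw [ap, aq, hn i h1 (by omega), hn (i + 1) (by omega) (by omega)])
  have e1 : ((n + 1 : ℕ) : ℤ) = n + 1 := by omega
  rw [e1] at h1
  have hend := (H0 (3 * L + 1) p q n (n + 1) n n (fun l _ _ => by omega) (fun l _ _ => by omega)
    (fun m h1 h2 => harr m (by omega) (by omega)) (by omega) le_rfl (by omega) le_rfl (by omega)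
    (Or.inr ((((tp' n).trans ((Φ.cl_iff h).2 h1)).trans (tq' n).symm).mono (by omega)))).1
  rcases H _ k n u u' p q tp tq harr trivial
    ((((sp 0).symm.trans ((Φ.cl_iff h).2 h0)).trans (sq 0)).mono (by omega))
    (hend.mono (by omega)) with h2 | h2
  · exact Or.inl (Nat.succ_le_succ h2)
  · exact Or.inr h2

theorem g3_of (H : (Φ.sys h).G3P (Φ.sys h).Any) : Φ.G3 := by
  obtain ⟨F, hF, H⟩ := H
  have b1 : Bd fun L => 2 * L := (Bd.const 2).mul Bd.id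
  refine ⟨fun L => F (2 * L) + 2 * L, (hF.comp b1).add b1, fun L k u x x' hx hx' hn => ?_⟩
  obtain ⟨p, tp, ap, sp, -⟩ := Φ.exists_thread h hx (2 * L) le_rfl
  obtain ⟨q, tq, aq, sq, -⟩ := Φ.exists_thread h hx' (2 * L) le_rfl
  obtain ⟨e, h1, h2, h3⟩ := H _ k u p q tp tq
    (fun i => Subtype.ext (by rw [ap, aq, hn, hn])) (fun _ _ => trivial)
  refine ⟨e, h1, fun i => ?_, (Φ.cl_iff h).1
    ((((sp 0).trans h3).trans ((sq 0).symm.smul e)).mono (by beta_reduce; omega))⟩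
  have : e • ((Φ.sys h).arr (p i)).1.1 = ((Φ.sys h).arr (p i)).1.1 :=
    congrArg (fun b : Φ.Ar => b.1.1) (h2 i)
  rwa [ap] at this

end Flow

/-- Theorem F for systems gives Theorem F for flows. -/
theorem sF_of_sys
    (h : ∀ (G : Type) [Group G] (N : Type) [MulAction G N] (S : Sys G N), S.SI → S.Gall) :
    S_F := fun Γ _ Φ hΦ =>
  have H := h Γ _ (Φ.sys hΦ) (Φ.sys_si hΦ)
  ⟨Φ.g1_of hΦ H.1, Φ.g2_of hΦ H.2.1, Φ.g3_of hΦ H.2.2⟩

end CPOR
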