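import Pool.Agent.P.MP_2cb329_al.F.S1b

/-! Theorem F: auxiliary lemmas for compression and the closing lemma. -/

set_option autoImplicit false

namespace CPOR
open ZT MulAction

namespace C1

section Alg

variable {Γ Δ : Type} [Group Γ] [Group Δ]

/-- Homomorphisms to the rationals are transported along isomorphisms. -/
def homEquiv (e : Γ ≃* Δ) : (Additive Δ →+ ℚ) ≃ₗ[ℚ] (Additive Γ →+ ℚ) where
  toFun φ := φ.comp (MulEquiv.toAdditive e).toAddMonoidHom
  invFun φ := φ.comp (MulEquiv.toAdditive e.symm).toAddMonoidHom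
  map_add' _ _ := rfl
  map_smul' _ _ := rfl
  left_inv φ := by ext x; simp
  right_inv φ := by ext x; simp

theorem beta_equiv {K : Subgroup Γ} {K' : Subgroup Δ} (e : K ≃* K') : beta K = beta K' :=
  (homEquiv e).finrank_eq.symm

theorem beta_map {K : Subgroup Γ} (f : Γ →* Δ) (hf : Function.Injective f) :
    beta (K.map f) = beta K := (beta_equiv (K.equivMapOfInjective f hf)).symm

theorem fg_map {K : Subgroup Γ} (h : K.FG) (f : Γ →* Δ) : (K.map f).FG := by
  obtain ⟨S, rfl, hS⟩ := (Subgroup.fg_iff K).1 h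
  exact (Subgroup.fg_iff _).2 ⟨f '' S, (MonoidHom.map_closure f S).symm, hS.image f⟩

theorem fg_zpowers (g : Γ) : (Subgroup.zpowers g).FG :=
  (Subgroup.fg_iff _).2 ⟨{g}, (Subgroup.zpowers_eq_closure g).symm, Set.finite_singleton g⟩

/-- Reduced words in `K` and `t`, with their first syllable. -/
inductive Red (K : Subgroup Γ) (t : Γ) : Γ → Option (Γ × Bool) → Prop
  | base {k : Γ} : k ∈ K → Red K t k none
  | step {g k : Γ} {s : Option (Γ × Bool)} (b : Bool) : g ∈ K → Red K t k s →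
      s ≠ some (1, !b) → Red K t (g * (if b then t else t⁻¹) * k) (some (g, b))

theorem Red.inv {K : Subgroup Γ} {t x : Γ} {s : Option (Γ × Bool)} (h : Red K t x s) {g : Γ}
    {b : Bool} (hs : s = some (g, b)) :
    ∃ k s', Red K t k s' ∧ x = g * (if b then t else t⁻¹) * k := by
  cases h with
  | base _ => cases hs
  | step b' _ h _ => cases hs; exact ⟨_, _, h, rfl⟩

theorem red_mul_t {K : Subgroup Γ} {t x : Γ} {s : Option (Γ × Bool)} (h : Red K t x s) (b : Bool) :
    ∃ s', Red K t ((if b then t else t⁻¹) * x) s' := by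
  by_cases hs : s = some (1, !b)
  · obtain ⟨k, s', hk, rfl⟩ := h.inv hs
    refine ⟨s', ?_⟩
    cases b <;> simpa using hk
  · exact ⟨_, by simpa using Red.step b K.one_mem h hs⟩

theorem red_mul_K {K : Subgroup Γ} {t x g : Γ} {s : Option (Γ × Bool)} (h : Red K t x s)
    (hg : g ∈ K) : ∃ s', Red K t (g * x) s' := by
  cases h with
  | base hk => exact ⟨_, Red.base (K.mul_mem hg hk)⟩
  | @step g' k s b hg' hk _ =>
    by_cases hs : s = some (1, !b)
    · contradiction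
    · exact ⟨_, by simpa [mul_assoc] using Red.step b (K.mul_mem hg hg') hk hs⟩

theorem exists_red {K : Subgroup Γ} {t x : Γ} (hx : x ∈ K ⊔ Subgroup.zpowers t) :
    ∃ s, Red K t x s := by
  have e : K ⊔ Subgroup.zpowers t = Subgroup.closure ((K : Set Γ) ∪ {t}) := by
    rw [Subgroup.closure_union, Subgroup.closure_eq, Subgroup.zpowers_eq_closure]
  rw [e] at hx
  induction hx using Subgroup.closure_induction_left with
  | one => exact ⟨_, Red.base K.one_mem⟩
  | mul_left x hx y _ ih =>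
    obtain ⟨s, hs⟩ := ih
    rcases hx with hx | rfl
    · exact red_mul_K hs hx
    · simpa using red_mul_t hs true
  | inv_mul_cancel x hx y _ ih =>
    obtain ⟨s, hs⟩ := ih
    rcases hx with hx | rfl
    · exact red_mul_K hs (K.inv_mem hx)
    · simpa using red_mul_t hs false

/-- Abstract ping-pong. -/
theorem pp_abs {Z : Type} [MulAction Γ Z] {K : Subgroup Γ} {t : Γ} (C : Z → Prop)
    (H : Bool → Z → Prop) (hK : ∀ g ∈ K, ∀ x, C x → C (g • x))
    (ht : ∀ (b : Bool) x, C x → C ((if b then t else t⁻¹) • x))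
    (hd : ∀ g ∈ K, ∀ b b' x, H b (g⁻¹ • x) → H b' x → g = 1 ∧ b = b')
    (hp : ∀ (b : Bool) x, C x → ¬ H (!b) x → H b ((if b then t else t⁻¹) • x))
    {x : Z} (hx : C x) (hU : ∀ g ∈ K, ∀ b, ¬ H b (g⁻¹ • x)) {k : Γ}
    (hk : k ∈ K ⊔ Subgroup.zpowers t) (hkU : ∀ g ∈ K, ∀ b, ¬ H b (g⁻¹ • k • x)) : k ∈ K := by
  obtain ⟨s, hs⟩ := exists_red hk
  have key : ∀ k s, Red K t k s → C (k • x) ∧ (s = none → k ∈ K) ∧
      ∀ g b, s = some (g, b) → g ∈ K ∧ H b (g⁻¹ • k • x) := by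
    intro k s h
    induction h with
    | base hk => exact ⟨hK _ hk x hx, fun _ => hk, fun _ _ h => by cases h⟩
    | @step g k s b hg _ hne ih =>
      obtain ⟨h1, h2, h3⟩ := ih
      refine ⟨?_, fun h => (by cases h), fun g' b' h => ?_⟩
      · rw [mul_smul, mul_smul]; exact hK g hg _ (ht b _ h1)
      · cases h
        refine ⟨hg, ?_⟩
        rw [mul_smul, mul_smul, inv_smul_smul]
        refine hp b _ h1 fun hH => ?_
        rcases s with _ | ⟨g', b'⟩
        · exact hU k⁻¹ (K.inv_mem (h2 rfl)) _ (by rwa [inv_inv])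
        · obtain ⟨a1, a2⟩ := h3 g' b' rfl
          obtain ⟨rfl, rfl⟩ := hd g' a1 _ _ _ a2 hH
          exact hne rfl
  obtain ⟨-, h2, h3⟩ := key k s hs
  rcases s with _ | ⟨g, b⟩
  · exact h2 rfl
  · exact (hkU g (h3 g b rfl).1 b (h3 g b rfl).2).elim

end Alg

section Geo

variable {V : Type} {T : SimpleGraph V} {G : Type} [Group G] [MulAction G V]

theorem gf_sub (hG : GF T G) (J : Subgroup G) : GF T J where
  acyc := hG.acyc
  acts := fun g => hG.acts g
  noinv := fun g => hG.noinv g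
  etriv := fun g x y h a b => Subtype.ext (hG.etriv g x y h a b)

/-- The line `A` is centred at the projection of `x0`, and `X` projects into `[-R, R]`. -/
structure Good (T : SimpleGraph V) (X : Set V) (x0 : V) (R : ℕ) (A : ℤ → V) : Prop where
  line : Line T A
  zero : ∀ j, Btw T x0 (A 0) (A j)
  proj : ∀ x ∈ X, ∃ π : ℤ, |π| ≤ R ∧ ∀ j, Btw T x (A π) (A j)

theorem Good.rev {X : Set V} {x0 : V} {R : ℕ} {A : ℤ → V} (h : Good T X x0 R A) :
    Good T X x0 R (fun i => A (0 - i)) where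
  line := h.line.rev 0
  zero := fun j => by simpa using h.zero (-j)
  proj := fun x hx => by
    obtain ⟨π, h1, h2⟩ := h.proj x hx
    exact ⟨-π, by rwa [abs_neg], fun j => by simpa using h2 (-j)⟩

variable (hT : T.IsAcyclic)
include hT

theorem Good.out {X : Set V} {x0 : V} {R : ℕ} {A : ℤ → V} (h : Good T X x0 R A) {x : V}
    (hx : x ∈ X) {J : ℤ} (hJ : (R : ℤ) ≤ J) : Btw T x (A J) (A (J + 1)) := by
  obtain ⟨π, h1, h2⟩ := h.proj x hx
  exact ((h2 (J + 1)).trans_right (h.line.btw hT ((le_abs_self π).trans (h1.trans hJ))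
    (by omega))).1

theorem Good.not_mem {X : Set V} {x0 : V} {R : ℕ} {A : ℤ → V} (h : Good T X x0 R A) :
    A (R + 1) ∉ X := by
  intro hx
  obtain ⟨π, h1, h2⟩ := h.proj _ hx
  have := h.line.inj hT (h2 (R + 1)).eq_of_self
  have := le_abs_self π
  omega

theorem Good.dist {X : Set V} {x0 : V} {R : ℕ} {A : ℤ → V} (h : Good T X x0 R A) (s : ℤ) :
    (T.dist x0 (A s) : ℤ) = T.dist x0 (A 0) + |s| := by
  rw [← (h.zero s).2.2, (h.line.dist hT 0 s).2]
  push_cast
  simp

theorem Good.btw {X : Set V} {x0 : V} {R : ℕ} {A : ℤ → V} (h : Good T X x0 R A) {s s' : ℤ}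
    (hs : 0 ≤ s) (hs' : s ≤ s') : Btw T x0 (A s) (A s') :=
  ((h.zero s').trans_right (h.line.btw hT hs hs')).1

/-- Nested halfspaces far out on two lines give a long overlap. -/
theorem overlap (hA : Acts T G) {X : Set V} (hX : Cvx T X) {x0 : V} (hx0 : x0 ∈ X) {R : ℕ}
    {A A' : ℤ → V} (h : Good T X x0 R A) (h' : Good T X x0 R A') (h0 : A 0 = A' 0) {g : G}
    (hg : ∀ x, g • x ∈ X ↔ x ∈ X) {J J' : ℤ} (hJ : (R : ℤ) ≤ J) (hJ' : (R : ℤ) ≤ J')
    (hb : Btw T (g • A J) (g • A (J + 1)) (A' (J' + 1))) :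
    ∃ κ : ℤ, ∀ s : ℤ, T.dist x0 (A 0) + 2 * R + 1 ≤ s → s ≤ J + 1 → g • A s = A' (s + κ) := by
  set D := T.dist x0 (A 0) with hD
  have hy : g • x0 ∈ X := (hg x0).2 hx0
  have hne : g • A J ≠ g • A (J + 1) := fun e => (h.line.1 J).ne (smul_left_cancel g e)
  have h1 : Btw T (g • x0) (g • A (J + 1)) (A' (J' + 1)) :=
    ((hA.btw g (h.out hT hx0 hJ)).glue hT hb hne).2
  have h2 : ∀ s : ℤ, 0 ≤ s → s ≤ J + 1 → Btw T (g • x0) (g • A s) (A' (J' + 1)) ∧
      (T.dist (g • x0) (g • A s) : ℤ) = D + s := by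
    intro s hs hs'
    refine ⟨(h1.trans_left (hA.btw g (h.btw hT hs hs'))).1, ?_⟩
    rw [hA.dist, h.dist hT, abs_of_nonneg hs]
  obtain ⟨π, hπ, hp⟩ := h'.proj _ hy
  have hπ1 := le_abs_self π
  set δ := T.dist (g • x0) (A' π) with hδ
  have h3 : (δ : ℤ) ≤ 2 * D + 2 * R + 1 := by
    by_contra hlt
    obtain ⟨a1, a2⟩ := h2 (R + 1) (by omega) (by omega)
    obtain ⟨b1, -⟩ := a1.compare hT (hp (J' + 1)) (by omega)
    rcases b1.or hT (hX _ hy _ hx0).1 with c | c
    · exact h.not_mem hT ((hg _).1 ((hX _ hy _ hx0).2 _ c))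
    · have e1 := b1.2.2
      have e2 := c.2.2
      have e3 := h'.dist hT π
      rw [← h0] at e3
      omega
  refine ⟨π + D - δ, fun s hs hs' => ?_⟩
  obtain ⟨a1, a2⟩ := h2 s (by omega) hs'
  have e1 := a1.2.2
  have e2 := (hp (J' + 1)).2.2
  rw [(h'.line.dist hT π (J' + 1)).2] at e2
  have b := h'.line.btw hT (i := π) (j := s + (π + D - δ)) (k := J' + 1) (by omega) (by omega)
  obtain ⟨b1, b2⟩ := (hp (J' + 1)).trans_right b
  refine a1.unique hT b1 ?_
  have e3 := b2.2.2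
  rw [(h'.line.dist hT π _).2] at e3
  omega

/-- A translate of a dart that points away from an invariant convex set is not nested. -/
theorem same_side (hA : Acts T G) {X : Set V} (hX : Cvx T X) {x0 : V} (hx0 : x0 ∈ X) {g : G}
    (hg : ∀ x, g • x ∈ X ↔ x ∈ X) {p q : V} (hpq : p ≠ q) (hout : ∀ x ∈ X, Btw T x p q)
    (hb : Btw T (g • p) (g • q) q) : g • q = q := by
  obtain ⟨y, hy, hp⟩ := hX.exists_proj hT hx0 (hout x0 hx0).reach.symm
  have hy' : g⁻¹ • y ∈ X := (hg _).1 (by rwa [smul_inv_smul])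
  have h1 := hA.btw g (hout _ hy')
  rw [smul_inv_smul] at h1
  have h2 := (h1.glue hT hb fun e => hpq (smul_left_cancel g e)).2
  have h3 := hA.btw g (hp _ hy')
  rw [smul_inv_smul] at h3
  have e1 := h2.2.2
  have e2 := h3.2.2
  rw [hA.dist, SimpleGraph.dist_comm (u := g • q) (v := y),
    SimpleGraph.dist_comm (u := q) (v := y)] at e2
  exact eq_of_dist_zero h2.2.1 (by omega)

omit hT in
/-- The axis of an element without powers in `K` is good for a cocompact tree of `K`. -/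
theorem exists_good (hF : FT T G) {K : Subgroup G} {X : Set V} (hX : KC T K X) {c : G}
    (hc : c ≠ 1) {x0 : V} (hx0 : x0 ∈ X) (hr : T.Reachable x0 (c • x0))
    (hpow : ∀ M : ℕ, 1 ≤ M → c ^ M ∉ K) :
    ∃ (a : ℤ → V) (l R : ℕ), IsAxis T c a l ∧ Good T X x0 R a := by
  have hT := hF.acyc
  obtain ⟨a', l, ha', hb⟩ := hF.exists_axis hc hr
  obtain ⟨i₀, hi₀, -⟩ := ha'.disp hT hF.acts (hb 0 le_rfl (Int.natCast_nonneg l)).1
  set a : ℤ → V := fun i => a' (i + i₀) with hadef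
  have ha : IsAxis T c a l := ha'.shift i₀
  have hz : ∀ j, Btw T x0 (a 0) (a j) := fun j => by
    simp only [hadef, zero_add]; exact hi₀ _
  have seg : ∀ s s' : ℤ, a s ∈ X → a s' ∈ X → s' < s + (nOrb K X * l : ℕ) := by
    intro s s' hs hs'
    by_contra hle
    obtain ⟨j, hj, -, hm⟩ := hF.pow_mem hX.finV (g := c) (x := a s) fun i hi => by
      rw [← zpow_natCast, ha.zpow_smul]
      refine (hX.cvx _ hs _ hs').2 _ (ha.1.btw hT ?_ ?_)
      · have : (0 : ℤ) ≤ i * l := by positivity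
        omega
      · have : i * l ≤ nOrb K X * l := Nat.mul_le_mul_right l hi
        have : ((i * l : ℕ) : ℤ) ≤ (nOrb K X * l : ℕ) := by exact_mod_cast this
        push_cast at this hle ⊢
        omega
    exact hpow j hj hm
  refine ⟨a, l, nOrb K X * l, ha, ha.1, hz, fun x hx => ?_⟩
  have hrx : T.Reachable x (a 0) := (hX.cvx _ hx _ hx0).1.trans (hz 0).1
  obtain ⟨π, hπ, -⟩ := ha.disp hT hF.acts hrx
  refine ⟨π, ?_, hπ⟩
  by_cases h0 : π = 0
  · rw [h0, abs_zero]; positivity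
  obtain ⟨b1, b2, -⟩ := btw_proj_of_ne hT (ha.1.cvx hT) (p := a π) (p' := a 0) ⟨π, rfl⟩ ⟨0, rfl⟩
    (by rintro _ ⟨j, rfl⟩; exact hπ j) (by rintro _ ⟨j, rfl⟩; exact hz j)
    fun e => h0 (ha.1.inj hT e)
  have m1 := (hX.cvx _ hx _ hx0).2 _ b1
  have m2 := (hX.cvx _ hx _ hx0).2 _ b2
  have s1 := seg _ _ m1 m2
  have s2 := seg _ _ m2 m1
  rw [abs_le]
  constructor <;> omega

end Geo

end C1

end CPOR
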