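import Pool.Agent.P.MP_2cb329_al.F.S1b

/-! Theorem F: existence of derived systems. -/

set_option autoImplicit false

namespace CPOR
open ZT MulAction

variable {G : Type} [Group G] {N : Type} [MulAction G N]

/-- Equivariant cocompact subtrees for a family of finitely generated subgroups. -/
theorem exists_hulls (S : Sys G N) {Ω : Type} [MulAction G Ω] (ν : Ω → N)
    (hν : ∀ (g : G) ω, ν (g • ω) = g • ν ω) (hfg : ∀ ω : Ω, (stabilizer G ω).FG) :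
    ∃ X : Ω → Set S.V, (∀ ω, KC S.B (stabilizer G ω) (X ω)) ∧ (∀ ω, ∀ x ∈ X ω, S.nd x = ν ω) ∧
      ∀ (g : G) ω x, g • x ∈ X (g • ω) ↔ x ∈ X ω := by
  let r : Ω → Ω := fun ω => Quotient.out (Quotient.mk (orbitRel G Ω) ω)
  have hr : ∀ ω, ∃ g : G, g • r ω = ω := by
    intro ω
    have : (orbitRel G Ω).r ω (r ω) := Quotient.exact (Quotient.out_eq _).symm
    exact this
  have hr' : ∀ (g : G) ω, r (g • ω) = r ω := by
    intro g ω
    have : Quotient.mk (orbitRel G Ω) (g • ω) = Quotient.mk (orbitRel G Ω) ω :=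
      Quotient.sound ⟨g, rfl⟩
    simp only [r, this]
  choose p hp using fun ω => S.nd_surj (ν ω)
  let Y : Ω → Set S.V := fun ω => {x | ∃ g : G, g • r ω = ω ∧ x = g • p (r ω)}
  have hY : ∀ (g : G) ω x, x ∈ Y ω → g • x ∈ Y (g • ω) := by
    rintro g ω x ⟨k, hk, rfl⟩
    exact ⟨g * k, by rw [hr', mul_smul, hk], by rw [hr', mul_smul]⟩
  have hH : ∀ (g : G) ω x, x ∈ hull S.B (Y ω) → g • x ∈ hull S.B (Y (g • ω)) := by
    rintro g ω x ⟨y, hy, z, hz, h⟩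
    exact ⟨_, hY g ω y hy, _, hY g ω z hz, S.gf.acts.btw g h⟩
  have hnd : ∀ ω, ∀ x ∈ Y ω, S.nd x = ν ω := by
    rintro ω x ⟨g, hg, rfl⟩
    rw [S.nd_smul, hp, ← hν, hg]
  refine ⟨fun ω => hull S.B (Y ω), fun ω => ?_, ?_, fun g ω x => ⟨fun h => ?_, hH g ω x⟩⟩
  · obtain ⟨g, hg⟩ := hr ω
    have e : Y ω = orb (stabilizer G ω) (g • p (r ω)) := by
      ext x
      constructor
      · rintro ⟨k, hk, rfl⟩
        refine ⟨k * g⁻¹, ?_, by rw [mul_smul, inv_smul_smul]⟩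
        show (k * g⁻¹) • ω = ω
        rw [mul_smul, inv_smul_eq_iff.2 hg.symm, hk]
      · rintro ⟨k, hk, rfl⟩
        refine ⟨k * g, ?_, by rw [mul_smul]⟩
        rw [mul_smul, hg]
        exact hk
    show KC S.B _ (hull S.B (Y ω))
    rw [e]
    refine kc_hull S.gf (hfg ω) (Sys.pres_of_le (v := ν ω) (fun k hk => ?_) (hnd ω _ ⟨g, hg, rfl⟩))
    show k • ν ω = ν ω
    rw [← hν, show k • ω = ω from hk]
  · rintro ω x ⟨y, hy, z, -, h⟩
    rw [← (Sys.nd_of_btw h).1, hnd ω y hy]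
  · simpa using hH g⁻¹ _ _ h

namespace D1A

/-- The data from which the derived system is built. -/
structure Dat (S : Sys G N) (Ω : Type) [MulAction G Ω] where
  ν : Ω → N
  hν : ∀ (g : G) ω, ν (g • ω) = g • ν ω
  hfin : FinOrb (⊤ : Subgroup G) (Set.univ : Set Ω)
  hfg : ∀ ω : Ω, (stabilizer G ω).FG
  R : S.A → Ω → Ω → Prop
  hR : ∀ (g : G) a x y, R a x y → R (g • a) (g • x) (g • y)
  hsrc : ∀ a x y, R a x y → ν x = S.src a
  htgt : ∀ a x y, R a x y → ν y = S.tgt a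
  X : Ω → Set S.V
  kc : ∀ ω, KC S.B (stabilizer G ω) (X ω)
  nd : ∀ ω, ∀ x ∈ X ω, S.nd x = ν ω
  eqv : ∀ (g : G) ω x, g • x ∈ X (g • ω) ↔ x ∈ X ω
  C : ℕ
  hC : ∀ a x y, R a x y → ∃ p, S.arr p = a ∧
    (∃ z ∈ X x, S.Cl C (S.s p) z) ∧ ∃ z ∈ X y, S.Cl C (S.t p) z

namespace Dat

variable {S : Sys G N} {Ω : Type} [MulAction G Ω] (D : Dat S Ω)

/-- Vertices. -/
def V : Type := {q : Ω × S.V // q.2 ∈ D.X q.1}

instance : MulAction G D.V where
  smul g q := ⟨g • q.1, (D.eqv g _ _).2 q.2⟩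
  one_smul q := Subtype.ext (one_smul G q.1)
  mul_smul g h q := Subtype.ext (mul_smul g h q.1)

theorem V_smul (g : G) (q : D.V) : (g • q).1 = g • q.1 := rfl

theorem V_ext {q q' : D.V} (h1 : q.1.1 = q'.1.1) (h2 : q.1.2 = q'.1.2) : q = q' :=
  Subtype.ext (Prod.ext h1 h2)

/-- The forest. -/
def B : SimpleGraph D.V where
  Adj q q' := q.1.1 = q'.1.1 ∧ S.B.Adj q.1.2 q'.1.2
  symm := ⟨fun _ _ h => ⟨h.1.symm, h.2.symm⟩⟩
  loopless := ⟨fun _ h => h.2.ne rfl⟩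

theorem fst_chain (a : ℕ → D.V) (n : ℕ) (h : ∀ i < n, D.B.Adj (a i) (a (i + 1))) :
    ∀ i ≤ n, (a 0).1.1 = (a i).1.1 := by
  intro i
  induction i with
  | zero => exact fun _ => rfl
  | succ i ih => exact fun hi => (ih (by omega)).trans (h i (by omega)).1

theorem gf : GF D.B G := by
  refine ⟨acyclic_of_noback fun a n hn h hb e => ?_, fun g x y h => ⟨?_, S.gf.acts g _ _ h.2⟩,
    fun g x y h h1 h2 => ?_, fun g x y _ h1 _ => ?_⟩
  · have h1 := D.fst_chain a n h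
    have h2 := geod_of_noback S.gf.acyc (fun i => (a i).1.2) n (fun i hi => (h i hi).2)
      (fun i hi e' => hb i hi (D.V_ext ((h1 i (by omega)).symm.trans (h1 _ hi)) e')) 0 n
      (Nat.zero_le _) le_rfl
    have h3 := h2.2
    simp only [e, SimpleGraph.dist_self] at h3
    omega
  · show g • x.1.1 = g • y.1.1
    rw [h.1]
  · exact S.gf.noinv g _ _ h.2 (congrArg (fun q : D.V => q.1.2) h1)
      (congrArg (fun q : D.V => q.1.2) h2)
  · exact S.free g _ (congrArg (fun q : D.V => q.1.2) h1)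

theorem lift {x y : D.V} (h : x.1.1 = y.1.1) :
    D.B.Reachable x y ∧ D.B.dist x y ≤ S.B.dist x.1.2 y.1.2 := by
  have hy : y.1.2 ∈ D.X x.1.1 := h ▸ y.2
  obtain ⟨hr, hb⟩ := (D.kc x.1.1).cvx _ x.2 _ hy
  obtain ⟨a, a0, an, hadj, -, hbt⟩ := exists_geod hr
  let b : ℕ → D.V := fun i =>
    ⟨(x.1.1, a (min i (S.B.dist x.1.2 y.1.2))), hb _ (hbt _ (min_le_right _ _))⟩
  have h1 := dist_le_of_chain (T := D.B) b (S.B.dist x.1.2 y.1.2) (fun i hi => Or.inr ⟨rfl, by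
    show S.B.Adj (a (min i _)) (a (min (i + 1) _))
    rw [min_eq_left hi.le, min_eq_left (by omega)]
    exact hadj i hi⟩)
  have e0 : b 0 = x := D.V_ext rfl (by
    show a (min 0 _) = _
    rw [Nat.zero_min, a0])
  have en : b (S.B.dist x.1.2 y.1.2) = y := D.V_ext h (by
    show a (min _ _) = _
    rw [min_self, an])
  rwa [e0, en] at h1

theorem down {x y : D.V} (h : D.B.Reachable x y) :
    x.1.1 = y.1.1 ∧ S.B.dist x.1.2 y.1.2 ≤ D.B.dist x y := by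
  obtain ⟨a, a0, an, hadj, -, -⟩ := exists_geod h
  have h1 := D.fst_chain a _ hadj _ le_rfl
  have h2 := (dist_le_of_chain (T := S.B) (fun i => (a i).1.2) _
    (fun i hi => Or.inr (hadj i hi).2)).2
  rw [a0, an] at h1
  simp only [a0, an] at h2
  exact ⟨h1, h2⟩

theorem finV : FinOrb (⊤ : Subgroup G) (Set.univ : Set D.V) := by
  refine D.hfin.of_rel_stab (fun (q : D.V) ω => q.1.1 = ω) ?_ (fun q _ => ⟨_, trivial, rfl⟩) ?_
  · rintro k - x y rfl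
    rfl
  · intro ω _
    obtain ⟨F, hF, hF'⟩ := (D.kc ω).finV
    refine ⟨{q | q.1.1 = ω ∧ q.1.2 ∈ F}, ?_, ?_⟩
    · refine Set.Finite.of_finite_image (f := fun q : D.V => q.1.2) (hF.subset ?_) ?_
      · rintro _ ⟨q, hq, rfl⟩
        exact hq.2
      · intro q hq q' hq' e
        exact D.V_ext (hq.1.trans hq'.1.symm) e
    · rintro q rfl
      obtain ⟨k, hk, h⟩ := hF' _ q.2
      exact ⟨k, ⟨trivial, hk⟩, hk, h⟩

/-- A vertex lies in finitely many of the subtrees. -/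
theorem fin_at (x : S.V) : {ω | x ∈ D.X ω}.Finite := by
  obtain ⟨F, hF, hF'⟩ := D.finV
  have h1 : ∀ q : D.V, {ω | ∃ g : G, g • q.1.2 = x ∧ g • q.1.1 = ω}.Subsingleton := by
    rintro q _ ⟨g, hg, rfl⟩ _ ⟨g', hg', rfl⟩
    have : g'⁻¹ * g = 1 := S.free _ q.1.2 (by rw [mul_smul, hg, ← hg', inv_smul_smul])
    rw [(inv_mul_eq_one.1 this)]
  refine (hF.biUnion (fun q _ => (h1 q).finite)).subset fun ω hω => ?_
  obtain ⟨k, -, hk⟩ := hF' ⟨(ω, x), hω⟩ trivial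
  exact Set.mem_biUnion hk ⟨k⁻¹, inv_smul_smul k x, inv_smul_smul k ω⟩

theorem fin_near (c : ℕ) (x : S.V) : {ω | ∃ z ∈ D.X ω, S.Cl c x z}.Finite := by
  refine ((S.ft.ball_finite x c).biUnion (fun z _ => D.fin_at z)).subset ?_
  rintro ω ⟨z, hz, h⟩
  exact Set.mem_biUnion (s := {y | S.B.Reachable x y ∧ S.B.dist x y ≤ c}) ⟨h.reach, h.2⟩ hz

/-- Arrows. -/
def A : Type := {τ : S.A × Ω × Ω // D.R τ.1 τ.2.1 τ.2.2}

instance : MulAction G D.A where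
  smul g q := ⟨g • q.1, D.hR g _ _ _ q.2⟩
  one_smul q := Subtype.ext (one_smul G q.1)
  mul_smul g h q := Subtype.ext (mul_smul g h q.1)

theorem A_ext {q q' : D.A} (h1 : q.1.1 = q'.1.1) (h2 : q.1.2.1 = q'.1.2.1)
    (h3 : q.1.2.2 = q'.1.2.2) : q = q' :=
  Subtype.ext (Prod.ext h1 (Prod.ext h2 h3))

theorem stab_le (ω : Ω) : stabilizer G ω ≤ stabilizer G (D.ν ω) := by
  intro k hk
  show k • D.ν ω = D.ν ω
  rw [← D.hν, show k • ω = ω from hk]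

theorem fgA (b : D.A) : (stabilizer G b).FG := by
  have e : stabilizer G b =
      (stabilizer G b.1.1 ⊓ stabilizer G b.1.2.1) ⊓ stabilizer G b.1.2.2 := by
    ext g
    constructor
    · intro h
      have h' : g • b = b := h
      exact ⟨⟨congrArg (fun q : D.A => q.1.1) h', congrArg (fun q : D.A => q.1.2.1) h'⟩,
        congrArg (fun q : D.A => q.1.2.2) h'⟩
    · rintro ⟨⟨h1, h2⟩, h3⟩
      exact D.A_ext h1 h2 h3
  rw [e]
  refine S.howson (v := S.tgt b.1.1) (S.howson (v := S.src b.1.1) (S.fg _) (D.hfg _)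
    (Sys.stab_le_src _) ?_) (D.hfg _) (inf_le_left.trans (Sys.stab_le_tgt _)) ?_
  · rw [← D.hsrc _ _ _ b.2]
    exact D.stab_le _
  · rw [← D.htgt _ _ _ b.2]
    exact D.stab_le _

/-- Points. -/
def P : Type := {q : S.P × D.A // S.arr q.1 = q.2.1.1 ∧
  (∃ z ∈ D.X q.2.1.2.1, S.Cl D.C (S.s q.1) z) ∧ ∃ z ∈ D.X q.2.1.2.2, S.Cl D.C (S.t q.1) z}

instance : MulAction G D.P where
  smul g q := ⟨g • q.1, by
    obtain ⟨h1, ⟨z, hz, h2⟩, z', hz', h3⟩ := q.2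
    refine ⟨?_, ⟨g • z, (D.eqv g _ _).2 hz, ?_⟩, g • z', (D.eqv g _ _).2 hz', ?_⟩
    · show S.arr (g • q.1.1) = g • q.1.2.1.1
      rw [S.arr_smul, h1]
    · show S.Cl D.C (S.s (g • q.1.1)) _
      rw [S.s_smul]
      exact h2.smul g
    · show S.Cl D.C (S.t (g • q.1.1)) _
      rw [S.t_smul]
      exact h3.smul g⟩
  one_smul q := Subtype.ext (one_smul G q.1)
  mul_smul g h q := Subtype.ext (mul_smul g h q.1)

theorem finP : FinOrb (⊤ : Subgroup G) (Set.univ : Set D.P) := by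
  refine S.finP.of_rel (fun (q : D.P) p => q.1.1 = p) ?_ (fun q _ => ⟨_, trivial, rfl⟩) ?_
  · rintro k - x y rfl
    rfl
  · intro p _
    refine Set.Finite.of_finite_image (f := fun q : D.P => q.1.2.1.2)
      (((D.fin_near D.C (S.s p)).prod (D.fin_near D.C (S.t p))).subset ?_) ?_
    · rintro _ ⟨q, rfl, rfl⟩
      exact ⟨q.2.2.1, q.2.2.2⟩
    · intro q hq q' hq' e
      have e1 : q.1.1 = q'.1.1 := Eq.trans hq (Eq.symm hq')
      refine Subtype.ext (Prod.ext e1 (D.A_ext ?_ (congrArg Prod.fst e) (congrArg Prod.snd e)))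
      rw [← q.2.1, ← q'.2.1, e1]

theorem exists_pr {x : S.V} {ω : Ω} (h : ∃ z ∈ D.X ω, S.Cl D.C x z) :
    ∃ q : D.V, q.1.1 = ω ∧ ∀ c ∈ D.X ω, Btw S.B x q.1.2 c := by
  obtain ⟨z, hz, h⟩ := h
  obtain ⟨p, hp, hp'⟩ := (D.kc ω).cvx.exists_proj S.gf.acyc hz h.reach
  exact ⟨⟨(ω, p), hp⟩, rfl, hp'⟩

theorem pr_smul (g : G) {x x' : S.V} {ω ω' : Ω} {q q' : D.V} (e : x' = g • x) (e' : ω' = g • ω)
    (h : q.1.1 = ω ∧ ∀ c ∈ D.X ω, Btw S.B x q.1.2 c)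
    (h' : q'.1.1 = ω' ∧ ∀ c ∈ D.X ω', Btw S.B x' q'.1.2 c) : q' = g • q := by
  subst e e'
  obtain ⟨rfl, h⟩ := h
  refine D.V_ext h'.1 (proj_unique (C := D.X (g • q.1.1)) (h'.1 ▸ q'.2) (g • q).2 h'.2 fun c hc => ?_)
  have := S.gf.acts.btw g (h (g⁻¹ • c) ((D.eqv g _ _).1 (by rwa [smul_inv_smul])))
  rwa [smul_inv_smul] at this

theorem pr_cl {x : S.V} {ω : Ω} {q : D.V} (h0 : ∃ z ∈ D.X ω, S.Cl D.C x z)
    (h : q.1.1 = ω ∧ ∀ c ∈ D.X ω, Btw S.B x q.1.2 c) : S.Cl D.C q.1.2 x := by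
  obtain ⟨z, hz, h0⟩ := h0
  have h1 := h.2 z hz
  refine Sys.Cl.symm ⟨(Sys.nd_of_btw h1).1, ?_⟩
  have := h1.2.2
  have := h0.2
  omega

/-- The derived system. -/
noncomputable def sys : Sys G Ω where
  V := D.V
  B := D.B
  gf := D.gf
  free g x h := S.free g _ (congrArg (fun q : D.V => q.1.2) h)
  finV := D.finV
  lf x := by
    refine Set.Finite.of_finite_image (f := fun q : D.V => q.1.2) ((S.lf x.1.2).subset ?_) ?_
    · rintro _ ⟨q, hq, rfl⟩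
      exact hq.2
    · intro q hq q' hq' e
      exact D.V_ext (hq.1.symm.trans hq'.1) e
  nd q := q.1.1
  nd_smul _ _ := rfl
  nd_surj ω := by
    obtain ⟨z, hz⟩ := (D.kc ω).ne
    exact ⟨⟨(ω, z), hz⟩, rfl⟩
  nd_eq _ _ := ⟨fun h => (D.lift h).1, fun h => (D.down h).1⟩
  A := D.A
  src b := b.1.2.1
  tgt b := b.1.2.2
  src_smul _ _ := rfl
  tgt_smul _ _ := rfl
  fg := D.fgA
  P := D.P
  finP := D.finP
  arr q := q.1.2
  arr_smul _ _ := rfl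
  arr_surj b := by
    obtain ⟨p, hp⟩ := D.hC _ _ _ b.2
    exact ⟨⟨(p, b), hp⟩, rfl⟩
  s q := (D.exists_pr q.2.2.1).choose
  t q := (D.exists_pr q.2.2.2).choose
  s_smul g q := D.pr_smul g (S.s_smul g q.1.1) rfl (D.exists_pr q.2.2.1).choose_spec
    (D.exists_pr (g • q).2.2.1).choose_spec
  t_smul g q := D.pr_smul g (S.t_smul g q.1.1) rfl (D.exists_pr q.2.2.2).choose_spec
    (D.exists_pr (g • q).2.2.2).choose_spec
  nd_s q := (D.exists_pr q.2.2.1).choose_spec.1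
  nd_t q := (D.exists_pr q.2.2.2).choose_spec.1

/-- The derived system lies over `S`. -/
noncomputable def ov : Over D.sys S where
  ν := D.ν
  V q := q.1.2
  A b := b.1.1
  P q := q.1.1
  ν_smul := D.hν
  V_smul _ _ := rfl
  A_smul _ _ := rfl
  P_smul _ _ := rfl
  nd_V x := D.nd _ _ x.2
  dist_V _ _ h := le_antisymm (D.down (D.lift h).1).2 (D.lift h).2
  cvx ω := by
    have e : (fun q : D.V => q.1.2) '' {x : D.V | x.1.1 = ω} = D.X ω := by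
      ext z
      constructor
      · rintro ⟨q, rfl, rfl⟩
        exact q.2
      · intro hz
        exact ⟨⟨(ω, z), hz⟩, rfl, rfl⟩
    exact e ▸ (D.kc ω).cvx
  src_A b := (D.hsrc _ _ _ b.2).symm
  tgt_A b := (D.htgt _ _ _ b.2).symm
  arr_P q := q.2.1
  det _ _ h1 h2 h3 := D.A_ext h1 h2 h3
  C := D.C
  s_cl q := D.pr_cl q.2.2.1 (D.exists_pr q.2.2.1).choose_spec
  t_cl q := D.pr_cl q.2.2.2 (D.exists_pr q.2.2.2).choose_spec

end Dat

end D1A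

theorem exists_der (S : Sys G N) {Ω : Type} [MulAction G Ω] (ν : Ω → N)
    (hν : ∀ (g : G) ω, ν (g • ω) = g • ν ω) (hfin : FinOrb (⊤ : Subgroup G) (Set.univ : Set Ω))
    (hfg : ∀ ω : Ω, (stabilizer G ω).FG) (R : S.A → Ω → Ω → Prop)
    (hR : ∀ (g : G) a x y, R a x y → R (g • a) (g • x) (g • y))
    (hsrc : ∀ a x y, R a x y → ν x = S.src a) (htgt : ∀ a x y, R a x y → ν y = S.tgt a)
    (hRfin : FinOrb (⊤ : Subgroup G) {τ : S.A × Ω × Ω | R τ.1 τ.2.1 τ.2.2}) :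
    ∃ (S' : Sys G Ω) (O : Over S' S), O.ν = ν ∧ O.IsDer R := by
  obtain ⟨X, hkc, hnd, heqv⟩ := exists_hulls S ν hν hfg
  obtain ⟨C, hC⟩ := hRfin.bound (fun τ c => ∃ p, S.arr p = τ.1 ∧
      (∃ z ∈ X τ.2.1, S.Cl c (S.s p) z) ∧ ∃ z ∈ X τ.2.2, S.Cl c (S.t p) z) (by
    rintro τ - c c' hc ⟨p, h1, ⟨z, hz, h2⟩, z', hz', h3⟩
    exact ⟨p, h1, ⟨z, hz, h2.mono hc⟩, z', hz', h3.mono hc⟩) (by
    rintro g - τ - c - ⟨p, h1, ⟨z, hz, h2⟩, z', hz', h3⟩
    refine ⟨g • p, by rw [S.arr_smul, h1]; rfl, ⟨g • z, (heqv g _ _).2 hz, ?_⟩,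
      g • z', (heqv g _ _).2 hz', ?_⟩
    · rw [S.s_smul]
      exact h2.smul g
    · rw [S.t_smul]
      exact h3.smul g) (by
    rintro ⟨a, x, y⟩ hτ
    obtain ⟨p, hp⟩ := S.arr_surj a
    obtain ⟨z, hz⟩ := (hkc x).ne
    obtain ⟨z', hz'⟩ := (hkc y).ne
    have e1 : S.nd (S.s p) = S.nd z := by rw [S.nd_s, hp, hnd x z hz, hsrc a x y hτ]
    have e2 : S.nd (S.t p) = S.nd z' := by rw [S.nd_t, hp, hnd y z' hz', htgt a x y hτ]
    exact ⟨max (S.B.dist (S.s p) z) (S.B.dist (S.t p) z'), p, hp,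
      ⟨z, hz, e1, le_max_left _ _⟩, z', hz', e2, le_max_right _ _⟩)
  let D : D1A.Dat S Ω := ⟨ν, hν, hfin, hfg, R, hR, hsrc, htgt, X, hkc, hnd, heqv, C,
    fun a x y h => hC (a, x, y) h⟩
  exact ⟨D.sys, D.ov, rfl, fun b => b.2, fun a x y h => ⟨⟨(a, x, y), h⟩, rfl, rfl, rfl⟩⟩

end CPOR
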