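import Pool.Agent.P.MP_2cb329_al.F.S2b
import Pool.Agent.P.MP_2cb329_al.F.D1

/-! Theorem F: systems over systems, nearness, projections, lifts of points. -/

set_option autoImplicit false

namespace CPOR
open ZT MulAction

namespace Over

variable {G : Type} [Group G] {N N' : Type} [MulAction G N] [MulAction G N']
  {S' : Sys G N'} {S : Sys G N} (O : Over S' S)

theorem cl_V {r : ℕ} {x y : S'.V} : S'.Cl r x y ↔ S'.nd x = S'.nd y ∧ S.Cl r (O.V x) (O.V y) := by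
  constructor
  · intro h
    exact ⟨h.1, by rw [O.nd_V, O.nd_V, h.1], by rw [O.dist_V x y h.1]; exact h.2⟩
  · rintro ⟨h1, h2⟩
    exact ⟨h1, by rw [← O.dist_V x y h1]; exact h2.2⟩

theorem btw_V {x y z : S'.V} (h1 : S'.nd x = S'.nd y) (h2 : S'.nd y = S'.nd z) :
    Btw S.B (O.V x) (O.V y) (O.V z) ↔ Btw S'.B x y z := by
  have e1 := O.dist_V x y h1
  have e2 := O.dist_V y z h2
  have e3 := O.dist_V x z (h1.trans h2)
  constructor
  · intro h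
    exact ⟨(S'.nd_eq _ _).1 h1, (S'.nd_eq _ _).1 h2, by rw [← e1, ← e2, ← e3]; exact h.2.2⟩
  · intro h
    refine ⟨(S.nd_eq _ _).1 (by rw [O.nd_V, O.nd_V, h1]),
      (S.nd_eq _ _).1 (by rw [O.nd_V, O.nd_V, h2]), by rw [e1, e2, e3]; exact h.2.2⟩

theorem stab_le (ω : N') : stabilizer G ω ≤ stabilizer G (O.ν ω) := by
  intro g hg
  rw [mem_stabilizer_iff] at hg ⊢
  rw [← O.ν_smul, hg]

theorem stab_A_le (b : S'.A) : stabilizer G b ≤ stabilizer G (O.A b) := by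
  intro g hg
  rw [mem_stabilizer_iff] at hg ⊢
  rw [← O.A_smul, hg]

theorem stab_eq (b : S'.A) : stabilizer G b =
    stabilizer G (O.A b) ⊓ stabilizer G (S'.src b) ⊓ stabilizer G (S'.tgt b) := by
  refine le_antisymm (le_inf (le_inf (O.stab_A_le b) (Sys.stab_le_src b)) (Sys.stab_le_tgt b)) ?_
  rintro g ⟨⟨h1, h2⟩, h3⟩
  change g • _ = _ at h1 h2 h3
  rw [mem_stabilizer_iff]
  exact O.det _ _ (by rw [O.A_smul, h1]) (by rw [S'.src_smul, h2]) (by rw [S'.tgt_smul, h3])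

theorem DetOut.stab_eq {O : Over S' S} (h : O.DetOut) (b : S'.A) :
    stabilizer G b = stabilizer G (S'.src b) ⊓ stabilizer G (O.A b) := by
  refine le_antisymm (le_inf (Sys.stab_le_src b) (O.stab_A_le b)) ?_
  rintro g ⟨h1, h2⟩
  change g • _ = _ at h1 h2
  rw [mem_stabilizer_iff]
  exact h _ _ (by rw [O.A_smul, h2]) (by rw [S'.src_smul, h1])

theorem DetIn.stab_eq {O : Over S' S} (h : O.DetIn) (b : S'.A) :
    stabilizer G b = stabilizer G (S'.tgt b) ⊓ stabilizer G (O.A b) := by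
  refine le_antisymm (le_inf (Sys.stab_le_tgt b) (O.stab_A_le b)) ?_
  rintro g ⟨h1, h2⟩
  change g • _ = _ at h1 h2
  rw [mem_stabilizer_iff]
  exact h _ _ (by rw [O.A_smul, h2]) (by rw [S'.tgt_smul, h1])

theorem kc_tree (ω : N') : KC S.B (stabilizer G ω) (O.V '' {x | S'.nd x = ω}) := by
  have hV : FinOrb (stabilizer G ω) (O.V '' {x | S'.nd x = ω}) :=
    (S'.kc_node ω).finV.image O.V (fun k _ x _ _ => O.V_smul k x)
  refine ⟨⟨?_, O.cvx ω, ?_⟩, hV, S.ft.finOrb_darts hV⟩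
  · obtain ⟨x, hx⟩ := S'.nd_surj ω
    exact ⟨_, x, hx, rfl⟩
  · rintro k hk _ ⟨x, hx, rfl⟩
    refine ⟨k • x, ?_, O.V_smul k x⟩
    show S'.nd (k • x) = ω
    rw [S'.nd_smul, show S'.nd x = ω from hx]
    exact hk

variable {O}

theorem Near.mono {r r' : ℕ} {p : S.V} {ω : N'} (h : O.Near r p ω) (hr : r ≤ r') :
    O.Near r' p ω := by
  obtain ⟨q, hq, hc⟩ := h
  exact ⟨q, hq, hc.mono hr⟩

theorem Near.nd {r : ℕ} {p : S.V} {ω : N'} (h : O.Near r p ω) : S.nd p = O.ν ω := by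
  obtain ⟨q, hq, hc⟩ := h
  rw [hc.1, O.nd_V, hq]

theorem Near.of_cl {r r' : ℕ} {p p' : S.V} {ω : N'} (h : O.Near r p ω) (hc : S.Cl r' p' p) :
    O.Near (r' + r) p' ω := by
  obtain ⟨q, hq, h1⟩ := h
  exact ⟨q, hq, hc.trans h1⟩

theorem Near.smul {r : ℕ} {p : S.V} {ω : N'} (h : O.Near r p ω) (g : G) :
    O.Near r (g • p) (g • ω) := by
  obtain ⟨q, hq, hc⟩ := h
  refine ⟨g • q, by rw [S'.nd_smul, hq], ?_⟩
  rw [O.V_smul]
  exact hc.smul g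

theorem Near.btw {r : ℕ} {p p' z : S.V} {ω : N'} (h : O.Near r p ω) (h' : O.Near r p' ω)
    (hz : Btw S.B p z p') : O.Near r z ω := by
  obtain ⟨q, hq, hc⟩ := h
  obtain ⟨q', hq', hc'⟩ := h'
  obtain ⟨y, hy, hr, hd⟩ := hz.near S.gf.acyc hc.reach hc'.reach hc.2 hc'.2
  obtain ⟨w, hw, rfl⟩ := (O.cvx ω _ ⟨q, hq, rfl⟩ _ ⟨q', hq', rfl⟩).2 y hy
  exact ⟨w, hw, (S.nd_eq _ _).2 hr, hd⟩

theorem near_V (x : S'.V) : O.Near 0 (O.V x) (S'.nd x) := by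
  exact ⟨x, rfl, Sys.cl_refl 0 _⟩

theorem near_s (q : S'.P) : O.Near O.C (S.s (O.P q)) (S'.src (S'.arr q)) := by
  exact ⟨S'.s q, S'.nd_s q, (O.s_cl q).symm⟩

theorem near_t (q : S'.P) : O.Near O.C (S.t (O.P q)) (S'.tgt (S'.arr q)) := by
  exact ⟨S'.t q, S'.nd_t q, (O.t_cl q).symm⟩

theorem V_inj {q q' : S'.V} (hn : S'.nd q = S'.nd q') (e : O.V q = O.V q') : q = q' := by
  refine eq_of_dist_zero ((S'.nd_eq _ _).1 hn) ?_
  rw [← O.dist_V _ _ hn, e, SimpleGraph.dist_self]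

theorem fix_aux {L : ℕ} {x : G} (hx : x ≠ 1) {ω : N'} (hω : x • ω = ω) {p : S.V}
    (hp : S.nd p = O.ν ω) (h : S.Cl L p (x • p)) :
    ∃ q, S'.nd q = ω ∧ S.B.Reachable p (O.V q) ∧ S.B.dist p (O.V q) ≤ L ∧
      S.B.dist (O.V q) (x • O.V q) ≤ L := by
  have hT := S.gf.acyc
  have hA := S.gf.acts
  obtain ⟨a, l, ha, hb⟩ := S.ft.exists_axis hx h.reach
  have h0 := hb 0 le_rfl (Int.natCast_nonneg l)
  have hK := O.kc_tree ω
  obtain ⟨_, c, hc, rfl⟩ := hK.ne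
  have hr : S.B.Reachable (O.V c) (a 0) :=
    ((S.nd_eq _ _).1 (by rw [hp, O.nd_V, show S'.nd c = ω from hc])).trans h0.1
  have hm := ha.mem_cvx hT hA (O.cvx ω) (fun y => hK.inv.mem_iff (show x ∈ stabilizer G ω from hω) y)
    ⟨c, hc, rfl⟩ hr 0
  obtain ⟨q, hq, e⟩ := hm
  obtain ⟨i, -, h2, -⟩ := ha.disp hT hA h0.1
  have a1 := h0.2.2
  have a2 := h.2
  refine ⟨q, hq, e ▸ h0.1, by rw [e]; omega, ?_⟩
  rw [e, ha.2.2 0, (ha.1.dist_nat hT 0 l).2]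
  omega

/-- A point that is moved little by an element of the group of `ω` is near `ω`. -/
theorem near_of_fix {L : ℕ} {x : G} (hx : x ≠ 1) {ω : N'} (hω : x • ω = ω) {p : S.V}
    (hp : S.nd p = O.ν ω) (h : S.Cl L p (x • p)) : O.Near L p ω := by
  obtain ⟨q, hq, -, hd, -⟩ := fix_aux hx hω hp h
  exact ⟨q, hq, by rw [hp, O.nd_V, hq], hd⟩

theorem tl_of_fix {L : ℕ} {x : G} (hx : x ≠ 1) {ω : N'} (hω : x • ω = ω)
    (h : S.TL L x (O.ν ω)) : S'.TL L x ω := by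
  obtain ⟨p, hp, h⟩ := h
  obtain ⟨q, hq, -, -, hd⟩ := fix_aux hx hω hp h
  have e : S'.nd q = S'.nd (x • q) := by rw [S'.nd_smul, hq, hω]
  refine ⟨q, hq, e, ?_⟩
  rw [← O.dist_V _ _ e, O.V_smul]
  exact hd

theorem exists_pr {p : S.V} {ω : N'} (h : S.nd p = O.ν ω) : ∃ q, O.IsPr p ω q := by
  obtain ⟨c, hc⟩ := S'.nd_surj ω
  have hr : S.B.Reachable p (O.V c) := (S.nd_eq _ _).1 (by rw [h, O.nd_V, hc])
  obtain ⟨_, ⟨q, hq, rfl⟩, hb⟩ := (O.cvx ω).exists_proj S.gf.acyc ⟨c, hc, rfl⟩ hr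
  exact ⟨q, hq, fun q' hq' => hb _ ⟨q', hq', rfl⟩⟩

theorem IsPr.unique {p : S.V} {ω : N'} {q q' : S'.V} (h : O.IsPr p ω q) (h' : O.IsPr p ω q') :
    q = q' := by
  exact V_inj (h.1.trans h'.1.symm) ((h.2 q' h'.1).antisymm (h'.2 q h.1))

theorem IsPr.smul {p : S.V} {ω : N'} {q : S'.V} (h : O.IsPr p ω q) (g : G) :
    O.IsPr (g • p) (g • ω) (g • q) := by
  refine ⟨by rw [S'.nd_smul, h.1], fun q' hq' => ?_⟩
  have h1 : S'.nd (g⁻¹ • q') = ω := by rw [S'.nd_smul, hq', inv_smul_smul]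
  have h2 := S.gf.acts.btw g (h.2 _ h1)
  rwa [← O.V_smul, ← O.V_smul, smul_inv_smul] at h2

theorem IsPr.lip {r : ℕ} {p p' : S.V} {ω : N'} {q q' : S'.V} (h : O.IsPr p ω q)
    (h' : O.IsPr p' ω q') (hc : S.Cl r p p') : S'.Cl r q q' := by
  by_cases e : q = q'
  · rw [e]
    exact Sys.cl_refl r q'
  have hn : S'.nd q = S'.nd q' := h.1.trans h'.1.symm
  have h1 := h.2 q' h'.1
  have h2 := (h1.glue S.gf.acyc (h'.2 q h.1).symm (fun e' => e (V_inj hn e'))).2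
  refine ⟨hn, ?_⟩
  rw [← O.dist_V _ _ hn]
  have a1 := h1.2.2
  have a2 := h2.2.2
  have a3 := hc.2
  omega

theorem IsPr.cl_of_near {r : ℕ} {p : S.V} {ω : N'} {q : S'.V} (h : O.IsPr p ω q)
    (hn : O.Near r p ω) : S.Cl r p (O.V q) := by
  obtain ⟨q', hq', hc⟩ := hn
  have h1 := h.2 q' hq'
  refine ⟨(S.nd_eq _ _).2 h1.1, ?_⟩
  have a1 := h1.2.2
  have a2 := hc.2
  omega

theorem IsPr.btw_of_ne {p p' : S.V} {ω : N'} {q q' : S'.V} (h : O.IsPr p ω q)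
    (h' : O.IsPr p' ω q') (hne : q ≠ q') :
    Btw S.B p (O.V q) p' ∧ Btw S.B p (O.V q') p' ∧ Btw S.B p (O.V q) (O.V q') := by
  have hn : S'.nd q = S'.nd q' := h.1.trans h'.1.symm
  have h1 := h.2 q' h'.1
  have h2 := h1.glue S.gf.acyc (h'.2 q h.1).symm (fun e' => hne (V_inj hn e'))
  exact ⟨h2.1, h2.2, h1⟩

variable (O)

end Over

end CPOR
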