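import Pool.Agent.P.MP_2cb329_al.F.D2

/-! Theorem F: lifts and projections of points, strong inertia. -/

set_option autoImplicit false

namespace CPOR
open ZT MulAction

namespace Over

variable {G : Type} [Group G] {N N' : Type} [MulAction G N] [MulAction G N']
  {S' : Sys G N'} {S : Sys G N} (O : Over S' S)

/-- The reversed covering. -/
def d2bRev : Over S'.rev S.rev where
  ν := O.ν
  V := O.V
  A := O.A
  P := O.P
  ν_smul := O.ν_smul
  V_smul := O.V_smul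
  A_smul := O.A_smul
  P_smul := O.P_smul
  nd_V := O.nd_V
  dist_V := O.dist_V
  cvx := O.cvx
  src_A := O.tgt_A
  tgt_A := O.src_A
  arr_P := O.arr_P
  det := fun b b' h1 h2 h3 => O.det b b' h1 h3 h2
  C := O.C
  s_cl := O.t_cl
  t_cl := O.s_cl

theorem d2b_tree_le (ω : N') : nOrb (stabilizer G ω) (O.V '' {x | S'.nd x = ω}) ≤
    nOrb (⊤ : Subgroup G) (Set.univ : Set S'.V) := by
  have h1 := nOrb_le_of_inj (K := stabilizer G ω) (S := {x | S'.nd x = ω}) S'.finV id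
    (fun _ _ => Set.mem_univ _) (by
      rintro x hx x' hx' ⟨k, -, hk⟩
      refine ⟨k, ?_, hk⟩
      have hx1 : S'.nd x = ω := hx
      have hx2 : S'.nd x' = ω := hx'
      have hk' : k • x = x' := hk
      rw [mem_stabilizer_iff, ← hx1, ← S'.nd_smul, hk', hx2, hx1])
  have h2 := nOrb_le_of_surj (K' := stabilizer G ω) (S' := O.V '' {x | S'.nd x = ω}) h1.1 O.V
    (by
      rintro x - x' - ⟨k, hk, rfl⟩
      exact ⟨k, hk, (O.V_smul k x).symm⟩)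
    (by
      rintro _ ⟨x, hx, rfl⟩
      exact ⟨x, hx, 1, one_mem _, one_smul _ _⟩)
  exact h2.2.trans h1.2

/-- Coarse intersection of an orbit with the tree of a node. -/
theorem d2b_inter {K : Subgroup G} (hK : K.FG) {ω : N'} (hle : K ≤ stabilizer G (O.ν ω))
    {x₀ : S.V} (hx₀ : S.nd x₀ = O.ν ω) : ∃ C,
    (∀ r z, ∀ k ∈ K, S.Cl r z (k • x₀) → O.Near r z ω →
      ∃ k' ∈ K ⊓ stabilizer G ω, S.Cl (r + C) z (k' • x₀)) ∧
    ∀ k ∈ K, ∀ x, O.IsPr (k • x₀) ω x →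
      ∃ k' ∈ K ⊓ stabilizer G ω, S.Cl C (O.V x) (k' • x₀) := by
  obtain ⟨y₀, hy₀⟩ := S'.nd_surj ω
  have hX := kc_hull S.gf hK (Sys.pres_of_le hle hx₀)
  have hnd : ∀ k ∈ K, S.nd (k • x₀) = O.ν ω := fun k hk => by
    rw [S.nd_smul, hx₀]; exact hle hk
  obtain ⟨C, h1, h2⟩ := S.ft.coarse_inter hX (O.kc_tree ω) (x0 := x₀) (y0 := O.V y₀) (p := x₀)
    (subset_hull _ (mem_orb_self x₀)) ⟨y₀, hy₀, rfl⟩
    ((S.nd_eq _ _).1 (by rw [hx₀, O.nd_V, hy₀])) (SimpleGraph.Reachable.refl _)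
  refine ⟨C, fun r z k hk hz hn => ?_, fun k hk x hx => ?_⟩
  · obtain ⟨q, hq, hq'⟩ := hn
    have hzn : S.nd z = O.ν ω := hz.1.trans (hnd k hk)
    obtain ⟨k', hk', hd⟩ := h1 r z (k • x₀) (subset_hull _ ⟨k, hk, rfl⟩) (O.V q) ⟨q, hq, rfl⟩
      ((S.nd_eq _ _).1 (hx₀.trans hzn.symm)) hz.2 hq'.2
    exact ⟨k', hk', hzn.trans (hnd k' hk'.1).symm, hd⟩
  · obtain ⟨k', hk', hd⟩ := h2 (k • x₀) (subset_hull _ ⟨k, hk, rfl⟩) (O.V x) ⟨x, hx.1, rfl⟩ (by
      rintro _ ⟨y, hy, rfl⟩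
      exact hx.2 y hy)
    exact ⟨k', hk', by rw [O.nd_V, hx.1, hnd k' hk'.1], hd⟩

omit O in
/-- The points of an arrow are close to one orbit. -/
theorem d2b_pts (p₀ : S.P) : ∃ C, ∀ p, S.arr p = S.arr p₀ → ∃ k ∈ stabilizer G (S.arr p₀),
    S.Cl C (S.s p) (k • S.s p₀) ∧ S.Cl C (S.t p) (k • S.t p₀) := by
  refine (S.finOrb_points (S.arr p₀)).bound (fun p C => ∃ k ∈ stabilizer G (S.arr p₀),
    S.Cl C (S.s p) (k • S.s p₀) ∧ S.Cl C (S.t p) (k • S.t p₀)) ?_ ?_ ?_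
  · rintro p - c c' hc ⟨k, hk, h1, h2⟩
    exact ⟨k, hk, h1.mono hc, h2.mono hc⟩
  · rintro g hg p - c - ⟨k, hk, h1, h2⟩
    refine ⟨g * k, mul_mem hg hk, ?_, ?_⟩
    · rw [S.s_smul, mul_smul]; exact h1.smul g
    · rw [S.t_smul, mul_smul]; exact h2.smul g
  · intro p hp
    have hp' : S.arr p = S.arr p₀ := hp
    refine ⟨S.B.dist (S.s p) (S.s p₀) + S.B.dist (S.t p) (S.t p₀), 1, one_mem _, ?_, ?_⟩
    · rw [one_smul]
      exact (Sys.cl_dist (by rw [S.nd_s, S.nd_s, hp'])).mono (Nat.le_add_right _ _)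
    · rw [one_smul]
      exact (Sys.cl_dist (by rw [S.nd_t, S.nd_t, hp'])).mono (Nat.le_add_left _ _)

theorem d2b_mem_A {b : S'.A} {q₀ : S'.P} (hq : S'.arr q₀ = b) {k : G}
    (hk : k ∈ stabilizer G (O.A b)) : S.arr (k • O.P q₀) = O.A b := by
  rw [S.arr_smul, O.arr_P, hq]; exact hk

/-- The first half of the lift, for one arrow. -/
theorem d2b_half {b : S'.A} {q₀ : S'.P} (hq : S'.arr q₀ = b) : ∃ c, ∀ (r : ℕ) (p : S.P),
    S.arr p = O.A b → O.Near r (S.s p) (S'.src b) →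
    ∃ k ∈ stabilizer G (O.A b) ⊓ stabilizer G (S'.src b),
      S.Cl (c * (r + 1)) (S.t p) (k • S.t (O.P q₀)) := by
  obtain ⟨C, hC⟩ := S.consts
  obtain ⟨C₁, h1⟩ := d2b_pts (O.P q₀)
  have ha : S.arr (O.P q₀) = O.A b := by rw [O.arr_P, hq]
  rw [ha] at h1
  obtain ⟨C₂, h2, -⟩ := O.d2b_inter (S.fg (O.A b)) (ω := S'.src b)
    (by rw [← O.src_A]; exact Sys.stab_le_src _) (x₀ := S.s (O.P q₀))
    (by rw [S.nd_s, ha, O.src_A])
  refine ⟨C * (C₁ + C₂ + 1), fun r p hp hn => ?_⟩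
  obtain ⟨k, hk, h3, -⟩ := h1 p hp
  obtain ⟨k', hk', h4⟩ := h2 (r + C₁) _ k hk (h3.mono (Nat.le_add_left _ _))
    (hn.mono (Nat.le_add_right _ _))
  refine ⟨k', hk', ?_⟩
  rw [← S.s_smul] at h4
  have h5 := (hC p _ (hp.trans (O.d2b_mem_A hq hk'.1).symm)).2.2.1 _ h4
  rw [S.t_smul] at h5
  refine h5.mono ?_
  rw [mul_assoc]
  exact Nat.mul_le_mul_left _ (by nlinarith)

/-- Constants that are uniform over the arrows of `S'`. -/
theorem d2b_unif (Q : S.P → S'.A → ℕ → Prop)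
    (hmono : ∀ p b c c', c ≤ c' → Q p b c → Q p b c')
    (hinv : ∀ (g : G) p b c, Q p b c → Q (g • p) (g • b) c) (hex : ∀ b, ∃ c, ∀ p, Q p b c) :
    ∃ c, ∀ p b, Q p b c := by
  obtain ⟨c, hc⟩ := S'.finA.bound (fun b c => ∀ p, Q p b c)
    (fun b _ c c' h hq p => hmono p b c c' h (hq p))
    (fun g _ b _ c _ hq p => by
      have := hinv g _ b c (hq (g⁻¹ • p))
      rwa [smul_inv_smul] at this)
    (fun b _ => hex b)
  exact ⟨c, fun p b => hc b (Set.mem_univ _) p⟩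

theorem d2b_arr_inv {g : G} {p : S.P} {b : S'.A} (h : S.arr (g • p) = O.A (g • b)) :
    S.arr p = O.A b := by
  rw [S.arr_smul, O.A_smul] at h
  exact smul_left_cancel g h

theorem d2b_near_inv {g : G} {r : ℕ} {z : S.V} {ω : N'} (h : O.Near r (g • z) (g • ω)) :
    O.Near r z ω := by
  have := h.smul g⁻¹
  rwa [inv_smul_smul, inv_smul_smul] at this

theorem d2b_pr {b : S'.A} {q₀ : S'.P} (hq : S'.arr q₀ = b) (h : O.DetOut) : ∃ D,
    ∀ (p : S.P) (x : S'.V), S.arr p = O.A b → O.IsPr (S.s p) (S'.src b) x →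
      ∃ q, S'.arr q = b ∧ S.Cl D (O.V x) (S.s (O.P q)) := by
  obtain ⟨C₁, h1⟩ := d2b_pts (O.P q₀)
  have ha : S.arr (O.P q₀) = O.A b := by rw [O.arr_P, hq]
  rw [ha] at h1
  obtain ⟨C₂, -, h2⟩ := O.d2b_inter (S.fg (O.A b)) (ω := S'.src b)
    (by rw [← O.src_A]; exact Sys.stab_le_src _) (x₀ := S.s (O.P q₀))
    (by rw [S.nd_s, ha, O.src_A])
  refine ⟨C₁ + C₂, fun p x hp hx => ?_⟩
  obtain ⟨k, hk, h3, -⟩ := h1 p hp
  obtain ⟨x₁, hx₁⟩ := O.exists_pr (p := k • S.s (O.P q₀)) (ω := S'.src b)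
    (by rw [← h3.1, S.nd_s, hp, O.src_A])
  obtain ⟨k', hk', h4⟩ := h2 k hk x₁ hx₁
  have hb : k' ∈ stabilizer G b := by rw [h.stab_eq]; exact ⟨hk'.2, hk'.1⟩
  refine ⟨k' • q₀, by rw [S'.arr_smul, hq]; exact hb, ?_⟩
  rw [O.P_smul, S.s_smul]
  exact (O.cl_V.1 (hx.lip hx₁ h3)).2.trans h4

/-- Finitely many nodes of `S'` are near a point. -/
theorem near_bound : ∃ F, Bd F ∧ ∀ r p, {ω | O.Near r p ω}.Finite ∧ {ω | O.Near r p ω}.ncard ≤ F r := by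
  classical
  obtain ⟨F, bF, hF⟩ := S.ball_bound
  obtain ⟨R, hR, hrep⟩ := S'.finV
  choose k hk1 hk using fun x => hrep x (Set.mem_univ x)
  refine ⟨fun r => F r * R.ncard, bF.mul (Bd.const _), fun r p => ?_⟩
  obtain ⟨h1, h2, -⟩ := hF r p
  have hinj : Set.InjOn (fun q : S'.V => (O.V q, k q • q)) {q | S.Cl r p (O.V q)} := by
    intro q _ q' _ he
    simp only [Prod.mk.injEq] at he
    have e1 : q' = ((k q')⁻¹ * k q) • q := by rw [mul_smul, he.2, inv_smul_smul]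
    have e2 : (k q')⁻¹ * k q = 1 := S.free _ (O.V q) (by rw [← O.V_smul, ← e1, he.1])
    rw [e1, e2, one_smul]
  have hmaps : ∀ q ∈ {q | S.Cl r p (O.V q)},
      (fun q : S'.V => (O.V q, k q • q)) q ∈ {y | S.Cl r p y} ×ˢ R := fun q hq => ⟨hq, hk q⟩
  have hfin : {q | S.Cl r p (O.V q)}.Finite :=
    Set.Finite.of_injOn hmaps hinj (h1.prod hR)
  have hcard := Set.ncard_le_ncard_of_injOn _ hmaps hinj (h1.prod hR)
  rw [Set.ncard_prod] at hcard
  have e : {ω | O.Near r p ω} = S'.nd '' {q | S.Cl r p (O.V q)} := by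
    ext ω
    exact ⟨fun ⟨q, h3, h4⟩ => ⟨q, h4, h3⟩, fun ⟨q, h3, h4⟩ => ⟨q, h4, h3⟩⟩
  rw [e]
  exact ⟨hfin.image _, (Set.ncard_image_le hfin).trans
    (hcard.trans (Nat.mul_le_mul_right _ h2))⟩

/-- Trees of nodes with trivial common stabiliser overlap boundedly. -/
theorem overlap : ∃ C, ∀ (ω ω' : N') (r : ℕ) (p p' : S.V),
    stabilizer G ω ⊓ stabilizer G ω' = ⊥ → O.Near r p ω → O.Near r p ω' → O.Near r p' ω →
    O.Near r p' ω' → S.Cl (2 * r + C) p p' := by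
  refine ⟨nOrb (⊤ : Subgroup G) (Set.univ : Set S'.V) *
    nOrb (⊤ : Subgroup G) (Set.univ : Set S'.V), fun ω ω' r p p' hbot h1 h2 h3 h4 => ?_⟩
  have hT := S.gf.acyc
  have hpp : S.nd p = S.nd p' := h1.nd.trans h3.nd.symm
  obtain ⟨q₁, n1, c1⟩ := h1
  obtain ⟨q₂, n2, c2⟩ := h2
  obtain ⟨q₃, n3, c3⟩ := h3
  obtain ⟨q₄, n4, c4⟩ := h4
  have key : ∀ {z x y m : S.V}, S.Cl r z x → S.Cl r z y → Btw S.B x m y → S.Cl r z m :=
    fun hx hy hm => ⟨hx.1.trans (Sys.nd_of_btw hm).1,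
      (Btw.dist_le_max hT hm hx.reach).trans (max_le hx.2 hy.2)⟩
  by_cases hd : Disjoint (O.V '' {x | S'.nd x = ω}) (O.V '' {x | S'.nd x = ω'})
  · obtain ⟨m, -, m', -, -, hb, -⟩ := Cvx.bridge hT (O.cvx ω) (O.cvx ω') hd ⟨q₁, n1, rfl⟩
      ⟨q₂, n2, rfl⟩ (c1.reach.symm.trans c2.reach)
    have a1 := key c1 c2 (hb _ ⟨q₁, n1, rfl⟩ _ ⟨q₂, n2, rfl⟩).2.2.1
    have a2 := key c3 c4 (hb _ ⟨q₃, n3, rfl⟩ _ ⟨q₄, n4, rfl⟩).2.2.1
    exact (a1.trans a2.symm).mono (by omega)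
  · obtain ⟨c, hc, hc'⟩ := Set.not_disjoint_iff.1 hd
    obtain ⟨y, hy, hb⟩ := Cvx.helly hT (O.cvx ω) (O.cvx ω') hc hc' ⟨q₁, n1, rfl⟩ ⟨q₂, n2, rfl⟩
    obtain ⟨y', hy', hb'⟩ := Cvx.helly hT (O.cvx ω) (O.cvx ω') hc hc' ⟨q₃, n3, rfl⟩ ⟨q₄, n4, rfl⟩
    have a1 := key c1 c2 hb
    have a2 := key c3 c4 hb'
    obtain ⟨f1, f2⟩ := S.ft.finOrb_inter (O.kc_tree ω).finV (O.kc_tree ω').finV
    rw [hbot] at f1 f2
    rw [nOrb_bot] at f2
    have hfin : (O.V '' {x | S'.nd x = ω} ∩ O.V '' {x | S'.nd x = ω'}).Finite := by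
      obtain ⟨R, hR, hrep⟩ := f1
      refine hR.subset fun x hx => ?_
      obtain ⟨k, hk, hx'⟩ := hrep x hx
      rwa [Subgroup.mem_bot.1 hk, one_smul] at hx'
    have hcv := Cvx.inter (O.cvx ω) (O.cvx ω') y hy y' hy'
    have b1 := Set.ncard_le_ncard (s := {z | Btw S.B y z y'}) hcv.2 hfin
    rw [ncard_btw hT hcv.1] at b1
    have b2 := Nat.mul_le_mul (O.d2b_tree_le ω) (O.d2b_tree_le ω')
    have a3 : S.Cl (S.B.dist y y') y y' := Sys.cl_dist ((S.nd_eq _ _).2 hcv.1)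
    exact ((a1.trans a3).trans a2.symm).mono (by omega)

/-- (D1) A point near both ends of an arrow of `S'` lifts. -/
theorem lift_point : ∃ F, Bd F ∧ ∀ (r : ℕ) (p : S.P) (b : S'.A), S.arr p = O.A b →
    O.Near r (S.s p) (S'.src b) → O.Near r (S.t p) (S'.tgt b) →
    ∃ q, S'.arr q = b ∧ S.Cl (F r) (S.s p) (O.V (S'.s q)) ∧ S.Cl (F r) (S.t p) (O.V (S'.t q)) := by
  obtain ⟨c, hc⟩ := d2b_unif (S := S) (S' := S') (fun p b c => ∀ r : ℕ, S.arr p = O.A b →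
      O.Near r (S.s p) (S'.src b) → O.Near r (S.t p) (S'.tgt b) →
      ∃ q, S'.arr q = b ∧ S.Cl (c * (r + 1)) (S.s p) (O.V (S'.s q)) ∧
        S.Cl (c * (r + 1)) (S.t p) (O.V (S'.t q)))
    (fun p b c c' hc h r h1 h2 h3 => by
      obtain ⟨q, a1, a2, a3⟩ := h r h1 h2 h3
      exact ⟨q, a1, a2.mono (Nat.mul_le_mul_right _ hc), a3.mono (Nat.mul_le_mul_right _ hc)⟩)
    (fun g p b c h r h1 h2 h3 => by
      rw [S.s_smul, S'.src_smul] at h2
      rw [S.t_smul, S'.tgt_smul] at h3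
      obtain ⟨q, a1, a2, a3⟩ := h r (O.d2b_arr_inv h1) (O.d2b_near_inv h2) (O.d2b_near_inv h3)
      refine ⟨g • q, by rw [S'.arr_smul, a1], ?_, ?_⟩
      · rw [S.s_smul, S'.s_smul, O.V_smul]; exact a2.smul g
      · rw [S.t_smul, S'.t_smul, O.V_smul]; exact a3.smul g)
    (fun b => by
      obtain ⟨q₀, hq⟩ := S'.arr_surj b
      obtain ⟨C, hC⟩ := S.consts
      obtain ⟨c₁, h1⟩ := O.d2b_half hq
      have ha : S.arr (O.P q₀) = O.A b := by rw [O.arr_P, hq]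
      have hfg : (stabilizer G (O.A b) ⊓ stabilizer G (S'.src b)).FG :=
        S.howson (v := O.ν (S'.src b)) (S.fg _) (S'.node_fg _)
          (by rw [← O.src_A]; exact Sys.stab_le_src _) (O.stab_le _)
      obtain ⟨C₃, h3, -⟩ := O.d2b_inter hfg (ω := S'.tgt b)
        (inf_le_left.trans (by rw [← O.tgt_A]; exact Sys.stab_le_tgt _)) (x₀ := S.t (O.P q₀))
        (by rw [S.nd_t, ha, O.tgt_A])
      refine ⟨(C + 1) * (c₁ + C₃ + 2) + O.C, fun p r hp hs ht => ?_⟩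
      obtain ⟨k, hk, h4⟩ := h1 r p hp hs
      obtain ⟨k', hk', h5⟩ := h3 (c₁ * (r + 1) + r) _ k hk (h4.mono (Nat.le_add_right _ _))
        (ht.mono (Nat.le_add_left _ _))
      have hb : k' ∈ stabilizer G b := by rw [O.stab_eq]; exact hk'
      rw [← S.t_smul] at h5
      have h6 := (hC p _ (hp.trans (O.d2b_mem_A hq hk'.1.1).symm)).2.2.2.1 _ h5
      rw [← O.P_smul] at h5 h6
      have i1 : c₁ * (r + 1) + r + C₃ + 1 ≤ (c₁ + C₃ + 2) * (r + 1) := by nlinarith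
      have i2 := Nat.mul_le_mul_left C i1
      have i3 : ((C + 1) * (c₁ + C₃ + 2) + O.C) * (r + 1) = C * ((c₁ + C₃ + 2) * (r + 1)) +
          (c₁ + C₃ + 2) * (r + 1) + O.C * r + O.C := by ring
      refine ⟨k' • q₀, by rw [S'.arr_smul, hq]; exact hb,
        (h6.trans (O.s_cl _).symm).mono (by omega),
        (h5.trans (O.t_cl _).symm).mono (by omega)⟩)
  exact ⟨fun r => c * (r + 1), (Bd.const c).mul (Bd.id.add (Bd.const 1)),
    fun r p b h1 h2 h3 => hc p b r h1 h2 h3⟩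

/-- (D2) Nearness is transported forwards. -/
theorem near_fwd (h : O.DetOut) : ∃ F, Bd F ∧ ∀ (r : ℕ) (p : S.P) (b : S'.A), S.arr p = O.A b →
    O.Near r (S.s p) (S'.src b) → O.Near (F r) (S.t p) (S'.tgt b) := by
  obtain ⟨c, hc⟩ := d2b_unif (S := S) (S' := S') (fun p b c => ∀ r : ℕ, S.arr p = O.A b →
      O.Near r (S.s p) (S'.src b) → O.Near (c * (r + 1)) (S.t p) (S'.tgt b))
    (fun p b c c' hc h r h1 h2 => (h r h1 h2).mono (Nat.mul_le_mul_right _ hc))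
    (fun g p b c h r h1 h2 => by
      rw [S.s_smul, S'.src_smul] at h2
      rw [S.t_smul, S'.tgt_smul]
      exact (h r (O.d2b_arr_inv h1) (O.d2b_near_inv h2)).smul g)
    (fun b => by
      obtain ⟨q₀, hq⟩ := S'.arr_surj b
      obtain ⟨c₁, h1⟩ := O.d2b_half hq
      refine ⟨c₁ + O.C, fun p r hp hs => ?_⟩
      obtain ⟨k, hk, h4⟩ := h1 r p hp hs
      have hb : k ∈ stabilizer G b := by rw [h.stab_eq]; exact ⟨hk.2, hk.1⟩
      have h5 := near_t (O := O) (k • q₀)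
      rw [S'.arr_smul, hq, mem_stabilizer_iff.1 hb, O.P_smul, S.t_smul] at h5
      exact (h5.of_cl h4).mono (by nlinarith))
  exact ⟨fun r => c * (r + 1), (Bd.const c).mul (Bd.id.add (Bd.const 1)),
    fun r p b h1 h2 => hc p b r h1 h2⟩

theorem near_bwd (h : O.DetIn) : ∃ F, Bd F ∧ ∀ (r : ℕ) (p : S.P) (b : S'.A), S.arr p = O.A b →
    O.Near r (S.t p) (S'.tgt b) → O.Near (F r) (S.s p) (S'.src b) := by
  exact O.d2bRev.near_fwd h

/-- (Proj) Projections of an arrow point are close to a point of the arrow above. -/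
theorem proj_point (h : O.Tight) : ∃ C, ∀ (p : S.P) (b : S'.A) (x y : S'.V), S.arr p = O.A b →
    O.IsPr (S.s p) (S'.src b) x → O.IsPr (S.t p) (S'.tgt b) y →
    ∃ q, S'.arr q = b ∧ S'.Cl C x (S'.s q) ∧ S'.Cl C y (S'.t q) := by
  obtain ⟨c, hc⟩ := d2b_unif (S := S) (S' := S') (fun p b c => ∀ x y : S'.V, S.arr p = O.A b →
      O.IsPr (S.s p) (S'.src b) x → O.IsPr (S.t p) (S'.tgt b) y →
      ∃ q, S'.arr q = b ∧ S'.Cl c x (S'.s q) ∧ S'.Cl c y (S'.t q))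
    (fun p b c c' hc h x y h1 h2 h3 => by
      obtain ⟨q, a1, a2, a3⟩ := h x y h1 h2 h3
      exact ⟨q, a1, a2.mono hc, a3.mono hc⟩)
    (fun g p b c h x y h1 h2 h3 => by
      have h2' := h2.smul g⁻¹
      have h3' := h3.smul g⁻¹
      rw [S.s_smul, S'.src_smul, inv_smul_smul, inv_smul_smul] at h2'
      rw [S.t_smul, S'.tgt_smul, inv_smul_smul, inv_smul_smul] at h3'
      obtain ⟨q, a1, a2, a3⟩ := h _ _ (O.d2b_arr_inv h1) h2' h3'
      have a2' := a2.smul g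
      have a3' := a3.smul g
      rw [smul_inv_smul, ← S'.s_smul] at a2'
      rw [smul_inv_smul, ← S'.t_smul] at a3'
      exact ⟨g • q, by rw [S'.arr_smul, a1], a2', a3'⟩)
    (fun b => by
      have hT := S.gf.acyc
      obtain ⟨q₀, hq⟩ := S'.arr_surj b
      obtain ⟨C, hC⟩ := S.consts
      obtain ⟨D, hD⟩ := O.d2b_pr hq h.1
      obtain ⟨D', hD'⟩ : ∃ D', ∀ (p : S.P) (y : S'.V), S.arr p = O.A b →
          O.IsPr (S.t p) (S'.tgt b) y → ∃ q, S'.arr q = b ∧ S.Cl D' (O.V y) (S.t (O.P q)) :=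
        O.d2bRev.d2b_pr hq h.2
      refine ⟨D + D' + C * (D + O.C + 1) + O.C, fun p x y hp hx hy => ?_⟩
      obtain ⟨q₁, a1, c1⟩ := hD p x hp hx
      obtain ⟨q₂, a2, c2⟩ := hD' p y hp hy
      have b1 : S.arr (O.P q₁) = S.arr p := by rw [O.arr_P, a1, hp]
      have b2 : S.arr p = S.arr (O.P q₂) := by rw [O.arr_P, a2, hp]
      have n1 : S'.nd (S'.s q₁) = S'.src b := by rw [S'.nd_s, a1]
      have n2 : S'.nd (S'.s q₂) = S'.src b := by rw [S'.nd_s, a2]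
      have n3 : S'.nd (S'.t q₁) = S'.tgt b := by rw [S'.nd_t, a1]
      obtain ⟨y₀, e1, e2, e3⟩ := Btw.near hT (hx.2 _ n2) (SimpleGraph.Reachable.refl _)
        (O.s_cl q₂).reach (c := O.C) (by simp) (O.s_cl q₂).2
      have c3 : S.Cl (D + O.C) (S.s (O.P q₁)) y₀ :=
        c1.symm.trans (⟨(S.nd_eq _ _).2 e2, e3⟩ : S.Cl O.C (O.V x) y₀)
      obtain ⟨y₁, e4, c4⟩ := (hC p _ b2).2.2.2.2.1 _ b1 _ _ e1 c3
      obtain ⟨y₂, e5, e6, e7⟩ := Btw.near hT e4 (SimpleGraph.Reachable.refl _)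
        c2.symm.reach (c := D') (by simp) c2.symm.2
      have c5 : S.Cl (D' + C * (D + O.C + 1) + O.C) y₂ (O.V (S'.t q₁)) :=
        ((Sys.Cl.symm (⟨(S.nd_eq _ _).2 e6, e7⟩ : S.Cl D' y₁ y₂)).trans c4.symm).trans
          (O.t_cl q₁).symm
      have e8 := ((hy.2 _ n3).trans_left e5).2
      refine ⟨q₁, a1, O.cl_V.2 ⟨hx.1.trans n1.symm, (c1.trans (O.s_cl q₁).symm).mono (by omega)⟩,
        O.cl_V.2 ⟨hy.1.trans n3.symm, (Sys.nd_of_btw e8).2, ?_⟩⟩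
      have := e8.2.2
      have := c5.2
      omega)
  exact ⟨c, fun p b x y h1 h2 h3 => hc p b x y h1 h2 h3⟩

theorem si_out (h : O.DetOut) (hS : S.SIs S.src) : S'.SIs S'.src := by
  classical
  intro v K hK hle F hF hd
  have hinj : Set.InjOn O.A F := fun b hb b' hb' he => h b b' he ((hF b hb).trans (hF b' hb').symm)
  have h1 := hS (O.ν v) K hK (hle.trans (O.stab_le v)) (F.image O.A) (by
      intro a ha
      obtain ⟨b, hb, rfl⟩ := Finset.mem_image.1 ha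
      rw [O.src_A, hF b hb]) (by
      intro a ha a' ha' ⟨k, hk, he⟩
      obtain ⟨b, hb, rfl⟩ := Finset.mem_image.1 ha
      obtain ⟨b', hb', rfl⟩ := Finset.mem_image.1 ha'
      rw [hd b hb b' hb' ⟨k, hk, h _ _ (by rw [O.A_smul, he])
        (by rw [S'.src_smul, hF b hb, hF b' hb']; exact hle hk)⟩])
  rw [Finset.sum_image hinj] at h1
  refine le_of_eq_of_le (Finset.sum_congr rfl fun b hb => ?_) h1
  rw [h.stab_eq, hF b hb, ← inf_assoc, inf_eq_left.2 hle]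

theorem si_in (h : O.DetIn) (hS : S.SIs S.tgt) : S'.SIs S'.tgt := by
  exact O.d2bRev.si_out h hS

theorem IsDer.tight {O : Over S' S} {R : S.A → N' → N' → Prop} (h : O.IsDer R)
    (hf : ∀ a x y y', R a x y → R a x y' → y = y') (hi : ∀ a x x' y, R a x y → R a x' y → x = x') :
    O.Tight := by
  refine ⟨fun b b' h1 h2 => O.det b b' h1 h2 ?_, fun b b' h1 h2 => O.det b b' h1 ?_ h2⟩
  · have := h.mem b'
    rw [← h1, ← h2] at this
    exact hf _ _ _ _ (h.mem b) this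
  · have := h.mem b'
    rw [← h1, ← h2] at this
    exact hi _ _ _ _ (h.mem b) this

end Over

theorem d2b_sis {G : Type} [Group G] {N : Type} [MulAction G N] {S : Sys G N} {σ : S.A → N}
    (hσ : ∀ (g : G) a, σ (g • a) = g • σ a) (h : ∀ v, ∃! a, σ a = v) : S.SIs σ := by
  intro v K _ hle F hF _
  obtain ⟨a, ha, hu⟩ := h v
  have hsub : F ⊆ {a} := fun b hb => Finset.mem_singleton.2 (hu b (hF b hb))
  refine (Finset.sum_le_sum_of_subset hsub).trans ?_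
  have hK : K ≤ stabilizer G a := fun k hk =>
    hu _ (show σ (k • a) = v by rw [hσ, ha]; exact hle hk)
  rw [Finset.sum_singleton, inf_eq_left.2 hK]

theorem Sys.Bij.si {G : Type} [Group G] {N : Type} [MulAction G N] {S : Sys G N} (h : S.Bij) :
    S.SI := by
  exact ⟨d2b_sis S.src_smul h.out, d2b_sis S.tgt_smul h.inn⟩

theorem Sys.Bij.stab {G : Type} [Group G] {N : Type} [MulAction G N] {S : Sys G N} (h : S.Bij)
    (a : S.A) : stabilizer G a = stabilizer G (S.src a) ∧ stabilizer G a = stabilizer G (S.tgt a) := by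
  refine ⟨le_antisymm (Sys.stab_le_src a) fun g hg => ?_,
    le_antisymm (Sys.stab_le_tgt a) fun g hg => ?_⟩
  · exact (h.out (S.src a)).unique (by rw [S.src_smul]; exact hg) rfl
  · exact (h.inn (S.tgt a)).unique (by rw [S.tgt_smul]; exact hg) rfl

end CPOR
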