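import Pool.Agent.P.MP_2cb329_al.F.S3

/-! Theorem F: cyclic windows, G1, and the reduction to non-cyclic windows. -/

set_option autoImplicit false

namespace CPOR
open ZT MulAction

namespace Sys

variable {G : Type} [Group G] {N : Type} [MulAction G N] {S : Sys G N}

/-- An element that commutes with a rigid element and maps one arrow of the path to another
shifts the path. -/
theorem Rigid.shift {x g : G} {a : ℤ → S.A} {n : ℕ} (h : S.Rigid x a n) (hc : Commute g x)
    {i c : ℤ} (hi : 0 ≤ i) (hi' : i < n) (hc1 : 0 ≤ i + c) (hc2 : i + c < n)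
    (hg : g • a i = a (i + c)) (l : ℤ) (h1 : 0 ≤ l) (h2 : l < n) (h3 : 0 ≤ l + c) (h4 : l + c < n) :
    g • a l = a (l + c) := by
  have hfix : ∀ l : ℤ, 0 ≤ l → l < n → x • g • a l = g • a l := fun l h1 h2 => by
    rw [smul_smul, ← hc.eq, ← smul_smul, h.fix l h1 h2]
  have up : ∀ k : ℕ, i + k < n → i + k + c < n → g • a (i + k) = a (i + k + c) := by
    intro k
    induction k with
    | zero => intro _ _; simpa using hg
    | succ k ih =>
      intro e1 e2
      push_cast at e1 e2 ⊢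
      have ih' := ih (by omega) (by omega)
      refine h.out (i + (k + 1) + c) (by omega) e2 _ (hfix _ (by omega) e1) ?_
      have p1 := h.path (i + k) (by omega) (by omega)
      have p2 := h.path (i + k + c) (by omega) (by omega)
      rw [S.src_smul, show i + (k + 1) = i + k + 1 by ring, ← p1, ← S.tgt_smul, ih', p2]
      congr 2; ring
  have dn : ∀ k : ℕ, 0 ≤ i - k → 0 ≤ i - k + c → g • a (i - k) = a (i - k + c) := by
    intro k
    induction k with
    | zero => intro _ _; simpa using hg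
    | succ k ih =>
      intro e1 e2
      push_cast at e1 e2 ⊢
      have ih' := ih (by omega) (by omega)
      have := h.inn (i - k + c) (by omega) (by omega) (g • a (i - (k + 1)))
        (hfix _ e1 (by omega)) ?_
      · rw [this]; congr 1; ring
      have p1 := h.path (i - (k + 1)) e1 (by omega)
      rw [S.tgt_smul, p1, show i - (k + 1) + 1 = i - k by ring, ← S.src_smul, ih']
  rcases le_total i l with hl | hl
  · obtain ⟨k, rfl⟩ := Int.le.dest hl
    exact up k h2 h4
  · obtain ⟨k, hk⟩ := Int.le.dest hl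
    have : l = i - k := by omega
    subst this
    exact dn k h1 h3

theorem Rigid.sub {x : G} {a : ℤ → S.A} {n : ℕ} (h : S.Rigid x a n) (i : ℤ) (n' : ℕ) (hi : 0 ≤ i)
    (hn : i + n' ≤ n) : S.Rigid x (fun l => a (l + i)) n' := by
  refine ⟨fun l h1 h2 => ?_, fun l h1 h2 => h.fix _ (by omega) (by omega),
    fun l h1 h2 b hb hs => h.out _ (by omega) (by omega) b hb hs, fun l h1 h2 b hb hs => ?_⟩
  · have := h.path (l + i) (by omega) (by omega)
    rw [this]; congr 2; ring
  · have := h.inn (l + i) (by omega) (by omega) b hb hs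
    rw [this]; congr 1; ring

theorem Rigid.root {x c : G} {a : ℤ → S.A} {n : ℕ} (h : S.Rigid x a n) {j : ℤ} (hx : x = c ^ j)
    {i : ℤ} (hi : 0 ≤ i) (hi' : i < n) (hc : c • a i = a i) : S.Rigid c a n := by
  have hcx : Commute c x := hx ▸ (Commute.refl c).zpow_right j
  have hb : ∀ b : S.A, c • b = b → x • b = b := fun b hb => by
    have : c ∈ stabilizer G b := hb
    rw [hx]; exact (stabilizer G b).zpow_mem this j
  refine ⟨h.path, fun l h1 h2 => ?_, fun l h1 h2 b hcb hs => h.out l h1 h2 b (hb b hcb) hs,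
    fun l h1 h2 b hcb hs => h.inn l h1 h2 b (hb b hcb) hs⟩
  have := h.shift (c := 0) hcx hi hi' (by omega) (by omega) (by simpa using hc) l h1 h2
    (by omega) (by omega)
  simpa using this

theorem TL.of_zpow {L : ℕ} {c : G} {r : ℤ} (hr : r ≠ 0) {v : N} (hc : c • v = v)
    (h : S.TL L (c ^ r) v) : S.TL L c v := by
  obtain ⟨p, rfl, hp⟩ := h
  exact ⟨p, rfl, hp.of_zpow hr hc⟩

theorem exists_tl {y : G} {v : N} (hy : y • v = v) : ∃ L, S.TL L y v := by
  obtain ⟨p, rfl⟩ := S.nd_surj v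
  exact ⟨_, p, rfl, cl_dist (by rw [S.nd_smul, hy])⟩

/-- An infinite cyclic group has at most two generators. -/
theorem gens_finite {K : Subgroup G} {v : N} (S : Sys G N) (hK : K ≤ stabilizer G v) :
    {y : G | Subgroup.zpowers y = K}.Finite := by
  by_cases hne : {y : G | Subgroup.zpowers y = K}.Nonempty
  swap
  · rw [Set.not_nonempty_iff_eq_empty.1 hne]; exact Set.finite_empty
  obtain ⟨y0, hy0⟩ := hne
  refine (Set.toFinite ({y0, y0⁻¹, 1} : Set G)).subset fun y hy => ?_
  have hy0' : Subgroup.zpowers y0 = K := hy0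
  have hy' : Subgroup.zpowers y = K := hy
  obtain ⟨r, hr⟩ : y ∈ Subgroup.zpowers y0 := by rw [hy0', ← hy']; exact Subgroup.mem_zpowers y
  obtain ⟨s, hs⟩ : y0 ∈ Subgroup.zpowers y := by rw [hy', ← hy0']; exact Subgroup.mem_zpowers y0
  simp only at hr hs
  by_cases h1 : r * s - 1 = 0
  · have h2 : r * s = 1 := by omega
    rcases Int.eq_one_or_neg_one_of_mul_eq_one h2 with h3 | h3
    · left; rw [← hr, h3, zpow_one]
    · right; left; rw [← hr, h3, zpow_neg_one]
  · right; right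
    have hv : y0 • v = v := hK (hy0' ▸ Subgroup.mem_zpowers y0)
    have : y0 = 1 := S.eq_one_of_zpow hv h1 (by
      rw [zpow_sub, zpow_mul, hr, hs, zpow_one, mul_inv_cancel])
    rw [← hr, this, one_zpow]; rfl

/-- All cyclic windows of a rigid path have the same group. -/
theorem Rigid.fix_eq {c : G} {a : ℤ → S.A} {n m : ℕ} (h : S.Rigid c a n) {l l' : ℤ}
    (hl : 0 ≤ l) (hl' : l + m ≤ n) (hk : 0 ≤ l') (hk' : l' + m ≤ n) (hm : 1 ≤ m)
    (hc : Subgroup.zpowers c = S.Fix a l (l + m)) (hcy : IsCyclic (S.Fix a l' (l' + m))) :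
    Subgroup.zpowers c = S.Fix a l' (l' + m) := by
  have hcm : c ∈ S.Fix a l' (l' + m) :=
    mem_fix.2 fun i h1 h2 => h.fix i (by omega) (by omega)
  refine le_antisymm ((Subgroup.zpowers_le).2 hcm) ?_
  obtain ⟨d, hd⟩ := (Subgroup.isCyclic_iff_exists_zpowers_eq_top _).1 hcy
  rw [← hd] at hcm
  obtain ⟨j, hj⟩ := hcm
  have hdm : d ∈ S.Fix a l' (l' + m) := hd ▸ Subgroup.mem_zpowers d
  have hr := h.root (c := d) (j := j) hj.symm hk (by omega)
    (mem_fix.1 hdm l' le_rfl (by omega))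
  rw [← hd, Subgroup.zpowers_le, hc]
  exact mem_fix.2 fun i h1 h2 => hr.fix i (by omega) (by omega)

theorem cyc1 {m : ℕ} (hm : 1 ≤ m) (h : S.G1P (S.NC m)) : S.G1P S.Any := by
  classical
  obtain ⟨F, hF, h⟩ := h
  obtain ⟨T, hT, hT'⟩ := S.fin_win m
  have hm' : (0 : ℤ) < m := by exact_mod_cast hm
  -- a nontrivial element of bounded translation length for each type
  have hC1 : ∀ b ∈ T, ∃ C : ℕ, ∃ y ∈ S.Fix b 0 m, y ≠ 1 ∧ S.TL C y (S.src (b 0)) ∧
      S.TL C y (S.tgt (b 0)) := by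
    intro b hb
    obtain ⟨⟨y, hy⟩, hy1⟩ := (Subgroup.ne_bot_iff_exists_ne_one).1 (hT b hb).2
    obtain ⟨C1, h1⟩ := exists_tl (S := S) (fix_le_src (l := 0) le_rfl hm' hy)
    obtain ⟨C2, h2⟩ := exists_tl (S := S) (fix_le_tgt (l := 0) le_rfl hm' hy)
    exact ⟨C1 + C2, y, hy, fun e => hy1 (Subtype.ext e), h1.mono (by omega), h2.mono (by omega)⟩
  choose! Cb hCb using hC1
  set C := T.sup Cb with hCdef
  have hfin : {τ : (ℤ → S.A) × G | τ.1 ∈ T ∧ Subgroup.zpowers τ.2 = S.Fix τ.1 0 m}.Finite := by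
    have : {τ : (ℤ → S.A) × G | τ.1 ∈ T ∧ Subgroup.zpowers τ.2 = S.Fix τ.1 0 m} ⊆
        ⋃ b ∈ (T : Set (ℤ → S.A)), ({b} : Set (ℤ → S.A)) ×ˢ
          {y : G | Subgroup.zpowers y = S.Fix b 0 m} := by
      rintro ⟨b, y⟩ ⟨h1, h2⟩
      simp only [Set.mem_iUnion]
      exact ⟨b, h1, rfl, h2⟩
    refine Set.Finite.subset (T.finite_toSet.biUnion fun b _ => ?_) this
    exact (Set.finite_singleton b).prod (gens_finite S (fix_le_src (l := 0) le_rfl hm'))
  set M := hfin.toFinset.card with hM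
  refine ⟨fun L => (M + 1) * (F (L + C) + 1),
    (Bd.const _).mul ((hF.comp (Bd.id.add (Bd.const _))).add (Bd.const 1)), ?_⟩
  intro L n x a hx hr _ ht1 ht2
  by_cases hnc : S.NC m a 0 n
  · rcases h (L + C) n x a hx hr hnc (ht1.mono (by omega)) (ht2.mono (by omega)) with h1 | h1
    · left; show n ≤ (M + 1) * (F (L + C) + 1); nlinarith
    · exact Or.inr h1
  by_contra hcon
  rw [not_or] at hcon
  obtain ⟨hcon1, hcon⟩ := hcon
  apply hcon1
  show n ≤ (M + 1) * (F (L + C) + 1)
  unfold NC at hnc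
  push Not at hnc
  obtain ⟨l0, hl0, hl0', hcy0⟩ := hnc
  obtain ⟨c, hc⟩ := (Subgroup.isCyclic_iff_exists_zpowers_eq_top _).1 hcy0
  have hxm : x ∈ S.Fix a l0 (l0 + m) := mem_fix.2 fun i h1 h2 => hr.fix i (by omega) (by omega)
  rw [← hc] at hxm
  obtain ⟨j, hj⟩ := hxm
  simp only at hj
  have hj0 : j ≠ 0 := by rintro rfl; exact hx (by simpa using hj.symm)
  have hc1 : c ≠ 1 := by rintro rfl; exact hx (by simpa using hj.symm)
  have hcm : c ∈ S.Fix a l0 (l0 + m) := hc ▸ Subgroup.mem_zpowers c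
  have hrc : S.Rigid c a n := hr.root hj.symm hl0 (by omega) (mem_fix.1 hcm l0 le_rfl (by omega))
  have hcsrc : ∀ i : ℤ, 0 ≤ i → i < n → c • S.src (a i) = S.src (a i) := fun i h1 h2 => by
    rw [← S.src_smul, hrc.fix i h1 h2]
  have hctgt : ∀ i : ℤ, 0 ≤ i → i < n → c • S.tgt (a i) = S.tgt (a i) := fun i h1 h2 => by
    rw [← S.tgt_smul, hrc.fix i h1 h2]
  have hs0 : S.TL (L + C) c (S.src (a 0)) :=
    (TL.of_zpow hj0 (hcsrc 0 le_rfl (by omega)) (hj ▸ ht1)).mono (by omega)
  have hsn : S.TL (L + C) c (S.tgt (a (n - 1))) :=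
    (TL.of_zpow hj0 (hctgt _ (by omega) (by omega)) (hj ▸ ht2)).mono (by omega)
  have hno : ∀ (g : G) (i k : ℤ), 0 ≤ i → i < k → k < n → Commute g c → g • a i ≠ a k :=
    fun g i k h1 h2 h3 h4 h5 => hcon ⟨g, i, k, h1, h2, h3, hj ▸ h4.zpow_right j, h5⟩
  -- the cyclic windows
  set Cs : Finset ℤ := (Finset.Icc 0 (n - m : ℤ)).filter
    (fun l => IsCyclic (S.Fix a l (l + m))) with hCs
  have hmem : ∀ l, l ∈ Cs ↔ 0 ≤ l ∧ l + m ≤ n ∧ IsCyclic (S.Fix a l (l + m)) := fun l => by
    simp only [hCs, Finset.mem_filter, Finset.mem_Icc]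
    constructor
    · rintro ⟨⟨h1, h2⟩, h3⟩; exact ⟨h1, by omega, h3⟩
    · rintro ⟨h1, h2, h3⟩; exact ⟨⟨h1, by omega⟩, h3⟩
  have hty : ∀ l ∈ Cs, ∃ g : G, ∃ b ∈ T, g • b 0 = a l ∧
      Subgroup.zpowers (g⁻¹ * c * g) = S.Fix b 0 m := by
    intro l hl
    obtain ⟨h1, h2, h3⟩ := (hmem l).1 hl
    have he := hrc.fix_eq hl0 hl0' h1 h2 hm hc h3
    obtain ⟨g, b, hb, hgb⟩ := hT' a l hm (hr.path.mono h1 h2) (by
      rw [← he]; simpa using hc1)
    refine ⟨g, b, hb, by simpa using (hgb 0 le_rfl hm').symm, ?_⟩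
    have hmm : ∀ z : G, z ∈ S.Fix b 0 m ↔ g * z * g⁻¹ ∈ S.Fix a l (l + m) := by
      intro z
      rw [mem_fix, mem_fix]
      constructor
      · intro hz i hi1 hi2
        have := hgb (i - l) (by omega) (by omega)
        rw [show l + (i - l) = i by ring] at this
        rw [this, smul_smul, inv_mul_cancel_right, mul_smul, hz _ (by omega) (by omega)]
      · intro hz i hi1 hi2
        have := hz (l + i) (by omega) (by omega)
        rw [hgb i hi1 hi2, smul_smul, inv_mul_cancel_right, mul_smul] at this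
        exact smul_left_cancel g this
    ext z
    rw [hmm, ← he, Subgroup.mem_zpowers_iff, Subgroup.mem_zpowers_iff]
    have hp : ∀ k : ℤ, (g⁻¹ * c * g) ^ k = g⁻¹ * c ^ k * g := fun k => by
      have := conj_zpow (i := k) (a := g⁻¹) (b := c)
      simpa using this
    constructor
    · rintro ⟨k, rfl⟩; exact ⟨k, by rw [hp]; group⟩
    · rintro ⟨k, hk⟩; exact ⟨k, by rw [hp, hk]; group⟩
  have : Nonempty S.A := ⟨a 0⟩
  choose! gs bs hbs hgs hzs using hty
  have hcard : Cs.card ≤ M := by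
    refine Finset.card_le_card_of_injOn (fun l => (bs l, (gs l)⁻¹ * c * gs l)) ?_ ?_
    · intro l hl
      simp only [Set.Finite.coe_toFinset, Set.mem_ofPred_eq]
      exact ⟨hbs l hl, hzs l hl⟩
    · have key : ∀ l ∈ Cs, ∀ l' ∈ Cs, l < l' →
          (bs l, (gs l)⁻¹ * c * gs l) ≠ (bs l', (gs l')⁻¹ * c * gs l') := by
        intro l hl l' hl' hlt e
        obtain ⟨e1, e2⟩ := Prod.mk.inj e
        refine hno (gs l' * (gs l)⁻¹) l l' ((hmem l).1 hl).1 hlt
          (by have := ((hmem l').1 hl').2.1; omega) ?_ ?_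
        · have : c = gs l' * ((gs l)⁻¹ * c * gs l) * (gs l')⁻¹ := by rw [e2]; group
          show gs l' * (gs l)⁻¹ * c = c * (gs l' * (gs l)⁻¹)
          calc gs l' * (gs l)⁻¹ * c
              = gs l' * ((gs l)⁻¹ * c * gs l) * (gs l')⁻¹ * (gs l' * (gs l)⁻¹) := by group
            _ = c * (gs l' * (gs l)⁻¹) := by rw [← this]
        · rw [← hgs l hl, smul_smul, inv_mul_cancel_right, e1, hgs l' hl']
      intro l hl l' hl' e
      rcases lt_trichotomy l l' with h1 | h1 | h1
      · exact absurd e (key l hl l' hl' h1)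
      · exact h1
      · exact absurd e.symm (key l' hl' l hl h1)
  have htl : ∀ l ∈ Cs, S.TL (L + C) c (S.src (a l)) ∧ S.TL (L + C) c (S.tgt (a l)) := by
    intro l hl
    obtain ⟨h1, h2, _⟩ := (hmem l).1 hl
    obtain ⟨y, hy, hy1, t1, t2⟩ := hCb _ (hbs l hl)
    rw [← hzs l hl] at hy
    obtain ⟨r, hr'⟩ := hy
    simp only at hr'
    have hr0 : r ≠ 0 := by rintro rfl; exact hy1 (by simpa using hr'.symm)
    have he : gs l * y * (gs l)⁻¹ = c ^ r := by
      have := conj_zpow (i := r) (a := (gs l)⁻¹) (b := c)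
      rw [inv_inv] at this
      rw [← hr', this]; group
    have hle : Cb (bs l) ≤ L + C := le_trans (Finset.le_sup (hbs l hl)) (Nat.le_add_left _ _)
    have t1' := t1.smul (gs l)
    have t2' := t2.smul (gs l)
    rw [he, ← S.src_smul, hgs l hl] at t1'
    rw [he, ← S.tgt_smul, hgs l hl] at t2'
    exact ⟨(TL.of_zpow hr0 (hcsrc l h1 (by omega)) t1').mono hle,
      (TL.of_zpow hr0 (hctgt l h1 (by omega)) t2').mono hle⟩
  -- segments without cyclic windows are short
  have hseg : ∀ i k : ℤ, 0 ≤ i → i < k → k ≤ n → (∀ l ∈ Cs, i ≤ l → ¬ l + m ≤ k) →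
      S.TL (L + C) c (S.src (a i)) → S.TL (L + C) c (S.tgt (a (k - 1))) →
      k - i ≤ F (L + C) := by
    intro i k h1 h2 h3 h4 t1 t2
    obtain ⟨d, hd⟩ := Int.le.dest h2.le
    have hsub := hrc.sub i d h1 (by omega)
    have hNC : S.NC m (fun l => a (l + i)) 0 d := by
      intro l e1 e2 hcy
      rw [fix_congr (a' := a) (c := i) (fun _ _ _ => rfl)] at hcy
      refine h4 (l + i) ((hmem _).2 ⟨by omega, by omega, ?_⟩) (by omega) (by omega)
      rwa [show l + i + m = l + m + i by ring]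
    rcases h (L + C) d c _ hc1 hsub hNC (by simpa using t1)
      (by rw [show (d : ℤ) - 1 + i = k - 1 by omega]; exact t2) with h5 | ⟨g, i', j', e1, e2, e3, e4, e5⟩
    · omega
    · exact absurd e5 (hno g (i' + i) (j' + i) (by omega) (by omega) (by omega) e4)
  have main : ∀ r : ℕ, ∀ i : ℤ, 0 ≤ i → i ≤ n → (i < n → S.TL (L + C) c (S.src (a i))) →
      (Cs.filter (fun l => i ≤ l)).card ≤ r → (n : ℤ) - i ≤ (r + 1) * (F (L + C) + 1) := by
    intro r
    induction r with
    | zero =>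
      intro i h1 h2 t1 hcd
      rcases h2.lt_or_eq with h2 | h2
      · have := hseg i n h1 h2 le_rfl (fun l hl hil _ => by
          have : l ∈ Cs.filter (fun l => i ≤ l) := Finset.mem_filter.2 ⟨hl, hil⟩
          have := Finset.card_pos.2 ⟨l, this⟩
          omega) (t1 h2) hsn
        push_cast; omega
      · rw [h2]; simp only [sub_self]; positivity
    | succ r ih =>
      intro i h1 h2 t1 hcd
      by_cases hne : (Cs.filter (fun l => i ≤ l)).Nonempty
      swap
      · have := ih i h1 h2 t1 (by rw [Finset.not_nonempty_iff_eq_empty.1 hne]; simp)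
        push_cast at this ⊢
        nlinarith [Int.natCast_nonneg (F (L + C))]
      set l := (Cs.filter (fun l => i ≤ l)).min' hne with hl
      have hlm := Finset.mem_filter.1 (Finset.min'_mem _ hne)
      rw [← hl] at hlm
      obtain ⟨hlC, hil⟩ := hlm
      obtain ⟨e1, e2, _⟩ := (hmem l).1 hlC
      have hA : l - i ≤ F (L + C) := by
        rcases hil.lt_or_eq with hil' | hil'
        · refine hseg i l h1 hil' (by omega) (fun l' hl' hil2 hle => ?_) (t1 (by omega)) ?_
          · have : l ≤ l' := Finset.min'_le _ _ (Finset.mem_filter.2 ⟨hl', hil2⟩)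
            omega
          · have := hr.path (l - 1) (by omega) (by omega)
            rw [this, sub_add_cancel]
            exact (htl l hlC).1
        · omega
      have hB := ih (l + 1) (by omega) (by omega) (fun hlt => by
        rw [← hr.path l e1 hlt]; exact (htl l hlC).2) (by
        have : Cs.filter (fun l' => l + 1 ≤ l') ⊆ (Cs.filter (fun l => i ≤ l)).erase l := by
          intro l' hl'
          obtain ⟨q1, q2⟩ := Finset.mem_filter.1 hl'
          exact Finset.mem_erase.2 ⟨by omega, Finset.mem_filter.2 ⟨q1, by omega⟩⟩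
        have h7 := Finset.card_le_card this
        have h8 : l ∈ Cs.filter (fun l => i ≤ l) := Finset.mem_filter.2 ⟨hlC, hil⟩
        have h9 := Finset.card_erase_add_one h8
        omega)
      push_cast at hB ⊢
      nlinarith
  have := main M 0 le_rfl (by omega) (fun _ => hs0)
    (le_trans (Finset.card_filter_le _ _) hcard)
  rw [sub_zero] at this
  exact_mod_cast this

theorem gall_of_nc {m : ℕ} (hm : 1 ≤ m) (h : S.GP (S.NC m)) : S.Gall := by
  obtain ⟨h1, ⟨M, hM, F, hF, h2⟩, F3, hF3, h3⟩ := h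
  refine ⟨cyc1 hm h1, ?_, ?_⟩
  · obtain ⟨M', hM', F', hF', h2'⟩ := S.cyc2 m hm
    refine ⟨M * M', Nat.mul_pos hM hM', fun L => F L + F' L, hF.add hF', ?_⟩
    intro L k n u u' p p' t1 t2 e _ c1 c2
    by_cases hnc : S.NC m (fun i => S.arr (p i)) 0 (n + 1)
    · rcases h2 L k n u u' p p' t1 t2 e hnc c1 c2 with h | h
      · left; show n ≤ F L + F' L; omega
      · right; rw [pow_mul, pow_mul, h]
    · rcases h2' L k n u u' p p' t1 t2 e hnc c1 c2 with h | h
      · left; show n ≤ F L + F' L; omega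
      · right; rw [mul_comm, pow_mul, pow_mul, h]
  · obtain ⟨F', hF', h3'⟩ := S.cyc3 m hm
    refine ⟨fun L => F3 L + F' L, hF3.add hF', ?_⟩
    intro L k u p p' t1 t2 e _
    by_cases hnc : ∀ i j, S.NC m (fun i => S.arr (p i)) i j
    · obtain ⟨g, q1, q2, q3⟩ := h3 L k u p p' t1 t2 e hnc
      exact ⟨g, q1, q2, q3.mono (Nat.le_add_right _ _)⟩
    · unfold NC at hnc
      push Not at hnc
      obtain ⟨i, j, l, _, _, hcy⟩ := hnc
      obtain ⟨g, q1, q2, q3⟩ := h3' L k u p p' l t1 t2 e hcy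
      exact ⟨g, q1, q2, q3.mono (Nat.le_add_left _ _)⟩

end Sys

end CPOR
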