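import Pool.Agent.P.MP_2cb329_al.F.D2b
import Pool.Agent.P.MP_2cb329_al.F.S4

/-! Theorem F: lifts of chains and threads, transfer of G1, G2, G3. -/

set_option autoImplicit false

namespace CPOR
open ZT MulAction

/-- Propagation of a property forwards and backwards along a window. -/
theorem d3_steps {F : ℕ → ℕ} (P : ℤ → ℕ → Prop) {i j l l' : ℤ} {n : ℕ}
    (hmono : ∀ m a b, a ≤ b → P m a → P m b) (hij : j - i ≤ n) (h1 : i ≤ l) (h2 : l < j)
    (h3 : i ≤ l') (h4 : l' < j) (h0 : P l n)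
    (fwd : ∀ m r, i ≤ m → m + 1 < j → n ≤ r → P m r → P (m + 1) (F r))
    (bwd : ∀ m r, i ≤ m → m + 1 < j → n ≤ r → P (m + 1) r → P m (F r)) :
    P l' (Bd.it F n) := by
  rcases le_total l l' with h | h
  · obtain ⟨t, rfl⟩ := Int.le.dest h
    refine Bd.it_induct (F := F) (fun s r => P (l + s) r) t n (by omega)
      (fun s a b hab => hmono _ a b hab) (by simpa using h0) (fun s r hs hr hP => ?_) t le_rfl
    have := fwd (l + s) r (by omega) (by omega) hr hP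
    rwa [add_assoc, ← Nat.cast_succ] at this
  · obtain ⟨t, rfl⟩ := Int.le.dest h
    have := Bd.it_induct (F := F) (fun s r => P (l' + t - s) r) t n (by omega)
      (fun s a b hab => hmono _ a b hab) (by simpa using h0) (fun s r hs hr hP => ?_) t le_rfl
    · simpa using this
    · refine bwd _ r (by push_cast; omega) (by push_cast; omega) hr ?_
      have e : l' + (t : ℤ) - ((s + 1 : ℕ) : ℤ) + 1 = l' + t - s := by push_cast; ring
      rwa [e]

theorem d3_zpow {G X : Type} [Group G] [MulAction G X] {k : ℕ} {u : G} {b : ℤ → X}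
    (h : ∀ i : ℤ, b (i + k) = u • b i) (j i : ℤ) : b (i + j * k) = u ^ j • b i := by
  induction j using Int.induction_on with
  | zero => simp
  | succ n ih =>
    have e : i + ((n : ℤ) + 1) * k = i + n * k + k := by ring
    rw [e, h, ih, smul_smul, add_comm (n : ℤ) 1, zpow_one_add]
  | pred n ih =>
    have e : i + -(n : ℤ) * k = i + (-(n : ℤ) - 1) * k + k := by ring
    rw [e, h] at ih
    have e2 : u ^ (-(n : ℤ) - 1) = u⁻¹ * u ^ (-(n : ℤ)) := by
      rw [sub_eq_add_neg, add_comm, zpow_add, zpow_neg_one]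
    rw [e2, mul_smul, ← ih, inv_smul_smul]

namespace Over

variable {G : Type} [Group G] {N N' : Type} [MulAction G N] [MulAction G N']
  {S' : Sys G N'} {S : Sys G N} (O : Over S' S)

/-- `b` is a path of `S'` over the arrows `a` on `[i, j)`. -/
def Lifts (b : ℤ → S'.A) (a : ℤ → S.A) (i j : ℤ) : Prop :=
  S'.IsPath b i j ∧ ∀ l, i ≤ l → l < j → O.A (b l) = a l

/-- `b` is a `u`-periodic line of `S'` over the arrows of `p`. -/
structure PLift (k : ℕ) (u : G) (p : ℤ → S.P) (b : ℤ → S'.A) : Prop where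
  ov : ∀ i, O.A (b i) = S.arr (p i)
  path : ∀ i, S'.tgt (b i) = S'.src (b (i + 1))
  per : ∀ i : ℤ, b (i + k) = u • b i

/-- Nearness along a lifted path (tight case). -/
theorem near_chain (h : O.Tight) : ∃ F, Bd F ∧ ∀ (L : ℕ) (p : ℤ → S.P) (b : ℤ → S'.A)
    (i j l l' : ℤ), S.Chain L p i j → O.Lifts b (fun m => S.arr (p m)) i j → j - i ≤ L →
    i ≤ l → l < j → i ≤ l' → l' < j →
    (O.Near L (S.s (p l)) (S'.src (b l)) ∨ O.Near L (S.t (p l)) (S'.tgt (b l))) →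
    O.Near (F L) (S.s (p l')) (S'.src (b l')) ∧ O.Near (F L) (S.t (p l')) (S'.tgt (b l')) := by
  obtain ⟨Ff, hFf, hf⟩ := O.near_fwd h.1
  obtain ⟨Fb, hFb, hb⟩ := O.near_bwd h.2
  have h2 : Bd (fun r => r + r) := Bd.id.add Bd.id
  have hG : Bd (fun r => r + r + Ff (r + r) + Fb (r + r)) :=
    (h2.add (hFf.comp h2)).add (hFb.comp h2)
  refine ⟨fun L => Bd.it (fun r => r + r + Ff (r + r) + Fb (r + r)) (L + Ff L + Fb L),
    (Bd.it_bd hG).comp ((Bd.id.add hFf).add hFb), ?_⟩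
  intro L p b i j l l' hc hl hL a1 a2 a3 a4 h0
  refine d3_steps (fun m r => O.Near r (S.s (p m)) (S'.src (b m)) ∧
    O.Near r (S.t (p m)) (S'.tgt (b m))) (fun m a c hac hP => ⟨hP.1.mono hac, hP.2.mono hac⟩)
    (by push_cast; omega) a1 a2 a3 a4 ?_ (fun m r b1 b2 hr hP => ?_) (fun m r b1 b2 hr hP => ?_)
  · rcases h0 with h0 | h0
    · exact ⟨h0.mono (by omega), (hf _ _ _ (hl.2 l a1 a2).symm h0).mono (by omega)⟩
    · exact ⟨(hb _ _ _ (hl.2 l a1 a2).symm h0).mono (by omega), h0.mono (by omega)⟩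
  · have e := hl.1 m b1 b2
    have c1 := (hP.2.of_cl (hc m b1 b2).symm).mono (show L + r ≤ r + r by omega)
    rw [e] at c1
    exact ⟨c1.mono (by omega),
      (hf _ _ _ (hl.2 (m + 1) (by omega) b2).symm c1).mono (by omega)⟩
  · have e := hl.1 m b1 b2
    have c1 := (hP.1.of_cl (hc m b1 b2)).mono (show L + r ≤ r + r by omega)
    rw [← e] at c1
    exact ⟨(hb _ _ _ (hl.2 m b1 (by omega)).symm c1).mono (by omega), c1.mono (by omega)⟩

/-- Nearness at one time gives nearness at all times for periodic lifts. -/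
theorem near_thread (h : O.Tight) : ∃ F, Bd F ∧ ∀ (L k : ℕ) (u : G) (p : ℤ → S.P) (b : ℤ → S'.A)
    (l : ℤ), S.Thread L k u p → O.PLift k u p b → O.Near L (S.s (p l)) (S'.src (b l)) →
    ∀ i, O.Near (F L) (S.s (p i)) (S'.src (b i)) ∧ O.Near (F L) (S.t (p i)) (S'.tgt (b i)) := by
  obtain ⟨F, hF, hc⟩ := O.near_chain h
  refine ⟨F, hF, fun L k u p b l hT hP h0 i => ?_⟩
  have hk : (0 : ℤ) < k := by exact_mod_cast hT.pos
  have hkL : (k : ℤ) ≤ L := by exact_mod_cast hT.le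
  have m1 := Int.emod_nonneg (i - l) hk.ne'
  have m2 := Int.emod_lt_of_pos (i - l) hk
  have e : i = l + (i - l) % k + (i - l) / k * k := by
    have := Int.emod_add_ediv_mul (i - l) k
    omega
  have := hc L p b l (l + k) l (l + (i - l) % k) (hT.chain _ _)
    ⟨fun m _ _ => hP.path m, fun m _ _ => hP.ov m⟩ (by omega) le_rfl (by omega) (by omega)
    (by omega) (Or.inl h0)
  rw [e, d3_zpow hT.per, d3_zpow hP.per, S.s_smul, S.t_smul, S'.src_smul, S'.tgt_smul]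
  exact ⟨this.1.smul _, this.2.smul _⟩

theorem lift_thread : ∃ F, Bd F ∧ ∀ (L k : ℕ) (u : G) (p : ℤ → S.P) (b : ℤ → S'.A),
    S.Thread L k u p → O.PLift k u p b →
    (∀ i, O.Near L (S.s (p i)) (S'.src (b i)) ∧ O.Near L (S.t (p i)) (S'.tgt (b i))) →
    ∃ q, S'.Thread (F L) k u q ∧ ∀ i, S'.arr (q i) = b i ∧
      S.Cl (F L) (S.s (p i)) (O.V (S'.s (q i))) := by
  obtain ⟨F, hF, hl⟩ := O.lift_point
  refine ⟨fun L => F L + L + F L, (hF.add Bd.id).add hF, fun L k u p b hT hP hn => ?_⟩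
  have key : ∀ (g : G) (x : S.P) (c : S'.A) (q : S'.P),
      (S'.arr q = c ∧ S.Cl (F L) (S.s x) (O.V (S'.s q)) ∧ S.Cl (F L) (S.t x) (O.V (S'.t q))) →
      (S'.arr (g • q) = g • c ∧ S.Cl (F L) (S.s (g • x)) (O.V (S'.s (g • q))) ∧
        S.Cl (F L) (S.t (g • x)) (O.V (S'.t (g • q)))) := by
    rintro g x c q ⟨a1, a2, a3⟩
    rw [S'.arr_smul, S.s_smul, S.t_smul, S'.s_smul, S'.t_smul, O.V_smul, O.V_smul, a1]
    exact ⟨rfl, a2.smul g, a3.smul g⟩
  obtain ⟨q, hq, hper⟩ := Sys.exists_periodic hT.pos u (fun i (q : S'.P) => S'.arr q = b i ∧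
      S.Cl (F L) (S.s (p i)) (O.V (S'.s q)) ∧ S.Cl (F L) (S.t (p i)) (O.V (S'.t q)))
    (fun i x => by
      rw [hT.per, hP.per]
      refine ⟨key u _ _ _, fun hh => ?_⟩
      simpa only [inv_smul_smul] using key u⁻¹ _ _ _ hh)
    (fun i => hl L (p i) (b i) (hP.ov i).symm (hn i).1 (hn i).2)
  refine ⟨q, ⟨hT.pos, hT.le.trans (by dsimp only; omega), hper, fun i => ?_⟩,
    fun i => ⟨(hq i).1, (hq i).2.1.mono (by dsimp only; omega)⟩⟩
  rw [O.cl_V]
  refine ⟨?_, ((hq i).2.2.symm.trans (hT.ch i)).trans (hq (i + 1)).2.1⟩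
  rw [S'.nd_t, S'.nd_s, (hq i).1, (hq (i + 1)).1, hP.path]

theorem proj_thread (h : O.Tight) : ∃ F, Bd F ∧ ∀ (L k : ℕ) (u : G) (p : ℤ → S.P) (b : ℤ → S'.A),
    S.Thread L k u p → O.PLift k u p b →
    ∃ q, S'.Thread (F L) k u q ∧ ∀ i, S'.arr (q i) = b i ∧
      ∀ x, O.IsPr (S.s (p i)) (S'.src (b i)) x → S'.Cl (F L) x (S'.s (q i)) := by
  obtain ⟨C, hC⟩ := O.proj_point h
  refine ⟨fun L => C + L + C, ((Bd.const C).add Bd.id).add (Bd.const C),
    fun L k u p b hT hP => ?_⟩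
  have key : ∀ (g : G) (z : S.P) (c : S'.A) (q : S'.P),
      (S'.arr q = c ∧ (∀ x, O.IsPr (S.s z) (S'.src c) x → S'.Cl C x (S'.s q)) ∧
        ∀ y, O.IsPr (S.t z) (S'.tgt c) y → S'.Cl C y (S'.t q)) →
      (S'.arr (g • q) = g • c ∧
        (∀ x, O.IsPr (S.s (g • z)) (S'.src (g • c)) x → S'.Cl C x (S'.s (g • q))) ∧
        ∀ y, O.IsPr (S.t (g • z)) (S'.tgt (g • c)) y → S'.Cl C y (S'.t (g • q))) := by
    rintro g z c q ⟨a1, a2, a3⟩
    rw [S'.arr_smul, S.s_smul, S.t_smul, S'.s_smul, S'.t_smul, S'.src_smul, S'.tgt_smul, a1]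
    refine ⟨rfl, fun x hx => ?_, fun x hx => ?_⟩
    · have := hx.smul g⁻¹
      rw [inv_smul_smul, inv_smul_smul] at this
      simpa only [smul_inv_smul] using (a2 _ this).smul g
    · have := hx.smul g⁻¹
      rw [inv_smul_smul, inv_smul_smul] at this
      simpa only [smul_inv_smul] using (a3 _ this).smul g
  have hx : ∀ i, ∃ x, O.IsPr (S.s (p i)) (S'.src (b i)) x := fun i =>
    exists_pr (by rw [S.nd_s, ← hP.ov, O.src_A])
  have hy : ∀ i, ∃ y, O.IsPr (S.t (p i)) (S'.tgt (b i)) y := fun i =>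
    exists_pr (by rw [S.nd_t, ← hP.ov, O.tgt_A])
  obtain ⟨q, hq, hper⟩ := Sys.exists_periodic hT.pos u (fun i (q : S'.P) => S'.arr q = b i ∧
      (∀ x, O.IsPr (S.s (p i)) (S'.src (b i)) x → S'.Cl C x (S'.s q)) ∧
        ∀ y, O.IsPr (S.t (p i)) (S'.tgt (b i)) y → S'.Cl C y (S'.t q))
    (fun i x => by
      rw [hT.per, hP.per]
      refine ⟨key u _ _ _, fun hh => ?_⟩
      simpa only [inv_smul_smul] using key u⁻¹ _ _ _ hh)
    (fun i => by
      obtain ⟨x, hx⟩ := hx i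
      obtain ⟨y, hy⟩ := hy i
      obtain ⟨q, a1, a2, a3⟩ := hC (p i) (b i) x y (hP.ov i).symm hx hy
      exact ⟨q, a1, fun x' hx' => hx.unique hx' ▸ a2, fun y' hy' => hy.unique hy' ▸ a3⟩)
  refine ⟨q, ⟨hT.pos, hT.le.trans (by dsimp only; omega), hper, fun i => ?_⟩,
    fun i => ⟨(hq i).1, fun x hx => ((hq i).2.1 x hx).mono (by dsimp only; omega)⟩⟩
  obtain ⟨x, hx⟩ := hx (i + 1)
  obtain ⟨y, hy⟩ := hy i
  have c1 := (hq i).2.2 y hy
  have c2 := (hq (i + 1)).2.1 x hx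
  rw [hP.path] at hy
  exact (c1.symm.trans (hy.lip hx (hT.ch i))).trans c2

/-- The distance of the projections of two chains changes in a controlled way. -/
theorem lam_lip (h : O.Tight) : ∃ F, Bd F ∧ ∀ (L r : ℕ) (p p' : ℤ → S.P) (b : ℤ → S'.A)
    (i j l l' : ℤ) (x x' y y' : S'.V), S.Chain L p i j → S.Chain L p' i j →
    (∀ m, i ≤ m → m < j → S.arr (p m) = S.arr (p' m)) → O.Lifts b (fun m => S.arr (p m)) i j →
    j - i ≤ L → i ≤ l → l < j → i ≤ l' → l' < j →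
    O.IsPr (S.s (p l)) (S'.src (b l)) x → O.IsPr (S.s (p' l)) (S'.src (b l)) x' →
    O.IsPr (S.s (p l')) (S'.src (b l')) y → O.IsPr (S.s (p' l')) (S'.src (b l')) y' →
    S'.Cl r x x' → S'.Cl (F (L + r)) y y' := by
  obtain ⟨C, hC⟩ := O.proj_point h
  obtain ⟨D, hD⟩ := S'.consts
  have hG : Bd (fun r => r + r + (C + C) + D * (r + r + r + (C + C + 1))) :=
    ((Bd.id.add Bd.id).add (Bd.const _)).add
      ((Bd.const D).mul (((Bd.id.add Bd.id).add Bd.id).add (Bd.const _)))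
  refine ⟨_, Bd.it_bd hG, ?_⟩
  intro L r p p' b i j l l' x x' y y' hc hc' ha hl hL a1 a2 a3 a4 hx hx' hy hy' h0
  have hs : ∀ (z : S.P) (c : S'.A), S.arr z = O.A c → ∃ x, O.IsPr (S.s z) (S'.src c) x :=
    fun z c e => exists_pr (by rw [S.nd_s, e, O.src_A])
  have ht : ∀ (z : S.P) (c : S'.A), S.arr z = O.A c → ∃ x, O.IsPr (S.t z) (S'.tgt c) x :=
    fun z c e => exists_pr (by rw [S.nd_t, e, O.tgt_A])
  have e1 : ∀ m, i ≤ m → m < j → S.arr (p m) = O.A (b m) := fun m b1 b2 => (hl.2 m b1 b2).symm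
  have e2 : ∀ m, i ≤ m → m < j → S.arr (p' m) = O.A (b m) := fun m b1 b2 =>
    (ha m b1 b2).symm.trans (e1 m b1 b2)
  refine d3_steps (i := i) (j := j) (l := l) (l' := l') (fun m r => ∀ x x',
      O.IsPr (S.s (p m)) (S'.src (b m)) x → O.IsPr (S.s (p' m)) (S'.src (b m)) x' → S'.Cl r x x')
    (fun m a c hac hP x x' h1 h2 => (hP x x' h1 h2).mono hac) (by push_cast; omega) a1 a2 a3 a4 ?_
    (fun m t b1 b2 hr hP z z' hz hz' => ?_) (fun m t b1 b2 hr hP v v' hv hv' => ?_) y y' hy hy'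
  · intro z z' hz hz'
    rw [← hx.unique hz, ← hx'.unique hz']
    exact h0.mono (by omega)
  · obtain ⟨v, hv⟩ := hs _ _ (e1 m b1 (by omega))
    obtain ⟨v', hv'⟩ := hs _ _ (e2 m b1 (by omega))
    obtain ⟨w, hw⟩ := ht _ _ (e1 m b1 (by omega))
    obtain ⟨w', hw'⟩ := ht _ _ (e2 m b1 (by omega))
    obtain ⟨q, q1, q2, q3⟩ := hC _ _ v w (e1 m b1 (by omega)) hv hw
    obtain ⟨q', q1', q2', q3'⟩ := hC _ _ v' w' (e2 m b1 (by omega)) hv' hw'
    have c1 := (hD q q' (q1.trans q1'.symm)).2.2.1 _ ((q2.symm.trans (hP v v' hv hv')).trans q2')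
    rw [hl.1 m b1 b2] at hw hw'
    have c2 := hw.lip hz (hc m b1 b2)
    have c3 := hw'.lip hz' (hc' m b1 b2)
    refine (((c2.symm.trans q3).trans c1).trans (q3'.symm.trans c3)).mono ?_
    have : D * (C + t + C + 1) ≤ D * (t + t + t + (C + C + 1)) := Nat.mul_le_mul_left _ (by omega)
    omega
  · obtain ⟨z, hz⟩ := hs _ _ (e1 (m + 1) (by omega) b2)
    obtain ⟨z', hz'⟩ := hs _ _ (e2 (m + 1) (by omega) b2)
    obtain ⟨w, hw⟩ := ht _ _ (e1 m b1 (by omega))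
    obtain ⟨w', hw'⟩ := ht _ _ (e2 m b1 (by omega))
    obtain ⟨q, q1, q2, q3⟩ := hC _ _ v w (e1 m b1 (by omega)) hv hw
    obtain ⟨q', q1', q2', q3'⟩ := hC _ _ v' w' (e2 m b1 (by omega)) hv' hw'
    rw [hl.1 m b1 b2] at hw hw'
    have c2 := hw.lip hz (hc m b1 b2)
    have c3 := hw'.lip hz' (hc' m b1 b2)
    have c1 := (hD q q' (q1.trans q1'.symm)).2.2.2.1 _
      (((q3.symm.trans c2).trans (hP z z' hz hz')).trans (c3.symm.trans q3'))
    refine ((q2.trans c1).trans q2'.symm).mono ?_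
    have : D * (C + L + t + (L + C) + 1) ≤ D * (t + t + t + (C + C + 1)) :=
      Nat.mul_le_mul_left _ (by omega)
    omega

end Over

end CPOR
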