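import Pool.Agent.P.MP_2cb329_al.F.D3

/-! Theorem F: transfer of G1, G2, G3. -/

set_option autoImplicit false

namespace CPOR
open ZT MulAction

namespace Over

variable {G : Type} [Group G] {N N' : Type} [MulAction G N] [MulAction G N']
  {S' : Sys G N'} {S : Sys G N} (O : Over S' S)

/-- Transfer of G1 along a tight lift. -/
theorem g1_lift (h : O.Tight) (h1 : S'.G1P S'.Any) : ∃ F, Bd F ∧ ∀ (L n : ℕ) (x : G) (a : ℤ → S.A)
    (b : ℤ → S'.A), x ≠ 1 → S.Rigid x a n → O.Lifts b a 0 n → x • S'.src (b 0) = S'.src (b 0) →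
    S.TL L x (S.src (a 0)) → S.TL L x (S.tgt (a (n - 1))) →
    n ≤ F L ∨ ∃ (g : G) (i j : ℤ), 0 ≤ i ∧ i < j ∧ j < n ∧ Commute g x ∧ g • a i = a j := by
  obtain ⟨F, hF, H⟩ := h1
  refine ⟨F, hF, fun L n x a b hx hr hl h0 t0 tn => ?_⟩
  rcases Nat.eq_zero_or_pos n with rfl | hn
  · exact Or.inl (Nat.zero_le _)
  have hfix0 : ∀ i : ℕ, (i : ℤ) < n → x • S'.src (b i) = S'.src (b i) ∧ x • b i = b i := by
    intro i
    have aux : ∀ i : ℤ, 0 ≤ i → i < n → x • S'.src (b i) = S'.src (b i) → x • b i = b i :=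
      fun i h1 h2 h3 => h.1 _ _ (by rw [O.A_smul, hl.2 i h1 h2, hr.fix i h1 h2])
        (by rw [S'.src_smul, h3])
    induction i with
    | zero => intro hi; exact ⟨h0, aux _ le_rfl hi h0⟩
    | succ i ih =>
      intro hi
      have hi' : (i : ℤ) + 1 < n := by exact_mod_cast hi
      have h2 := (ih (by omega)).2
      have h3 : x • S'.src (b ((i + 1 : ℕ) : ℤ)) = S'.src (b ((i + 1 : ℕ) : ℤ)) := by
        rw [Nat.cast_succ, ← hl.1 i (by omega) hi', ← S'.tgt_smul, h2]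
      exact ⟨h3, aux _ (by omega) hi h3⟩
  have hfix : ∀ i : ℤ, 0 ≤ i → i < n → x • b i = b i := by
    intro i h1 h2
    obtain ⟨i, rfl⟩ := Int.eq_ofNat_of_zero_le h1
    exact (hfix0 i h2).2
  have hr' : S'.Rigid x b n := by
    refine ⟨hl.1, hfix, fun i h1 h2 c hc hs => h.1 _ _ ?_ hs, fun i h1 h2 c hc hs => h.2 _ _ ?_ ?_⟩
    · rw [hl.2 i h1.le h2]
      refine hr.out i h1 h2 _ (by rw [← O.A_smul, hc]) ?_
      rw [O.src_A, hs, ← O.src_A, hl.2 i h1.le h2]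
    · rw [hl.2 (i - 1) (by omega) (by omega)]
      refine hr.inn i h1 h2 _ (by rw [← O.A_smul, hc]) ?_
      rw [O.tgt_A, hs, ← O.src_A, hl.2 i h1.le h2]
    · rw [hs, hl.1 (i - 1) (by omega) (by omega), sub_add_cancel]
  have hn' : (0 : ℤ) < n := by exact_mod_cast hn
  have t0' : S'.TL L x (S'.src (b 0)) :=
    tl_of_fix (O := O) hx h0 (by rw [← O.src_A, hl.2 0 le_rfl hn']; exact t0)
  have tn' : S'.TL L x (S'.tgt (b (n - 1))) :=
    tl_of_fix (O := O) hx (by rw [← S'.tgt_smul, hfix _ (by omega) (by omega)])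
      (by rw [← O.tgt_A, hl.2 (n - 1) (by omega) (by omega)]; exact tn)
  rcases H L n x b hx hr' trivial t0' tn' with H | ⟨g, i, j, h1, h2, h3, h4, h5⟩
  · exact Or.inl H
  · refine Or.inr ⟨g, i, j, h1, h2, h3, h4, ?_⟩
    rw [← hl.2 i h1 (by omega), ← hl.2 j (by omega) h3, ← O.A_smul, h5]

/-- Transfer of G2: both threads are near periodic lifts that agree on `[0, n]`. -/
theorem g2_lift (h2 : S'.G2P S'.Any) : ∃ M : ℕ, 0 < M ∧ ∃ F, Bd F ∧ ∀ (L k n : ℕ) (u u' : G)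
    (p p' : ℤ → S.P) (b b' : ℤ → S'.A), S.Thread L k u p → S.Thread L k u' p' →
    O.PLift k u p b → O.PLift k u' p' b' → (∀ i : ℤ, 0 ≤ i → i ≤ n → b i = b' i) →
    (∀ i, O.Near L (S.s (p i)) (S'.src (b i)) ∧ O.Near L (S.t (p i)) (S'.tgt (b i))) →
    (∀ i, O.Near L (S.s (p' i)) (S'.src (b' i)) ∧ O.Near L (S.t (p' i)) (S'.tgt (b' i))) →
    S.Cl L (S.s (p 0)) (S.s (p' 0)) → S.Cl L (S.s (p n)) (S.s (p' n)) →
    n ≤ F L ∨ u ^ M = u' ^ M := by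
  obtain ⟨M, hM, F, hF, H⟩ := h2
  obtain ⟨F₁, hF₁, H₁⟩ := O.lift_thread
  refine ⟨M, hM, fun L => F (F₁ L + L + F₁ L), hF.comp ((hF₁.add Bd.id).add hF₁),
    fun L k n u u' p p' b b' hp hp' hb hb' hbb hn hn' c0 cn => ?_⟩
  obtain ⟨q, hq, hq'⟩ := H₁ L k u p b hp hb hn
  obtain ⟨r, hr, hr'⟩ := H₁ L k u' p' b' hp' hb' hn'
  have key : ∀ i : ℤ, 0 ≤ i → i ≤ n → S.Cl L (S.s (p i)) (S.s (p' i)) →
      S'.Cl (F₁ L + L + F₁ L) (S'.s (q i)) (S'.s (r i)) := fun i h1 h2 h3 =>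
    O.cl_V.2 ⟨by rw [S'.nd_s, S'.nd_s, (hq' i).1, (hr' i).1, hbb i h1 h2],
      ((hq' i).2.symm.trans h3).trans (hr' i).2⟩
  exact H _ k n u u' q r (hq.mono (by omega)) (hr.mono (by omega))
    (fun i h1 h2 => by rw [(hq' i).1, (hr' i).1, hbb i h1 h2]) trivial
    (key 0 le_rfl (by omega) c0) (key n (by omega) le_rfl cn)

/-- Transfer of G3 when both threads are near one periodic lift. -/
theorem g3_lift (h3 : S'.G3P S'.Any) : ∃ F, Bd F ∧ ∀ (L k : ℕ) (u : G) (p p' : ℤ → S.P)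
    (b : ℤ → S'.A), S.Thread L k u p → S.Thread L k u p' → (∀ i, S.arr (p i) = S.arr (p' i)) →
    O.PLift k u p b →
    (∀ i, O.Near L (S.s (p i)) (S'.src (b i)) ∧ O.Near L (S.t (p i)) (S'.tgt (b i))) →
    (∀ i, O.Near L (S.s (p' i)) (S'.src (b i)) ∧ O.Near L (S.t (p' i)) (S'.tgt (b i))) →
    ∃ e : G, Commute e u ∧ (∀ i, e • S.arr (p i) = S.arr (p i)) ∧
      S.Cl (F L) (S.s (p 0)) (e • S.s (p' 0)) := by
  obtain ⟨F, hF, H⟩ := h3
  obtain ⟨F₁, hF₁, H₁⟩ := O.lift_thread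
  refine ⟨fun L => F₁ L + F (F₁ L) + F₁ L, (hF₁.add (hF.comp hF₁)).add hF₁,
    fun L k u p p' b hp hp' hpp hb hn hn' => ?_⟩
  have hb' : O.PLift k u p' b := ⟨fun i => by rw [hb.ov, hpp], hb.path, hb.per⟩
  obtain ⟨q, hq, hq'⟩ := H₁ L k u p b hp hb hn
  obtain ⟨r, hr, hr'⟩ := H₁ L k u p' b hp' hb' hn'
  obtain ⟨e, h1, h2, h3⟩ := H _ k u q r hq hr (fun i => by rw [(hq' i).1, (hr' i).1])
    (fun _ _ => trivial)
  refine ⟨e, h1, fun i => ?_, ?_⟩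
  · have := h2 i
    rw [(hq' i).1] at this
    rw [← hb.ov, ← O.A_smul, this]
  · have h4 := (O.cl_V.1 h3).2
    rw [O.V_smul] at h4
    exact ((hq' 0).2.trans h4).trans ((hr' 0).2.symm.smul e)

/-- Composition of G3 over a bounded list of periodic lifts (telescoping). -/
theorem g3_compose (h : O.Tight) (h3 : S'.G3P S'.Any) : ∃ F, Bd F ∧ ∀ (L k D : ℕ) (u : G)
    (p p' : ℤ → S.P) (b : ℕ → ℤ → S'.A) (x y : ℕ → S'.V), S.Thread L k u p → S.Thread L k u p' →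
    (∀ i, S.arr (p i) = S.arr (p' i)) → D ≤ L → (∀ j ≤ D, O.PLift k u p (b j)) →
    (∀ j ≤ D, O.IsPr (S.s (p 0)) (S'.src (b j 0)) (x j) ∧ O.IsPr (S.s (p' 0)) (S'.src (b j 0)) (y j)) →
    S.Cl L (S.s (p 0)) (O.V (x 0)) → (∀ j < D, S.Cl L (O.V (y j)) (O.V (x (j + 1)))) →
    S.Cl L (O.V (y D)) (S.s (p' 0)) →
    ∃ e : G, Commute e u ∧ (∀ i, e • S.arr (p i) = S.arr (p i)) ∧
      S.Cl (F L) (S.s (p 0)) (e • S.s (p' 0)) := by
  obtain ⟨F, hF, H⟩ := h3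
  obtain ⟨F₁, hF₁, H₁⟩ := O.proj_thread h
  refine ⟨fun L => (L + 1) * (L + (F₁ L + F (F₁ L) + F₁ L)) + L,
    ((Bd.id.add (Bd.const 1)).mul (Bd.id.add ((hF₁.add (hF.comp hF₁)).add hF₁))).add Bd.id,
    fun L k D u p p' b x y hp hp' hpp hD hb hxy c0 cj cD => ?_⟩
  have one : ∀ j ≤ D, ∃ e : G, Commute e u ∧ (∀ i, e • S.arr (p i) = S.arr (p i)) ∧
      S.Cl (F₁ L + F (F₁ L) + F₁ L) (O.V (x j)) (e • O.V (y j)) := by
    intro j hj
    have hb' : O.PLift k u p' (b j) :=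
      ⟨fun i => by rw [(hb j hj).ov, hpp], (hb j hj).path, (hb j hj).per⟩
    obtain ⟨q, hq, hq'⟩ := H₁ L k u p (b j) hp (hb j hj)
    obtain ⟨r, hr, hr'⟩ := H₁ L k u p' (b j) hp' hb'
    obtain ⟨e, h1, h2, h3⟩ := H _ k u q r hq hr (fun i => by rw [(hq' i).1, (hr' i).1])
      (fun _ _ => trivial)
    refine ⟨e, h1, fun i => ?_, ?_⟩
    · have := h2 i
      rw [(hq' i).1] at this
      rw [← (hb j hj).ov, ← O.A_smul, this]
    · have h4 := (((hq' 0).2 _ (hxy j hj).1).trans h3).trans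
        (((hr' 0).2 _ (hxy j hj).2).symm.smul e)
      have h5 := (O.cl_V.1 h4).2
      rwa [O.V_smul] at h5
  have tel : ∀ j ≤ D, ∃ e : G, Commute e u ∧ (∀ i, e • S.arr (p i) = S.arr (p i)) ∧
      S.Cl ((j + 1) * (L + (F₁ L + F (F₁ L) + F₁ L))) (S.s (p 0)) (e • O.V (y j)) := by
    intro j
    induction j with
    | zero =>
      intro hj
      obtain ⟨e, h1, h2, h3⟩ := one 0 hj
      exact ⟨e, h1, h2, (c0.trans h3).mono (by omega)⟩
    | succ j ih =>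
      intro hj
      obtain ⟨E, k1, k2, k3⟩ := ih (by omega)
      obtain ⟨e, h1, h2, h3⟩ := one (j + 1) hj
      refine ⟨E * e, k1.mul_left h1, fun i => by rw [mul_smul, h2, k2], ?_⟩
      rw [mul_smul]
      refine (k3.trans (((cj j (by omega)).trans h3).smul E)).mono (le_of_eq ?_)
      ring
  obtain ⟨e, h1, h2, h3⟩ := tel D le_rfl
  refine ⟨e, h1, h2, (h3.trans (cD.smul e)).mono ?_⟩
  exact Nat.add_le_add_right (Nat.mul_le_mul_right _ (by omega)) _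

end Over

end CPOR
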