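import Pool.Agent.P.MP_2cb329_al.ZA

/-! Theorem F: definitions (forests with trivial edge stabilisers, systems, machines). -/

set_option autoImplicit false

namespace CPOR
open ZT MulAction

section General

variable {G : Type} [Group G] {X : Type} [MulAction G X]

/-- `S` meets finitely many `K`-orbits. -/
def FinOrb (K : Subgroup G) (S : Set X) : Prop :=
  ∃ F : Set X, F.Finite ∧ ∀ x ∈ S, ∃ k ∈ K, k • x ∈ F

/-- The `K`-orbit of a point. -/
def orb (K : Subgroup G) (x : X) : Set X := {y | ∃ k ∈ K, k • x = y}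

/-- The number of `K`-orbits that meet `S`. -/
noncomputable def nOrb (K : Subgroup G) (S : Set X) : ℕ := Set.ncard (orb K '' S)

/-- `S` is `K`-invariant. -/
def Inv (K : Subgroup G) (S : Set X) : Prop := ∀ k ∈ K, ∀ x ∈ S, k • x ∈ S

/-- First Betti number. -/
noncomputable def beta (K : Subgroup G) : ℕ := Module.finrank ℚ (Additive K →+ ℚ)

end General

section Forest

variable {V : Type} (T : SimpleGraph V)

/-- Darts with both ends in `X`. -/
def DartsIn (X : Set V) : Set (V × V) := {e | T.Adj e.1 e.2 ∧ e.1 ∈ X ∧ e.2 ∈ X}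

/-- All darts. -/
def Darts : Set (V × V) := {e | T.Adj e.1 e.2}

/-- The dart `e` lies on the geodesic from `x` to `y` and points towards `y`. -/
def Sep (e : V × V) (x y : V) : Prop := T.Adj e.1 e.2 ∧ Btw T x e.1 e.2 ∧ Btw T e.1 e.2 y

/-- Convex hull of a set inside one component. -/
def hull (S : Set V) : Set V := {y | ∃ x ∈ S, ∃ z ∈ S, Btw T x y z}

/-- Weighted length of the geodesic from `x` to `y`. -/
noncomputable def ZT.len (l : V × V → ℝ) (x y : V) : ℝ := ∑ᶠ e ∈ {e | Sep T e x y}, l e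

open Classical in
/-- The vertex after `x` on the geodesic from `x` to `y` (junk value `x`). -/
noncomputable def nxt (x y : V) : V :=
  if h : ∃ z, T.Adj x z ∧ Btw T x z y then h.choose else x

/-- `x` has at least two neighbours in `X`, for all `x ∈ X`. -/
def Leafless (X : Set V) : Prop :=
  ∀ x ∈ X, ∃ y ∈ X, ∃ z ∈ X, T.Adj x y ∧ T.Adj x z ∧ y ≠ z

variable (G : Type) [Group G] [MulAction G V]

/-- A forest with an action without inversions and with trivial edge stabilisers. -/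
structure GF : Prop where
  acyc : T.IsAcyclic
  acts : Acts T G
  noinv : NoInv T G
  etriv : ∀ (g : G) (x y : V), T.Adj x y → g • x = x → g • y = y → g = 1

/-- Invariant symmetric weights, at least `1` on darts. -/
structure IsWt (l : V × V → ℝ) : Prop where
  smul : ∀ (g : G) (e : V × V), T.Adj e.1 e.2 → l (g • e) = l e
  symm : ∀ x y, T.Adj x y → l (x, y) = l (y, x)
  one_le : ∀ x y, T.Adj x y → 1 ≤ l (x, y)

variable {G}

/-- `X` is a nonempty `K`-invariant subtree. -/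
structure KT (K : Subgroup G) (X : Set V) : Prop where
  ne : X.Nonempty
  cvx : Cvx T X
  inv : Inv K X

/-- `X` is a `K`-cocompact subtree. -/
structure KC (K : Subgroup G) (X : Set V) : Prop extends KT T K X where
  finV : FinOrb K X
  finE : FinOrb K (DartsIn T X)

/-- The union of the axes of elements of `K` in the component of `c`. -/
def MinT (K : Subgroup G) (c : V) : Set V :=
  {p | T.Reachable c p ∧ ∃ g ∈ K, ∃ (a : ℤ → V) (l : ℕ), IsAxis T g a l ∧ p ∈ Set.range a}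

variable (G)

/-- `T'` is obtained from `T` by collapsing all edges that are not in `Kp`. -/
structure IsCol (Kp : Set (V × V)) {V' : Type} [MulAction G V'] (T' : SimpleGraph V')
    (π : V → V') : Prop where
  surj : Function.Surjective π
  smul : ∀ (g : G) (x : V), π (g • x) = g • π x
  eq_iff : ∀ x y, π x = π y ↔ T.Reachable x y ∧ ∀ e ∈ Kp, ¬ Sep T e x y
  adj_iff : ∀ x' y', T'.Adj x' y' ↔ ∃ e ∈ Kp, T.Adj e.1 e.2 ∧ π e.1 = x' ∧ π e.2 = y'

/-- Invariant symmetric sets of pairs. -/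
structure SymInv (Kp : Set (V × V)) : Prop where
  smul : ∀ (g : G), ∀ e ∈ Kp, g • e ∈ Kp
  symm : ∀ e ∈ Kp, e.swap ∈ Kp

end Forest

/-- A system with node set `N`. -/
structure Sys (G : Type) [Group G] (N : Type) [MulAction G N] where
  V : Type
  [actV : MulAction G V]
  B : SimpleGraph V
  gf : GF B G
  free : ∀ (g : G) (x : V), g • x = x → g = 1
  finV : FinOrb (⊤ : Subgroup G) (Set.univ : Set V)
  lf : ∀ x, (B.neighborSet x).Finite
  nd : V → N
  nd_smul : ∀ (g : G) (x : V), nd (g • x) = g • nd x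
  nd_surj : Function.Surjective nd
  nd_eq : ∀ x y, nd x = nd y ↔ B.Reachable x y
  A : Type
  [actA : MulAction G A]
  src : A → N
  tgt : A → N
  src_smul : ∀ (g : G) (a : A), src (g • a) = g • src a
  tgt_smul : ∀ (g : G) (a : A), tgt (g • a) = g • tgt a
  fg : ∀ a : A, (stabilizer G a).FG
  P : Type
  [actP : MulAction G P]
  finP : FinOrb (⊤ : Subgroup G) (Set.univ : Set P)
  arr : P → A
  arr_smul : ∀ (g : G) (p : P), arr (g • p) = g • arr p
  arr_surj : Function.Surjective arr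
  s : P → V
  t : P → V
  s_smul : ∀ (g : G) (p : P), s (g • p) = g • s p
  t_smul : ∀ (g : G) (p : P), t (g • p) = g • t p
  nd_s : ∀ p, nd (s p) = src (arr p)
  nd_t : ∀ p, nd (t p) = tgt (arr p)

attribute [instance] Sys.actV Sys.actA Sys.actP

namespace Sys

variable {G : Type} [Group G] {N : Type} [MulAction G N] (S : Sys G N)

/-- Two vertices of one node at distance at most `r`. -/
def Cl (r : ℕ) (x y : S.V) : Prop := S.nd x = S.nd y ∧ S.B.dist x y ≤ r

/-- `x` moves some point of the node `v` by at most `L`. -/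
def TL (L : ℕ) (x : G) (v : N) : Prop := ∃ p, S.nd p = v ∧ S.Cl L p (x • p)

/-- The arrows `a l`, `i ≤ l < j`, form a path. -/
def IsPath (a : ℤ → S.A) (i j : ℤ) : Prop :=
  ∀ l, i ≤ l → l + 1 < j → S.tgt (a l) = S.src (a (l + 1))

/-- The pointwise stabiliser of the window `[i, j)`. -/
def Fix (a : ℤ → S.A) (i j : ℤ) : Subgroup G := ⨅ l ∈ Set.Ico i j, stabilizer G (a l)

/-- The points `p l`, `i ≤ l < j`, form a chain of size `L`. -/
def Chain (L : ℕ) (p : ℤ → S.P) (i j : ℤ) : Prop :=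
  ∀ l, i ≤ l → l + 1 < j → S.Cl L (S.t (p l)) (S.s (p (l + 1)))

/-- A periodic chain. -/
structure Thread (L k : ℕ) (u : G) (p : ℤ → S.P) : Prop where
  pos : 1 ≤ k
  le : k ≤ L
  per : ∀ i : ℤ, p (i + k) = u • p i
  ch : ∀ i : ℤ, S.Cl L (S.t (p i)) (S.s (p (i + 1)))

/-- Joint strong inertia of the arrows with `σ a = v`. -/
def SIs (σ : S.A → N) : Prop :=
  ∀ (v : N) (K : Subgroup G), K.FG → K ≤ stabilizer G v → ∀ (F : Finset S.A),
    (∀ a ∈ F, σ a = v) → (∀ a ∈ F, ∀ a' ∈ F, (∃ k ∈ K, k • a = a') → a = a') →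
    ∑ a ∈ F, (beta (K ⊓ stabilizer G a) - 1) ≤ beta K - 1

def SI : Prop := S.SIs S.src ∧ S.SIs S.tgt

/-- All windows of length `m` inside `[i, j)` have non-cyclic stabiliser. -/
def NC (m : ℕ) (a : ℤ → S.A) (i j : ℤ) : Prop :=
  ∀ l, i ≤ l → l + m ≤ j → ¬ IsCyclic (S.Fix a l (l + m))

/-- `x` fixes the path on `[0, n)` and no other arrow at its inner nodes. -/
structure Rigid (x : G) (a : ℤ → S.A) (n : ℕ) : Prop where
  path : S.IsPath a 0 n
  fix : ∀ i : ℤ, 0 ≤ i → i < n → x • a i = a i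
  out : ∀ i : ℤ, 0 < i → i < n → ∀ b, x • b = b → S.src b = S.src (a i) → b = a i
  inn : ∀ i : ℤ, 0 < i → i < n → ∀ b, x • b = b → S.tgt b = S.src (a i) → b = a (i - 1)

def G1P (W : (ℤ → S.A) → ℤ → ℤ → Prop) : Prop :=
  ∃ F, Bd F ∧ ∀ (L n : ℕ) (x : G) (a : ℤ → S.A), x ≠ 1 → S.Rigid x a n → W a 0 n →
    S.TL L x (S.src (a 0)) → S.TL L x (S.tgt (a (n - 1))) →
    n ≤ F L ∨ ∃ (g : G) (i j : ℤ), 0 ≤ i ∧ i < j ∧ j < n ∧ Commute g x ∧ g • a i = a j

def G2P (W : (ℤ → S.A) → ℤ → ℤ → Prop) : Prop :=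
  ∃ M : ℕ, 0 < M ∧ ∃ F, Bd F ∧ ∀ (L k n : ℕ) (u u' : G) (p p' : ℤ → S.P),
    S.Thread L k u p → S.Thread L k u' p' →
    (∀ i : ℤ, 0 ≤ i → i ≤ n → S.arr (p i) = S.arr (p' i)) →
    W (fun i => S.arr (p i)) 0 (n + 1) →
    S.Cl L (S.s (p 0)) (S.s (p' 0)) → S.Cl L (S.s (p n)) (S.s (p' n)) →
    n ≤ F L ∨ u ^ M = u' ^ M

def G3P (W : (ℤ → S.A) → ℤ → ℤ → Prop) : Prop :=
  ∃ F, Bd F ∧ ∀ (L k : ℕ) (u : G) (p p' : ℤ → S.P),
    S.Thread L k u p → S.Thread L k u p' → (∀ i, S.arr (p i) = S.arr (p' i)) →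
    (∀ i j, W (fun i => S.arr (p i)) i j) →
    ∃ e : G, Commute e u ∧ (∀ i, e • S.arr (p i) = S.arr (p i)) ∧
      S.Cl (F L) (S.s (p 0)) (e • S.s (p' 0))

/-- No restriction on paths. -/
def Any (_ : ℤ → S.A) (_ _ : ℤ) : Prop := True

def GP (W : (ℤ → S.A) → ℤ → ℤ → Prop) : Prop := S.G1P W ∧ S.G2P W ∧ S.G3P W

def Gall : Prop := S.GP S.Any

/-- The minimal subtree of `K` in the node `v`. -/
def Min (K : Subgroup G) (v : N) : Set S.V :=
  {p | S.nd p = v ∧ ∃ g ∈ K, ∃ (a : ℤ → S.V) (l : ℕ), IsAxis S.B g a l ∧ p ∈ Set.range a}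

/-- Any node can be reached from any other one, up to translation. -/
def Conn : Prop :=
  ∀ v v' : N, ∃ (g : G) (n : ℕ) (a : ℤ → S.A), 0 < n ∧ S.IsPath a 0 n ∧ S.src (a 0) = v ∧
    S.tgt (a (n - 1)) = g • v'

/-- Quasi-persistent systems. -/
structure QPers : Prop where
  ncA : ∀ a : S.A, ¬ IsCyclic (stabilizer G a)
  bA : ∀ a : S.A, beta (stabilizer G (S.src a)) = beta (stabilizer G (S.tgt a))
  bW : ∀ (a : ℤ → S.A) (i j : ℤ), i < j → S.IsPath a i j → ¬ IsCyclic (S.Fix a i j) →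
    beta (S.Fix a i j) = beta (stabilizer G (S.src (a i)))
  outE : ∀ v, ∃ a, S.src a = v
  inE : ∀ v, ∃ a, S.tgt a = v
  extF : ∀ (a : ℤ → S.A) (i j : ℤ), i < j → S.IsPath a i j → ¬ IsCyclic (S.Fix a i j) →
    ∃ b, S.src b = S.tgt (a (j - 1)) ∧ ¬ IsCyclic (S.Fix a i j ⊓ stabilizer G b : Subgroup G)
  extB : ∀ (a : ℤ → S.A) (i j : ℤ), i < j → S.IsPath a i j → ¬ IsCyclic (S.Fix a i j) →
    ∃ b, S.tgt b = S.src (a i) ∧ ¬ IsCyclic (S.Fix a i j ⊓ stabilizer G b : Subgroup G)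

/-- Persistent systems of rank `ρ`. -/
structure Pers (ρ : ℕ) : Prop extends S.QPers where
  si : S.SI
  two : 2 ≤ ρ
  bN : ∀ v : N, beta (stabilizer G v) = ρ
  conn : S.Conn

def FwdStable : Prop :=
  ∃ M : ℕ, 1 ≤ M ∧ ∀ (a : ℤ → S.A) (i : ℤ), S.IsPath a i (i + M + 1) →
    ¬ IsCyclic (S.Fix a i (i + M + 1)) → S.Fix a i (i + M) ≤ stabilizer G (a (i + M))

def BackStable : Prop :=
  ∃ M : ℕ, 1 ≤ M ∧ ∀ (a : ℤ → S.A) (i : ℤ), S.IsPath a i (i + M + 1) →
    ¬ IsCyclic (S.Fix a i (i + M + 1)) → S.Fix a (i + 1) (i + M + 1) ≤ stabilizer G (a i)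

/-- Every node has exactly one outgoing and one incoming arrow. -/
structure Bij : Prop where
  out : ∀ v, ∃! a, S.src a = v
  inn : ∀ v, ∃! a, S.tgt a = v

/-- The automorphism case. -/
structure Aut (ρ : ℕ) : Prop extends S.Bij where
  two : 2 ≤ ρ
  bN : ∀ v : N, beta (stabilizer G v) = ρ
  conn : S.Conn

/-- The reversed system. -/
def rev : Sys G N :=
  { S with
    src := S.tgt, tgt := S.src, src_smul := S.tgt_smul, tgt_smul := S.src_smul,
    s := S.t, t := S.s, s_smul := S.t_smul, t_smul := S.s_smul, nd_s := S.nd_t, nd_t := S.nd_s }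

end Sys

/-- The induction hypothesis: Theorem F below rank `r`. -/
def IH (G : Type) [Group G] (r : ℕ) : Prop :=
  ∀ (N : Type) [MulAction G N] (S : Sys G N), S.SI → (∀ v : N, beta (stabilizer G v) < r) → S.Gall

section Over

variable {G : Type} [Group G] {N N' : Type} [MulAction G N] [MulAction G N']

/-- `S'` lies over `S`. -/
structure Over (S' : Sys G N') (S : Sys G N) where
  ν : N' → N
  V : S'.V → S.V
  A : S'.A → S.A
  P : S'.P → S.P
  ν_smul : ∀ (g : G) (x : N'), ν (g • x) = g • ν x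
  V_smul : ∀ (g : G) (x : S'.V), V (g • x) = g • V x
  A_smul : ∀ (g : G) (x : S'.A), A (g • x) = g • A x
  P_smul : ∀ (g : G) (x : S'.P), P (g • x) = g • P x
  nd_V : ∀ x, S.nd (V x) = ν (S'.nd x)
  dist_V : ∀ x y, S'.nd x = S'.nd y → S.B.dist (V x) (V y) = S'.B.dist x y
  cvx : ∀ ω, Cvx S.B (V '' {x | S'.nd x = ω})
  src_A : ∀ b, S.src (A b) = ν (S'.src b)
  tgt_A : ∀ b, S.tgt (A b) = ν (S'.tgt b)
  arr_P : ∀ p, S.arr (P p) = A (S'.arr p)
  det : ∀ b b', A b = A b' → S'.src b = S'.src b' → S'.tgt b = S'.tgt b' → b = b'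
  C : ℕ
  s_cl : ∀ p, S.Cl C (V (S'.s p)) (S.s (P p))
  t_cl : ∀ p, S.Cl C (V (S'.t p)) (S.t (P p))

namespace Over

variable {S' : Sys G N'} {S : Sys G N} (O : Over S' S)

/-- The vertex `p` of `S` is `r`-close to the tree of the node `ω` of `S'`. -/
def Near (r : ℕ) (p : S.V) (ω : N') : Prop := ∃ q, S'.nd q = ω ∧ S.Cl r p (O.V q)

/-- `q` is the projection of `p` to the tree of `ω`. -/
def IsPr (p : S.V) (ω : N') (q : S'.V) : Prop :=
  S'.nd q = ω ∧ ∀ q', S'.nd q' = ω → Btw S.B p (O.V q) (O.V q')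

/-- An arrow is determined by its image and its source. -/
def DetOut : Prop := ∀ b b', O.A b = O.A b' → S'.src b = S'.src b' → b = b'

/-- An arrow is determined by its image and its target. -/
def DetIn : Prop := ∀ b b', O.A b = O.A b' → S'.tgt b = S'.tgt b' → b = b'

def Tight : Prop := O.DetOut ∧ O.DetIn

/-- The arrows of `S'` are the triples of the relation `R`. -/
structure IsDer (R : S.A → N' → N' → Prop) : Prop where
  mem : ∀ b, R (O.A b) (S'.src b) (S'.tgt b)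
  surj : ∀ a x y, R a x y → ∃ b, O.A b = a ∧ S'.src b = x ∧ S'.tgt b = y

/-- `S'` is the system of non-cyclic windows of length `m`; `w ω` on `[0, m)` is the window. -/
structure IsWin (m : ℕ) (w : N' → ℤ → S.A) : Prop where
  pos : 1 ≤ m
  smul : ∀ (g : G) (ω : N') (l : ℤ), 0 ≤ l → l < m → w (g • ω) l = g • w ω l
  inj : ∀ ω ω', (∀ l : ℤ, 0 ≤ l → l < m → w ω l = w ω' l) → ω = ω'
  path : ∀ ω, S.IsPath (w ω) 0 m
  nc : ∀ ω, ¬ IsCyclic (S.Fix (w ω) 0 m)
  surj : ∀ (a : ℤ → S.A) (i : ℤ), S.IsPath a i (i + m) → ¬ IsCyclic (S.Fix a i (i + m)) →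
    ∃ ω, ∀ l : ℤ, 0 ≤ l → l < m → w ω l = a (i + l)
  ν_eq : ∀ ω, O.ν ω = S.tgt (w ω (m - 1))
  shift : ∀ (b : S'.A) (l : ℤ), 0 ≤ l → l + 1 < m → w (S'.tgt b) l = w (S'.src b) (l + 1)
  last : ∀ b : S'.A, w (S'.tgt b) (m - 1) = O.A b
  ncA : ∀ b : S'.A, ¬ IsCyclic (stabilizer G b)
  surjA : ∀ (ω : N') (a : S.A), S.src a = O.ν ω →
    ¬ IsCyclic (stabilizer G ω ⊓ stabilizer G a : Subgroup G) → ∃ b, S'.src b = ω ∧ O.A b = a

end Over

end Over

section Machines

variable {G : Type} [Group G] {N : Type} [MulAction G N]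

/-- A cocompact free splitting of all node groups. -/
structure Spl (S : Sys G N) (W : Type) [MulAction G W] where
  T : SimpleGraph W
  gf : GF T G
  finW : FinOrb (⊤ : Subgroup G) (Set.univ : Set W)
  finE : FinOrb (⊤ : Subgroup G) (Darts T)
  ν : W → N
  ν_smul : ∀ (g : G) (x : W), ν (g • x) = g • ν x
  ν_surj : Function.Surjective ν
  ν_eq : ∀ x y, ν x = ν y ↔ T.Reachable x y

variable {S : Sys G N} {W : Type} [MulAction G W]

/-- No node group fixes a vertex. -/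
def Spl.NoFix (Z : Spl S W) : Prop := ∀ x : W, ¬ stabilizer G (Z.ν x) ≤ stabilizer G x

/-- Equivariant comparison maps between `B` and `T`. -/
structure Marks (Z : Spl S W) where
  bar : S.V → W
  bar_smul : ∀ (g : G) (p : S.V), bar (g • p) = g • bar p
  ν_bar : ∀ p, Z.ν (bar p) = S.nd p
  anc : W × W → S.V
  anc_smul : ∀ (g : G) (e : W × W), Z.T.Adj e.1 e.2 → anc (g • e) = g • anc e
  nd_anc : ∀ e : W × W, Z.T.Adj e.1 e.2 → S.nd (anc e) = Z.ν e.1

/-- A machine: `R a x y` means `x ∈ D_a` and `f_a x = y`. -/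
structure Mach (Z : Spl S W) where
  R : S.A → W → W → Prop
  smul : ∀ (g : G) a x y, R a x y → R (g • a) (g • x) (g • y)
  src : ∀ a x y, R a x y → Z.ν x = S.src a
  tgt : ∀ a x y, R a x y → Z.ν y = S.tgt a
  func : ∀ a x y y', R a x y → R a x y' → y = y'
  inj : ∀ a x x' y, R a x y → R a x' y → x = x'
  ne : ∀ a, ∃ x y, R a x y
  cvx : ∀ a x y x' y' z, R a x y → R a x' y' → Btw Z.T x z x' →
    ∃ w, R a z w ∧ Btw Z.T y w y'
  fin : FinOrb (⊤ : Subgroup G) {τ : S.A × W × W | R τ.1 τ.2.1 τ.2.2}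

namespace Mach

variable {Z : Spl S W} (M : Mach Z)

structure NEG : Prop where
  iso : ∀ a x y x' y', M.R a x y → M.R a x' y' → Z.T.dist y y' = Z.T.dist x x'
  out : ∀ x x', Z.T.Adj x x' → ∃! a, (∃ y, M.R a x y) ∧ ∃ y', M.R a x' y'
  inn : ∀ y y', Z.T.Adj y y' → ∃! a, (∃ x, M.R a x y) ∧ ∃ x', M.R a x' y'

def EXP : Prop :=
  ∃ (l : W × W → ℝ) (μ : ℝ), IsWt Z.T G l ∧ 1 < μ ∧
    ∀ a x y x' y', M.R a x y → M.R a x' y' → μ * len Z.T l x x' ≤ len Z.T l y y'

end Mach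

/-- An equivariant vertex map that covers the arrows (automorphism case). -/
structure TMap (Z : Spl S W) where
  f : W → W
  smul : ∀ (g : G) (x : W), f (g • x) = g • f x
  ν_f : ∀ (a : S.A) (x : W), Z.ν x = S.src a → Z.ν (f x) = S.tgt a

namespace TMap

variable {Z : Spl S W} (φ : TMap Z)

/-- The first dart of the image of a dart. -/
noncomputable def Df (e : W × W) : W × W := (φ.f e.1, nxt Z.T (φ.f e.1) (φ.f e.2))

/-- The turn at `y` between the neighbours `x` and `z` is legal. -/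
def Legal (x y z : W) : Prop := ∀ i : ℕ, φ.Df^[i] (y, x) ≠ φ.Df^[i] (y, z)

/-- All turns of the geodesic from `x` to `y` are legal. -/
def LegalSeg (x y : W) : Prop :=
  Z.T.Reachable x y ∧ ∀ p q r, Sep Z.T (p, q) x y → Sep Z.T (q, r) x y → φ.Legal p q r

/-- Expanding train track maps. -/
structure TT : Prop where
  nofix : Z.NoFix
  nondeg : ∀ x y, Z.T.Adj x y → φ.f x ≠ φ.f y
  tt : ∀ x y, Z.T.Adj x y → φ.LegalSeg (φ.f x) (φ.f y)
  expand : ∃ (l : W × W → ℝ) (μ : ℝ), IsWt Z.T G l ∧ 1 < μ ∧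
    ∀ x y, Z.T.Adj x y → μ * l (x, y) ≤ len Z.T l (φ.f x) (φ.f y)
  vinj : ∀ x x', stabilizer G x ≠ ⊥ → stabilizer G x' ≠ ⊥ → φ.f x = φ.f x' → x = x'
  vsurj : ∀ y, stabilizer G y ≠ ⊥ → ∃ x, φ.f x = y ∧ stabilizer G x = stabilizer G y
  bcc : ∃ C : ℕ, ∀ x z y, Btw Z.T x z y →
    ∃ w, Btw Z.T (φ.f x) w (φ.f y) ∧ Z.T.Reachable (φ.f z) w ∧ Z.T.dist (φ.f z) w ≤ C

end TMap

end Machines

/-! ### The blocks -/

/-- F7: the gap trick. -/
def S_gap : Prop :=
  ∀ (G : Type) [Group G] (N : Type) [MulAction G N] (S : Sys G N) (ρ : ℕ),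
    S.Pers ρ → ¬ S.BackStable →
    ∃ m : ℕ, 1 ≤ m ∧ ∀ (N' : Type) [MulAction G N'] (S' : Sys G N') (O : Over S' S)
      (w : N' → ℤ → S.A), O.IsWin m w →
      ∃ (W : Type) (_ : MulAction G W) (Z : Spl S' W) (M : Mach Z), Z.NoFix ∧ (M.NEG ∨ M.EXP)

/-- F8: existence of train tracks. -/
def S_rtt : Prop :=
  ∀ (G : Type) [Group G] (N : Type) [MulAction G N] (S : Sys G N) (ρ : ℕ), S.Aut ρ →
    ∃ (W : Type) (_ : MulAction G W) (Z : Spl S W),
      (∃ M : Mach Z, Z.NoFix ∧ M.NEG) ∨ ∃ φ : TMap Z, φ.TT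

/-- F9: the exponentially growing case. -/
def S_eg : Prop :=
  ∀ (G : Type) [Group G] (N : Type) [MulAction G N] (S : Sys G N) (ρ : ℕ), S.Aut ρ → IH G ρ →
    ∀ (W : Type) [MulAction G W] (Z : Spl S W) (φ : TMap Z), φ.TT → S.Gall

/-- F5: the machines. -/
def S_neg : Prop :=
  ∀ (G : Type) [Group G] (N : Type) [MulAction G N] (S : Sys G N) (W : Type) [MulAction G W]
    (Z : Spl S W) (M : Mach Z) (S' : Sys G W) (O : Over S' S), O.ν = Z.ν → O.IsDer M.R →
    M.NEG → S'.Gall → S.Gall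

def S_exp : Prop :=
  ∀ (G : Type) [Group G] (N : Type) [MulAction G N] (S : Sys G N) (W : Type) [MulAction G W]
    (Z : Spl S W) (M : Mach Z) (S' : Sys G W) (O : Over S' S), O.ν = Z.ν → O.IsDer M.R →
    M.EXP → S'.Gall → S.Gall

end CPOR
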