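import Pool.Agent.P.MP_2cb329_al.F.GDefs

/-! F7: arcs in a forest (no group). -/

set_option autoImplicit false

namespace CPOR
namespace Gap
open ZT MulAction

variable {V : Type} {B : SimpleGraph V} {X X' : Set V} {l : ℕ}

theorem br_sub {x : V} (h : x ∈ Br B X) : x ∈ X := h.1

theorem br_mono (h : X ⊆ X') {x : V} (hx : x ∈ Br B X) : x ∈ Br B X' := by
  obtain ⟨h0, a, ha, b, hb, c, hc, r⟩ := hx
  exact ⟨h h0, a, h ha, b, h hb, c, h hc, r⟩

theorem Arc.symm {x y : V} (h : Arc B X x y) : Arc B X y x := by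
  exact ⟨h.2.1, h.1, h.2.2.1.symm, fun z hz hb => (h.2.2.2 z hz hb.symm).symm⟩

theorem On.symm {x y u v : V} (h : On B x y u v) : On B y x v u := ⟨h.2.symm, h.1.symm⟩

theorem Long.symm {x y : V} (h : Long B l X x y) : Long B l X y x := by
  exact ⟨h.1.symm, by rw [SimpleGraph.dist_comm]; exact h.2⟩

theorem Sh.symm {x y : V} (h : Sh B l X x y) : Sh B l X y x := by
  exact ⟨h.2.1, h.1, fun u v hl ho => h.2.2 v u hl.symm ho.symm⟩

theorem on_self {x y : V} (h : B.Reachable x y) : On B x y x y := ⟨btw_left h, btw_right h⟩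

theorem not_on_self {x y u : V} (hne : x ≠ y) : ¬ On B x y u u := by
  rintro ⟨h1, h2⟩
  have k1 := h1.2.2
  have k2 := h2.symm.2.2
  rw [SimpleGraph.dist_comm (u := y) (v := x)] at k2
  exact hne (eq_of_dist_zero h1.2.1 (by omega))

theorem sh_refl {x : V} (h : x ∈ Br B X) : Sh B l X x x := by
  exact ⟨h, h, fun u v hl => not_on_self hl.1.2.2.1⟩

theorem Long.not_sh (hX : Cvx B X) {x y : V} (h : Long B l X x y) : ¬ Sh B l X x y := by
  exact fun hs => hs.2.2 x y h (on_self (hX x h.1.1.1 y h.1.2.1.1).1)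

section Acyclic

variable (hT : B.IsAcyclic)
include hT

/-- A median that is none of the three points is a branch vertex (use `nxt`). -/
theorem br_of_median (hX : Cvx B X) {x y z m : V} (hx : x ∈ X) (hy : y ∈ X) (hz : z ∈ X)
    (h1 : Btw B x m y) (h2 : Btw B y m z) (h3 : Btw B x m z) (n1 : m ≠ x) (n2 : m ≠ y)
    (n3 : m ≠ z) : m ∈ Br B X := by
  have hm : m ∈ X := (hX x hx y hy).2 m h1
  have sx := sep_nxt hT h1.1.symm n1
  have sy := sep_nxt hT h1.2.1 n2
  have sz := sep_nxt hT h2.2.1 n3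
  exact ⟨hm, _, (hX m hm x hx).2 _ sx.2.2, _, (hX m hm y hy).2 _ sy.2.2, _,
    (hX m hm z hz).2 _ sz.2.2, sx.1, sy.1, sz.1, nxt_ne_of_btw hT h1 n1.symm n2.symm,
    nxt_ne_of_btw hT h3 n1.symm n3.symm, nxt_ne_of_btw hT h2 n2.symm n3.symm⟩

theorem br_median (hX : Cvx B X) {x y z m : V} (hx : x ∈ Br B X) (hy : y ∈ Br B X)
    (hz : z ∈ Br B X) (h1 : Btw B x m y) (h2 : Btw B y m z) (h3 : Btw B x m z) : m ∈ Br B X := by
  by_cases n1 : m = x
  · exact n1 ▸ hx
  by_cases n2 : m = y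
  · exact n2 ▸ hy
  by_cases n3 : m = z
  · exact n3 ▸ hz
  exact br_of_median hT hX hx.1 hy.1 hz.1 h1 h2 h3 n1 n2 n3

/-- The projection of a point of `X` to a leafless subtree is the point or a branch vertex. -/
theorem br_of_proj (hX : Cvx B X) {D : Set V} (hD : D ⊆ X) (hl : Leafless B D) {x p : V}
    (hx : x ∈ X) (hp : p ∈ D) (h : ∀ c ∈ D, Btw B x p c) (hne : p ≠ x) : p ∈ Br B X := by
  obtain ⟨y, hy, z, hz, a1, a2, hyz⟩ := hl p hp
  exact br_of_median hT hX hx (hD hy) (hD hz) (h y hy) (btw_of_adj hT a1.symm a2 hyz) (h z hz)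
    hne a1.ne a2.ne

theorem On.btw {x y u v : V} (h : On B x y u v) (hne : x ≠ y) : Btw B u x v ∧ Btw B u y v := by
  exact Btw.glue hT h.1 h.2 hne

theorem On.dist_le {x y u v : V} (h : On B x y u v) (hne : x ≠ y) : B.dist x y ≤ B.dist u v := by
  have k1 := (h.btw hT hne).1.2.2
  have k2 := h.2.2.2
  omega

theorem On.mem {D : Set V} (hD : Cvx B D) {x y u v : V} (h : On B x y u v) (hne : x ≠ y)
    (hu : u ∈ D) (hv : v ∈ D) : x ∈ D ∧ y ∈ D := by
  exact ⟨(hD u hu v hv).2 x (h.btw hT hne).1, (hD u hu v hv).2 y (h.btw hT hne).2⟩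

theorem On.right {x y u v w : V} (h : On B x y u w) (hne : x ≠ y) (hb : Btw B u w v) :
    On B x y u v := by
  exact ⟨h.1, (Btw.trans_left (Btw.trans_left hb (h.btw hT hne).2).1 h.1).2⟩

theorem On.left {x y u v w : V} (h : On B x y w v) (hne : x ≠ y) (hb : Btw B u w v) :
    On B x y u v := by
  exact (h.symm.right hT hne.symm hb.symm).symm

theorem On.trans {s t x y u v : V} (h : On B s t x y) (hne : s ≠ t) (h' : On B x y u v) :
    On B s t u v := by
  have hxy : x ≠ y := fun he => not_on_self hne (he ▸ h)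
  exact (h.left hT hne h'.1).right hT hne (h'.btw hT hxy).2

/-- Two points on a geodesic are aligned in one of the two orders. -/
theorem on_of_btw {s t u v : V} (hs : Btw B u s v) (ht : Btw B u t v) :
    On B s t u v ∨ On B t s u v := by
  rcases le_total (B.dist u s) (B.dist u t) with c | c
  · exact Or.inl (Btw.compare hT hs ht c)
  · exact Or.inr (Btw.compare hT ht hs c)

/-- Every branch vertex lies on one side of an arc. -/
theorem Arc.side (hX : Cvx B X) {x y z : V} (h : Arc B X x y) (hz : z ∈ Br B X) :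
    Btw B z x y ∨ Btw B x y z := by
  obtain ⟨m, m1, m2, m3⟩ := exists_median hT (hX x h.1.1 y h.2.1.1).1 (hX y h.2.1.1 z hz.1).1
  rcases h.2.2.2 m (br_median hT hX h.1 h.2.1 hz m1 m2 m3) m1 with rfl | rfl
  · exact Or.inl m2.symm
  · exact Or.inr m3

theorem On.split (hX : Cvx B X) {x y u v w : V} (h : Arc B X x y) (hw : w ∈ Br B X)
    (ho : On B x y u v) : On B x y u w ∨ On B x y w v := by
  rcases h.side hT hX hw with c | c
  · exact Or.inr ⟨c, ho.2⟩
  · exact Or.inl ⟨ho.1, c⟩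

theorem Sh.trans (hX : Cvx B X) {x y z : V} (h : Sh B l X x y) (h' : Sh B l X y z) :
    Sh B l X x z := by
  refine ⟨h.1, h'.2.1, fun u v hl ho => ?_⟩
  rcases On.split hT hX hl.1 h.2.1 ho with c | c
  · exact h.2.2 u v hl c
  · exact h'.2.2 u v hl c

theorem Sh.btw {x y z : V} (h : Sh B l X x y) (hz : z ∈ Br B X) (hb : Btw B x z y) :
    Sh B l X x z ∧ Sh B l X z y := by
  exact ⟨⟨h.1, hz, fun u v hl ho => h.2.2 u v hl (ho.right hT hl.1.2.2.1 hb)⟩,
    ⟨hz, h.2.1, fun u v hl ho => h.2.2 u v hl (ho.left hT hl.1.2.2.1 hb)⟩⟩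

theorem cls_eq_iff (hX : Cvx B X) {x y : V} (hx : x ∈ Br B X) :
    cls B l X x = cls B l X y ↔ Sh B l X x y := by
  constructor
  · intro h
    have k : x ∈ cls B l X x := sh_refl hx
    rw [h] at k
    exact Sh.symm k
  · intro h
    ext z
    exact ⟨fun k => Sh.trans hT hX h.symm k, fun k => Sh.trans hT hX h k⟩

/-- Equivalent branch vertices lie on the same side of a long arc. -/
theorem Sh.side (hX : Cvx B X) {x y z z' : V} (h : Long B l X x y) (hs : Sh B l X z z')
    (hb : Btw B z x y) : Btw B z' x y := by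
  rcases h.1.side hT hX hs.2.1 with c | c
  · exact c
  · exact absurd ⟨hb, c⟩ (hs.2.2 x y h)

theorem sh_of_dist {Λ : ℕ} (hg : ∀ x y, Arc B X x y → B.dist x y ≤ l ∨ Λ < B.dist x y) {x y : V}
    (hx : x ∈ Br B X) (hy : y ∈ Br B X) (hd : B.dist x y ≤ Λ) : Sh B l X x y := by
  refine ⟨hx, hy, fun u v hl ho => ?_⟩
  have k1 := ho.dist_le hT hl.1.2.2.1
  have k2 := hl.2
  rcases hg u v hl.1 with c | c <;> omega

/-- Induction along the arcs of a geodesic between two branch vertices. -/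
theorem arc_induct (hX : Cvx B X) (r : V → V → Prop) (refl : ∀ x ∈ Br B X, r x x)
    (trans : ∀ x y z, r x y → r y z → r x z) {u v : V} (hu : u ∈ Br B X) (hv : v ∈ Br B X)
    (h : ∀ x y, Arc B X x y → On B x y u v → r x y) : r u v := by
  have key : ∀ n : ℕ, ∀ u v, u ∈ Br B X → v ∈ Br B X → B.dist u v < n →
      (∀ x y, Arc B X x y → On B x y u v → r x y) → r u v := by
    intro n
    induction n with
    | zero => intro u v _ _ hd; omega
    | succ n ih =>
      intro u v hu hv hd h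
      by_cases c : u = v
      · exact c ▸ refl u hu
      by_cases c' : ∀ z ∈ Br B X, Btw B u z v → z = u ∨ z = v
      · exact h u v ⟨hu, hv, c, c'⟩ (on_self (hX u hu.1 v hv.1).1)
      push Not at c'
      obtain ⟨z, hz, hb, n1, n2⟩ := c'
      have k := hb.2.2
      have d1 : B.dist u z ≠ 0 := fun h0 => n1 (eq_of_dist_zero hb.1 h0).symm
      have d2 : B.dist z v ≠ 0 := fun h0 => n2 (eq_of_dist_zero hb.2.1 h0)
      exact trans u z v
        (ih u z hu hz (by omega) fun x y ha ho => h x y ha (ho.right hT ha.2.2.1 hb))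
        (ih z v hz hv (by omega) fun x y ha ho => h x y ha (ho.left hT ha.2.2.1 hb))
  exact key _ u v hu hv (Nat.lt_succ_self _) h

/-- The first arc with a property `Q` on a geodesic. -/
theorem first_arc (Q : V → V → Prop) (hQ : ∀ u v, Q u v → Arc B X u v) {x y : V}
    (h : ∃ u v, Q u v ∧ On B u v x y) :
    ∃ u v, Q u v ∧ On B u v x y ∧ ∀ u' v', Q u' v' → ¬ On B u' v' x u := by
  classical
  have hex : ∃ n, ∃ u v, Q u v ∧ On B u v x y ∧ B.dist x u = n := by
    obtain ⟨u, v, h1, h2⟩ := h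
    exact ⟨_, u, v, h1, h2, rfl⟩
  obtain ⟨u, v, h1, h2, h3⟩ := Nat.find_spec hex
  refine ⟨u, v, h1, h2, fun u' v' hq ho => ?_⟩
  have hne := (hQ u' v' hq).2.2.1
  have k := Nat.find_min' hex ⟨u', v', hq, ho.right hT hne (h2.btw hT (hQ u v h1).2.2.1).1, rfl⟩
  have k1 := (ho.btw hT hne).1.2.2
  have k2 := ho.2.2.2
  exact hne (eq_of_dist_zero ho.2.1 (by omega))

theorem first_long {x y : V} (hx : x ∈ Br B X) (hy : y ∈ Br B X) (h : ¬ Sh B l X x y) :
    ∃ u v, Long B l X u v ∧ On B u v x y ∧ Sh B l X x u := by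
  have hex : ∃ u v, Long B l X u v ∧ On B u v x y := by
    by_contra hc
    exact h ⟨hx, hy, fun u v hl ho => hc ⟨u, v, hl, ho⟩⟩
  obtain ⟨u, v, h1, h2, h3⟩ := first_arc hT (Long B l X) (fun u v hl => hl.1) hex
  exact ⟨u, v, h1, h2, hx, h1.1.1, h3⟩

/-- An arc that lies on an arc is that arc. -/
theorem Arc.eq_of_on {x y u v : V} (h : Arc B X x y) (h' : Arc B X u v) (ho : On B x y u v) :
    x = u ∧ y = v := by
  have hne := h.2.2.1
  obtain ⟨b1, b2⟩ := ho.btw hT hne
  constructor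
  · rcases h'.2.2.2 x h.1 b1 with c | c
    · exact c
    · have k := ho.2
      rw [← c] at k
      exact absurd (Btw.eq_of_self k).symm hne
  · rcases h'.2.2.2 y h.2.1 b2 with c | c
    · have k := ho.1
      rw [← c] at k
      exact absurd (Btw.eq_of_self k) hne
    · exact c

theorem long_unique (hX : Cvx B X) {x y x' y' : V} (h : Long B l X x y) (h' : Long B l X x' y')
    (hx : Sh B l X x x') (hy : Sh B l X y y') : x = x' ∧ y = y' := by
  have hr := (hX x h.1.1.1 y h.1.2.1.1).1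
  exact Arc.eq_of_on hT h.1 h'.1 ⟨Sh.side hT hX h hx (btw_left hr),
    (Sh.side hT hX h.symm hy (btw_left hr.symm)).symm⟩

omit hT in
theorem ga1_closest {u s : V} (hu : u ∈ Br B X) (hr : B.Reachable u s) :
    ∃ x ∈ Br B X, Btw B u x s ∧ ∀ z ∈ Br B X, Btw B x z s → z = x := by
  classical
  have hex : ∃ n, ∃ x ∈ Br B X, Btw B u x s ∧ B.dist x s = n := ⟨_, u, hu, btw_left hr, rfl⟩
  obtain ⟨x, h1, h2, h3⟩ := Nat.find_spec hex
  refine ⟨x, h1, h2, fun z hz hb => ?_⟩
  have k := Nat.find_min' hex ⟨z, hz, (Btw.trans_right h2 hb).1, rfl⟩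
  have k1 := hb.2.2
  exact (eq_of_dist_zero hb.1 (by omega)).symm

/-- A segment without inner branch vertex lies in an arc. Hint: `x` is the branch vertex of
`[u, s]` closest to `s`, `y` the one of `[t, v]` closest to `t`. -/
theorem arc_of_on {u v s t : V} (hu : u ∈ Br B X) (hv : v ∈ Br B X) (hne : s ≠ t)
    (ho : On B s t u v) (hin : ∀ z ∈ Br B X, Btw B s z t → z = s ∨ z = t) :
    ∃ x y, Arc B X x y ∧ On B s t x y ∧ On B x y u v := by
  obtain ⟨x, hx, x1, x2⟩ := ga1_closest hu ho.1.1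
  obtain ⟨y, hy, y1, y2⟩ := ga1_closest hv ho.2.2.1.symm
  have o1 : On B s t x y := ⟨(Btw.trans_left ho.1 x1).2, (Btw.trans_right ho.2 y1.symm).2⟩
  have k1 := Btw.trans_right (ho.btw hT hne).1 (Btw.trans_right ho.2 y1.symm).1
  have k2 := (Btw.trans_left k1.2 x1).1
  refine ⟨x, y, ⟨hx, hy, fun he => not_on_self hne (he ▸ o1), fun z hz hb => ?_⟩, o1, k2,
    (Btw.trans_left k1.1 k2).2⟩
  rcases on_of_btw hT hb (o1.btw hT hne).1 with c | c
  · exact Or.inl (x2 z hz c.1)
  rcases on_of_btw hT c.2 o1.2 with c' | c'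
  · rcases hin z hz c'.1 with rfl | rfl
    · exact Or.inl (x2 z hz (btw_right hb.1))
    · exact Or.inr (y2 z hz (btw_right hb.2.1.symm))
  · exact Or.inr (y2 z hz c'.2.symm)

theorem arc_unique (hX : Cvx B X) {x y x' y' s t : V} (h : Arc B X x y) (h' : Arc B X x' y') (hne : s ≠ t)
    (ho : On B s t x y) (ho' : On B s t x' y') : x = x' ∧ y = y' := by
  refine Arc.eq_of_on hT h h' ⟨?_, ?_⟩
  · rcases h.side hT hX h'.1 with c | c
    · exact c
    · exact absurd ⟨ho'.1, (ho.right hT hne c).2⟩ (not_on_self hne)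
  · rcases h.side hT hX h'.2.1 with c | c
    · exact absurd ⟨(ho.left hT hne c).1, ho'.2⟩ (not_on_self hne)
    · exact c

theorem ga1_sub (hX : Cvx B X) {D : Set V} (hD : D ⊆ X) (hc : Cvx B D) (hl : Leafless B D)
    {x y s t : V} (h : Arc B X x y) (hne : s ≠ t) (ho : On B s t x y) (ht : t ∈ D) :
    y ∈ D := by
  obtain ⟨p, hp, hpr⟩ := Cvx.exists_proj hT hc ht ho.2.2.1.symm
  by_cases c : p = y
  · exact c ▸ hp
  have k := Btw.trans_right (ho.btw hT hne).2 (hpr t ht).symm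
  rcases h.2.2.2 p (br_of_proj hT hX hD hl h.2.1.1 hp hpr c) k.1 with rfl | c'
  · have e1 := Btw.eq_of_self k.2
    have k' := ho.1
    rw [e1] at k'
    exact absurd ((Btw.eq_of_self k').trans e1.symm) hne
  · exact absurd c' c

/-- An arc that meets a leafless subtree in two points lies in it. Hint: otherwise the
projection `p` of `y` to `D` is a branch vertex (`br_of_proj`) with `t, p, y` aligned. -/
theorem arc_sub (hX : Cvx B X) {D : Set V} (hD : D ⊆ X) (hc : Cvx B D) (hl : Leafless B D)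
    {x y s t : V} (h : Arc B X x y) (hne : s ≠ t) (ho : On B s t x y) (hs : s ∈ D) (ht : t ∈ D) :
    x ∈ D ∧ y ∈ D := by
  exact ⟨ga1_sub hT hX hD hc hl h.symm hne.symm ho.symm hs, ga1_sub hT hX hD hc hl h hne ho ht⟩

/-- A long arc of the big tree between branch vertices of the small tree lies in a long arc. -/
theorem long_ext (hsub : X ⊆ X') {u v s t : V} (hu : u ∈ Br B X) (hv : v ∈ Br B X)
    (h : Long B l X' s t) (ho : On B s t u v) :
    ∃ x y, Long B l X x y ∧ On B s t x y ∧ On B x y u v := by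
  obtain ⟨x, y, h1, h2, h3⟩ := arc_of_on hT hu hv h.1.2.2.1 ho
    fun z hz hb => h.1.2.2.2 z (br_mono hsub hz) hb
  exact ⟨x, y, ⟨h1, lt_of_lt_of_le h.2 (h2.dist_le hT h.1.2.2.1)⟩, h2, h3⟩

theorem Sh.incl (hsub : X ⊆ X') {x y : V} (h : Sh B l X x y) : Sh B l X' x y := by
  refine ⟨br_mono hsub h.1, br_mono hsub h.2.1, fun s t hl ho => ?_⟩
  obtain ⟨u, v, h1, -, h3⟩ := long_ext hT hsub h.1 h.2.1 hl ho
  exact h.2.2 u v h1 h3

end Acyclic

end Gap
end CPOR
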