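import Pool.Agent.P.MP_2cb329_al.F.GDefs

/-! F7: counting orbits; components of forests over a `G`-set. -/

set_option autoImplicit false

namespace CPOR
namespace Gap
open ZT MulAction

section Count

variable {G : Type} [Group G] {α β : Type} [MulAction G α] [MulAction G β] {K : Subgroup G}

theorem gc_le_card {S : Set α} (F : Finset α) (h : ∀ x ∈ S, ∃ k ∈ K, k • x ∈ (F : Set α)) :
    nOrb K S ≤ F.card := by
  have h1 : orb K '' S ⊆ orb K '' (F : Set α) := by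
    rintro _ ⟨x, hx, rfl⟩
    obtain ⟨k, hk, hF⟩ := h x hx
    exact ⟨k • x, hF, (orb_eq_iff.2 ⟨k, hk, rfl⟩).symm⟩
  refine (Set.ncard_le_ncard h1 ((Finset.finite_toSet F).image _)).trans ?_
  rw [← Set.ncard_coe_finset]
  exact Set.ncard_image_le (Finset.finite_toSet F)

theorem gc_fib [DecidableEq (α × β)] (E : Set (α × β))
    (hα : FinOrb (⊤ : Subgroup G) (Set.univ : Set α))
    (inv : Inv (⊤ : Subgroup G) E) (h : ∀ a : α, FinOrb (stabilizer G a) {b | (a, b) ∈ E}) :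
    ∃ (F : Finset α) (R : α → Finset β), Reps (⊤ : Subgroup G) Set.univ F ∧
      (∀ a, Reps (stabilizer G a) {b | (a, b) ∈ E} (R a)) ∧
      ∀ p ∈ E, ∃ k ∈ (⊤ : Subgroup G),
        k • p ∈ ((F.biUnion (fun a => (R a).image (Prod.mk a)) : Finset (α × β)) : Set (α × β)) := by
  obtain ⟨F, hF⟩ := hα.exists_reps
  choose R hR using fun a => (h a).exists_reps
  refine ⟨F, R, hF, hR, fun p hp => ?_⟩
  obtain ⟨k, -, a, ha, e⟩ := hF.cover p.1 (Set.mem_univ _)
  have h1 : (a, k⁻¹ • p.2) ∈ E := by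
    have := inv k⁻¹ (Subgroup.mem_top _) p hp
    rwa [show k⁻¹ • p = (a, k⁻¹ • p.2) from Prod.ext (inv_smul_eq_iff.2 e) rfl] at this
  obtain ⟨j, hj, b, hb, e'⟩ := (hR a).cover _ h1
  refine ⟨j⁻¹ * k⁻¹, Subgroup.mem_top _, Finset.mem_coe.2 (Finset.mem_biUnion.2
    ⟨a, ha, Finset.mem_image.2 ⟨b, hb, Prod.ext ?_ ?_⟩⟩)⟩
  · show a = (j⁻¹ * k⁻¹) • p.1
    rw [mul_smul, inv_smul_eq_iff.2 e]
    exact (inv_smul_eq_iff.2 (mem_stabilizer_iff.1 hj).symm).symm
  · show b = (j⁻¹ * k⁻¹) • p.2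
    rw [mul_smul, e', inv_smul_smul]

/-- An equivariant partial map from `E` that covers `E'`. -/
theorem nOrb_le_of_rel {E : Set α} {E' : Set β} (r : α → β → Prop) (hE : FinOrb K E)
    (dom : ∀ x y, r x y → x ∈ E) (smul : ∀ k ∈ K, ∀ x y, r x y → r (k • x) (k • y))
    (func : ∀ x y y', r x y → r x y' → y = y') (surj : ∀ y ∈ E', ∃ x, r x y) :
    FinOrb K E' ∧ nOrb K E' ≤ nOrb K E := by
  rcases E'.eq_empty_or_nonempty with rfl | ⟨y0, hy0⟩
  · exact ⟨finOrb_of_finite Set.finite_empty, by simp [nOrb]⟩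
  have : Nonempty α := ⟨(surj y0 hy0).choose⟩
  choose! f hf using surj
  refine nOrb_le_of_inj hE f (fun y hy => dom _ _ (hf y hy)) ?_
  rintro y hy y' hy' ⟨k, hk, e⟩
  refine ⟨k, hk, func (f y') _ _ ?_ (hf y' hy')⟩
  rw [← e]
  exact smul k hk _ _ (hf y hy)

/-- If the counts agree and the action on `E'` is free, the partial map is a bijection.
Hint: `E₀ = dom r ⊆ E`; orbits of `E₀` map onto orbits of `E'`; all inequalities are equalities. -/
theorem bij_of_rel {E : Set α} {E' : Set β} (r : α → β → Prop) (hE : FinOrb K E)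
    (dom : ∀ x y, r x y → x ∈ E) (cod : ∀ x y, r x y → y ∈ E')
    (smul : ∀ k ∈ K, ∀ x y, r x y → r (k • x) (k • y))
    (func : ∀ x y y', r x y → r x y' → y = y') (surj : ∀ y ∈ E', ∃ x, r x y)
    (free : ∀ k ∈ K, ∀ y ∈ E', k • y = y → k = 1) (hle : nOrb K E ≤ nOrb K E') :
    (∀ x ∈ E, ∃ y, r x y) ∧ ∀ x x' y, r x y → r x' y → x = x' := by
  rcases E.eq_empty_or_nonempty with rfl | ⟨x0, hx0⟩
  · exact ⟨fun x hx => absurd hx (Set.notMem_empty x),
      fun x x' y hx => absurd (dom x y hx) (Set.notMem_empty x)⟩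
  have : Nonempty α := ⟨x0⟩
  have tot : ∀ x ∈ E, ∃ y, r x y := by
    choose! f hf using surj
    intro x hx
    obtain ⟨y, hy, k, hk, e⟩ := surj_of_inj_of_nOrb_le hE f (fun y hy => dom _ _ (hf y hy))
      (by
        rintro y hy y' hy' ⟨k, hk, e⟩
        refine ⟨k, hk, func (f y') _ _ ?_ (hf y' hy')⟩
        rw [← e]
        exact smul k hk _ _ (hf y hy)) hle x hx
    exact ⟨k • y, e ▸ smul k hk _ _ (hf y hy)⟩
  refine ⟨tot, fun x x' y hx hx' => ?_⟩
  have : Nonempty β := ⟨y⟩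
  choose! g hg using tot
  have e1 : g x = y := func x _ _ (hg x (dom _ _ hx)) hx
  have e2 : g x' = y := func x' _ _ (hg x' (dom _ _ hx')) hx'
  obtain ⟨k, hk, e⟩ := inj_of_surj_of_nOrb_le (K' := K) (S' := E') hE g
    (fun x hx => cod _ _ (hg x hx))
    (by
      rintro u hu u' hu' ⟨k, hk, e⟩
      refine ⟨k, hk, func u' _ _ ?_ (hg u' hu')⟩
      rw [← e]
      exact smul k hk _ _ (hg u hu))
    (by
      intro z hz
      obtain ⟨u, hu⟩ := surj z hz
      exact ⟨u, dom _ _ hu, 1, K.one_mem, by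
        rw [one_smul]
        exact func u _ _ (hg u (dom _ _ hu)) hu⟩)
    hle x (dom _ _ hx) x' (dom _ _ hx') ⟨1, K.one_mem, by rw [one_smul, e1, e2]⟩
  have h1 := smul k hk _ _ hx
  rw [e] at h1
  have h2 := free k hk y (cod _ _ hx) (func x' _ _ h1 hx')
  rw [← e, h2, one_smul]

/-- Fibred counting. -/
theorem nOrb_fib (E : Set (α × β)) (n : ℕ) (hα : FinOrb (⊤ : Subgroup G) (Set.univ : Set α))
    (inv : Inv (⊤ : Subgroup G) E)
    (h : ∀ a : α, FinOrb (stabilizer G a) {b | (a, b) ∈ E} ∧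
      nOrb (stabilizer G a) {b | (a, b) ∈ E} ≤ n) :
    FinOrb (⊤ : Subgroup G) E ∧
      nOrb (⊤ : Subgroup G) E ≤ nOrb (⊤ : Subgroup G) (Set.univ : Set α) * n := by
  classical
  obtain ⟨F, R, hF, hR, hc⟩ := gc_fib E hα inv (fun a => (h a).1)
  refine ⟨⟨_, Finset.finite_toSet _, hc⟩, (gc_le_card _ hc).trans ?_⟩
  rw [← hF.card]
  refine Finset.card_biUnion_le_card_mul _ _ _ (fun a _ => Finset.card_image_le.trans ?_)
  rw [(hR a).card]
  exact (h a).2

theorem finOrb_fib (E : Set (α × β)) (hα : FinOrb (⊤ : Subgroup G) (Set.univ : Set α))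
    (inv : Inv (⊤ : Subgroup G) E) (h : ∀ a : α, FinOrb (stabilizer G a) {b | (a, b) ∈ E}) :
    FinOrb (⊤ : Subgroup G) E := by
  classical
  obtain ⟨F, R, -, -, hc⟩ := gc_fib E hα inv h
  exact ⟨_, Finset.finite_toSet _, hc⟩

theorem nOrb_union_le {E E' : Set α} (h : FinOrb K E) (h' : FinOrb K E') :
    nOrb K (E ∪ E') ≤ nOrb K E + nOrb K E' := by
  have _ := h
  have _ := h'
  unfold nOrb
  rw [Set.image_union]
  exact Set.ncard_union_le _ _

theorem nOrb_cover_le {E : Set α} (n c : ℕ) (D : ℕ → Set α) (hD : ∀ i < n, FinOrb K (D i))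
    (hc : ∀ i < n, nOrb K (D i) ≤ c) (hE : ∀ x ∈ E, ∃ i < n, x ∈ D i) : nOrb K E ≤ c * n := by
  classical
  have h1 : ∀ i < n, ∃ F, Reps K (D i) F := fun i hi => (hD i hi).exists_reps
  choose! R hR using h1
  have h2 : ∀ x ∈ E, ∃ k ∈ K, k • x ∈ (((Finset.range n).biUnion R : Finset α) : Set α) := by
    intro x hx
    obtain ⟨i, hi, hxi⟩ := hE x hx
    obtain ⟨k, hk, y, hy, e⟩ := (hR i hi).cover x hxi
    refine ⟨k⁻¹, K.inv_mem hk, ?_⟩
    rw [e, inv_smul_smul]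
    exact Finset.mem_coe.2 (Finset.mem_biUnion.2 ⟨i, Finset.mem_range.2 hi, hy⟩)
  refine (gc_le_card _ h2).trans ?_
  have h3 := Finset.card_biUnion_le_card_mul (Finset.range n) R c (fun i hi => by
    rw [(hR i (Finset.mem_range.1 hi)).card]
    exact hc i (Finset.mem_range.1 hi))
  rw [Finset.card_range, Nat.mul_comm] at h3
  exact h3

theorem nOrb_eq_zero_iff {E : Set α} (h : FinOrb K E) : nOrb K E = 0 ↔ E = ∅ := by
  unfold nOrb
  rw [Set.ncard_eq_zero (finOrb_iff.1 h), Set.image_eq_empty]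

/-- Labels for orbits (used for pigeonhole arguments with several groups). -/
theorem exists_label {E : Set α} (h : FinOrb K E) :
    ∃ lab : α → ℕ, (∀ x ∈ E, lab x < nOrb K E) ∧
      ∀ x ∈ E, ∀ y ∈ E, lab x = lab y → ∃ k ∈ K, k • x = y := by
  classical
  obtain ⟨F, hF⟩ := h.exists_reps
  have h1 : ∀ x, ∃ y, x ∈ E → y ∈ F ∧ ∃ k ∈ K, x = k • y := by
    intro x
    by_cases hx : x ∈ E
    · obtain ⟨k, hk, y, hy, e⟩ := hF.cover x hx
      exact ⟨y, fun _ => ⟨hy, k, hk, e⟩⟩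
    · exact ⟨x, fun H => absurd H hx⟩
  choose ρ hρ using h1
  refine ⟨fun x => if hx : x ∈ E then (F.equivFin ⟨ρ x, (hρ x hx).1⟩ : ℕ) else 0,
    fun x hx => ?_, fun x hx y hy e => ?_⟩
  · simp only [dif_pos hx]
    rw [← hF.card]
    exact Fin.is_lt _
  · simp only [dif_pos hx, dif_pos hy] at e
    have e1 : ρ x = ρ y := congrArg Subtype.val (F.equivFin.injective (Fin.ext e))
    obtain ⟨k, hk, e2⟩ := (hρ x hx).2
    obtain ⟨k', hk', e3⟩ := (hρ y hy).2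
    refine ⟨k' * k⁻¹, K.mul_mem hk' (K.inv_mem hk), ?_⟩
    rw [mul_smul, inv_smul_eq_iff.2 e2, e1, ← e3]

/-- An invariant function takes at most `nOrb K E` values on `E`. -/
theorem exists_vals {E : Set α} (h : FinOrb K E) (f : α → ℕ)
    (hf : ∀ k ∈ K, ∀ x ∈ E, k • x ∈ E → f (k • x) = f x) :
    ∃ A : Finset ℕ, A.card ≤ nOrb K E ∧ ∀ x ∈ E, f x ∈ A := by
  classical
  obtain ⟨F, hF⟩ := h.exists_reps
  refine ⟨F.image f, Finset.card_image_le.trans hF.card.le, fun x hx => ?_⟩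
  obtain ⟨k, hk, y, hy, e⟩ := hF.cover x hx
  refine Finset.mem_image.2 ⟨y, hy, ?_⟩
  rw [e]
  exact (hf k hk y (hF.sub y hy) (e ▸ hx)).symm

end Count

section Ovr

variable {G : Type} [Group G] {W Φ : Type} [MulAction G W] [MulAction G Φ] {T : SimpleGraph W}
  {ν : W → Φ}

theorem Ovr.kc (h : Ovr T G ν) (φ : Φ) : KC T (stabilizer G φ) {x | ν x = φ} := by
  refine ⟨⟨h.ν_surj φ, fun x hx z hz => ⟨(h.ν_eq x z).1 (hx.trans hz.symm), fun y hy => ?_⟩,
    fun k hk x hx => ?_⟩, ?_, ?_⟩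
  · exact ((h.ν_eq x y).2 hy.1).symm.trans hx
  · show ν (k • x) = φ
    rw [h.ν_smul, show ν x = φ from hx]
    exact hk
  · have := h.finW.fibre (fun _ _ _ _ => Set.mem_univ _) ν (fun k _ x _ => h.ν_smul k x) φ
    rw [top_inf_eq] at this
    exact this.mono (fun x hx => ⟨Set.mem_univ _, hx⟩)
  · have := h.finE.fibre (inv_darts h.gf.acts ⊤) (fun e => ν e.1)
      (fun k _ e _ => h.ν_smul k e.1) φ
    rw [top_inf_eq] at this
    exact this.mono (fun e he => ⟨he.1, he.2.1⟩)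

/-- A component with an edge is leafless. -/
theorem Ovr.leafless (h : Ovr T G ν) (hn : NL T) {x y : W} (hxy : T.Adj x y) :
    Leafless T {z | ν z = ν x} := by
  intro z hz
  have h1 : ∃ v, T.Adj z v := by
    by_cases e : z = x
    · exact ⟨y, e ▸ hxy⟩
    · exact ⟨_, (sep_nxt h.gf.acyc ((h.ν_eq z x).1 hz) e).1⟩
  obtain ⟨v, hv⟩ := h1
  obtain ⟨w, hw, hne⟩ := hn z v hv
  exact ⟨w, ((h.ν_eq z w).2 hw.reachable).symm.trans hz, v,
    ((h.ν_eq z v).2 hv.reachable).symm.trans hz, hw, hv, hne⟩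

/-- A component with an edge has no global fixed point. -/
theorem Ovr.not_fix (h : Ovr T G ν) (hn : NL T) {x y : W} (hxy : T.Adj x y) {z : W}
    (hz : ν z = ν x) : ¬ stabilizer G (ν z) ≤ stabilizer G z := by
  intro hle
  have h1 := h.leafless hn hxy
  have h2 := h.kc (ν x)
  rw [hz] at hle
  have h3 : KT T (stabilizer G (ν x)) {z} := by
    refine ⟨⟨z, rfl⟩, fun a ha b hb => ?_, fun k hk a ha => ?_⟩
    · rw [Set.mem_singleton_iff.1 ha, Set.mem_singleton_iff.1 hb]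
      exact ⟨SimpleGraph.Reachable.refl z, fun c hc => hc.eq_of_self⟩
    · rw [Set.mem_singleton_iff.1 ha]
      exact hle hk
  have h4 := h2.eq_of_leafless h.gf h1 h3 (Set.singleton_subset_iff.2 hz)
  have hx : x ∈ ({z} : Set W) := by
    rw [h4]
    rfl
  have hy : y ∈ ({z} : Set W) := by
    rw [h4]
    exact ((h.ν_eq x y).2 hxy.reachable).symm
  exact hxy.ne ((Set.mem_singleton_iff.1 hx).trans (Set.mem_singleton_iff.1 hy).symm)

theorem eqv_refl (hT : T.IsAcyclic) (Kp : Set (W × W)) (x : W) : Eqv T Kp x x := by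
  exact ⟨SimpleGraph.Reachable.refl x, fun e _ => not_sep_self hT e x⟩

theorem Eqv.symm {Kp : Set (W × W)} (hK : SymInv G Kp) {x y : W} (h : Eqv T Kp x y) :
    Eqv T Kp y x := by
  exact ⟨h.1.symm, fun e he hs => h.2 e.swap (hK.symm e he) hs.swap⟩

theorem Eqv.trans (hT : T.IsAcyclic) {Kp : Set (W × W)} {x y z : W} (h : Eqv T Kp x y)
    (h' : Eqv T Kp y z) : Eqv T Kp x z := by
  exact ⟨h.1.trans h'.1, fun e he hs => (hs.tri hT h.1).elim (h.2 e he) (h'.2 e he)⟩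

theorem Eqv.mono {Kp Kp' : Set (W × W)} (hK : Kp' ⊆ Kp) {x y : W} (h : Eqv T Kp x y) :
    Eqv T Kp' x y := by
  exact ⟨h.1, fun e he => h.2 e (hK he)⟩

theorem eqv_darts_iff (hT : T.IsAcyclic) {x y : W} : Eqv T (Darts T) x y ↔ x = y := by
  constructor
  · intro h
    exact eq_of_no_sep hT h.1 (fun e hs => h.2 e hs.1 hs)
  · rintro rfl
    exact eqv_refl hT _ x

/-- Collapse of a forest over `Φ`. -/
theorem Ovr.collapse (h : Ovr T G ν) {Kp : Set (W × W)} (hK : SymInv G Kp) :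
    ∃ (W' : Type) (_ : MulAction G W') (T' : SimpleGraph W') (π : W → W') (ν' : W' → Φ),
      IsCol T G Kp T' π ∧ Ovr T' G ν' ∧ (∀ x, ν' (π x) = ν x) ∧ (NL T → NL T') := by
  obtain ⟨W', inst, T', π, hc, hg⟩ := exists_col h.gf hK
  have key : ∀ x, ν (Function.surjInv hc.surj (π x)) = ν x := fun x =>
    (h.ν_eq _ _).2 ((hc.eq_iff _ _).1 (Function.surjInv_eq hc.surj (π x))).1
  refine ⟨W', inst, T', π, fun w => ν (Function.surjInv hc.surj w), hc,
    ⟨hg, ?_, ?_, ?_, ?_, ?_⟩, key, ?_⟩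
  · refine (h.finW.image π (fun k _ x _ _ => hc.smul k x)).mono (fun w _ => ?_)
    obtain ⟨x, rfl⟩ := hc.surj w
    exact ⟨x, Set.mem_univ _, rfl⟩
  · refine (h.finE.image (fun e => (π e.1, π e.2))
      (fun k _ e _ _ => Prod.ext (hc.smul k e.1) (hc.smul k e.2))).mono (fun e' he' => ?_)
    obtain ⟨e, -, ha, e1, e2⟩ := (hc.adj_iff _ _).1 he'
    exact ⟨e, ha, Prod.ext e1 e2⟩
  · intro g w
    obtain ⟨x, rfl⟩ := hc.surj w
    rw [← hc.smul, key, key, h.ν_smul]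
  · intro φ
    obtain ⟨x, rfl⟩ := h.ν_surj φ
    exact ⟨π x, key x⟩
  · intro w w'
    obtain ⟨x, rfl⟩ := hc.surj w
    obtain ⟨y, rfl⟩ := hc.surj w'
    rw [key, key, hc.reach_iff h.gf hK, h.ν_eq]
  · intro hn u v huv
    obtain ⟨e, he, ha, rfl, rfl⟩ := (hc.adj_iff _ _).1 huv
    obtain ⟨h1, -⟩ := hc.leafless_image h.gf hK (h.kc (ν e.1)) (h.leafless hn ha)
      ⟨e, he, ha, rfl, ((h.ν_eq _ _).2 ha.reachable).symm⟩
    obtain ⟨y, -, z, -, a1, a2, a3⟩ := h1 (π e.1) ⟨e.1, rfl, rfl⟩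
    by_cases e0 : y = π e.2
    · exact ⟨z, a2, fun e1 => a3 (e0.trans e1.symm)⟩
    · exact ⟨y, a1, e0⟩

end Ovr

end Gap
end CPOR
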