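import Pool.Agent.P.MP_2cb329_al.F.GA1
import Pool.Agent.P.MP_2cb329_al.F.GC

/-! F7: arcs and lines in good trees; the number of arcs. -/

set_option autoImplicit false

namespace CPOR
namespace Gap
open ZT MulAction

variable {V : Type} {B : SimpleGraph V} {G : Type} [Group G] [MulAction G V] {J J' : Subgroup G}
  {X X' : Set V} {p l : ℕ}

theorem PL.mono {P : ℕ} {L : Set V} (h : PL B J p L) (hJ : J ≤ J') (hp : p ≤ P) : PL B J' P L := by
  obtain ⟨c, a, n, M, h1, h2, h3, h4, h5⟩ := h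
  exact ⟨c, a, n, M, h1, h2.trans hp, h3, hJ h4, h5⟩

theorem Per.symm {x y : V} (h : Per B J p x y) : Per B J p y x := by
  obtain ⟨L, h1, h2, h3⟩ := h
  exact ⟨L, h1, h3, h2⟩

theorem Per.mono {P : ℕ} {x y : V} (h : Per B J p x y) (hJ : J ≤ J') (hp : p ≤ P) :
    Per B J' P x y := by
  obtain ⟨L, h1, h2, h3⟩ := h
  exact ⟨L, h1.mono hJ hp, h2, h3⟩

theorem Ordi.symm {x y : V} (h : Ordi B p l J X x y) : Ordi B p l J X y x := by
  exact ⟨h.1.symm, fun hp => h.2 hp.symm⟩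

theorem ShO.symm {x y : V} (h : ShO B p l J X x y) : ShO B p l J X y x := by
  exact ⟨h.2.1, h.1, fun u v huv ho => h.2.2 v u huv.symm ho.symm⟩

theorem Sh.shO {x y : V} (h : Sh B l X x y) : ShO B p l J X x y := by
  exact ⟨h.1, h.2.1, fun u v huv => h.2.2 u v huv.1⟩

section Free

variable (hF : FT B G)
include hF

theorem ShO.trans (hX : Cvx B X) {x y z : V} (h : ShO B p l J X x y) (h' : ShO B p l J X y z) :
    ShO B p l J X x z := by
  refine ⟨h.1, h'.2.1, fun u v huv ho => ?_⟩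
  rcases On.split hF.acyc hX huv.1.1 h.2.1 ho with h1 | h1
  · exact h.2.2 u v huv h1
  · exact h'.2.2 u v huv h1

theorem PL.cvx {L : Set V} (h : PL B J p L) : Cvx B L := by
  obtain ⟨c, a, n, M, h1, -, -, -, rfl⟩ := h
  exact h1.1.cvx hF.acyc

omit hF in
theorem ga2_leafless {a : ℤ → V} (h : Line B a) : Leafless B (Set.range a) := by
  rintro _ ⟨i, rfl⟩
  refine ⟨a (i - 1), ⟨_, rfl⟩, a (i + 1), ⟨_, rfl⟩, ?_, h.1 i, ?_⟩
  · have := (h.1 (i - 1)).symm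
    rwa [sub_add_cancel] at this
  · have := h.2 (i - 1)
    rwa [show i - 1 + 2 = i + 1 by ring] at this

omit hF in
theorem ga2_not_btw (hT : B.IsAcyclic) {x y u v : V} (hu : Btw B x u y) (hv : Btw B x v y)
    (h1 : u ≠ x) (h2 : v ≠ x) : ¬ Btw B u x v := by
  intro h
  rcases le_total (B.dist x u) (B.dist x v) with hd | hd
  · exact h1 ((hu.compare hT hv hd).1.symm.antisymm h.symm)
  · exact h2 ((hv.compare hT hu hd).1.symm.antisymm h)

theorem ga2_norm {c : G} {a : ℤ → V} {n : ℕ} (h : IsAxis B c a n) {x y : V}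
    (hx : x ∈ Set.range a) (hy : y ∈ Set.range a) :
    ∃ (c' : G) (a' : ℤ → V), IsAxis B c' a' n ∧ Set.range a' = Set.range a ∧ a' 0 = x ∧
      a' (B.dist x y) = y := by
  obtain ⟨i, rfl⟩ := hx
  obtain ⟨j, rfl⟩ := hy
  have hd := (h.1.dist hF.acyc i j).2
  rcases le_total i j with hij | hij
  · refine ⟨c, fun t => a (t + i), h.shift i, ?_, by simp, ?_⟩
    · ext z
      exact ⟨fun ⟨t, ht⟩ => ⟨_, ht⟩, fun ⟨t, ht⟩ => ⟨t - i, by simpa using ht⟩⟩
    · rw [hd]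
      exact congrArg a (by omega)
  · refine ⟨c⁻¹, fun t => a (i - t), h.inv i, ?_, by simp, ?_⟩
    · ext z
      exact ⟨fun ⟨t, ht⟩ => ⟨_, ht⟩, fun ⟨t, ht⟩ => ⟨i - t, by simpa using ht⟩⟩
    · rw [hd]
      exact congrArg a (by omega)

theorem PL.leafless {L : Set V} (h : PL B J p L) : Leafless B L := by
  obtain ⟨c, a, n, M, h1, -, -, -, rfl⟩ := h
  exact ga2_leafless h1.1

/-- Use `IsAxis.pow` and `IsAxis.mem_cvx`. -/
theorem PL.sub {L : Set V} (h : PL B J p L) (hX : KT B J X) {x y : V} (hx : x ∈ X) (hy : y ∈ L)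
    (hr : B.Reachable x y) : L ⊆ X := by
  obtain ⟨c, a, n, M, h1, -, h3, h4, rfl⟩ := h
  obtain ⟨j, rfl⟩ := hy
  rintro _ ⟨i, rfl⟩
  exact (h1.pow h3).mem_cvx hF.acyc hF.acts hX.cvx (hX.inv.mem_iff h4) hx
    (hr.trans (h1.1.dist hF.acyc j 0).1) i

/-- Two lines with a long overlap are equal. Hint: shift and reverse (`IsAxis.shift`,
`IsAxis.inv`) so that both axes start at `x` and run towards `y`; `common_pow`,
`axis_range_of_pow`. -/
theorem PL.unique {L L' : Set V} (h : PL B J p L) (h' : PL B J' p L') {x y : V} (hx : x ∈ L)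
    (hy : y ∈ L) (hx' : x ∈ L') (hy' : y ∈ L') (hd : p * p < B.dist x y) : L = L' := by
  have hT := hF.acyc
  obtain ⟨c, a, n, M, h1, h2, -, -, rfl⟩ := h
  obtain ⟨c', a', n', M', h1', h2', -, -, rfl⟩ := h'
  obtain ⟨d, b, hb, rb, b0, b1⟩ := ga2_norm hF h1 hx hy
  obtain ⟨d', b', hb', rb', b0', b1'⟩ := ga2_norm hF h1' hx' hy'
  have hle : n * n' ≤ p * p := Nat.mul_le_mul h2 h2'
  have he := common_pow hF.toGF hb hb' (fun i hi hi' => by
    have hi2 : i ≤ (B.dist x y : ℤ) := by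
      have : ((n * n' : ℕ) : ℤ) + 1 ≤ (B.dist x y : ℤ) := by exact_mod_cast (by omega)
      push_cast at this
      omega
    have e1 := hb.1.btw hT hi hi2
    have e2 := hb'.1.btw hT hi hi2
    have d1 := (hb.1.dist hT 0 i).2
    have d2 := (hb'.1.dist hT 0 i).2
    rw [b0] at e1 d1
    rw [b0'] at e2 d2
    rw [b1] at e1
    rw [b1'] at e2
    exact e1.unique hT e2 (d1.trans d2.symm))
  rw [← rb, ← rb']
  refine axis_range_of_pow hF.toGF hb hb' (by rw [b0, b0']) (i := n') (j := n) ?_ ?_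
  · have := h1'.2.1
    omega
  · rw [zpow_natCast, zpow_natCast, he]

theorem Per.of_on {x y s t : V} (h : Per B J p x y) (ho : On B s t x y) (hne : s ≠ t) :
    Per B J p s t := by
  obtain ⟨L, h1, h2, h3⟩ := h
  exact ⟨L, h1, ho.mem hF.acyc (h1.cvx hF) hne h2 h3⟩

/-- A segment `[x, k x]` of a good tree contains a branch vertex. Hint: otherwise `x` is on the
axis of `k` (`br_of_proj`), no vertex of the axis is a branch vertex, `X` is the axis
(`br_of_proj` again), and `FT.isCyclic_of_line` applies. -/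
theorem Good.br_on_seg (h : Good B J X) {k : G} (hk : k ∈ J) (hne : k ≠ 1) {x : V} (hx : x ∈ X) :
    ∃ z ∈ Br B X, Btw B x z (k • x) := by
  have hT := hF.acyc
  by_contra hn
  have hr : B.Reachable x (k • x) := h.toKT.pres hx k hk
  obtain ⟨a, n, ha, hb⟩ := hF.exists_axis hne hr
  have hn0 : (0 : ℤ) < n := by
    have := ha.2.1
    omega
  have hsub : Set.range a ⊆ X := by
    rintro _ ⟨i, rfl⟩
    exact ha.mem_cvx hT hF.acts h.cvx (h.inv.mem_iff hk) hx (hb 0 le_rfl hn0.le).1 i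
  have hnb : ∀ j, a j ∉ Br B X := by
    intro j hj
    have h1 := (Tr.self (J.zpow_mem hk (-(j / n))) h.inv).br hF.acts hj
    rw [ha.zpow_smul] at h1
    have e : j + -(j / n) * n = j % n := by
      rw [Int.emod_def]
      ring
    rw [e] at h1
    exact hn ⟨_, h1, hb _ (Int.emod_nonneg _ hn0.ne') (Int.emod_lt_of_pos _ hn0).le⟩
  refine h.nc (hF.isCyclic_of_line ha.1 fun g hg i => ?_)
  have hz : g • a i ∈ X := h.inv g hg _ (hsub ⟨i, rfl⟩)
  obtain ⟨q, hq, hq'⟩ := (ha.1.cvx hT).exists_proj hT (c := a 0) ⟨0, rfl⟩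
    (h.cvx _ hz _ (hsub ⟨0, rfl⟩)).1
  by_cases e : q = g • a i
  · exact e ▸ hq
  · have := br_of_proj hT h.cvx hsub (ga2_leafless ha.1) hz hq hq' e
    obtain ⟨j, rfl⟩ := hq
    exact (hnb j this).elim

/-- Inner vertices of an arc lie in distinct orbits. -/
theorem Good.inner_free (h : Good B J X) {x y z : V} (ha : Arc B X x y) (hz : Btw B x z y)
    (h1 : z ≠ x) (h2 : z ≠ y) {k : G} (hk : k ∈ J) (hb : Btw B x (k • z) y) : k = 1 := by
  have hT := hF.acyc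
  by_contra hne
  have hzn : z ∉ Br B X := fun hz' => (ha.2.2.2 z hz' hz).elim h1 h2
  have hkn : k • z ∉ Br B X := fun hz' => hzn (by
    simpa using (Tr.self (J.inv_mem hk) h.inv).br hF.acts hz')
  obtain ⟨w, hw, hw'⟩ := h.br_on_seg hF hk hne ((h.cvx _ ha.1.1 _ ha.2.1.1).2 z hz)
  rcases ha.2.2.2 w hw ((cvx_btw hT x y _ hz _ hb).2 w hw') with e | e
  · rw [e] at hw'
    exact ga2_not_btw hT hz hb h1 (fun e' => hkn (e' ▸ ha.1)) hw'
  · rw [e] at hw'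
    exact ga2_not_btw hT hz.symm hb.symm h2 (fun e' => hkn (e' ▸ ha.2.1)) hw'

/-- Hint: `Leafless.exists_far` with `n = nOrb J X + 1`, pigeonhole on the geodesic from `t` on,
`br_on_seg`. -/
theorem Good.br_behind (h : Good B J X) {s t : V} (hs : s ∈ X) (ht : t ∈ X) (hst : B.Adj s t) :
    ∃ y ∈ Br B X, Btw B s t y := by
  have hT := hF.acyc
  obtain ⟨z, hz, hb, hd⟩ := h.leaf.exists_far hT hs ht hst (nOrb J X)
  have hd' : B.dist t z = nOrb J X := by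
    have := hb.2.2
    rw [SimpleGraph.dist_eq_one_iff_adj.2 hst] at this
    omega
  obtain ⟨a, -, -, -, hdd, hbt⟩ := exists_geod hb.2.1
  rw [hd'] at hdd hbt
  have hX : ∀ i ≤ nOrb J X, a i ∈ X := fun i hi => (h.cvx t ht z hz).2 _ (hbt i hi)
  obtain ⟨i, j, hij, hj, k, hk, e⟩ := h.finV.pigeon a hX
  have hne : k ≠ 1 := by
    rintro rfl
    rw [one_smul] at e
    have := (hdd i j hij.le hj).2
    rw [e, SimpleGraph.dist_self] at this
    omega
  obtain ⟨w, hw, hw'⟩ := h.br_on_seg hF hk hne (hX i (by omega))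
  rw [e] at hw'
  exact ⟨w, hw, (hb.trans_right
    ((cvx_btw hT t z _ (hbt i (by omega)) _ (hbt j hj)).2 w hw')).2⟩

theorem Good.br_nonempty (h : Good B J X) : (Br B X).Nonempty := by
  obtain ⟨x, hx⟩ := h.ne
  obtain ⟨y, hy, -, -, hxy, -⟩ := h.leaf x hx
  obtain ⟨w, hw, -⟩ := h.br_behind hF hx hy hxy
  exact ⟨w, hw⟩

theorem Good.exists_on (h : Good B J X) {s t : V} (hs : s ∈ X) (ht : t ∈ X) (hne : s ≠ t) :
    ∃ u ∈ Br B X, ∃ v ∈ Br B X, On B s t u v := by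
  have hT := hF.acyc
  have key : ∀ {s t : V}, s ∈ X → t ∈ X → s ≠ t → ∃ v ∈ Br B X, Btw B s t v := by
    intro s t hs ht hne
    have h1 := sep_nxt hT (h.cvx t ht s hs).1 hne.symm
    obtain ⟨v, hv, hv'⟩ := h.br_behind hF ((h.cvx t ht s hs).2 _ h1.2.2) ht h1.1.symm
    exact ⟨v, hv, (h1.2.2.symm.glue hT hv' h1.1.ne.symm).2⟩
  obtain ⟨v, hv, hv'⟩ := key hs ht hne
  obtain ⟨u, hu, hu'⟩ := key ht hs hne.symm
  exact ⟨u, hu, v, hv, hu'.symm, hv'⟩

theorem Good.arc_of_dart (h : Good B J X) {s t : V} (hs : s ∈ X) (ht : t ∈ X) (hst : B.Adj s t) :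
    ∃ x y, Arc B X x y ∧ On B s t x y := by
  obtain ⟨u, hu, v, hv, ho⟩ := h.exists_on hF hs ht hst.ne
  obtain ⟨x, y, h1, h2, -⟩ := arc_of_on hF.acyc hu hv hst.ne ho
    (fun z _ hz => hz.eq_of_adj hF.acyc hst)
  exact ⟨x, y, h1, h2⟩

/-- An arc of the big tree inside the small tree lies in an arc of the small tree. -/
theorem Good.arc_ext (h : Good B J X) (hsub : X ⊆ X') {s t : V} (ha : Arc B X' s t) (hs : s ∈ X)
    (ht : t ∈ X) : ∃ x y, Arc B X x y ∧ On B s t x y := by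
  obtain ⟨u, hu, v, hv, ho⟩ := h.exists_on hF hs ht ha.2.2.1
  obtain ⟨x, y, h1, h2, -⟩ := arc_of_on hF.acyc hu hv ha.2.2.1 ho
    (fun z hz hz' => ha.2.2.2 z (br_mono hsub hz) hz')
  exact ⟨x, y, h1, h2⟩

/-- An arc that meets a line in two points lies on it. -/
theorem PL.arc_mem {L : Set V} (h : PL B J p L) (hX : KT B J X) {x y s t : V} (ha : Arc B X x y)
    (hne : s ≠ t) (ho : On B s t x y) (hs : s ∈ L) (ht : t ∈ L) : x ∈ L ∧ y ∈ L := by
  exact arc_sub hF.acyc hX.cvx (h.sub hF hX ha.1.1 hs ho.1.1) (h.cvx hF) (h.leafless hF) ha hne ho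
    hs ht

/-- Every arc of the big tree has a translate in a compressed subtree. -/
theorem Cmp.arc (hc : Cmp J J') (h : Good B J X) (h' : Good B J' X') (hsub : X ⊆ X') {s t : V}
    (ha : Arc B X' s t) : ∃ k ∈ J', k • s ∈ X ∧ k • t ∈ X := by
  have hT := hF.acyc
  have hc' := h'.cvx s ha.1.1 t ha.2.1.1
  have h1 := sep_nxt hT hc'.1 ha.2.2.1
  obtain ⟨k, hk, h2⟩ := hc V B X' X hF.toGF h'.toKC h'.leaf h.toKT hsub (s, nxt B s t)
    ⟨h1.1, ha.1.1, hc'.2 _ h1.2.2⟩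
  exact ⟨k, hk, arc_sub hT h'.cvx hsub h.cvx h.leaf ((Tr.self hk h'.inv).arc hF.acts ha) h2.1.ne
    (on_smul hF.acts k ⟨h1.2.1, h1.2.2⟩) h2.2.1 h2.2.2⟩

/-- The number of arcs. Hint: `(x, y) ↦ (x, nxt B x y)` is injective (`arc_unique`) and
equivariant, `nOrb_le_of_inj`, `FT.branch_count`. -/
theorem Good.arc_count (h : Good B J X) :
    FinOrb J {e : V × V | Arc B X e.1 e.2} ∧ nOrb J {e : V × V | Arc B X e.1 e.2} ≤ 6 * beta J := by
  have hT := hF.acyc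
  have h0 : FinOrb J {e | e ∈ DartsIn B X ∧ 3 ≤ {y | y ∈ X ∧ B.Adj e.1 y}.ncard} :=
    h.finE.mono fun _ he => he.1
  have h1 := nOrb_le_of_inj (K := J) (S := {e : V × V | Arc B X e.1 e.2}) h0
    (fun e => (e.1, nxt B e.1 e.2)) (by
      rintro ⟨x, y⟩ ha
      have hc' := h.cvx x ha.1.1 y ha.2.1.1
      have h1 := sep_nxt hT hc'.1 ha.2.2.1
      refine ⟨⟨h1.1, ha.1.1, hc'.2 _ h1.2.2⟩, ?_⟩
      obtain ⟨-, y₁, a1, y₂, a2, y₃, a3, b1, b2, b3, c1, c2, c3⟩ := ha.1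
      exact (Set.two_lt_ncard_iff ((hF.lf x).subset fun _ hy => hy.2)).2
        ⟨y₁, y₂, y₃, ⟨a1, b1⟩, ⟨a2, b2⟩, ⟨a3, b3⟩, c1, c2, c3⟩) (by
      rintro ⟨x, y⟩ ha ⟨x', y'⟩ ha' ⟨k, hk, e⟩
      have h1 := sep_nxt hT (h.cvx x ha.1.1 y ha.2.1.1).1 ha.2.2.1
      have h2 := sep_nxt hT (h.cvx x' ha'.1.1 y' ha'.2.1.1).1 ha'.2.2.1
      have h3 := on_smul hF.acts k (⟨h1.2.1, h1.2.2⟩ : On B x (nxt B x y) x y)
      have e1 : k • x = x' := congrArg Prod.fst e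
      have e2 : k • nxt B x y = nxt B x' y' := congrArg Prod.snd e
      have ha2 := (Tr.self hk h.inv).arc hF.acts ha
      simp only [e1, e2] at h3 ha2
      exact ⟨k, hk, Prod.ext e1 (arc_unique hT h.cvx ha2 ha' h2.1.ne h3 ⟨h2.2.1, h2.2.2⟩).2⟩)
  exact ⟨h1.1, h1.2.trans (hF.branch_count h.fg h.toKC h.leaf).1⟩

/-- From a branch vertex on a line one reaches a long arc on the line. -/
theorem Lin.first (hX : Cvx B X) {L : Set V} (h : Lin B p l J X L) {x : V} (hx : x ∈ Br B X)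
    (hL : x ∈ L) : ∃ u v, Long B l X u v ∧ u ∈ L ∧ v ∈ L ∧ Sh B l X x u := by
  obtain ⟨h1, x0, y0, h2, h3, h4⟩ := h
  by_cases hs : Sh B l X x x0
  · exact ⟨x0, y0, h2, h3, h4, hs⟩
  · obtain ⟨u, v, a1, a2, a3⟩ := first_long hF.acyc hx h2.1.1 hs
    obtain ⟨b1, b2⟩ := a2.mem hF.acyc (h1.cvx hF) a1.1.2.2.1 hL h3
    exact ⟨u, v, a1, b1, b2, a3⟩

theorem Lin.sub (hX : KT B J X) {L : Set V} (h : Lin B p l J X L) : L ⊆ X := by
  obtain ⟨h1, x0, y0, h2, h3, -⟩ := h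
  exact h1.sub hF hX h2.1.1.1 h3 (SimpleGraph.Reachable.refl _)

/-- A line is not a short class. -/
theorem Lin.ne_cls (hX : Cvx B X) {L : Set V} (h : Lin B p l J X L) (x : V) :
    L ≠ cls B l X x := by
  obtain ⟨-, x0, y0, h2, h3, h4⟩ := h
  rintro rfl
  exact h2.not_sh hX (Sh.trans hF.acyc hX (Sh.symm h3) h4)

end Free

section Fam

variable {Φ : Type} [MulAction G Φ] {ρ : ℕ} {Y : Φ → Set V}

theorem Fam.inv_AE (h : Fam B G ρ Y) : Inv (⊤ : Subgroup G) (AE B Y) := by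
  exact fun g _ t ht => (h.tr g t.1).arc h.ff.acts ht

theorem Fam.inv_OE (h : Fam B G ρ Y) : Inv (⊤ : Subgroup G) (OE B G p l Y) := by
  exact fun g _ t ht => (h.tr g t.1).ord h.ff.acts ht

theorem Fam.count_AE (h : Fam B G ρ Y) : FinOrb (⊤ : Subgroup G) (AE B Y) ∧
    nOrb (⊤ : Subgroup G) (AE B Y) ≤ nOrb (⊤ : Subgroup G) (Set.univ : Set Φ) * (6 * ρ) := by
  refine nOrb_fib (AE B Y) (6 * ρ) h.fin h.inv_AE fun φ => ?_
  rw [← h.rk φ]
  exact (h.good φ).arc_count h.ff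

theorem Fam.count_OE (h : Fam B G ρ Y) : FinOrb (⊤ : Subgroup G) (OE B G p l Y) ∧
    nOrb (⊤ : Subgroup G) (OE B G p l Y) ≤ nOrb (⊤ : Subgroup G) (AE B Y) := by
  have hs : OE B G p l Y ⊆ AE B Y := fun _ ht => ht.1.1
  exact ⟨h.count_AE.1.mono hs, nOrb_mono h.count_AE.1 hs⟩

theorem Fam.fin_VE (h : Fam B G ρ Y) : FinOrb (⊤ : Subgroup G) (VE Y) := by
  exact finOrb_fib (VE Y) h.fin (fun g _ t ht => h.smul g t.1 t.2 ht) fun φ => (h.good φ).finV

theorem Fam.allCyc_iff (h : Fam B G ρ Y) :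
    AllCyc B G p l Y ↔ nOrb (⊤ : Subgroup G) (OE B G p l Y) = 0 := by
  rw [nOrb_eq_zero_iff h.count_OE.1]
  constructor
  · exact fun hc => Set.eq_empty_of_forall_notMem fun t ht => ht.2 (hc _ _ _ ht.1)
  · intro he φ x y hl
    by_contra hn
    have : (φ, x, y) ∈ OE B G p l Y := ⟨hl, hn⟩
    rw [he] at this
    exact this

end Fam

end Gap
end CPOR
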