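import Pool.Agent.P.MP_2cb329_al.F.C1

/-! F7 (gap trick): definitions and transport of the definitions along group elements. -/

set_option autoImplicit false

namespace CPOR
namespace Gap
open ZT MulAction Pointwise

/-- The constants of the gap trick. -/
structure Cst (ρ : ℕ) where
  C : ℕ
  F : ℕ → ℕ
  p : ℕ
  P : ℕ
  l : ℕ
  Λ : ℕ
  mono : Monotone F
  one : 1 ≤ C
  hCp : C * C ≤ p
  hpP : p ≤ P
  hFp : F p ≤ P
  hCl : C * p ≤ l
  hPl : P * P ≤ l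
  hlΛ : l ≤ Λ
  hCΛ : C ≤ Λ
  hFl : F l ≤ Λ
  hΛ : 6 * ρ * (l + 1) * C < Λ

section Local

variable {V : Type} (B : SimpleGraph V)

/-- Branch vertices of `X`. -/
def Br (X : Set V) : Set V :=
  {x | x ∈ X ∧ ∃ y₁ ∈ X, ∃ y₂ ∈ X, ∃ y₃ ∈ X, B.Adj x y₁ ∧ B.Adj x y₂ ∧ B.Adj x y₃ ∧
    y₁ ≠ y₂ ∧ y₁ ≠ y₃ ∧ y₂ ≠ y₃}

/-- `[x, y]` is an arc of `X`: two branch vertices with no branch vertex in between. -/
def Arc (X : Set V) (x y : V) : Prop :=
  x ∈ Br B X ∧ y ∈ Br B X ∧ x ≠ y ∧ ∀ z ∈ Br B X, Btw B x z y → z = x ∨ z = y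

/-- For `x ≠ y`: the points `u, x, y, v` are aligned in this order. -/
def On (x y u v : V) : Prop := Btw B u x y ∧ Btw B x y v

/-- Long arcs. -/
def Long (l : ℕ) (X : Set V) (x y : V) : Prop := Arc B X x y ∧ l < B.dist x y

/-- Branch vertices that are not separated by a long arc. -/
def Sh (l : ℕ) (X : Set V) (x y : V) : Prop :=
  x ∈ Br B X ∧ y ∈ Br B X ∧ ∀ u v, Long B l X u v → ¬ On B u v x y

/-- The short class of a branch vertex. -/
def cls (l : ℕ) (X : Set V) (x : V) : Set V := {y | Sh B l X x y}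

variable {G : Type} [Group G] [MulAction G V]

/-- `L` is the axis of an element of length at most `p` with a power in `J`. -/
def PL (J : Subgroup G) (p : ℕ) (L : Set V) : Prop :=
  ∃ (c : G) (a : ℤ → V) (n M : ℕ), IsAxis B c a n ∧ n ≤ p ∧ 1 ≤ M ∧ c ^ M ∈ J ∧ L = Set.range a

/-- `x` and `y` lie on a common `p`-line. -/
def Per (J : Subgroup G) (p : ℕ) (x y : V) : Prop := ∃ L, PL B J p L ∧ x ∈ L ∧ y ∈ L

/-- Ordinary arcs. -/
def Ordi (p l : ℕ) (J : Subgroup G) (X : Set V) (x y : V) : Prop :=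
  Long B l X x y ∧ ¬ Per B J p x y

/-- Branch vertices that are not separated by an ordinary arc. -/
def ShO (p l : ℕ) (J : Subgroup G) (X : Set V) (x y : V) : Prop :=
  x ∈ Br B X ∧ y ∈ Br B X ∧ ∀ u v, Ordi B p l J X u v → ¬ On B u v x y

/-- Lines that carry a long arc. -/
def Lin (p l : ℕ) (J : Subgroup G) (X : Set V) (L : Set V) : Prop :=
  PL B J p L ∧ ∃ x y, Long B l X x y ∧ x ∈ L ∧ y ∈ L

/-- A line and a short class that meet. -/
def Inc (p l : ℕ) (J : Subgroup G) (X : Set V) (L C : Set V) : Prop :=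
  Lin B p l J X L ∧ ∃ x ∈ Br B X, x ∈ L ∧ C = cls B l X x

/-- No arc length in `(l, Λ]` and no period in `(p, P]`. -/
structure HasGap (p P l Λ : ℕ) (J : Subgroup G) (X : Set V) : Prop where
  len : ∀ x y, Arc B X x y → B.dist x y ≤ l ∨ Λ < B.dist x y
  per : ∀ x y, Arc B X x y → Per B J P x y → Per B J p x y

/-- A leafless cocompact tree of a finitely generated non-cyclic group. -/
structure Good (J : Subgroup G) (X : Set V) : Prop extends KC B J X where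
  leaf : Leafless B X
  fg : J.FG
  nc : ¬ IsCyclic J

/-- The source side: `J = J' ⊓ H`, where `H` has few orbits on `Z` and is almost malnormal. -/
structure SrcH (C : ℕ) (J J' H : Subgroup G) (X X' Z : Set V) : Prop where
  good : Good B J X
  good' : Good B J' X'
  sub : X ⊆ X'
  eq : J = J' ⊓ H
  subZ : X ⊆ Z
  finZ : FinOrb H Z
  nZ : nOrb H Z ≤ C
  cl : ∀ h ∈ J', h ∉ H → ∀ c ∈ H, h⁻¹ * c * h ∈ H → c ≠ 1 → ∃ M : ℕ, 1 ≤ M ∧ c ^ M ∈ J'

/-- One half of a coarse correspondence between the branch vertices of two `J`-trees. -/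
structure Cor1 (C : ℕ) (F : ℕ → ℕ) (J : Subgroup G) (X X' : Set V) (r : V → V → Prop) : Prop where
  good : Good B J X
  dom : ∀ x x', r x x' → x ∈ Br B X
  tot : ∀ x ∈ Br B X, ∃ x', r x x'
  smul : ∀ k ∈ J, ∀ x x', r x x' → r (k • x) (k • x')
  lip : ∀ x x' y y', r x x' → r y y' → B.dist x' y' ≤ F (B.dist x y)
  bcc : ∀ x x' y y' z z', r x x' → r y y' → r z z' → Btw B x z y →
    ∃ w, Btw B x' w y' ∧ B.dist z' w ≤ C
  per : ∀ (c : G) (a : ℤ → V) (n : ℕ), IsAxis B c a n → Set.range a ⊆ X →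
    ∃ (j : ℕ) (a' : ℤ → V) (n' : ℕ), 1 ≤ j ∧ IsAxis B (c ^ j) a' n' ∧ n' ≤ F n ∧
      ∃ x' ∈ X', B.Reachable x' (a' 0)

/-- Coarse correspondences. -/
def Cor (C : ℕ) (F : ℕ → ℕ) (J : Subgroup G) (X X' : Set V) (r : V → V → Prop) : Prop :=
  Cor1 B C F J X X' r ∧ Cor1 B C F J X' X (flip r)

/-- Corresponding long arcs. -/
def ACor (l : ℕ) (X X' : Set V) (r : V → V → Prop) (x y x' y' : V) : Prop :=
  Long B l X x y ∧ Long B l X' x' y' ∧ ∃ u v, r x u ∧ r y v ∧ Sh B l X' u x' ∧ Sh B l X' v y'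

/-- Corresponding lines. -/
def LCor (p l : ℕ) (J : Subgroup G) (X X' : Set V) (r : V → V → Prop) (L L' : Set V) : Prop :=
  PL B J p L ∧ PL B J p L' ∧
    ∃ x y x' y', ACor B l X X' r x y x' y' ∧ x ∈ L ∧ y ∈ L ∧ x' ∈ L' ∧ y' ∈ L'

/-- The hypotheses of the level change. -/
structure LCH {ρ : ℕ} (κ : Cst ρ) (J : Subgroup G) (X X' : Set V) (r : V → V → Prop) : Prop where
  ff : FT B G
  cor : Cor B κ.C κ.F J X X' r
  gap : HasGap B κ.p κ.P κ.l κ.Λ J X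
  gap' : HasGap B κ.p κ.P κ.l κ.Λ J X'

variable {B}

theorem LCH.symm {ρ : ℕ} {κ : Cst ρ} {J : Subgroup G} {X X' : Set V} {r : V → V → Prop}
    (h : LCH B κ J X X' r) : LCH B κ J X' X (flip r) :=
  ⟨h.ff, ⟨h.cor.2, h.cor.1⟩, h.gap', h.gap⟩

/-- `K` is compressed in `K'`: a `K`-invariant subtree of a free splitting of `K'` meets all
orbits of edges. -/
def Cmp (K K' : Subgroup G) : Prop :=
  ∀ (W : Type) [MulAction G W] (T : SimpleGraph W) (X D : Set W), GF T G → KC T K' X →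
    Leafless T X → KT T K D → D ⊆ X → ∀ e ∈ DartsIn T X, ∃ k ∈ K', k • e ∈ DartsIn T D

theorem cmp_refl (K : Subgroup G) : Cmp K K := by
  intro W _ T X D hG hX hl hD hs e he
  rw [hX.eq_of_leafless hG hl hD hs]
  exact ⟨1, K.one_mem, by simpa using he⟩

/-- `g` carries `(J, X)` to `(J', X')`. -/
structure Tr (g : G) (J J' : Subgroup G) (X X' : Set V) : Prop where
  hX : ∀ z, g • z ∈ X' ↔ z ∈ X
  hJ : ∀ k, g * k * g⁻¹ ∈ J' ↔ k ∈ J

theorem Tr.inv {g : G} {J J' : Subgroup G} {X X' : Set V} (h : Tr g J J' X X') :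
    Tr g⁻¹ J' J X' X := by
  refine ⟨fun z => ?_, fun k => ?_⟩
  · rw [← h.hX, smul_inv_smul]
  · rw [← h.hJ]
    simp [mul_assoc]

theorem Tr.self {k : G} {J : Subgroup G} {X : Set V} (hk : k ∈ J) (hX : Inv J X) :
    Tr k J J X X := by
  refine ⟨fun z => ⟨fun h => ?_, hX k hk z⟩, fun c => ⟨fun h => ?_, fun h => ?_⟩⟩
  · simpa using hX k⁻¹ (J.inv_mem hk) _ h
  · have := J.mul_mem (J.mul_mem (J.inv_mem hk) h) hk
    simpa [mul_assoc] using this
  · exact J.mul_mem (J.mul_mem hk h) (J.inv_mem hk)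

theorem on_smul (hA : Acts B G) (g : G) {x y u v : V} (h : On B x y u v) :
    On B (g • x) (g • y) (g • u) (g • v) := ⟨hA.btw g h.1, hA.btw g h.2⟩

section Tr

variable (hA : Acts B G) {g : G} {J J' : Subgroup G} {X X' : Set V} (h : Tr g J J' X X')
include hA h

theorem Tr.br {x : V} (hx : x ∈ Br B X) : g • x ∈ Br B X' := by
  obtain ⟨h0, y₁, a1, y₂, a2, y₃, a3, b1, b2, b3, c1, c2, c3⟩ := hx
  exact ⟨(h.hX _).2 h0, g • y₁, (h.hX _).2 a1, g • y₂, (h.hX _).2 a2, g • y₃, (h.hX _).2 a3,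
    hA g _ _ b1, hA g _ _ b2, hA g _ _ b3, fun e => c1 (smul_left_cancel g e),
    fun e => c2 (smul_left_cancel g e), fun e => c3 (smul_left_cancel g e)⟩

theorem Tr.arc {x y : V} (hx : Arc B X x y) : Arc B X' (g • x) (g • y) := by
  refine ⟨h.br hA hx.1, h.br hA hx.2.1, fun e => hx.2.2.1 (smul_left_cancel g e),
    fun z hz hb => ?_⟩
  have h1 := hA.btw g⁻¹ hb
  rw [inv_smul_smul, inv_smul_smul] at h1
  rcases hx.2.2.2 _ (h.inv.br hA hz) h1 with e | e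
  · exact Or.inl (by rw [← e, smul_inv_smul])
  · exact Or.inr (by rw [← e, smul_inv_smul])

theorem Tr.long {l : ℕ} {x y : V} (hx : Long B l X x y) : Long B l X' (g • x) (g • y) :=
  ⟨h.arc hA hx.1, by rw [hA.dist]; exact hx.2⟩

theorem Tr.sh {l : ℕ} {x y : V} (hx : Sh B l X x y) : Sh B l X' (g • x) (g • y) := by
  refine ⟨h.br hA hx.1, h.br hA hx.2.1, fun u v huv ho => ?_⟩
  have h1 := on_smul hA g⁻¹ ho
  rw [inv_smul_smul, inv_smul_smul] at h1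
  exact hx.2.2 _ _ (h.inv.long hA huv) h1

theorem Tr.cls (l : ℕ) (x : V) : g • cls B l X x = cls B l X' (g • x) := by
  ext y
  rw [Set.mem_smul_set_iff_inv_smul_mem]
  constructor
  · intro hy
    simpa [Gap.cls] using h.sh hA hy
  · intro hy
    simpa [Gap.cls] using h.inv.sh hA hy

theorem Tr.pl {p : ℕ} {L : Set V} (hL : PL B J p L) : PL B J' p (g • L) := by
  obtain ⟨c, a, n, M, h1, h2, h3, h4, rfl⟩ := hL
  refine ⟨g * c * g⁻¹, fun i => g • a i, n, M, h1.conj hA g, h2, h3, ?_, ?_⟩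
  · rw [conj_pow]
    exact (h.hJ _).2 h4
  · rw [Set.smul_set_range]

theorem Tr.per {p : ℕ} {x y : V} (hx : Per B J p x y) : Per B J' p (g • x) (g • y) := by
  obtain ⟨L, h1, h2, h3⟩ := hx
  exact ⟨g • L, h.pl hA h1, Set.smul_mem_smul_set h2, Set.smul_mem_smul_set h3⟩

theorem Tr.ord {p l : ℕ} {x y : V} (hx : Ordi B p l J X x y) : Ordi B p l J' X' (g • x) (g • y) := by
  refine ⟨h.long hA hx.1, fun hp => hx.2 ?_⟩
  simpa using h.inv.per hA hp

theorem Tr.shO {p l : ℕ} {x y : V} (hx : ShO B p l J X x y) :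
    ShO B p l J' X' (g • x) (g • y) := by
  refine ⟨h.br hA hx.1, h.br hA hx.2.1, fun u v huv ho => ?_⟩
  have h1 := on_smul hA g⁻¹ ho
  rw [inv_smul_smul, inv_smul_smul] at h1
  exact hx.2.2 _ _ (h.inv.ord hA huv) h1

theorem Tr.lin {p l : ℕ} {L : Set V} (hL : Lin B p l J X L) : Lin B p l J' X' (g • L) := by
  obtain ⟨h1, x, y, h2, h3, h4⟩ := hL
  exact ⟨h.pl hA h1, g • x, g • y, h.long hA h2, Set.smul_mem_smul_set h3,
    Set.smul_mem_smul_set h4⟩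

theorem Tr.inc {p l : ℕ} {L C : Set V} (hL : Inc B p l J X L C) :
    Inc B p l J' X' (g • L) (g • C) := by
  obtain ⟨h1, x, h2, h3, rfl⟩ := hL
  exact ⟨h.lin hA h1, g • x, h.br hA h2, Set.smul_mem_smul_set h3, h.cls hA l x⟩

end Tr

end Local

section Families

variable {V : Type} (B : SimpleGraph V) (G : Type) [Group G] [MulAction G V]
variable {Φ Ψ : Type} [MulAction G Φ] [MulAction G Ψ]

/-- An equivariant family of good trees of rank `ρ`. -/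
structure Fam (ρ : ℕ) (X : Φ → Set V) : Prop where
  ff : FT B G
  smul : ∀ (g : G) (φ : Φ) (x : V), x ∈ X φ → g • x ∈ X (g • φ)
  good : ∀ φ, Good B (stabilizer G φ) (X φ)
  rk : ∀ φ : Φ, beta (stabilizer G φ) = ρ
  fin : FinOrb (⊤ : Subgroup G) (Set.univ : Set Φ)

/-- The trees `Y ψ` are compressed subtrees of the trees `X (i ψ)`. -/
structure Incl (ρ : ℕ) (X : Φ → Set V) (Y : Ψ → Set V) (i : Ψ → Φ) : Prop where
  fX : Fam B G ρ X
  fY : Fam B G ρ Y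
  smul : ∀ (g : G) (ψ : Ψ), i (g • ψ) = g • i ψ
  surj : Function.Surjective i
  sub : ∀ ψ, Y ψ ⊆ X (i ψ)
  cmp : ∀ ψ, Cmp (stabilizer G ψ) (stabilizer G (i ψ))

/-- One level of the tower of windows. -/
structure Lev (ρ C : ℕ) (F : ℕ → ℕ) (X : Φ → Set V) (Y T : Ψ → Set V) (i τ : Ψ → Φ)
    (r : Ψ → V → V → Prop) : Prop where
  inS : Incl B G ρ X Y i
  inT : Incl B G ρ X T τ
  orb : ∀ ψ ψ', i ψ = i ψ' → ∃ h : G, h • ψ = ψ'
  src : ∀ ψ, ∃ H Z, SrcH B C (stabilizer G ψ) (stabilizer G (i ψ)) H (Y ψ) (X (i ψ)) Z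
  r_smul : ∀ (g : G) ψ x x', r ψ x x' → r (g • ψ) (g • x) (g • x')
  cor : ∀ ψ, Cor B C F (stabilizer G ψ) (Y ψ) (T ψ) (r ψ)

/-- Vertices of a family. -/
def VE (X : Φ → Set V) : Set (Φ × V) := {t | t.2 ∈ X t.1}

/-- Arcs of a family. -/
def AE (X : Φ → Set V) : Set (Φ × V × V) := {t | Arc B (X t.1) t.2.1 t.2.2}

/-- Ordinary arcs of a family. -/
def OE (p l : ℕ) (X : Φ → Set V) : Set (Φ × V × V) :=
  {t | Ordi B p l (stabilizer G t.1) (X t.1) t.2.1 t.2.2}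

/-- All members of the family have the gaps. -/
def FGap {ρ : ℕ} (κ : Cst ρ) (X : Φ → Set V) : Prop :=
  ∀ φ, HasGap B κ.p κ.P κ.l κ.Λ (stabilizer G φ) (X φ)

/-- All long arcs are cyclic. -/
def AllCyc (p l : ℕ) (X : Φ → Set V) : Prop :=
  ∀ φ x y, Long B l (X φ) x y → Per B (stabilizer G φ) p x y

/-- An arc of `Y ψ` contains at most one ordinary arc of `X (i ψ)`. -/
def StO (p l : ℕ) (X : Φ → Set V) (Y : Ψ → Set V) (i : Ψ → Φ) : Prop :=
  ∀ ψ x y u v u' v', Arc B (Y ψ) x y → Ordi B p l (stabilizer G (i ψ)) (X (i ψ)) u v →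
    Ordi B p l (stabilizer G (i ψ)) (X (i ψ)) u' v' → On B u v x y → On B u' v' x y →
    u = u' ∧ v = v'

/-- Forward connectedness of a system of arrows `i ψ → τ ψ`. -/
def FC (i τ : Ψ → Φ) : Prop :=
  ∀ P : Set Φ, P.Nonempty → Inv (⊤ : Subgroup G) P → (∀ φ ∈ P, ∃ ψ, i ψ = φ ∧ τ ψ ∈ P) →
    ∀ φ, φ ∈ P

variable {B G}

theorem Fam.tr {ρ : ℕ} {X : Φ → Set V} (h : Fam B G ρ X) (g : G) (φ : Φ) :
    Tr g (stabilizer G φ) (stabilizer G (g • φ)) (X φ) (X (g • φ)) := by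
  refine ⟨fun z => ⟨fun hz => ?_, h.smul g φ z⟩, fun k => ?_⟩
  · simpa using h.smul g⁻¹ _ _ hz
  · simp [mem_stabilizer_iff, mul_smul]

theorem Lev.lch {ρ : ℕ} {κ : Cst ρ} {X : Φ → Set V} {Y T : Ψ → Set V} {i τ : Ψ → Φ}
    {r : Ψ → V → V → Prop} (h : Lev B G ρ κ.C κ.F X Y T i τ r) (hY : FGap B G κ Y)
    (hT : FGap B G κ T) (ψ : Ψ) : LCH B κ (stabilizer G ψ) (Y ψ) (T ψ) (r ψ) :=
  ⟨h.inS.fX.ff, h.cor ψ, hY ψ, hT ψ⟩

/-- Vertices of the forest of arcs. -/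
def AV {ρ : ℕ} {X : Φ → Set V} (h : Fam B G ρ X) : SubMulAction G (Φ × V) where
  carrier := {u | u.2 ∈ Br B (X u.1)}
  smul_mem' := fun g u hu => (h.tr g u.1).br h.ff.acts hu

/-- The forest of arcs. -/
def AG {ρ : ℕ} {X : Φ → Set V} (h : Fam B G ρ X) : SimpleGraph (AV h) :=
  SimpleGraph.fromRel fun u v => u.1.1 = v.1.1 ∧ Arc B (X u.1.1) u.1.2 v.1.2

/-- Vertices of the incidence forest: lines and short classes. -/
def IV {ρ : ℕ} {X : Φ → Set V} (h : Fam B G ρ X) (p l : ℕ) : SubMulAction G (Φ × Set V) where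
  carrier := {u | Lin B p l (stabilizer G u.1) (X u.1) u.2 ∨
    ∃ x ∈ Br B (X u.1), u.2 = cls B l (X u.1) x}
  smul_mem' := by
    rintro g ⟨φ, S⟩ (hu | ⟨x, hx, hu⟩)
    · exact Or.inl ((h.tr g φ).lin h.ff.acts hu)
    · refine Or.inr ⟨g • x, (h.tr g φ).br h.ff.acts hx, ?_⟩
      have e : S = cls B l (X φ) x := hu
      show g • S = cls B l (X (g • φ)) (g • x)
      rw [e, (h.tr g φ).cls h.ff.acts]

/-- The incidence forest. -/
def IG {ρ : ℕ} {X : Φ → Set V} (h : Fam B G ρ X) (p l : ℕ) : SimpleGraph (IV h p l) :=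
  SimpleGraph.fromRel fun u v =>
    u.1.1 = v.1.1 ∧ Inc B p l (stabilizer G u.1.1) (X u.1.1) u.1.2 v.1.2

end Families

section Forests

variable {W U : Type} (T : SimpleGraph W) (G : Type) [Group G] [MulAction G W] [MulAction G U]
variable {Φ : Type} [MulAction G Φ]

/-- A cocompact forest with trivial edge stabilisers whose components are the points of `Φ`. -/
structure Ovr (ν : W → Φ) : Prop where
  gf : GF T G
  finW : FinOrb (⊤ : Subgroup G) (Set.univ : Set W)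
  finE : FinOrb (⊤ : Subgroup G) (Darts T)
  ν_smul : ∀ (g : G) (x : W), ν (g • x) = g • ν x
  ν_surj : Function.Surjective ν
  ν_eq : ∀ x y, ν x = ν y ↔ T.Reachable x y

/-- No vertex of valence one. -/
def NL : Prop := ∀ u v, T.Adj u v → ∃ w, T.Adj u w ∧ w ≠ v

/-- `x` and `y` are not separated by a dart in `Kp`. -/
def Eqv (Kp : Set (W × W)) (x y : W) : Prop := T.Reachable x y ∧ ∀ e ∈ Kp, ¬ Sep T e x y

/-- A graph map that is bijective on darts. -/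
structure DB (TU : SimpleGraph U) (T : SimpleGraph W) (σ : U → W) : Prop where
  adj : ∀ u v, TU.Adj u v → T.Adj (σ u) (σ v)
  inj : ∀ u v u' v', TU.Adj u v → TU.Adj u' v' → σ u = σ u' → σ v = σ v' → u = u' ∧ v = v'
  surj : ∀ x y, T.Adj x y → ∃ u v, TU.Adj u v ∧ σ u = x ∧ σ v = y

theorem DB.comp {U' : Type} {T₁ : SimpleGraph U'} {T₂ : SimpleGraph U} {T₃ : SimpleGraph W}
    {σ : U' → U} {τ : U → W} (h : DB T₁ T₂ σ) (h' : DB T₂ T₃ τ) : DB T₁ T₃ (fun u => τ (σ u)) := by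
  refine ⟨fun u v a => h'.adj _ _ (h.adj _ _ a), fun u v u' v' a a' e e' => ?_, fun x y a => ?_⟩
  · obtain ⟨e1, e2⟩ := h'.inj _ _ _ _ (h.adj _ _ a) (h.adj _ _ a') e e'
    exact h.inj _ _ _ _ a a' e1 e2
  · obtain ⟨u, v, b, rfl, rfl⟩ := h'.surj x y a
    obtain ⟨u', v', b', rfl, rfl⟩ := h.surj u v b
    exact ⟨u', v', b', rfl, rfl⟩

end Forests

section Machines

variable {G : Type} [Group G] {N : Type} [MulAction G N] {S : Sys G N}
variable {W : Type} [MulAction G W]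

/-- A forest over the nodes is a splitting. -/
def Ovr.spl (S : Sys G N) {T : SimpleGraph W} {ν : W → N} (h : Ovr T G ν) : Spl S W :=
  ⟨T, h.gf, h.finW, h.finE, ν, h.ν_smul, h.ν_surj, h.ν_eq⟩

theorem ovr_of_spl (Z : Spl S W) : Ovr Z.T G Z.ν :=
  ⟨Z.gf, Z.finW, Z.finE, Z.ν_smul, Z.ν_surj, Z.ν_eq⟩

/-- `R` induces partial maps after collapsing all darts outside `Kp`. -/
def Closed (Z : Spl S W) (R : S.A → W → W → Prop) (Kp : Set (W × W)) : Prop :=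
  ∀ a x y x' y', R a x y → R a x' y' → Eqv Z.T Kp x x' → Eqv Z.T Kp y y'

/-- A relation that becomes a monotone partial map after collapsing all darts outside `Kp`. -/
structure RelM (Z : Spl S W) (R : S.A → W → W → Prop) (Kp : Set (W × W)) : Prop where
  sym : SymInv G Kp
  sub : Kp ⊆ Darts Z.T
  smul : ∀ (g : G) a x y, R a x y → R (g • a) (g • x) (g • y)
  src : ∀ a x y, R a x y → Z.ν x = S.src a
  tgt : ∀ a x y, R a x y → Z.ν y = S.tgt a
  ne : ∀ a, ∃ x y, R a x y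
  fin : FinOrb (⊤ : Subgroup G) {τ : S.A × W × W | R τ.1 τ.2.1 τ.2.2}
  func : Closed Z R Kp
  cvx : ∀ a x y x' y' z, R a x y → R a x' y' → Btw Z.T x z x' →
    ∃ z₁ w₁ w, Eqv Z.T Kp z z₁ ∧ R a z₁ w₁ ∧ Eqv Z.T Kp w₁ w ∧ Btw Z.T y w y'
  out : ∀ e ∈ Kp, ∃! a, ∃ x y x' y', R a x y ∧ R a x' y' ∧ Sep Z.T e x x'
  onto : ∀ e ∈ Kp, ∃ a x y x' y', R a x y ∧ R a x' y' ∧ Sep Z.T e y y'

/-- No proper collapse. -/
def NoCol (Z : Spl S W) (R : S.A → W → W → Prop) : Prop :=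
  ∀ Kp : Set (W × W), Kp ⊆ Darts Z.T → SymInv G Kp → Kp.Nonempty → Closed Z R Kp → Darts Z.T ⊆ Kp

/-- The image of the dart `e` crosses the dart `e'`. -/
def Pred {Z : Spl S W} (M : Mach Z) (e e' : W × W) : Prop :=
  Z.T.Adj e.1 e.2 ∧ ∃ a w w', M.R a e.1 w ∧ M.R a e.2 w' ∧ Sep Z.T e' w w'

/-- Irreducible machines. -/
structure Irr {Z : Spl S W} (M : Mach Z) : Prop where
  out : ∀ x x', Z.T.Adj x x' → ∃! a, (∃ y, M.R a x y) ∧ ∃ y', M.R a x' y'
  onto : ∀ e' ∈ Darts Z.T, ∃ e, Pred M e e'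
  irr : ∀ Kp : Set (W × W), Kp ⊆ Darts Z.T → SymInv G Kp → Kp.Nonempty →
    (∀ e e', Pred M e e' → e' ∈ Kp → e ∈ Kp) → Darts Z.T ⊆ Kp

end Machines

section Windows

variable {G : Type} [Group G] {N : Type} [MulAction G N] (S : Sys G N)
variable {Φ Ψ : Type} [MulAction G Φ] [MulAction G Ψ]

/-- `Φ` is the set of non-cyclic windows of length `m`. -/
structure WS (m : ℕ) (w : Φ → ℤ → S.A) : Prop where
  pos : 1 ≤ m
  smul : ∀ (g : G) (φ : Φ) (l : ℤ), 0 ≤ l → l < m → w (g • φ) l = g • w φ l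
  inj : ∀ φ φ', (∀ l : ℤ, 0 ≤ l → l < m → w φ l = w φ' l) → φ = φ'
  path : ∀ φ, S.IsPath (w φ) 0 m
  nc : ∀ φ, ¬ IsCyclic (S.Fix (w φ) 0 m)
  surj : ∀ (a : ℤ → S.A) (i : ℤ), S.IsPath a i (i + m) → ¬ IsCyclic (S.Fix a i (i + m)) →
    ∃ φ, ∀ l : ℤ, 0 ≤ l → l < m → w φ l = a (i + l)

/-- `i` forgets the last arrow and `τ` forgets the first arrow. -/
structure WC (m : ℕ) (w : Φ → ℤ → S.A) (w' : Ψ → ℤ → S.A) (i τ : Ψ → Φ) : Prop where
  ws : WS S m w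
  ws' : WS S (m + 1) w'
  init : ∀ (ψ : Ψ) (l : ℤ), 0 ≤ l → l < m → w (i ψ) l = w' ψ l
  tail : ∀ (ψ : Ψ) (l : ℤ), 0 ≤ l → l < m → w (τ ψ) l = w' ψ (l + 1)

/-- The minimal tree of a window at its last node. -/
def XW (m : ℕ) (w : Φ → ℤ → S.A) (φ : Φ) : Set S.V :=
  S.Min (stabilizer G φ) (S.tgt (w φ (m - 1)))

/-- The minimal tree of a window at the source of its last arrow. -/
def YW (m : ℕ) (w : Φ → ℤ → S.A) (φ : Φ) : Set S.V :=
  S.Min (stabilizer G φ) (S.src (w φ (m - 1)))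

/-- The conclusion of the gap trick. -/
def Out : Prop :=
  ∃ (W : Type) (_ : MulAction G W) (Z : Spl S W) (M : Mach Z), Z.NoFix ∧ (M.NEG ∨ M.EXP)

end Windows

end Gap
end CPOR
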