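import Pool.Agent.P.MP_2cb329_al.F.GA2

/-! F7: the incidence forest, part 1: it is a forest with trivial edge stabilisers. -/

set_option autoImplicit false

namespace CPOR
namespace Gap
open ZT MulAction Pointwise

variable {V : Type} {B : SimpleGraph V} {G : Type} [Group G] [MulAction G V]
  {Φ : Type} [MulAction G Φ] {ρ : ℕ} {X : Φ → Set V} {p l : ℕ}

theorem IG_adj (h : Fam B G ρ X) {u v : IV h p l} :
    (IG h p l).Adj u v ↔ u.1.1 = v.1.1 ∧
      (Inc B p l (stabilizer G u.1.1) (X u.1.1) u.1.2 v.1.2 ∨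
        Inc B p l (stabilizer G u.1.1) (X u.1.1) v.1.2 u.1.2) := by
  rw [IG, SimpleGraph.fromRel_adj]
  constructor
  · rintro ⟨-, ⟨e, h1⟩ | ⟨e, h1⟩⟩
    · exact ⟨e, Or.inl h1⟩
    · exact ⟨e.symm, Or.inr (e ▸ h1)⟩
  · rintro ⟨e, h1⟩
    refine ⟨?_, ?_⟩
    · rintro rfl
      obtain ⟨h2, x, -, -, h3⟩ := h1.elim id id
      exact h2.ne_cls h.ff (h.good _).cvx x h3
    · rcases h1 with h1 | h1
      · exact Or.inl ⟨e, h1⟩
      · exact Or.inr ⟨e.symm, e ▸ h1⟩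

theorem gi1_br (hF : FT B G) {J : Subgroup G} {Y L : Set V} (hY : KT B J Y)
    (hL : Lin B p l J Y L) {x q : V} (hx : x ∈ Br B Y) (hq : q ∈ L) (h1 : ∀ c ∈ L, Btw B x q c) :
    q ∈ Br B Y := by
  by_cases e : q = x
  · exact e ▸ hx
  · exact br_of_proj hF.acyc hY.cvx (hL.sub hF hY) (hL.1.leafless hF) hx.1 hq h1 e

/-- Projections of equivalent branch vertices to a line are equivalent branch vertices
(`br_of_proj`; if the projections differ they lie on `[x, y]`, `btw_proj_of_ne`, `Sh.btw`). -/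
theorem sh_proj (hF : FT B G) {J : Subgroup G} {Y L : Set V} (hY : KT B J Y)
    (hL : Lin B p l J Y L) {x y q q' : V} (hs : Sh B l Y x y) (hq : q ∈ L) (hq' : q' ∈ L)
    (h1 : ∀ c ∈ L, Btw B x q c) (h2 : ∀ c ∈ L, Btw B y q' c) : Sh B l Y q q' := by
  have b1 := gi1_br hF hY hL hs.1 hq h1
  have b2 := gi1_br hF hY hL hs.2.1 hq' h2
  by_cases e : q = q'
  · exact e ▸ sh_refl b1
  · obtain ⟨c1, c2, -⟩ := btw_proj_of_ne hF.acyc (hL.1.cvx hF) hq hq' h1 h2 e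
    exact (hs.btw hF.acyc b1 c1).1.symm.trans hF.acyc hY.cvx (hs.btw hF.acyc b2 c2).1

/-- Branch vertices of another line project to one class (a long arc between the projections
would lie on both lines, `PL.unique`). -/
theorem sh_proj_line (hF : FT B G) (hl : p * p ≤ l) {J : Subgroup G} {Y L L' : Set V}
    (hY : KT B J Y) (hL : Lin B p l J Y L) (hL' : Lin B p l J Y L') (hne : L' ≠ L) {x y q q' : V}
    (hx : x ∈ Br B Y) (hy : y ∈ Br B Y) (hxL : x ∈ L') (hyL : y ∈ L') (hq : q ∈ L) (hq' : q' ∈ L)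
    (h1 : ∀ c ∈ L, Btw B x q c) (h2 : ∀ c ∈ L, Btw B y q' c) : Sh B l Y q q' := by
  refine ⟨gi1_br hF hY hL hx hq h1, gi1_br hF hY hL hy hq' h2, fun u v huv ho => ?_⟩
  have n1 : u ≠ v := huv.1.2.2.1
  have e : q ≠ q' := by
    rintro rfl
    exact not_on_self n1 ho
  obtain ⟨c1, c2, -⟩ := btw_proj_of_ne hF.acyc (hL.1.cvx hF) hq hq' h1 h2 e
  have m := (hL'.1.cvx hF x hxL y hyL).2
  obtain ⟨a1, a2⟩ := ho.mem hF.acyc (hL.1.cvx hF) n1 hq hq'
  obtain ⟨a3, a4⟩ := ho.mem hF.acyc (hL'.1.cvx hF) n1 (m q c1) (m q' c2)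
  exact hne (hL'.1.unique hF hL.1 a3 a4 a1 a2 (hl.trans_lt huv.2))

/-- The side of the class `C` of the edge between `L` and `C`. -/
def gi1_H (B : SimpleGraph V) (Y L C S : Set V) : Prop :=
  S ≠ L ∧ ∃ x ∈ S, x ∈ Br B Y ∧ ∃ q ∈ C, q ∈ L ∧ ∀ c ∈ L, Btw B x q c

theorem gi1_self (hF : FT B G) {J : Subgroup G} {Y L : Set V} (hL : Lin B p l J Y L) {x : V}
    (hx : x ∈ L) : ∀ c ∈ L, Btw B x x c := fun c hc => btw_left (hL.1.cvx hF x hx c hc).1

theorem gi1_H_cls (hF : FT B G) {J : Subgroup G} {Y L C : Set V} (hY : KT B J Y)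
    (h : Inc B p l J Y L C) : gi1_H B Y L C C := by
  obtain ⟨hL, x, hx, hxL, rfl⟩ := h
  exact ⟨(hL.ne_cls hF hY.cvx x).symm, x, sh_refl hx, hx, x, sh_refl hx, hxL, gi1_self hF hL hxL⟩

theorem gi1_H_iff (hF : FT B G) (hl : p * p ≤ l) {J : Subgroup G} {Y L C L₂ C₂ : Set V}
    (hY : KT B J Y) (h : Inc B p l J Y L C) (h₂ : Inc B p l J Y L₂ C₂)
    (hne : ¬ (L₂ = L ∧ C₂ = C)) : gi1_H B Y L C L₂ ↔ gi1_H B Y L C C₂ := by
  obtain ⟨hL, x₁, hx₁, hxL₁, rfl⟩ := h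
  obtain ⟨hL₂, x₀, hx₀, hxL₀, rfl⟩ := h₂
  by_cases e : L₂ = L
  · subst e
    refine ⟨fun H => absurd rfl H.1, ?_⟩
    rintro ⟨-, x, hx, -, q, hq, hqL, hp⟩
    refine absurd ⟨rfl, (cls_eq_iff hF.acyc hY.cvx hx₀).2 ?_⟩ hne
    exact (sh_proj hF hY hL hx hxL₀ hqL (gi1_self hF hL hxL₀) hp).trans hF.acyc hY.cvx
      (Sh.symm hq)
  · obtain ⟨q₀, hq₀, hp₀⟩ := (hL.1.cvx hF).exists_proj hF.acyc hxL₁ (hY.cvx x₀ hx₀.1 x₁ hx₁.1).1
    constructor
    · rintro ⟨-, x, hx, hxb, q, hq, hqL, hp⟩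
      exact ⟨(hL.ne_cls hF hY.cvx x₀).symm, x₀, sh_refl hx₀, hx₀, q₀,
        Sh.trans hF.acyc hY.cvx hq (sh_proj_line hF hl hY hL hL₂ e hxb hx₀ hx hxL₀ hqL hq₀ hp hp₀),
        hq₀, hp₀⟩
    · rintro ⟨-, x, hx, -, q, hq, hqL, hp⟩
      exact ⟨e, x₀, hxL₀, hx₀, q₀,
        Sh.trans hF.acyc hY.cvx hq (sh_proj hF hY hL (Sh.symm hx) hqL hq₀ hp hp₀), hq₀, hp₀⟩

theorem gi1_cut (h : Fam B G ρ X) (hl : p * p ≤ l) {a b : IV h p l} (e : a.1.1 = b.1.1)
    (hi : Inc B p l (stabilizer G a.1.1) (X a.1.1) a.1.2 b.1.2) :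
    ∃ H : IV h p l → Prop, H b ∧ ¬ H a ∧ ∀ u v, (IG h p l).Adj u v → (u, v) ≠ (a, b) →
      (u, v) ≠ (b, a) → (H u ↔ H v) := by
  have key : ∀ u v : IV h p l, u.1.1 = v.1.1 →
      Inc B p l (stabilizer G u.1.1) (X u.1.1) u.1.2 v.1.2 → (u, v) ≠ (a, b) →
      ((u.1.1 = a.1.1 ∧ gi1_H B (X a.1.1) a.1.2 b.1.2 u.1.2) ↔
        (v.1.1 = a.1.1 ∧ gi1_H B (X a.1.1) a.1.2 b.1.2 v.1.2)) := by
    intro u v e' hi' hne
    rw [← e']
    refine and_congr_right fun e₀ => ?_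
    rw [e₀] at hi'
    refine gi1_H_iff h.ff hl (h.good _).toKT hi hi' fun ⟨e1, e2⟩ => hne ?_
    exact Prod.ext (Subtype.ext (Prod.ext e₀ e1))
      (Subtype.ext (Prod.ext (e'.symm.trans (e₀.trans e)) e2))
  refine ⟨fun w => w.1.1 = a.1.1 ∧ gi1_H B (X a.1.1) a.1.2 b.1.2 w.1.2,
    ⟨e.symm, gi1_H_cls h.ff (h.good _).toKT hi⟩, fun H => H.2.1 rfl, fun u v huv n1 n2 => ?_⟩
  obtain ⟨e', hi' | hi'⟩ := (IG_adj h).1 huv
  · exact key u v e' hi' n1
  · refine (key v u e'.symm (e' ▸ hi') fun e₀ => n2 ?_).symm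
    exact Prod.ext (congrArg Prod.snd e₀) (congrArg Prod.fst e₀)

/-- Hint: `acyclic_of_cut`. For the edge between the line `L` and the class `C` over `φ` let
`H w := w.1.1 = φ ∧ w.1.2 ≠ L ∧ ∃ x ∈ w.1.2, x ∈ Br ∧ ∃ q ∈ C, q ∈ L ∧ ∀ c ∈ L, Btw B x q c`
(negate it for the other orientation). `H C`, `¬ H L`. For another edge `(L₂, C₂)` over `φ` with
common point `x₀` and `L₂ ≠ L`, both `H L₂` and `H C₂` say that the projection of `x₀` is in `C`
(`sh_proj`, `sh_proj_line`; `C₂ ≠ L` by `Lin.ne_cls`). If `L₂ = L`, `C₂ ≠ C`, both are false. -/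
theorem IG_acyclic (h : Fam B G ρ X) (hl : p * p ≤ l) : (IG h p l).IsAcyclic := by
  refine acyclic_of_cut fun x y hxy => ?_
  obtain ⟨e, hi | hi⟩ := (IG_adj h).1 hxy
  · exact gi1_cut h hl e hi
  · obtain ⟨H, h1, h2, h3⟩ := gi1_cut h hl e.symm (e ▸ hi)
    exact ⟨fun w => ¬ H w, h2, not_not.2 h1, fun u v huv n1 n2 => not_congr (h3 u v huv n2 n1)⟩

/-- Hint: `Line.stab`. A reflection fixes a vertex (so `k = 1`) or inverts an edge. For a
translation by `c ≠ 0` all `k ^ n • x`, `n : ℤ`, are in the class of `x`, and for large `n` the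
long arc of `L` lies (in one of its orientations) on `[k ^ (-n) • x, k ^ n • x]`. -/
theorem Inc.free (hF : FT B G) {J : Subgroup G} {Y L C : Set V} (hY : Cvx B Y)
    (h : Inc B p l J Y L C) {k : G} (h1 : k • L = L) (h2 : k • C = C) : k = 1 := by
  obtain ⟨⟨⟨c, a, n, M, hax, -, -, -, rfl⟩, u, v, huv, ⟨s, rfl⟩, ⟨t, rfl⟩⟩, x, hx, ⟨i₀, rfl⟩,
    rfl⟩ := h
  have ha := hax.1
  obtain ⟨d, hd | hd⟩ := ha.stab hF.acyc hF.acts (g := k) fun i => by
    rw [← h1]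
    exact Set.smul_mem_smul_set ⟨i, rfl⟩
  · by_cases h0 : d = 0
    · exact hF.free k (a 0) (by rw [hd, h0, add_zero])
    exfalso
    have hm : ∀ j : ℤ, a (i₀ + j * d) ∈ cls B l Y (a i₀) := by
      intro j
      induction j using Int.induction_on with
      | zero =>
        rw [zero_mul, add_zero]
        exact sh_refl hx
      | succ j ih =>
        rw [show i₀ + ((j : ℤ) + 1) * d = i₀ + j * d + d by ring, ← hd, ← h2]
        exact Set.smul_mem_smul_set ih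
      | pred j ih =>
        rw [show i₀ + -(j : ℤ) * d = i₀ + (-(j : ℤ) - 1) * d + d by ring, ← hd, ← h2] at ih
        exact Set.smul_mem_smul_set_iff.1 ih
    have hd2 : 1 ≤ d * d := by
      have := mul_self_pos.2 h0
      omega
    obtain ⟨N, hN0, hN1, hN2, hN3, hN4⟩ : ∃ N : ℤ, 0 ≤ N ∧ i₀ - N ≤ s ∧ i₀ - N ≤ t ∧ s ≤ i₀ + N ∧
        t ≤ i₀ + N := ⟨|s - i₀| + |t - i₀|, by positivity, by
          have := neg_abs_le (s - i₀); have := abs_nonneg (t - i₀); omega, by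
          have := neg_abs_le (t - i₀); have := abs_nonneg (s - i₀); omega, by
          have := le_abs_self (s - i₀); have := abs_nonneg (t - i₀); omega, by
          have := le_abs_self (t - i₀); have := abs_nonneg (s - i₀); omega⟩
    have hN : N ≤ N * d * d := by nlinarith
    have hs : Sh B l Y (a (i₀ + -(N * d) * d)) (a (i₀ + N * d * d)) :=
      (Sh.symm (hm _)).trans hF.acyc hY (hm _)
    rcases le_total s t with hst | hst
    · exact hs.2.2 _ _ huv ⟨ha.btw hF.acyc (by linarith) hst, ha.btw hF.acyc hst (by linarith)⟩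
    · exact hs.2.2 _ _ huv.symm
        ⟨ha.btw hF.acyc (by linarith) hst, ha.btw hF.acyc hst (by linarith)⟩
  · obtain ⟨j, hj | hj⟩ := Int.even_or_odd' d
    · exact hF.free k (a j) (by rw [hd, show d - j = j by omega])
    · exact absurd (by rw [hd, show d - (j + 1) = j by omega])
        (hF.noinv k _ _ (ha.1 j) (by rw [hd, show d - j = j + 1 by omega]))

/-- No inversion because lines go to lines (`Tr.lin`, `Lin.ne_cls`). -/
theorem IG_gf (h : Fam B G ρ X) (hl : p * p ≤ l) : GF (IG h p l) G := by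
  have tr : ∀ (g : G) (u v : IV h p l), Inc B p l (stabilizer G u.1.1) (X u.1.1) u.1.2 v.1.2 →
      Inc B p l (stabilizer G (g • u).1.1) (X (g • u).1.1) (g • u).1.2 (g • v).1.2 :=
    fun g u v hi => (h.tr g u.1.1).inc h.ff.acts hi
  have ni : ∀ (g : G) (u v : IV h p l), u.1.1 = v.1.1 →
      Inc B p l (stabilizer G u.1.1) (X u.1.1) u.1.2 v.1.2 → g • u ≠ v := by
    intro g u v e hi hg
    have h1 := (tr g u v hi).1
    rw [hg, ← e] at h1
    obtain ⟨-, x, -, -, h3⟩ := hi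
    exact h1.ne_cls h.ff (h.good _).cvx x h3
  refine ⟨IG_acyclic h hl, fun g x y hxy => ?_, fun g x y hxy h1 h2 => ?_,
    fun g x y hxy h1 h2 => ?_⟩
  · obtain ⟨e, hi | hi⟩ := (IG_adj h).1 hxy
    · exact (IG_adj h).2 ⟨congrArg (g • ·) e, Or.inl (tr g x y hi)⟩
    · exact (IG_adj h).2 ⟨congrArg (g • ·) e, Or.inr ((h.tr g x.1.1).inc h.ff.acts hi)⟩
  · obtain ⟨e, hi | hi⟩ := (IG_adj h).1 hxy
    · exact ni g x y e hi h1
    · exact ni g y x e.symm (e ▸ hi) h2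
  · have e1 : g • x.1.2 = x.1.2 := congrArg (fun w : IV h p l => w.1.2) h1
    have e2 : g • y.1.2 = y.1.2 := congrArg (fun w : IV h p l => w.1.2) h2
    obtain ⟨-, hi | hi⟩ := (IG_adj h).1 hxy
    · exact hi.free h.ff (h.good _).cvx e1 e2
    · exact hi.free h.ff (h.good _).cvx e2 e1

end Gap
end CPOR
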