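import Pool.Agent.P.MP_2cb329_al.F.GI1

/-! F7: the incidence forest, part 2: finiteness, components, no leaves. -/

set_option autoImplicit false

namespace CPOR
namespace Gap
open ZT MulAction Pointwise

variable {V : Type} {B : SimpleGraph V} {G : Type} [Group G] [MulAction G V]
  {Φ : Type} [MulAction G Φ] {ρ : ℕ} {X : Φ → Set V} {p l : ℕ} (h : Fam B G ρ X)

/-- The class of a branch vertex as a vertex of the incidence forest. -/
def gi2_cv (p l : ℕ) (φ : Φ) (x : V) (hx : x ∈ Br B (X φ)) : IV h p l :=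
  ⟨(φ, cls B l (X φ) x), Or.inr ⟨x, hx, rfl⟩⟩

/-- A line as a vertex of the incidence forest. -/
def gi2_lv (φ : Φ) (L : Set V) (hL : Lin B p l (stabilizer G φ) (X φ) L) : IV h p l :=
  ⟨(φ, L), Or.inl hL⟩

theorem gi2_adj {φ : Φ} {L : Set V} (hL : Lin B p l (stabilizer G φ) (X φ) L) {x : V}
    (hx : x ∈ Br B (X φ)) (hxL : x ∈ L) :
    (IG h p l).Adj (gi2_lv h φ L hL) (gi2_cv h p l φ x hx) :=
  (IG_adj h).2 ⟨rfl, Or.inl ⟨hL, x, hx, hxL, rfl⟩⟩

theorem gi2_ext {u v : IV h p l} (h1 : u.1.1 = v.1.1) (h2 : u.1.2 = v.1.2) : u = v :=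
  Subtype.ext (Prod.ext h1 h2)

/-- Arcs cover the pairs (line, class). -/
def gi2_r (a : Φ × V × V) (s t : IV h p l) : Prop :=
  Long B l (X a.1) a.2.1 a.2.2 ∧ s.1.1 = a.1 ∧ t.1.1 = a.1 ∧
    Lin B p l (stabilizer G a.1) (X a.1) s.1.2 ∧ a.2.1 ∈ s.1.2 ∧ a.2.2 ∈ s.1.2 ∧
    t.1.2 = cls B l (X a.1) a.2.1

theorem gi2_r_smul (k : G) {a : Φ × V × V} {s t : IV h p l} (hr : gi2_r h a s t) :
    gi2_r h (k • a) (k • s) (k • t) := by
  obtain ⟨h1, h2, h3, h4, h5, h6, h7⟩ := hr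
  have tr := h.tr k a.1
  refine ⟨tr.long h.ff.acts h1, congrArg (fun z => k • z) h2, congrArg (fun z => k • z) h3,
    tr.lin h.ff.acts h4, Set.smul_mem_smul_set h5, Set.smul_mem_smul_set h6, ?_⟩
  show k • t.1.2 = cls B l (X (k • a.1)) (k • a.2.1)
  rw [h7, tr.cls h.ff.acts]

theorem gi2_r_func (hl : p * p ≤ l) {a : Φ × V × V} {s t s' t' : IV h p l} (hr : gi2_r h a s t)
    (hr' : gi2_r h a s' t') : s = s' ∧ t = t' := by
  obtain ⟨h1, h2, h3, h4, h5, h6, h7⟩ := hr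
  obtain ⟨-, h2', h3', h4', h5', h6', h7'⟩ := hr'
  exact ⟨gi2_ext h (h2.trans h2'.symm)
    (PL.unique h.ff h4.1 h4'.1 h5 h6 h5' h6' (lt_of_le_of_lt hl h1.2)),
    gi2_ext h (h3.trans h3'.symm) (h7.trans h7'.symm)⟩

theorem gi2_r_surj {s t : IV h p l} (e : s.1.1 = t.1.1)
    (hi : Inc B p l (stabilizer G s.1.1) (X s.1.1) s.1.2 t.1.2) : ∃ a, gi2_r h a s t := by
  obtain ⟨hL, x, hx, hxL, hC⟩ := hi
  have hc := (h.good s.1.1).cvx
  obtain ⟨u, v, h1, h2, h3, h4⟩ := Lin.first h.ff hc hL hx hxL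
  exact ⟨(s.1.1, u, v), h1, rfl, e.symm, hL, h2, h3,
    hC.trans ((cls_eq_iff h.ff.acyc hc hx).2 h4)⟩

/-- Hint: the darts (line, class) are covered by the relation from `AE`:
`(φ, u, v) ~ (s, t)` iff `Long u v`, `s = (φ, L)` with `Lin L`, `u, v ∈ L`, `t = (φ, cls u)`;
functional by `PL.unique`, onto by `Lin.first`; the darts (class, line) likewise;
`nOrb_union_le`. -/
theorem IG_count (hl : p * p ≤ l) : FinOrb (⊤ : Subgroup G) (Darts (IG h p l)) ∧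
    nOrb (⊤ : Subgroup G) (Darts (IG h p l)) ≤ 2 * nOrb (⊤ : Subgroup G) (AE B X) := by
  have hA := (Fam.count_AE h).1
  have h1 := nOrb_le_of_rel (K := (⊤ : Subgroup G)) (E := AE B X)
    (E' := {e : IV h p l × IV h p l | ∃ a, gi2_r h a e.1 e.2})
    (fun a e => gi2_r h a e.1 e.2) hA (fun _ _ hr => hr.1.1)
    (fun k _ _ _ hr => gi2_r_smul h k hr)
    (fun _ _ _ hr hr' => Prod.ext (gi2_r_func h hl hr hr').1 (gi2_r_func h hl hr hr').2)
    (fun _ he => he)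
  have h2 := nOrb_le_of_rel (K := (⊤ : Subgroup G)) (E := AE B X)
    (E' := {e : IV h p l × IV h p l | ∃ a, gi2_r h a e.2 e.1})
    (fun a e => gi2_r h a e.2 e.1) hA (fun _ _ hr => hr.1.1)
    (fun k _ _ _ hr => gi2_r_smul h k hr)
    (fun _ _ _ hr hr' => Prod.ext (gi2_r_func h hl hr hr').2 (gi2_r_func h hl hr hr').1)
    (fun _ he => he)
  have hsub : Darts (IG h p l) ⊆ {e : IV h p l × IV h p l | ∃ a, gi2_r h a e.1 e.2} ∪
      {e : IV h p l × IV h p l | ∃ a, gi2_r h a e.2 e.1} := by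
    intro e he
    obtain ⟨e1, hi | hi⟩ := (IG_adj h).1 he
    · exact Or.inl (gi2_r_surj h e1 hi)
    · exact Or.inr (gi2_r_surj h e1.symm (e1 ▸ hi))
  have hu := h1.1.union h2.1
  refine ⟨hu.mono hsub, ?_⟩
  have a1 := nOrb_mono hu hsub
  have a2 := nOrb_union_le h1.1 h2.1
  have a3 := h1.2
  have a4 := h2.2
  omega

/-- Classes are covered by `VE`, lines by `AE`. -/
theorem IG_finW (hl : p * p ≤ l) : FinOrb (⊤ : Subgroup G) (Set.univ : Set (IV h p l)) := by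
  have h1 := (nOrb_le_of_rel (K := (⊤ : Subgroup G)) (E := AE B X)
    (E' := {s : IV h p l | ∃ a t, gi2_r h a s t})
    (fun a s => ∃ t, gi2_r h a s t) (Fam.count_AE h).1 (fun _ _ hr => hr.choose_spec.1.1)
    (fun k _ _ _ hr => ⟨_, gi2_r_smul h k hr.choose_spec⟩)
    (fun _ _ _ hr hr' => (gi2_r_func h hl hr.choose_spec hr'.choose_spec).1)
    (fun _ he => he)).1
  have h2 := (nOrb_le_of_rel (K := (⊤ : Subgroup G)) (E := VE X)
    (E' := {s : IV h p l | ∃ x ∈ Br B (X s.1.1), s.1.2 = cls B l (X s.1.1) x})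
    (fun a s => a.2 ∈ X a.1 ∧ s.1.1 = a.1 ∧ s.1.2 = cls B l (X a.1) a.2) (Fam.fin_VE h)
    (fun _ _ hr => hr.1)
    (fun k _ a s hr => ⟨h.smul k _ _ hr.1, congrArg (fun z => k • z) hr.2.1, by
      show k • s.1.2 = cls B l (X (k • a.1)) (k • a.2)
      rw [hr.2.2, (h.tr k a.1).cls h.ff.acts]⟩)
    (fun _ _ _ hr hr' => gi2_ext h (hr.2.1.trans hr'.2.1.symm) (hr.2.2.trans hr'.2.2.symm))
    (fun s hs => by
      obtain ⟨x, hx, e⟩ := hs
      exact ⟨(s.1.1, x), hx.1, rfl, e⟩)).1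
  refine (h1.union h2).mono fun s _ => ?_
  rcases s.2 with hL | hC
  · left
    obtain ⟨x, y, hxy, hx, hy⟩ := hL.2
    obtain ⟨a, ha⟩ := gi2_r_surj h (s := s) (t := gi2_cv h p l s.1.1 x hxy.1.1) rfl
      ⟨hL, x, hxy.1.1, hx, rfl⟩
    exact ⟨a, _, ha⟩
  · exact Or.inr hC

/-- Hint: a line is adjacent to the class of an end of its long arc; classes are joined by
`arc_induct`. -/
theorem IG_reach (hc : AllCyc B G p l X) {u v : IV h p l} :
    u.1.1 = v.1.1 ↔ (IG h p l).Reachable u v := by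
  constructor
  · intro e
    have key : ∀ w : IV h p l, ∃ x, ∃ hx : x ∈ Br B (X w.1.1),
        (IG h p l).Reachable w (gi2_cv h p l w.1.1 x hx) := by
      intro w
      rcases w.2 with hL | ⟨x, hx, hC⟩
      · obtain ⟨x, y, hxy, hx, hy⟩ := hL.2
        exact ⟨x, hxy.1.1, (gi2_adj h hL hxy.1.1 hx).reachable⟩
      · refine ⟨x, hx, ?_⟩
        rw [← gi2_ext h (u := w) (v := gi2_cv h p l w.1.1 x hx) rfl hC]
    have cl : ∀ (φ : Φ) (x y : V), x ∈ Br B (X φ) → y ∈ Br B (X φ) →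
        ∃ (hx : x ∈ Br B (X φ)) (hy : y ∈ Br B (X φ)),
          (IG h p l).Reachable (gi2_cv h p l φ x hx) (gi2_cv h p l φ y hy) := by
      intro φ x y hx hy
      have hcv := (h.good φ).cvx
      refine arc_induct h.ff.acyc hcv (fun x y => ∃ (hx : x ∈ Br B (X φ)) (hy : y ∈ Br B (X φ)),
          (IG h p l).Reachable (gi2_cv h p l φ x hx) (gi2_cv h p l φ y hy))
        (fun x hx => ⟨hx, hx, SimpleGraph.Reachable.refl _⟩) ?_ hx hy ?_
      · rintro x y z ⟨a, b, c⟩ ⟨_, d, e⟩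
        exact ⟨a, d, c.trans e⟩
      · intro x y ha _
        refine ⟨ha.1, ha.2.1, ?_⟩
        by_cases hlong : Long B l (X φ) x y
        · obtain ⟨L, hL, hxL, hyL⟩ := hc φ x y hlong
          have hLin : Lin B p l (stabilizer G φ) (X φ) L := ⟨hL, x, y, hlong, hxL, hyL⟩
          exact (gi2_adj h hLin ha.1 hxL).reachable.symm.trans (gi2_adj h hLin ha.2.1 hyL).reachable
        · have hs : Sh B l (X φ) x y := by
            refine ⟨ha.1, ha.2.1, fun s t hst ho => hlong ?_⟩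
            obtain ⟨rfl, rfl⟩ := Arc.eq_of_on h.ff.acyc hst.1 ha ho
            exact hst
          rw [gi2_ext h (u := gi2_cv h p l φ x ha.1) (v := gi2_cv h p l φ y ha.2.1) rfl
            ((cls_eq_iff h.ff.acyc hcv ha.1).2 hs)]
    obtain ⟨x, hx, r1⟩ := key u
    obtain ⟨y, hy, r2⟩ := key v
    obtain ⟨_, hy', r3⟩ := cl u.1.1 x y hx (e ▸ hy)
    refine r1.trans (r3.trans ?_)
    rw [gi2_ext h (u := gi2_cv h p l u.1.1 y hy') (v := gi2_cv h p l v.1.1 y hy) e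
      (by show cls B l (X u.1.1) y = cls B l (X v.1.1) y; rw [e])]
    exact r2.symm
  · rintro ⟨w⟩
    induction w with
    | nil => rfl
    | cons a _ ih => exact ((IG_adj h).1 a).1.trans ih

theorem IG_ovr (hl : p * p ≤ l) (hc : AllCyc B G p l X) : Ovr (IG h p l) G (fun u => u.1.1) := by
  refine ⟨IG_gf h hl, IG_finW h hl, (IG_count h hl).1, fun _ _ => rfl, fun φ => ?_,
    fun _ _ => IG_reach h hc⟩
  obtain ⟨x, hx⟩ := Good.br_nonempty h.ff (h.good φ)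
  exact ⟨gi2_cv h p l φ x hx, rfl⟩

/-- A class that meets one line meets a second one.
Hint: `x ∈ L` has a neighbour `w ∈ Y` off `L` (three neighbours; a line contains only two
neighbours of a point, `Line.dist`). `U` = union of all `Lin` lines is `J`-invariant (`Tr.lin`),
so `hull B U = Y` (`cvx_hull`, `inv_hull`, `hull_subset`, `KC.eq_of_leafless`). So `w ∈ [u, v]` with
`u, v ∈ U`, and one of them, say `u ∈ L₁`, has `Btw x w u` (`Btw.or`, or `w` itself); no point `z`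
of `L` has `Btw x w z`, so `L₁ ≠ L`. If `x ∈ L₁` take `L₁`. Otherwise all points of `L₁` are behind
`w` (convexity); with the long arc `(s, t)` of `L₁`, `¬ Sh x s` or `¬ Sh x t`, `first_long` gives
a long arc `(x₁, y₁)` with `Sh x x₁` and `y₁` behind `w`; its line (`hc`) is not `L`. -/
theorem second_line (hF : FT B G) {J : Subgroup G} {Y L : Set V} (hY : Good B J Y)
    (hc : ∀ x y, Long B l Y x y → Per B J p x y) (hL : Lin B p l J Y L) {x : V} (hx : x ∈ Br B Y)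
    (hxL : x ∈ L) : ∃ L', Lin B p l J Y L' ∧ L' ≠ L ∧ ∃ y ∈ L', Sh B l Y x y := by
  have hT := hF.acyc
  have hLc := PL.cvx hF hL.1
  have hw : ∃ w ∈ Y, B.Adj x w ∧ w ∉ L := by
    obtain ⟨c, a, n, M, hax, -, -, -, rfl⟩ := hL.1
    obtain ⟨i, rfl⟩ := hxL
    have nb : ∀ y, B.Adj (a i) y → y ∈ Set.range a → y = a (i + 1) ∨ y = a (i - 1) := by
      rintro y hy ⟨j, rfl⟩
      have d := (Line.dist hT hax.1 i j).2
      rw [SimpleGraph.dist_eq_one_iff_adj.2 hy] at d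
      have : j = i + 1 ∨ j = i - 1 := by omega
      rcases this with rfl | rfl
      · exact Or.inl rfl
      · exact Or.inr rfl
    obtain ⟨-, y₁, a1, y₂, a2, y₃, a3, b1, b2, b3, c1, c2, c3⟩ := hx
    by_contra hn
    push Not at hn
    rcases nb _ b1 (hn _ a1 b1) with e1 | e1 <;> rcases nb _ b2 (hn _ a2 b2) with e2 | e2 <;>
      rcases nb _ b3 (hn _ a3 b3) with e3 | e3 <;>
      first
        | exact c1 (e1.trans e2.symm)
        | exact c2 (e1.trans e3.symm)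
        | exact c3 (e2.trans e3.symm)
  obtain ⟨w, hwY, hxw, hwL⟩ := hw
  have off : ∀ z, Btw B x w z → z ∉ L := fun z hz hzL => hwL ((hLc x hxL z hzL).2 w hz)
  let U : Set V := {z | ∃ L', Lin B p l J Y L' ∧ z ∈ L'}
  have hUY : U ⊆ Y := fun z ⟨L', h1, h2⟩ => Lin.sub hF hY.toKC.toKT h1 h2
  have hUi : Inv J U := fun k hk z ⟨L', h1, h2⟩ =>
    ⟨k • L', (Tr.self hk hY.inv).lin hF.acts h1, Set.smul_mem_smul_set h2⟩
  have hH : hull B U = Y := KC.eq_of_leafless hF.toGF hY.toKC hY.leaf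
    ⟨⟨x, subset_hull U ⟨L, hL, hxL⟩⟩,
      cvx_hull hT fun a ha b hb => (hY.cvx a (hUY ha) b (hUY hb)).1, inv_hull hF.acts hUi⟩
    (hull_subset hY.cvx hUY)
  have hu : ∃ u ∈ U, Btw B x w u := by
    obtain ⟨u, hu, v, hv, hb⟩ : w ∈ hull B U := hH ▸ hwY
    rcases Btw.or hT hb (hY.cvx u (hUY hu) x hx.1).1 with h1 | h1
    · exact ⟨u, hu, h1.symm⟩
    · exact ⟨v, hv, h1⟩
  obtain ⟨u, ⟨L₁, hL₁, huL⟩, hb⟩ := hu
  have hne : L₁ ≠ L := fun e => off u hb (e ▸ huL)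
  by_cases hx1 : x ∈ L₁
  · exact ⟨L₁, hL₁, hne, x, hx1, sh_refl hx⟩
  obtain ⟨s, t, hst, hs, -⟩ := hL₁.2
  by_cases hsh : Sh B l Y x s
  · exact ⟨L₁, hL₁, hne, s, hs, hsh⟩
  have hws : Btw B x w s := by
    rcases adj_btw hT hxw (hY.cvx x hx.1 s hst.1.1.1).1 with h1 | h1
    · exact h1
    · exact absurd ((PL.cvx hF hL₁.1 u huL s hs).2 x (Btw.glue hT hb.symm h1 hxw.ne').2) hx1
  obtain ⟨x₁, y₁, h1, h2, h3⟩ := first_long hT hx hst.1.1 hsh
  obtain ⟨L₂, hL₂, a1, a2⟩ := hc x₁ y₁ h1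
  refine ⟨L₂, ⟨hL₂, x₁, y₁, h1, a1, a2⟩, fun e => off y₁ ?_ (e ▸ a2), x₁, a1, h3⟩
  have hne1 : x₁ ≠ y₁ := h1.1.2.2.1
  have hb1 := (On.btw hT h2 hne1).2
  refine (Btw.compare hT hws hb1 ?_).1
  rw [SimpleGraph.dist_eq_one_iff_adj.2 hxw]
  refine Nat.one_le_iff_ne_zero.2 fun h0 => hne1 ?_
  have e := eq_of_dist_zero hb1.1 h0
  have h4 := h2.1
  rw [← e] at h4 ⊢
  exact h4.eq_of_self

theorem IG_nl (hc : AllCyc B G p l X) : NL (IG h p l) := by
  intro u v huv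
  obtain ⟨e, hi | hi⟩ := (IG_adj h).1 huv
  · obtain ⟨s, t, hst, hs, ht⟩ := hi.1.2
    have hcv := (h.good u.1.1).cvx
    have a1 : (IG h p l).Adj u (gi2_cv h p l u.1.1 s hst.1.1) := gi2_adj h hi.1 hst.1.1 hs
    have a2 : (IG h p l).Adj u (gi2_cv h p l u.1.1 t hst.1.2.1) := gi2_adj h hi.1 hst.1.2.1 ht
    by_cases e1 : gi2_cv h p l u.1.1 s hst.1.1 = v
    · refine ⟨_, a2, fun e2 => hst.not_sh hcv ?_⟩
      exact (cls_eq_iff h.ff.acyc hcv hst.1.1).1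
        (congrArg (fun z : IV h p l => z.1.2) (e1.trans e2.symm))
    · exact ⟨_, a1, e1⟩
  · obtain ⟨hL, x, hx, hxL, hC⟩ := hi
    obtain ⟨L', hL', hne, y, hy, hs⟩ := second_line h.ff (h.good u.1.1) (hc u.1.1) hL hx hxL
    refine ⟨gi2_lv h u.1.1 L' hL', (IG_adj h).2 ⟨rfl, Or.inr ⟨hL', y, hs.2.1, hy, ?_⟩⟩,
      fun e2 => hne (congrArg (fun z : IV h p l => z.1.2) e2)⟩
    exact hC.trans ((cls_eq_iff h.ff.acyc (h.good u.1.1).cvx hx).2 hs)

theorem IG_dart (hc : AllCyc B G p l X) {φ : Φ} {x y : V} (hxy : Long B l (X φ) x y) :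
    (Darts (IG h p l)).Nonempty := by
  obtain ⟨L, hL, hx, hy⟩ := hc φ x y hxy
  exact ⟨(_, _), gi2_adj h ⟨hL, x, y, hxy, hx, hy⟩ hxy.1.1 hx⟩

end Gap
end CPOR
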