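import Pool.Agent.P.MP_2cb329_al.F.GK1

/-! F7: level change, part 2: lines correspond. -/

set_option autoImplicit false

namespace CPOR
namespace Gap
open ZT MulAction

variable {V : Type} {B : SimpleGraph V} {G : Type} [Group G] [MulAction G V] {ρ : ℕ} {κ : Cst ρ}
  {J : Subgroup G} {X X' : Set V} {r : V → V → Prop}

variable (h : LCH B κ J X X' r)
include h

omit h in
theorem gk2_on_axis (hT : B.IsAcyclic) (hA : Acts B G) {g : G} {a : ℤ → V} {n : ℕ}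
    (ha : IsAxis B g a n) {p : V} (hp : B.Reachable p (a 0)) (hb : Btw B (g⁻¹ • p) p (g • p)) :
    p ∈ Set.range a := by
  obtain ⟨i, h1, h2, -⟩ := ha.disp hT hA hp
  obtain ⟨j, h3, h4, -⟩ := (ha.pow (n := 2) (by norm_num)).disp hT hA hp
  have e : a i = a j := (h1 j).antisymm (h3 i)
  have e1 := hb.2.2
  rw [← hA.dist g (g⁻¹ • p) p, ← hA.dist g (g⁻¹ • p) (g • p), smul_inv_smul, ← mul_smul,
    ← pow_two, h4, h2, ← e] at e1
  exact ⟨i, (eq_of_dist_zero (h1 i).1 (by omega)).symm⟩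

theorem gk2_axis_lt {k : G} (hk : k ∈ J) {a a' : ℤ → V} {n n' : ℕ} (ha : IsAxis B k a n)
    (ha' : IsAxis B k a' n') (hX' : Set.range a' ⊆ X') {s t : ℤ} {x' y' : V} (hst : s < t)
    (h1 : ACor B κ.l X X' r (a s) (a t) x' y') :
    x' ∈ Set.range a' ∧ y' ∈ Set.range a' := by
  have hT := h.ff.acyc
  have hA := h.ff.acts
  obtain ⟨N, hN⟩ : ∃ N : ℕ, (N : ℤ) = t - s := ⟨(t - s).toNat, by omega⟩
  have hN1 : 1 ≤ N := by omega
  have hg := ha.pow hN1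
  have hg' := ha'.pow hN1
  have hgJ : k ^ N ∈ J := J.pow_mem hk N
  have hle : N ≤ N * n := Nat.le_mul_of_pos_right N ha.2.1
  generalize k ^ N = g at hg hg' hgJ
  generalize N * n = m at hg hle
  generalize N * n' = m' at hg'
  obtain ⟨u, v, hu, hv, su, sv⟩ := h1.2.2
  have tr : ∀ c ∈ J, r (c • a s) (c • u) ∧ Sh B κ.l X' (c • u) (c • x') := fun c hc =>
    ⟨h.cor.1.smul c hc _ _ hu, (Tr.self hc h.cor.2.good.inv).sh hA su⟩
  have b1 : Btw B (g • a s) (a t) (a s) := by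
    rw [hg.2.2]
    exact (ha.1.btw hT hst.le (by omega)).symm
  have b2 : Btw B (g⁻¹ • a s) (a s) (a t) := by
    have e := hg.2.2 (s - m)
    rw [sub_add_cancel] at e
    rw [← e, inv_smul_smul, e]
    exact ha.1.btw hT (by omega) hst.le
  have c1 : Btw B (g • x') y' x' :=
    Sh.side hT h.cvx' h1.2.1.symm (tr g hgJ).2 (h.acor_side h1.symm (tr g hgJ).1 b1)
  have c2 : Btw B (g⁻¹ • x') x' y' :=
    Sh.side hT h.cvx' h1.2.1 (tr _ (J.inv_mem hgJ)).2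
      (h.acor_side h1 (tr _ (J.inv_mem hgJ)).1 b2)
  have hx' : x' ∈ Set.range a' :=
    gk2_on_axis hT hA hg' (h.cvx' _ h1.2.1.1.1.1 _ (hX' ⟨0, rfl⟩)).1
      (c2.glue hT c1.symm h1.2.1.1.2.2.1).1
  refine ⟨hx', ?_⟩
  obtain ⟨i, rfl⟩ := hx'
  rw [hg'.2.2] at c1
  exact (ha'.1.cvx hT _ ⟨_, rfl⟩ _ ⟨_, rfl⟩).2 _ c1

/-- An element `k ∈ J` with axes `a` in `X` and `a'` in `X'`: long arcs on `a` correspond to long
arcs on `a'`.
Hint: first the case `x = a s`, `y = a t`, `s < t` (the other case by `ACor.symm`). For `N ≥ t - s`: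
`Btw x y (k ^ N • x)` and `Btw (k ^ (-N) • x) x y`. With a partner `u` of `x`, `k ^ N • u` is a
partner of `k ^ N • x` and is equivalent to `k ^ N • x'` (`Tr.sh`), so `acor_side` and `Sh.side`
give `Btw x' y' (k ^ N • x')`. If `x'` is not on `a'`, its projection `π = a' i` (`IsAxis.disp` for
`k ^ N` and its inverse, or `Cvx.exists_proj`) is a branch vertex `≠ x'` on `[x', k ^ N • x']` and on
`[x', k ^ (-N) • x']`; the arc property gives `Btw x' y' π`, so `Btw x' y' (k ^ (-N) • x')`, and the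
flipped `acor_side` gives `Btw x y (k ^ (-N) • x)`, a contradiction. So `x'` and `k ^ N • x'` are on
`a'`, and `y'` by convexity. -/
theorem LCH.axis {k : G} (hk : k ∈ J) {a a' : ℤ → V} {n n' : ℕ} (ha : IsAxis B k a n)
    (ha' : IsAxis B k a' n') (hX' : Set.range a' ⊆ X') {x y x' y' : V}
    (h1 : ACor B κ.l X X' r x y x' y') (hx : x ∈ Set.range a) (hy : y ∈ Set.range a) :
    x' ∈ Set.range a' ∧ y' ∈ Set.range a' := by
  obtain ⟨s, rfl⟩ := hx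
  obtain ⟨t, rfl⟩ := hy
  rcases lt_trichotomy s t with hst | hst | hst
  · exact gk2_axis_lt h hk ha ha' hX' hst h1
  · exact absurd (congrArg a hst) h1.1.1.2.2.1
  · exact (gk2_axis_lt h hk ha ha' hX' hst h1.symm).symm

/-- Hint: `Cor1.per`, `k = (c ^ j) ^ M = c ^ (j * M)`, `IsAxis.pow`, `PL.sub`, `hFp`. -/
theorem LCH.line {L : Set V} (hL : PL B J κ.p L) (hX : L ⊆ X) :
    ∃ L', PL B J κ.P L' ∧ ∀ x y x' y', ACor B κ.l X X' r x y x' y' → x ∈ L → y ∈ L →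
      x' ∈ L' ∧ y' ∈ L' := by
  obtain ⟨c, a, n, M, h1, h2, h3, h4, rfl⟩ := hL
  obtain ⟨j, a', n', g1, g2, g3, x', g4, g5⟩ := h.cor.1.per c a n h1 hX
  have e : (c ^ j) ^ M = (c ^ M) ^ j := by rw [← pow_mul, ← pow_mul, Nat.mul_comm]
  have hJ : (c ^ j) ^ M ∈ J := e ▸ J.pow_mem h4 j
  have hL' : PL B J κ.P (Set.range a') :=
    ⟨c ^ j, a', n', M, g2, g3.trans ((κ.mono h2).trans κ.hFp), h3, hJ, rfl⟩
  refine ⟨_, hL', fun x y x' y' hc hx hy => ?_⟩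
  have k1 := (h1.pow h3).pow g1
  rw [← e] at k1
  exact h.axis hJ k1 (g2.pow h3) (hL'.sub h.ff h.cor.2.good.toKT g4 ⟨0, rfl⟩ g5) hc hx hy

theorem LCH.acor_per {x y x' y' : V} (h1 : ACor B κ.l X X' r x y x' y') (hp : Per B J κ.p x y) :
    Per B J κ.p x' y' := by
  obtain ⟨L, hL, hx, hy⟩ := hp
  have hX : L ⊆ X := hL.sub h.ff h.cor.1.good.toKT h1.1.1.1.1 hx (SimpleGraph.Reachable.refl _)
  obtain ⟨L', hL', hm⟩ := h.line hL hX
  exact h.gap'.per _ _ h1.2.1.1 ⟨L', hL', hm _ _ _ _ h1 hx hy⟩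

theorem LCH.acor_ord {x y x' y' : V} (h1 : ACor B κ.l X X' r x y x' y') :
    Ordi B κ.p κ.l J X x y ↔ Ordi B κ.p κ.l J X' x' y' := by
  exact ⟨fun ho => ⟨h1.2.1, fun hp => ho.2 (h.symm.acor_per (h.acor_flip h1) hp)⟩,
    fun ho => ⟨h1.1, fun hp => ho.2 (h.acor_per h1 hp)⟩⟩

omit h in
theorem LCor.lin {p l : ℕ} {L L' : Set V} (h1 : LCor B p l J X X' r L L') :
    Lin B p l J X L ∧ Lin B p l J X' L' := by
  obtain ⟨g1, g2, x, y, x', y', g3, g4, g5, g6, g7⟩ := h1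
  exact ⟨⟨g1, x, y, g3.1, g4, g5⟩, ⟨g2, x', y', g3.2.1, g6, g7⟩⟩

theorem LCH.lcor_tot {L : Set V} (hL : Lin B κ.p κ.l J X L) :
    ∃ L', LCor B κ.p κ.l J X X' r L L' := by
  obtain ⟨g1, x, y, g2, g3, g4⟩ := hL
  obtain ⟨x', y', hc⟩ := h.acor_tot g2
  obtain ⟨L', k1, k2, k3⟩ := h.acor_per hc ⟨L, g1, g3, g4⟩
  exact ⟨L', g1, k1, x, y, x', y', hc, g3, g4, k2, k3⟩

/-- All long arcs on `L` correspond to long arcs on `L'` (`line`, `PL.unique` at level `P`). -/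
theorem LCH.lcor_mem {L L' : Set V} (h1 : LCor B κ.p κ.l J X X' r L L') {x y x' y' : V}
    (h2 : ACor B κ.l X X' r x y x' y') (hx : x ∈ L) (hy : y ∈ L) : x' ∈ L' ∧ y' ∈ L' := by
  obtain ⟨L'', k1, k2⟩ := h.line h1.1 (h1.lin.1.sub h.ff h.cor.1.good.toKT)
  obtain ⟨g1, g2, u, v, u', v', g3, g4, g5, g6, g7⟩ := h1
  obtain ⟨k3, k4⟩ := k2 _ _ _ _ g3 g4 g5
  have e : L' = L'' := (g2.mono le_rfl κ.hpP).unique h.ff k1 g6 g7 k3 k4
    (lt_of_le_of_lt κ.hPl g3.2.1.2)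
  rw [e]
  exact k2 _ _ _ _ h2 hx hy

theorem LCH.lcor_func {L L' L'' : Set V} (h1 : LCor B κ.p κ.l J X X' r L L')
    (h2 : LCor B κ.p κ.l J X X' r L L'') : L' = L'' := by
  obtain ⟨-, g2, u, v, u', v', g3, g4, g5, g6, g7⟩ := h2
  obtain ⟨k3, k4⟩ := h.lcor_mem h1 g3 g4 g5
  exact (h1.2.1.mono le_rfl κ.hpP).unique h.ff (g2.mono le_rfl κ.hpP) k3 k4 g6 g7
    (lt_of_le_of_lt κ.hPl g3.2.1.2)

theorem LCH.lcor_flip {L L' : Set V} (h1 : LCor B κ.p κ.l J X X' r L L') :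
    LCor B κ.p κ.l J X' X (flip r) L' L := by
  obtain ⟨g1, g2, u, v, u', v', g3, g4, g5, g6, g7⟩ := h1
  exact ⟨g2, g1, u', v', u, v, h.acor_flip g3, g6, g7, g4, g5⟩

/-- Incidences correspond (`Lin.first`, `acor_tot`, `lcor_mem`). -/
theorem LCH.lcor_inc {L L' : Set V} (h1 : LCor B κ.p κ.l J X X' r L L') {x x' : V} (hr : r x x')
    (hx : x ∈ L) : ∃ y' ∈ L', Sh B κ.l X' x' y' := by
  obtain ⟨u, v, g1, g2, g3, g4⟩ := h1.lin.1.first h.ff h.cvx (h.br hr) hx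
  obtain ⟨u', v', hc⟩ := h.acor_tot g1
  obtain ⟨w, -, k1, -, k2, -⟩ := hc.2.2
  exact ⟨u', (h.lcor_mem h1 hc g2 g3).1, (h.sh hr k1 g4).trans h.ff.acyc h.cvx' k2⟩

end Gap
end CPOR
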