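import Pool.Agent.P.MP_2cb329_al.F.GI1
import Pool.Agent.P.MP_2cb329_al.F.GK2

/-! F7: maps between incidence forests. -/

set_option autoImplicit false

namespace CPOR
namespace Gap
open ZT MulAction Pointwise

variable {V : Type} {B : SimpleGraph V} {G : Type} [Group G] [MulAction G V]
  {Φ Ψ : Type} [MulAction G Φ] [MulAction G Ψ] {ρ : ℕ} {X : Φ → Set V} {Y T : Ψ → Set V}

section Aux

variable {J J' : Subgroup G} {Z Z' : Set V} {p l : ℕ}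

/-- The relation behind `incl_map`. -/
def gi3_Q (B : SimpleGraph V) (p l : ℕ) (J J' : Subgroup G) (Z Z' S S' : Set V) : Prop :=
  (Lin B p l J Z S ∧ Lin B p l J' Z' S ∧ S' = S) ∨
    (¬ (Lin B p l J Z S ∧ Lin B p l J' Z' S) ∧ ∃ x ∈ S, x ∈ Br B Z ∧ S' = cls B l Z' x)

theorem gi3_tot {S : Set V} (hS : Lin B p l J Z S ∨ ∃ x ∈ Br B Z, S = cls B l Z x) :
    ∃ S', gi3_Q B p l J J' Z Z' S S' := by
  by_cases hc : Lin B p l J Z S ∧ Lin B p l J' Z' S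
  · exact ⟨S, Or.inl ⟨hc.1, hc.2, rfl⟩⟩
  · rcases hS with ⟨_, x, y, h1, h2, _⟩ | ⟨x, hx, rfl⟩
    · exact ⟨_, Or.inr ⟨hc, x, h2, h1.1.1, rfl⟩⟩
    · exact ⟨_, Or.inr ⟨hc, x, sh_refl hx, hx, rfl⟩⟩

theorem gi3_cod (hsub : Z ⊆ Z') {S S' : Set V} (h : gi3_Q B p l J J' Z Z' S S') :
    Lin B p l J' Z' S' ∨ ∃ x ∈ Br B Z', S' = cls B l Z' x := by
  rcases h with ⟨_, h2, rfl⟩ | ⟨_, x, _, h2, rfl⟩
  · exact Or.inl h2
  · exact Or.inr ⟨x, br_mono hsub h2, rfl⟩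

theorem gi3_func (hF : FT B G) (hJ : J ≤ J') (hsub : Z ⊆ Z') (hZ : Cvx B Z) (hZ' : Cvx B Z')
    {S S' S'' : Set V} (hS : Lin B p l J Z S ∨ ∃ x ∈ Br B Z, S = cls B l Z x)
    (h : gi3_Q B p l J J' Z Z' S S') (h' : gi3_Q B p l J J' Z Z' S S'') : S' = S'' := by
  have hT : B.IsAcyclic := hF.acyc
  rcases h with ⟨h1, h2, rfl⟩ | ⟨hn, x, hx, hxb, rfl⟩
  · rcases h' with ⟨_, _, rfl⟩ | ⟨hn, _⟩
    · rfl
    · exact absurd ⟨h1, h2⟩ hn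
  · rcases h' with ⟨h1, h2, _⟩ | ⟨_, y, hy, hyb, rfl⟩
    · exact absurd ⟨h1, h2⟩ hn
    · rw [cls_eq_iff hT hZ' (br_mono hsub hxb)]
      rcases hS with hL | ⟨z, _, rfl⟩
      · refine ⟨br_mono hsub hxb, br_mono hsub hyb, fun u v huv ho => hn ⟨hL, ?_⟩⟩
        obtain ⟨a, b⟩ := On.mem hT (hL.1.cvx hF) ho huv.1.2.2.1 hx hy
        exact ⟨hL.1.mono hJ le_rfl, u, v, huv, a, b⟩
      · exact Sh.incl hT hsub (Sh.trans hT hZ (Sh.symm hx) hy)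

theorem gi3_tr (hA : Acts B G) {g : G} {J₁ J₁' : Subgroup G} {Z₁ Z₁' : Set V}
    (t : Tr g J J₁ Z Z₁) (t' : Tr g J' J₁' Z' Z₁') {S S' : Set V}
    (h : gi3_Q B p l J J' Z Z' S S') : gi3_Q B p l J₁ J₁' Z₁ Z₁' (g • S) (g • S') := by
  rcases h with ⟨h1, h2, rfl⟩ | ⟨hn, x, hx, hxb, rfl⟩
  · exact Or.inl ⟨t.lin hA h1, t'.lin hA h2, rfl⟩
  · refine Or.inr ⟨fun hc => hn ⟨?_, ?_⟩, g • x, Set.smul_mem_smul_set hx, t.br hA hxb,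
      t'.cls hA l x⟩
    · simpa using t.inv.lin hA hc.1
    · simpa using t'.inv.lin hA hc.2

theorem gi3_inc (hF : FT B G) (hJ : J ≤ J') (hsub : Z ⊆ Z') (hZ : Cvx B Z) (hZ' : Cvx B Z')
    {L C L' C' : Set V} (hi : Inc B p l J Z L C) (h : gi3_Q B p l J J' Z Z' L L')
    (h' : gi3_Q B p l J J' Z Z' C C') : L' = C' ∨ Inc B p l J' Z' L' C' := by
  obtain ⟨hL, x, hx, hxL, rfl⟩ := hi
  have e : C' = cls B l Z' x :=
    gi3_func hF hJ hsub hZ hZ' (Or.inr ⟨x, hx, rfl⟩) h'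
      (Or.inr ⟨fun hc => hc.1.ne_cls hF hZ x rfl, x, sh_refl hx, hx, rfl⟩)
  by_cases hc : Lin B p l J' Z' L
  · have e' : L' = L := gi3_func hF hJ hsub hZ hZ' (Or.inl hL) h (Or.inl ⟨hL, hc, rfl⟩)
    exact Or.inr ⟨e' ▸ hc, x, br_mono hsub hx, e' ▸ hxL, e⟩
  · have e' : L' = cls B l Z' x :=
      gi3_func hF hJ hsub hZ hZ' (Or.inl hL) h (Or.inr ⟨fun h => hc h.2, x, hxL, hx, rfl⟩)
    exact Or.inl (e'.trans e.symm)

/-- The relation behind `lc_map`. -/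
def gi3_R (B : SimpleGraph V) (p l : ℕ) (J : Subgroup G) (Z Z' : Set V) (r : V → V → Prop)
    (S S' : Set V) : Prop :=
  LCor B p l J Z Z' r S S' ∨ ∃ x x', r x x' ∧ S = cls B l Z x ∧ S' = cls B l Z' x'

theorem gi3R_tr (hA : Acts B G) {g : G} {J₁ : Subgroup G} {Z₁ Z₁' : Set V} {r r₁ : V → V → Prop}
    (t : Tr g J J₁ Z Z₁) (t' : Tr g J J₁ Z' Z₁') (hr : ∀ x x', r x x' → r₁ (g • x) (g • x'))
    {S S' : Set V} (h : gi3_R B p l J Z Z' r S S') :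
    gi3_R B p l J₁ Z₁ Z₁' r₁ (g • S) (g • S') := by
  rcases h with ⟨h1, h2, x, y, x', y', ⟨a1, a2, u, v, a3, a4, a5, a6⟩, b1, b2, b3, b4⟩ |
    ⟨x, x', h1, rfl, rfl⟩
  · exact Or.inl ⟨t.pl hA h1, t.pl hA h2, g • x, g • y, g • x', g • y',
      ⟨t.long hA a1, t'.long hA a2, g • u, g • v, hr _ _ a3, hr _ _ a4, t'.sh hA a5, t'.sh hA a6⟩,
      Set.smul_mem_smul_set b1, Set.smul_mem_smul_set b2, Set.smul_mem_smul_set b3,
      Set.smul_mem_smul_set b4⟩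
  · exact Or.inr ⟨g • x, g • x', hr _ _ h1, t.cls hA l x, t'.cls hA l x'⟩

variable {κ : Cst ρ} {r : V → V → Prop} (h : LCH B κ J Z Z' r)
include h

theorem gi3R_tot {S : Set V} (hS : Lin B κ.p κ.l J Z S ∨ ∃ x ∈ Br B Z, S = cls B κ.l Z x) :
    ∃ S', gi3_R B κ.p κ.l J Z Z' r S S' := by
  rcases hS with hS | ⟨x, hx, rfl⟩
  · obtain ⟨S', h1⟩ := h.lcor_tot hS
    exact ⟨S', Or.inl h1⟩
  · obtain ⟨x', h1⟩ := h.cor.1.tot x hx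
    exact ⟨_, Or.inr ⟨x, x', h1, rfl, rfl⟩⟩

theorem gi3R_cod {S S' : Set V} (h1 : gi3_R B κ.p κ.l J Z Z' r S S') :
    Lin B κ.p κ.l J Z' S' ∨ ∃ x ∈ Br B Z', S' = cls B κ.l Z' x := by
  rcases h1 with h1 | ⟨x, x', h1, -, rfl⟩
  · exact Or.inl h1.lin.2
  · exact Or.inr ⟨x', h.br' h1, rfl⟩

theorem gi3R_func {S S' S'' : Set V} (h1 : gi3_R B κ.p κ.l J Z Z' r S S')
    (h2 : gi3_R B κ.p κ.l J Z Z' r S S'') : S' = S'' := by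
  have hT : B.IsAcyclic := h.ff.acyc
  rcases h1 with h1 | ⟨x, x', h1, rfl, rfl⟩
  · rcases h2 with h2 | ⟨y, y', h2, e, -⟩
    · exact h.lcor_func h1 h2
    · exact absurd e (h1.lin.1.ne_cls h.ff h.cvx y)
  · rcases h2 with h2 | ⟨y, y', h2, e, rfl⟩
    · exact absurd rfl (h2.lin.1.ne_cls h.ff h.cvx x)
    · rw [cls_eq_iff hT h.cvx (h.br h1)] at e
      rw [cls_eq_iff hT h.cvx' (h.br' h1)]
      exact h.sh h1 h2 e

theorem gi3R_flip {S S' : Set V} (h1 : gi3_R B κ.p κ.l J Z Z' r S S') :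
    gi3_R B κ.p κ.l J Z' Z (flip r) S' S := by
  rcases h1 with h1 | ⟨x, x', h1, e, e'⟩
  · exact Or.inl (h.lcor_flip h1)
  · exact Or.inr ⟨x', x, h1, e', e⟩

theorem gi3R_inc {L C L' C' : Set V} (hi : Inc B κ.p κ.l J Z L C)
    (h1 : gi3_R B κ.p κ.l J Z Z' r L L') (h2 : gi3_R B κ.p κ.l J Z Z' r C C') :
    Inc B κ.p κ.l J Z' L' C' := by
  have hT : B.IsAcyclic := h.ff.acyc
  obtain ⟨hL, x, hx, hxL, rfl⟩ := hi
  obtain ⟨x', hr⟩ := h.cor.1.tot x hx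
  have e : C' = cls B κ.l Z' x' := gi3R_func h h2 (Or.inr ⟨x, x', hr, rfl, rfl⟩)
  rcases h1 with h1 | ⟨y, y', -, e', -⟩
  · obtain ⟨y', hy, hs⟩ := h.lcor_inc h1 hr hxL
    refine ⟨h1.lin.2, y', hs.2.1, hy, ?_⟩
    rw [e, cls_eq_iff hT h.cvx' hs.1]
    exact hs
  · exact absurd e' (hL.ne_cls h.ff h.cvx y)

end Aux

/-- The map induced by an inclusion.
Hint: define the relation `Q u u'`: `u'.1.1 = i u.1.1` and either (`u` is `Lin` for `Y ψ`, the same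
set is `Lin` for `X (i ψ)`, `u'.1.2 = u.1.2`) or (`¬ (Lin for Y ∧ Lin for X)` and
`∃ x ∈ u.1.2, x ∈ Br (Y ψ) ∧ u'.1.2 = cls (X (i ψ)) x`). It is total and functional (for a class:
`Sh.incl`; for a line without long arc of `X`: a long arc between two of its points lies on it,
`On.mem`, `PL.mono`), and invariant (`Fam.tr`); take `σ` by choice. -/
theorem incl_map {i : Ψ → Φ} (h : Incl B G ρ X Y i) (p l : ℕ) :
    ∃ σ : IV h.fY p l → IV h.fX p l, (∀ (g : G) u, σ (g • u) = g • σ u) ∧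
      (∀ u, (σ u).1.1 = i u.1.1) ∧
      ∀ u v, (IG h.fY p l).Adj u v → σ u = σ v ∨ (IG h.fX p l).Adj (σ u) (σ v) := by
  have hF := h.fX.ff
  have hJ : ∀ ψ, stabilizer G ψ ≤ stabilizer G (i ψ) := fun ψ k hk => by
    rw [mem_stabilizer_iff] at hk ⊢
    rw [← h.smul, hk]
  have cY : ∀ ψ, Cvx B (Y ψ) := fun ψ => (h.fY.good ψ).cvx
  have cX : ∀ φ, Cvx B (X φ) := fun φ => (h.fX.good φ).cvx
  have tot : ∀ u : IV h.fY p l, ∃ S', gi3_Q B p l (stabilizer G u.1.1) (stabilizer G (i u.1.1))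
      (Y u.1.1) (X (i u.1.1)) u.1.2 S' := fun u => gi3_tot u.2
  choose s hs using tot
  refine ⟨fun u => ⟨(i u.1.1, s u), gi3_cod (h.sub _) (hs u)⟩, fun g u => ?_, fun u => rfl,
    fun u v huv => ?_⟩
  · apply Subtype.ext
    have e1 : i (g • u).1.1 = g • i u.1.1 := h.smul g u.1.1
    refine Prod.ext e1 ?_
    show s (g • u) = g • s u
    have t := gi3_tr hF.acts (h.fY.tr g u.1.1) (h.fX.tr g (i u.1.1)) (hs u)
    rw [← e1] at t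
    exact gi3_func hF (hJ _) (h.sub _) (cY _) (cX _) (g • u).2 (hs (g • u)) t
  · obtain ⟨⟨ψ, S⟩, hu⟩ := u
    obtain ⟨⟨ψ', S'⟩, hv⟩ := v
    rw [IG_adj] at huv
    obtain ⟨e, huv⟩ := huv
    obtain rfl : ψ = ψ' := e
    rcases huv with huv | huv
    · rcases gi3_inc hF (hJ ψ) (h.sub ψ) (cY _) (cX _) huv (hs ⟨_, hu⟩) (hs ⟨_, hv⟩) with e | e
      · exact Or.inl (Subtype.ext (Prod.ext rfl e))
      · exact Or.inr ((IG_adj h.fX).2 ⟨rfl, Or.inl e⟩)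
    · rcases gi3_inc hF (hJ ψ) (h.sub ψ) (cY _) (cX _) huv (hs ⟨_, hv⟩) (hs ⟨_, hu⟩) with e | e
      · exact Or.inl (Subtype.ext (Prod.ext rfl e.symm))
      · exact Or.inr ((IG_adj h.fX).2 ⟨rfl, Or.inr e⟩)

/-- The isomorphism induced by the level change.
Hint: relation `Q u u'`: same `ψ` and (`LCor u.1.2 u'.1.2` or
`∃ x x', r ψ x x' ∧ u.1.2 = cls x ∧ u'.1.2 = cls x'`). Total (`lcor_tot`, `tot`), functional
(`lcor_func`, `LCH.sh`, `Lin.ne_cls`), the same for the converse relation (`LCH.symm`,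
`lcor_flip`), invariant (`Fam.tr`, `hr`), preserves `Inc` in both directions (`lcor_inc`). It is
convenient to prove these facts for one `ψ` and general `LCH` first and to use them twice. -/
theorem lc_map (κ : Cst ρ) (hY : Fam B G ρ Y) (hT : Fam B G ρ T) {r : Ψ → V → V → Prop}
    (hr : ∀ (g : G) ψ x x', r ψ x x' → r (g • ψ) (g • x) (g • x'))
    (hc : ∀ ψ, LCH B κ (stabilizer G ψ) (Y ψ) (T ψ) (r ψ)) :
    ∃ f : IV hY κ.p κ.l → IV hT κ.p κ.l, (∀ (g : G) u, f (g • u) = g • f u) ∧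
      (∀ u, (f u).1.1 = u.1.1) ∧ DB (IG hY κ.p κ.l) (IG hT κ.p κ.l) f := by
  have hA := hY.ff.acts
  have tot : ∀ u : IV hY κ.p κ.l, ∃ S', gi3_R B κ.p κ.l (stabilizer G u.1.1) (Y u.1.1) (T u.1.1)
      (r u.1.1) u.1.2 S' := fun u => gi3R_tot (hc _) u.2
  choose s hs using tot
  have inj : ∀ u u' : IV hY κ.p κ.l, (u.1.1, s u) = (u'.1.1, s u') → u = u' := by
    rintro ⟨⟨ψ, S⟩, hu⟩ ⟨⟨ψ', S'⟩, hu'⟩ e
    obtain ⟨e1, e2⟩ := Prod.mk.inj e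
    obtain rfl : ψ = ψ' := e1
    have a := gi3R_flip (hc ψ) (hs ⟨_, hu⟩)
    have b := gi3R_flip (hc ψ) (hs ⟨_, hu'⟩)
    rw [e2] at a
    exact Subtype.ext (Prod.ext rfl (gi3R_func (hc ψ).symm a b))
  have pre : ∀ x : IV hT κ.p κ.l, ∃ u : IV hY κ.p κ.l, u.1.1 = x.1.1 ∧ s u = x.1.2 := by
    rintro ⟨⟨ψ, S⟩, hx⟩
    obtain ⟨S', h1⟩ := gi3R_tot (hc ψ).symm hx
    refine ⟨⟨(ψ, S'), gi3R_cod (hc ψ).symm h1⟩, rfl, ?_⟩
    exact gi3R_func (hc ψ) (hs ⟨(ψ, S'), gi3R_cod (hc ψ).symm h1⟩) (gi3R_flip (hc ψ).symm h1)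
  refine ⟨fun u => ⟨(u.1.1, s u), gi3R_cod (hc _) (hs u)⟩, fun g u => ?_, fun u => rfl,
    fun u v huv => ?_, fun u v u' v' _ _ e e' => ?_, fun x y hxy => ?_⟩
  · apply Subtype.ext
    refine Prod.ext rfl ?_
    show s (g • u) = g • s u
    exact gi3R_func (hc _) (hs (g • u))
      (gi3R_tr hA (hY.tr g u.1.1) (hT.tr g u.1.1) (hr g u.1.1) (hs u))
  · obtain ⟨⟨ψ, S⟩, hu⟩ := u
    obtain ⟨⟨ψ', S'⟩, hv⟩ := v
    rw [IG_adj] at huv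
    obtain ⟨e, huv⟩ := huv
    obtain rfl : ψ = ψ' := e
    refine (IG_adj hT).2 ⟨rfl, ?_⟩
    rcases huv with huv | huv
    · exact Or.inl (gi3R_inc (hc ψ) huv (hs ⟨_, hu⟩) (hs ⟨_, hv⟩))
    · exact Or.inr (gi3R_inc (hc ψ) huv (hs ⟨_, hv⟩) (hs ⟨_, hu⟩))
  · exact ⟨inj _ _ (congrArg Subtype.val e), inj _ _ (congrArg Subtype.val e')⟩
  · obtain ⟨u, e1, e2⟩ := pre x
    obtain ⟨v, e3, e4⟩ := pre y
    refine ⟨u, v, ?_, Subtype.ext (Prod.ext e1 e2), Subtype.ext (Prod.ext e3 e4)⟩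
    obtain ⟨⟨ψ, S⟩, hx⟩ := x
    obtain ⟨⟨ψ', S'⟩, hy⟩ := y
    obtain ⟨⟨ψ₁, S₁⟩, hu⟩ := u
    obtain ⟨⟨ψ₂, S₂⟩, hv⟩ := v
    rw [IG_adj] at hxy
    obtain ⟨e, hxy⟩ := hxy
    obtain rfl : ψ = ψ' := e
    obtain rfl : ψ₁ = ψ := e1
    obtain rfl : ψ₂ = ψ₁ := e3
    have a := gi3R_flip (hc ψ₂) (hs ⟨_, hu⟩)
    have b := gi3R_flip (hc ψ₂) (hs ⟨_, hv⟩)
    rw [e2] at a
    rw [e4] at b
    refine (IG_adj hY).2 ⟨rfl, ?_⟩
    rcases hxy with hxy | hxy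
    · exact Or.inl (gi3R_inc (hc ψ₂).symm hxy a b)
    · exact Or.inr (gi3R_inc (hc ψ₂).symm hxy b a)

end Gap
end CPOR
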