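import Pool.Agent.P.MP_2cb329_al.F.GA2

/-! F7: level change, part 1: short classes and long arcs correspond.
All statements have mirror images through `LCH.symm` (`flip r x' x` is `r x x'`). -/

set_option autoImplicit false

namespace CPOR
namespace Gap
open ZT MulAction

variable {V : Type} {B : SimpleGraph V} {G : Type} [Group G] [MulAction G V] {ρ : ℕ} {κ : Cst ρ}
  {J : Subgroup G} {X X' : Set V} {r : V → V → Prop}

theorem ACor.symm {l : ℕ} {x y x' y' : V} (h : ACor B l X X' r x y x' y') :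
    ACor B l X X' r y x y' x' := by
  obtain ⟨h1, h2, u, v, a, b, c, d⟩ := h
  exact ⟨h1.symm, h2.symm, v, u, b, a, d, c⟩

variable (h : LCH B κ J X X' r)
include h

theorem LCH.cvx : Cvx B X := h.cor.1.good.cvx

theorem LCH.cvx' : Cvx B X' := h.cor.2.good.cvx

theorem LCH.br {x x' : V} (hr : r x x') : x ∈ Br B X := h.cor.1.dom _ _ hr

theorem LCH.br' {x x' : V} (hr : r x x') : x' ∈ Br B X' := h.cor.2.dom _ _ hr

/-- Hint: `arc_induct` with the relation `u, v ∈ Br ∧ ∀ u' v', r u u' → r v v' → Sh u' v'`;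
`lip`, `mono`, `hFl`, `sh_of_dist`. -/
theorem LCH.sh {x x' y y' : V} (hx : r x x') (hy : r y y') (hs : Sh B κ.l X x y) :
    Sh B κ.l X' x' y' := by
  have hT := h.ff.acyc
  have near : ∀ u v u' v', r u u' → r v v' → B.dist u v ≤ κ.l → Sh B κ.l X' u' v' :=
    fun u v u' v' a b c => sh_of_dist hT h.gap'.len (h.br' a) (h.br' b)
      ((h.cor.1.lip _ _ _ _ a b).trans ((κ.mono c).trans κ.hFl))
  have key := arc_induct hT h.cvx
    (fun u v => u ∈ Br B X ∧ v ∈ Br B X ∧ ∀ u' v', r u u' → r v v' → Sh B κ.l X' u' v')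
    (fun z hz => ⟨hz, hz, fun u' v' a b => near _ _ _ _ a b (by simp)⟩)
    (fun a b c hab hbc => ⟨hab.1, hbc.2.1, fun u' v' ha hc => by
      obtain ⟨b', hb⟩ := h.cor.1.tot b hab.2.1
      exact (hab.2.2 _ _ ha hb).trans hT h.cvx' (hbc.2.2 _ _ hb hc)⟩)
    hs.1 hs.2.1
    (fun a b hab ho => ⟨hab.1, hab.2.1, fun u' v' ha hb => near _ _ _ _ ha hb
      (not_lt.1 fun hl => hs.2.2 a b ⟨hab, hl⟩ ho)⟩)
  exact key.2.2 _ _ hx hy

theorem LCH.sh_iff {x x' y y' : V} (hx : r x x') (hy : r y y') :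
    Sh B κ.l X x y ↔ Sh B κ.l X' x' y' := ⟨h.sh hx hy, h.symm.sh hx hy⟩

/-- Hint: take the median of `x', z', y'` (`br_median`); it is at most as far from `z'` as the
point given by `bcc`; `sh_of_dist`, `hCΛ`. -/
theorem LCH.btw {x x' y y' z z' : V} (hx : r x x') (hy : r y y') (hz : r z z')
    (hb : Btw B x z y) : ∃ w, Btw B x' w y' ∧ Sh B κ.l X' z' w := by
  have hT := h.ff.acyc
  obtain ⟨w, hw, hd⟩ := h.cor.1.bcc _ _ _ _ _ _ hx hy hz hb
  have bx := h.br' hx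
  have by' := h.br' hy
  have bz := h.br' hz
  obtain ⟨m, m1, m2, m3⟩ := exists_median hT (h.cvx' x' bx.1 z' bz.1).1 (h.cvx' z' bz.1 y' by'.1).1
  have bm := br_median hT h.cvx' bx bz by' m1 m2 m3
  refine ⟨m, m3, sh_of_dist hT h.gap'.len bz bm ?_⟩
  have k : Btw B z' m w := by
    rcases le_total (B.dist x' w) (B.dist x' m) with hd' | hd'
    · exact (m1.trans_left (hw.compare hT m3 hd').1).2.symm
    · exact (m2.trans_right (hw.symm.trans_right (m3.compare hT hw hd').1.symm).2.symm).2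
  have := k.2.2
  have := κ.hCΛ
  omega

/-- Hint: partners `u, v` of `x, y` are not equivalent, so there is a long arc `(x', y')` on
`[u, v]`. A partner `x₀` of `x'` is equivalent to a branch vertex on `[x, y]` (`h.symm.btw`), that
is to `x` or `y`; `y` is impossible because the arc separates `x'` from `v`. -/
theorem LCH.acor_tot {x y : V} (hl : Long B κ.l X x y) : ∃ x' y', ACor B κ.l X X' r x y x' y' := by
  have hT := h.ff.acyc
  obtain ⟨u, hu⟩ := h.cor.1.tot x hl.1.1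
  obtain ⟨v, hv⟩ := h.cor.1.tot y hl.1.2.1
  have hn : ¬ Sh B κ.l X' u v := fun hs => hl.not_sh h.cvx ((h.sh_iff hu hv).2 hs)
  obtain ⟨x', y', h1, h2, h3⟩ := first_long hT (h.br' hu) (h.br' hv) hn
  refine ⟨x', y', hl, h1, u, v, hu, hv, h3, ?_⟩
  obtain ⟨y₀, hy₀⟩ := h.cor.2.tot y' h1.1.2.1
  obtain ⟨w, w1, w2⟩ := h.symm.btw (x := u) (x' := x) (y := v) (y' := y) (z := y') (z' := y₀)
    hu hv hy₀ (h2.btw hT h1.1.2.2.1).2
  rcases hl.1.2.2.2 w w2.2.1 w1 with rfl | rfl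
  · exact absurd ((h.sh hy₀ hu w2).trans hT h.cvx' h3) (h1.symm.not_sh h.cvx')
  · exact (h.sh hy₀ hv w2).symm

theorem LCH.acor_func {x y x' y' x'' y'' : V} (h1 : ACor B κ.l X X' r x y x' y')
    (h2 : ACor B κ.l X X' r x y x'' y'') : x' = x'' ∧ y' = y'' := by
  have hT := h.ff.acyc
  obtain ⟨a1, a2, u, v, hu, hv, su, sv⟩ := h1
  obtain ⟨-, b2, u', v', hu', hv', su', sv'⟩ := h2
  exact long_unique hT h.cvx' a2 b2
    ((su.symm.trans hT h.cvx' (h.sh hu hu' (sh_refl a1.1.1))).trans hT h.cvx' su')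
    ((sv.symm.trans hT h.cvx' (h.sh hv hv' (sh_refl a1.1.2.1))).trans hT h.cvx' sv')

theorem LCH.acor_flip {x y x' y' : V} (h1 : ACor B κ.l X X' r x y x' y') :
    ACor B κ.l X' X (flip r) x' y' x y := by
  obtain ⟨a1, a2, u, v, hu, hv, su, sv⟩ := h1
  obtain ⟨x₀, hx₀⟩ := h.cor.2.tot x' a2.1.1
  obtain ⟨y₀, hy₀⟩ := h.cor.2.tot y' a2.1.2.1
  exact ⟨a2, a1, x₀, y₀, hx₀, hy₀, (h.sh_iff hx₀ hu).2 su.symm, (h.sh_iff hy₀ hv).2 sv.symm⟩

/-- Every partner of an end of the arc is equivalent to the corresponding end. -/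
theorem LCH.acor_sh {x y x' y' u : V} (h1 : ACor B κ.l X X' r x y x' y') (hu : r x u) :
    Sh B κ.l X' u x' := by
  obtain ⟨a1, -, u₁, v, hu₁, -, su, -⟩ := h1
  exact (h.sh hu hu₁ (sh_refl a1.1.1)).trans h.ff.acyc h.cvx' su

/-- Sides correspond. Hint: with partners `u₁, v₁` of `x, y`, `btw` gives `w` on `[u', v₁]`
equivalent to `x'`; `w` is on the `x'`-side and `v₁` on the `y'`-side (`Sh.side`); if `u'` were on
the `y'`-side then `On x' y' w u'` and `On x' y' w v₁` contradict `Btw u' w v₁`. -/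
theorem LCH.acor_side {x y x' y' u u' : V} (h1 : ACor B κ.l X X' r x y x' y') (hu : r u u')
    (hb : Btw B u x y) : Btw B u' x' y' := by
  have hT := h.ff.acyc
  obtain ⟨-, a2, u₁, v₁, hu₁, hv₁, su, sv⟩ := h1
  obtain ⟨w, w1, w2⟩ := h.btw hu hv₁ hu₁ hb
  have hr : B.Reachable x' y' := (h.cvx' x' a2.1.1.1 y' a2.1.2.1.1).1
  have hne : x' ≠ y' := a2.1.2.2.1
  have s1 : Btw B w x' y' :=
    Sh.side hT h.cvx' a2 (su.symm.trans hT h.cvx' w2) (btw_left hr)
  have s2 : Btw B v₁ y' x' := Sh.side hT h.cvx' a2.symm sv.symm (btw_left hr.symm)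
  rcases a2.1.side hT h.cvx' (h.br' hu) with k | k
  · exact k
  · exfalso
    have o1 := (On.btw hT (⟨s1, k⟩ : On B x' y' w u') hne).2
    have o2 := (On.btw hT (⟨s1, s2.symm⟩ : On B x' y' w v₁) hne).2
    have e : w = y' := ((w1.trans_left o1.symm).2.symm).antisymm o2.symm
    rw [e] at s1
    exact hne s1.eq_of_self

theorem LCH.acor_on {x y x' y' u u' v v' : V} (h1 : ACor B κ.l X X' r x y x' y') (hu : r u u')
    (hv : r v v') (ho : On B x y u v) : On B x' y' u' v' :=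
  ⟨h.acor_side h1 hu ho.1, (h.acor_side h1.symm hv ho.2.symm).symm⟩

theorem LCH.acor_smul {x y x' y' : V} (h1 : ACor B κ.l X X' r x y x' y') {k : G} (hk : k ∈ J) :
    ACor B κ.l X X' r (k • x) (k • y) (k • x') (k • y') := by
  obtain ⟨a1, a2, u, v, hu, hv, su, sv⟩ := h1
  have t := Tr.self hk h.cor.1.good.inv
  have t' := Tr.self hk h.cor.2.good.inv
  exact ⟨t.long h.ff.acts a1, t'.long h.ff.acts a2, k • u, k • v, h.cor.1.smul k hk _ _ hu,
    h.cor.1.smul k hk _ _ hv, t'.sh h.ff.acts su, t'.sh h.ff.acts sv⟩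

end Gap
end CPOR
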