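import Pool.Agent.P.MP_2cb329_al.F.GC

/-! F7: maps between forests, machines from dart bijections. -/

set_option autoImplicit false

namespace CPOR
namespace Gap
open ZT MulAction

section WM

variable {G : Type} [Group G] {U W Φ Ψ : Type} [MulAction G U] [MulAction G W] [MulAction G Φ]
  [MulAction G Ψ] {TU : SimpleGraph U} {T : SimpleGraph W} {μ : U → Ψ} {ν : W → Φ}

/-- A map that sends edges to edges or vertices, from compressed subgroups.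
Hint: relation `e ~ e'` iff `e` is a dart of `TU`, `e' = (σ e.1, σ e.2)` is a dart of `T`. Onto:
let `e'` be a dart over `φ = i ψ`; `D = σ '' {μ = ψ}` is a `stabilizer ψ`-tree (`cvx_of_chain`);
`Ovr.kc`, `Ovr.leafless` and `cmp` give `k` with `k • e'` in `D`; a geodesic of `TU` between
preimages crosses it (`Btw.chain_edge`, `Sep.eq_of_adj`); translate back by `k⁻¹`.
Then `nOrb_le_of_rel`, `bij_of_rel`. -/
theorem wm_count (hU : Ovr TU G μ) (hW : Ovr T G ν) (hn : NL T) (i : Ψ → Φ)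
    (hi : Function.Surjective i) (cmp : ∀ ψ, Cmp (stabilizer G ψ) (stabilizer G (i ψ)))
    (σ : U → W) (hσ : ∀ (g : G) u, σ (g • u) = g • σ u) (hν : ∀ u, ν (σ u) = i (μ u))
    (hadj : ∀ u v, TU.Adj u v → σ u = σ v ∨ T.Adj (σ u) (σ v)) :
    nOrb (⊤ : Subgroup G) (Darts T) ≤ nOrb (⊤ : Subgroup G) (Darts TU) ∧
      (nOrb (⊤ : Subgroup G) (Darts TU) ≤ nOrb (⊤ : Subgroup G) (Darts T) → DB TU T σ) := by
  let r : U × U → W × W → Prop := fun e e' =>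
    TU.Adj e.1 e.2 ∧ e' = (σ e.1, σ e.2) ∧ T.Adj e'.1 e'.2
  have hT := hW.gf.acyc
  have rs : ∀ k ∈ (⊤ : Subgroup G), ∀ x y, r x y → r (k • x) (k • y) := by
    rintro k - x _ ⟨h1, rfl, h3⟩
    exact ⟨hU.gf.acts k _ _ h1, Prod.ext (hσ k _).symm (hσ k _).symm, hW.gf.acts k _ _ h3⟩
  have rf : ∀ x y y', r x y → r x y' → y = y' := fun x y y' h h' => h.2.1.trans h'.2.1.symm
  have surj : ∀ y ∈ Darts T, ∃ x, r x y := by
    intro e he
    obtain ⟨ψ, hψ⟩ := hi (ν e.1)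
    have hD : KT T (stabilizer G ψ) (σ '' {u | μ u = ψ}) := by
      refine ⟨(hU.ν_surj ψ).imp' σ fun u hu => ⟨u, hu, rfl⟩, cvx_of_chain hT ?_, ?_⟩
      · rintro _ ⟨u, hu, rfl⟩ _ ⟨v, hv, rfl⟩
        obtain ⟨a, a0, an, a1, -, a3⟩ := exists_geod ((hU.ν_eq u v).1 (Eq.trans hu hv.symm))
        exact ⟨_, fun j => σ (a j), congrArg σ a0, congrArg σ an, fun j hj =>
          ⟨a j, ((hU.ν_eq _ _).2 (a3 j hj).1).symm.trans hu, rfl⟩, fun j hj => hadj _ _ (a1 j hj)⟩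
      · rintro k hk _ ⟨u, hu, rfl⟩
        refine ⟨k • u, ?_, hσ k u⟩
        show μ (k • u) = ψ
        rw [hU.ν_smul, show μ u = ψ from hu]
        exact hk
    obtain ⟨k, -, ha, ⟨u, hu, e1⟩, v, hv, e2⟩ := cmp ψ W T {x | ν x = i ψ} _ hW.gf (hW.kc _)
      (hψ ▸ hW.leafless hn he) hD (by
        rintro _ ⟨u, hu, rfl⟩
        exact (hν u).trans (congrArg i hu))
      e ⟨he, hψ.symm, ((hW.ν_eq _ _).2 (SimpleGraph.Adj.reachable he)).symm.trans hψ.symm⟩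
    obtain ⟨a, a0, an, a1, -⟩ := exists_geod ((hU.ν_eq u v).1 (Eq.trans hu hv.symm))
    obtain ⟨j, hj, b1, b2⟩ := Btw.chain_edge hT (fun j => σ (a j)) (TU.dist u v)
      (fun j hj => (hadj _ _ (a1 j hj)).elim (fun h => by rw [h]) fun h => h.reachable) ha
      (by rw [a0, e1]; exact btw_left ha.reachable) (by rw [an, e2]; exact btw_right ha.reachable)
    have hs : Sep T (k • e) (σ (a j)) (σ (a (j + 1))) := ⟨ha, b1, b2⟩
    rcases hadj _ _ (a1 j hj) with H | H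
    · rw [H] at hs
      exact (not_sep_self hT _ _ hs).elim
    · have := rs k⁻¹ trivial (a j, a (j + 1)) (k • e) ⟨a1 j hj, hs.eq_of_adj hT H, ha⟩
      exact ⟨_, by rwa [inv_smul_smul] at this⟩
  refine ⟨(nOrb_le_of_rel r hU.finE (fun x y h => h.1) rs rf surj).2, fun hle => ?_⟩
  obtain ⟨b1, b2⟩ := bij_of_rel r hU.finE (fun x y h => h.1) (fun x y h => h.2.2) rs rf surj
    (fun k _ y hy h => hW.gf.dart_free hy h) hle
  have b3 : ∀ u v, TU.Adj u v → T.Adj (σ u) (σ v) := fun u v h => by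
    obtain ⟨_, -, rfl, H⟩ := b1 (u, v) h
    exact H
  refine ⟨b3, fun u v u' v' h h' e1 e2 => ?_, fun x y h => ?_⟩
  · exact Prod.ext_iff.1 (b2 (u, v) (u', v') (σ u, σ v) ⟨h, rfl, b3 _ _ h⟩
      ⟨h', Prod.ext e1 e2, b3 _ _ h⟩)
  · obtain ⟨e, h1, h2, -⟩ := surj (x, y) h
    exact ⟨e.1, e.2, h1, (congrArg Prod.fst h2).symm, (congrArg Prod.snd h2).symm⟩

theorem DB.nOrb_eq {σ : U → W} (h : DB TU T σ) (hσ : ∀ (g : G) u, σ (g • u) = g • σ u)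
    (hU : FinOrb (⊤ : Subgroup G) (Darts TU)) (hA : Acts TU G) :
    nOrb (⊤ : Subgroup G) (Darts TU) = nOrb (⊤ : Subgroup G) (Darts T) := by
  have hm : ∀ (k : G) (e : U × U), Prod.map σ σ (k • e) = k • Prod.map σ σ e := fun k e =>
    Prod.ext (hσ k e.1) (hσ k e.2)
  have h1 := nOrb_le_of_surj (K' := (⊤ : Subgroup G)) (S' := Darts T) hU (Prod.map σ σ)
    (fun e _ e' _ ⟨k, hk, H⟩ => ⟨k, hk, by rw [← hm, H]⟩) fun e he => by
      obtain ⟨u, v, a, b1, b2⟩ := h.surj _ _ he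
      exact ⟨(u, v), a, 1, trivial, (one_smul _ _).trans (Prod.ext b1 b2)⟩
  refine le_antisymm (nOrb_le_of_inj h1.1 (Prod.map σ σ) (fun e he => h.adj _ _ he)
    fun e he e' he' ⟨k, hk, H⟩ => ⟨k, hk, ?_⟩).2 h1.2
  rw [← hm] at H
  exact Prod.ext_iff.2 (h.inj _ _ _ _ (hA k _ _ he) he' (congrArg Prod.fst H) (congrArg Prod.snd H))

/-- A dart bijection into a forest is an isometric embedding on components
(`exists_geod`, `geod_of_noback`). -/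
theorem DB.dist {σ : U → W} (h : DB TU T σ) (hT : T.IsAcyclic) {u v : U} (hr : TU.Reachable u v) :
    T.Reachable (σ u) (σ v) ∧ T.dist (σ u) (σ v) = TU.dist u v := by
  obtain ⟨a, a0, an, a1, a2, -⟩ := exists_geod hr
  have := geod_of_noback hT (fun i => σ (a i)) (TU.dist u v) (fun i hi => h.adj _ _ (a1 i hi))
    (fun i hi H => by
      have b2 := (h.inj _ _ _ _ (a1 i (by omega)).symm (a1 (i + 1) (by omega)) rfl H).2
      have := (a2 i (i + 2) (by omega) hi).2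
      rw [b2, SimpleGraph.dist_self] at this
      omega) 0 _ (Nat.zero_le _) le_rfl
  simpa only [a0, an, Nat.sub_zero] using this

theorem DB.btw {σ : U → W} (h : DB TU T σ) (hT : T.IsAcyclic) {u w v : U} (hb : Btw TU u w v) :
    Btw T (σ u) (σ w) (σ v) := by
  refine ⟨(h.dist hT hb.1).1, (h.dist hT hb.2.1).1, ?_⟩
  rw [(h.dist hT hb.1).2, (h.dist hT hb.2.1).2, (h.dist hT hb.reach).2]
  exact hb.2.2

theorem DB.btw_lift {σ : U → W} (h : DB TU T σ) (hT : T.IsAcyclic) {u v : U}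
    (hr : TU.Reachable u v) {z : W} (hb : Btw T (σ u) z (σ v)) : ∃ w, Btw TU u w v ∧ σ w = z := by
  have h1 := hb.2.2
  rw [(h.dist hT hr).2] at h1
  obtain ⟨w, hw, e⟩ := exists_btw_dist hr (i := T.dist (σ u) z) (by omega)
  exact ⟨w, hw, Btw.unique hT (h.btw hT hw) hb ((h.dist hT hw.1).2.trans e)⟩

end WM

section Mach

variable {G : Type} [Group G] {N : Type} [MulAction G N] {S : Sys G N} {W U : Type}
  [MulAction G W] [MulAction G U]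

/-- Two dart bijections from a forest over the arrows give an isometric machine:
`R a x y := ∃ u, μ u = a ∧ σ u = x ∧ τ u = y`. -/
theorem glue (Z : Spl S W) {TU : SimpleGraph U} {μ : U → S.A} (hU : Ovr TU G μ) {σ τ : U → W}
    (hσ : ∀ (g : G) u, σ (g • u) = g • σ u) (hτ : ∀ (g : G) u, τ (g • u) = g • τ u)
    (hσν : ∀ u, Z.ν (σ u) = S.src (μ u)) (hτν : ∀ u, Z.ν (τ u) = S.tgt (μ u))
    (h1 : DB TU Z.T σ) (h2 : DB TU Z.T τ) : ∃ M : Mach Z, M.NEG := by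
  have hT := Z.gf.acyc
  have hr : ∀ {u v : U} {a : S.A}, μ u = a → μ v = a → TU.Reachable u v := fun h h' =>
    (hU.ν_eq _ _).1 (h.trans h'.symm)
  have hi : ∀ {f : U → W}, DB TU Z.T f → ∀ {u v : U}, TU.Reachable u v → f u = f v → u = v :=
    fun h u v r e => eq_of_dist_zero r (by rw [← (h.dist hT r).2, e, SimpleGraph.dist_self])
  have key : ∀ {f : U → W}, DB TU Z.T f → ∀ x x', Z.T.Adj x x' →
      ∃! a, (∃ u, μ u = a ∧ f u = x) ∧ ∃ u, μ u = a ∧ f u = x' := by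
    intro f h x x' ha
    obtain ⟨u, v, huv, rfl, rfl⟩ := h.surj x x' ha
    refine ⟨μ u, ⟨⟨u, rfl, rfl⟩, v, ((hU.ν_eq _ _).2 huv.reachable).symm, rfl⟩, ?_⟩
    rintro b ⟨⟨u', b1, b2⟩, v', b3, b4⟩
    have b5 : TU.Adj u' v' := adj_of_dist_one (by
      rw [← (h.dist hT (hr b1 b3)).2, b2, b4, SimpleGraph.dist_eq_one_iff_adj.2 ha])
    rw [← b1, (h.inj _ _ _ _ b5 huv b2 b4).1]
  refine ⟨{
    R := fun a x y => ∃ u, μ u = a ∧ σ u = x ∧ τ u = y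
    smul := by
      rintro g _ _ _ ⟨u, rfl, rfl, rfl⟩
      exact ⟨g • u, hU.ν_smul g u, hσ g u, hτ g u⟩
    src := by
      rintro _ _ _ ⟨u, rfl, rfl, rfl⟩
      exact hσν u
    tgt := by
      rintro _ _ _ ⟨u, rfl, rfl, rfl⟩
      exact hτν u
    func := by
      rintro a x _ _ ⟨u, a1, a2, rfl⟩ ⟨v, b1, b2, rfl⟩
      rw [hi h1 (hr a1 b1) (a2.trans b2.symm)]
    inj := by
      rintro a _ _ y ⟨u, a1, rfl, a2⟩ ⟨v, b1, rfl, b2⟩
      rw [hi h2 (hr a1 b1) (a2.trans b2.symm)]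
    ne := fun a => by
      obtain ⟨u, hu⟩ := hU.ν_surj a
      exact ⟨_, _, u, hu, rfl, rfl⟩
    cvx := by
      rintro a _ _ _ _ z ⟨u, a1, rfl, rfl⟩ ⟨v, b1, rfl, rfl⟩ hb
      obtain ⟨w, hw, rfl⟩ := h1.btw_lift hT (hr a1 b1) hb
      exact ⟨τ w, ⟨w, ((hU.ν_eq _ _).2 hw.1).symm.trans a1, rfl, rfl⟩, h2.btw hT hw⟩
    fin := (hU.finW.image (fun u => (μ u, σ u, τ u)) fun k _ u _ _ =>
      Prod.ext (hU.ν_smul k u) (Prod.ext (hσ k u) (hτ k u))).mono (by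
        rintro ⟨a, x, y⟩ ⟨u, a1, a2, a3⟩
        exact ⟨u, trivial, Prod.ext a1 (Prod.ext a2 a3)⟩) }, ?_, fun x x' ha => ?_,
    fun x x' ha => ?_⟩
  · rintro a _ _ _ _ ⟨u, a1, rfl, rfl⟩ ⟨v, b1, rfl, rfl⟩
    rw [(h1.dist hT (hr a1 b1)).2, (h2.dist hT (hr a1 b1)).2]
  · obtain ⟨a, ⟨⟨u, a1, a2⟩, v, a3, a4⟩, ha'⟩ := key h1 x x' ha
    exact ⟨a, ⟨⟨_, u, a1, a2, rfl⟩, _, v, a3, a4, rfl⟩,
      fun b ⟨⟨_, u', b1, b2, _⟩, _, v', b3, b4, _⟩ => ha' b ⟨⟨u', b1, b2⟩, v', b3, b4⟩⟩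
  · obtain ⟨a, ⟨⟨u, a1, a2⟩, v, a3, a4⟩, ha'⟩ := key h2 x x' ha
    exact ⟨a, ⟨⟨_, u, a1, rfl, a2⟩, _, v, a3, rfl, a4⟩,
      fun b ⟨⟨_, u', b1, _, b2⟩, _, v', b3, _, b4⟩ => ha' b ⟨⟨u', b1, b2⟩, v', b3, b4⟩⟩

/-- Hint: the set of nodes whose tree has an edge is invariant, nonempty and closed under
arrows (`inj`, `sep_nxt`); `Ovr.not_fix`. -/
theorem nofix {Z : Spl S W} (M : Mach Z) (hn : NL Z.T) (hc : FC G S.src S.tgt)
    (hd : (Darts Z.T).Nonempty)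
    (out : ∀ x x', Z.T.Adj x x' → ∃ a, (∃ y, M.R a x y) ∧ ∃ y', M.R a x' y') : Z.NoFix := by
  have hO := ovr_of_spl Z
  have key := hc {φ | ∃ x y, Z.T.Adj x y ∧ Z.ν x = φ} (by
    obtain ⟨e, he⟩ := hd
    exact ⟨_, e.1, e.2, he, rfl⟩) (by
    rintro k - _ ⟨x, y, h, rfl⟩
    exact ⟨k • x, k • y, Z.gf.acts k _ _ h, Z.ν_smul k x⟩) (by
    rintro _ ⟨x, x', h, rfl⟩
    obtain ⟨a, ⟨y, h1⟩, y', h2⟩ := out x x' h
    have := sep_nxt Z.gf.acyc ((Z.ν_eq y y').1 ((M.tgt _ _ _ h1).trans (M.tgt _ _ _ h2).symm))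
      fun e => h.ne (M.inj a x x' y h1 (e ▸ h2))
    exact ⟨a, (M.src _ _ _ h1).symm, y, _, this.1, M.tgt _ _ _ h1⟩)
  intro z
  obtain ⟨x, y, h, e⟩ := key (Z.ν z)
  exact hO.not_fix hn h e.symm

end Mach

end Gap
end CPOR
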