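import Pool.Agent.P.MP_2cb329_al.F.GC

/-! F7: from a relative pre-machine to an irreducible machine. -/

set_option autoImplicit false

namespace CPOR
namespace Gap
open ZT MulAction

variable {G : Type} [Group G] {N : Type} [MulAction G N] {S : Sys G N} {W : Type} [MulAction G W]
  {Z : Spl S W} {R : S.A → W → W → Prop}

theorem RelM.restrict {Kp Kq : Set (W × W)} (h : RelM Z R Kp) (hs : Kq ⊆ Kp) (hq : SymInv G Kq)
    (hc : Closed Z R Kq) : RelM Z R Kq := by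
  refine ⟨hq, hs.trans h.sub, h.smul, h.src, h.tgt, h.ne, h.fin, hc, ?_,
    fun e he => h.out e (hs he), fun e he => h.onto e (hs he)⟩
  intro a x y x' y' z h1 h2 hb
  obtain ⟨z₁, w₁, w, e1, e2, e3, e4⟩ := h.cvx a x y x' y' z h1 h2 hb
  exact ⟨z₁, w₁, w, e1.mono hs, e2, e3.mono hs, e4⟩

/-- A minimal closed set of darts (minimise `nOrb ⊤`; two invariant sets `A ⊆ A'` with the same
number of orbits are equal). -/
theorem RelM.exists_min {Kp : Set (W × W)} (h : RelM Z R Kp) (hne : Kp.Nonempty) :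
    ∃ Kq, RelM Z R Kq ∧ Kq.Nonempty ∧
      ∀ Kr, Kr ⊆ Kq → SymInv G Kr → Kr.Nonempty → Closed Z R Kr → Kq ⊆ Kr := by
  classical
  have hex : ∃ n, ∃ Kq, RelM Z R Kq ∧ Kq.Nonempty ∧ nOrb (⊤ : Subgroup G) Kq = n :=
    ⟨_, Kp, h, hne, rfl⟩
  obtain ⟨Kq, hq, hqne, hqn⟩ := Nat.find_spec hex
  refine ⟨Kq, hq, hqne, fun Kr hs hr hrne hc e he => ?_⟩
  by_contra hn
  have hfin : FinOrb (⊤ : Subgroup G) Kq := Z.finE.mono hq.sub
  have h1 : Nat.find hex ≤ nOrb (⊤ : Subgroup G) Kr :=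
    Nat.find_min' hex ⟨Kr, hq.restrict hs hr hc, hrne, rfl⟩
  have h2 : Kr ⊆ Kq \ orb (⊤ : Subgroup G) e := by
    rintro e' he'
    refine ⟨hs he', ?_⟩
    rintro ⟨k, -, rfl⟩
    have := hr.smul k⁻¹ _ he'
    rw [inv_smul_smul] at this
    exact hn this
  have h3 := nOrb_mono (hfin.mono Set.sdiff_subset) h2
  have h4 := nOrb_diff_lt hfin he
  omega

/-- Collapse everything outside a minimal set: `Ovr.collapse` of `ovr_of_spl Z`, `Ovr.spl`,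
`R' a ξ η := ∃ x y, R a x y ∧ π x = ξ ∧ π y = η`; `IsCol.eq_iff` says `π x = π y ↔ Eqv`,
`eqv_darts_iff`, `IsCol.sep_iff`, `btw`, `btw_lift`. For `NoCol` pull a set `Kp'` of darts back to
`{e ∈ Kq | (π e.1, π e.2) ∈ Kp'}`. -/
theorem RelM.collapse {Kq : Set (W × W)} (h : RelM Z R Kq) (hne : Kq.Nonempty) (hn : NL Z.T)
    (hmin : ∀ Kr, Kr ⊆ Kq → SymInv G Kr → Kr.Nonempty → Closed Z R Kr → Kq ⊆ Kr) :
    ∃ (W' : Type) (_ : MulAction G W') (Z' : Spl S W') (R' : S.A → W' → W' → Prop),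
      RelM Z' R' (Darts Z'.T) ∧ NoCol Z' R' ∧ NL Z'.T ∧ (Darts Z'.T).Nonempty := by
  obtain ⟨W', inst, T', π, ν', hc, hO, hν, hNL⟩ := (ovr_of_spl Z).collapse h.sym
  have hG := Z.gf
  have hK := h.sym
  have hT' := hO.gf.acyc
  have heq : ∀ x y, π x = π y ↔ Eqv Z.T Kq x y := hc.eq_iff
  have lift : ∀ e' : W' × W', T'.Adj e'.1 e'.2 →
      ∃ e ∈ Kq, Z.T.Adj e.1 e.2 ∧ (π e.1, π e.2) = e' := by
    intro e' he'
    obtain ⟨e, he, ha, h1, h2⟩ := (hc.adj_iff _ _).1 he'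
    exact ⟨e, he, ha, Prod.ext h1 h2⟩
  refine ⟨W', inst, hO.spl S, fun a ξ η => ∃ x y, R a x y ∧ π x = ξ ∧ π y = η,
    ⟨⟨fun g e he => hO.gf.acts g _ _ he, fun e he => SimpleGraph.Adj.symm he⟩, subset_rfl,
      ?_, ?_, ?_, ?_, ?_, ?_, ?_, ?_, ?_⟩, ?_, hNL hn, ?_⟩
  · rintro g a _ _ ⟨x, y, hr, rfl, rfl⟩
    exact ⟨g • x, g • y, h.smul g a x y hr, hc.smul g x, hc.smul g y⟩
  · rintro a _ _ ⟨x, y, hr, rfl, rfl⟩
    exact (hν x).trans (h.src a x y hr)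
  · rintro a _ _ ⟨x, y, hr, rfl, rfl⟩
    exact (hν y).trans (h.tgt a x y hr)
  · intro a
    obtain ⟨x, y, hr⟩ := h.ne a
    exact ⟨π x, π y, x, y, hr, rfl, rfl⟩
  · refine (h.fin.image (fun τ : S.A × W × W => (τ.1, π τ.2.1, π τ.2.2)) ?_).mono ?_
    · intro k _ τ _ _
      exact Prod.ext rfl (Prod.ext (hc.smul k _) (hc.smul k _))
    · rintro ⟨a, ξ, η⟩ ⟨x, y, hr, h1, h2⟩
      exact ⟨(a, x, y), hr, Prod.ext rfl (Prod.ext h1 h2)⟩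
  · rintro a _ _ _ _ ⟨x, y, hr, rfl, rfl⟩ ⟨x', y', hr', rfl, rfl⟩ he
    have e1 : π x = π x' := (eqv_darts_iff hT').1 he
    have e2 : π y = π y' := (heq _ _).2 (h.func a x y x' y' hr hr' ((heq _ _).1 e1))
    exact (eqv_darts_iff hT').2 e2
  · rintro a _ _ _ _ ζ ⟨x, y, hr, rfl, rfl⟩ ⟨x', y', hr', rfl, rfl⟩ hb
    obtain ⟨z, hz, rfl⟩ := hc.btw_lift hG hK hb
    obtain ⟨z₁, w₁, w, e1, e2, e3, e4⟩ := h.cvx a x y x' y' z hr hr' hz
    exact ⟨π z₁, π w₁, π w, (eqv_darts_iff hT').2 ((heq _ _).2 e1), ⟨z₁, w₁, e2, rfl, rfl⟩,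
      (eqv_darts_iff hT').2 ((heq _ _).2 e3), hc.btw hG hK e4⟩
  · intro e' he'
    obtain ⟨e, he, ha, rfl⟩ := lift e' he'
    obtain ⟨a, ⟨x, y, x', y', hr, hr', hs⟩, hu⟩ := h.out e he
    refine ⟨a, ⟨π x, π y, π x', π y', ⟨x, y, hr, rfl, rfl⟩, ⟨x', y', hr', rfl, rfl⟩,
      (hc.sep_iff hG hK he ha x x').2 hs⟩, ?_⟩
    rintro b ⟨_, _, _, _, ⟨u, v, hb, rfl, rfl⟩, ⟨u', v', hb', rfl, rfl⟩, hs'⟩
    exact hu b ⟨u, v, u', v', hb, hb', (hc.sep_iff hG hK he ha u u').1 hs'⟩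
  · intro e' he'
    obtain ⟨e, he, ha, rfl⟩ := lift e' he'
    obtain ⟨a, x, y, x', y', hr, hr', hs⟩ := h.onto e he
    exact ⟨a, π x, π y, π x', π y', ⟨x, y, hr, rfl, rfl⟩, ⟨x', y', hr', rfl, rfl⟩,
      (hc.sep_iff hG hK he ha y y').2 hs⟩
  · intro Kp' hsub hsym hne' hcl
    have hmem : Kq ⊆ {e | e ∈ Kq ∧ (π e.1, π e.2) ∈ Kp'} := by
      refine hmin _ (fun e he => he.1) ⟨fun g e he => ⟨hK.smul g e he.1, ?_⟩,
        fun e he => ⟨hK.symm e he.1, hsym.symm _ he.2⟩⟩ ?_ ?_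
      · have := hsym.smul g _ he.2
        have e1 : (π (g • e).1, π (g • e).2) = g • (π e.1, π e.2) :=
          Prod.ext (hc.smul g _) (hc.smul g _)
        rw [e1]
        exact this
      · obtain ⟨e', he'⟩ := hne'
        obtain ⟨e, he, -, rfl⟩ := lift e' (hsub he')
        exact ⟨e, he, he'⟩
      · intro a x y x' y' hr hr' he
        have e1 : Eqv T' Kp' (π x) (π x') := by
          refine ⟨(hc.reach_iff hG hK x x').2 he.1, fun e' he' hs => ?_⟩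
          obtain ⟨e, hq, ha, rfl⟩ := lift e' (hsub he')
          exact he.2 e ⟨hq, he'⟩ ((hc.sep_iff hG hK hq ha x x').1 hs)
        have e2 : Eqv T' Kp' (π y) (π y') :=
          hcl a _ _ _ _ ⟨x, y, hr, rfl, rfl⟩ ⟨x', y', hr', rfl, rfl⟩ e1
        refine ⟨(hc.reach_iff hG hK y y').1 e2.1, fun e hq hs => ?_⟩
        exact e2.2 _ hq.2 ((hc.sep_iff hG hK hq.1 hs.1 y y').2 hs)
    intro e' he'
    obtain ⟨e, he, -, rfl⟩ := lift e' he'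
    exact (hmem he).2
  · obtain ⟨e, he⟩ := hne
    exact ⟨(π e.1, π e.2), (hc.adj_iff _ _).2 ⟨e, he, h.sub he, rfl, rfl⟩⟩

end Gap
end CPOR
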