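import Pool.Agent.P.MP_2cb329_al.F.GC

/-! F7: an irreducible pre-machine is a machine; the isometric case. -/

set_option autoImplicit false

namespace CPOR
namespace Gap
open ZT MulAction

variable {G : Type} [Group G] {N : Type} [MulAction G N] {S : Sys G N} {W : Type} [MulAction G W]
  {Z : Spl S W} {R : S.A → W → W → Prop}

theorem RelM.func' (h : RelM Z R (Darts Z.T)) {a : S.A} {x y y' : W} (h1 : R a x y)
    (h2 : R a x y') : y = y' := by
  have hT := Z.gf.acyc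
  exact (eqv_darts_iff hT).1 (h.func a x y x y' h1 h2 (eqv_refl hT _ x))

theorem RelM.cvx' (h : RelM Z R (Darts Z.T)) {a : S.A} {x y x' y' z : W} (h1 : R a x y)
    (h2 : R a x' y') (hb : Btw Z.T x z x') : ∃ w, R a z w ∧ Btw Z.T y w y' := by
  have hT := Z.gf.acyc
  obtain ⟨z₁, w₁, w, e1, r, e2, b⟩ := h.cvx a x y x' y' z h1 h2 hb
  obtain rfl := (eqv_darts_iff hT).1 e1
  obtain rfl := (eqv_darts_iff hT).1 e2
  exact ⟨w₁, r, b⟩

/-- A dart crossed by the image of a geodesic is crossed by the image of one of its darts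
(induction on `dist x x'`, `nxt`, `sep_iff_of_btw`). -/
theorem RelM.chain (h : RelM Z R (Darts Z.T)) {a : S.A} {x y x' y' : W} (h1 : R a x y)
    (h2 : R a x' y') {e' : W × W} (hs : Sep Z.T e' y y') :
    ∃ e w w', Sep Z.T e x x' ∧ R a e.1 w ∧ R a e.2 w' ∧ Sep Z.T e' w w' := by
  have hT := Z.gf.acyc
  generalize hn : Z.T.dist x x' = n
  induction n generalizing x y with
  | zero =>
    have hr : Z.T.Reachable x x' := (Z.ν_eq _ _).1 ((h.src _ _ _ h1).trans (h.src _ _ _ h2).symm)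
    obtain rfl := eq_of_dist_zero hr hn
    obtain rfl := h.func' h1 h2
    exact absurd hs (not_sep_self hT _ _)
  | succ n ih =>
    have hr : Z.T.Reachable x x' := (Z.ν_eq _ _).1 ((h.src _ _ _ h1).trans (h.src _ _ _ h2).symm)
    have hne : x ≠ x' := by
      rintro rfl
      simp at hn
    have s := sep_nxt hT hr hne
    obtain ⟨-, b2, -, b4⟩ := s.btw hT
    simp only at b2 b4
    obtain ⟨w, r, b⟩ := h.cvx' h1 h2 b2
    rcases (sep_iff_of_btw hT b e').1 hs with k | k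
    · exact ⟨(x, nxt Z.T x x'), y, w, s, h1, r, k⟩
    · obtain ⟨e, u, u', k1, k2, k3, k4⟩ := ih r k (by omega)
      exact ⟨e, u, u', (sep_iff_of_btw hT b2 e).2 (Or.inr k1), k2, k3, k4⟩

/-- Hint for `inj`: the set of darts `e` with `∀ a w w', R a e.1 w → R a e.2 w' → w ≠ w'` is
invariant, symmetric, nonempty (`onto`, `chain`, uniqueness in `out`) and closed (`chain`), so it
contains all darts; if `x ≠ x'` had the same image, the first dart of `[x, x']` is collapsed. -/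
theorem RelM.mach (h : RelM Z R (Darts Z.T)) (hc : NoCol Z R) (hne : (Darts Z.T).Nonempty) :
    ∃ M : Mach Z, Irr M := by
  have hT := Z.gf.acyc
  have reach : ∀ a x y x' y', R a x y → R a x' y' → Z.T.Reachable y y' :=
    fun a x y x' y' h1 h2 => (Z.ν_eq _ _).1 ((h.tgt _ _ _ h1).trans (h.tgt _ _ _ h2).symm)
  have uniq : ∀ (e : W × W) a b w w' u u', Z.T.Adj e.1 e.2 → R a e.1 w → R a e.2 w' →
      R b e.1 u → R b e.2 u' → a = b := by
    intro e a b w w' u u' he r1 r2 r3 r4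
    exact (h.out e he).unique ⟨e.1, w, e.2, w', r1, r2, sep_adj hT he⟩
      ⟨e.1, u, e.2, u', r3, r4, sep_adj hT he⟩
  let Kp : Set (W × W) := {e | Z.T.Adj e.1 e.2 ∧ ∀ a w w', R a e.1 w → R a e.2 w' → w ≠ w'}
  have key : ∀ (e e' : W × W) a w w', Z.T.Adj e.1 e.2 → R a e.1 w → R a e.2 w' →
      Sep Z.T e' w w' → e ∈ Kp := by
    intro e e' a w w' he r1 r2 s
    refine ⟨he, fun b u u' r3 r4 huu => ?_⟩
    obtain rfl := uniq e a b w w' u u' he r1 r2 r3 r4
    obtain rfl := h.func' r1 r3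
    obtain rfl := h.func' r2 r4
    subst huu
    exact not_sep_self hT _ _ s
  have all : Darts Z.T ⊆ Kp := by
    refine hc Kp (fun e he => he.1) ⟨fun g e he => ⟨Z.gf.acts g _ _ he.1, ?_⟩,
      fun e he => ⟨he.1.symm, fun a w w' r1 r2 => (he.2 a w' w r2 r1).symm⟩⟩ ?_ ?_
    · intro a w w' r1 r2 hw
      have q1 := h.smul g⁻¹ _ _ _ r1
      have q2 := h.smul g⁻¹ _ _ _ r2
      simp only [Prod.smul_fst, Prod.smul_snd, inv_smul_smul] at q1 q2
      exact he.2 _ _ _ q1 q2 (by rw [hw])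
    · obtain ⟨e', he'⟩ := hne
      obtain ⟨a, x, y, x', y', r1, r2, s⟩ := h.onto e' he'
      obtain ⟨e, w, w', k1, k2, k3, k4⟩ := h.chain r1 r2 s
      exact ⟨e, key e e' a w w' k1.1 k2 k3 k4⟩
    · intro a x y x' y' r1 r2 q
      refine ⟨reach a x y x' y' r1 r2, fun e' _ s => ?_⟩
      obtain ⟨e, w, w', k1, k2, k3, k4⟩ := h.chain r1 r2 s
      exact q.2 e (key e e' a w w' k1.1 k2 k3 k4) k1
  have inj : ∀ a x x' y, R a x y → R a x' y → x = x' := by
    intro a x x' y r1 r2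
    by_contra hne'
    have hr : Z.T.Reachable x x' := (Z.ν_eq _ _).1 ((h.src _ _ _ r1).trans (h.src _ _ _ r2).symm)
    have s := sep_nxt hT hr hne'
    obtain ⟨w, r, b⟩ := h.cvx' r1 r2 (s.btw hT).2.1
    exact (all (show (x, nxt Z.T x x') ∈ Darts Z.T from s.1)).2 a y w r1 r b.eq_of_self.symm
  let M : Mach Z := ⟨R, h.smul, h.src, h.tgt, fun a x y y' r1 r2 => h.func' r1 r2, inj, h.ne,
    fun a x y x' y' z r1 r2 b => h.cvx' r1 r2 b, h.fin⟩
  refine ⟨M, fun x x' hx => ?_, fun e' he' => ?_, fun K h1 h2 h3 h4 => hc K h1 h2 h3 ?_⟩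
  · obtain ⟨a, ⟨u, v, u', v', r1, r2, s⟩, -⟩ := h.out (x, x') hx
    obtain ⟨w, r3, -⟩ := h.cvx' r1 r2 (s.btw hT).1
    obtain ⟨w', r4, -⟩ := h.cvx' r1 r2 (s.btw hT).2.1
    refine ⟨a, ⟨⟨w, r3⟩, w', r4⟩, ?_⟩
    rintro b ⟨⟨t, r5⟩, t', r6⟩
    exact uniq (x, x') b a t t' w w' hx r5 r6 r3 r4
  · obtain ⟨a, x, y, x', y', r1, r2, s⟩ := h.onto e' he'
    obtain ⟨e, w, w', k1, k2, k3, k4⟩ := h.chain r1 r2 s
    exact ⟨e, k1.1, a, w, w', k2, k3, k4⟩
  · intro a x y x' y' r1 r2 q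
    refine ⟨reach a x y x' y' r1 r2, fun e' he' s => ?_⟩
    obtain ⟨e, w, w', k1, k2, k3, k4⟩ := h.chain r1 r2 s
    exact q.2 e (h4 e e' ⟨k1.1, a, w, w', k2, k3, k4⟩ he') k1

/-- If every edge goes to an edge the machine is isometric. Hint: `iso` by induction on the
distance (`cvx`). `inn`: define `σ e` for darts by choice from `out`; it is equivariant and onto
(`onto`, `Sep.eq_of_adj`), so injective (`inj_of_surj_free`, `GF.dart_free`). If both ends of the
dart `(y, y')` are images under `a` of `x, x'`, then `x, x'` are adjacent by `iso`. -/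
theorem Irr.neg {M : Mach Z} (h : Irr M)
    (hadj : ∀ a x y x' y', M.R a x y → M.R a x' y' → Z.T.Adj x x' → Z.T.Adj y y') : M.NEG := by
  have hT := Z.gf.acyc
  have iso : ∀ a x y x' y', M.R a x y → M.R a x' y' → Z.T.dist y y' = Z.T.dist x x' := by
    intro a x y x' y' h1 h2
    generalize hn : Z.T.dist x x' = n
    induction n generalizing x y with
    | zero =>
      have hr : Z.T.Reachable x x' :=
        (Z.ν_eq _ _).1 ((M.src _ _ _ h1).trans (M.src _ _ _ h2).symm)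
      obtain rfl := eq_of_dist_zero hr hn
      obtain rfl := M.func _ _ _ _ h1 h2
      simp
    | succ n ih =>
      have hr : Z.T.Reachable x x' :=
        (Z.ν_eq _ _).1 ((M.src _ _ _ h1).trans (M.src _ _ _ h2).symm)
      have hne : x ≠ x' := by
        rintro rfl
        simp at hn
      have s := sep_nxt hT hr hne
      obtain ⟨-, b2, -, b4⟩ := s.btw hT
      simp only at b2 b4
      obtain ⟨w, r, b⟩ := M.cvx _ _ _ _ _ _ h1 h2 b2
      have d1 := SimpleGraph.dist_eq_one_iff_adj.2 (hadj a x y _ w h1 r s.1)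
      have d2 := ih _ _ r (by omega)
      have d3 := b.2.2
      omega
  refine ⟨iso, h.out, fun y y' hy => ?_⟩
  have ex : ∀ e ∈ Darts Z.T, ∃ e' : W × W, ∃ a, M.R a e.1 e'.1 ∧ M.R a e.2 e'.2 := by
    intro e he
    obtain ⟨a, ⟨⟨w, r1⟩, w', r2⟩, -⟩ := h.out e.1 e.2 he
    exact ⟨(w, w'), a, r1, r2⟩
  choose! σ hσ using ex
  have det : ∀ e ∈ Darts Z.T, ∀ a w w', M.R a e.1 w → M.R a e.2 w' → σ e = (w, w') := by
    intro e he a w w' r1 r2
    obtain ⟨b, r3, r4⟩ := hσ e he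
    obtain rfl : a = b := (h.out e.1 e.2 he).unique ⟨⟨_, r1⟩, _, r2⟩ ⟨⟨_, r3⟩, _, r4⟩
    exact Prod.ext (M.func _ _ _ _ r3 r1) (M.func _ _ _ _ r4 r2)
  have inv : Inv (⊤ : Subgroup G) (Darts Z.T) := fun g _ e he => Z.gf.acts g _ _ he
  have surj : ∀ e' ∈ Darts Z.T, ∃ e ∈ Darts Z.T, σ e = e' := by
    intro e' he'
    obtain ⟨e, he, a, w, w', r1, r2, s⟩ := h.onto e' he'
    refine ⟨e, he, ?_⟩
    rw [det e he a w w' r1 r2]
    exact (Sep.eq_of_adj hT (hadj a _ _ _ _ r1 r2 he) s).symm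
  have hinj := inj_of_surj_free Z.finE inv (fun g e he hg => Z.gf.dart_free he hg) σ
    (fun e he => by
      obtain ⟨a, r1, r2⟩ := hσ e he
      exact hadj a _ _ _ _ r1 r2 he)
    (fun g e he => by
      obtain ⟨a, r1, r2⟩ := hσ e he
      exact det (g • e) (inv g (Subgroup.mem_top g) e he) (g • a) _ _ (M.smul g _ _ _ r1)
        (M.smul g _ _ _ r2)) surj
  obtain ⟨e, he, hσe⟩ := surj (y, y') hy
  obtain ⟨a, r1, r2⟩ := hσ e he
  rw [hσe] at r1 r2
  refine ⟨a, ⟨⟨_, r1⟩, _, r2⟩, ?_⟩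
  rintro b ⟨⟨x, r3⟩, x', r4⟩
  have hx : Z.T.Adj x x' := by
    refine adj_of_dist_one ?_
    rw [← iso b x y x' y' r3 r4]
    exact SimpleGraph.dist_eq_one_iff_adj.2 hy
  have e1 : (x, x') = e := hinj (x, x') hx e he (by rw [det (x, x') hx b y y' r3 r4, hσe])
  subst e1
  exact (h.out x x' hx).unique ⟨⟨_, r3⟩, _, r4⟩ ⟨⟨_, r1⟩, _, r2⟩

end Gap
end CPOR
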