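import Pool.Agent.P.MP_2cb329_al.F.GC

/-! F7: the expanding case. -/

set_option autoImplicit false

namespace CPOR
namespace Gap
open ZT MulAction

variable {G : Type} [Group G] {N : Type} [MulAction G N] {S : Sys G N} {W : Type} [MulAction G W]
  {Z : Spl S W}

/-- It suffices to have expansion on edges (induction on `dist x x'`, `M.cvx`, `len_add`). -/
theorem exp_of_adj {M : Mach Z} {l : W × W → ℝ} {μ : ℝ}
    (h : ∀ a x y x' y', M.R a x y → M.R a x' y' → Z.T.Adj x x' → μ * l (x, x') ≤ len Z.T l y y') :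
    ∀ a x y x' y', M.R a x y → M.R a x' y' → μ * len Z.T l x x' ≤ len Z.T l y y' := by
  have hT := Z.gf.acyc
  intro a x y x' y' h1 h2
  refine t6_geod_ind hT (P := fun x x' => ∀ y y', M.R a x y → M.R a x' y' →
    μ * len Z.T l x x' ≤ len Z.T l y y') ?_ ?_
    ((Z.ν_eq x x').1 ((M.src _ _ _ h1).trans (M.src _ _ _ h2).symm)) y y' h1 h2
  · intro x y y' h1 h2
    rw [M.func _ _ _ _ h1 h2, len_self hT, len_self hT, mul_zero]
  · intro x z x' hxz hb ih y y' h1 h2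
    obtain ⟨w, hw, hb'⟩ := M.cvx _ _ _ _ _ z h1 h2 hb
    have := h _ _ _ _ _ h1 hw hxz
    have := ih _ _ hw h2
    rw [len_add hT l hb, len_add hT l hb', len_adj hT l hxz]
    linarith

/-- Hint: for a dart `e` let `f₁ e, f₂ e` be the images of its ends under the unique arrow
(`out`, choice); `f₁ e ≠ f₂ e` (`inj`), equivariant, `f₁ e.swap = f₂ e`. Put `n 0 e = 1`,
`n (i+1) e = len (n i) (f₁ e) (f₂ e)`; each `n i` is invariant and symmetric on darts,
`1 ≤ n i ≤ n (i+1)` (`len_mono`, `len_const`). The set of darts with `2 ≤ n i e` for some `i` is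
invariant, symmetric, nonempty (`hne`: distance at least two) and closed under `Pred`, so it is
everything (`irr`); `FinOrb.bound` gives `m ≥ 1` with `2 ≤ n m e` for all darts. Take `μ > 1` with
`μ ^ m ≤ 2` and `l e = ∑ i < m, μ⁻¹ ^ i * n i e`; by `len_sum`,
`len l (f₁ e) (f₂ e) = ∑ i < m, μ⁻¹ ^ i * n (i+1) e = μ * (l e - 1 + μ⁻¹ ^ m * n m e) ≥ μ * l e`. -/
theorem Irr.exp {M : Mach Z} (h : Irr M)
    (hne : ∃ a x y x' y', M.R a x y ∧ M.R a x' y' ∧ Z.T.Adj x x' ∧ ¬ Z.T.Adj y y') : M.EXP := by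
  have hT := Z.gf.acyc
  have hex : ∀ e : W × W, ∃ y y' : W, Z.T.Adj e.1 e.2 → ∃ a, M.R a e.1 y ∧ M.R a e.2 y' := by
    intro e
    by_cases he : Z.T.Adj e.1 e.2
    · obtain ⟨a, ⟨y, h1⟩, y', h2⟩ := (h.out _ _ he).exists
      exact ⟨y, y', fun _ => ⟨a, h1, h2⟩⟩
    · exact ⟨e.1, e.1, fun H => (he H).elim⟩
  choose f1 f2 hf using hex
  have hu : ∀ (e : W × W) a y y', Z.T.Adj e.1 e.2 → M.R a e.1 y → M.R a e.2 y' →
      f1 e = y ∧ f2 e = y' := by
    intro e a y y' he h1 h2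
    obtain ⟨b, b1, b2⟩ := hf e he
    obtain rfl : a = b := (h.out _ _ he).unique ⟨⟨_, h1⟩, _, h2⟩ ⟨⟨_, b1⟩, _, b2⟩
    exact ⟨M.func _ _ _ _ b1 h1, M.func _ _ _ _ b2 h2⟩
  have hs : ∀ (g : G) (e : W × W), Z.T.Adj e.1 e.2 →
      f1 (g • e) = g • f1 e ∧ f2 (g • e) = g • f2 e := fun g e he => by
    obtain ⟨a, h1, h2⟩ := hf e he
    exact hu (g • e) (g • a) _ _ (Z.gf.acts g _ _ he) (M.smul g _ _ _ h1) (M.smul g _ _ _ h2)
  have hw : ∀ x y, Z.T.Adj x y → f1 (y, x) = f2 (x, y) ∧ f2 (y, x) = f1 (x, y) := fun x y he => by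
    obtain ⟨a, h1, h2⟩ := hf (x, y) he
    exact hu (y, x) a _ _ he.symm h2 h1
  have hd : ∀ e : W × W, Z.T.Adj e.1 e.2 →
      Z.T.Reachable (f1 e) (f2 e) ∧ 1 ≤ Z.T.dist (f1 e) (f2 e) := fun e he => by
    obtain ⟨a, h1, h2⟩ := hf e he
    have hr := (Z.ν_eq _ _).1 ((M.tgt _ _ _ h1).trans (M.tgt _ _ _ h2).symm)
    refine ⟨hr, Nat.one_le_iff_ne_zero.2 fun H => he.ne (M.inj a _ _ _ h1 ?_)⟩
    rw [eq_of_dist_zero hr H]
    exact h2
  let n : ℕ → W × W → ℝ := fun i =>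
    Nat.rec (fun _ => 1) (fun _ m e => len Z.T m (f1 e) (f2 e)) i
  have n0 : ∀ e, n 0 e = 1 := fun _ => rfl
  have n1 : ∀ i e, n (i + 1) e = len Z.T (n i) (f1 e) (f2 e) := fun _ _ => rfl
  have ns : ∀ i (g : G) (e : W × W), Z.T.Adj e.1 e.2 → n i (g • e) = n i e := by
    intro i g
    induction i with
    | zero => exact fun _ _ => rfl
    | succ i ih =>
      intro e he
      rw [n1, n1, (hs g e he).1, (hs g e he).2, len_smul hT Z.gf.acts g ih]
  have nw : ∀ i x y, Z.T.Adj x y → n i (x, y) = n i (y, x) := by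
    intro i
    induction i with
    | zero => exact fun _ _ _ => rfl
    | succ i ih =>
      intro x y he
      rw [n1, n1, (hw x y he).1, (hw x y he).2, len_symm hT ih]
  have hc : ∀ e, n 1 e = Z.T.dist (f1 e) (f2 e) := fun e =>
    (len_const hT 1 _ _).trans (one_mul _)
  have nm : ∀ i x y, Z.T.Adj x y → n i (x, y) ≤ n (i + 1) (x, y) := by
    intro i
    induction i with
    | zero =>
      intro x y he
      rw [n0, zero_add, hc]
      exact_mod_cast (hd (x, y) he).2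
    | succ i ih => exact fun x y _ => len_mono hT ih _ _
  have nm' : ∀ x y, Z.T.Adj x y → Monotone fun i => n i (x, y) := fun x y he =>
    monotone_nat_of_le_succ fun i => nm i x y he
  have n1' : ∀ i x y, Z.T.Adj x y → 1 ≤ n i (x, y) := fun i x y he => nm' x y he (Nat.zero_le i)
  have hall := h.irr {e | Z.T.Adj e.1 e.2 ∧ ∃ i, 2 ≤ n i e} (fun e he => he.1)
    ⟨fun g e ⟨he, i, hi⟩ => ⟨Z.gf.acts g _ _ he, i, (ns i g e he).symm ▸ hi⟩,
      fun e ⟨he, i, hi⟩ => ⟨he.symm, i, hi.trans (nw i _ _ he).le⟩⟩ (by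
      obtain ⟨a, x, y, x', y', h1, h2, h3, h4⟩ := hne
      refine ⟨(x, x'), h3, 1, ?_⟩
      obtain ⟨b1, b2⟩ := hu (x, x') a y y' h3 h1 h2
      have b3 := (hd (x, x') h3).2
      rw [hc]
      rw [b1, b2] at b3 ⊢
      have : Z.T.dist y y' ≠ 1 := fun H => h4 (adj_of_dist_one H)
      exact_mod_cast (show 2 ≤ Z.T.dist y y' by omega)) (by
      rintro e e' ⟨he, a, w, w', h1, h2, h3⟩ ⟨-, i, hi⟩
      refine ⟨he, i + 1, hi.trans ?_⟩
      obtain ⟨b1, b2⟩ := hu e a w w' he h1 h2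
      rw [n1, b1, b2, len_eq_sum hT]
      exact Finset.single_le_sum (f := n i) (fun c hc => zero_le_one.trans
        (n1' i c.1 c.2 ((Set.Finite.mem_toFinset _).1 hc).1)) ((Set.Finite.mem_toFinset _).2 h3))
  obtain ⟨m0, hm0⟩ := Z.finE.bound (fun e i => 2 ≤ n i e)
    (fun e he c c' hcc hc => hc.trans (nm' e.1 e.2 he hcc))
    (fun k _ e he c _ hc => (ns c k e he).symm ▸ hc) fun e he => (hall he).2
  have hm : ∀ x y, Z.T.Adj x y → 2 ≤ n (m0 + 1) (x, y) := fun x y he =>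
    (hm0 (x, y) he).trans (nm m0 x y he)
  obtain ⟨μ, hμ2, hμ1⟩ : ∃ μ : ℝ, μ ^ (m0 + 1) < 2 ∧ 1 < μ := by
    have a1 : ∀ᶠ t in nhds (1 : ℝ), t ^ (m0 + 1) < 2 :=
      (continuous_pow (m0 + 1)).continuousAt.eventually (gt_mem_nhds (by simp))
    exact ((a1.filter_mono nhdsWithin_le_nhds).and
      (self_mem_nhdsWithin (a := (1 : ℝ)) (s := Set.Ioi 1))).exists
  have hμ0 : 0 < μ := by linarith
  refine ⟨fun e => ∑ i ∈ Finset.range (m0 + 1), μ⁻¹ ^ i * n i e, μ, ⟨fun g e he => ?_,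
    fun x y he => ?_, fun x y he => ?_⟩, hμ1, exp_of_adj fun a x y x' y' h1 h2 he => ?_⟩
  · simp only [ns _ g e he]
  · simp only [nw _ x y he]
  · have := Finset.single_le_sum (f := fun i => μ⁻¹ ^ i * n i (x, y))
      (s := Finset.range (m0 + 1)) (fun i _ => mul_nonneg (by positivity)
        (zero_le_one.trans (n1' i x y he))) (Finset.mem_range.2 (Nat.succ_pos m0))
    simpa only [pow_zero, n0, mul_one] using this
  · obtain ⟨b1, b2⟩ := hu (x, x') a y y' he h1 h2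
    rw [len_sum hT, ← b1, ← b2]
    simp only [← n1]
    have c1 := Finset.sum_range_succ' (fun i => μ⁻¹ ^ i * n i (x, x')) (m0 + 1)
    have c2 := Finset.sum_range_succ (fun i => μ⁻¹ ^ i * n i (x, x')) (m0 + 1)
    have c3 : ∑ i ∈ Finset.range (m0 + 1), μ⁻¹ ^ i * n (i + 1) (x, x') =
        μ * ∑ i ∈ Finset.range (m0 + 1), μ⁻¹ ^ (i + 1) * n (i + 1) (x, x') := by
      rw [Finset.mul_sum]
      refine Finset.sum_congr rfl fun i _ => ?_
      rw [pow_succ]
      field_simp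
    have c4 : 1 ≤ μ⁻¹ ^ (m0 + 1) * n (m0 + 1) (x, x') := by
      rw [inv_pow, inv_mul_eq_div, le_div_iff₀ (by positivity)]
      have := hm x x' he
      linarith
    rw [c3]
    simp only [pow_zero, n0, mul_one] at c1
    exact mul_le_mul_of_nonneg_left (by linarith) hμ0.le

end Gap
end CPOR
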