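import Pool.Agent.P.MP_2cb329_al.F.GW1

/-! F7: sets of windows, part 2 (persistent systems). -/

set_option autoImplicit false

namespace CPOR
namespace Gap
open ZT MulAction

variable {G : Type} [Group G] {N : Type} [MulAction G N] {S : Sys G N} {ρ : ℕ} (hS : S.Pers ρ)
  {Φ Ψ : Type} [MulAction G Φ] [MulAction G Ψ] {m : ℕ} {w : Φ → ℤ → S.A} {w' : Ψ → ℤ → S.A}
  {i τ : Ψ → Φ}
include hS

theorem gw2_beta {a : ℤ → S.A} {s t : ℤ} (hst : s < t) (hp : S.IsPath a s t)
    (hc : ¬ IsCyclic (S.Fix a s t)) : beta (S.Fix a s t) = ρ :=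
  (hS.bW a s t hst hp hc).trans (hS.bN _)

theorem gw2_arrow (a : S.A) : beta (stabilizer G a) = ρ := by
  have e : S.Fix (fun _ => a) 0 (0 + 1) = stabilizer G a := Sys.fix_single _ 0
  rw [← e]
  exact gw2_beta hS (by omega) (fun l _ _ => by omega) (by rw [e]; exact hS.ncA a)

theorem WS.rk (h : WS S m w) (φ : Φ) : beta (stabilizer G φ) = ρ := by
  have := h.pos
  rw [h.stab]
  exact gw2_beta hS (by omega) (h.path φ) (h.nc φ)

/-- All arrows out of a node are in one orbit (`SIs.unique` with `K = stabilizer v`). -/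
theorem out_orb {a a' : S.A} (h : S.src a = S.src a') : ∃ k : G, k • a = a' := by
  obtain ⟨k, -, e⟩ := Sys.SIs.unique hS.si.1 (S.node_fg (S.src a)) h le_rfl
    (by rw [inf_eq_right.2 (Sys.stab_le_src a), gw2_arrow hS, hS.bN])
    (by rw [h, inf_eq_right.2 (Sys.stab_le_src a'), gw2_arrow hS]; exact hS.two)
  exact ⟨k, e⟩

/-- Non-cyclic windows that start at the same node are translates of each other (induction on
`n` with `SIs.unique` for `K = Fix a' 0 n`). -/
theorem win_uniq (n : ℕ) {a a' : ℤ → S.A} (hp : S.IsPath a 0 n) (hp' : S.IsPath a' 0 n)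
    (hc : 1 ≤ n → ¬ IsCyclic (S.Fix a 0 n)) (hc' : 1 ≤ n → ¬ IsCyclic (S.Fix a' 0 n)) {g : G}
    (hg : g • S.src (a 0) = S.src (a' 0)) :
    ∃ k : G, ∀ l : ℤ, 0 ≤ l → l < n → k • a l = a' l := by
  induction n with
  | zero => exact ⟨1, fun l _ _ => by omega⟩
  | succ n ih =>
    have c := hc (by omega)
    have c' := hc' (by omega)
    push_cast at hp hp' c c' ⊢
    rcases Nat.eq_zero_or_pos n with rfl | hn
    · obtain ⟨k, e⟩ := out_orb hS (a := g • a 0) (a' := a' 0) (by rw [S.src_smul, hg])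
      refine ⟨k * g, fun l l1 l2 => ?_⟩
      obtain rfl : l = 0 := by omega
      rw [mul_smul, e]
    have d : ¬ IsCyclic (S.Fix a 0 n) := fun x =>
      c (isCyclic_of_le x (Sys.fix_mono le_rfl (by omega)))
    have d' : ¬ IsCyclic (S.Fix a' 0 n) := fun x =>
      c' (isCyclic_of_le x (Sys.fix_mono le_rfl (by omega)))
    have q : S.IsPath a 0 n := hp.mono le_rfl (by omega)
    have q' : S.IsPath a' 0 n := hp'.mono le_rfl (by omega)
    obtain ⟨k, hk⟩ := ih q q' (fun _ => d) fun _ => d'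
    have s1 := hp (n - 1) (by omega) (by omega)
    have s2 := hp' (n - 1) (by omega) (by omega)
    rw [sub_add_cancel] at s1 s2
    have s3 : S.src (k • a n) = S.src (a' n) := by
      rw [S.src_smul, ← s1, ← S.tgt_smul, hk _ (by omega) (by omega), s2]
    have pb : S.IsPath (fun l => k • a l) 0 (n + 1) := fun l l1 l2 => by
      rw [S.tgt_smul, S.src_smul, hp l l1 l2]
    have cb : ¬ IsCyclic (S.Fix (fun l => k • a l) 0 (n + 1)) := by
      have e := Sys.fix_smul (a := a) (a' := fun l => k • a l) (i := 0) (j := n + 1) (c := 0)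
        (g := k) fun l _ _ => by rw [add_zero]
      rw [add_zero, add_zero] at e
      rw [← e, isCyclic_conj]
      exact c
    have eb : S.Fix (fun l => k • a l) 0 n = S.Fix a' 0 n := by
      have e := Sys.fix_congr (a := fun l => k • a l) (a' := a') (i := 0) (j := n) (c := 0)
        fun l l1 l2 => by rw [add_zero]; exact hk l l1 l2
      rwa [add_zero, add_zero] at e
    have b1 := gw2_beta hS (by omega) pb cb
    have b2 := gw2_beta hS (by omega) hp' c'
    rw [Sys.fix_succ (by omega), eb] at b1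
    rw [Sys.fix_succ (by omega)] at b2
    obtain ⟨k', hk', e⟩ := Sys.SIs.unique hS.si.1 (Sys.fix_fg (by omega) q') s3
      (by rw [s3, ← s2]; exact Sys.fix_le_tgt (by omega) (by omega))
      (by rw [b1, gw2_beta hS (by omega) q' d']) (by rw [b2]; exact hS.two)
    refine ⟨k' * k, fun l l1 l2 => ?_⟩
    rw [mul_smul]
    rcases (show l < n ∨ l = n by omega) with l3 | rfl
    · rw [hk l l1 l3]
      exact Sys.mem_fix.1 hk' l l1 l3
    · exact e

theorem WS.uniq (h : WS S m w) {φ φ' : Φ} {g : G} (hg : g • S.src (w φ 0) = S.src (w φ' 0)) :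
    ∃ k : G, k • φ = φ' := by
  obtain ⟨k, hk⟩ := win_uniq hS m (h.path φ) (h.path φ') (fun _ => h.nc φ) (fun _ => h.nc φ') hg
  exact ⟨k, h.inj _ _ fun l l1 l2 => by rw [h.smul k φ l l1 l2, hk l l1 l2]⟩

theorem WS.fin (h : WS S m w) : FinOrb (⊤ : Subgroup G) (Set.univ : Set Φ) ∧
    nOrb (⊤ : Subgroup G) (Set.univ : Set Φ) ≤ nOrb (⊤ : Subgroup G) (Set.univ : Set N) := by
  refine nOrb_le_of_inj S.finN (fun φ => S.src (w φ 0)) (fun _ _ => Set.mem_univ _) ?_
  rintro φ - φ' - ⟨g, -, hg⟩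
  obtain ⟨k, hk⟩ := h.uniq hS hg
  exact ⟨k, Subgroup.mem_top k, hk⟩

theorem WC.i_surj (h : WC S m w w' i τ) : Function.Surjective i := by
  intro φ
  have hm := h.ws.pos
  obtain ⟨b, b1, b2⟩ := hS.extF (w φ) 0 m (by omega) (h.ws.path φ) (h.ws.nc φ)
  obtain ⟨ψ, hψ⟩ := h.ws'.surj (fun l => if l < m then w φ l else b) 0 (by
    intro l l1 l2
    push_cast at l2
    by_cases c : l + 1 < m
    · simp only [c, show l < (m : ℤ) by omega, if_true]
      exact h.ws.path φ l l1 c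
    · simp only [c, show l < (m : ℤ) by omega, if_true, if_false]
      rw [b1, show l = m - 1 by omega]) (by
    have e := Sys.fix_congr (a := fun l => if l < m then w φ l else b) (a' := w φ) (i := 0)
      (j := m) (c := 0) fun l _ l2 => by simp only [l2, if_true, add_zero]
    rw [add_zero, add_zero] at e
    rw [show (0 : ℤ) + ((m + 1 : ℕ) : ℤ) = m + 1 by omega, Sys.fix_succ (by omega), e]
    rw [if_neg (lt_irrefl _)]
    exact b2)
  refine ⟨ψ, h.ws.inj _ _ fun l l1 l2 => ?_⟩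
  rw [h.init ψ l l1 l2, hψ l l1 (by omega)]
  simp only [zero_add, l2, if_true]

theorem WC.τ_surj (h : WC S m w w' i τ) : Function.Surjective τ := by
  intro φ
  have hm := h.ws.pos
  obtain ⟨b, b1, b2⟩ := hS.extB (w φ) 0 m (by omega) (h.ws.path φ) (h.ws.nc φ)
  obtain ⟨ψ, hψ⟩ := h.ws'.surj (fun l => if l < 0 then b else w φ l) (-1) (by
    intro l l1 l2
    push_cast at l2
    by_cases c : l < 0
    · obtain rfl : l = -1 := by omega
      simp only [c, neg_add_cancel, lt_irrefl, if_true, if_false]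
      exact b1
    · simp only [c, show ¬ l + 1 < 0 by omega, if_false]
      exact h.ws.path φ l (by omega) (by omega)) (by
    have e := Sys.fix_congr (a := fun l => if l < 0 then b else w φ l) (a' := w φ) (i := 0)
      (j := m) (c := 0) fun l l1 _ => by simp only [show ¬ l < 0 by omega, if_false, add_zero]
    rw [add_zero, add_zero] at e
    rw [show (-1 : ℤ) + ((m + 1 : ℕ) : ℤ) = m by omega, Sys.fix_pred (by omega), neg_add_cancel, e]
    rw [if_pos (by omega)]
    exact b2)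
  refine ⟨ψ, h.ws.inj _ _ fun l l1 l2 => ?_⟩
  rw [h.tail ψ l l1 l2, hψ (l + 1) (by omega) (by omega), show -1 + (l + 1) = l by omega]
  simp only [show ¬ l < 0 by omega, if_false]

theorem WC.orb (h : WC S m w w' i τ) {ψ ψ' : Ψ} (he : i ψ = i ψ') : ∃ k : G, k • ψ = ψ' := by
  have hm := h.ws.pos
  refine h.ws'.uniq hS (g := 1) ?_
  rw [one_smul, ← h.init ψ 0 le_rfl (by omega), ← h.init ψ' 0 le_rfl (by omega), he]

theorem gw2_le_i (h : WC S m w w' i τ) (ψ : Ψ) :
    stabilizer G (i ψ) ≤ stabilizer G (S.src (w' ψ m)) := by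
  have hm := h.ws.pos
  have _ := hS.two
  rw [h.ws.stab, ← h.node_i]
  exact Sys.fix_le_tgt (by omega) (by omega)

/-- `SIs.compress` for `src` and the last arrow. -/
theorem WC.cmp_i (h : WC S m w w' i τ) (ψ : Ψ) : Cmp (stabilizer G ψ) (stabilizer G (i ψ)) := by
  intro W _ T X D hG hX hl hD hs
  rw [h.stab_i] at hD
  exact Sys.SIs.compress hS.si.1 (h.ws.fg _) (gw2_le_i hS h ψ) (by rw [h.ws.rk hS]; exact hS.two)
    (by rw [← h.stab_i, h.ws.rk hS, h.ws'.rk hS]) hG hX hl hD hs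

/-- `SIs.compress` for `tgt` and the first arrow. -/
theorem WC.cmp_τ (h : WC S m w w' i τ) (ψ : Ψ) : Cmp (stabilizer G ψ) (stabilizer G (τ ψ)) := by
  intro W _ T X D hG hX hl hD hs
  have hm := h.ws.pos
  rw [h.stab_τ] at hD
  exact Sys.SIs.compress hS.si.2 (h.ws.fg _)
    (by rw [h.ws.stab, ← h.first_τ]; exact Sys.fix_le_src le_rfl (by omega))
    (by rw [h.ws.rk hS]; exact hS.two)
    (by rw [← h.stab_τ, h.ws.rk hS, h.ws'.rk hS]) hG hX hl hD hs

/-- `SIs.closing`. -/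
theorem WC.cl (h : WC S m w w' i τ) (ψ : Ψ) : ∀ k ∈ stabilizer G (i ψ), k ∉ stabilizer G (w' ψ m) →
    ∀ c ∈ stabilizer G (w' ψ m), k⁻¹ * c * k ∈ stabilizer G (w' ψ m) → c ≠ 1 →
      ∃ M : ℕ, 1 ≤ M ∧ c ^ M ∈ stabilizer G (i ψ) := by
  intro k hk hn c hc hkc h1
  have h2 := hS.two
  rw [mem_stabilizer_iff, mul_smul, mul_smul, inv_smul_eq_iff] at hkc
  exact Sys.SIs.closing hS.si.1 Sys.stab_le_src (h.ws.fg _) (gw2_le_i hS h ψ)
    (by rw [h.ws.rk hS]; omega) (by rw [← h.stab_i, h.ws.rk hS, h.ws'.rk hS]) hk hn h1 hc hkc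

/-- Hint: `Q = {v | ∃ φ ∈ P, src (w φ 0) = v}` is invariant and nonempty. If `v ∈ Q` and
`src a = v` then `tgt a ∈ Q`: with `i ψ = φ`, `τ ψ ∈ P` we have `tgt (w φ 0) ∈ Q` (`first_τ`, `init`)
and `a = k • w φ 0` (`out_orb`). By `conn`, `Q` is everything; `WS.uniq`. -/
theorem WC.fc (h : WC S m w w' i τ) : FC G i τ := by
  rintro P ⟨φ0, h0⟩ hinv hcl φ'
  have hm := h.ws.pos
  have step : ∀ a : S.A, (∃ φ ∈ P, S.src (w φ 0) = S.src a) → ∃ φ ∈ P, S.src (w φ 0) = S.tgt a := by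
    rintro a ⟨φ, hφ, e⟩
    obtain ⟨ψ, rfl, hτ⟩ := hcl φ hφ
    obtain ⟨k, rfl⟩ := out_orb hS e
    refine ⟨k • τ ψ, hinv k (Subgroup.mem_top k) _ hτ, ?_⟩
    rw [h.ws.smul k _ 0 le_rfl (by omega), S.src_smul, S.tgt_smul, h.first_τ,
      h.init ψ 0 le_rfl (by omega)]
  obtain ⟨g, n, a, hn, hp, e0, e1⟩ := hS.conn (S.src (w φ0 0)) (S.src (w φ' 0))
  have key : ∀ l : ℕ, l < n → ∃ φ ∈ P, S.src (w φ 0) = S.tgt (a l) := by
    intro l
    induction l with
    | zero => exact fun _ => step _ ⟨φ0, h0, e0.symm⟩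
    | succ l ih =>
      intro hl
      refine step _ ?_
      push_cast
      rw [← hp l (by omega) (by omega)]
      exact ih (by omega)
  obtain ⟨φ, hφ, e⟩ := key (n - 1) (by omega)
  rw [show ((n - 1 : ℕ) : ℤ) = n - 1 by omega, e1] at e
  obtain ⟨k, rfl⟩ := h.ws.uniq hS e.symm
  have := hinv k⁻¹ (Subgroup.mem_top _) _ hφ
  rwa [inv_smul_smul] at this

end Gap
end CPOR
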