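import Pool.Agent.P.MP_2cb329_al.F.GR
import Pool.Agent.P.MP_2cb329_al.F.GW2

/-! F7: the correspondence, part 2, and the levels of the tower. -/

set_option autoImplicit false

namespace CPOR
namespace Gap
open ZT MulAction

variable {G : Type} [Group G] {N : Type} [MulAction G N] (S : Sys G N)

/-- Hint: `F n = C₃ (n + 1)` for a large `C₃`. `lip`, `bcc`: `consts`, `Btw.near` (twice for
`bcc`). `per`: `range a ⊆ Min J ⊆ Min (stabilizer a)`, `FT.pow_mem` and `z_const` give `j`;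
`c ^ j ≠ 1` (`IsAxis.pow`, `IsAxis.not_fix`); `near_arrow` and the Lipschitz bound bound the
displacement of `t q` under `c ^ j`; `FT.exists_axis`. -/
theorem cor1_exists : ∃ C₁ : ℕ, ∀ C', C₁ ≤ C' → ∃ (C₂ : ℕ) (F₂ : ℕ → ℕ), Monotone F₂ ∧
    ∀ (C : ℕ) (F : ℕ → ℕ), C₂ ≤ C → (∀ n, F₂ n ≤ F n) → ∀ (a : S.A) (J : Subgroup G), J.FG →
      ¬ IsCyclic J → J ≤ stabilizer G a →
      Cor1 S.B C F J (S.Min J (S.src a)) (S.Min J (S.tgt a)) (PB S C' J a) := by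
  obtain ⟨C₁, hpar⟩ := partner S
  obtain ⟨C₀, hcon⟩ := S.consts
  obtain ⟨Cn, hnear⟩ := S.near_arrow
  obtain ⟨Cz, hz⟩ := z_const S
  refine ⟨C₁, fun C' hC' => ⟨C' + C₀ * (C' + C' + 1) + C',
    fun n => (C' + C₀ * (C' + n + C' + 1) + C') + C₀ * (Cn + Cz * n + Cn + 1), ?_, ?_⟩⟩
  · intro n n' hn
    dsimp only
    gcongr
  intro C F hC hF a J hJ hc hle
  have gs := min_good (S := S) hJ hc (hle.trans (Sys.stab_le_src a))
  have gt := min_good (S := S) hJ hc (hle.trans (Sys.stab_le_tgt a))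
  have hA := S.ft.acts
  refine ⟨gs, fun x x' h => h.1, hpar C' hC' a J hJ hc hle, ?_, ?_, ?_, ?_⟩
  · rintro k hk x x' ⟨h1, h2, h3⟩
    refine ⟨(Tr.self hk gs.inv).br hA h1, (Tr.self hk gt.inv).br hA h2, ?_⟩
    have := h3.smul k
    rwa [show k • a = a from hle hk] at this
  · rintro x x' y y' ⟨h1, -, q, q1, q2, q3⟩ ⟨h2, -, r, r1, r2, r3⟩
    have e : S.nd x = S.nd y := h1.1.1.trans h2.1.1.symm
    have c1 := (q2.symm.trans (Sys.cl_dist e)).trans r2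
    have c2 := (hcon q r (q1.trans r1.symm)).2.2.1 _ c1
    have c3 := ((q3.trans c2).trans r3.symm).2
    have := hF (S.B.dist x y)
    dsimp only at this
    omega
  · rintro x x' y y' z z' ⟨-, -, q, q1, q2, q3⟩ ⟨-, -, r, r1, r2, r3⟩ ⟨-, -, u, u1, u2, u3⟩ hb
    obtain ⟨z₁, b1, c1⟩ := S.s1b_btw_near hb q2 r2
    obtain ⟨z₂, b2, c2⟩ := (hcon q r (q1.trans r1.symm)).2.2.2.2.1 u (u1.trans q1.symm) _ z₁ b1
      (u2.symm.trans c1)
    obtain ⟨z₃, b3, c3⟩ := S.s1b_btw_near b2 q3.symm r3.symm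
    exact ⟨z₃, b3, ((u3.trans c2).trans c3).2.trans hC⟩
  · intro c b n hb hsub
    have hT := S.ft.acyc
    have e : ∀ i : ℕ, c ^ i • b 0 = b (0 + i * n) := fun i => by
      rw [← hb.zpow_smul, zpow_natCast]
    obtain ⟨j, j1, j2, j3⟩ := S.ft.pow_mem (hz a).1 (g := c) (x := b 0) (fun i _ => by
      rw [e]
      exact min_mono hle _ (hsub ⟨_, rfl⟩))
    have j4 : j * n ≤ Cz * n := Nat.mul_le_mul_right n (j2.trans (hz a).2)
    obtain ⟨q, q1, q2⟩ := (hnear a J hle).1 (b 0) (hsub ⟨_, rfl⟩)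
    have c0 : S.Cl (Cz * n) (b 0) (c ^ j • b 0) := by
      rw [e]
      have := hb.1.dist hT 0 (0 + j * n)
      refine ⟨(S.nd_eq _ _).2 this.1, ?_⟩
      rw [this.2]
      have b2 : ((j * n : ℕ) : ℤ) = (j : ℤ) * n := by push_cast; rfl
      omega
    have c1 := (q2.symm.trans c0).trans (q2.smul (c ^ j))
    rw [← S.s_smul] at c1
    have c2 := (hcon q (c ^ j • q) (by
      rw [S.arr_smul, q1]; exact (show c ^ j • a = a from j3).symm)).2.2.1 _ c1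
    rw [S.t_smul] at c2
    have hne : c ^ j ≠ 1 := fun e1 =>
      (hb.pow j1).not_fix hT hA (p := b 0) (SimpleGraph.Reachable.refl _) (by rw [e1, one_smul])
    obtain ⟨a', n', ha', hbt⟩ := S.ft.exists_axis hne c2.reach
    have b0 := hbt 0 le_rfl (by omega)
    obtain ⟨i, -, hd, -⟩ := ha'.disp hT hA b0.1
    obtain ⟨x', hx'⟩ := gt.ne
    refine ⟨j, a', n', j1, ha', ?_, x', hx', ?_⟩
    · have := hF n
      have := c2.2
      dsimp only at *
      omega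
    · refine (S.nd_eq _ _).1 ?_
      rw [hx'.1, ← (S.nd_eq _ _).2 b0.1, S.nd_t, q1]

/-- Apply `cor1_exists` to `S` and to `S.rev` (`flip (PB S C' J a) = PB S.rev C' J a` up to the
order of the conjuncts). -/
theorem cor_exists : ∃ (C' C₂ : ℕ) (F : ℕ → ℕ), Monotone F ∧ ∀ C, C₂ ≤ C →
    ∀ (a : S.A) (J : Subgroup G), J.FG → ¬ IsCyclic J → J ≤ stabilizer G a →
      Cor S.B C F J (S.Min J (S.src a)) (S.Min J (S.tgt a)) (PB S C' J a) := by
  obtain ⟨C₁, h1⟩ := cor1_exists S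
  obtain ⟨C₁', h2⟩ := cor1_exists S.rev
  obtain ⟨C₂, F₂, m1, h1⟩ := h1 (C₁ + C₁') (by omega)
  obtain ⟨C₂', F₂', m2, h2⟩ := h2 (C₁ + C₁') (by omega)
  refine ⟨C₁ + C₁', C₂ + C₂', fun n => F₂ n + F₂' n, m1.add m2, fun C hC a J hJ hc hle => ⟨?_, ?_⟩⟩
  · exact h1 C _ (by omega) (fun n => Nat.le_add_right _ _) a J hJ hc hle
  · have e : flip (PB S (C₁ + C₁') J a) = PB S.rev (C₁ + C₁') J a := by
      funext x' x
      apply propext
      constructor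
      · rintro ⟨a1, a2, q, q1, q2, q3⟩
        exact ⟨a2, a1, q, q1, q3, q2⟩
      · rintro ⟨a1, a2, q, q1, q2, q3⟩
        exact ⟨a2, a1, q, q1, q3, q2⟩
    rw [e]
    exact h2 C _ (by omega) (fun n => Nat.le_add_left _ _) a J hJ hc hle

variable {S} {ρ : ℕ} (hS : S.Pers ρ)
include hS

theorem fam_XW {Φ : Type} [MulAction G Φ] {m : ℕ} {w : Φ → ℤ → S.A} (h : WS S m w) :
    Fam S.B G ρ (XW S m w) := by
  have hm : (1 : ℤ) ≤ m := by exact_mod_cast h.pos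
  refine ⟨S.ft, fun g φ x hx => ?_, fun φ => ?_, h.rk hS, (h.fin hS).1⟩
  · have := min_smul (J' := stabilizer G (g • φ)) (g := g) (fun k hk => by
      rw [mem_stabilizer_iff, mul_smul, mul_smul, inv_smul_smul, show k • φ = φ from hk]) hx
    rwa [← S.tgt_smul, ← h.smul g φ _ (by omega) (by omega)] at this
  · refine min_good (h.fg φ) (h.not_cyc φ) ?_
    rw [h.stab]
    exact Sys.fix_le_tgt (by omega) (by omega)

theorem fam_YW {Φ : Type} [MulAction G Φ] {m : ℕ} {w : Φ → ℤ → S.A} (h : WS S m w) :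
    Fam S.B G ρ (YW S m w) := by
  have hm : (1 : ℤ) ≤ m := by exact_mod_cast h.pos
  refine ⟨S.ft, fun g φ x hx => ?_, fun φ => ?_, h.rk hS, (h.fin hS).1⟩
  · have := min_smul (J' := stabilizer G (g • φ)) (g := g) (fun k hk => by
      rw [mem_stabilizer_iff, mul_smul, mul_smul, inv_smul_smul, show k • φ = φ from hk]) hx
    rwa [← S.src_smul, ← h.smul g φ _ (by omega) (by omega)] at this
  · refine min_good (h.fg φ) (h.not_cyc φ) ?_
    rw [h.stab]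
    exact Sys.fix_le_src (by omega) (by omega)

/-- Hint: `r ψ = PB S C' (stabilizer ψ) (w' ψ m)`, `H = stabilizer (w' ψ m)`,
`Z = Min H (src (w' ψ m))`; note `((m + 1 : ℕ) : ℤ) - 1 = m`. -/
theorem lev_exists : ∃ (C : ℕ) (F : ℕ → ℕ), 1 ≤ C ∧ Monotone F ∧
    ∀ (m : ℕ) (Φ Ψ : Type) [MulAction G Φ] [MulAction G Ψ] (w : Φ → ℤ → S.A) (w' : Ψ → ℤ → S.A)
      (i τ : Ψ → Φ), WC S m w w' i τ →
      ∃ r, Lev S.B G ρ C F (XW S m w) (YW S (m + 1) w') (XW S (m + 1) w') i τ r := by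
  obtain ⟨C', C₂, F, hF, hcor⟩ := cor_exists S
  obtain ⟨Cz, hz⟩ := z_const S
  refine ⟨1 + C₂ + Cz, F, by omega, hF, ?_⟩
  intro m Φ Ψ _ _ w w' i τ h
  have e : ((m + 1 : ℕ) : ℤ) - 1 = m := by push_cast; ring
  have fX := fam_XW hS h.ws
  have fY := fam_YW hS h.ws'
  have fT := fam_XW hS h.ws'
  have hH : ∀ ψ, stabilizer G ψ ≤ stabilizer G (w' ψ m) := fun ψ => by
    rw [h.stab_i]; exact inf_le_right
  have s1 : ∀ ψ, YW S (m + 1) w' ψ ⊆ XW S m w (i ψ) := fun ψ => by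
    unfold YW XW
    rw [e, h.node_i]
    exact min_mono (by rw [h.stab_i]; exact inf_le_left) _
  have s2 : ∀ ψ, XW S (m + 1) w' ψ ⊆ XW S m w (τ ψ) := fun ψ => by
    unfold XW
    rw [e, h.last_τ]
    exact min_mono (by rw [h.stab_τ]; exact inf_le_left) _
  refine ⟨fun ψ => PB S C' (stabilizer G ψ) (w' ψ (((m + 1 : ℕ) : ℤ) - 1)),
    ⟨fX, fY, h.i_smul, h.i_surj hS, s1, h.cmp_i hS⟩,
    ⟨fX, fT, h.τ_smul, h.τ_surj hS, s2, h.cmp_τ hS⟩, fun ψ ψ' he => h.orb hS he, fun ψ => ?_,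
    ?_, fun ψ => ?_⟩
  · refine ⟨stabilizer G (w' ψ m), S.Min (stabilizer G (w' ψ m)) (S.src (w' ψ m)), fY.good ψ,
      fX.good _, s1 ψ, h.stab_i ψ, ?_, (hz _).1, (hz _).2.trans (by omega), h.cl hS ψ⟩
    unfold YW
    rw [e]
    exact min_mono (hH ψ) _
  · rintro g ψ x x' ⟨h1, h2, h3⟩
    refine ⟨(fY.tr g ψ).br S.ft.acts h1, (fT.tr g ψ).br S.ft.acts h2, ?_⟩
    rw [h.ws'.smul g ψ _ (by omega) (by omega)]
    exact h3.smul g
  · exact hcor _ (by omega) _ _ (h.ws'.fg ψ) (h.ws'.not_cyc ψ) (by rw [e]; exact hH ψ)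

end Gap
end CPOR
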