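import Pool.Agent.P.MP_2cb329_al.F.GA2

/-! F7: growth of the trees, the gaps, change of the index set. -/

set_option autoImplicit false

namespace CPOR
namespace Gap
open ZT MulAction

variable {V : Type} {B : SimpleGraph V} {G : Type} [Group G] [MulAction G V]
  {Φ Ψ : Type} [MulAction G Φ] [MulAction G Ψ] {ρ : ℕ} {X : Φ → Set V} {T : Ψ → Set V}

theorem gv_dart {τ : Ψ → Φ} (h : Incl B G ρ X T τ) (ψ : Ψ) {x y : V} (hx : x ∈ X (τ ψ))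
    (hy : y ∈ X (τ ψ)) (hxy : B.Adj x y) : ∃ ψ', τ ψ' = τ ψ ∧ x ∈ T ψ' ∧ y ∈ T ψ' := by
  obtain ⟨k, hk, -, h1, h2⟩ := h.cmp ψ V B (X (τ ψ)) (T ψ) h.fX.ff.toGF (h.fX.good _).toKC
    (h.fX.good _).leaf (h.fY.good _).toKT (h.sub ψ) (x, y) ⟨hxy, hx, hy⟩
  have hk' : k⁻¹ • τ ψ = τ ψ := (stabilizer G (τ ψ)).inv_mem hk
  refine ⟨k⁻¹ • ψ, by rw [h.smul, hk'], ?_, ?_⟩
  · simpa using h.fY.smul k⁻¹ _ _ h1
  · simpa using h.fY.smul k⁻¹ _ _ h2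

/-- Hint: the map `(ψ, x) ↦ (τ ψ, x)` from `VE T` onto `VE X` (a dart at `x`, `cmp`, translate `ψ`).
If it is injective (`bij_of_rel`), then every neighbour in `X (τ ψ)` of a point of `T ψ` is in
`T ψ` (the dart lies in some `T (k⁻¹ • ψ)`), so `T ψ = X (τ ψ)` (induction on the distance), and
for `k` fixing `τ ψ` a point lies in `T ψ` and `T (k • ψ)`. -/
theorem Incl.vmono {τ : Ψ → Φ} (h : Incl B G ρ X T τ) :
    nOrb (⊤ : Subgroup G) (VE X) ≤ nOrb (⊤ : Subgroup G) (VE T) ∧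
      (nOrb (⊤ : Subgroup G) (VE T) ≤ nOrb (⊤ : Subgroup G) (VE X) →
        ∀ ψ, stabilizer G (τ ψ) ≤ stabilizer G ψ) := by
  have dom : ∀ (s : Ψ × V) (t : Φ × V), (s ∈ VE T ∧ t = (τ s.1, s.2)) → s ∈ VE T :=
    fun s t hr => hr.1
  have cod : ∀ (s : Ψ × V) (t : Φ × V), (s ∈ VE T ∧ t = (τ s.1, s.2)) → t ∈ VE X := by
    rintro s t ⟨h1, rfl⟩
    exact h.sub s.1 h1
  have smul : ∀ k ∈ (⊤ : Subgroup G), ∀ (s : Ψ × V) (t : Φ × V),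
      (s ∈ VE T ∧ t = (τ s.1, s.2)) → (k • s ∈ VE T ∧ k • t = (τ (k • s).1, (k • s).2)) := by
    rintro k - s t ⟨h1, rfl⟩
    refine ⟨h.fY.smul k _ _ h1, ?_⟩
    rw [Prod.smul_fst, h.smul]
    rfl
  have func : ∀ (s : Ψ × V) (t t' : Φ × V), (s ∈ VE T ∧ t = (τ s.1, s.2)) →
      (s ∈ VE T ∧ t' = (τ s.1, s.2)) → t = t' := fun s t t' h1 h2 => h1.2.trans h2.2.symm
  have surj : ∀ t ∈ VE X, ∃ s : Ψ × V, s ∈ VE T ∧ t = (τ s.1, s.2) := by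
    rintro ⟨φ, x⟩ hx
    obtain ⟨ψ, rfl⟩ := h.surj φ
    obtain ⟨y, hy, -, -, hxy, -⟩ := (h.fX.good (τ ψ)).leaf x hx
    obtain ⟨ψ', e, h1, -⟩ := gv_dart h ψ hx hy hxy
    exact ⟨(ψ', x), h1, by rw [e]⟩
  refine ⟨(nOrb_le_of_rel _ h.fY.fin_VE dom smul func surj).2, fun hle ψ k hk => ?_⟩
  have hb := (bij_of_rel _ h.fY.fin_VE dom cod smul func surj
    (fun k _ t _ hk => h.fX.ff.free k t.2 (congrArg Prod.snd hk)) hle).2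
  have inj : ∀ ψ ψ' x, x ∈ T ψ → x ∈ T ψ' → τ ψ' = τ ψ → ψ' = ψ := fun ψ ψ' x h1 h2 e =>
    congrArg Prod.fst (hb (ψ', x) (ψ, x) (τ ψ, x) ⟨h2, by rw [e]⟩ ⟨h1, rfl⟩)
  obtain ⟨c, hc⟩ := (h.fY.good ψ).ne
  have hk' : k • τ ψ = τ ψ := hk
  have hkc : k • c ∈ X (τ ψ) := by
    have := h.fX.smul k _ _ (h.sub ψ hc)
    rwa [hk'] at this
  have hcv := (h.fX.good (τ ψ)).cvx c (h.sub ψ hc) _ hkc
  obtain ⟨a, h0, h1, h2, -, h4⟩ := exists_geod hcv.1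
  have key : ∀ i ≤ B.dist c (k • c), a i ∈ T ψ := by
    intro i
    induction i with
    | zero => intro _; rw [h0]; exact hc
    | succ i ih =>
      intro hi
      obtain ⟨ψ', e, b1, b2⟩ := gv_dart h ψ (hcv.2 _ (h4 i (by omega))) (hcv.2 _ (h4 (i + 1) hi))
        (h2 i (by omega))
      rwa [inj ψ ψ' _ (ih (by omega)) b1 e] at b2
  have h5 := key _ le_rfl
  rw [h1] at h5
  exact inj ψ (k • ψ) _ h5 (h.fY.smul k _ _ hc) (by rw [h.smul, hk'])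

/-- Hint: `nOrb_cover_le` with `D d = {(φ, z) | ∃ arc (x, y), Btw x z y ∧ dist x z = d}`,
`nOrb_le_of_rel`, `Btw.unique`, `Good.arc_of_dart`. -/
theorem Fam.big (h : Fam B G ρ X) {Λ : ℕ} (hΛ : ∀ φ x y, Arc B (X φ) x y → B.dist x y ≤ Λ) :
    nOrb (⊤ : Subgroup G) (VE X) ≤ nOrb (⊤ : Subgroup G) (AE B X) * (Λ + 1) := by
  have key : ∀ d : ℕ, FinOrb (⊤ : Subgroup G) {t : Φ × V | ∃ s : Φ × V × V, s ∈ AE B X ∧
        t.1 = s.1 ∧ Btw B s.2.1 t.2 s.2.2 ∧ B.dist s.2.1 t.2 = d} ∧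
      nOrb (⊤ : Subgroup G) {t : Φ × V | ∃ s : Φ × V × V, s ∈ AE B X ∧
        t.1 = s.1 ∧ Btw B s.2.1 t.2 s.2.2 ∧ B.dist s.2.1 t.2 = d} ≤
        nOrb (⊤ : Subgroup G) (AE B X) := by
    intro d
    refine nOrb_le_of_rel (fun (s : Φ × V × V) (t : Φ × V) => s ∈ AE B X ∧
        t.1 = s.1 ∧ Btw B s.2.1 t.2 s.2.2 ∧ B.dist s.2.1 t.2 = d) h.count_AE.1
      (fun s t hr => hr.1) ?_ ?_ (fun t ht => ht)
    · rintro k hk s t ⟨h1, h2, h3, h4⟩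
      refine ⟨h.inv_AE k hk s h1, ?_, h.ff.acts.btw k h3, ?_⟩
      · show k • t.1 = k • s.1
        rw [h2]
      · show B.dist (k • s.2.1) (k • t.2) = d
        rw [h.ff.acts.dist, h4]
    · rintro s t t' ⟨-, h2, h3, h4⟩ ⟨-, h2', h3', h4'⟩
      exact Prod.ext (h2.trans h2'.symm) (h3.unique h.ff.acyc h3' (h4.trans h4'.symm))
  refine nOrb_cover_le (Λ + 1) _ _ (fun i _ => (key i).1) (fun i _ => (key i).2) ?_
  rintro ⟨φ, x⟩ hx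
  obtain ⟨y, hy, -, -, hxy, -⟩ := (h.good φ).leaf x hx
  obtain ⟨u, v, ha, ho⟩ := (h.good φ).arc_of_dart h.ff hx hy hxy
  have hb := (ho.btw h.ff.acyc hxy.ne).1
  have h1 : B.dist u x + B.dist x v = B.dist u v := hb.2.2
  have h2 := hΛ φ u v ha
  exact ⟨B.dist u x, by omega, (φ, u, v), ha, rfl, hb, rfl⟩

/-- Hint: `exists_vals` for `sInf {p | Per (stabilizer φ) p x y}` and for `dist x y` on `AE`. -/
theorem Fam.vals (h : Fam B G ρ X) :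
    ∃ A₁ A₂ : Finset ℕ, A₁.card ≤ nOrb (⊤ : Subgroup G) (AE B X) ∧
      A₂.card ≤ nOrb (⊤ : Subgroup G) (AE B X) ∧
      ∀ κ : Cst ρ, (∀ a ∈ A₁, a ≤ κ.p ∨ κ.P < a) → (∀ a ∈ A₂, a ≤ κ.l ∨ κ.Λ < a) →
        FGap B G κ X := by
  obtain ⟨A₁, c1, m1⟩ := exists_vals h.count_AE.1
    (fun s : Φ × V × V => sInf {p | Per B (stabilizer G s.1) p s.2.1 s.2.2}) (by
      intro k _ s _ _
      congr 1
      ext p
      constructor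
      · intro hp
        simpa using (h.tr k s.1).inv.per h.ff.acts hp
      · intro hp
        exact (h.tr k s.1).per h.ff.acts hp)
  obtain ⟨A₂, c2, m2⟩ := exists_vals h.count_AE.1
    (fun s : Φ × V × V => B.dist s.2.1 s.2.2) (fun k _ s _ _ => h.ff.acts.dist k _ _)
  refine ⟨A₁, A₂, c1, c2, fun κ g1 g2 φ => ⟨fun x y ha => g2 _ (m2 (φ, x, y) ha),
    fun x y ha hp => ?_⟩⟩
  have e1 : sInf {p | Per B (stabilizer G φ) p x y} ≤ κ.P := Nat.sInf_le hp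
  have e2 := Nat.sInf_mem (s := {p | Per B (stabilizer G φ) p x y}) ⟨_, hp⟩
  rcases g1 _ (m1 (φ, x, y) ha) with e3 | e3
  · exact Per.mono e2 le_rfl e3
  · exact absurd e1 (not_le.2 e3)

/-- The constants. Hint: `θ₁ (k+1) = max (θ₁ k) (F (θ₁ k))`, `θ₁ 0 = C * C`; with `Pm = θ₁ (n+1)`,
`θ₂ 0 = C * Pm + Pm * Pm`, `θ₂ (k+1) = θ₂ k + C + F (θ₂ k) + 6 ρ (θ₂ k + 1) C + 1`;
`Λm = θ₂ (n+1)`; `exists_gap` twice. -/
theorem exists_cst (ρ C : ℕ) (F : ℕ → ℕ) (hC : 1 ≤ C) (hF : Monotone F) (n : ℕ) :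
    ∃ Λm : ℕ, ∀ A₁ A₂ : Finset ℕ, A₁.card ≤ n → A₂.card ≤ n →
      ∃ κ : Cst ρ, κ.C = C ∧ κ.F = F ∧ κ.Λ ≤ Λm ∧ (∀ a ∈ A₁, a ≤ κ.p ∨ κ.P < a) ∧
        ∀ a ∈ A₂, a ≤ κ.l ∨ κ.Λ < a := by
  let θ₁ : ℕ → ℕ := fun k => Nat.rec (C * C) (fun _ t => max t (F t)) k
  have s1 : ∀ k, θ₁ (k + 1) = max (θ₁ k) (F (θ₁ k)) := fun k => rfl
  have z1 : θ₁ 0 = C * C := rfl
  have m1 : Monotone θ₁ := monotone_nat_of_le_succ fun k => by rw [s1]; exact le_max_left _ _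
  let θ₂ : ℕ → ℕ := fun k => Nat.rec (C * θ₁ (n + 1) + θ₁ (n + 1) * θ₁ (n + 1))
    (fun _ t => t + C + F t + 6 * ρ * (t + 1) * C + 1) k
  have s2 : ∀ k, θ₂ (k + 1) = θ₂ k + C + F (θ₂ k) + 6 * ρ * (θ₂ k + 1) * C + 1 := fun k => rfl
  have z2 : θ₂ 0 = C * θ₁ (n + 1) + θ₁ (n + 1) * θ₁ (n + 1) := rfl
  have m2 : Monotone θ₂ := monotone_nat_of_le_succ fun k => by rw [s2]; omega
  refine ⟨θ₂ (n + 1), fun A₁ A₂ c1 c2 => ?_⟩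
  obtain ⟨i, hi, g1⟩ := exists_gap θ₁ m1 A₁
  obtain ⟨j, hj, g2⟩ := exists_gap θ₂ m2 A₂
  have a1 : θ₁ i ≤ θ₁ (n + 1) := m1 (show i ≤ n + 1 by omega)
  have a2 : θ₁ (i + 1) ≤ θ₁ (n + 1) := m1 (show i + 1 ≤ n + 1 by omega)
  have a3 : θ₂ 0 ≤ θ₂ j := m2 (Nat.zero_le _)
  have a4 := Nat.mul_le_mul_left C a1
  have a5 := Nat.mul_le_mul a2 a2
  have a6 := s2 j
  exact ⟨⟨C, F, θ₁ i, θ₁ (i + 1), θ₂ j, θ₂ (j + 1), hF, hC, z1 ▸ m1 (Nat.zero_le _),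
    m1 (Nat.le_succ _), by rw [s1]; exact le_max_right _ _, by omega, by omega, by omega,
    by omega, by omega, by omega⟩, rfl, rfl, m2 (show j + 1 ≤ n + 1 by omega), g1, g2⟩

section Sim

variable {Φ' : Type} [MulAction G Φ'] {X' : Φ' → Set V} (e : Φ → Φ')
  (hb : Function.Bijective e) (hs : ∀ (g : G) φ, e (g • φ) = g • e φ) (hX : ∀ φ, X' (e φ) = X φ)
include hb hs

theorem sim_stab (φ : Φ) : stabilizer G (e φ) = stabilizer G φ := by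
  ext g
  rw [mem_stabilizer_iff, mem_stabilizer_iff, ← hs, hb.1.eq_iff]

include hX

theorem sim_gap {κ : Cst ρ} (h : FGap B G κ X') : FGap B G κ X := by
  intro φ
  have := h (e φ)
  rwa [sim_stab e hb hs, hX] at this

theorem sim_OE (h : Fam B G ρ X) (p l : ℕ) :
    nOrb (⊤ : Subgroup G) (OE B G p l X) = nOrb (⊤ : Subgroup G) (OE B G p l X') := by
  have hm : ∀ s : Φ × V × V, (e s.1, s.2) ∈ OE B G p l X' ↔ s ∈ OE B G p l X := by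
    intro s
    show Ordi B p l (stabilizer G (e s.1)) (X' (e s.1)) s.2.1 s.2.2 ↔ _
    rw [sim_stab e hb hs, hX]
    rfl
  have hk : ∀ (k : G) (s : Φ × V × V), k • (e s.1, s.2) = (e (k • s).1, (k • s).2) := by
    intro k s
    rw [Prod.smul_fst, hs]
    rfl
  obtain ⟨h1, h2⟩ := nOrb_le_of_surj (K' := (⊤ : Subgroup G)) (S' := OE B G p l X')
    (h.count_OE (p := p) (l := l)).1 (fun s : Φ × V × V => (e s.1, s.2))
    (by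
      rintro s - s' - ⟨k, hk', rfl⟩
      exact ⟨k, hk', hk k s⟩)
    (by
      rintro ⟨φ', t⟩ ht
      obtain ⟨φ, rfl⟩ := hb.2 φ'
      exact ⟨(φ, t), (hm (φ, t)).1 ht, 1, one_mem _, one_smul _ _⟩)
  refine le_antisymm (nOrb_le_of_inj h1 (fun s : Φ × V × V => (e s.1, s.2))
    (fun s hs' => (hm s).2 hs') ?_).2 h2
  rintro s - s' - ⟨k, hk', e1⟩
  rw [hk] at e1
  exact ⟨k, hk', Prod.ext (hb.1 (Prod.ext_iff.1 e1).1) (Prod.ext_iff.1 e1).2⟩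

theorem sim_incl (h : Fam B G ρ X) (h' : Fam B G ρ X') : Incl B G ρ X' X e := by
  refine ⟨h', h, hs, hb.2, fun ψ => (hX ψ).ge, fun ψ => ?_⟩
  rw [sim_stab e hb hs]
  exact cmp_refl _

end Sim

end Gap
end CPOR
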