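import Pool.Agent.P.MP_2cb329_al.F.GO2
import Pool.Agent.P.MP_2cb329_al.F.GI2
import Pool.Agent.P.MP_2cb329_al.F.GI3
import Pool.Agent.P.MP_2cb329_al.F.GM
import Pool.Agent.P.MP_2cb329_al.F.GP1
import Pool.Agent.P.MP_2cb329_al.F.GP2
import Pool.Agent.P.MP_2cb329_al.F.GP3
import Pool.Agent.P.MP_2cb329_al.F.GV
import Pool.Agent.P.MP_2cb329_al.F.GR2

/-! F7: the gap trick, assembly. -/

set_option autoImplicit false

namespace CPOR
namespace Gap
open ZT MulAction Pointwise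

section Cases

variable {G : Type} [Group G] {N : Type} [MulAction G N] {S : Sys G N}

theorem pm {W : Type} [MulAction G W] {Z : Spl S W} {R : S.A → W → W → Prop} {Kp : Set (W × W)}
    (h : RelM Z R Kp) (hne : Kp.Nonempty) (hn : NL Z.T) (hc : FC G S.src S.tgt) : Out S := by
  obtain ⟨Kq, h1, h2, h3⟩ := h.exists_min hne
  obtain ⟨W', inst, Z', R', h4, h5, h6, h7⟩ := h1.collapse h2 hn h3
  obtain ⟨M, hM⟩ := h4.mach h5 h7
  refine ⟨W', inst, Z', M, nofix M h6 hc h7 fun x x' a => (hM.out x x' a).exists, ?_⟩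
  by_cases H : ∀ a x y x' y', M.R a x y → M.R a x' y' → Z'.T.Adj x x' → Z'.T.Adj y y'
  · exact Or.inl (hM.neg H)
  · push Not at H
    obtain ⟨a, x, y, x', y', a1, a2, a3, a4⟩ := H
    exact Or.inr (hM.exp ⟨a, x, y, x', y', a1, a2, a3, a4⟩)

variable {V : Type} {B : SimpleGraph V} [MulAction G V] {ρ : ℕ} {κ : Cst ρ}

theorem ord_case {X : N → Set V} {Y T : S.A → Set V} {r : S.A → V → V → Prop}
    (h : Lev B G ρ κ.C κ.F X Y T S.src S.tgt r) (hY : FGap B G κ Y) (hT : FGap B G κ T)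
    (hle : nOrb (⊤ : Subgroup G) (OE B G κ.p κ.l X) ≤ nOrb (⊤ : Subgroup G) (OE B G κ.p κ.l T))
    (hpos : nOrb (⊤ : Subgroup G) (OE B G κ.p κ.l X) ≠ 0) (hc : FC G S.src S.tgt) : Out S := by
  have hSt := (h.omono hY).2 (hle.trans (h.olc hY hT))
  refine pm (ord_relM S h hY hT hSt) ?_ (AG_nl _) hc
  have hne : OE B G κ.p κ.l X ≠ ∅ := fun e =>
    hpos ((nOrb_eq_zero_iff h.inS.fX.count_OE.1).2 e)
  obtain ⟨⟨φ, x, y⟩, ho⟩ := Set.nonempty_iff_ne_empty.2 hne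
  exact ⟨(⟨(φ, x), ho.1.1.1⟩, ⟨(φ, y), ho.1.1.2.1⟩), rfl, ho⟩

theorem Cst.pp (κ : Cst ρ) : κ.p * κ.p ≤ κ.l := (Nat.mul_le_mul κ.hpP κ.hpP).trans κ.hPl

/-- The number of darts of the incidence forest. -/
noncomputable def cN {Φ : Type} [MulAction G Φ] {X : Φ → Set V} (h : Fam B G ρ X) (κ : Cst ρ) : ℕ :=
  nOrb (⊤ : Subgroup G) (Darts (IG h κ.p κ.l))

theorem cyc_mono {Φ Ψ : Type} [MulAction G Φ] [MulAction G Ψ] {X : Φ → Set V} {Y : Ψ → Set V}
    {i : Ψ → Φ} (h : Incl B G ρ X Y i) (hX : AllCyc B G κ.p κ.l X) (hY : AllCyc B G κ.p κ.l Y) :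
    cN h.fX κ ≤ cN h.fY κ ∧ (cN h.fY κ ≤ cN h.fX κ →
      ∃ σ : IV h.fY κ.p κ.l → IV h.fX κ.p κ.l, (∀ (g : G) u, σ (g • u) = g • σ u) ∧
        (∀ u, (σ u).1.1 = i u.1.1) ∧ DB (IG h.fY κ.p κ.l) (IG h.fX κ.p κ.l) σ) := by
  obtain ⟨σ, h1, h2, h3⟩ := incl_map h κ.p κ.l
  have := wm_count (IG_ovr h.fY κ.pp hY) (IG_ovr h.fX κ.pp hX) (IG_nl h.fX hX) i h.surj h.cmp σ
    h1 h2 h3
  exact ⟨this.1, fun hle => ⟨σ, h1, h2, this.2 hle⟩⟩

theorem cyc_case {X : N → Set V} {Y T : S.A → Set V} {r : S.A → V → V → Prop}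
    (h : Lev B G ρ κ.C κ.F X Y T S.src S.tgt r) (hY : FGap B G κ Y) (hT : FGap B G κ T)
    (cX : AllCyc B G κ.p κ.l X) (cT : AllCyc B G κ.p κ.l T) (hle : cN h.inT.fY κ ≤ cN h.inT.fX κ)
    {φ : N} {x y : V} (hxy : Long B κ.l (X φ) x y) (hc : FC G S.src S.tgt) : Out S := by
  have cY : AllCyc B G κ.p κ.l Y := by
    rw [h.inS.fY.allCyc_iff]
    have h1 := (h.omono hY).1
    rw [h.inS.fX.allCyc_iff.1 cX] at h1
    omega
  obtain ⟨f, f1, f2, f3⟩ := lc_map κ h.inS.fY h.inT.fY h.r_smul (h.lch hY hT)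
  have e : cN h.inS.fY κ = cN h.inT.fY κ :=
    f3.nOrb_eq f1 (IG_count h.inS.fY κ.pp).1 (IG_ovr h.inS.fY κ.pp cY).gf.acts
  obtain ⟨σ, s1, s2, s3⟩ := (cyc_mono h.inS cX cY).2 (e.le.trans hle)
  obtain ⟨τ, t1, t2, t3⟩ := (cyc_mono h.inT cX cT).2 hle
  obtain ⟨M, hM⟩ := glue ((IG_ovr h.inS.fX κ.pp cX).spl S) (IG_ovr h.inS.fY κ.pp cY)
    (σ := σ) (τ := fun u => τ (f u)) s1 (fun g u => by rw [f1, t1]) s2
    (fun u => (t2 _).trans (congrArg S.tgt (f2 u))) s3 (f3.comp t3)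
  exact ⟨_, _, _, M, nofix M (IG_nl _ cX) hc (IG_dart _ cX hxy) fun x x' a => (hM.out x x' a).exists,
    Or.inl hM⟩

end Cases

theorem stable_level (n : ℕ) (o c : ℕ → ℕ) (ho : o 0 ≤ n) (hc : ∀ t, c t ≤ 2 * n)
    (hm : ∀ t ≤ 3 * n, o (t + 1) ≤ o t) :
    ∃ t ≤ 3 * n, (o t ≠ 0 ∧ o t ≤ o (t + 1)) ∨ (o t = 0 ∧ c (t + 1) ≤ c t) := by
  by_contra H
  push Not at H
  have h1 : ∀ t ≤ n, o t + t ≤ n ∨ o t = 0 := by
    intro t
    induction t with
    | zero => intro _; omega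
    | succ t ih =>
      intro ht
      have a1 := ih (by omega)
      have a2 := (H t (by omega)).1
      have a3 := hm t (by omega)
      by_cases e : o t = 0
      · omega
      · have := a2 e
        omega
  have h2 : ∀ s ≤ 2 * n + 1, o (n + s) = 0 ∧ s ≤ c (n + s) := by
    intro s
    induction s with
    | zero =>
      intro _
      have := h1 n le_rfl
      exact ⟨by simp only [Nat.add_zero]; omega, Nat.zero_le _⟩
    | succ s ih =>
      intro hs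
      obtain ⟨a1, a2⟩ := ih (by omega)
      have a3 := (H (n + s) (by omega)).2 a1
      have a4 := hm (n + s) (by omega)
      rw [← Nat.add_assoc]
      omega
  have := (h2 (2 * n + 1) le_rfl).2
  have := hc (n + (2 * n + 1))
  omega

section Main

variable {G : Type} [Group G] {N : Type} [MulAction G N] {S : Sys G N}

theorem xw_sim {Φ Φ' : Type} [MulAction G Φ] [MulAction G Φ'] {m : ℕ} {w : Φ → ℤ → S.A}
    {w₂ : Φ' → ℤ → S.A} (h : WS S m w) (h₂ : WS S m w₂) :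
    ∃ e : Φ → Φ', Function.Bijective e ∧ (∀ (g : G) φ, e (g • φ) = g • e φ) ∧
      (∀ φ, XW S m w₂ (e φ) = XW S m w φ) ∧ ∀ φ, YW S m w₂ (e φ) = YW S m w φ := by
  obtain ⟨e, e1, e2, e3⟩ := ws_iso h h₂
  have := h.pos
  refine ⟨e, e1, e2, fun φ => ?_, fun φ => ?_⟩
  · unfold XW
    rw [sim_stab e e1 e2, e3 φ _ (by omega) (by omega)]
  · unfold YW
    rw [sim_stab e e1 e2, e3 φ _ (by omega) (by omega)]

theorem gap_main {ρ : ℕ} (hS : S.Pers ρ) (hb : ¬ S.BackStable) :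
    ∃ m : ℕ, 1 ≤ m ∧ ∀ (N' : Type) [MulAction G N'] (S' : Sys G N') (O : Over S' S)
      (w : N' → ℤ → S.A), O.IsWin m w → Out S' := by
  classical
  obtain ⟨C, F, hC, hF, hlev⟩ := lev_exists hS
  choose Ω inst w hw using fun j : ℕ => ws_exists (m := j + 1) S (by omega)
  choose i τ hwc using fun j : ℕ => wc_exists (hw j) (hw (j + 1))
  choose r hr using fun j : ℕ => hlev _ _ _ _ _ _ _ (hwc j)
  set n := nOrb (⊤ : Subgroup G) (Set.univ : Set N) * (6 * ρ) with hn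
  have fX := fun j => fam_XW hS (hw j)
  have fY := fun j => fam_YW hS (hw (j + 1))
  have aX : ∀ j, nOrb (⊤ : Subgroup G) (AE S.B (XW S (j + 1) (w j))) ≤ n := fun j =>
    (fX j).count_AE.2.trans (Nat.mul_le_mul_right _ ((hw j).fin hS).2)
  have aY : ∀ j, nOrb (⊤ : Subgroup G) (AE S.B (YW S (j + 1 + 1) (w (j + 1)))) ≤ n := fun j =>
    (fY j).count_AE.2.trans (Nat.mul_le_mul_right _ ((hw (j + 1)).fin hS).2)
  have hv : ∀ j, j ≤ nOrb (⊤ : Subgroup G) (VE (XW S (j + 1) (w j))) := by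
    intro j
    induction j with
    | zero => exact Nat.zero_le _
    | succ j ih =>
      by_contra H
      exact hb ((hwc j).back ((hr j).inT.vmono.2 (by omega)))
  obtain ⟨Λm, hΛm⟩ := exists_cst ρ C F hC hF ((3 * n + 2) * (n + n))
  choose A1 A2 hA1 hA2 hA using fun j => (fX j).vals
  choose B1 B2 hB1 hB2 hB using fun j => (fY j).vals
  set m0 := n * (Λm + 1) + 1 with hm0
  have hcard : ∀ A B : ℕ → Finset ℕ, (∀ j, (A j).card ≤ n) → (∀ j, (B j).card ≤ n) →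
      ((Finset.range (3 * n + 2)).biUnion fun t => A (m0 + t) ∪ B (m0 + t)).card ≤
        (3 * n + 2) * (n + n) := by
    intro A B h1 h2
    have := Finset.card_biUnion_le_card_mul (Finset.range (3 * n + 2))
      (fun t => A (m0 + t) ∪ B (m0 + t)) (n + n) fun t _ =>
        (Finset.card_union_le _ _).trans (Nat.add_le_add (h1 _) (h2 _))
    rwa [Finset.card_range] at this
  obtain ⟨κ, rfl, rfl, hκ, g1, g2⟩ := hΛm _ _
    (hcard A1 B1 (fun j => (hA1 j).trans (aX j)) fun j => (hB1 j).trans (aY j))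
    (hcard A2 B2 (fun j => (hA2 j).trans (aX j)) fun j => (hB2 j).trans (aY j))
  have gX : ∀ t < 3 * n + 2, FGap S.B G κ (XW S (m0 + t + 1) (w (m0 + t))) := fun t ht =>
    hA _ κ (fun a ha => g1 a (Finset.mem_biUnion.2
        ⟨t, Finset.mem_range.2 ht, Finset.mem_union_left _ ha⟩))
      fun a ha => g2 a (Finset.mem_biUnion.2
        ⟨t, Finset.mem_range.2 ht, Finset.mem_union_left _ ha⟩)
  have gY : ∀ t < 3 * n + 2, FGap S.B G κ (YW S (m0 + t + 1 + 1) (w (m0 + t + 1))) := fun t ht =>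
    hB _ κ (fun a ha => g1 a (Finset.mem_biUnion.2
        ⟨t, Finset.mem_range.2 ht, Finset.mem_union_right _ ha⟩))
      fun a ha => g2 a (Finset.mem_biUnion.2
        ⟨t, Finset.mem_range.2 ht, Finset.mem_union_right _ ha⟩)
  obtain ⟨t, ht, hcase⟩ := stable_level n
    (fun t => nOrb (⊤ : Subgroup G) (OE S.B G κ.p κ.l (XW S (m0 + t + 1) (w (m0 + t)))))
    (fun t => cN (fX (m0 + t)) κ) ((fX _).count_OE.2.trans (aX _))
    (fun t => (IG_count (fX _) κ.pp).2.trans (Nat.mul_le_mul_left _ (aX _)))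
    fun t ht => ((hr (m0 + t)).olc (gY t (by omega)) (gX (t + 1) (by omega))).trans
      ((hr (m0 + t)).omono (gY t (by omega))).1
  refine ⟨m0 + t + 1, by omega, fun N' _ S' O w₀ hO => ?_⟩
  obtain ⟨w₁, hc⟩ := win_wc O hO
  obtain ⟨r', hL⟩ := hlev _ _ _ _ _ _ _ hc
  obtain ⟨e, e1, e2, e3, -⟩ := xw_sim hc.ws (hw (m0 + t))
  obtain ⟨e', e1', e2', e3', e4'⟩ := xw_sim hc.ws' (hw (m0 + t + 1))
  have kY := sim_gap e' e1' e2' e4' (gY t (by omega))
  have kT := sim_gap e' e1' e2' e3' (gX (t + 1) (by omega))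
  have oX := sim_OE e e1 e2 e3 hL.inS.fX κ.p κ.l
  have oT := sim_OE e' e1' e2' e3' hL.inT.fY κ.p κ.l
  rcases hcase with ⟨c1, c2⟩ | ⟨c1, c2⟩
  · exact ord_case hL kY kT (by rw [oX, oT]; exact c2) (by rw [oX]; exact c1) (hc.fc hS)
  · have c3 : nOrb (⊤ : Subgroup G)
        (OE S.B G κ.p κ.l (XW S (m0 + t + 1 + 1) (w (m0 + t + 1)))) = 0 :=
      Nat.le_zero.1 (c1 ▸ ((hr (m0 + t)).olc (gY t (by omega)) (gX (t + 1) (by omega))).trans
        ((hr (m0 + t)).omono (gY t (by omega))).1)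
    have cX := hL.inS.fX.allCyc_iff.2 (oX.trans c1)
    have cT := hL.inT.fY.allCyc_iff.2 (oT.trans c3)
    have cX' := (fX (m0 + t)).allCyc_iff.2 c1
    have cT' := (fX (m0 + t + 1)).allCyc_iff.2 c3
    obtain ⟨d, d1, d2, d3, -⟩ := xw_sim (hw (m0 + t + 1)) hc.ws'
    have l1 := (cyc_mono (sim_incl e e1 e2 e3 hL.inS.fX (fX (m0 + t))) cX' cX).1
    have l2 := (cyc_mono (sim_incl d d1 d2 d3 (fX (m0 + t + 1)) hL.inT.fY) cT cT').1
    have hlong : ∃ φ x y, Long S.B κ.l (XW S (m0 + t + 1) (w (m0 + t)) φ) x y := by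
      by_contra H
      push Not at H
      have b1 := (fX (m0 + t)).big (Λ := Λm) fun φ x y ha => by
        have := κ.hlΛ
        by_contra H'
        exact H φ x y ⟨ha, by omega⟩
      have b2 := Nat.mul_le_mul_right (Λm + 1) (aX (m0 + t))
      have b3 := hv (m0 + t)
      omega
    obtain ⟨φ, x, y, hxy⟩ := hlong
    obtain ⟨φ, rfl⟩ := e1.2 φ
    rw [e3] at hxy
    exact cyc_case hL kY kT cX cT (l2.trans (c2.trans l1)) hxy (hc.fc hS)

end Main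

end Gap

theorem s_gap : S_gap := fun _ _ _ _ _ _ hS hb => Gap.gap_main hS hb

end CPOR
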