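import Pool.Agent.P.MP_2cb329_al.F.GS
import Pool.Agent.P.MP_2cb329_al.F.GK2

/-! F7: counting ordinary arcs; local lemmas of the ordinary case. -/

set_option autoImplicit false

namespace CPOR
namespace Gap
open ZT MulAction

variable {V : Type} {B : SimpleGraph V} {G : Type} [Group G] [MulAction G V]
  {Φ Ψ : Type} [MulAction G Φ] [MulAction G Ψ] {ρ : ℕ} {κ : Cst ρ} {X : Φ → Set V}
  {Y T : Ψ → Set V} {i τ : Ψ → Φ} {r : Ψ → V → V → Prop} (h : Lev B G ρ κ.C κ.F X Y T i τ r)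

theorem go1_le {σ : Ψ → Φ} {U : Ψ → Set V} (k : Incl B G ρ X U σ) (ψ : Ψ) :
    stabilizer G ψ ≤ stabilizer G (σ ψ) := fun g hg => by
  show g • σ ψ = σ ψ
  rw [← k.smul]
  exact congrArg σ hg

theorem go1_arc {σ : Ψ → Φ} {U : Ψ → Set V} (k : Incl B G ρ X U σ) {φ : Φ} {s t : V}
    (ha : Arc B (X φ) s t) :
    ∃ ψ, σ ψ = φ ∧ ∃ u ∈ Br B (U ψ), ∃ v ∈ Br B (U ψ), On B s t u v := by
  obtain ⟨ψ, rfl⟩ := k.surj φ
  obtain ⟨g, hg, h1, h2⟩ := Cmp.arc k.fX.ff (k.cmp ψ) (k.fY.good ψ) (k.fX.good _) (k.sub ψ) ha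
  have a1 := k.fY.smul g⁻¹ ψ _ h1
  have a2 := k.fY.smul g⁻¹ ψ _ h2
  rw [inv_smul_smul] at a1 a2
  refine ⟨g⁻¹ • ψ, ?_, Good.exists_on k.fX.ff (k.fY.good _) a1 a2 ha.2.2.1⟩
  rw [k.smul]
  exact (stabilizer G (σ ψ)).inv_mem hg

include h

/-- An ordinary arc lies in at most one source tree (`orb`, `SrcH.per`, `Fam.tr`;
`C * C ≤ C * p ≤ l` since `C ≤ C * C ≤ p`). -/
theorem Lev.src_unique {ψ ψ' : Ψ} (he : i ψ = i ψ') {s t : V}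
    (ho : Ordi B κ.p κ.l (stabilizer G (i ψ)) (X (i ψ)) s t) (hs : s ∈ Y ψ) (ht : t ∈ Y ψ)
    (hs' : s ∈ Y ψ') (ht' : t ∈ Y ψ') : ψ = ψ' := by
  obtain ⟨g, rfl⟩ := h.orb ψ ψ' he
  by_contra hne
  obtain ⟨H, Z, hS⟩ := h.src ψ
  have hg : g ∈ stabilizer G (i ψ) := by
    show g • i ψ = i ψ
    rw [← h.inS.smul]; exact he.symm
  have a1 := h.inS.fY.smul g⁻¹ _ _ hs'
  have a2 := h.inS.fY.smul g⁻¹ _ _ ht'
  rw [inv_smul_smul] at a1 a2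
  refine ho.2 (hS.per h.inS.fX.ff κ.hCp hg (fun e => hne (Eq.symm e)) ho.1.1 ?_ hs ht a1 a2)
  have := ho.1.2
  have := κ.hCp
  have := κ.hCl
  have : κ.p ≤ κ.C * κ.p := Nat.le_mul_of_pos_left _ κ.one
  omega

/-- Hint: relation `(φ, s, t) ~ (ψ, x, y)` iff `i ψ = φ`, `(s, t)` ordinary in `X φ`, `(x, y)` an arc
of `Y ψ`, `On s t x y`. Functional by `src_unique`, `On.mem`, `arc_unique`; values in `OE Y` by
`ord_ext`; onto by `SrcH.ord_in`. `nOrb_le_of_rel`, `bij_of_rel`. -/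
theorem Lev.omono (hY : FGap B G κ Y) :
    nOrb (⊤ : Subgroup G) (OE B G κ.p κ.l Y) ≤ nOrb (⊤ : Subgroup G) (OE B G κ.p κ.l X) ∧
      (nOrb (⊤ : Subgroup G) (OE B G κ.p κ.l X) ≤ nOrb (⊤ : Subgroup G) (OE B G κ.p κ.l Y) →
        StO B G κ.p κ.l X Y i) := by
  have hF := h.inS.fX.ff
  have hT := hF.acyc
  let R : Φ × V × V → Ψ × V × V → Prop := fun a b =>
    i b.1 = a.1 ∧ a ∈ OE B G κ.p κ.l X ∧ Arc B (Y b.1) b.2.1 b.2.2 ∧ On B a.2.1 a.2.2 b.2.1 b.2.2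
  have hE := (h.inS.fX.count_OE (p := κ.p) (l := κ.l)).1
  have dom : ∀ a b, R a b → a ∈ OE B G κ.p κ.l X := fun a b k => k.2.1
  have smul : ∀ k ∈ (⊤ : Subgroup G), ∀ a b, R a b → R (k • a) (k • b) := by
    rintro k hk ⟨φ, s, t⟩ ⟨ψ, x, y⟩ ⟨k1, k2, k3, k4⟩
    refine ⟨?_, h.inS.fX.inv_OE k hk _ k2, (h.inS.fY.tr k ψ).arc hF.acts k3,
      on_smul hF.acts k k4⟩
    show i (k • ψ) = k • φ
    rw [h.inS.smul]; exact congrArg _ k1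
  have func : ∀ a b b', R a b → R a b' → b = b' := by
    rintro ⟨φ, s, t⟩ ⟨ψ, x, y⟩ ⟨ψ', x', y'⟩ ⟨k1, k2, k3, k4⟩ ⟨m1, -, m3, m4⟩
    have k1' : i ψ = φ := k1
    have m1' : i ψ' = φ := m1
    subst k1'
    have ho : Ordi B κ.p κ.l (stabilizer G (i ψ)) (X (i ψ)) s t := k2
    have hne : s ≠ t := ho.1.1.2.2.1
    have a1 := On.mem hT (h.inS.fY.good ψ).cvx k4 hne k3.1.1 k3.2.1.1
    have a2 := On.mem hT (h.inS.fY.good ψ').cvx m4 hne m3.1.1 m3.2.1.1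
    have e := h.src_unique m1'.symm ho a1.1 a1.2 a2.1 a2.2
    subst e
    obtain ⟨rfl, rfl⟩ := arc_unique hT (h.inS.fY.good ψ).cvx k3 m3 hne k4 m4
    rfl
  have surj : ∀ b ∈ OE B G κ.p κ.l Y, ∃ a, R a b := by
    rintro ⟨ψ, x, y⟩ hb
    obtain ⟨H, Z, hS⟩ := h.src ψ
    obtain ⟨s, t, k1, k2⟩ := hS.ord_in hF κ (h.inS.fX.rk _) (hY ψ) hb
    exact ⟨(i ψ, s, t), rfl, k1, hb.1.1, k2⟩
  refine ⟨(nOrb_le_of_rel R hE dom smul func surj).2, fun hle => ?_⟩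
  have := (bij_of_rel R hE dom (by
    rintro ⟨φ, s, t⟩ ⟨ψ, x, y⟩ ⟨k1, k2, k3, k4⟩
    have k1' : i ψ = φ := k1
    subst k1'
    exact ord_ext hF (go1_le h.inS ψ) k3 k2 k4) smul func surj (by
    rintro k - ⟨ψ, x, y⟩ - e
    exact hF.free k x (congrArg (fun t => t.2.1) e)) hle).2
  intro ψ x y u v u' v' ha k1 k2 k3 k4
  have e := this (i ψ, u, v) (i ψ, u', v') (ψ, x, y) ⟨rfl, k1, ha, k3⟩ ⟨rfl, k2, ha, k4⟩
  exact ⟨congrArg (fun t => t.2.1) e, congrArg (fun t => t.2.2) e⟩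

/-- Hint: relation `(ψ, x, y) ~ (ψ, x', y')` iff ordinary and `ACor`; `Lev.lch`, `acor_func`,
`acor_tot` for `symm`, `acor_flip`, `acor_ord`. -/
theorem Lev.olc (hY : FGap B G κ Y) (hT : FGap B G κ T) :
    nOrb (⊤ : Subgroup G) (OE B G κ.p κ.l T) ≤ nOrb (⊤ : Subgroup G) (OE B G κ.p κ.l Y) := by
  have hF := h.inS.fX.ff
  let R : Ψ × V × V → Ψ × V × V → Prop := fun a b =>
    a.1 = b.1 ∧ a ∈ OE B G κ.p κ.l Y ∧
      ACor B κ.l (Y a.1) (T a.1) (r a.1) a.2.1 a.2.2 b.2.1 b.2.2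
  refine (nOrb_le_of_rel R (h.inS.fY.count_OE (p := κ.p) (l := κ.l)).1 (fun a b k => k.2.1)
    ?_ ?_ ?_).2
  · rintro k hk ⟨ψ, x, y⟩ ⟨ψ', x', y'⟩ ⟨k1, k2, k3, k4, u, v, k5, k6, k7, k8⟩
    have t1 := h.inS.fY.tr k ψ
    have t2 := h.inT.fY.tr k ψ
    exact ⟨congrArg (k • ·) k1, h.inS.fY.inv_OE k hk _ k2, t1.long hF.acts k3, t2.long hF.acts k4,
      k • u, k • v, h.r_smul k _ _ _ k5, h.r_smul k _ _ _ k6, t2.sh hF.acts k7, t2.sh hF.acts k8⟩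
  · rintro ⟨ψ, x, y⟩ ⟨ψ', x', y'⟩ ⟨ψ'', x'', y''⟩ ⟨k1, -, k3⟩ ⟨m1, -, m3⟩
    have k1' : ψ = ψ' := k1
    have m1' : ψ = ψ'' := m1
    subst k1' m1'
    obtain ⟨rfl, rfl⟩ := (h.lch hY hT ψ).acor_func k3 m3
    rfl
  · rintro ⟨ψ, x', y'⟩ hb
    have L := h.lch hY hT ψ
    obtain ⟨x, y, k⟩ := L.symm.acor_tot hb.1
    exact ⟨(ψ, x, y), rfl, (L.symm.acor_ord k).1 hb, L.symm.acor_flip k⟩

/-- Hint: an ordinary arc of `X (τ ψ)` on `[x', y']` lies in a long arc of `T ψ` on `[x', y']`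
(`long_ext`), which is ordinary (`ord_ext`), corresponds to an ordinary arc of `Y ψ` on `[x, y]`
(`acor_tot`, `acor_on`, `acor_ord` for `symm`), which contains an ordinary arc of `X (i ψ)`
(`SrcH.ord_in`, `On.trans`). -/
theorem Lev.shO_func (hY : FGap B G κ Y) (hT : FGap B G κ T) {ψ : Ψ} {x x' y y' : V}
    (hx : r ψ x x') (hy : r ψ y y') (hs : ShO B κ.p κ.l (stabilizer G (i ψ)) (X (i ψ)) x y) :
    ShO B κ.p κ.l (stabilizer G (τ ψ)) (X (τ ψ)) x' y' := by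
  have hF := h.inS.fX.ff
  have hA := hF.acyc
  have L := h.lch hY hT ψ
  refine ⟨br_mono (h.inT.sub ψ) (L.br' hx), br_mono (h.inT.sub ψ) (L.br' hy), ?_⟩
  intro s t ho hon
  obtain ⟨u', v', k1, k2, k3⟩ := long_ext hA (h.inT.sub ψ) (L.br' hx) (L.br' hy) ho.1 hon
  have k4 := ord_ext hF (go1_le h.inT ψ) k1.1 ho k2
  obtain ⟨u, v, k5⟩ := L.symm.acor_tot k1
  have k6 := L.symm.acor_on k5 hx hy k3
  have k7 := (L.symm.acor_ord k5).1 k4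
  obtain ⟨H, Z, hS⟩ := h.src ψ
  obtain ⟨a, b, k8, k9⟩ := hS.ord_in hF κ (h.inS.fX.rk _) (hY ψ) k7
  exact hs.2.2 a b k8 (On.trans hA k9 k8.1.1.2.2.1 k6)

/-- Hint: if `z ∈ Br (Y ψ)` take `z₁ = z`. Otherwise `z ≠ y` and `arc_of_on` for the dart
`(z, nxt z y)` gives an arc `(u, v)` of `Y ψ` on `[x, y]` through `z`; if neither `ShO z u` nor
`ShO z v`, there are ordinary arcs on `[u, z]` and on `[z, v]`, both on `[u, v]` and different,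
against `StO`. Then `LCH.btw`, `Sh.symm`, `Sh.incl`, `Sh.shO`. -/
theorem Lev.shO_cvx (hY : FGap B G κ Y) (hT : FGap B G κ T) (hSt : StO B G κ.p κ.l X Y i) {ψ : Ψ}
    {x x' y y' z : V} (hx : r ψ x x') (hy : r ψ y y') (hz : z ∈ Br B (X (i ψ)))
    (hb : Btw B x z y) :
    ∃ z₁ w₁ w, ShO B κ.p κ.l (stabilizer G (i ψ)) (X (i ψ)) z z₁ ∧ r ψ z₁ w₁ ∧
      ShO B κ.p κ.l (stabilizer G (τ ψ)) (X (τ ψ)) w₁ w ∧ Btw B x' w y' := by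
  have hF := h.inS.fX.ff
  have hA := hF.acyc
  have L := h.lch hY hT ψ
  have fin : ∀ z₁ ∈ Br B (Y ψ), ShO B κ.p κ.l (stabilizer G (i ψ)) (X (i ψ)) z z₁ →
      Btw B x z₁ y → ∃ z₁ w₁ w, ShO B κ.p κ.l (stabilizer G (i ψ)) (X (i ψ)) z z₁ ∧ r ψ z₁ w₁ ∧
      ShO B κ.p κ.l (stabilizer G (τ ψ)) (X (τ ψ)) w₁ w ∧ Btw B x' w y' := by
    intro z₁ h1 h2 h3
    obtain ⟨w₁, h4⟩ := L.cor.1.tot z₁ h1
    obtain ⟨w, h5, h6⟩ := L.btw hx hy h4 h3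
    exact ⟨z₁, w₁, w, h2, h4, (Sh.incl hA (h.inT.sub ψ) h6).shO, h5⟩
  by_cases hzb : z ∈ Br B (Y ψ)
  · exact fin z hzb (sh_refl hz).shO hb
  have hne : z ≠ y := fun e => hzb (e ▸ L.br hy)
  have hs := sep_nxt hA hb.2.1 hne
  have hadj : B.Adj z (nxt B z y) := hs.1
  have hb2 : Btw B z (nxt B z y) y := hs.2.2
  obtain ⟨u, v, k1, k2, k3⟩ := arc_of_on hA (L.br hx) (L.br hy) hadj.ne
    (show On B z (nxt B z y) x y from ⟨(hb.trans_right hb2).2, hb2⟩)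
    (fun w _ hw => hw.eq_of_adj hA hadj)
  have k4 := On.btw hA k3 k1.2.2.1
  have k5 := (On.btw hA k2 hadj.ne).1
  have bu := br_mono (h.inS.sub ψ) k1.1
  have bv := br_mono (h.inS.sub ψ) k1.2.1
  by_cases c1 : ShO B κ.p κ.l (stabilizer G (i ψ)) (X (i ψ)) u z
  · exact fin u k1.1 c1.symm k4.1
  by_cases c2 : ShO B κ.p κ.l (stabilizer G (i ψ)) (X (i ψ)) z v
  · exact fin v k1.2.1 c2 k4.2
  exfalso
  have d1 : ∃ a b, Ordi B κ.p κ.l (stabilizer G (i ψ)) (X (i ψ)) a b ∧ On B a b u z := by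
    by_contra hc
    exact c1 ⟨bu, hz, fun a b o1 o2 => hc ⟨a, b, o1, o2⟩⟩
  have d2 : ∃ a b, Ordi B κ.p κ.l (stabilizer G (i ψ)) (X (i ψ)) a b ∧ On B a b z v := by
    by_contra hc
    exact c2 ⟨hz, bv, fun a b o1 o2 => hc ⟨a, b, o1, o2⟩⟩
  obtain ⟨a, b, o1, o2⟩ := d1
  obtain ⟨a', b', o1', o2'⟩ := d2
  have n1 : a ≠ b := o1.1.1.2.2.1
  obtain ⟨rfl, rfl⟩ := hSt ψ u v a b a' b' k1 o1 o1' (On.right hA o2 n1 k5)
    (On.left hA o2' o1'.1.1.2.2.1 k5)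
  exact not_on_self n1 (show On B a b z z from ⟨o2'.1, o2.2⟩)

/-- Every arc of `X φ` lies between two points of the domain of an arrow (`surj`, `Cmp.arc`,
translate `ψ` by `k⁻¹`, `Good.exists_on`, `tot`). -/
theorem Lev.arc_src {φ : Φ} {s t : V} (ha : Arc B (X φ) s t) :
    ∃ ψ x x' y y', i ψ = φ ∧ r ψ x x' ∧ r ψ y y' ∧ On B s t x y := by
  obtain ⟨ψ, e, u, hu, v, hv, ho⟩ := go1_arc h.inS ha
  obtain ⟨u', k1⟩ := (h.cor ψ).1.tot u hu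
  obtain ⟨v', k2⟩ := (h.cor ψ).1.tot v hv
  exact ⟨ψ, u, u', v, v', e, k1, k2, ho⟩

theorem Lev.arc_tgt {φ : Φ} {s t : V} (ha : Arc B (X φ) s t) :
    ∃ ψ x x' y y', τ ψ = φ ∧ r ψ x x' ∧ r ψ y y' ∧ On B s t x' y' := by
  obtain ⟨ψ, e, u, hu, v, hv, ho⟩ := go1_arc h.inT ha
  obtain ⟨u', k1⟩ := (h.cor ψ).2.tot u hu
  obtain ⟨v', k2⟩ := (h.cor ψ).2.tot v hv
  exact ⟨ψ, u', u, v', v, e, k1, k2, ho⟩

/-- Finitely many orbits of corresponding pairs (`fin_VE`, `FinOrb.of_rel`, `lip`,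
`FT.ball_finite`). -/
theorem Lev.fin_r : FinOrb (⊤ : Subgroup G) {t : Ψ × V × V | r t.1 t.2.1 t.2.2} := by
  have hF := h.inS.fX.ff
  refine h.inS.fY.fin_VE.of_rel
    (fun (t : Ψ × V × V) (a : Ψ × V) => r t.1 t.2.1 t.2.2 ∧ t.1 = a.1 ∧ t.2.1 = a.2) ?_ ?_ ?_
  · rintro k - ⟨ψ, x, x'⟩ ⟨ψ', y⟩ ⟨k1, k2, k3⟩
    exact ⟨h.r_smul k _ _ _ k1, congrArg (k • ·) k2, congrArg (k • ·) k3⟩
  · rintro ⟨ψ, x, x'⟩ ht
    exact ⟨(ψ, x), ((h.cor ψ).1.dom _ _ ht).1, ht, rfl, rfl⟩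
  · rintro ⟨ψ, x⟩ -
    rcases Set.eq_empty_or_nonempty {t : Ψ × V × V | r t.1 t.2.1 t.2.2 ∧ t.1 = ψ ∧ t.2.1 = x}
      with e | ⟨⟨ψ0, x0, x0'⟩, k1, k2, k3⟩
    · rw [e]; exact Set.finite_empty
    have k2' : ψ0 = ψ := k2
    have k3' : x0 = x := k3
    subst k2' k3'
    refine ((hF.ball_finite x0' (κ.F 0)).image fun w => (ψ0, x0, w)).subset ?_
    rintro ⟨ψ1, x1, w⟩ ⟨m1, m2, m3⟩
    have m2' : ψ1 = ψ0 := m2
    have m3' : x1 = x0 := m3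
    subst m2' m3'
    refine ⟨w, ⟨?_, ?_⟩, rfl⟩
    · exact ((h.cor ψ1).2.good.cvx _ ((h.cor ψ1).2.dom _ _ k1).1 _ ((h.cor ψ1).2.dom _ _ m1).1).1
    · have := (h.cor ψ1).1.lip _ _ _ _ k1 m1
      rwa [SimpleGraph.dist_self] at this

end Gap
end CPOR
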