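import Pool.Agent.P.MP_2cb329_al.F.GA2

/-! F7: the forest of arcs. -/

set_option autoImplicit false

namespace CPOR
namespace Gap
open ZT MulAction

variable {V : Type} {B : SimpleGraph V} {G : Type} [Group G] [MulAction G V]
  {Φ : Type} [MulAction G Φ] {ρ : ℕ} {X : Φ → Set V} (h : Fam B G ρ X)

theorem AG_adj {u v : AV h} :
    (AG h).Adj u v ↔ u.1.1 = v.1.1 ∧ Arc B (X u.1.1) u.1.2 v.1.2 := by
  unfold AG
  rw [SimpleGraph.fromRel_adj]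
  constructor
  · rintro ⟨-, H | H⟩
    · exact H
    · exact ⟨H.1.symm, H.1 ▸ H.2.symm⟩
  · exact fun H => ⟨fun e => H.2.2.2.1 (by rw [e]), Or.inl H⟩

theorem gt_ext {u v : AV h} (h1 : u.1.1 = v.1.1) (h2 : u.1.2 = v.1.2) : u = v :=
  Subtype.ext (Prod.ext h1 h2)

theorem gt_br (u : AV h) : u.1.2 ∈ Br B (X u.1.1) := u.2

theorem gt_reach {u v : AV h} (e : u.1.1 = v.1.1) : B.Reachable u.1.2 v.1.2 :=
  ((h.good u.1.1).cvx _ (gt_br h u).1 _ (e ▸ (gt_br h v).1)).1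

theorem gt_cut1 {u v p q : AV h} (huv : (AG h).Adj u v) (hpq : (AG h).Adj p q)
    (h2 : (p, q) ≠ (v, u)) (hp : p.1.1 = u.1.1 ∧ Btw B u.1.2 v.1.2 p.1.2) :
    q.1.1 = u.1.1 ∧ Btw B u.1.2 v.1.2 q.1.2 := by
  rw [AG_adj] at huv hpq
  have e : q.1.1 = u.1.1 := hpq.1.symm.trans hp.1
  refine ⟨e, ?_⟩
  rcases huv.2.side h.ff.acyc (h.good _).cvx (e ▸ gt_br h q) with H | H
  · obtain ⟨a1, a2⟩ := huv.2.eq_of_on h.ff.acyc (hp.1 ▸ hpq.2.symm) ⟨H, hp.2⟩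
    exact (h2 (by rw [gt_ext h (hp.1.trans huv.1) a2.symm, gt_ext h e a1.symm])).elim
  · exact H

theorem gt_cut {u v : AV h} (huv : (AG h).Adj u v) (p q : AV h) (hpq : (AG h).Adj p q)
    (h1 : (p, q) ≠ (u, v)) (h2 : (p, q) ≠ (v, u)) :
    (p.1.1 = u.1.1 ∧ Btw B u.1.2 v.1.2 p.1.2) ↔ q.1.1 = u.1.1 ∧ Btw B u.1.2 v.1.2 q.1.2 :=
  ⟨gt_cut1 h huv hpq h2, gt_cut1 h huv hpq.symm fun e => h1 (congrArg Prod.swap e)⟩

theorem gt_in {u v : AV h} (huv : (AG h).Adj u v) :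
    v.1.1 = u.1.1 ∧ Btw B u.1.2 v.1.2 v.1.2 :=
  ⟨((AG_adj h).1 huv).1.symm, btw_right (gt_reach h ((AG_adj h).1 huv).1)⟩

theorem gt_out {u v : AV h} (huv : (AG h).Adj u v) :
    ¬ (u.1.1 = u.1.1 ∧ Btw B u.1.2 v.1.2 u.1.2) := fun H =>
  ((AG_adj h).1 huv).2.2.2.1 H.2.eq_of_self.symm

/-- Hint: `acyclic_of_cut` with `H z := Btw B u z.2 ...` the side of the arc (`Arc.side`,
`Arc.eq_of_on`). -/
theorem AG_acyclic : (AG h).IsAcyclic := by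
  exact acyclic_of_cut fun u v huv => ⟨fun z => z.1.1 = u.1.1 ∧ Btw B u.1.2 v.1.2 z.1.2,
    gt_in h huv, gt_out h huv, gt_cut h huv⟩

/-- Hint: `arc_induct`. -/
theorem AG_reach {u v : AV h} : u.1.1 = v.1.1 ↔ (AG h).Reachable u v := by
  constructor
  · intro e
    have hv : v.1.2 ∈ Br B (X u.1.1) := e ▸ gt_br h v
    obtain ⟨_, _, H⟩ := arc_induct h.ff.acyc (h.good u.1.1).cvx
      (fun x y => ∃ (hx : x ∈ Br B (X u.1.1)) (hy : y ∈ Br B (X u.1.1)),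
        (AG h).Reachable ⟨(u.1.1, x), hx⟩ ⟨(u.1.1, y), hy⟩)
      (fun x hx => ⟨hx, hx, SimpleGraph.Reachable.refl _⟩)
      (fun x y z ⟨a1, _, a2⟩ ⟨_, b1, b2⟩ => ⟨a1, b1, a2.trans b2⟩) (gt_br h u) hv
      fun x y ha _ => ⟨ha.1, ha.2.1, SimpleGraph.Adj.reachable ((AG_adj h).2 ⟨rfl, ha⟩)⟩
    rwa [show v = ⟨(u.1.1, v.1.2), hv⟩ from gt_ext h e.symm rfl]
  · intro H
    exact t4_reach_ind (P := fun v => u.1.1 = v.1.1) rfl
      (fun y z _ hyz ih => ih.trans ((AG_adj h).1 hyz).1) H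

theorem gt_half {u v z : AV h} (huv : (AG h).Adj u v) :
    Btw (AG h) u v z ↔ z.1.1 = u.1.1 ∧ Btw B u.1.2 v.1.2 z.1.2 := by
  have key := fun hz : (AG h).Reachable u z => btw_iff_cut (AG_acyclic h) huv
    (fun z => z.1.1 = u.1.1 ∧ Btw B u.1.2 v.1.2 z.1.2) (gt_in h huv) (gt_out h huv)
    (gt_cut h huv) hz
  exact ⟨fun H => (key H.reach).1 H, fun H => (key ((AG_reach h).1 H.1.symm)).2 H⟩

theorem gt_btw {u w v : AV h} (H : Btw (AG h) u w v) : Btw B u.1.2 w.1.2 v.1.2 := by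
  refine t6_geod_ind (AG_acyclic h)
    (P := fun u w => Btw (AG h) u w v → Btw B u.1.2 w.1.2 v.1.2)
    (fun x hx => btw_left (gt_reach h ((AG_reach h).2 hx.reach))) ?_ H.1 H
  intro x z y hxz hb ih hy
  obtain ⟨a1, a2⟩ := hy.trans_left hb
  exact (((gt_half h hxz).1 a1).2.trans_right (ih a2)).1

/-- Hint: (→) along a geodesic `a 0, …, a n` of `AG` (`exists_geod`) consecutive arcs are aligned
in `B` (`Arc.side`), glue (`Btw.glue`); or use `btw_iff_of_cut`-type lemmas of T1.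
(←) the median in `AG` of `u, w, v` is the median in `B` (`median_unique`), which is `w`. -/
theorem AG_btw {u w v : AV h} :
    Btw (AG h) u w v ↔ u.1.1 = w.1.1 ∧ w.1.1 = v.1.1 ∧ Btw B u.1.2 w.1.2 v.1.2 := by
  refine ⟨fun H => ⟨(AG_reach h).2 H.1, (AG_reach h).2 H.2.1, gt_btw h H⟩, fun ⟨e1, e2, H⟩ => ?_⟩
  obtain ⟨m, m1, m2, m3⟩ := exists_median (AG_acyclic h) ((AG_reach h).1 e1) ((AG_reach h).1 e2)
  have := median_unique h.ff.acyc (gt_btw h m1) (gt_btw h m2) (gt_btw h m3) (btw_right H.1)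
    (btw_left H.2.1) H
  rwa [gt_ext h ((AG_reach h).2 m1.2.1) this] at m3

theorem AG_sep {e : AV h × AV h} {u v : AV h} :
    Sep (AG h) e u v ↔ (AG h).Adj e.1 e.2 ∧ u.1.1 = e.1.1.1 ∧ v.1.1 = e.1.1.1 ∧
      On B e.1.1.2 e.2.1.2 u.1.2 v.1.2 := by
  constructor
  · rintro ⟨h1, h2, h3⟩
    exact ⟨h1, (AG_reach h).2 h2.1, ((AG_reach h).2 h3.reach).symm, gt_btw h h2, gt_btw h h3⟩
  · rintro ⟨h1, h2, h3, h4, h5⟩
    have e := ((AG_adj h).1 h1).1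
    exact ⟨h1, (AG_btw h).2 ⟨h2, e, h4⟩, (AG_btw h).2 ⟨e, e.symm.trans h3.symm, h5⟩⟩

/-- No inversion: `g * g` fixes a vertex so is trivial, then `FT.eq_one_of_zpow`. -/
theorem AG_ovr : Ovr (AG h) G (fun u => u.1.1) := by
  refine ⟨⟨AG_acyclic h, fun g u v huv => ?_, fun g u v huv h1 h2 => ?_, fun g u v _ h1 _ =>
    h.ff.free g u.1.2 (congrArg (fun z : AV h => z.1.2) h1)⟩, ?_, ?_, fun _ _ => rfl,
    fun φ => ?_, fun _ _ => AG_reach h⟩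
  · rw [AG_adj] at huv ⊢
    exact ⟨congrArg (g • ·) huv.1, (h.tr g u.1.1).arc h.ff.acts huv.2⟩
  · have a1 : g • u.1.2 = v.1.2 := congrArg (fun z : AV h => z.1.2) h1
    have a2 : g • v.1.2 = u.1.2 := congrArg (fun z : AV h => z.1.2) h2
    have a3 : g = 1 := h.ff.eq_one_of_zpow (x := u.1.2)
      (a1 ▸ gt_reach h ((AG_adj h).1 huv).1) (n := 2) two_ne_zero (h.ff.free _ u.1.2 (by
        rw [zpow_two, mul_smul, a1, a2]))
    rw [a3, one_smul] at h1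
    exact huv.ne h1
  · obtain ⟨F, hF, H⟩ := h.fin_VE
    exact ⟨Subtype.val ⁻¹' F, hF.preimage Subtype.val_injective.injOn, fun u _ =>
      H u.1 (gt_br h u).1⟩
  · refine (nOrb_le_of_inj h.count_AE.1 (fun e : AV h × AV h => (e.1.1.1, e.1.1.2, e.2.1.2))
      (fun e he => ((AG_adj h).1 he).2) fun e he e' he' ⟨k, hk, H⟩ => ⟨k, hk, ?_⟩).1
    have a1 : k • e.1.1.1 = e'.1.1.1 := congrArg Prod.fst H
    refine Prod.ext (gt_ext h a1 (congrArg (fun z => z.2.1) H))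
      (gt_ext h ?_ (congrArg (fun z => z.2.2) H))
    show k • e.2.1.1 = e'.2.1.1
    rw [← ((AG_adj h).1 he).1, ← ((AG_adj h).1 he').1, a1]
  · obtain ⟨x, hx⟩ := (h.good φ).br_nonempty h.ff
    exact ⟨⟨(φ, x), hx⟩, rfl⟩

/-- Hint: one of the three neighbours of `u` is not `nxt u v`; `Good.arc_of_dart`. -/
theorem AG_nl : NL (AG h) := by
  intro u v huv
  have hT := h.ff.acyc
  obtain ⟨y, hy, a1, a2⟩ : ∃ y ∈ X u.1.1, B.Adj u.1.2 y ∧ y ≠ nxt B u.1.2 v.1.2 := by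
    obtain ⟨-, y₁, a1, y₂, a2, -, -, b1, b2, -, c1, -⟩ := gt_br h u
    by_cases e : y₁ = nxt B u.1.2 v.1.2
    · exact ⟨y₂, a2, b2, e ▸ c1.symm⟩
    · exact ⟨y₁, a1, b1, e⟩
  obtain ⟨p, q, ha, ho⟩ := (h.good u.1.1).arc_of_dart h.ff (gt_br h u).1 hy a1
  rcases ha.2.2.2 _ (gt_br h u) (ho.btw hT a1.ne).1 with e | e
  · refine ⟨⟨(u.1.1, q), ha.2.1⟩, (AG_adj h).2 ⟨rfl, e ▸ ha⟩, fun H => a2 ?_⟩
    rw [← H]
    exact (nxt_eq hT a1 ho.2).symm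
  · exact (a1.ne' (e ▸ ho.2 : Btw B u.1.2 y u.1.2).eq_of_self).elim

end Gap
end CPOR
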