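import Pool.Agent.P.MP_2cb329_al.F.GO1
import Pool.Agent.P.MP_2cb329_al.F.GT

/-! F7: the relative pre-machine of the ordinary case. -/

set_option autoImplicit false

namespace CPOR
namespace Gap
open ZT MulAction

variable {V : Type} {B : SimpleGraph V} {G : Type} [Group G] [MulAction G V] {ρ : ℕ}

/-- Ordinary arcs as darts of the forest of arcs. -/
def KO {Φ : Type} [MulAction G Φ] {X : Φ → Set V} (h : Fam B G ρ X) (p l : ℕ) :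
    Set (AV h × AV h) :=
  {e | e.1.1.1 = e.2.1.1 ∧ Ordi B p l (stabilizer G e.1.1.1) (X e.1.1.1) e.1.1.2 e.2.1.2}

theorem eqv_KO {Φ : Type} [MulAction G Φ] {X : Φ → Set V} (h : Fam B G ρ X) (p l : ℕ)
    {u v : AV h} : Eqv (AG h) (KO h p l) u v ↔
      u.1.1 = v.1.1 ∧ ShO B p l (stabilizer G u.1.1) (X u.1.1) u.1.2 v.1.2 := by
  constructor
  · rintro ⟨hr, hs⟩
    have e : u.1.1 = v.1.1 := (AG_reach h).2 hr
    have hv : v.1.2 ∈ Br B (X v.1.1) := v.2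
    refine ⟨e, u.2, by rw [e]; exact hv, fun s t ho hon => ?_⟩
    let s' : AV h := ⟨(u.1.1, s), ho.1.1.1⟩
    let t' : AV h := ⟨(u.1.1, t), ho.1.1.2.1⟩
    refine hs (s', t') ⟨rfl, ho⟩ ((AG_sep h).2 ⟨(AG_adj h).2 ⟨rfl, ho.1.1⟩, rfl, e.symm, hon⟩)
  · rintro ⟨e, hs⟩
    refine ⟨(AG_reach h).1 e, fun d hd hsep => ?_⟩
    obtain ⟨-, e1, -, hon⟩ := (AG_sep h).1 hsep
    refine hs.2.2 d.1.1.2 d.2.1.2 ?_ hon
    rw [e1]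
    exact hd.2

/-- Use `AG_btw`, `AG_sep`, `eqv_KO` to translate; `func` is `shO_func`, `cvx` is `shO_cvx`, `out`
is `arc_src` with `src_unique` (`On.mem`), `onto` is `arc_tgt`, `fin` follows from `fin_r`. Points
in the domain (range) of `r a` are branch vertices of `X (src a)` (`X (tgt a)`) by `br_mono`. -/
theorem ord_relM {N : Type} [MulAction G N] (S : Sys G N) {κ : Cst ρ} {X : N → Set V}
    {Y T : S.A → Set V} {r : S.A → V → V → Prop} (h : Lev B G ρ κ.C κ.F X Y T S.src S.tgt r)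
    (hY : FGap B G κ Y) (hT : FGap B G κ T) (hSt : StO B G κ.p κ.l X Y S.src) :
    RelM ((AG_ovr h.inS.fX).spl S)
      (fun a u w => u.1.1 = S.src a ∧ w.1.1 = S.tgt a ∧ r a u.1.2 w.1.2)
      (KO h.inS.fX κ.p κ.l) := by
  have hF := h.inS.fX.ff
  have dS : ∀ a x x', r a x x' → x ∈ Br B (X (S.src a)) := fun a x x' hr =>
    br_mono (h.inS.sub a) ((h.cor a).1.dom x x' hr)
  have dT : ∀ a x x', r a x x' → x' ∈ Br B (X (S.tgt a)) := fun a x x' hr =>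
    br_mono (h.inT.sub a) ((h.cor a).2.dom x' x hr)
  refine ⟨⟨?_, ?_⟩, ?_, ?_, ?_, ?_, ?_, ?_, ?_, ?_, ?_, ?_⟩
  · rintro g e ⟨e1, ho⟩
    refine ⟨?_, ?_⟩
    · show g • e.1.1.1 = g • e.2.1.1
      rw [e1]
    · exact (h.inS.fX.tr g e.1.1.1).ord hF.acts ho
  · rintro e ⟨e1, ho⟩
    refine ⟨e1.symm, ?_⟩
    show Ordi B κ.p κ.l (stabilizer G e.2.1.1) (X e.2.1.1) e.2.1.2 e.1.1.2
    rw [← e1]
    exact ho.symm
  · rintro e ⟨e1, ho⟩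
    exact (AG_adj h.inS.fX).2 ⟨e1, ho.1.1⟩
  · rintro g a x y ⟨e1, e2, hr⟩
    refine ⟨?_, ?_, h.r_smul g a _ _ hr⟩
    · show g • x.1.1 = _
      rw [S.src_smul, e1]
    · show g • y.1.1 = _
      rw [S.tgt_smul, e2]
  · rintro a x y ⟨e1, -, -⟩
    exact e1
  · rintro a x y ⟨-, e2, -⟩
    exact e2
  · intro a
    obtain ⟨x, hx⟩ := (h.cor a).1.good.br_nonempty hF
    obtain ⟨x', hr⟩ := (h.cor a).1.tot x hx
    exact ⟨⟨(S.src a, x), dS a x x' hr⟩, ⟨(S.tgt a, x'), dT a x x' hr⟩, rfl, rfl, hr⟩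
  · refine h.fin_r.of_rel
      (fun (t : S.A × AV h.inS.fX × AV h.inS.fX) (y : S.A × V × V) =>
        t.1 = y.1 ∧ t.2.1.1 = (S.src y.1, y.2.1) ∧ t.2.2.1 = (S.tgt y.1, y.2.2)) ?_ ?_ ?_
    · rintro k - t y ⟨e1, e2, e3⟩
      refine ⟨?_, ?_, ?_⟩
      · show k • t.1 = k • y.1
        rw [e1]
      · show k • t.2.1.1 = (S.src (k • y.1), k • y.2.1)
        rw [e2, S.src_smul]
        rfl
      · show k • t.2.2.1 = (S.tgt (k • y.1), k • y.2.2)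
        rw [e3, S.tgt_smul]
        rfl
    · rintro t ⟨e1, e2, hr⟩
      exact ⟨(t.1, t.2.1.1.2, t.2.2.1.2), hr, rfl, Prod.ext e1 rfl, Prod.ext e2 rfl⟩
    · intro y _
      refine Set.Subsingleton.finite ?_
      rintro t ⟨e1, e2, e3⟩ t' ⟨e1', e2', e3'⟩
      exact Prod.ext (e1.trans e1'.symm)
        (Prod.ext (Subtype.ext (e2.trans e2'.symm)) (Subtype.ext (e3.trans e3'.symm)))
  · rintro a x y x' y' ⟨e1, e2, hr⟩ ⟨e1', e2', hr'⟩ hq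
    obtain ⟨-, hs⟩ := (eqv_KO h.inS.fX κ.p κ.l).1 hq
    rw [e1] at hs
    refine (eqv_KO h.inS.fX κ.p κ.l).2 ⟨e2.trans e2'.symm, ?_⟩
    rw [e2]
    exact h.shO_func hY hT hr hr' hs
  · rintro a x y x' y' z ⟨e1, e2, hr⟩ ⟨e1', e2', hr'⟩ hb
    obtain ⟨f1, -, hb'⟩ := (AG_btw h.inS.fX).1 hb
    have ez : z.1.1 = S.src a := f1.symm.trans e1
    have hz : z.1.2 ∈ Br B (X (S.src a)) := by
      rw [← ez]
      exact z.2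
    obtain ⟨z₁, w₁, w, s1, r1, s2, b2⟩ := h.shO_cvx hY hT hSt hr hr' hz hb'
    refine ⟨⟨(S.src a, z₁), s1.2.1⟩, ⟨(S.tgt a, w₁), s2.1⟩, ⟨(S.tgt a, w), s2.2.1⟩, ?_,
      ⟨rfl, rfl, r1⟩, (eqv_KO h.inS.fX κ.p κ.l).2 ⟨rfl, s2⟩,
      (AG_btw h.inS.fX).2 ⟨e2, e2'.symm, b2⟩⟩
    refine (eqv_KO h.inS.fX κ.p κ.l).2 ⟨ez, ?_⟩
    rw [ez]
    exact s1
  · rintro e ⟨e1, ho⟩
    have key : ∀ a, (∃ x y x' y' : AV h.inS.fX,
        (x.1.1 = S.src a ∧ y.1.1 = S.tgt a ∧ r a x.1.2 y.1.2) ∧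
        (x'.1.1 = S.src a ∧ y'.1.1 = S.tgt a ∧ r a x'.1.2 y'.1.2) ∧
        Sep (AG h.inS.fX) e x x') →
        S.src a = e.1.1.1 ∧ e.1.1.2 ∈ Y a ∧ e.2.1.2 ∈ Y a := by
      rintro a ⟨x, y, x', y', ⟨f1, -, hr⟩, ⟨-, -, hr'⟩, hsep⟩
      obtain ⟨-, g1, -, hon⟩ := (AG_sep h.inS.fX).1 hsep
      exact ⟨f1.symm.trans g1, hon.mem hF.acyc (h.cor a).1.good.cvx ho.1.1.2.2.1
        (br_sub ((h.cor a).1.dom _ _ hr)) (br_sub ((h.cor a).1.dom _ _ hr'))⟩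
    obtain ⟨a, x, y, x', y', ea, hr, hr', hon⟩ := h.arc_src ho.1.1
    have ha : ∃ x y x' y' : AV h.inS.fX,
        (x.1.1 = S.src a ∧ y.1.1 = S.tgt a ∧ r a x.1.2 y.1.2) ∧
        (x'.1.1 = S.src a ∧ y'.1.1 = S.tgt a ∧ r a x'.1.2 y'.1.2) ∧
        Sep (AG h.inS.fX) e x x' :=
      ⟨⟨(S.src a, x), dS a _ _ hr⟩, ⟨(S.tgt a, y), dT a _ _ hr⟩, ⟨(S.src a, x'), dS a _ _ hr'⟩,
        ⟨(S.tgt a, y'), dT a _ _ hr'⟩, ⟨rfl, rfl, hr⟩, ⟨rfl, rfl, hr'⟩,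
        (AG_sep h.inS.fX).2 ⟨(AG_adj h.inS.fX).2 ⟨e1, ho.1.1⟩, ea, ea, hon⟩⟩
    refine ⟨a, ha, fun a' ha' => ?_⟩
    obtain ⟨k1, k2, k3⟩ := key a ha
    obtain ⟨k1', k2', k3'⟩ := key a' ha'
    refine h.src_unique (k1'.trans k1.symm) ?_ k2' k3' k2 k3
    rw [k1']
    exact ho
  · rintro e ⟨e1, ho⟩
    obtain ⟨a, x, y, x', y', ea, hr, hr', hon⟩ := h.arc_tgt ho.1.1
    exact ⟨a, ⟨(S.src a, x), dS a _ _ hr⟩, ⟨(S.tgt a, y), dT a _ _ hr⟩,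
      ⟨(S.src a, x'), dS a _ _ hr'⟩, ⟨(S.tgt a, y'), dT a _ _ hr'⟩, ⟨rfl, rfl, hr⟩,
      ⟨rfl, rfl, hr'⟩, (AG_sep h.inS.fX).2 ⟨(AG_adj h.inS.fX).2 ⟨e1, ho.1.1⟩, ea, ea, hon⟩⟩

end Gap
end CPOR
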