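import Pool.Agent.P.MP_2cb329_al.F.GA2

/-! F7: the coarse correspondence along an arrow. -/

set_option autoImplicit false

namespace CPOR
namespace Gap
open ZT MulAction

variable {G : Type} [Group G] {N : Type} [MulAction G N] (S : Sys G N)

/-- `x` and `x'` are close to the two ends of a point of the arrow `a`. -/
def Par (C : ℕ) (a : S.A) (x x' : S.V) : Prop :=
  ∃ q : S.P, S.arr q = a ∧ S.Cl C x (S.s q) ∧ S.Cl C x' (S.t q)

/-- The correspondence between branch vertices. -/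
def PB (C : ℕ) (J : Subgroup G) (a : S.A) (x x' : S.V) : Prop :=
  x ∈ Br S.B (S.Min J (S.src a)) ∧ x' ∈ Br S.B (S.Min J (S.tgt a)) ∧ Par S C a x x'

variable {S}

theorem Par.smul {C : ℕ} {a : S.A} {x x' : S.V} (h : Par S C a x x') (g : G) :
    Par S C (g • a) (g • x) (g • x') := by
  obtain ⟨q, h1, h2, h3⟩ := h
  exact ⟨g • q, by rw [S.arr_smul, h1], by rw [S.s_smul]; exact h2.smul g,
    by rw [S.t_smul]; exact h3.smul g⟩

theorem min_good {J : Subgroup G} {v : N} (hJ : J.FG) (hc : ¬ IsCyclic J)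
    (hle : J ≤ stabilizer G v) : Good S.B J (S.Min J v) := by
  have hne : J ≠ ⊥ := fun h => hc (by rw [h]; infer_instance)
  obtain ⟨h1, h2⟩ := S.kc_min hJ hle hne
  exact ⟨h1, h2, hJ, hc⟩

theorem min_mono {J J' : Subgroup G} (h : J ≤ J') (v : N) : S.Min J v ⊆ S.Min J' v := by
  rintro x ⟨h1, g, hg, k⟩
  exact ⟨h1, g, h hg, k⟩

theorem min_smul {J J' : Subgroup G} {g : G} (h : ∀ k ∈ J, g * k * g⁻¹ ∈ J') {v : N} {x : S.V}
    (hx : x ∈ S.Min J v) : g • x ∈ S.Min J' (g • v) := by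
  obtain ⟨h1, k, hk, a, l, ha, i, rfl⟩ := hx
  exact ⟨by rw [S.nd_smul, h1], _, h k hk, _, l, ha.conj S.gf.acts g, i, rfl⟩

variable (S)

/-- `FinOrb.bound` over `finA`; `kc_min` (the set is empty for the trivial group). -/
theorem z_const : ∃ C : ℕ, ∀ a : S.A,
    FinOrb (stabilizer G a) (S.Min (stabilizer G a) (S.src a)) ∧
      nOrb (stabilizer G a) (S.Min (stabilizer G a) (S.src a)) ≤ C := by
  have hfin : ∀ a : S.A, FinOrb (stabilizer G a) (S.Min (stabilizer G a) (S.src a)) := fun a => by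
    by_cases hb : stabilizer G a = ⊥
    · refine finOrb_of_finite (Set.Finite.subset Set.finite_empty ?_)
      rintro x ⟨-, g, hg, c, l, hc, -⟩
      rw [hb, Subgroup.mem_bot] at hg
      subst hg
      exact hc.not_fix S.gf.acyc S.gf.acts (SimpleGraph.Reachable.refl _) (one_smul _ _)
    · exact (S.kc_min (S.fg a) (Sys.stab_le_src a) hb).1.finV
  obtain ⟨C, hC⟩ := S.finA.bound
    (fun a c => nOrb (stabilizer G a) (S.Min (stabilizer G a) (S.src a)) ≤ c)
    (fun _ _ _ _ h h' => h'.trans h) (fun g _ a _ c _ h => by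
      refine le_trans (nOrb_le_of_surj (hfin a) (fun x => g • x) ?_ ?_).2 h
      · rintro x - x' - ⟨k, hk, rfl⟩
        refine ⟨g * k * g⁻¹, ?_, by simp [mul_smul]⟩
        rw [stab_smul_mem]
        simpa [mul_assoc] using hk
      · intro y hy
        refine ⟨g⁻¹ • y, ?_, 1, Subgroup.one_mem _, by simp⟩
        have := min_smul (J' := stabilizer G a) (g := g⁻¹)
          (fun k hk => by rw [inv_inv]; exact stab_smul_mem.1 hk) hy
        rwa [S.src_smul, inv_smul_smul] at this)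
    (fun a _ => ⟨_, le_rfl⟩)
  exact ⟨C, fun a => ⟨hfin a, hC a trivial⟩⟩

theorem gr_move {V : Type} {B : SimpleGraph V} (hT : B.IsAcyclic) {z x z' u : V}
    (h : Btw B z x z') (hr : B.Reachable z u) (hd : B.dist z u < B.dist z x) : Btw B u x z' := by
  rcases h.or hT hr with k | k
  · have := k.2.2
    omega
  · exact k

theorem gr_move2 {V : Type} {B : SimpleGraph V} (hT : B.IsAcyclic) {z x z' u u' : V}
    (h : Btw B z x z') (hr : B.Reachable z u) (hd : B.dist z u < B.dist z x)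
    (hr' : B.Reachable z' u') (hd' : B.dist z' u' < B.dist z' x) : Btw B u x u' :=
  (gr_move hT (gr_move hT h hr hd).symm hr' hd').symm

/-- A point on one leg of a tripod and a point on the opposite side are separated by the centre. -/
theorem gr_leg {V : Type} {B : SimpleGraph V} (hT : B.IsAcyclic) {a b c m y y' : V}
    (h1 : Btw B a m b) (h2 : Btw B b m c) (h3 : Btw B a m c) (hy : Btw B a y m)
    (hy' : Btw B b y' c) : Btw B y m y' := by
  rcases le_total (B.dist b y') (B.dist b m) with k | k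
  · exact ((h1.trans_right (hy'.compare hT h2 k).1.symm).2.trans_left hy).2
  · exact ((h3.trans_right (h2.compare hT hy' k).2).2.trans_left hy).2

theorem gr_ball {V : Type} {B : SimpleGraph V} (hT : B.IsAcyclic) {y m y' c : V} {E : ℕ}
    (h : Btw B y m y') (hr : B.Reachable c y) (h1 : B.dist c y ≤ E) (h2 : B.dist c y' ≤ E) :
    B.dist c m ≤ E := by
  rcases h.or hT hr.symm with k | k
  · have := k.symm.2.2
    omega
  · have := k.2.2
    omega

/-- Every branch vertex has a partner.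
Hint: `C₀` from `consts`, `C₂` from `near_arrow`, `C₁ = C₂ + C₀ (C₂ + 1)`. Let `x` be a branch
vertex of `X = Min J (src a)`, `q` a point of `a` with `s q` close to `x`. `KC.cobdd` gives `D` with
every vertex of `X` `D`-close to `J • s q`; all `k • t q` are `D'`-close to `X' = Min J (tgt a)`.
For large `n` take `z₁, z₂, z₃ ∈ X` at distance `n + 1` from `x` in three directions
(`Leafless.exists_far`) and `k_i` with `k_i • s q` `D`-close to `z_i`; they are in the same three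
directions, so `x` is between any two of them. `bcc`: `t q` is `C₀ (C₂ + 1)`-close to the three
geodesics between the `k_i • t q`, hence to their median `μ`. By the Lipschitz bound the
`k_i • t q` are far from `μ`, so `μ` is also the median of the three close points of `X'` and
differs from them: `br_of_median`. -/
theorem partner : ∃ C₁ : ℕ, ∀ C, C₁ ≤ C → ∀ (a : S.A) (J : Subgroup G), J.FG → ¬ IsCyclic J →
    J ≤ stabilizer G a → ∀ x ∈ Br S.B (S.Min J (S.src a)), ∃ x', PB S C J a x x' := by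
  obtain ⟨C₀, h₀⟩ := S.consts
  obtain ⟨C₂, h₂⟩ := S.near_arrow
  refine ⟨C₂ + C₀ * (C₂ + 1), fun C hC a J hJ hc hle x hx => ?_⟩
  have hT := S.gf.acyc
  have gX := min_good (S := S) hJ hc (hle.trans (Sys.stab_le_src a))
  have gX' := min_good (S := S) hJ hc (hle.trans (Sys.stab_le_tgt a))
  obtain ⟨q, hq, cq⟩ := (h₂ a J hle).1 x hx.1
  obtain ⟨D, hD⟩ := gX.toKC.cobdd S.gf hx.1 cq.reach
  obtain ⟨x₀, hx₀⟩ := gX'.ne
  have c₀ : S.Cl (S.B.dist (S.t q) x₀) (S.t q) x₀ := Sys.cl_dist (by rw [S.nd_t, hq, hx₀.1])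
  generalize S.B.dist (S.t q) x₀ = D' at c₀
  set E := C₀ * (C₂ + 1) with hE
  have far : ∀ y ∈ S.Min J (S.src a), S.B.Adj x y → ∃ (z : S.V) (p : S.P) (w : S.V),
      S.arr p = a ∧ Btw S.B x y z ∧ S.B.dist z x = D + C₀ * (D' + E + 1) + C₂ + 1 ∧
      S.Cl D z (S.s p) ∧ w ∈ S.Min J (S.tgt a) ∧ S.Cl D' (S.t p) w := fun y hy hxy => by
    obtain ⟨z, hz, b, d⟩ := gX.leaf.exists_far hT hx.1 hy hxy (D + C₀ * (D' + E + 1) + C₂)
    obtain ⟨k, hk, dk⟩ := hD z hz
    have ha : S.arr (k • q) = a := S.s1b_arr_smul_of hq (hle hk)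
    refine ⟨z, k • q, k • x₀, ha, b, by rw [SimpleGraph.dist_comm, d],
      ⟨by rw [S.nd_s, ha, hz.1], by rw [S.s_smul]; exact dk⟩, gX'.inv k hk _ hx₀, ?_⟩
    rw [S.t_smul]
    exact c₀.smul k
  have near : ∀ {y y' z z' : S.V} {p p' : S.P}, S.B.Adj x y → S.B.Adj x y' → y ≠ y' →
      S.arr p = a → S.arr p' = a → Btw S.B x y z → Btw S.B x y' z' → D < S.B.dist z x →
      D < S.B.dist z' x → S.Cl D z (S.s p) → S.Cl D z' (S.s p') →
      ∃ m, Btw S.B (S.t p) m (S.t p') ∧ S.Cl E (S.t q) m := by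
    intro y y' z z' p p' a1 a2 hne p1 p2 b1 b2 d1 d2 c1 c2
    have k1 : Btw S.B z x z' := btw_of_nxt_ne hT b1.reach b2.reach
      (by rw [nxt_eq hT a1 b1, nxt_eq hT a2 b2]; exact hne)
    have k2 := gr_move2 hT k1 c1.reach (lt_of_le_of_lt c1.2 d1) c2.reach (lt_of_le_of_lt c2.2 d2)
    exact (h₀ p p' (p1.trans p2.symm)).2.2.2.2.1 q (hq.trans p1.symm) C₂ x k2 cq.symm
  obtain ⟨hx1, y₁, m1, y₂, m2, y₃, m3, a1, a2, a3, n12, n13, n23⟩ := id hx
  obtain ⟨z₁, p₁, w₁, r1, b1, d1, c1, w1, e1⟩ := far y₁ m1 a1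
  obtain ⟨z₂, p₂, w₂, r2, b2, d2, c2, w2, e2⟩ := far y₂ m2 a2
  obtain ⟨z₃, p₃, w₃, r3, b3, d3, c3, w3, e3⟩ := far y₃ m3 a3
  obtain ⟨u12, s12, t12⟩ := near a1 a2 n12 r1 r2 b1 b2 (by omega) (by omega) c1 c2
  obtain ⟨u13, s13, t13⟩ := near a1 a3 n13 r1 r3 b1 b3 (by omega) (by omega) c1 c3
  obtain ⟨u23, s23, t23⟩ := near a2 a3 n23 r2 r3 b2 b3 (by omega) (by omega) c2 c3
  obtain ⟨μ, k12, k23, k13⟩ := exists_median hT s12.reach s23.reach
  have hμ : S.Cl E (S.t q) μ := by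
    refine ⟨t12.1.trans ((S.nd_eq _ _).2 (s12.1.symm.trans k12.1)), ?_⟩
    rcases le_total (S.B.dist (S.t p₁) u12) (S.B.dist (S.t p₁) μ) with k | k
    · exact gr_ball hT (gr_leg hT k12 k23 k13 (s12.compare hT k12 k).1 s23) t12.reach t12.2 t23.2
    · exact gr_ball hT (gr_leg hT k12.symm k13 k23 (k12.compare hT s12 k).2.symm s13)
        t12.reach t12.2 t13.2
  have sep : ∀ {z : S.V} {p : S.P}, S.arr p = a → S.B.dist z x = D + C₀ * (D' + E + 1) + C₂ + 1 →
      S.Cl D z (S.s p) → D' < S.B.dist (S.t p) μ := by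
    intro z p r d c
    by_contra hlt
    have k1 : S.Cl D' (S.t p) μ :=
      ⟨by rw [← hμ.1, S.nd_t, S.nd_t, r, hq], not_lt.1 hlt⟩
    have k2 := (h₀ p q (r.trans hq.symm)).2.2.2.1 _ (k1.trans hμ.symm)
    have := ((c.trans k2).trans cq.symm).2
    omega
  have f1 := sep r1 d1 c1
  have f2 := sep r2 d2 c2
  have f3 := sep r3 d3 c3
  have g1 := lt_of_le_of_lt e1.2 f1
  have g2 := lt_of_le_of_lt e2.2 f2
  have g3 := lt_of_le_of_lt e3.2 f3
  exact ⟨μ, hx, br_of_median hT gX'.cvx w1 w2 w3 (gr_move2 hT k12 e1.reach g1 e2.reach g2)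
    (gr_move2 hT k23 e2.reach g2 e3.reach g3) (gr_move2 hT k13 e1.reach g1 e3.reach g3)
    (fun e => by rw [e] at g1; omega) (fun e => by rw [e] at g2; omega)
    (fun e => by rw [e] at g3; omega), q, hq, cq.mono (by omega), hμ.symm.mono (by omega)⟩

end Gap
end CPOR
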