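import Pool.Agent.P.MP_2cb329_al.F.GA2

/-! F7: the source side (S2, S3, S4). -/

set_option autoImplicit false

namespace CPOR
namespace Gap
open ZT MulAction

variable {V : Type} {B : SimpleGraph V} {G : Type} [Group G] [MulAction G V]
  {J J' H : Subgroup G} {X X' Z : Set V} {C : ℕ}

theorem SrcH.le (h : SrcH B C J J' H X X' Z) : J ≤ J' := h.eq ▸ inf_le_left

variable (hF : FT B G)
include hF

/-- (S2) A very long arc of `X` contains a long arc of `X'`.
Hint: otherwise every inner vertex `z` of `[x, y]` lies on an arc `(s, t)` of `X'` on `[x, y]` of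
length `≤ l` (`arc_of_on` for the dart `(z, nxt z y)`, `br_mono`). Label `z` by the `J'`-label of
`(s, t)` (`Good.arc_count`, `exists_label`), by `dist s z ≤ l` and by the `H`-label of `z`. There
are `dist x y - 1` inner vertices, more than `n (l + 1) C`: two distinct ones `z, z'` have the same
label, `z' = k z = g z` with `k ∈ J'`, `g ∈ H`, so `k = g ∈ J` (free), `Good.inner_free`. -/
theorem SrcH.long_in (h : SrcH B C J J' H X X' Z) {n l Λ : ℕ} (hn : 6 * beta J' ≤ n)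
    (hΛ : n * (l + 1) * C < Λ) {x y : V} (ha : Arc B X x y) (hd : Λ < B.dist x y) :
    ∃ s t, Long B l X' s t ∧ On B s t x y := by
  by_contra hno
  have hT := hF.acyc
  have hcv := h.good.cvx
  have hr : B.Reachable x y := (hcv x ha.1.1 y ha.2.1.1).1
  obtain ⟨a, a0, aD, aadj, adist, abtw⟩ := exists_geod hr
  have hex : ∀ i : ℕ, ∃ e : V × V, i < B.dist x y → Arc B X' e.1 e.2 ∧ Btw B e.1 (a i) e.2 ∧
      B.dist e.1 (a i) ≤ l := by
    intro i
    by_cases hi : i < B.dist x y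
    swap
    · exact ⟨(x, x), fun h' => absurd h' hi⟩
    have d1 := (adist 0 i (by omega) hi.le).2
    have d2 := (adist 0 (i + 1) (by omega) hi).2
    rw [a0] at d1 d2
    have c1 := (abtw i hi.le).compare hT (abtw (i + 1) hi) (by omega)
    have hne := (aadj i hi).ne
    obtain ⟨s, t, h1, h2, h3⟩ := arc_of_on hT (br_mono h.sub ha.1) (br_mono h.sub ha.2.1) hne
      ⟨c1.1, c1.2⟩ (fun z _ hz => hz.eq_of_adj hT (aadj i hi))
    have h4 := (h2.btw hT hne).1
    refine ⟨(s, t), fun _ => ⟨h1, h4, ?_⟩⟩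
    have h5 : B.dist s t ≤ l := by
      by_contra h6
      exact hno ⟨s, t, ⟨h1, by omega⟩, h3⟩
    have := h4.2.2
    show B.dist s (a i) ≤ l
    omega
  choose e he using hex
  obtain ⟨hfin, hcnt⟩ := h.good'.arc_count hF
  obtain ⟨lab, lab1, lab2⟩ := exists_label hfin
  obtain ⟨lb, lb1, lb2⟩ := exists_label h.finZ
  have haZ : ∀ i ≤ B.dist x y, a i ∈ Z := fun i hi =>
    h.subZ ((hcv x ha.1.1 y ha.2.1.1).2 _ (abtw i hi))
  obtain ⟨i, hi, j, hj, hij, hl⟩ := Finset.exists_ne_map_eq_of_card_lt_of_maps_to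
    (s := Finset.Ico 1 (B.dist x y))
    (t := (Finset.range n ×ˢ Finset.range (l + 1)) ×ˢ Finset.range C)
    (by simp only [Finset.card_product, Finset.card_range, Nat.card_Ico]; omega)
    (f := fun i => ((lab (e i), B.dist (e i).1 (a i)), lb (a i))) (by
      intro i hi
      simp only [Finset.coe_Ico, Set.mem_Ico] at hi
      obtain ⟨h1, -, h3⟩ := he i hi.2
      have h4 := lab1 (e i) h1
      have h5 := lb1 (a i) (haZ i hi.2.le)
      have h6 := h.nZ
      simp only [Finset.coe_product, Finset.coe_range, Set.mem_prod, Set.mem_Iio]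
      omega)
  simp only [Finset.mem_Ico] at hi hj
  simp only [Prod.mk.injEq] at hl
  obtain ⟨⟨l1, l2⟩, l3⟩ := hl
  obtain ⟨k, hk, ek⟩ := lab2 _ (he i hi.2).1 _ (he j hj.2).1 l1
  obtain ⟨g, hg, eg⟩ := lb2 _ (haZ i hi.2.le) _ (haZ j hj.2.le) l3
  have e1 : k • (e i).1 = (e j).1 := congrArg Prod.fst ek
  have e2 : k • (e i).2 = (e j).2 := congrArg Prod.snd ek
  have b1 := hF.acts.btw k (he i hi.2).2.1
  rw [e1, e2] at b1
  have e3 : k • a i = a j := b1.unique hT (he j hj.2).2.1 (by rw [← l2, ← e1, hF.acts.dist])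
  have e4 : g⁻¹ * k = 1 := hF.free _ (a i) (by rw [mul_smul, e3, ← eg, inv_smul_smul])
  have e5 : k = g := (inv_mul_eq_one.1 e4).symm
  have hkJ : k ∈ J := by
    rw [h.eq]
    exact ⟨hk, e5 ▸ hg⟩
  have d1 := (adist 0 i (by omega) hi.2.le).2
  have d2 := (adist 0 j (by omega) hj.2.le).2
  rw [a0] at d1 d2
  have e6 := h.good.inner_free hF ha (abtw i hi.2.le)
    (fun e => by rw [e, SimpleGraph.dist_self] at d1; omega) (fun e => by rw [e] at d1; omega) hkJ
    (by rw [e3]; exact abtw j hj.2.le)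
  rw [e6, one_smul] at e3
  rw [e3] at d1
  omega

/-- (S3) A line of `J'` with a long segment in `X` is a line of `J`.
Hint: reparametrise the axis (`IsAxis.shift`, `IsAxis.inv`) so that it starts at `s` and runs to
`t`; the points `c ^ i • s`, `i ≤ C`, lie on `[s, t] ⊆ X ⊆ Z`; `FT.pow_mem`. -/
theorem SrcH.pl (h : SrcH B C J J' H X X' Z) {p : ℕ} {L : Set V} (hL : PL B J' p L) {s t : V}
    (hs : s ∈ L) (ht : t ∈ L) (hsX : s ∈ X) (htX : t ∈ X) (hd : C * p ≤ B.dist s t) :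
    PL B J p L := by
  have hT := hF.acyc
  obtain ⟨c, a, n, M, h1, h2, h3, h4, rfl⟩ := hL
  have key : ∀ i j : ℤ, i ≤ j → a i ∈ X → a j ∈ X → C * p ≤ B.dist (a i) (a j) →
      PL B J p (Set.range a) := by
    intro i j hij hi hj hd
    rw [(h1.1.dist hT i j).2] at hd
    obtain ⟨m, m1, -, m3⟩ := hF.pow_mem h.finZ (g := c) (x := a i) (fun m hm => by
      have e : c ^ m • a i = a (i + m * n) := by
        rw [← h1.zpow_smul, zpow_natCast]
      have b1 : m * n ≤ C * p := Nat.mul_le_mul (hm.trans h.nZ) h2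
      have b2 : ((m * n : ℕ) : ℤ) = (m : ℤ) * n := by push_cast; rfl
      rw [e]
      exact h.subZ ((h.good.cvx _ hi _ hj).2 _ (h1.1.btw hT (by omega) (by omega))))
    refine ⟨c, a, n, M * m, h1, h2, Nat.mul_pos h3 m1, ?_, rfl⟩
    rw [h.eq]
    refine ⟨?_, ?_⟩
    · rw [pow_mul]; exact J'.pow_mem h4 m
    · rw [mul_comm, pow_mul]; exact H.pow_mem m3 M
  obtain ⟨i, rfl⟩ := hs
  obtain ⟨j, rfl⟩ := ht
  rcases le_total i j with hij | hij
  · exact key i j hij hsX htX hd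
  · exact key j i hij htX hsX (by rwa [SimpleGraph.dist_comm])

/-- (S4) An arc of `X'` in two translates of `X` is cyclic.
Hint: label the first `C * C + 1` vertices `z` of `[s, t]` by the `H`-labels of `z` and `k⁻¹ z`;
two of them `z ≠ z' = c z = k g k⁻¹ z`, so `c ∈ H`, `k⁻¹ c k = g ∈ H`; `cl` gives `c ^ M ∈ J'`;
`FT.exists_axis` gives an axis of length `≤ dist z z' ≤ C * C` with `a 0 ≠ a 1` on `[z, z']`;
`on_of_btw`, `PL.arc_mem`. -/
theorem SrcH.per (h : SrcH B C J J' H X X' Z) {p : ℕ} (hp : C * C ≤ p) {k : G} (hk : k ∈ J')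
    (hk' : k ∉ J) {s t : V} (ha : Arc B X' s t) (hd : C * C ≤ B.dist s t) (hs : s ∈ X)
    (ht : t ∈ X) (hs' : k⁻¹ • s ∈ X) (ht' : k⁻¹ • t ∈ X) : Per B J' p s t := by
  have hT := hF.acyc
  have hcv := h.good.cvx
  have hr : B.Reachable s t := (hcv s hs t ht).1
  obtain ⟨a, a0, aD, aadj, adist, abtw⟩ := exists_geod hr
  obtain ⟨lb, lb1, lb2⟩ := exists_label h.finZ
  have z1 : ∀ i ≤ B.dist s t, a i ∈ Z := fun i hi => h.subZ ((hcv s hs t ht).2 _ (abtw i hi))
  have z2 : ∀ i ≤ B.dist s t, k⁻¹ • a i ∈ Z := fun i hi =>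
    h.subZ ((hcv _ hs' _ ht').2 _ (hF.acts.btw k⁻¹ (abtw i hi)))
  obtain ⟨i, hi, j, hj, hij, hl⟩ := Finset.exists_ne_map_eq_of_card_lt_of_maps_to
    (s := Finset.range (C * C + 1)) (t := Finset.range C ×ˢ Finset.range C)
    (by simp only [Finset.card_product, Finset.card_range]; omega)
    (f := fun i => (lb (a i), lb (k⁻¹ • a i))) (by
      intro i hi
      simp only [Finset.coe_range, Set.mem_Iio] at hi
      have h4 := lb1 _ (z1 i (by omega))
      have h5 := lb1 _ (z2 i (by omega))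
      have h6 := h.nZ
      simp only [Finset.coe_product, Finset.coe_range, Set.mem_prod, Set.mem_Iio]
      omega)
  simp only [Finset.mem_range] at hi hj
  simp only [Prod.mk.injEq] at hl
  obtain ⟨c, hc, ec⟩ := lb2 _ (z1 i (by omega)) _ (z1 j (by omega)) hl.1
  obtain ⟨g, hg, eg⟩ := lb2 _ (z2 i (by omega)) _ (z2 j (by omega)) hl.2
  have e1 : g⁻¹ * (k⁻¹ * c * k) = 1 := hF.free _ (k⁻¹ • a i) (by
    rw [mul_smul, mul_smul, mul_smul, smul_inv_smul, ec, ← eg, inv_smul_smul])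
  have e2 : k⁻¹ * c * k = g := (inv_mul_eq_one.1 e1).symm
  have dij : B.Reachable (a i) (a j) ∧ 0 < B.dist (a i) (a j) ∧ B.dist (a i) (a j) ≤ C * C := by
    rcases le_total i j with h1 | h1
    · have := adist i j h1 (by omega)
      exact ⟨this.1, by omega, by omega⟩
    · have := adist j i h1 (by omega)
      rw [SimpleGraph.dist_comm]
      exact ⟨this.1.symm, by omega, by omega⟩
  have hc1 : c ≠ 1 := by
    intro e
    rw [e, one_smul] at ec
    have := dij.2.1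
    rw [ec, SimpleGraph.dist_self] at this
    omega
  obtain ⟨M, M1, M2⟩ := h.cl k hk (fun hH => hk' (by rw [h.eq]; exact ⟨hk, hH⟩)) c hc
    (e2 ▸ hg) hc1
  obtain ⟨b, n, hb, hbt⟩ := hF.exists_axis hc1 (x := a i) (by rw [ec]; exact dij.1)
  rw [ec] at hbt
  have n1 := hb.2.1
  have b0 := hbt 0 le_rfl (by omega)
  have bn := hbt n (by omega) le_rfl
  have hne : b 0 ≠ b n := fun e => by
    have := hb.1.inj hT e
    omega
  have dn : B.dist (b 0) (b n) = n := by
    rw [(hb.1.dist hT 0 n).2]; simp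
  have hn : n ≤ C * C := by
    rcases on_of_btw hT b0 bn with h1 | h1
    · have := h1.dist_le hT hne
      omega
    · have := h1.dist_le hT hne.symm
      rw [SimpleGraph.dist_comm] at this
      omega
  have hPL : PL B J' p (Set.range b) := ⟨c, b, n, M, hb, hn.trans hp, M1, M2, rfl⟩
  have cv := (cvx_btw hT s t) _ (abtw i (by omega)) _ (abtw j (by omega))
  have hmem : s ∈ Set.range b ∧ t ∈ Set.range b := by
    rcases on_of_btw hT (cv.2 _ b0) (cv.2 _ bn) with h1 | h1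
    · exact hPL.arc_mem hF h.good'.toKC.toKT ha hne h1 ⟨_, rfl⟩ ⟨_, rfl⟩
    · exact hPL.arc_mem hF h.good'.toKC.toKT ha hne.symm h1 ⟨_, rfl⟩ ⟨_, rfl⟩
  exact ⟨_, hPL, hmem.1, hmem.2⟩

/-- An ordinary arc of `X` contains an ordinary arc of `X'` (S2, S3, `PL.arc_mem`). -/
theorem SrcH.ord_in {ρ : ℕ} (κ : Cst ρ) (h : SrcH B κ.C J J' H X X' Z) (hρ : beta J' = ρ)
    (hg : HasGap B κ.p κ.P κ.l κ.Λ J X) {x y : V} (ha : Ordi B κ.p κ.l J X x y) :
    ∃ s t, Ordi B κ.p κ.l J' X' s t ∧ On B s t x y := by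
  have hd : κ.Λ < B.dist x y := by
    rcases hg.len x y ha.1.1 with h1 | h1
    · exact absurd ha.1.2 (by omega)
    · exact h1
  obtain ⟨s, t, h1, h2⟩ := h.long_in hF (n := 6 * ρ) (l := κ.l) (by rw [hρ]) κ.hΛ ha.1.1 hd
  refine ⟨s, t, ⟨h1, ?_⟩, h2⟩
  rintro ⟨L, hL, hs, ht⟩
  have hne : s ≠ t := h1.1.2.2.1
  obtain ⟨m1, m2⟩ := h2.mem hF.acyc h.good.cvx hne ha.1.1.1.1 ha.1.1.2.1.1
  have h3 := h.pl hF hL hs ht m1 m2 (κ.hCl.trans h1.2.le)
  exact ha.2 ⟨L, h3, h3.arc_mem hF h.good.toKC.toKT ha.1.1 hne h2 hs ht⟩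

/-- An arc of `X` that contains an ordinary arc of `X'` is ordinary. -/
theorem ord_ext (hJ : J ≤ J') {p l : ℕ} {x y s t : V} (ha : Arc B X x y)
    (h : Ordi B p l J' X' s t) (ho : On B s t x y) : Ordi B p l J X x y := by
  have hne : s ≠ t := h.1.1.2.2.1
  exact ⟨⟨ha, h.1.2.trans_le (ho.dist_le hF.acyc hne)⟩,
    fun hp => h.2 ((hp.of_on hF ho hne).mono hJ le_rfl)⟩

end Gap
end CPOR
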