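import Pool.Agent.P.MP_2cb329_al.F.GC

/-! F7: sets of windows, part 1 (no persistence). -/

set_option autoImplicit false

namespace CPOR
namespace Gap
open ZT MulAction

variable {G : Type} [Group G] {N : Type} [MulAction G N] {S : Sys G N}
  {Φ Ψ : Type} [MulAction G Φ] [MulAction G Ψ] {m : ℕ} {w : Φ → ℤ → S.A} {w' : Ψ → ℤ → S.A}
  {i τ : Ψ → Φ}

theorem gw1_path {a b : ℤ → S.A} {c n : ℤ} (e : ∀ l : ℤ, 0 ≤ l → l < n → b l = a (c + l))
    (h : S.IsPath a c (c + n)) : S.IsPath b 0 n := by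
  intro l h0 hl
  rw [e l h0 (by omega), e (l + 1) (by omega) hl, ← add_assoc]
  exact h _ (by omega) (by omega)

theorem gw1_fix {a b : ℤ → S.A} {c n : ℤ} (e : ∀ l : ℤ, 0 ≤ l → l < n → b l = a (c + l)) :
    S.Fix b 0 n = S.Fix a c (c + n) := by
  have := Sys.fix_congr (S := S) (a := b) (a' := a) (i := 0) (j := n) (c := c)
    (fun l h0 hl => by rw [e l h0 hl, add_comm])
  rwa [zero_add, add_comm] at this

/-- Hint: `Φ` = the sub-action of `Fin m → S.A` of those `f` whose extension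
`ext f l = f ⟨l.toNat % m, _⟩` is a path on `[0, m)` with non-cyclic `Fix`; `fix_smul`,
`isCyclic_conj`, `fix_congr`. -/
theorem ws_exists (S : Sys G N) (hm : 1 ≤ m) :
    ∃ (Φ : Type) (_ : MulAction G Φ) (w : Φ → ℤ → S.A), WS S m w := by
  let ex : (Fin m → S.A) → ℤ → S.A := fun f l => f ⟨l.toNat % m, Nat.mod_lt _ hm⟩
  let Q : SubMulAction G (Fin m → S.A) :=
    { carrier := {f | S.IsPath (ex f) 0 m ∧ ¬ IsCyclic (S.Fix (ex f) 0 m)}
      smul_mem' := by
        rintro g f ⟨h1, h2⟩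
        refine ⟨fun l a b => ?_, fun hc => h2 ?_⟩
        · show S.tgt (g • ex f l) = S.src (g • ex f (l + 1))
          rw [S.tgt_smul, S.src_smul, h1 l a b]
        · have e := Sys.fix_smul (S := S) (a := ex f) (a' := ex (g • f)) (i := 0) (j := m) (c := 0)
            (g := g) (fun l _ _ => by rw [add_zero]; rfl)
          rw [add_zero, add_zero] at e
          rw [← e] at hc
          exact (isCyclic_conj g).1 hc }
  have hex : ∀ (f : Fin m → S.A) (j : Fin m), ex f (j : ℕ) = f j := by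
    intro f j
    simp only [ex, Int.toNat_natCast, Nat.mod_eq_of_lt j.2]
  refine ⟨Q, inferInstance, fun φ => ex φ.1, hm, fun _ _ _ _ _ => rfl, fun φ φ' h => ?_,
    fun φ => φ.2.1, fun φ => φ.2.2, fun a i h1 h2 => ?_⟩
  · refine Subtype.ext (funext fun j => ?_)
    rw [← hex φ.1, ← hex φ'.1]
    exact h _ (by positivity) (by exact_mod_cast j.2)
  · have e : ∀ l : ℤ, 0 ≤ l → l < m → ex (fun j => a (i + (j : ℕ))) l = a (i + l) := by
      intro l h0 hl
      simp only [ex]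
      rw [Nat.mod_eq_of_lt (by omega), Int.toNat_of_nonneg h0]
    exact ⟨⟨fun j => a (i + (j : ℕ)), gw1_path e h1, by rwa [gw1_fix e]⟩, e⟩

theorem WS.stab (h : WS S m w) (φ : Φ) : stabilizer G φ = S.Fix (w φ) 0 m := by
  ext g
  rw [Sys.mem_fix, mem_stabilizer_iff]
  constructor
  · intro e l h0 hl
    rw [← h.smul g φ l h0 hl, e]
  · intro e
    exact h.inj _ _ fun l h0 hl => by rw [h.smul g φ l h0 hl, e l h0 hl]

theorem WS.fg (h : WS S m w) (φ : Φ) : (stabilizer G φ).FG := by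
  rw [h.stab]
  exact Sys.fix_fg (by have := h.pos; omega) (h.path φ)

theorem WS.not_cyc (h : WS S m w) (φ : Φ) : ¬ IsCyclic (stabilizer G φ) := by
  rw [h.stab]
  exact h.nc φ

/-- Subwindows of non-cyclic windows are non-cyclic (`fix_mono`, `isCyclic_of_le`). -/
theorem wc_exists (h : WS S m w) (h' : WS S (m + 1) w') : ∃ i τ : Ψ → Φ, WC S m w w' i τ := by
  have key : ∀ (c : ℤ), 0 ≤ c → c ≤ 1 → ∀ ψ, ∃ φ, ∀ l : ℤ, 0 ≤ l → l < m → w φ l = w' ψ (c + l) := by
    intro c h0 h1 ψ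
    refine h.surj (w' ψ) c ((h'.path ψ).mono h0 (by push_cast; omega)) fun hc => h'.nc ψ ?_
    exact isCyclic_of_le hc (Sys.fix_mono h0 (by push_cast; omega))
  choose i hi using key 0 le_rfl zero_le_one
  choose τ hτ using key 1 zero_le_one le_rfl
  exact ⟨i, τ, h, h', fun ψ l h0 hl => by rw [hi ψ l h0 hl, zero_add],
    fun ψ l h0 hl => by rw [hτ ψ l h0 hl, add_comm]⟩

theorem WC.i_smul (h : WC S m w w' i τ) (g : G) (ψ : Ψ) : i (g • ψ) = g • i ψ := by
  refine h.ws.inj _ _ fun l h0 hl => ?_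
  rw [h.init _ l h0 hl, h.ws'.smul g ψ l h0 (by push_cast; omega), h.ws.smul g _ l h0 hl,
    h.init _ l h0 hl]

theorem WC.τ_smul (h : WC S m w w' i τ) (g : G) (ψ : Ψ) : τ (g • ψ) = g • τ ψ := by
  refine h.ws.inj _ _ fun l h0 hl => ?_
  rw [h.tail _ l h0 hl, h.ws'.smul g ψ (l + 1) (by omega) (by push_cast; omega),
    h.ws.smul g _ l h0 hl, h.tail _ l h0 hl]

theorem WC.stab_i (h : WC S m w w' i τ) (ψ : Ψ) :
    stabilizer G ψ = stabilizer G (i ψ) ⊓ stabilizer G (w' ψ m) := by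
  rw [h.ws'.stab, h.ws.stab, Nat.cast_succ, Sys.fix_succ (by positivity),
    gw1_fix (a := w' ψ) (b := w (i ψ)) (c := 0)
      (fun l h0 hl => by rw [h.init _ l h0 hl, zero_add]), zero_add]

theorem WC.stab_τ (h : WC S m w w' i τ) (ψ : Ψ) :
    stabilizer G ψ = stabilizer G (τ ψ) ⊓ stabilizer G (w' ψ 0) := by
  rw [h.ws'.stab, h.ws.stab, Nat.cast_succ, Sys.fix_pred (by positivity),
    gw1_fix (a := w' ψ) (c := 1) (fun l h0 hl => by rw [h.tail _ l h0 hl, add_comm]), zero_add,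
    add_comm]

theorem WC.node_i (h : WC S m w w' i τ) (ψ : Ψ) : S.tgt (w (i ψ) (m - 1)) = S.src (w' ψ m) := by
  have hm := h.ws.pos
  rw [h.init ψ _ (by omega) (by omega)]
  have := h.ws'.path ψ (m - 1) (by omega) (by push_cast; omega)
  rwa [sub_add_cancel] at this

theorem WC.last_τ (h : WC S m w w' i τ) (ψ : Ψ) : w (τ ψ) (m - 1) = w' ψ m := by
  have hm := h.ws.pos
  rw [h.tail ψ _ (by omega) (by omega), sub_add_cancel]

theorem WC.first_τ (h : WC S m w w' i τ) (ψ : Ψ) : S.src (w (τ ψ) 0) = S.tgt (w' ψ 0) := by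
  have hm := h.ws.pos
  rw [h.tail ψ _ le_rfl (by omega)]
  exact (h.ws'.path ψ 0 le_rfl (by push_cast; omega)).symm

theorem ws_iso {Φ' : Type} [MulAction G Φ'] {w₂ : Φ' → ℤ → S.A} (h : WS S m w) (h₂ : WS S m w₂) :
    ∃ e : Φ → Φ', Function.Bijective e ∧ (∀ (g : G) φ, e (g • φ) = g • e φ) ∧
      ∀ φ (l : ℤ), 0 ≤ l → l < m → w₂ (e φ) l = w φ l := by
  have key : ∀ {Φ Φ' : Type} [MulAction G Φ] [MulAction G Φ'] {w : Φ → ℤ → S.A}
      {w₂ : Φ' → ℤ → S.A}, WS S m w → WS S m w₂ →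
      ∀ φ, ∃ φ', ∀ l : ℤ, 0 ≤ l → l < m → w₂ φ' l = w φ l := by
    intro Φ Φ' _ _ w w₂ h h₂ φ
    obtain ⟨φ', h'⟩ := h₂.surj (w φ) 0 (by rw [zero_add]; exact h.path φ)
      (by rw [zero_add]; exact h.nc φ)
    exact ⟨φ', fun l h0 hl => by rw [h' l h0 hl, zero_add]⟩
  choose e he using key h h₂
  refine ⟨e, ⟨fun φ φ' h' => h.inj _ _ fun l h0 hl => ?_, fun φ' => ?_⟩,
    fun g φ => h₂.inj _ _ fun l h0 hl => ?_, he⟩
  · rw [← he φ l h0 hl, ← he φ' l h0 hl, h']
  · obtain ⟨φ, h'⟩ := key h₂ h φ'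
    exact ⟨φ, h₂.inj _ _ fun l h0 hl => by rw [he φ l h0 hl, h' l h0 hl]⟩
  · rw [he _ l h0 hl, h.smul g φ l h0 hl, h₂.smul g _ l h0 hl, he _ l h0 hl]

theorem WC.back (h : WC S m w w' i τ) (hs : ∀ ψ, stabilizer G (τ ψ) ≤ stabilizer G ψ) :
    S.BackStable := by
  refine ⟨m, h.ws.pos, fun a c h1 h2 => ?_⟩
  obtain ⟨ψ, hψ⟩ := h.ws'.surj a c (by rwa [Nat.cast_succ, ← add_assoc])
    (by rwa [Nat.cast_succ, ← add_assoc])
  have e1 : stabilizer G (τ ψ) = S.Fix a (c + 1) (c + m + 1) := by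
    rw [h.ws.stab, gw1_fix (a := a) (c := c + 1) (fun l h0 hl => by
      rw [h.tail _ l h0 hl, hψ _ (by omega) (by push_cast; omega)]
      congr 1
      ring), add_right_comm]
  rw [← e1]
  refine (hs ψ).trans ?_
  rw [h.stab_τ, hψ 0 le_rfl (by push_cast; omega), add_zero]
  exact inf_le_right

/-- The derived system of windows. Hint: `w' b l = if l < m then w (src b) l else O.A b`;
`stabilizer b = stabilizer (src b) ⊓ stabilizer (O.A b)` by `det`, `inj`, `shift`, `last`. -/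
theorem win_wc {N' : Type} [MulAction G N'] {S' : Sys G N'} (O : Over S' S) {w : N' → ℤ → S.A}
    (h : O.IsWin m w) : ∃ w' : S'.A → ℤ → S.A, WC S m w w' S'.src S'.tgt := by
  have hm := h.pos
  have hw : WS S m w := ⟨h.pos, h.smul, h.inj, h.path, h.nc, h.surj⟩
  let v : S'.A → ℤ → S.A := fun b l => if l < m then w (S'.src b) l else O.A b
  have v1 : ∀ b (l : ℤ), l < m → v b l = w (S'.src b) l := fun b l hl => if_pos hl
  have v2 : ∀ b (l : ℤ), ¬ l < m → v b l = O.A b := fun b l hl => if_neg hl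
  have vt : ∀ b (l : ℤ), 0 ≤ l → l < m → w (S'.tgt b) l = v b (l + 1) := by
    intro b l h0 hl
    by_cases h1 : l + 1 < m
    · rw [v1 _ _ h1, h.shift b l h0 h1]
    · rw [v2 _ _ h1, show l = m - 1 by omega, h.last]
  have vs : ∀ (g : G) b (l : ℤ), 0 ≤ l → v (g • b) l = g • v b l := by
    intro g b l h0
    by_cases h1 : l < m
    · rw [v1 _ _ h1, v1 _ _ h1, S'.src_smul, h.smul g _ l h0 h1]
    · rw [v2 _ _ h1, v2 _ _ h1, O.A_smul]
  refine ⟨v, hw, ⟨by omega, fun g b l h0 _ => vs g b l h0, fun b b' e => ?_, fun b l h0 hl => ?_,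
    fun b hc => h.ncA b (isCyclic_of_le hc fun g hg => Sys.mem_fix.2 fun l h0 _ => ?_),
    fun a c h1 h2 => ?_⟩, fun b l _ hl => (v1 b l hl).symm, vt⟩
  · refine O.det _ _ ?_ (h.inj _ _ fun l h0 hl => ?_) (h.inj _ _ fun l h0 hl => ?_)
    · rw [← v2 b m (lt_irrefl _), ← v2 b' m (lt_irrefl _)]
      exact e _ (by positivity) (by push_cast; omega)
    · rw [← v1 b l hl, ← v1 b' l hl]
      exact e _ h0 (by push_cast; omega)
    · rw [vt b l h0 hl, vt b' l h0 hl]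
      exact e _ (by omega) (by push_cast; omega)
  · push_cast at hl
    rw [v1 b l (by omega)]
    by_cases h1 : l + 1 < m
    · rw [v1 _ _ h1]
      exact h.path _ l h0 h1
    · rw [v2 _ _ h1, show l = m - 1 by omega, ← h.ν_eq, O.src_A]
  · rw [← vs g b l h0, show g • b = b from hg]
  · push_cast at h1 h2
    obtain ⟨ω, hω⟩ := h.surj a c (h1.mono le_rfl (by omega))
      (fun hc => h2 (isCyclic_of_le hc (Sys.fix_mono le_rfl (by omega))))
    obtain ⟨b, hb, hb'⟩ := h.surjA ω (a (c + m)) (by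
      rw [h.ν_eq, hω _ (by omega) (by omega), h1 _ (by omega) (by omega)]
      congr 2
      ring) (by
      rwa [hw.stab, gw1_fix hω, ← Sys.fix_succ (by omega), add_assoc])
    refine ⟨b, fun l h0 hl => ?_⟩
    push_cast at hl
    by_cases h1 : l < m
    · rw [v1 _ _ h1, hb, hω l h0 h1]
    · rw [v2 _ _ h1, hb', show l = m by omega]

end Gap
end CPOR
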