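import Pool.Agent.P.MP_2cb329_al.F.MLen

/-! Machines: existence of anchors (N1, P1). -/

set_option autoImplicit false

namespace CPOR
open ZT MulAction

variable {G : Type} [Group G] {N : Type} [MulAction G N] {S : Sys G N} {W : Type} [MulAction G W]

/-- Finitely many points of one node are uniformly close to a given point. -/
theorem manc_fin {u : S.V} {A : Set S.V} (hA : A.Finite) (h : ∀ v ∈ A, S.nd u = S.nd v) :
    ∃ c, ∀ v ∈ A, S.Cl c u v := by
  obtain ⟨c, hc⟩ := (hA.image (fun v => S.B.dist u v)).bddAbove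
  exact ⟨c, fun v hv => ⟨h v hv, hc ⟨v, hv, rfl⟩⟩⟩

namespace Mc

variable {K : Mc S W}

/-- The comparison maps. -/
structure MkD (K : Mc S W) where
  bar : S.V → W
  bar_smul : ∀ (g : G) (p : S.V), bar (g • p) = g • bar p
  ν_bar : ∀ p, K.Z.ν (bar p) = S.nd p
  q : W × W → K.S'.V
  q_smul : ∀ (g : G) (e : W × W), K.T.Adj e.1 e.2 → q (g • e) = g • q e
  nd_q : ∀ e : W × W, K.T.Adj e.1 e.2 → K.S'.nd (q e) = e.1

theorem exists_mkD (K : Mc S W) [Nonempty W] : Nonempty K.MkD := by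
  obtain ⟨bar, h1, h2⟩ := exists_equiv_choice (G := G) (fun (p : S.V) (w : W) => K.Z.ν w = S.nd p)
    (fun g p w h => by rw [K.Z.ν_smul, S.nd_smul, h])
    (fun p => by
      obtain ⟨w, hw⟩ := K.Z.ν_surj (S.nd p)
      refine ⟨w, hw, fun g hg => ?_⟩
      rw [S.free g p hg]
      exact one_mem _)
  have : Nonempty K.S'.V := by
    obtain ⟨w⟩ := ‹Nonempty W›
    obtain ⟨q, -⟩ := K.S'.nd_surj w
    exact ⟨q⟩
  obtain ⟨q, h3, h4⟩ := exists_equiv_choice_on (G := G) (S := Darts K.T)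
    (inv_darts K.acts ⊤) (fun (e : W × W) (q : K.S'.V) => K.S'.nd q = e.1)
    (fun g e q _ h => by rw [K.S'.nd_smul, h]; rfl)
    (fun e he => by
      obtain ⟨q, hq⟩ := K.S'.nd_surj e.1
      refine ⟨q, hq, fun g hg => ?_⟩
      rw [K.Z.gf.dart_free he hg]
      exact one_mem _)
  exact ⟨⟨bar, h2, h1, q, fun g e he => h4 g e he, fun e he => h3 e he⟩⟩

namespace MkD

variable (D : K.MkD)

/-- The anchor of a dart. -/
def anc (e : W × W) : S.V := K.O.V (D.q e)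

theorem anc_smul (g : G) {e : W × W} (he : K.T.Adj e.1 e.2) : D.anc (g • e) = g • D.anc e := by
  unfold anc
  rw [D.q_smul g e he, K.O.V_smul]

theorem nd_anc {e : W × W} (he : K.T.Adj e.1 e.2) : S.nd (D.anc e) = K.Z.ν e.1 := by
  unfold anc
  rw [K.O.nd_V, D.nd_q e he, K.hν]

theorem near_anc {e : W × W} (he : K.T.Adj e.1 e.2) (r : ℕ) : K.Near r (D.anc e) e.1 :=
  ⟨D.q e, D.nd_q e he, Sys.cl_refl r _⟩

theorem nd_sep {e : W × W} {x y : W} (h : Sep K.T e x y) : S.nd (D.anc e) = K.Z.ν x := by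
  rw [D.nd_anc h.1]
  exact ((K.Z.ν_eq _ _).2 h.2.1.1).symm

theorem reach_bar {u v : S.V} (h : S.nd u = S.nd v) : K.T.Reachable (D.bar u) (D.bar v) :=
  (K.Z.ν_eq _ _).1 (by rw [D.ν_bar, D.ν_bar, h])

theorem reach_nd (q : K.S'.V) : K.T.Reachable (K.S'.nd q) (D.bar (K.O.V q)) :=
  (K.Z.ν_eq _ _).1 (by rw [D.ν_bar, K.O.nd_V, K.hν])

theorem sep_inv {g : G} {e : W × W} {x y : W} (h : Sep K.T e (g • x) (g • y)) :
    Sep K.T (g⁻¹ • e) x y := by
  have := h.smul K.acts g⁻¹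
  rwa [inv_smul_smul, inv_smul_smul] at this

theorem cl_inv {g : G} {c : ℕ} {u : S.V} {e : W × W} (he : K.T.Adj e.1 e.2)
    (h : S.Cl c u (D.anc (g⁻¹ • e))) : S.Cl c (g • u) (D.anc e) := by
  have := h.smul g
  rwa [D.anc_smul g⁻¹ he, smul_inv_smul] at this

theorem const1 : ∃ C, ∀ u u' e, S.B.Adj u u' → Sep K.T e (D.bar u) (D.bar u') →
    S.Cl C u (D.anc e) := by
  obtain ⟨C, hC⟩ := S.finV.bound
    (fun u c => ∀ u' e, S.B.Adj u u' → Sep K.T e (D.bar u) (D.bar u') → S.Cl c u (D.anc e))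
    (fun u _ c c' hc h u' e h1 h2 => (h u' e h1 h2).mono hc)
    (fun k _ u _ c _ h u' e h1 h2 => by
      have h3 : S.B.Adj u (k⁻¹ • u') := by
        have := S.gf.acts k⁻¹ _ _ h1
        rwa [inv_smul_smul] at this
      refine D.cl_inv h2.1 (h _ _ h3 (sep_inv (g := k) ?_))
      rwa [← D.bar_smul, ← D.bar_smul, smul_inv_smul])
    (fun u _ => by
      have hfin : (⋃ u' ∈ S.B.neighborSet u,
          D.anc '' {e | Sep K.T e (D.bar u) (D.bar u')}).Finite :=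
        (S.lf u).biUnion fun u' _ => (sep_finite K.acyc _ _).image _
      obtain ⟨c, hc⟩ := manc_fin (u := u) hfin (fun v hv => by
        simp only [Set.mem_iUnion] at hv
        obtain ⟨u', -, e, he, rfl⟩ := hv
        rw [D.nd_sep he, D.ν_bar])
      refine ⟨c, fun u' e h1 h2 => hc _ ?_⟩
      simp only [Set.mem_iUnion]
      exact ⟨u', h1, e, h2, rfl⟩)
  exact ⟨C, fun u u' e => hC u (Set.mem_univ _) u' e⟩

theorem const2 : ∃ C, ∀ (q : K.S'.V) e,
    (Sep K.T e (K.S'.nd q) (D.bar (K.O.V q)) ∨ Sep K.T e (D.bar (K.O.V q)) (K.S'.nd q)) →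
    S.Cl C (K.O.V q) (D.anc e) := by
  obtain ⟨C, hC⟩ := K.S'.finV.bound
    (fun q c => ∀ e, (Sep K.T e (K.S'.nd q) (D.bar (K.O.V q)) ∨
      Sep K.T e (D.bar (K.O.V q)) (K.S'.nd q)) → S.Cl c (K.O.V q) (D.anc e))
    (fun u _ c c' hc h e h1 => (h e h1).mono hc)
    (fun k _ q _ c _ h e h1 => by
      rw [K.O.V_smul]
      rw [K.O.V_smul, K.S'.nd_smul, D.bar_smul] at h1
      rcases h1 with h1 | h1
      · exact D.cl_inv h1.1 (h _ (Or.inl (sep_inv h1)))
      · exact D.cl_inv h1.1 (h _ (Or.inr (sep_inv h1))))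
    (fun q _ => by
      have hfin : (D.anc '' ({e | Sep K.T e (K.S'.nd q) (D.bar (K.O.V q))} ∪
          {e | Sep K.T e (D.bar (K.O.V q)) (K.S'.nd q)})).Finite :=
        ((sep_finite K.acyc _ _).union (sep_finite K.acyc _ _)).image _
      obtain ⟨c, hc⟩ := manc_fin (u := K.O.V q) hfin (by
        rintro v ⟨e, he | he, rfl⟩
        · rw [D.nd_sep he, K.O.nd_V, K.hν]
        · rw [D.nd_sep he, D.ν_bar])
      exact ⟨c, fun e h1 => hc _ ⟨e, h1, rfl⟩⟩)
  exact ⟨C, fun q e => hC q (Set.mem_univ _) e⟩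

theorem const3 : ∃ C, ∀ p, K.Near C p (D.bar p) := by
  obtain ⟨C, hC⟩ := S.finV.bound (fun p c => K.Near c p (D.bar p))
    (fun u _ c c' hc h => near_mono h hc)
    (fun k _ p _ c _ h => by
      rw [D.bar_smul]
      exact near_smul k h)
    (fun p _ => by
      obtain ⟨q, hq⟩ := K.S'.nd_surj (D.bar p)
      exact ⟨_, q, hq, Sys.cl_dist (by rw [K.O.nd_V, hq, K.hν, D.ν_bar])⟩)
  exact ⟨C, fun p => hC p (Set.mem_univ _)⟩

theorem const4 : ∃ C, ∀ x y, K.T.Adj x y → S.Cl C (D.anc (x, y)) (D.anc (y, x)) := by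
  obtain ⟨C, hC⟩ := K.Z.finE.bound (fun e c => S.Cl c (D.anc e) (D.anc e.swap))
    (fun u _ c c' hc h => h.mono hc)
    (fun k _ e he c _ h => by
      have he' : K.T.Adj e.1 e.2 := he
      have := h.smul k
      rw [← D.anc_smul k he', ← D.anc_smul k (e := e.swap) he'.symm] at this
      exact this)
    (fun e he => by
      have he' : K.T.Adj e.1 e.2 := he
      refine ⟨_, Sys.cl_dist ?_⟩
      rw [D.nd_anc he', D.nd_anc (e := e.swap) he'.symm]
      exact (K.Z.ν_eq _ _).2 he'.reachable)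
  exact ⟨C, fun x y h => hC (x, y) h⟩

/-- The constants. -/
structure Cst (C : ℕ) : Prop where
  c1 : ∀ u u' e, S.B.Adj u u' → Sep K.T e (D.bar u) (D.bar u') → S.Cl C u (D.anc e)
  c2 : ∀ (q : K.S'.V) e,
    (Sep K.T e (K.S'.nd q) (D.bar (K.O.V q)) ∨ Sep K.T e (D.bar (K.O.V q)) (K.S'.nd q)) →
    S.Cl C (K.O.V q) (D.anc e)
  c3 : ∀ p, K.Near C p (D.bar p)
  c4 : ∀ x y, K.T.Adj x y → S.Cl C (D.anc (x, y)) (D.anc (y, x))

theorem exists_cst : ∃ C, D.Cst C := by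
  obtain ⟨C1, h1⟩ := D.const1
  obtain ⟨C2, h2⟩ := D.const2
  obtain ⟨C3, h3⟩ := D.const3
  obtain ⟨C4, h4⟩ := D.const4
  exact ⟨C1 + C2 + C3 + C4, fun u u' e a b => (h1 u u' e a b).mono (by omega),
    fun q e a => (h2 q e a).mono (by omega), fun p => near_mono (h3 p) (by omega),
    fun x y a => (h4 x y a).mono (by omega)⟩

variable {D} {C : ℕ}

/-- A dart between the images of two points is anchored near the geodesic of the points. -/
theorem Cst.walk (h : D.Cst C) {u u' : S.V} (hn : S.nd u = S.nd u') {e : W × W}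
    (he : Sep K.T e (D.bar u) (D.bar u')) : ∃ v, Btw S.B u v u' ∧ S.Cl C v (D.anc e) := by
  obtain ⟨a, h0, h1, h2, -, h4⟩ := exists_geod ((S.nd_eq _ _).1 hn)
  obtain ⟨i, hi, b1, b2⟩ := Btw.chain_edge K.acyc (fun i => D.bar (a i)) (S.B.dist u u')
    (fun i hi => D.reach_bar ((S.nd_eq _ _).2 (h2 i hi).reachable)) he.1
    (by simpa only [h0] using he.2.1) (by simpa only [h1] using he.2.2)
  exact ⟨a i, h4 i hi.le, h.c1 _ _ e (h2 i hi) ⟨he.1, b1, b2⟩⟩

theorem Cst.n1e (h : D.Cst C) {r : ℕ} {p : S.V} {x x' : W} {e : W × W} (hx : K.Near r p x)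
    (hx' : K.Near r p x') (he : Sep K.T e x x') : S.Cl (r + C) p (D.anc e) := by
  obtain ⟨q, rfl, hq⟩ := hx
  obtain ⟨q', rfl, hq'⟩ := hx'
  have hn : S.nd (K.O.V q) = S.nd (K.O.V q') := hq.1.symm.trans hq'.1
  rcases he.tri K.acyc (D.reach_nd q) with h1 | h1
  · exact hq.trans (h.c2 q e (Or.inl h1))
  rcases h1.tri K.acyc (D.reach_bar hn) with h2 | h2
  · obtain ⟨v, hv, hc⟩ := h.walk hn h2
    have hd := CPOR.Btw.dist_le_max S.gf.acyc hv hq.reach
    have : S.Cl r p v := ⟨hq.1.trans (Sys.nd_of_btw hv).1, hd.trans (max_le hq.2 hq'.2)⟩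
    exact this.trans hc
  · exact hq'.trans (h.c2 q' e (Or.inr h2))

theorem cl_pr {p v : S.V} {e : W × W} (he : K.T.Adj e.1 e.2) {q : K.S'.V} (hq : K.IsPr p e.1 q)
    (hv : Btw S.B p v (K.O.V q)) (hc : S.Cl C v (D.anc e)) : S.Cl C (K.O.V q) (D.anc e) := by
  have h1 : Btw S.B p (K.O.V q) (D.anc e) := hq.2 _ (D.nd_q e he)
  have h2 := (h1.trans_left hv).2
  have h3 := h2.2.2
  have h4 := hc.2
  exact ⟨(Sys.nd_of_btw h2).2, by omega⟩

theorem Cst.p0 (h : D.Cst C) {p : S.V} {e : W × W} {q : K.S'.V} (hq : K.IsPr p e.1 q)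
    (he : Sep K.T e e.1 (D.bar p)) : S.Cl C (K.O.V q) (D.anc e) := by
  have hr : K.T.Reachable e.1 (D.bar (K.O.V q)) := by
    have := D.reach_nd q
    rwa [hq.1] at this
  have hn : S.nd p = S.nd (K.O.V q) := (Sys.nd_of_btw (hq.2 q hq.1)).1
  rcases he.tri K.acyc hr with h1 | h1
  · exact h.c2 q e (Or.inl (by rwa [hq.1]))
  · obtain ⟨v, hv, hc⟩ := h.walk hn.symm h1
    exact cl_pr he.1 hq hv.symm hc

theorem Cst.p1 (h : D.Cst C) {r : ℕ} {p : S.V} {z w w' : W} {q : K.S'.V} (hz : K.Near r p z)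
    (hw : K.T.Adj w w') (hb : Btw K.T w w' z) (hq : K.IsPr p w q) :
    S.Cl (r + C) (K.O.V q) (D.anc (w, w')) := by
  obtain ⟨q0, rfl, hq0⟩ := hz
  have he : Sep K.T (w, w') w (K.S'.nd q0) := ⟨hw, btw_left hw.reachable, hb⟩
  obtain ⟨q1, hq1⟩ := K.exists_pr (p := K.O.V q0) (w := w) (by
    rw [K.O.nd_V, K.hν]
    exact ((K.Z.ν_eq _ _).2 hb.reach).symm)
  have hc : S.Cl r (K.O.V q) (K.O.V q1) := cl_V (Over.IsPr.lip hq hq1 hq0)
  rcases he.tri K.acyc (hb.reach.trans (D.reach_nd q0)) with h1 | h1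
  · exact hc.trans (h.p0 (e := (w, w')) hq1 h1)
  · exact hc.trans (cl_pr (e := (w, w')) hw hq1 (btw_left (hq1.2 q1 hq1.1).1)
      (h.c2 q0 _ (Or.inr h1)))

theorem Cst.n1d (h : D.Cst C) : ∃ F, Bd F ∧ ∀ r p x x', K.Near r p x → K.Near r p x' →
    K.T.dist x x' ≤ F r := by
  classical
  obtain ⟨R, hR⟩ := K.Z.finE.exists_reps
  obtain ⟨F, hF, hb⟩ := S.ball_bound
  refine ⟨fun r => F (r + C) * R.card,
    (hF.comp (Bd.id.add (Bd.const C))).mul (Bd.const _), fun r p x x' hx hx' => ?_⟩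
  have hcov : ∀ e : W × W, ∃ (k : G) (d : W × W), K.T.Adj e.1 e.2 → d ∈ R ∧ e = k • d := by
    intro e
    by_cases he : K.T.Adj e.1 e.2
    · obtain ⟨k, -, d, hd, rfl⟩ := hR.cover e he
      exact ⟨k, d, fun _ => ⟨hd, rfl⟩⟩
    · exact ⟨1, e, fun h' => absurd h' he⟩
  choose k d hkd using hcov
  obtain ⟨hfin, hcard, -⟩ := hb (r + C) p
  rw [← ncard_sep K.acyc x x']
  have hle := Set.ncard_le_ncard_of_injOn (s := {e | Sep K.T e x x'})
    (t := {y | S.Cl (r + C) p y} ×ˢ (R : Set (W × W))) (fun e => (D.anc e, d e))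
    (fun e he => ⟨h.n1e hx hx' he, (hkd e he.1).1⟩)
    (fun e he e' he' hee => by
      have h1 : D.anc e = D.anc e' := congrArg Prod.fst hee
      have h2 : d e = d e' := congrArg Prod.snd hee
      have h3 := (hkd e he.1).2
      have h4 := (hkd e' he'.1).2
      have h5 : e' = (k e' * (k e)⁻¹) • e := by
        rw [mul_smul, inv_smul_eq_iff.2 h3, h2]
        exact h4
      have h6 : k e' * (k e)⁻¹ = 1 := by
        refine S.free _ (D.anc e) ?_
        rw [← D.anc_smul _ he.1, ← h5, h1]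
      rw [h5, h6, one_smul])
    (hfin.prod R.finite_toSet)
  rw [Set.ncard_prod, Set.ncard_coe_finset] at hle
  exact hle.trans (Nat.mul_le_mul_right _ hcard)

end MkD

theorem exists_anc (K : Mc S W) : Nonempty K.Anc := by
  rcases isEmpty_or_nonempty W with hW | hW
  · exact ⟨⟨fun e => isEmptyElim e.1, fun _ x => isEmptyElim x, fun _ => 0, Bd.const 0,
      fun x => isEmptyElim x, fun x => isEmptyElim x,
      fun p => (K.Z.ν_surj (S.nd p)).elim fun w _ => isEmptyElim w,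
      fun _ _ x => isEmptyElim x, fun _ _ x => isEmptyElim x, fun _ _ x => isEmptyElim x,
      fun _ _ x => isEmptyElim x⟩⟩
  obtain ⟨D⟩ := K.exists_mkD
  obtain ⟨C, h⟩ := D.exists_cst
  obtain ⟨F, hF, hd⟩ := h.n1d
  refine ⟨⟨D.anc, fun g x y hxy => D.anc_smul g (e := (x, y)) hxy, fun r => r + C + F r,
    (Bd.id.add (Bd.const C)).add hF, fun x y hxy => D.near_anc (e := (x, y)) hxy _,
    fun x y hxy => (h.c4 x y hxy).mono (by omega),
    fun p => ⟨_, near_mono (h.c3 p) (by omega)⟩,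
    fun r p x x' hx hx' => (hd r p x x' hx hx').trans (by omega),
    fun r p x x' y y' hx hx' he => (h.n1e hx hx' he).mono (by omega),
    fun r p x x' y hx hx' hy => ?_,
    fun r p z w w' q hz hw hb hq => (h.p1 hz hw hb hq).mono (by omega)⟩⟩
  by_cases hyx : y = x'
  · rw [hyx]
    exact near_mono hx' (by omega)
  · have he := sep_nxt K.acyc hy.2.1 hyx
    have he' := (sep_iff_of_btw K.acyc hy _).2 (Or.inr he)
    exact near_mono (near_cl (h.n1e hx hx' he') (D.near_anc he.1 0)) (by omega)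

end Mc

end CPOR
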