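import Pool.Agent.P.MP_2cb329_al.F.Api

/-! Machines (section F5): definitions and elementary facts. -/

set_option autoImplicit false

namespace CPOR
open ZT MulAction

variable {G : Type} [Group G] {N : Type} [MulAction G N]

namespace Sys

variable {S : Sys G N}

theorem Thread.npow {L k : ℕ} {u : G} {p : ℤ → S.P} (h : S.Thread L k u p) (j : ℕ) (i : ℤ) :
    p (i + j * k) = u ^ j • p i := by
  have := h.zpow j i
  rwa [zpow_natCast] at this

/-- A multiple of the period is a period. -/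
theorem Thread.mul {L k : ℕ} {u : G} {p : ℤ → S.P} (h : S.Thread L k u p) {j : ℕ} (hj : 1 ≤ j) :
    S.Thread (L + k * j) (k * j) (u ^ j) p :=
  ⟨Nat.mul_pos h.pos hj, Nat.le_add_left _ _, fun i => by
    rw [← h.npow j i]; push_cast; rw [mul_comm], fun i => (h.ch i).mono (Nat.le_add_right _ _)⟩

theorem Thread.csmul {L k : ℕ} {u : G} {p : ℤ → S.P} (h : S.Thread L k u p) {g : G}
    (hg : Commute g u) : S.Thread L k u (fun i => g • p i) := by
  have := h.smul g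
  rwa [hg.eq, mul_inv_cancel_right] at this

theorem Thread.arr_per {L k : ℕ} {u : G} {p : ℤ → S.P} (h : S.Thread L k u p) (i : ℤ) :
    S.arr (p (i + k)) = u • S.arr (p i) := by rw [h.per, S.arr_smul]

end Sys

/-- A machine together with its vertex system. -/
structure Mc (S : Sys G N) (W : Type) [MulAction G W] where
  Z : Spl S W
  M : Mach Z
  S' : Sys G W
  O : Over S' S
  hν : O.ν = Z.ν
  hD : O.IsDer M.R

/-- A partial isometry with convex domain. -/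
structure PIso {V : Type} (T : SimpleGraph V) (F : V → V) (D : Set V) : Prop where
  cvx : Cvx T D
  iso : ∀ x ∈ D, ∀ y ∈ D, T.Reachable (F x) (F y) ∧ T.dist (F x) (F y) = T.dist x y

namespace Mc

variable {S : Sys G N} {W : Type} [MulAction G W] (K : Mc S W)

abbrev T : SimpleGraph W := K.Z.T

abbrev Near (r : ℕ) (p : S.V) (w : W) : Prop := K.O.Near r p w

abbrev IsPr (p : S.V) (w : W) (q : K.S'.V) : Prop := K.O.IsPr p w q

/-- `w i, …, w j` is a flow line along the arrows `a i, …, a (j - 1)`. -/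
def Fl (a : ℤ → S.A) (w : ℤ → W) (i j : ℤ) : Prop :=
  ∀ l, i ≤ l → l < j → K.M.R (a l) (w l) (w (l + 1))

/-- A bi-infinite periodic flow line. -/
structure PFl (a : ℤ → S.A) (k : ℕ) (u : G) (w : ℤ → W) : Prop where
  fl : ∀ l, K.M.R (a l) (w l) (w (l + 1))
  per : ∀ l : ℤ, w (l + k) = u • w l

/-- `y` is fixed by `x` or lies on the axis of `x`. -/
def Ch (x : G) (y : W) : Prop := Btw K.T y (x • y) (x • x • y)

/-- The arrow `b` of the vertex system is the triple `(a, x, y)`. -/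
def Tr (b : K.S'.A) (a : S.A) (x y : W) : Prop :=
  K.O.A b = a ∧ K.S'.src b = x ∧ K.S'.tgt b = y

/-- Anchors of darts, with the comparison lemmas N1 and P1. -/
structure Anc where
  anc : W × W → S.V
  smul : ∀ (g : G) (x y : W), K.T.Adj x y → anc (g • x, g • y) = g • anc (x, y)
  F : ℕ → ℕ
  bd : Bd F
  near : ∀ x y, K.T.Adj x y → K.Near (F 0) (anc (x, y)) x
  rev : ∀ x y, K.T.Adj x y → S.Cl (F 0) (anc (x, y)) (anc (y, x))
  ex : ∀ p : S.V, ∃ w, K.Near (F 0) p w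
  n1d : ∀ r p x x', K.Near r p x → K.Near r p x' → K.T.dist x x' ≤ F r
  n1e : ∀ r p x x' y y', K.Near r p x → K.Near r p x' → Sep K.T (y, y') x x' →
    S.Cl (F r) p (anc (y, y'))
  n1v : ∀ r p x x' y, K.Near r p x → K.Near r p x' → Btw K.T x y x' → K.Near (F r) p y
  p1 : ∀ r p z w w' q, K.Near r p z → K.T.Adj w w' → Btw K.T w w' z → K.IsPr p w q →
    S.Cl (F r) (K.O.V q) (anc (w, w'))

/-- A thread of the vertex system with translation `h` and period `κ` that follows the flow line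
`y` on `[0, m + 1]` and passes near `c` at time `0` and near `c'` at time `m`. -/
def TA (r κ m : ℕ) (a : ℤ → S.A) (y : ℤ → W) (c c' : S.V) (h : G) : Prop :=
  ∃ q : ℤ → K.S'.P, K.S'.Thread r κ h q ∧
    (∀ l : ℤ, 0 ≤ l → l ≤ m → K.Tr (K.S'.arr (q l)) (a l) (y l) (y (l + 1))) ∧
    S.Cl r c (K.O.V (K.S'.s (q 0))) ∧ S.Cl r c' (K.O.V (K.S'.s (q m)))

variable {K}

/-- The dynamics of darts in the case NEG. -/
structure Dyn (A : K.Anc) where
  N : ℕ
  pos : 1 ≤ N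
  g : W → W → G
  conj : ∀ (h : G) (x y : W), K.T.Adj x y → g (h • x) (h • y) = h * g x y * h⁻¹
  swap : ∀ x y, K.T.Adj x y → g y x = g x y
  step : ∀ a x y x' y', K.T.Adj x y → K.M.R a x x' → K.M.R a y y' → g x' y' = g x y
  per : ∀ (a : ℤ → S.A) (y y' : ℤ → W) (i : ℤ), K.Fl a y i (i + N) → K.Fl a y' i (i + N) →
    K.T.Adj (y i) (y' i) → y (i + N) = g (y i) (y' i) • y i
  C : ℕ
  ta : ∀ (r κ m : ℕ) (a : ℤ → S.A) (y y' : ℤ → W) (c c' : S.V), 1 ≤ κ → K.Fl a y 0 (m + 1) →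
    K.Fl a y' 0 (m + 1) → K.T.Adj (y 0) (y' 0) → S.Cl r c (A.anc (y 0, y' 0)) →
    S.Cl r c' (A.anc (y m, y' m)) → K.TA (r + C + κ * N) (κ * N) m a y c c' (g (y 0) (y' 0) ^ κ)

theorem acyc : K.T.IsAcyclic := K.Z.gf.acyc

theorem acts : Acts K.T G := K.Z.gf.acts

theorem tight : K.O.Tight := by
  constructor
  · intro b b' hA hs
    refine K.O.det b b' hA hs ?_
    have h1 := K.hD.mem b
    have h2 := K.hD.mem b'
    rw [← hA, ← hs] at h2
    exact K.M.func _ _ _ _ h1 h2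
  · intro b b' hA ht
    refine K.O.det b b' hA ?_ ht
    have h1 := K.hD.mem b
    have h2 := K.hD.mem b'
    rw [← hA, ← ht] at h2
    exact K.M.inj _ _ _ _ h1 h2

theorem Tr.eq {b b' : K.S'.A} {a : S.A} {x y : W} (h : K.Tr b a x y) (h' : K.Tr b' a x y) :
    b = b' :=
  K.O.det b b' (h.1.trans h'.1.symm) (h.2.1.trans h'.2.1.symm) (h.2.2.trans h'.2.2.symm)

theorem Tr.smul {b : K.S'.A} {a : S.A} {x y : W} (h : K.Tr b a x y) (g : G) :
    K.Tr (g • b) (g • a) (g • x) (g • y) :=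
  ⟨by rw [K.O.A_smul, h.1], by rw [K.S'.src_smul, h.2.1], by rw [K.S'.tgt_smul, h.2.2]⟩

theorem exists_tr {a : S.A} {x y : W} (h : K.M.R a x y) : ∃ b, K.Tr b a x y := K.hD.surj a x y h

theorem Tr.R {b : K.S'.A} {a : S.A} {x y : W} (h : K.Tr b a x y) : K.M.R a x y := by
  have := K.hD.mem b
  rwa [h.1, h.2.1, h.2.2] at this

theorem near_nd {r : ℕ} {p : S.V} {w : W} (h : K.Near r p w) : S.nd p = K.Z.ν w := by
  obtain ⟨q, hq, hc⟩ := h
  rw [hc.1, K.O.nd_V, hq, K.hν]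

theorem near_mono {r r' : ℕ} {p : S.V} {w : W} (h : K.Near r p w) (hr : r ≤ r') :
    K.Near r' p w :=
  let ⟨q, hq, hc⟩ := h; ⟨q, hq, hc.mono hr⟩

theorem near_cl {r r' : ℕ} {p p' : S.V} {w : W} (hc : S.Cl r' p' p) (h : K.Near r p w) :
    K.Near (r' + r) p' w :=
  let ⟨q, hq, hc'⟩ := h; ⟨q, hq, hc.trans hc'⟩

theorem near_smul {r : ℕ} {p : S.V} {w : W} (g : G) (h : K.Near r p w) :
    K.Near r (g • p) (g • w) := by
  obtain ⟨q, hq, hc⟩ := h
  exact ⟨g • q, by rw [K.S'.nd_smul, hq], by rw [K.O.V_smul]; exact hc.smul g⟩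

theorem near_reach {r r' : ℕ} {p : S.V} {w w' : W} (h : K.Near r p w) (h' : K.Near r' p w') :
    K.T.Reachable w w' := (K.Z.ν_eq w w').1 ((near_nd h).symm.trans (near_nd h'))

/-- Distances inside one node of the vertex system are distances in `S`. -/
theorem cl_V {r : ℕ} {q q' : K.S'.V} (h : K.S'.Cl r q q') : S.Cl r (K.O.V q) (K.O.V q') :=
  ⟨by rw [K.O.nd_V, K.O.nd_V, h.1], by rw [K.O.dist_V _ _ h.1]; exact h.2⟩

theorem cl_of_V {r : ℕ} {q q' : K.S'.V} (hn : K.S'.nd q = K.S'.nd q')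
    (h : S.Cl r (K.O.V q) (K.O.V q')) : K.S'.Cl r q q' :=
  ⟨hn, by rw [← K.O.dist_V _ _ hn]; exact h.2⟩

theorem exists_pr {p : S.V} {w : W} (h : S.nd p = K.Z.ν w) : ∃ q, K.IsPr p w q :=
  Over.exists_pr (by rw [K.hν]; exact h)

theorem Fl.mono {a : ℤ → S.A} {w : ℤ → W} {i j i' j' : ℤ} (h : K.Fl a w i j) (hi : i ≤ i')
    (hj : j' ≤ j) : K.Fl a w i' j' := fun l h1 h2 => h l (hi.trans h1) (h2.trans_le hj)

theorem Fl.congr {a b : ℤ → S.A} {w : ℤ → W} {i j : ℤ} (h : K.Fl a w i j)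
    (hab : ∀ l, i ≤ l → l < j → a l = b l) : K.Fl b w i j :=
  fun l h1 h2 => hab l h1 h2 ▸ h l h1 h2

theorem Fl.smul {a : ℤ → S.A} {w : ℤ → W} {i j : ℤ} (h : K.Fl a w i j) (g : G) :
    K.Fl (fun l => g • a l) (fun l => g • w l) i j :=
  fun l h1 h2 => K.M.smul g _ _ _ (h l h1 h2)

theorem Fl.shift {a : ℤ → S.A} {w : ℤ → W} {i j : ℤ} (h : K.Fl a w i j) (c : ℤ) :
    K.Fl (fun l => a (l + c)) (fun l => w (l + c)) (i - c) (j - c) := fun l h1 h2 => by
  have := h (l + c) (by omega) (by omega)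
  rwa [show l + c + 1 = l + 1 + c by ring] at this

/-- Shifting a flow line back by one period. -/
theorem Fl.back {a : ℤ → S.A} {w : ℤ → W} {i j : ℤ} {k : ℕ} {u : G} (h : K.Fl a w i j)
    (ha : ∀ l : ℤ, a (l + k) = u • a l) : K.Fl a (fun l => u⁻¹ • w (l + k)) (i - k) (j - k) :=
  ((h.shift k).smul u⁻¹).congr fun l _ _ => by rw [ha, inv_smul_smul]

theorem PFl.toFl {a : ℤ → S.A} {w : ℤ → W} {k : ℕ} {u : G} (h : K.PFl a k u w) (i j : ℤ) :
    K.Fl a w i j := fun l _ _ => h.fl l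

end Mc

end CPOR
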