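import Pool.Agent.P.MP_2cb329_al.F.MFl

/-! Machines: the dynamics of darts in the case NEG. -/

set_option autoImplicit false

namespace CPOR
open ZT MulAction

variable {G : Type} [Group G] {N : Type} [MulAction G N] {S : Sys G N} {W : Type} [MulAction G W]

namespace Mc

variable {K : Mc S W} {A : K.Anc}

/-- The darts as a set with an action. -/
def dyD (K : Mc S W) : SubMulAction G (W × W) where
  carrier := {e | K.T.Adj e.1 e.2}
  smul_mem' := fun g _ h => K.acts g _ _ h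

theorem dyD_adj (e : dyD K) : K.T.Adj e.1.1 e.1.2 := e.2

theorem dyD_free {g : G} {e : dyD K} (h : g • e = e) : g = 1 :=
  K.Z.gf.dart_free (dyD_adj e) (congrArg Subtype.val h)

theorem dyD_uniq {g g' : G} {e : dyD K} (h : g • e = g' • e) : g = g' := by
  have : (g'⁻¹ * g) • e = e := by rw [mul_smul, h, inv_smul_smul]
  exact (inv_mul_eq_one.1 (dyD_free this)).symm

theorem dyD_fin : FinOrb (⊤ : Subgroup G) (Set.univ : Set (dyD K)) :=
  (nOrb_le_of_inj (K := ⊤) K.Z.finE (fun e : dyD K => e.1) (fun e _ => e.2)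
    (fun _ _ _ _ ⟨k, hk, h⟩ => ⟨k, hk, Subtype.ext h⟩)).1

/-- The reversed dart. -/
def dySw (e : dyD K) : dyD K := ⟨(e.1.2, e.1.1), (dyD_adj e).symm⟩

theorem dySw_smul (g : G) (e : dyD K) : dySw (g • e) = g • dySw e := rfl

theorem dy_ex (hN : K.M.NEG) (e : dyD K) :
    ∃ τ : S.A × dyD K, K.M.R τ.1 e.1.1 τ.2.1.1 ∧ K.M.R τ.1 e.1.2 τ.2.1.2 := by
  obtain ⟨a, ⟨⟨y, hy⟩, y', hy'⟩, -⟩ := hN.out _ _ (dyD_adj e)
  have h := hN.iso a _ _ _ _ hy hy'
  rw [SimpleGraph.dist_eq_one_iff_adj.2 (dyD_adj e)] at h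
  exact ⟨(a, ⟨(y, y'), SimpleGraph.dist_eq_one_iff_adj.1 h⟩), hy, hy'⟩

/-- The arrow that is defined on a dart. -/
noncomputable def dyA (hN : K.M.NEG) (e : dyD K) : S.A := (dy_ex hN e).choose.1

/-- The image of a dart. -/
noncomputable def dyS (hN : K.M.NEG) (e : dyD K) : dyD K := (dy_ex hN e).choose.2

theorem dy_R1 (hN : K.M.NEG) (e : dyD K) : K.M.R (dyA hN e) e.1.1 (dyS hN e).1.1 :=
  (dy_ex hN e).choose_spec.1

theorem dy_R2 (hN : K.M.NEG) (e : dyD K) : K.M.R (dyA hN e) e.1.2 (dyS hN e).1.2 :=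
  (dy_ex hN e).choose_spec.2

theorem dy_uniq (hN : K.M.NEG) (e : dyD K) {a : S.A} {x y : W} (h1 : K.M.R a e.1.1 x)
    (h2 : K.M.R a e.1.2 y) : dyA hN e = a ∧ (dyS hN e).1 = (x, y) := by
  have ha : dyA hN e = a :=
    (hN.out _ _ (dyD_adj e)).unique ⟨⟨_, dy_R1 hN e⟩, _, dy_R2 hN e⟩ ⟨⟨_, h1⟩, _, h2⟩
  refine ⟨ha, Prod.ext ?_ ?_⟩
  · exact K.M.func _ _ _ _ (ha ▸ dy_R1 hN e) h1
  · exact K.M.func _ _ _ _ (ha ▸ dy_R2 hN e) h2

theorem dy_smul (hN : K.M.NEG) (g : G) (e : dyD K) :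
    dyA hN (g • e) = g • dyA hN e ∧ dyS hN (g • e) = g • dyS hN e := by
  have := dy_uniq hN (g • e) (K.M.smul g _ _ _ (dy_R1 hN e)) (K.M.smul g _ _ _ (dy_R2 hN e))
  exact ⟨this.1, Subtype.ext this.2⟩

theorem dy_sw (hN : K.M.NEG) (e : dyD K) : dyS hN (dySw e) = dySw (dyS hN e) :=
  Subtype.ext (dy_uniq hN (dySw e) (dy_R2 hN e) (dy_R1 hN e)).2

theorem dy_inj (hN : K.M.NEG) : Function.Injective (dyS hN) := by
  intro e e' h
  have h1 := dy_R1 hN e'
  have h2 := dy_R2 hN e'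
  rw [← h] at h1 h2
  have ha : dyA hN e = dyA hN e' :=
    (hN.inn _ _ (dyD_adj (dyS hN e))).unique ⟨⟨_, dy_R1 hN e⟩, _, dy_R2 hN e⟩ ⟨⟨_, h1⟩, _, h2⟩
  rw [← ha] at h1 h2
  exact Subtype.ext (Prod.ext (K.M.inj _ _ _ _ (dy_R1 hN e) h1) (K.M.inj _ _ _ _ (dy_R2 hN e) h2))

theorem dy_per (hN : K.M.NEG) : Function.Surjective (dyS hN) ∧
    ∃ M : ℕ, 0 < M ∧ ∀ e : dyD K, ∃ g : G, (dyS hN)^[M] e = g • e := by
  obtain ⟨h1, M, hM, h2⟩ := periodic_of_inj (dyD_fin (K := K)) (fun _ _ _ _ => trivial) (dyS hN)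
    (fun _ _ => trivial) (fun g e _ => (dy_smul hN g e).2) (fun _ _ _ _ h => dy_inj hN h)
  exact ⟨fun e => let ⟨x, _, hx⟩ := h1 e trivial; ⟨x, hx⟩, M, hM, fun e => h2 e trivial⟩

theorem dy_iter_smul (hN : K.M.NEG) (g : G) (n : ℕ) (e : dyD K) :
    (dyS hN)^[n] (g • e) = g • (dyS hN)^[n] e :=
  (Function.Commute.iterate_left (f := dyS hN) (g := fun x => g • x)
    (fun x => (dy_smul hN g x).2) n) e

theorem dy_iter_sw (hN : K.M.NEG) (n : ℕ) (e : dyD K) :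
    (dyS hN)^[n] (dySw e) = dySw ((dyS hN)^[n] e) :=
  (Function.Commute.iterate_left (f := dyS hN) (g := dySw) (dy_sw hN) n) e

/-- A pair of adjacent flow lines is the orbit of a dart. -/
theorem dy_flow (hN : K.M.NEG) {a : ℤ → S.A} {y y' : ℤ → W} {i j : ℤ} (h : K.Fl a y i j)
    (h' : K.Fl a y' i j) (e : dyD K) (he : e.1 = (y i, y' i)) (n : ℕ) :
    (i + n ≤ j → ((dyS hN)^[n] e).1 = (y (i + n), y' (i + n))) ∧
      (i + n < j → dyA hN ((dyS hN)^[n] e) = a (i + n)) := by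
  have key : ∀ n : ℕ, i + n < j → ((dyS hN)^[n] e).1 = (y (i + n), y' (i + n)) →
      dyA hN ((dyS hN)^[n] e) = a (i + n) ∧
        (dyS hN ((dyS hN)^[n] e)).1 = (y (i + n + 1), y' (i + n + 1)) := by
    intro n hn hv
    refine dy_uniq hN _ ?_ ?_
    · rw [hv]; exact h _ (by omega) hn
    · rw [hv]; exact h' _ (by omega) hn
  have h1 : ∀ n : ℕ, i + n ≤ j → ((dyS hN)^[n] e).1 = (y (i + n), y' (i + n)) := by
    intro n
    induction n with
    | zero => intro _; simpa using he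
    | succ n ih =>
      intro hn
      push_cast at hn ⊢
      rw [Function.iterate_succ_apply', ← add_assoc]
      exact (key n (by omega) (ih (by omega))).2
  exact ⟨h1 n, fun hn => (key n hn (h1 n hn.le)).1⟩

theorem dy_pt (hN : K.M.NEG) : ∃ P : dyD K → K.S'.P,
    (∀ e, K.Tr (K.S'.arr (P e)) (dyA hN e) e.1.1 (dyS hN e).1.1) ∧
      ∀ (g : G) e, P (g • e) = g • P e := by
  refine exists_equiv_choice (fun (e : dyD K) (p : K.S'.P) =>
    K.Tr (K.S'.arr p) (dyA hN e) e.1.1 (dyS hN e).1.1) ?_ ?_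
  · intro g e p h
    have := h.smul g
    rw [K.S'.arr_smul, (dy_smul hN g e).1, (dy_smul hN g e).2]
    exact this
  · intro e
    obtain ⟨b, hb⟩ := exists_tr (dy_R1 hN e)
    obtain ⟨p, rfl⟩ := K.S'.arr_surj b
    refine ⟨p, hb, fun g hg => ?_⟩
    rw [dyD_free (mem_stabilizer_iff.1 hg)]
    exact one_mem _

/-- The two-sided orbit of a dart. -/
theorem dy_orbit (hN : K.M.NEG) {M : ℕ} {g : G} {e : dyD K} (hg : (dyS hN)^[M] e = g • e) :
    ∃ d : ℤ → dyD K, (∀ n : ℕ, d n = (dyS hN)^[n] e) ∧ (∀ l, d (l + 1) = dyS hN (d l)) ∧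
      ∀ l : ℤ, d (l + M) = g • d l := by
  let σ : Equiv.Perm (dyD K) := Equiv.ofBijective (dyS hN) ⟨dy_inj hN, (dy_per hN).1⟩
  have hσ : ∀ (n : ℕ) x, (σ ^ (n : ℤ)) x = (dyS hN)^[n] x := by
    intro n x
    rw [zpow_natCast, Equiv.Perm.coe_pow]
    rfl
  have hc : Commute σ (MulAction.toPerm g) := by
    ext x : 1
    exact (dy_smul hN g x).2
  refine ⟨fun l => (σ ^ l) e, fun n => hσ n e, fun l => ?_, fun l => ?_⟩
  · show (σ ^ (l + 1)) e = σ ((σ ^ l) e)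
    rw [add_comm, zpow_add, zpow_one, Equiv.Perm.mul_apply]
  · show (σ ^ (l + M)) e = g • (σ ^ l) e
    rw [zpow_add, Equiv.Perm.mul_apply, hσ, hg]
    exact congrArg (fun f : Equiv.Perm (dyD K) => f e) (hc.zpow_left l).eq

theorem exists_dyn (hN : K.M.NEG) (A : K.Anc) : Nonempty (Dyn A) := by
  classical
  obtain ⟨-, M, hM, hper⟩ := dy_per hN
  choose g0 hg0 using hper
  obtain ⟨P, hP, hPs⟩ := dy_pt hN
  obtain ⟨C1, hC1⟩ := (dyD_fin (K := K)).bound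
    (fun e c => K.S'.Cl c (K.S'.t (P e)) (K.S'.s (P (dyS hN e))))
    (fun _ _ _ _ hc h => h.mono hc)
    (fun k _ e _ c _ h => by
      rw [(dy_smul hN k e).2, hPs, hPs, K.S'.t_smul, K.S'.s_smul]
      exact h.smul k)
    (fun e _ => ⟨_, Sys.cl_dist (by
      rw [K.S'.nd_t, K.S'.nd_s, (hP e).2.2, (hP (dyS hN e)).2.1])⟩)
  obtain ⟨C2, hC2⟩ := (dyD_fin (K := K)).bound
    (fun e c => S.Cl c (A.anc (e.1.1, e.1.2)) (K.O.V (K.S'.s (P e))))
    (fun _ _ _ _ hc h => h.mono hc)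
    (fun k _ e _ c _ h => by
      have h1 : A.anc ((k • e).1.1, (k • e).1.2) = k • A.anc (e.1.1, e.1.2) :=
        A.smul k _ _ (dyD_adj e)
      rw [h1, hPs, K.S'.s_smul, K.O.V_smul]
      exact h.smul k)
    (fun e _ => ⟨_, Sys.cl_dist (by
      rw [near_nd (A.near _ _ (dyD_adj e)), K.O.nd_V, K.S'.nd_s, (hP e).2.1, K.hν])⟩)
  let g : W → W → G := fun x y => if h : K.T.Adj x y then g0 ⟨(x, y), h⟩ else 1
  have hg : ∀ x y (h : K.T.Adj x y), g x y = g0 ⟨(x, y), h⟩ := fun x y h => dif_pos h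
  refine ⟨⟨M, hM, g, ?_, ?_, ?_, ?_, M + C1 + C2, ?_⟩⟩
  · intro h x y hxy
    rw [hg _ _ hxy, hg _ _ (K.acts h _ _ hxy)]
    let e : dyD K := ⟨(x, y), hxy⟩
    show g0 (h • e) = h * g0 e * h⁻¹
    refine dyD_uniq (e := h • e) ?_
    rw [← hg0, dy_iter_smul, hg0, mul_smul, mul_smul, inv_smul_smul]
  · intro x y hxy
    rw [hg _ _ hxy, hg _ _ hxy.symm]
    let e : dyD K := ⟨(x, y), hxy⟩
    show g0 (dySw e) = g0 e
    refine dyD_uniq (e := dySw e) ?_
    rw [← hg0, dy_iter_sw, hg0, dySw_smul]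
  · intro a x y x' y' hxy h1 h2
    let e : dyD K := ⟨(x, y), hxy⟩
    have h3 : (dyS hN e).1 = (x', y') := (dy_uniq hN e h1 h2).2
    have h4 : K.T.Adj x' y' := by
      have := dyD_adj (dyS hN e)
      rwa [h3] at this
    have h5 : (⟨(x', y'), h4⟩ : dyD K) = dyS hN e := Subtype.ext h3.symm
    rw [hg _ _ hxy, hg _ _ h4, h5]
    show g0 (dyS hN e) = g0 e
    refine dyD_uniq (e := dyS hN e) ?_
    rw [← hg0, ← Function.iterate_succ_apply, Function.iterate_succ_apply', hg0,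
      (dy_smul hN _ e).2]
  · intro a y y' i h h' hxy
    let e : dyD K := ⟨(y i, y' i), hxy⟩
    have h1 := (dy_flow hN h h' e rfl M).1 le_rfl
    rw [hg0] at h1
    rw [hg _ _ hxy]
    exact (congrArg Prod.fst h1).symm
  · intro r κ m a y y' c c' hκ h h' hxy hc hc'
    let e : dyD K := ⟨(y 0, y' 0), hxy⟩
    obtain ⟨d, hd1, hd2, hd3⟩ := dy_orbit hN (hg0 e)
    have hT : K.S'.Thread (M + C1) M (g0 e) (fun l => P (d l)) :=
      ⟨hM, Nat.le_add_right _ _, fun l => by rw [hd3, hPs], fun l => by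
        rw [hd2]; exact (hC1 _ trivial).mono (Nat.le_add_left _ _)⟩
    have hfl : ∀ n : ℕ, n ≤ m + 1 → (d n).1 = (y n, y' n) := fun n hn => by
      have := (dy_flow hN h h' e rfl n).1 (by omega)
      rwa [← hd1, zero_add] at this
    have hfa : ∀ n : ℕ, n ≤ m → dyA hN (d n) = a n := fun n hn => by
      have := (dy_flow hN h h' e rfl n).2 (by omega)
      rwa [← hd1, zero_add] at this
    have hcl : ∀ (n : ℕ) (z : S.V), n ≤ m → S.Cl r z (A.anc (y n, y' n)) →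
        S.Cl (r + (M + C1 + C2) + κ * M) z (K.O.V (K.S'.s (P (d n)))) := fun n z hn hz => by
      have h1 := hC2 (d n) trivial
      simp only [hfl n (by omega)] at h1
      exact (hz.trans h1).mono (by omega)
    refine ⟨fun l => P (d l), ?_, ?_, hcl 0 c (Nat.zero_le _) hc, hcl m c' le_rfl hc'⟩
    · have := hT.mul hκ
      rw [mul_comm M κ] at this
      rw [hg _ _ hxy]
      exact this.mono (by omega)
    · intro l h0 hl
      obtain ⟨n, rfl⟩ := Int.eq_ofNat_of_zero_le h0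
      have hn : n ≤ m := by exact_mod_cast hl
      have h1 := hP (d n)
      have h2 := hfl (n + 1) (by omega)
      push_cast at h2
      rw [hfa n hn, ← hd2, h2, hfl n (by omega)] at h1
      exact h1

theorem Dyn.flow (hN : K.M.NEG) (Y : Dyn A) {a : ℤ → S.A} {y y' : ℤ → W} {i j : ℤ}
    (h : K.Fl a y i j) (h' : K.Fl a y' i j) (e : K.T.Adj (y i) (y' i)) :
    ∀ l, i ≤ l → l ≤ j → Y.g (y l) (y' l) = Y.g (y i) (y' i) := by
  intro l hl
  induction l, hl using Int.le_induction with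
  | base => intro _; rfl
  | succ l hl ih =>
    intro hj
    have ha := Fl.adj hN h h' le_rfl (by omega) e l hl (by omega)
    rw [Y.step _ _ _ _ _ ha (h l hl (by omega)) (h' l hl (by omega)), ih (by omega)]

theorem Dyn.per_pt (hN : K.M.NEG) (Y : Dyn A) {a : ℤ → S.A} {y y' : ℤ → W} {i j : ℤ}
    (h : K.Fl a y i j) (h' : K.Fl a y' i j) (e : K.T.Adj (y i) (y' i)) (m : ℕ) :
    ∀ l, i ≤ l → l + m * Y.N ≤ j → y (l + m * Y.N) = Y.g (y i) (y' i) ^ m • y l := by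
  intro l hl
  induction m with
  | zero => intro _; simp
  | succ m ih =>
    intro hj
    have h0 : (0 : ℤ) ≤ m * Y.N := by positivity
    have h1 : (0 : ℤ) ≤ Y.N := by positivity
    have e1 : l + ((m + 1 : ℕ) : ℤ) * Y.N = l + m * Y.N + Y.N := by push_cast; ring
    rw [e1] at hj ⊢
    have ha := Fl.adj hN h h' le_rfl (by omega) e (l + m * Y.N) (by omega) (by omega)
    rw [Y.per a y y' _ (h.mono (by omega) hj) (h'.mono (by omega) hj) ha,
      Y.flow hN h h' e _ (by omega) (by omega), ih (by omega), pow_succ', mul_smul]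

theorem Dyn.per_pow (hN : K.M.NEG) (Y : Dyn A) {a : ℤ → S.A} {y y' : ℤ → W} {i j : ℤ}
    (h : K.Fl a y i j) (h' : K.Fl a y' i j) (e : K.T.Adj (y i) (y' i)) (m : ℕ) :
    (∀ l, i ≤ l → l + m * Y.N ≤ j → y (l + m * Y.N) = Y.g (y i) (y' i) ^ m • y l) ∧
      ∀ l, i ≤ l → l + m * Y.N < j → a (l + m * Y.N) = Y.g (y i) (y' i) ^ m • a l := by
  refine ⟨Y.per_pt hN h h' e m, fun l hl hj => ?_⟩
  have h0 : (0 : ℤ) ≤ m * Y.N := by positivity
  have e1 := Y.per_pt hN h h' e m l hl hj.le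
  have e2 := Y.per_pt hN h' h e.symm m l hl hj.le
  rw [Y.swap _ _ e] at e2
  have ha := Fl.adj hN h h' le_rfl (by omega) e (l + m * Y.N) (by omega) hj.le
  refine (hN.out _ _ ha).unique ⟨⟨_, h _ (by omega) hj⟩, _, h' _ (by omega) hj⟩ ?_
  rw [e1, e2]
  exact ⟨⟨_, K.M.smul _ _ _ _ (h l hl (by omega))⟩, _, K.M.smul _ _ _ _ (h' l hl (by omega))⟩

end Mc

end CPOR
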