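import Pool.Agent.P.MP_2cb329_al.F.MLift
import Pool.Agent.P.MP_2cb329_al.F.MDyn

/-! Machines: G1 and G2 in the case EXP. -/

set_option autoImplicit false

namespace CPOR
open ZT MulAction

variable {G : Type} [Group G] {N : Type} [MulAction G N] {S : Sys G N} {W : Type} [MulAction G W]

namespace Mc

variable (K : Mc S W)

/-- Two different flow lines that are close at the end are short. -/
theorem exp_short (hE : K.M.EXP) : ∃ F, Bd F ∧ ∀ (r n : ℕ) (a : ℤ → S.A) (w w' : ℤ → W),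
    K.Fl a w 0 n → K.Fl a w' 0 n → w 0 ≠ w' 0 → K.T.dist (w n) (w' n) ≤ r → n ≤ F r := by
  obtain ⟨l, μ, hl, hμ, hE⟩ := hE
  obtain ⟨C, -, hC⟩ := IsWt.bounds acyc hl K.Z.finE
  obtain ⟨q, hq⟩ := time_le_of_growth hμ
  refine ⟨fun r => q * (C * r), (Bd.const _).mul ((Bd.const _).mul Bd.id), ?_⟩
  intro r n a w w' h h' hne hd
  rcases Nat.eq_zero_or_pos n with rfl | hn
  · exact Nat.zero_le _
  refine hq n _ ?_
  have g := h.grow hμ hE h' n (by omega)
  rw [zero_add] at g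
  have d0 : 1 ≤ K.T.dist (w 0) (w' 0) := Nat.pos_of_ne_zero fun e =>
    hne (eq_of_dist_zero (h.reach h' (by omega) 0 le_rfl (by omega)) e)
  have d1 : (1 : ℝ) ≤ len K.T l (w 0) (w' 0) := le_trans (by exact_mod_cast d0) (hC _ _).1
  have d2 : len K.T l (w n) (w' n) ≤ C * r :=
    (hC _ _).2.trans (mul_le_mul_of_nonneg_left (by exact_mod_cast hd) (Nat.cast_nonneg _))
  have : 0 < μ ^ n := pow_pos (by linarith) n
  push_cast
  nlinarith

/-- A small element that fixes a long path has a fixed vertex. -/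
theorem exp_hyp (hE : K.M.EXP) : ∃ F, Bd F ∧ ∀ (L n : ℕ) (x : G) (a : ℤ → S.A) (y : W), x ≠ 1 →
    S.IsPath a 0 n → (∀ l : ℤ, 0 ≤ l → l < n → x • a l = a l) → K.Z.ν y = S.src (a 0) →
    K.Ch x y → S.TL L x (S.tgt (a (n - 1))) → n ≤ F L ∨ x • y = y := by
  obtain ⟨A⟩ := K.exists_anc
  obtain ⟨F, hF, H⟩ := K.exp_short hE
  refine ⟨fun L => F (A.F (L + A.F 0)), hF.comp (A.bd.comp (Bd.id.add (Bd.const _))), ?_⟩
  intro L n x a y hx hp hf hy hc ⟨p, hp1, hp2⟩
  rcases Nat.eq_zero_or_pos n with rfl | hn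
  · exact Or.inl (Nat.zero_le _)
  by_cases e : x • y = y
  · exact Or.inr e
  left
  obtain ⟨v, hv, rfl, vc, -⟩ := ch_flow hx hp hf hy hc
  refine H _ n a v (fun l => x • v l) hv ((hv.smul x).congr hf) (fun e' => e e'.symm) ?_
  obtain ⟨w, hw⟩ := A.ex p
  have r1 : K.T.Reachable (v n) w := (K.Z.ν_eq _ _).1 (by
    have := K.M.tgt _ _ _ (hv (n - 1) (by omega) (by omega))
    rw [sub_add_cancel] at this
    rw [this, ← hp1, near_nd hw])
  exact (ml_ch_min K.Z.gf (vc n (by omega) le_rfl) r1).trans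
    (A.n1d _ _ _ _ (near_mono hw (Nat.le_add_left _ _)) (near_cl hp2 (near_smul x hw)))

theorem exp_g1 (hE : K.M.EXP) (h : K.S'.Gall) : S.G1P S.Any := by
  obtain ⟨A⟩ := K.exists_anc
  obtain ⟨F1, hF1, H1⟩ := K.exp_hyp hE
  obtain ⟨F2, hF2, H2⟩ := K.g1_ell h
  refine ⟨fun L => F1 L + F2 L, hF1.add hF2, ?_⟩
  intro L n x a hx hg _ t0 tn
  beta_reduce
  obtain ⟨p, hp, hpc⟩ := id t0
  obtain ⟨y, hy, hny⟩ := A.el hpc
  have hν : K.Z.ν y = S.src (a 0) := (near_nd hny).symm.trans hp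
  rcases H1 L n x a y hx hg.path hg.fix hν hy tn with h1 | h1
  · left; omega
  rcases H2 L n x a y hx hg t0 tn hν h1 with h2 | h2
  · left; omega
  · exact Or.inr h2

theorem exp_g2 (hE : K.M.EXP) (h : K.S'.Gall) : S.G2P S.Any := by
  obtain ⟨A⟩ := K.exists_anc
  obtain ⟨M, hM, F1, hF1, H1⟩ := K.g2_lift h
  obtain ⟨F2, hF2, H2⟩ := S.eps_small
  obtain ⟨F3, hF3, H3⟩ := K.exp_hyp hE
  obtain ⟨F4, hF4, H4⟩ := K.exp_short hE
  obtain ⟨F5, hF5, H5⟩ := K.near_flow
  let R : ℕ → ℕ := fun L => F5 (F2 L + L) + F2 L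
  have hR : Bd R := (hF5.comp (hF2.add Bd.id)).add hF2
  refine ⟨M, hM, fun L => F1 L + F3 (F2 L) + F4 (A.F (R L)) + (L + L),
    ((hF1.add (hF3.comp hF2)).add (hF4.comp (A.bd.comp hR))).add (Bd.id.add Bd.id), ?_⟩
  intro L k n u u' p p' hp hp' ha _ c0 cn
  beta_reduce
  have hk := hp.pos
  have hkL := hp.le
  by_cases hu : u = u'
  · right; rw [hu]
  by_cases hkn : n ≤ k + k
  · left; omega
  have hε : u⁻¹ * u' ≠ 1 := fun e => hu (inv_mul_eq_one.1 e)
  obtain ⟨ef, e0, en⟩ := H2 L k n u u' p p' hp hp' ha c0 cn (by omega)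
  obtain ⟨m, rfl⟩ : ∃ m, n = m + k + k := ⟨n - k - k, by omega⟩
  have en' : ((m + k + k : ℕ) : ℤ) - k = (m + k : ℕ) := by push_cast; ring
  have em : ((m + k : ℕ) : ℤ) = m + k := by push_cast; ring
  rw [en'] at ef en
  obtain ⟨y, hy, ny⟩ := A.el e0
  have hν : K.Z.ν y = S.src (S.arr (p 0)) := (near_nd ny).symm.trans (S.nd_s _)
  rcases H3 (F2 L) (m + k) _ (fun l => S.arr (p l)) y hε (hp.chain _ _).path
    (fun l h0 h1 => ef l h0 h1.le) hν hy ⟨_, by
      have := (hp.ch ((m + k : ℕ) - 1)).1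
      rw [sub_add_cancel, S.nd_t] at this
      exact this.symm, en⟩ with h1 | hfix
  · left; omega
  obtain ⟨z, hz, rfl, -, zf⟩ := ch_flow (j := (m + k : ℕ) + 1) hε (hp.chain _ _).path
    (fun l h0 h1 => ef l h0 (by omega)) hν hy
  rw [em] at hz zf en
  have nk : K.Near (F2 L) (S.s (p (m + k))) (z (m + k)) :=
    Over.near_of_fix hε ((zf _ (by omega) (by omega)).2 hfix)
      (by rw [K.hν, S.nd_s, K.M.src _ _ _ (hz _ (by omega) (by omega))]) en
  by_cases e : z 0 = u⁻¹ • z (0 + k)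
  · rw [zero_add] at e
    have e1 : z k = u • z 0 := by rw [e, smul_inv_smul]
    have e2 : z k = u' • z 0 := by
      rw [e1]
      conv_lhs => rw [← hfix]
      rw [← mul_smul, mul_inv_cancel_left]
    have hz1 : K.Fl (fun l => S.arr (p l)) z 0 k := hz.mono le_rfl (by omega)
    obtain ⟨w, hw, w0⟩ := hz1.per hk hp.arr_per e1
    obtain ⟨w', hw', w0'⟩ := (hz1.congr (b := fun l => S.arr (p' l))
      fun l h0 h1 => ha l h0 (by omega)).per hk hp'.arr_per e2
    rcases H1 L k _ u u' p p' w w' hp hp' ha c0 cn hw hw' (w0.trans w0'.symm) with h1 | h1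
    · left; omega
    · exact Or.inr h1
  left
  have t1 := (H5 (F2 L + L) p z m (m + k) (by omega) (by push_cast; omega)
    ((hp.mono (by omega)).chain _ _) (hz.mono (by omega) (by omega))).2 (near_mono nk (by omega))
  have t2 := near_back hp 1 m (x := z (m + k)) (by simpa using nk)
  rw [pow_one] at t2
  have := H4 (A.F (R L)) m _ z _ (hz.mono le_rfl (by omega))
    ((hz.back (k := k) (u := u) hp.arr_per).mono (by omega) (by omega)) e
    (A.n1d _ _ _ _ (near_mono t1 (Nat.le_add_right _ _)) (near_mono t2 (Nat.le_add_left _ _)))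
  omega

end Mc

end CPOR
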