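import Pool.Agent.P.MP_2cb329_al.F.MLift
import Pool.Agent.P.MP_2cb329_al.F.MDyn

/-! Machines: G3 in the case EXP. -/

set_option autoImplicit false

namespace CPOR
open ZT MulAction

variable {G : Type} [Group G] {N : Type} [MulAction G N] {S : Sys G N} {W : Type} [MulAction G W]

namespace Mc

variable (K : Mc S W)

/-- Two flow lines whose end points return near their starting points are close. -/
theorem exp_dist (hE : K.M.EXP) : ∃ F, Bd F ∧ ∀ (r k : ℕ) (u : G) (a : ℤ → S.A) (z z' : ℤ → W),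
    1 ≤ k → K.Fl a z 0 k → K.Fl a z' 0 k → K.T.Reachable (z 0) (u⁻¹ • z k) →
    K.T.Reachable (z' 0) (u⁻¹ • z' k) → K.T.dist (z 0) (u⁻¹ • z k) ≤ r →
    K.T.dist (z' 0) (u⁻¹ • z' k) ≤ r → K.T.dist (z 0) (z' 0) ≤ F r := by
  obtain ⟨l, μ, hl, hμ, hE⟩ := hE
  obtain ⟨C, -, hC⟩ := IsWt.bounds acyc hl K.Z.finE
  obtain ⟨q, hq⟩ := exists_nat_ge (1 / (μ - 1))
  have hq' : 1 ≤ q * (μ - 1) := by rwa [div_le_iff₀ (by linarith)] at hq
  refine ⟨fun r => q * (2 * (C * r)),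
    (Bd.const _).mul ((Bd.const _).mul ((Bd.const _).mul Bd.id)), ?_⟩
  intro r k u a z z' hk h h' r1 r2 d1 d2
  have nn : ∀ x y, K.T.Adj x y → 0 ≤ l (x, y) := fun x y e => zero_le_one.trans (hl.one_le x y e)
  have g := h.grow hμ hE h' k (by omega)
  rw [zero_add, ← len_smul acyc acts u⁻¹ (fun e he => hl.smul _ e he) (z k)] at g
  have r0 := h.reach h' (by omega) 0 le_rfl (by omega)
  have t1 := len_tri acyc nn r1.symm (r0.trans r2)
  have t2 := len_tri acyc nn r0 r2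
  have b1 : len K.T l (u⁻¹ • z k) (z 0) ≤ C * r := (hC _ _).2.trans
    (mul_le_mul_of_nonneg_left (by rw [SimpleGraph.dist_comm]; exact_mod_cast d1)
      (Nat.cast_nonneg _))
  have b2 : len K.T l (z' 0) (u⁻¹ • z' k) ≤ C * r := (hC _ _).2.trans
    (mul_le_mul_of_nonneg_left (by exact_mod_cast d2) (Nat.cast_nonneg _))
  have n0 := len_nonneg acyc nn (z 0) (z' 0)
  have hp : μ ≤ μ ^ k := le_self_pow₀ hμ.le (by omega)
  have k1 : (μ - 1) * len K.T l (z 0) (z' 0) ≤ 2 * (C * r) := by nlinarith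
  have k2 : len K.T l (z 0) (z' 0) ≤ q * (2 * (C * r)) := by
    have : (0 : ℝ) ≤ q := Nat.cast_nonneg _
    nlinarith
  exact_mod_cast (hC _ _).1.trans k2

variable {K} in
/-- A finite set that is invariant under the return map consists of a fixed point. -/
theorem exp_fix (hE : K.M.EXP) {k : ℕ} (hk : 1 ≤ k) {u : G} {a : ℤ → S.A} {X : Set W}
    (hX : X.Finite) (h : ∀ y ∈ X, ∃ v, K.Fl a v 0 k ∧ v 0 = y ∧ u⁻¹ • v k ∈ X) :
    ∀ y ∈ X, ∀ y' ∈ X, y = y' := by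
  obtain ⟨l, μ, hl, hμ, hE⟩ := hE
  obtain ⟨C, -, hC⟩ := IsWt.bounds acyc hl K.Z.finE
  have nn : ∀ x y, K.T.Adj x y → 0 ≤ l (x, y) := fun x y e => zero_le_one.trans (hl.one_le x y e)
  intro y hy y' hy'
  obtain ⟨⟨x, x'⟩, ⟨hx, hx'⟩, hmax⟩ := Set.exists_max_image (X ×ˢ X)
    (fun e : W × W => len K.T l e.1 e.2) (hX.prod hX) ⟨(y, y'), hy, hy'⟩
  obtain ⟨v, hv, rfl, m⟩ := h x hx
  obtain ⟨v', hv', rfl, m'⟩ := h x' hx'
  have g := hv.grow hμ hE hv' k (by omega)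
  rw [zero_add, ← len_smul acyc acts u⁻¹ (fun e he => hl.smul _ e he) (v k)] at g
  have h1 := hmax (_, _) ⟨m, m'⟩
  have h2 := hmax (y, y') ⟨hy, hy'⟩
  have n0 := len_nonneg acyc nn (v 0) (v' 0)
  have hp : μ ≤ μ ^ k := le_self_pow₀ hμ.le (by omega)
  have k1 : len K.T l (v 0) (v' 0) ≤ 0 := by nlinarith
  have k2 : (K.T.dist y y' : ℝ) ≤ 0 := (hC _ _).1.trans (h2.trans k1)
  obtain ⟨w, hw, rfl, -⟩ := h y hy
  obtain ⟨w', hw', rfl, -⟩ := h y' hy'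
  exact eq_of_dist_zero (hw.reach hw' (by omega) 0 le_rfl (by omega))
    (Nat.le_zero.1 (by exact_mod_cast k2))

theorem exp_g3 (hE : K.M.EXP) (h : K.S'.Gall) : S.G3P S.Any := by
  classical
  obtain ⟨A⟩ := K.exists_anc
  obtain ⟨F0, hF0, H0⟩ := K.g3_start
  obtain ⟨F1, hF1, H1⟩ := K.exp_dist hE
  obtain ⟨F2, hF2, H2⟩ := K.lam_flow
  obtain ⟨F3, hF3, H3⟩ := K.g3_vertex h
  obtain ⟨F4, hF4, H4⟩ := Anc.tel (K := K)
  let n0 : ℕ → ℕ := fun L => A.F (F0 L) + A.F (F0 L) + L + (F1 (A.F (F0 L)) + 1)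
  have hn0 : Bd n0 := (((A.bd.comp hF0).add (A.bd.comp hF0)).add Bd.id).add
    ((hF1.comp (A.bd.comp hF0)).add (Bd.const 1))
  let R : ℕ → ℕ := fun L => Bd.it F2 (n0 L) + F0 L + F3 L
  have hR : Bd R := ((hF2.it_bd.comp hn0).add hF0).add hF3
  refine ⟨fun L => F0 L + F4 (R L), hF0.add (hF4.comp hR), ?_⟩
  intro L k u p p' hp hp' ha _
  beta_reduce
  have hk := hp.pos
  have hkL := hp.le
  rcases H0 L k u p p' hp hp' ha with hc | ⟨z, z', hz, hz', n1, n2, n3, n4⟩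
  · exact ⟨1, Commute.one_left u, fun _ => one_smul _ _, by rw [one_smul]; exact hc.mono (by omega)⟩
  have hD : K.T.dist (z 0) (z' 0) ≤ F1 (A.F (F0 L)) :=
    H1 _ k u _ z z' hk (hz.mono le_rfl (by omega)) (hz'.mono le_rfl (by omega))
      (near_reach n1 n2) (near_reach n3 n4) (A.n1d _ _ _ _ n1 n2) (A.n1d _ _ _ _ n3 n4)
  have r0 := hz.reach hz' (by omega) 0 le_rfl (by omega)
  have nd' : S.nd (S.s (p' 0)) = S.nd (S.s (p 0)) := by rw [S.nd_s, S.nd_s, ha]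
  have pr : ∀ (c : S.V) (y : W), ∃ q, S.nd c = K.Z.ν y → K.IsPr c y q := fun c y => by
    by_cases e : S.nd c = K.Z.ν y
    · obtain ⟨q, hq⟩ := exists_pr e
      exact ⟨q, fun _ => hq⟩
    · exact ⟨n1.choose, fun e' => absurd e' e⟩
  choose q hq using pr
  let Λ : W → ℕ := fun y => K.S'.B.dist (q (S.s (p 0)) y) (q (S.s (p' 0)) y)
  have hΛ : ∀ y x x' r, K.IsPr (S.s (p 0)) y x → K.IsPr (S.s (p' 0)) y x' →
      S.nd (S.s (p 0)) = K.Z.ν y → (K.S'.Cl r x x' ↔ Λ y ≤ r) := fun y x x' r hx hx' e => by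
    rw [hx.unique (hq _ _ e), hx'.unique (hq _ _ (nd'.trans e))]
    exact ⟨fun hc => hc.2, fun hc => ⟨(hq _ _ e).1.trans (hq _ _ (nd'.trans e)).1.symm, hc⟩⟩
  let θ : ℕ → ℕ := fun j => (fun m => F2 m + m)^[j] (n0 L)
  have hfin := btw_finite (acyc (K := K)) (z 0) (z' 0)
  obtain ⟨j, hj, gap⟩ := exists_gap θ (fun _ _ hij => Bd.iter_le_iter F2 hij _)
    (hfin.toFinset.image Λ)
  have hj' : j ≤ n0 L := by
    have := Finset.card_image_le (s := hfin.toFinset) (f := Λ)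
    rw [← Set.ncard_eq_toFinset_card _ hfin, ncard_btw acyc r0] at this
    simp only [n0]; omega
  have t0 : n0 L ≤ θ j := Bd.le_iter F2 j _
  have t1 : θ j ≤ Bd.it F2 (n0 L) := Bd.iter_le_iter F2 hj' _
  have t2 : θ (j + 1) = F2 (θ j) + θ j := Function.iterate_succ_apply' _ _ _
  have t3 : A.F (F0 L) + A.F (F0 L) + L + (F1 (A.F (F0 L)) + 1) ≤ θ j := t0
  have hν : ∀ y, Btw K.T (z 0) y (z' 0) → S.nd (S.s (p 0)) = K.Z.ν y := fun y hy =>
    (near_nd n1).trans ((K.Z.ν_eq _ _).2 hy.1)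
  have step : ∀ y ∈ {y | Btw K.T (z 0) y (z' 0) ∧ θ j < Λ y},
      ∃ v, K.Fl (fun l => S.arr (p l)) v 0 k ∧ v 0 = y ∧
        u⁻¹ • v k ∈ {y | Btw K.T (z 0) y (z' 0) ∧ θ j < Λ y} := by
    rintro y ⟨hy, hy'⟩
    obtain ⟨v, hv, rfl, -⟩ := hz.btw hz' hy
    refine ⟨v, hv.mono le_rfl (by omega), rfl, ?_⟩
    have e1 := hp.per 0
    have e2 := hp'.per 0
    rw [zero_add] at e1 e2
    have e : S.nd (S.s (p 0)) = K.Z.ν (u⁻¹ • v k) := by
      rw [K.Z.ν_smul, K.M.src _ _ _ (hv k (by omega) (by omega))]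
      beta_reduce
      rw [e1, S.arr_smul, S.src_smul, inv_smul_smul, S.nd_s]
    have q1 := hq _ _ e
    have q2 := hq _ _ (nd'.trans e)
    have big : θ j < Λ (u⁻¹ • v k) := by
      by_contra hle
      have c1 := ((hΛ _ _ _ _ q1 q2 e).2 (not_lt.1 hle)).smul u
      have q3 := q1.smul u
      have q4 := q2.smul u
      rw [smul_inv_smul, ← S.s_smul] at q3 q4
      rw [← e1] at q3
      rw [← e2] at q4
      have c2 := H2 (θ j) p p' v 0 k _ _ _ _ (by omega) (by omega)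
        ((hp.mono (by omega)).chain _ _) ((hp'.mono (by omega)).chain _ _) (fun l _ _ => ha l)
        (hv.mono le_rfl (by omega)) (hq _ _ (hν _ hy)) (hq _ _ (nd'.trans (hν _ hy))) q3 q4 c1
      have c3 : Λ (v 0) ≤ F2 (θ j) := c2.2
      rcases gap _ (Finset.mem_image_of_mem Λ (hfin.mem_toFinset.2 hy)) with h1 | h1 <;> omega
    refine ⟨(A.far n1 n3 q1 q2).resolve_right fun hc => ?_, big⟩
    have := (hΛ _ _ _ _ q1 q2 e).1 hc
    omega
  have uq := exp_fix hE hk (hfin.subset fun y hy => hy.1) step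
  obtain ⟨e, he, hc⟩ := H4 (Ecm u fun l => S.arr (p l)) (R L) _ _ _ _
    (near_mono n1 (by simp only [R]; omega)) (near_mono n3 (by simp only [R]; omega)) r0
    (by simp only [R]; omega) (fun y x x' hy hx hx' => by
      by_cases hb : θ j < Λ y
      · obtain ⟨v, hv, rfl, m⟩ := step y ⟨hy, hb⟩
        obtain ⟨w, hw, w0⟩ := hv.per hk hp.arr_per (by
          rw [uq _ ⟨hy, hb⟩ _ m, smul_inv_smul])
        obtain ⟨g, g1, g2, g3⟩ := H3 L k u p p' w x x' hp hp' ha hw (by rw [w0]; exact hx)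
          (by rw [w0]; exact hx')
        exact ⟨g, ⟨g1, g2⟩, g3.mono (by simp only [R]; omega)⟩
      · refine ⟨1, (Ecm u _).one_mem, ?_⟩
        rw [one_smul]
        exact (hΛ _ _ _ _ hx hx' (hν _ hy)).2 (by simp only [R]; omega))
  exact ⟨e, he.1, he.2, hc.mono (by omega)⟩

end Mc

end CPOR
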