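import Pool.Agent.P.MP_2cb329_al.F.MAnc

/-! Machines: small elements and anchors. -/

set_option autoImplicit false

namespace CPOR
open ZT MulAction

variable {G : Type} [Group G] {N : Type} [MulAction G N] {S : Sys G N} {W : Type} [MulAction G W]

namespace Mc

variable {K : Mc S W} (A : K.Anc)

theorem Anc.mel_two {L : ℕ} {x : G} {p : S.V} (h : S.Cl L p (x • p)) :
    ∃ w, K.Near (L + A.F 0) p w ∧ K.Near (L + A.F 0) p (x • w) := by
  obtain ⟨w, hw⟩ := A.ex p
  exact ⟨w, near_mono hw (Nat.le_add_left _ _), near_cl h (near_smul x hw)⟩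

theorem mel_pr_nd {c : S.V} {y : W} {q : K.S'.V} (hq : K.IsPr c y q) : S.nd c = K.Z.ν y := by
  have h := (hq.2 q hq.1).1
  rw [(S.nd_eq _ _).2 h, K.O.nd_V, hq.1, K.hν]

/-- (El) A small element has a fixed or straight point near the point it moves little. -/
theorem Anc.el {L : ℕ} {x : G} {p : S.V} (h : S.Cl L p (x • p)) :
    ∃ y, K.Ch x y ∧ K.Near (A.F (L + A.F 0)) p y := by
  obtain ⟨w, h1, h2⟩ := A.mel_two h
  rcases ell_or_hyp K.acyc K.acts K.Z.gf.noinv x (near_reach h1 h2) with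
    ⟨y, hy, hfix⟩ | ⟨a, l, ha, hb⟩
  · refine ⟨y, ?_, A.n1v _ p w (x • w) y h1 h2 hy⟩
    unfold Ch
    rw [hfix, hfix]
    exact btw_left (SimpleGraph.Reachable.refl y)
  · refine ⟨a 0, ?_, A.n1v _ p w (x • w) (a 0) h1 h2 (hb 0 le_rfl (Int.natCast_nonneg l))⟩
    unfold Ch
    rw [ha.2.2, ha.2.2]
    exact Line.btw K.acyc ha.1 (by omega) (by omega)

theorem Anc.mel_shift {x : G} {c : ℤ → W} {l : ℕ} (h : IsAxis K.T x c l) (j m : ℤ) :
    A.anc (c (m + j * l), c (m + j * l + 1)) = x ^ j • A.anc (c m, c (m + 1)) := by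
  rw [← A.smul _ _ _ (h.1.1 m), h.zpow_smul, h.zpow_smul]
  congr 3
  ring

/-- Anchors along the axis of a small element. -/
theorem Anc.axis : ∃ F, Bd F ∧ ∀ (L : ℕ) (x : G) (c : ℤ → W) (l : ℕ), IsAxis K.T x c l →
    S.TL L x (K.Z.ν (c 0)) →
    ∀ m : ℤ, S.Cl (F L) (A.anc (c (m + 1), c m)) (A.anc (c (m + 1), c (m + 2))) := by
  have hb : Bd (fun L => L + A.F (L + A.F 0)) :=
    Bd.id.add (A.bd.comp (Bd.id.add (Bd.const _)))
  refine ⟨fun L => A.F 0 + ((L + A.F (L + A.F 0)) + (L + A.F (L + A.F 0))),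
    (Bd.const _).add (hb.add hb), ?_⟩
  rintro L x c l hax ⟨p, hp, hcl⟩ m
  obtain ⟨w, h1, h2⟩ := A.mel_two hcl
  have hT := K.acyc
  have hr : K.T.Reachable w (c 0) := (K.Z.ν_eq _ _).1 ((near_nd h1).symm.trans hp)
  obtain ⟨i, hi, -, -, hi2⟩ := IsAxis.disp hT K.acts hax hr
  have hl : 1 ≤ l := hax.2.1
  have k1 : ∀ n : ℤ, i ≤ n → n < i + l →
      S.Cl (A.F (L + A.F 0)) p (A.anc (c n, c (n + 1))) := by
    intro n hn1 hn2
    refine A.n1e _ p w (x • w) _ _ h1 h2 ⟨hax.1.1 n, ?_, ?_⟩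
    · exact ((hi (n + 1)).trans_right (Line.btw hT hax.1 hn1 (by omega))).1
    · have b1 : Btw K.T w (c n) (c (i + l)) :=
        ((hi (i + l)).trans_right (Line.btw hT hax.1 hn1 hn2.le)).1
      have b2 := (hi2.trans_left b1).2
      exact (b2.trans_left (Line.btw hT hax.1 (by omega) (by omega))).1
  have k2 : ∀ n : ℤ, i ≤ n → n ≤ i + l →
      S.Cl (L + A.F (L + A.F 0)) p (A.anc (c n, c (n + 1))) := by
    intro n hn1 hn2
    rcases hn2.lt_or_eq with hn | hn
    · exact (k1 n hn1 hn).mono (Nat.le_add_left _ _)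
    · have e := A.mel_shift hax 1 i
      rw [one_mul, zpow_one, ← hn] at e
      rw [e]
      exact hcl.trans ((k1 i le_rfl (by omega)).smul x)
  have hl0 : (0 : ℤ) < l := by exact_mod_cast hl
  obtain ⟨n, j, hn1, hn2, rfl⟩ : ∃ n j : ℤ, i ≤ n ∧ n < i + l ∧ m = n + j * l := by
    refine ⟨i + (m - i) % l, (m - i) / l, ?_, ?_, ?_⟩
    · have := Int.emod_nonneg (m - i) hl0.ne'
      omega
    · have := Int.emod_lt_of_pos (m - i) hl0
      omega
    · have := Int.emod_add_mul_ediv (m - i) l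
      linarith [mul_comm ((m - i) / l) (l : ℤ)]
  have e1 := A.mel_shift hax j n
  have e2 := A.mel_shift hax j (n + 1)
  rw [show n + 1 + j * l = n + j * l + 1 by ring,
    show n + j * l + 1 + 1 = n + j * l + 2 by ring] at e2
  refine (A.rev _ _ (hax.1.1 (n + j * l))).symm.trans ?_
  rw [e1, e2]
  exact ((k2 n hn1 hn2.le).symm.trans (k2 (n + 1) (by omega) (by omega))).smul _

/-- Two points near two common vertices are close. -/
theorem Anc.near_two {r : ℕ} {c c' : S.V} {x y : W} (h1 : K.Near r c x) (h2 : K.Near r c y)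
    (h3 : K.Near r c' x) (h4 : K.Near r c' y) (hne : x ≠ y) : S.Cl (A.F r + A.F r) c c' := by
  have hs := sep_nxt K.acyc (near_reach h1 h2) hne
  exact (A.n1e r c x y _ _ h1 h2 hs).trans (A.n1e r c' x y _ _ h3 h4 hs).symm

/-- Telescoping along a geodesic of the splitting. -/
theorem Anc.tel : ∃ F, Bd F ∧ ∀ (E : Subgroup G) (r : ℕ) (c c' : S.V) (x x' : W),
    K.Near r c x → K.Near r c' x' → K.T.Reachable x x' → K.T.dist x x' ≤ r →
    (∀ y q q', Btw K.T x y x' → K.IsPr c y q → K.IsPr c' y q' →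
      ∃ e ∈ E, K.S'.Cl r q (e • q')) →
    ∃ e ∈ E, S.Cl (F r) c (e • c') := by
  obtain ⟨A⟩ := exists_anc K
  refine ⟨fun r => r + r + r * (A.F r + A.F 0 + A.F r + r) + r,
    ((Bd.id.add Bd.id).add (Bd.id.mul (((A.bd.add (Bd.const _)).add A.bd).add Bd.id))).add Bd.id,
    ?_⟩
  intro E r c c' x x' h1 h2 hr hd hE
  obtain ⟨a, a0, aD, hadj, hdist, hb⟩ := exists_geod hr
  have n1 : ∀ j ≤ K.T.dist x x', S.nd c = K.Z.ν (a j) := fun j hj =>
    (near_nd h1).trans ((K.Z.ν_eq _ _).2 (hb j hj).1)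
  have n2 : ∀ j ≤ K.T.dist x x', S.nd c' = K.Z.ν (a j) := fun j hj =>
    (near_nd h2).trans ((K.Z.ν_eq _ _).2 (hb j hj).2.1).symm
  have hV : ∀ y q q', Btw K.T x y x' → K.IsPr c y q → K.IsPr c' y q' →
      ∃ e ∈ E, S.Cl r (K.O.V q) (e • K.O.V q') := by
    intro y q q' hy hq hq'
    obtain ⟨e, he, hc⟩ := hE y q q' hy hq hq'
    exact ⟨e, he, by rw [← K.O.V_smul]; exact cl_V hc⟩
  have key : ∀ j ≤ K.T.dist x x', ∀ q', K.IsPr c' (a j) q' →
      ∃ e ∈ E, S.Cl (r + r + j * (A.F r + A.F 0 + A.F r + r)) c (e • K.O.V q') := by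
    intro j
    induction j with
    | zero =>
      intro hj q' hq'
      obtain ⟨q, hq⟩ := exists_pr (n1 0 hj)
      obtain ⟨e, he, hc⟩ := hV _ q q' (hb 0 hj) hq hq'
      refine ⟨e, he, ?_⟩
      have : S.Cl r c (K.O.V q) := Over.IsPr.cl_of_near hq (by rw [a0]; exact h1)
      exact (this.trans hc).mono (Nat.le_add_right _ _)
    | succ j ih =>
      intro hj q' hq'
      obtain ⟨u', hu'⟩ := exists_pr (n2 j (by omega))
      obtain ⟨e, he, hc⟩ := ih (by omega) u' hu'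
      obtain ⟨q, hq⟩ := exists_pr (n1 (j + 1) hj)
      obtain ⟨e', he', hc'⟩ := hV _ q q' (hb (j + 1) hj) hq hq'
      have ha := hadj j (by omega)
      have b1 : Btw K.T x (a j) (a (j + 1)) := by
        have d1 := hdist 0 j (Nat.zero_le _) (by omega)
        have d2 := hdist 0 (j + 1) (Nat.zero_le _) hj
        have d3 := hdist j (j + 1) (Nat.le_succ _) hj
        rw [a0] at d1 d2
        exact ⟨d1.1, d3.1, by rw [d1.2, d2.2, d3.2]; omega⟩
      have b2 : Btw K.T (a j) (a (j + 1)) x' := ((hb (j + 1) hj).trans_left b1).2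
      have c1 := A.p1 r c' x' _ _ u' h2 ha b2 hu'
      have c2 := A.rev _ _ ha
      have c3 := A.p1 r c x _ _ q h1 ha.symm b1.symm hq
      refine ⟨e * e', E.mul_mem he he', ?_⟩
      rw [mul_smul]
      refine (hc.trans ((((c1.trans c2).trans c3.symm).trans hc').smul e)).mono (le_of_eq ?_)
      ring
  obtain ⟨q', hq'⟩ := exists_pr (n2 _ le_rfl)
  obtain ⟨e, he, hc⟩ := key _ le_rfl q' hq'
  refine ⟨e, he, ?_⟩
  have : S.Cl r c' (K.O.V q') := Over.IsPr.cl_of_near hq' (by rw [aD]; exact h2)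
  refine (hc.trans (this.symm.smul e)).mono ?_
  exact Nat.add_le_add_right (Nat.add_le_add_left (Nat.mul_le_mul_right _ hd) _) _

/-- Far apart projections only occur between the two base vertices. -/
theorem Anc.far {r : ℕ} {c c' : S.V} {x x' y : W} {q q' : K.S'.V} (h1 : K.Near r c x)
    (h2 : K.Near r c' x') (hq : K.IsPr c y q) (hq' : K.IsPr c' y q') :
    Btw K.T x y x' ∨ K.S'.Cl (A.F r + A.F r) q q' := by
  have r1 : K.T.Reachable x y := (K.Z.ν_eq _ _).1 ((near_nd h1).symm.trans (mel_pr_nd hq))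
  have r2 : K.T.Reachable x' y := (K.Z.ν_eq _ _).1 ((near_nd h2).symm.trans (mel_pr_nd hq'))
  obtain ⟨m, m1, m2, m3⟩ := exists_median K.acyc r1 r2.symm
  by_cases hm : y = m
  · exact Or.inl (hm ▸ m3)
  · right
    obtain ⟨ha, -, hb⟩ := sep_nxt K.acyc m2.1 hm
    have c1 := A.p1 r c x _ _ q h1 ha (m1.symm.trans_left hb).1 hq
    have c2 := A.p1 r c' x' _ _ q' h2 ha (m2.trans_left hb).1 hq'
    exact cl_of_V (hq.1.trans hq'.1.symm) (c1.trans c2.symm)

end Mc

end CPOR
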