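import Pool.Agent.P.MP_2cb329_al.F.MB

/-! Machines: partial isometries of a forest. -/

set_option autoImplicit false

namespace CPOR
open ZT

variable {V : Type} {T : SimpleGraph V} {F F' : V → V} {D : Set V}

namespace PIso

theorem reach (h : PIso T F D) {x y : V} (hx : x ∈ D) (hy : y ∈ D) : T.Reachable x y :=
  (h.cvx x hx y hy).1

theorem mem (h : PIso T F D) {x y z : V} (hx : x ∈ D) (hz : z ∈ D) (hb : Btw T x y z) : y ∈ D :=
  (h.cvx x hx z hz).2 y hb

theorem dist (h : PIso T F D) {x y : V} (hx : x ∈ D) (hy : y ∈ D) :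
    T.dist (F x) (F y) = T.dist x y := (h.iso x hx y hy).2

theorem btw (hT : T.IsAcyclic) (h : PIso T F D) {x y z : V} (hx : x ∈ D) (hz : z ∈ D)
    (hb : Btw T x y z) : Btw T (F x) (F y) (F z) := by
  have _ := hT
  have hy := h.mem hx hz hb
  refine ⟨(h.iso x hx y hy).1, (h.iso y hy z hz).1, ?_⟩
  rw [h.dist hx hy, h.dist hy hz, h.dist hx hz]
  exact hb.2.2

theorem inj (h : PIso T F D) {x y : V} (hx : x ∈ D) (hy : y ∈ D) (e : F x = F y) : x = y := by
  refine eq_of_dist_zero (h.reach hx hy) ?_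
  rw [← h.dist hx hy, e, SimpleGraph.dist_self]

/-- Points between two long-lived points are long-lived. -/
theorem alive (hT : T.IsAcyclic) (h : PIso T F D) {x y z : V} {J : ℕ}
    (hx : ∀ j < J, F^[j] x ∈ D) (hz : ∀ j < J, F^[j] z ∈ D) (hb : Btw T x y z) :
    (∀ j < J, F^[j] y ∈ D) ∧ ∀ j ≤ J, Btw T (F^[j] x) (F^[j] y) (F^[j] z) := by
  have key : ∀ j ≤ J, Btw T (F^[j] x) (F^[j] y) (F^[j] z) := by
    intro j
    induction j with
    | zero => exact fun _ => hb
    | succ j ih =>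
      intro hj
      rw [Function.iterate_succ_apply', Function.iterate_succ_apply',
        Function.iterate_succ_apply']
      exact h.btw hT (hx j hj) (hz j hj) (ih (by omega))
  exact ⟨fun j hj => h.mem (hx j hj) (hz j hj) (key j hj.le), key⟩

theorem iso_iter (h : PIso T F D) {x y : V} {J : ℕ} (hx : ∀ j < J, F^[j] x ∈ D)
    (hy : ∀ j < J, F^[j] y ∈ D) (hr : T.Reachable x y) :
    T.Reachable (F^[J] x) (F^[J] y) ∧ T.dist (F^[J] x) (F^[J] y) = T.dist x y := by
  induction J with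
  | zero => exact ⟨hr, rfl⟩
  | succ J ih =>
    rw [Function.iterate_succ_apply', Function.iterate_succ_apply']
    have h1 := h.iso _ (hx J (by omega)) _ (hy J (by omega))
    exact ⟨h1.1, h1.2.trans (ih (fun j hj => hx j (by omega)) fun j hj => hy j (by omega)).2⟩

theorem reach_iter (h : PIso T F D) {x y : V} {J : ℕ} (hx : x ∈ D) (hJ : 2 ≤ J)
    (hy : ∀ j < J, F^[j] y ∈ D) : T.Reachable x (F^[J] y) := by
  obtain ⟨k, rfl⟩ : ∃ k, J = k + 2 := ⟨J - 2, by omega⟩
  have h1 := (h.iso _ (hy k (by omega)) _ (hy (k + 1) (by omega))).1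
  rw [← Function.iterate_succ_apply' F k, ← Function.iterate_succ_apply' F (k + 1)] at h1
  exact (h.reach hx (hy (k + 1) (by omega))).trans h1

/-- Fixed vertex, inverted edge or straight point. -/
theorem qi (hT : T.IsAcyclic) (h : PIso T F D) {z : V} (hz : z ∈ D) (hz' : F z ∈ D) :
    (∃ x, Btw T z x (F z) ∧ F x = x) ∨
      (∃ x y, T.Adj x y ∧ Btw T z x (F z) ∧ Btw T z y (F z) ∧ F x = y ∧ F y = x) ∨
      ∃ p, Btw T z p (F z) ∧ Btw T z (F p) (F z) ∧ p ≠ F p ∧ Btw T p (F p) (F (F p)) := by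
  have r1 := h.reach hz hz'
  obtain ⟨m, m1, m2, m3⟩ := exists_median hT r1 (h.iso z hz _ hz').1
  have em := m1.2.2
  have ec : T.dist m (F z) = T.dist (F z) m := SimpleGraph.dist_comm
  have key : ∀ y, Btw T z y (F z) → T.dist z y ≤ T.dist (F z) m →
      Btw T z (F y) (F z) ∧ T.dist z (F y) + T.dist z y = T.dist z (F z) := by
    intro y hy hd
    have h1 := h.btw hT hz hz' hy
    have h2 := h.dist hz (h.mem hz hz' hy)
    have h3 := (m1.symm.trans_left (h1.compare hT m2 (by omega)).1).1.symm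
    have h4 := h3.2.2
    rw [SimpleGraph.dist_comm (u := F y), h2] at h4
    exact ⟨h3, h4⟩
  by_cases hc : 2 * T.dist (F z) m < T.dist z (F z)
  · obtain ⟨p, hp, hd⟩ := exists_btw_dist r1 (i := T.dist (F z) m) (by omega)
    have e : F p = m := (h.btw hT hz hz' hp).unique hT m2 (by
      rw [h.dist hz (h.mem hz hz' hp), hd])
    have h1 := (hp.compare hT m1 (by omega)).1
    have h2 := (m2.compare hT (h.btw hT hz hz' m1) (by
      rw [h.dist hz (h.mem hz hz' m1)]
      omega)).2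
    refine Or.inr (Or.inr ⟨p, hp, e ▸ m1, fun e' => ?_, ?_⟩)
    · rw [e] at e'
      rw [e'] at hd
      omega
    · rw [e]
      exact ((m3.trans_right h2).2.trans_left h1).2
  rcases Nat.even_or_odd' (T.dist z (F z)) with ⟨t, ht | ht⟩
  · obtain ⟨x, hx, hd⟩ := exists_btw_dist r1 (i := t) (by omega)
    obtain ⟨h1, h2⟩ := key x hx (by omega)
    exact Or.inl ⟨x, hx, h1.unique hT hx (by omega)⟩
  · obtain ⟨x, hx, hd⟩ := exists_btw_dist r1 (i := t) (by omega)
    obtain ⟨y, hy, hd'⟩ := exists_btw_dist r1 (i := t + 1) (by omega)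
    obtain ⟨h1, h2⟩ := key x hx (by omega)
    obtain ⟨h3, h4⟩ := key y hy (by omega)
    have h5 := (hx.compare hT hy (by omega)).1.2.2
    exact Or.inr (Or.inl ⟨x, y, adj_of_dist_one (by omega), hx, hy, h1.unique hT hy (by omega),
      h3.unique hT hx (by omega)⟩)

theorem qi_fix (hT : T.IsAcyclic) (h : PIso T F D) {x z : V} (hx : x ∈ D) (e : F x = x)
    (hz : z ∈ D) (hz' : F z ∈ D) : ∃ x', Btw T z x' (F z) ∧ F x' = x' := by
  obtain ⟨m, m1, m2, m3⟩ := exists_median hT (h.reach hx hz) (h.reach hz hz')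
  have h1 := h.btw hT hx hz m1
  have h2 := h.dist hx (h.mem hx hz m1)
  rw [e] at h1 h2
  exact ⟨m, m2, h1.unique hT m3 h2⟩

theorem qi_inv (hT : T.IsAcyclic) (h : PIso T F D) {x y z : V} (ha : T.Adj x y) (hx : x ∈ D)
    (hy : y ∈ D) (e : F x = y) (e' : F y = x) (hz : z ∈ D) (hz' : F z ∈ D) :
    Btw T z x (F z) ∧ Btw T z y (F z) := by
  have _ := hz'
  rcases adj_btw hT ha (h.reach hx hz) with hb | hb
  · have h1 := h.btw hT hx hz hb
    rw [e, e'] at h1
    exact (hb.symm.glue hT h1 ha.ne.symm).symm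
  · have h1 := h.btw hT hy hz hb
    rw [e, e'] at h1
    exact hb.symm.glue hT h1 ha.ne

/-- The iterates of a straight point are aligned. -/
theorem straight (hT : T.IsAcyclic) (h : PIso T F D) {p : V} {J : ℕ}
    (hp : ∀ j < J, F^[j] p ∈ D) (hne : p ≠ F p) (hs : Btw T p (F p) (F (F p))) :
    (∀ i j l, i ≤ j → j ≤ l → l ≤ J → Btw T (F^[i] p) (F^[j] p) (F^[l] p)) ∧
      ∀ j ≤ J, T.dist p (F^[j] p) = j * T.dist p (F p) := by
  have hpos : T.dist p (F p) ≠ 0 := fun e => hne (eq_of_dist_zero hs.1 e)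
  have h1 : ∀ j, j + 1 ≤ J → T.Reachable (F^[j] p) (F^[j + 1] p) ∧
      T.dist (F^[j] p) (F^[j + 1] p) = T.dist p (F p) := fun j hj =>
    h.iso_iter (fun i hi => hp i (by omega)) (fun i hi => hp (i + 1) (by omega)) hs.1
  have h2 : ∀ j, j + 2 ≤ J → Btw T (F^[j] p) (F^[j + 1] p) (F^[j + 2] p) := fun j hj =>
    (h.alive hT (J := j) (fun i hi => hp i (by omega)) (fun i hi => hp (i + 2) (by omega))
      hs).2 j le_rfl
  have h3 : ∀ i k, i + k + 1 ≤ J → Btw T (F^[i] p) (F^[i + k] p) (F^[i + k + 1] p) := by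
    intro i k
    induction k with
    | zero => exact fun hk => btw_left (h1 i hk).1
    | succ k ih =>
      intro hk
      refine ((ih (by omega)).glue hT (h2 (i + k) (by omega)) fun e => hpos ?_).2
      rw [← (h1 (i + k) (by omega)).2, ← e, SimpleGraph.dist_self]
  have h4 : ∀ i k, i + k ≤ J → T.Reachable (F^[i] p) (F^[i + k] p) ∧
      T.dist (F^[i] p) (F^[i + k] p) = k * T.dist p (F p) := by
    intro i k
    induction k with
    | zero => exact fun _ => ⟨SimpleGraph.Reachable.refl _, by simp⟩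
    | succ k ih =>
      intro hk
      have h5 := h3 i k hk
      refine ⟨h5.reach, ?_⟩
      have h6 := h5.2.2
      rw [(ih (by omega)).2, (h1 (i + k) hk).2] at h6
      rw [Nat.succ_mul]
      exact h6.symm
  refine ⟨fun i j l hij hjl hl => ?_, fun j hj => ?_⟩
  · obtain ⟨a, rfl⟩ := Nat.exists_eq_add_of_le hij
    obtain ⟨b, rfl⟩ := Nat.exists_eq_add_of_le hjl
    refine ⟨(h4 i a (by omega)).1, (h4 (i + a) b hl).1, ?_⟩
    rw [(h4 i a (by omega)).2, (h4 (i + a) b hl).2, Nat.add_assoc,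
      (h4 i (a + b) (by omega)).2, Nat.add_mul]
  · have := (h4 0 j (by omega)).2
    rwa [Nat.zero_add] at this

theorem ahead_one (hT : T.IsAcyclic) (h : PIso T F D) {p p' m : V} (hp : p ∈ D) (hp1 : F p ∈ D)
    (hp' : p' ∈ D) (hs : Btw T p (F p) (F (F p))) (m1 : Btw T p m p') (m3 : Btw T p m (F p))
    (hm : p ≠ m) : Btw T p (F p) (F p') :=
  ((hs.trans_right (h.btw hT hp hp1 m3)).2.glue hT (h.btw hT hp hp' m1)
    fun e => hm (h.inj hp (h.mem hp hp' m1) e)).1

theorem ahead_two (hT : T.IsAcyclic) (h : PIso T F D) {p p' : V} (hp : p ∈ D)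
    (hp' : p' ∈ D) (hp1' : F p' ∈ D) (hne : p ≠ F p)
    (hne' : p' ≠ F p') (hs' : Btw T p' (F p') (F (F p'))) (b1 : Btw T p p' (F p'))
    (b2 : Btw T p (F p) (F p')) :
    ∃ (y : V) (J : ℕ), y ≠ F y ∧ Btw T y (F y) (F (F y)) ∧ (∀ j ≤ J + 1, F^[j] y ∈ D) ∧
      Btw T p y (F p) ∧ F^[J] y = p' := by
  have hpos : 0 < T.dist p (F p) := Nat.pos_of_ne_zero fun e => hne (eq_of_dist_zero b2.1 e)
  have e1 := b1.2.2
  have e2 := b2.2.2
  rw [h.dist hp hp'] at e2
  generalize hδ : T.dist p (F p) = δ at hpos e2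
  have step : ∀ y, Btw T p y (F p') → T.dist p y ≤ T.dist p p' →
      y ∈ D ∧ Btw T p (F y) (F p') ∧ T.dist p (F y) = T.dist p y + δ := by
    intro y hy hd
    have h1 := (hy.compare hT b1 hd).1
    obtain ⟨h2, h3⟩ := b2.trans_right (h.btw hT hp hp' h1)
    have h4 := h3.2.2
    rw [h.dist hp (h.mem hp hp' h1), hδ] at h4
    exact ⟨h.mem hp hp' h1, h2, by omega⟩
  have hdm := Nat.div_add_mod' (T.dist p p') δ
  have hlt := Nat.mod_lt (T.dist p p') hpos
  generalize T.dist p p' / δ = J at hdm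
  generalize T.dist p p' % δ = r at hdm hlt
  obtain ⟨y, hy, hd⟩ := exists_btw_dist b1.reach (i := r) (by omega)
  have key : ∀ j ≤ J + 1, Btw T p (F^[j] y) (F p') ∧ T.dist p (F^[j] y) = j * δ + r := by
    intro j
    induction j with
    | zero => exact fun _ => ⟨hy, by simpa using hd⟩
    | succ j ih =>
      intro hj
      obtain ⟨h1, h2⟩ := ih (by omega)
      have h3 := Nat.mul_le_mul_right δ (show j ≤ J by omega)
      obtain ⟨-, h4, h5⟩ := step _ h1 (by omega)
      rw [Function.iterate_succ_apply', Nat.succ_mul]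
      exact ⟨h4, by omega⟩
  have hJ : F^[J] y = p' := (key J (by omega)).1.unique hT b1 (by
    rw [(key J (by omega)).2]
    exact hdm)
  have hmem : ∀ j ≤ J + 1, F^[j] y ∈ D := fun j hj => h.mem hp hp1' (key j hj).1
  rcases Nat.eq_zero_or_pos J with rfl | hJ0
  · have e : y = p' := hJ
    refine ⟨y, 0, e ▸ hne', e ▸ hs', hmem, (hy.compare hT b2 (by omega)).1, hJ⟩
  obtain ⟨k1, k1'⟩ := key 1 (by omega)
  obtain ⟨k2, k2'⟩ := key 2 (by omega)
  change Btw T p (F y) (F p') at k1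
  change T.dist p (F y) = _ at k1'
  change Btw T p (F (F y)) (F p') at k2
  change T.dist p (F (F y)) = _ at k2'
  refine ⟨y, J, fun e => ?_, ?_, hmem, (hy.compare hT b2 (by omega)).1, hJ⟩
  · rw [← e] at k1'
    omega
  · exact ((k1.compare hT k2 (by omega)).1.trans_left (hy.compare hT k1 (by omega)).1).2

/-- Of two straight points one is an iterate of a straight point near the other. -/
theorem ahead (hT : T.IsAcyclic) (h : PIso T F D) {p p' : V} (hp : p ∈ D) (hp1 : F p ∈ D)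
    (hp' : p' ∈ D) (hp1' : F p' ∈ D) (hne : p ≠ F p) (hs : Btw T p (F p) (F (F p)))
    (hne' : p' ≠ F p') (hs' : Btw T p' (F p') (F (F p'))) :
    ∃ (y : V) (J : ℕ), y ≠ F y ∧ Btw T y (F y) (F (F y)) ∧ (∀ j ≤ J + 1, F^[j] y ∈ D) ∧
      ((Btw T p y (F p) ∧ F^[J] y = p') ∨ (Btw T p' y (F p') ∧ F^[J] y = p)) := by
  obtain ⟨m, m1, m2, m3⟩ := exists_median hT (h.reach hp hp') (h.reach hp' hp1)
  obtain ⟨n, n1, n2, n3⟩ := exists_median hT (h.reach hp' hp) (h.reach hp hp1')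
  have ed := h.dist hp hp'
  have ec : T.dist p' p = T.dist p p' := SimpleGraph.dist_comm
  have ec' : T.dist (F p') (F p) = T.dist (F p) (F p') := SimpleGraph.dist_comm
  by_cases hm : p = m <;> by_cases hn : p' = n
  · subst hm
    subst hn
    by_cases e : p = p'
    · refine ⟨p, 0, hne, hs, fun j hj => ?_, Or.inl ⟨btw_left hs.1, e⟩⟩
      rcases Nat.le_one_iff_eq_zero_or_eq_one.1 hj with rfl | rfl
      · exact hp
      · exact hp1
    · exfalso
      have h1 := (m2.symm.glue hT n2 e).1.2.2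
      have h2 := n2.2.2
      exact hne' (eq_of_dist_zero hs'.1 (by omega))
  · subst hm
    obtain ⟨y, J, a1, a2, a3, a4⟩ := h.ahead_two hT hp' hp hp1 hne' hne hs m2
      (h.ahead_one hT hp' hp1' hp hs' n1 n3 hn)
    exact ⟨y, J, a1, a2, a3, Or.inr a4⟩
  · subst hn
    obtain ⟨y, J, a1, a2, a3, a4⟩ := h.ahead_two hT hp hp' hp1' hne hne' hs' n2
      (h.ahead_one hT hp hp1 hp' hs m1 m3 hm)
    exact ⟨y, J, a1, a2, a3, Or.inl a4⟩
  · exfalso
    have h1 := (h.ahead_one hT hp hp1 hp' hs m1 m3 hm).2.2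
    have h2 := (h.ahead_one hT hp' hp1' hp hs' n1 n3 hn).2.2
    have e1 := m1.2.2
    have e2 := m2.2.2
    have e3 := m3.2.2
    have e4 := n1.2.2
    have e5 := n2.2.2
    have e6 := n3.2.2
    have c1 : T.dist m p' = T.dist p' m := SimpleGraph.dist_comm
    have c2 : T.dist n p = T.dist p n := SimpleGraph.dist_comm
    exact hm (eq_of_dist_zero m1.1 (by omega))

/-- The middle of a long segment whose ends move little is shifted. -/
theorem shift (hT : T.IsAcyclic) (h : PIso T F D) {z z' : V} {c : ℕ} (hz : z ∈ D) (hz1 : F z ∈ D)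
    (hz' : z' ∈ D) (hz1' : F z' ∈ D) (d1 : T.dist z (F z) ≤ c) (d2 : T.dist z' (F z') ≤ c)
    (hΔ : 2 * c < T.dist z z') :
    ∃ α α' : ℕ, α + α' ≤ c ∧ ∀ y, Btw T z y z' → c ≤ T.dist z y → T.dist z y + c ≤ T.dist z z' →
      Btw T z (F y) z' ∧ T.dist z (F y) + α' = T.dist z y + α := by
  obtain ⟨a, a1, a2, a3⟩ := exists_median hT (h.reach hz hz') (h.reach hz' hz1)
  obtain ⟨b, b1, b2, b3⟩ := exists_median hT (h.reach hz hz') (h.reach hz' hz1')
  have e1 := a1.2.2
  have e2 := a3.2.2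
  have e3 := b1.2.2
  have e4 := b2.2.2
  have c1 : T.dist b z' = T.dist z' b := SimpleGraph.dist_comm
  have c2 : T.dist a (F z) = T.dist (F z) a := SimpleGraph.dist_comm
  obtain ⟨ab, ab'⟩ := a1.compare hT b1 (by omega)
  have hab : a ≠ b := fun e => by
    rw [e] at e2
    omega
  obtain ⟨g1, g2⟩ := (a2.symm.trans_right ab').2.glue hT (b3.trans_left ab).2 hab
  have e5 := g2.2.2
  rw [h.dist hz hz'] at e5
  refine ⟨T.dist z a, T.dist (F z) a, by omega, fun y hy h1 h2 => ?_⟩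
  have k1 := h.btw hT hz hz' hy
  have k2 := h.dist hz (h.mem hz hz' hy)
  have k3 := (g1.compare hT k1 (by omega)).1
  have k4 := (k1.compare hT g2 (by omega)).1
  have k5 := (k4.trans_left k3).2
  obtain ⟨k6, k7⟩ := ab.trans_right k5
  have e6 := k3.2.2
  have e7 := k7.2.2
  exact ⟨(b1.trans_left k6).1, by omega⟩

theorem drift_long (hT : T.IsAcyclic) (h : PIso T F D) {z z' : V} {J c : ℕ} (hJ : 2 ≤ J)
    (a1 : ∀ j < J, F^[j] z ∈ D) (a2 : ∀ j < J, F^[j] z' ∈ D)
    (d1 : T.dist z (F z) ≤ c) (d2 : T.dist z' (F z') ≤ c) (d5 : T.dist z (F^[J] z') ≤ c)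
    (hΔ : 7 * c < T.dist z z') :
    ∃ s : ℕ, T.dist z z' ≤ J * s + 7 * c ∧ J * s ≤ T.dist z z' + c ∧
      ∀ y, Btw T z y z' → c ≤ T.dist z y → T.dist z y + c ≤ T.dist z z' →
        Btw T z (F y) z' ∧ T.dist z (F y) + s = T.dist z y := by
  have hz : z ∈ D := a1 0 (by omega)
  have hz' : z' ∈ D := a2 0 (by omega)
  obtain ⟨α, α', hα, hs⟩ := h.shift hT hz (a1 1 (by omega)) hz' (a2 1 (by omega)) d1 d2 (by omega)
  obtain ⟨q, hq, hd⟩ := exists_btw_dist (h.reach hz hz') (i := T.dist z z' - 3 * c) (by omega)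
  have aq := (h.alive hT a1 a2 hq).1
  have eq := hq.2.2
  obtain ⟨i1, i2⟩ := h.iso_iter a2 aq hq.2.1.symm
  have c1 : T.dist z' q = T.dist q z' := SimpleGraph.dist_comm
  have t1 := dist_tri (h.reach_iter hz hJ a2) i1
  obtain ⟨k1, k1'⟩ := hs q hq (by omega) (by omega)
  obtain ⟨k2, k2'⟩ := hs (F q) k1 (by omega) (by omega)
  rcases lt_trichotomy α α' with hlt | heq | hgt
  · have b1 := (k1.compare hT hq (by omega)).1
    have b2 := (k2.compare hT k1 (by omega)).1
    have e1 := b1.2.2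
    have c2 : T.dist (F q) q = T.dist q (F q) := SimpleGraph.dist_comm
    have hne : q ≠ F q := fun e => by
      rw [← e] at k1'
      omega
    have e2 := (h.straight hT aq hne (b1.trans_left b2).2.symm).2 J le_rfl
    have e3 : T.dist q (F q) = α' - α := by omega
    rw [e3] at e2
    have rq := h.reach_iter hz hJ aq
    have t2 := dist_tri hq.1.symm rq
    have t3 := dist_tri rq (rq.symm.trans hq.1)
    have c3 : T.dist q z = T.dist z q := SimpleGraph.dist_comm
    have c4 : T.dist (F^[J] q) q = T.dist q (F^[J] q) := SimpleGraph.dist_comm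
    refine ⟨α' - α, by omega, by omega, fun y hy h1 h2 => ?_⟩
    obtain ⟨k3, k3'⟩ := hs y hy h1 h2
    exact ⟨k3, by omega⟩
  · exfalso
    have e : F q = q := k1.unique hT hq (by omega)
    rw [Function.iterate_fixed e J] at t1 i2
    omega
  · exfalso
    have b1 := (hq.compare hT k1 (by omega)).1
    have b2 := (k1.compare hT k2 (by omega)).1
    have hne : q ≠ F q := fun e => by
      rw [← e] at k1'
      omega
    have b3 : Btw T q (F q) (F^[J] q) :=
      (h.straight hT aq hne (b2.trans_left b1).2).1 0 1 J (by omega) (by omega) le_rfl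
    have e1 := (b1.glue hT b3 hne).1.2.2
    omega

theorem drift_short (hT : T.IsAcyclic) (h : PIso T F D) {z z' : V} {J c : ℕ} (hJ : 2 ≤ J)
    (a1 : ∀ j < J, F^[j] z ∈ D) (a2 : ∀ j < J, F^[j] z' ∈ D)
    (d1 : T.dist z (F z) ≤ c) (d5 : T.dist z (F^[J] z') ≤ c) :
    J ≤ 2 * c + 1 + T.dist z z' ∨
      ∃ x, Btw T z x (F z) ∧ Btw T z (F x) (F z) ∧ F (F x) = x := by
  have hz : z ∈ D := a1 0 (by omega)
  have hz' : z' ∈ D := a2 0 (by omega)
  rcases h.qi hT hz (a1 1 (by omega)) with ⟨x, h1, h2⟩ | ⟨x, y, -, h1, h2, h3, h4⟩ |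
    ⟨p, h1, -, h2, h3⟩
  · exact Or.inr ⟨x, h1, by rwa [h2], by rw [h2, h2]⟩
  · exact Or.inr ⟨x, h1, by rwa [h3], by rw [h3, h4]⟩
  left
  have rz := h.reach_iter hz hJ a2
  obtain ⟨i3, i4⟩ := h.iso_iter a2 a1 (h.reach hz' hz)
  obtain ⟨k, rfl⟩ : ∃ k, J = k + 1 := ⟨J - 1, by omega⟩
  have a3 : ∀ j < k, F^[j] (F z) ∈ D := fun j hj => a1 (j + 1) (by omega)
  have ap := (h.alive hT (fun j hj => a1 j (by omega)) a3 h1).1
  have e1 := (h.straight hT ap h2 h3).2 k le_rfl
  obtain ⟨i1, i2⟩ := h.iso_iter a3 ap h1.2.1.symm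
  rw [← Function.iterate_succ_apply] at i1 i2
  have t1 := dist_tri h1.1.symm (rz.trans (i3.trans i1))
  have t2 := dist_tri rz (i3.trans i1)
  have t3 := dist_tri i3 i1
  have e2 := h1.2.2
  have c1 : T.dist p z = T.dist z p := SimpleGraph.dist_comm
  have c2 : T.dist (F z) p = T.dist p (F z) := SimpleGraph.dist_comm
  have c3 : T.dist z' z = T.dist z z' := SimpleGraph.dist_comm
  have hpos : 1 ≤ T.dist p (F p) := Nat.pos_of_ne_zero fun e => h2 (eq_of_dist_zero h3.1 e)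
  have := Nat.mul_le_mul_left k hpos
  simp only [Nat.succ_eq_add_one] at i2
  omega

/-- Two partial isometries that carry the far end of a segment back to its near end. -/
theorem drift (hT : T.IsAcyclic) (h : PIso T F D) (h' : PIso T F' D) {z z' : V} {J c : ℕ}
    (a1 : ∀ j < J, F^[j] z ∈ D) (a2 : ∀ j < J, F^[j] z' ∈ D)
    (a3 : ∀ j < J, F'^[j] z ∈ D) (a4 : ∀ j < J, F'^[j] z' ∈ D)
    (d1 : T.dist z (F z) ≤ c) (d2 : T.dist z' (F z') ≤ c)
    (d3 : T.dist z (F' z) ≤ c) (d4 : T.dist z' (F' z') ≤ c)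
    (d5 : T.dist z (F^[J] z') ≤ c) (d6 : T.dist z (F'^[J] z') ≤ c) :
    J ≤ 14 * c + 3 ∨ (∃ x ∈ D, ∃ y ∈ D, T.Adj x y ∧ F x = F' x ∧ F y = F' y) ∨
      ((∃ x, Btw T z x (F z) ∧ Btw T z (F x) (F z) ∧ F (F x) = x) ∧
        ∃ x, Btw T z x (F' z) ∧ Btw T z (F' x) (F' z) ∧ F' (F' x) = x) := by
  by_cases hJ : J ≤ 14 * c + 3
  · exact Or.inl hJ
  right
  by_cases hΔ : 7 * c < T.dist z z'
  · left
    obtain ⟨s, s1, s2, s3⟩ := h.drift_long hT (by omega) a1 a2 d1 d2 d5 hΔ
    obtain ⟨s', s1', s2', s3'⟩ := h'.drift_long hT (by omega) a3 a4 d3 d4 d6 hΔ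
    have e : s = s' := by
      rcases lt_trichotomy s s' with hlt | heq | hgt
      · have := Nat.mul_le_mul_left J (show s + 1 ≤ s' from hlt)
        rw [Nat.mul_succ] at this
        omega
      · exact heq
      · have := Nat.mul_le_mul_left J (show s' + 1 ≤ s from hgt)
        rw [Nat.mul_succ] at this
        omega
    subst e
    have hz : z ∈ D := a1 0 (by omega)
    have hz' : z' ∈ D := a2 0 (by omega)
    obtain ⟨x, hx, ex⟩ := exists_btw_dist (h.reach hz hz') (i := c) (by omega)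
    obtain ⟨y, hy, ey⟩ := exists_btw_dist (h.reach hz hz') (i := c + 1) (by omega)
    have e1 := (hx.compare hT hy (by omega)).1.2.2
    have key : ∀ w, Btw T z w z' → c ≤ T.dist z w → T.dist z w + c ≤ T.dist z z' →
        F w = F' w := fun w h1 h2 h3 => by
      obtain ⟨k1, k2⟩ := s3 w h1 h2 h3
      obtain ⟨k3, k4⟩ := s3' w h1 h2 h3
      exact k1.unique hT k3 (by omega)
    exact ⟨x, h.mem hz hz' hx, y, h.mem hz hz' hy, adj_of_dist_one (by omega),
      key x hx (by omega) (by omega), key y hy (by omega) (by omega)⟩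
  · right
    exact ⟨(h.drift_short hT (by omega) a1 a2 d1 d5).resolve_left (by omega),
      (h'.drift_short hT (by omega) a3 a4 d3 d6).resolve_left (by omega)⟩

end PIso

end CPOR
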