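import Pool.Agent.P.MP_2cb329_al.F.MLen
import Pool.Agent.P.MP_2cb329_al.F.MQ

/-! Machines: flow lines. -/

set_option autoImplicit false

namespace CPOR
open ZT MulAction

variable {G : Type} [Group G] {N : Type} [MulAction G N] {S : Sys G N} {W : Type} [MulAction G W]

private theorem mfl_up (P : ℤ → Prop) {l j : ℤ} (h0 : P l)
    (hs : ∀ m, l ≤ m → m < j → P m → P (m + 1)) : ∀ m, l ≤ m → m ≤ j → P m := by
  intro m hm
  induction m, hm using Int.leInduction with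
  | base => exact fun _ => h0
  | succ n hn ih => exact fun h => hs n hn (by omega) (ih (by omega))

private theorem mfl_down (P : ℤ → Prop) {l i : ℤ} (h0 : P l)
    (hs : ∀ m, i ≤ m → m < l → P (m + 1) → P m) : ∀ m, m ≤ l → i ≤ m → P m := by
  intro m hm
  induction m, hm using Int.leInductionDown with
  | base => exact fun _ => h0
  | pred n hn ih =>
    exact fun h => hs (n - 1) h (by omega) (by rw [sub_add_cancel]; exact ih (by omega))

private theorem mfl_zpow {X : Type} [MulAction G X] {a : ℤ → X} {k : ℕ} {u : G}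
    (ha : ∀ l : ℤ, a (l + k) = u • a l) (q l : ℤ) : a (l + q * k) = u ^ q • a l := by
  induction q using Int.induction_on with
  | zero => simp
  | succ n ih =>
    rw [show l + ((n : ℤ) + 1) * k = l + n * k + k by ring, ha, ih, add_comm (n : ℤ) 1,
      zpow_one_add, mul_smul]
  | pred n ih =>
    have e := ha (l + (-(n : ℤ) - 1) * k)
    rw [show l + (-(n : ℤ) - 1) * k + k = l + -(n : ℤ) * k by ring, ih] at e
    rw [show -(n : ℤ) - 1 = -1 + -(n : ℤ) by ring, zpow_add, zpow_neg_one, mul_smul, e,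
      show -1 + -(n : ℤ) = -(n : ℤ) - 1 by ring, inv_smul_smul]

namespace Mc

variable {K : Mc S W} {a : ℤ → S.A} {w w' : ℤ → W} {i j : ℤ}

/-- Construction of flow lines step by step. -/
private theorem mfl_ext (Q : ℤ → W → Prop) {y : W} (h0 : Q i y)
    (hs : ∀ l, i ≤ l → l < j → ∀ x, Q l x → ∃ z, K.M.R (a l) x z ∧ Q (l + 1) z) :
    ∃ v, K.Fl a v i j ∧ v i = y ∧ ∀ m, i ≤ m → m ≤ j → Q m (v m) := by
  classical
  let s : ℤ → W → W := fun l x =>
    if h : ∃ z, K.M.R (a l) x z ∧ Q (l + 1) z then h.choose else x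
  let q : ℕ → W := fun n => Nat.rec y (fun n x => s (i + n) x) n
  have e0 : (fun m : ℤ => q (m - i).toNat) i = y := by simp [q]
  have e1 : ∀ m, i ≤ m → q (m + 1 - i).toNat = s m (q (m - i).toNat) := fun m hm => by
    rw [show (m + 1 - i).toNat = (m - i).toNat + 1 by omega]
    change s (i + ((m - i).toNat : ℤ)) _ = _
    rw [show i + ((m - i).toNat : ℤ) = m by omega]
  have e2 : ∀ m, i ≤ m → m < j → ∀ x, Q m x → K.M.R (a m) x (s m x) ∧ Q (m + 1) (s m x) :=
    fun m h1 h2 x hx => by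
      have hex := hs m h1 h2 x hx
      simp only [s, dif_pos hex]
      exact hex.choose_spec
  have key : ∀ m, i ≤ m → m ≤ j → Q m (q (m - i).toNat) := by
    refine mfl_up (fun m => Q m (q (m - i).toNat)) ?_ fun m h1 h2 h => ?_
    · have := e0
      dsimp only at this
      rw [this]
      exact h0
    · rw [e1 m h1]
      exact (e2 m h1 h2 _ h).2
  refine ⟨fun m => q (m - i).toNat, fun m h1 h2 => ?_, e0, key⟩
  dsimp only
  rw [e1 m h1]
  exact (e2 m h1 h2 _ (key m h1 h2.le)).1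

theorem Fl.uniq (h : K.Fl a w i j) (h' : K.Fl a w' i j) {l : ℤ} (h1 : i ≤ l) (h2 : l ≤ j)
    (e : w l = w' l) : ∀ m, i ≤ m → m ≤ j → w m = w' m := by
  intro m m1 m2
  rcases le_total l m with c | c
  · refine mfl_up (fun m => w m = w' m) e (fun n n1 n2 hn => ?_) m c m2
    have r := h' n (by omega) n2
    rw [← hn] at r
    exact K.M.func _ _ _ _ (h n (by omega) n2) r
  · refine mfl_down (fun m => w m = w' m) e (fun n n1 n2 hn => ?_) m c m1
    have r := h' n n1 (by omega)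
    rw [← hn] at r
    exact K.M.inj _ _ _ _ (h n n1 (by omega)) r

theorem Fl.reach (h : K.Fl a w i j) (h' : K.Fl a w' i j) (hij : i < j) :
    ∀ m, i ≤ m → m ≤ j → K.T.Reachable (w m) (w' m) := by
  intro m m1 m2
  refine (K.Z.ν_eq _ _).1 ?_
  rcases m2.lt_or_eq with c | c
  · exact (K.M.src _ _ _ (h m m1 c)).trans (K.M.src _ _ _ (h' m m1 c)).symm
  · have r := K.M.tgt _ _ _ (h (m - 1) (by omega) (by omega))
    have r' := K.M.tgt _ _ _ (h' (m - 1) (by omega) (by omega))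
    rw [sub_add_cancel] at r r'
    exact r.trans r'.symm

theorem Fl.btw (h : K.Fl a w i j) (h' : K.Fl a w' i j) {y : W} (hb : Btw K.T (w i) y (w' i)) :
    ∃ v, K.Fl a v i j ∧ v i = y ∧ ∀ m, i ≤ m → m ≤ j → Btw K.T (w m) (v m) (w' m) :=
  mfl_ext (fun m z => Btw K.T (w m) z (w' m)) hb fun l l1 l2 x hx =>
    K.M.cvx _ _ _ _ _ x (h l l1 l2) (h' l l1 l2) hx

theorem Fl.dist (hN : K.M.NEG) (h : K.Fl a w i j) (h' : K.Fl a w' i j) :
    ∀ m, i ≤ m → m ≤ j → K.T.dist (w m) (w' m) = K.T.dist (w i) (w' i) :=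
  mfl_up (fun m => K.T.dist (w m) (w' m) = K.T.dist (w i) (w' i)) rfl fun m m1 m2 hm =>
    (hN.iso _ _ _ _ _ (h m m1 m2) (h' m m1 m2)).trans hm

theorem Fl.adj (hN : K.M.NEG) (h : K.Fl a w i j) (h' : K.Fl a w' i j) {l : ℤ} (h1 : i ≤ l)
    (h2 : l ≤ j) (e : K.T.Adj (w l) (w' l)) : ∀ m, i ≤ m → m ≤ j → K.T.Adj (w m) (w' m) := by
  intro m m1 m2
  refine adj_of_dist_one ?_
  rw [h.dist hN h' m m1 m2, ← h.dist hN h' l h1 h2]
  exact SimpleGraph.dist_eq_one_iff_adj.2 e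

theorem Fl.btw_back (hN : K.M.NEG) (h : K.Fl a w i j) (h' : K.Fl a w' i j) {l : ℤ} (h1 : i ≤ l)
    (h2 : l ≤ j) {y : W} (hb : Btw K.T (w l) y (w' l)) : ∃ v, K.Fl a v i j ∧ v l = y := by
  have hr : K.T.Reachable (w i) (w' i) := by
    rcases h1.lt_or_eq with c | c
    · exact h.reach h' (by omega) i le_rfl (by omega)
    · rw [c]; exact hb.reach
  have d1 := h.dist hN h' l h1 h2
  have d2 := hb.2.2
  obtain ⟨y0, b0, d0⟩ := exists_btw_dist hr (i := K.T.dist (w l) y) (by omega)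
  obtain ⟨v, hv, e, bv⟩ := h.btw h' b0
  refine ⟨v, hv, (bv l h1 h2).unique acyc hb ?_⟩
  rw [h.dist hN hv l h1 h2, e, d0]

theorem Fl.grow {l : W × W → ℝ} {μ : ℝ} (hμ : 1 < μ)
    (hE : ∀ a x y x' y', K.M.R a x y → K.M.R a x' y' → μ * len K.T l x x' ≤ len K.T l y y')
    (h : K.Fl a w i j) (h' : K.Fl a w' i j) (n : ℕ) (hn : i + n ≤ j) :
    μ ^ n * len K.T l (w i) (w' i) ≤ len K.T l (w (i + n)) (w' (i + n)) := by
  induction n with
  | zero => simp
  | succ n ih =>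
    push_cast at hn ⊢
    have k1 := ih (by omega)
    have k2 := hE _ _ _ _ _ (h (i + n) (by omega) (by omega)) (h' (i + n) (by omega) (by omega))
    have k3 := mul_le_mul_of_nonneg_left k1 (zero_le_one.trans hμ.le)
    rw [← add_assoc, pow_succ', mul_assoc]
    exact k3.trans k2

/-- A dart determines its flow. -/
theorem Fl.dart_uniq (hN : K.M.NEG) {b : ℤ → S.A} {v v' : ℤ → W} (h : K.Fl a w i j)
    (h' : K.Fl a w' i j) (g : K.Fl b v i j) (g' : K.Fl b v' i j) (e : K.T.Adj (w i) (w' i))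
    (e1 : w i = v i) (e2 : w' i = v' i) :
    (∀ m, i ≤ m → m < j → a m = b m) ∧ ∀ m, i ≤ m → m ≤ j → w m = v m ∧ w' m = v' m := by
  have st : ∀ m, i ≤ m → m < j → w m = v m ∧ w' m = v' m → a m = b m := by
    rintro m m1 m2 ⟨c1, c2⟩
    have ha := h.adj hN h' le_rfl (by omega) e m m1 m2.le
    refine (hN.out _ _ ha).unique ⟨⟨_, h m m1 m2⟩, _, h' m m1 m2⟩ ⟨⟨v (m + 1), ?_⟩, v' (m + 1), ?_⟩
    · rw [c1]; exact g m m1 m2
    · rw [c2]; exact g' m m1 m2
  have key : ∀ m, i ≤ m → m ≤ j → w m = v m ∧ w' m = v' m := by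
    refine mfl_up (fun m => w m = v m ∧ w' m = v' m) ⟨e1, e2⟩ fun m m1 m2 hm => ?_
    have c := st m m1 m2 hm
    have r := g m m1 m2
    have r' := g' m m1 m2
    rw [← c, ← hm.1] at r
    rw [← c, ← hm.2] at r'
    exact ⟨K.M.func _ _ _ _ (h m m1 m2) r, K.M.func _ _ _ _ (h' m m1 m2) r'⟩
  exact ⟨fun m m1 m2 => st m m1 m2 (key m m1 m2.le), key⟩

/-- Periodic extension of a flow line. -/
theorem Fl.per {k : ℕ} {u : G} (hk : 1 ≤ k) (ha : ∀ l : ℤ, a (l + k) = u • a l)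
    (h : K.Fl a w 0 k) (e : w k = u • w 0) : ∃ v, K.PFl a k u v ∧ v 0 = w 0 := by
  have hk0 : (0 : ℤ) < k := by omega
  have key : ∀ q r : ℤ, 0 ≤ r → r ≤ k →
      u ^ ((r + q * k) / k) • w ((r + q * k) % k) = u ^ q • w r := by
    intro q r r0 r1
    rcases r1.lt_or_eq with c | c
    · rw [Int.add_mul_ediv_right _ _ hk0.ne', Int.add_mul_emod_self_right,
        Int.ediv_eq_zero_of_lt r0 c, Int.emod_eq_of_lt r0 c, zero_add]
    · rw [c, show (k : ℤ) + q * k = (q + 1) * k by ring, Int.mul_ediv_cancel _ hk0.ne',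
        Int.mul_emod_left, zpow_add_one, mul_smul, e]
  refine ⟨fun l => u ^ (l / k) • w (l % k), ⟨fun l => ?_, fun l => ?_⟩, by simp⟩
  · have r0 := Int.emod_nonneg l hk0.ne'
    have r1 := Int.emod_lt_of_pos l hk0
    have el : l = l % k + l / k * k := by
      have := Int.emod_add_ediv_mul l k
      omega
    have e1 := key (l / k) (l % k + 1) (by omega) (by omega)
    rw [show l % k + 1 + l / k * k = l + 1 by omega] at e1
    have e2 := mfl_zpow ha (l / k) (l % k)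
    rw [← el] at e2
    rw [e1, e2]
    exact K.M.smul _ _ _ _ (h _ r0 r1)
  · have e1 : (l + k) / k = 1 + l / k := by
      have := Int.add_mul_ediv_right l 1 hk0.ne'
      rw [one_mul] at this
      omega
    rw [e1, Int.add_emod_right, zpow_one_add, mul_smul]

/-- Fixed and straight points flow along a path fixed by `x`. -/
theorem ch_flow {x : G} (hx : x ≠ 1) (hp : S.IsPath a i j) (hf : ∀ l, i ≤ l → l < j → x • a l = a l)
    {y : W} (hy : K.Z.ν y = S.src (a i)) (hc : K.Ch x y) :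
    ∃ v, K.Fl a v i j ∧ v i = y ∧ (∀ m, i ≤ m → m ≤ j → K.Ch x (v m)) ∧
      ∀ m, i ≤ m → m ≤ j → (x • v m = v m ↔ x • y = y) := by
  obtain ⟨v, h1, h2, h3⟩ := mfl_ext (K := K) (a := a) (i := i) (j := j)
    (fun l z => K.Ch x z ∧ (x • z = z ↔ x • y = y) ∧ (l < j → K.Z.ν z = S.src (a l)))
    ⟨hc, Iff.rfl, fun _ => hy⟩ (by
      rintro l l1 l2 z ⟨c1, c2, c3⟩
      have hfx := hf l l1 l2
      have sm : ∀ p q, K.M.R (a l) p q → K.M.R (a l) (x • p) (x • q) := fun p q r => by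
        have := K.M.smul x _ _ _ r
        rwa [hfx] at this
      have sm' : ∀ p q, K.M.R (a l) p q → K.M.R (a l) (x⁻¹ • p) (x⁻¹ • q) := fun p q r => by
        have := K.M.smul x⁻¹ _ _ _ r
        rwa [inv_smul_eq_iff.2 hfx.symm] at this
      obtain ⟨c, c', hcc⟩ := K.M.ne (a l)
      have hC : Cvx K.T {p | ∃ q, K.M.R (a l) p q} := by
        rintro p ⟨q, r⟩ p' ⟨q', r'⟩
        refine ⟨(K.Z.ν_eq _ _).1 ((K.M.src _ _ _ r).trans (K.M.src _ _ _ r').symm),
          fun m hm => ?_⟩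
        obtain ⟨t, ht, -⟩ := K.M.cvx _ _ _ _ _ m r r' hm
        exact ⟨t, ht⟩
      have hinv : ∀ p, x • p ∈ {p | ∃ q, K.M.R (a l) p q} ↔ p ∈ {p | ∃ q, K.M.R (a l) p q} := by
        intro p
        constructor
        · rintro ⟨q, r⟩
          have := sm' _ _ r
          rw [inv_smul_smul] at this
          exact ⟨_, this⟩
        · rintro ⟨q, r⟩
          exact ⟨_, sm _ _ r⟩
      obtain ⟨t, ht⟩ := ml_ch_mem K.Z.gf hx c1 hC hinv ⟨c', hcc⟩
        ((K.Z.ν_eq _ _).1 ((K.M.src _ _ _ hcc).trans (c3 l2).symm))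
      have t1 := sm _ _ ht
      obtain ⟨s, hs, b⟩ := K.M.cvx _ _ _ _ _ _ ht (sm _ _ t1) c1
      rw [K.M.func _ _ _ _ hs t1] at b
      refine ⟨t, ht, b, Iff.trans ⟨fun e => ?_, fun e => ?_⟩ c2, fun l3 => ?_⟩
      · rw [e] at t1
        exact K.M.inj _ _ _ _ t1 ht
      · rw [e] at t1
        exact K.M.func _ _ _ _ t1 ht
      · exact (K.M.tgt _ _ _ ht).trans (hp l l1 l3))
  exact ⟨v, h1, h2, fun m m1 m2 => (h3 m m1 m2).1, fun m m1 m2 => (h3 m m1 m2).2.1⟩

/-- In the isometric case they also flow backwards. -/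
theorem ch_flow_back (hN : K.M.NEG) {x : G} (hx : x ≠ 1)
    (hf : ∀ l, i ≤ l → l < j → x • a l = a l) (h : K.Fl a w i j)
    (hw : ∀ m, i ≤ m → m ≤ j → K.Ch x (w m)) {l : ℤ} (h1 : i ≤ l) (h2 : l ≤ j) {y : W}
    (hr : K.T.Reachable (w l) y) (hc : K.Ch x y) : ∃ v, K.Fl a v i j ∧ v l = y := by
  obtain ⟨n, b⟩ := ml_ch_btw K.Z.gf hx (hw l h1 h2) hc hr
  have hp : ∀ m, i ≤ m → m < j → x ^ n • a m = a m := fun m m1 m2 =>
    Subgroup.pow_mem (stabilizer G (a m)) (hf m m1 m2) n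
  exact Fl.btw_back hN ((h.smul (x ^ n)⁻¹).congr fun m m1 m2 => inv_smul_eq_iff.2 (hp m m1 m2).symm)
    ((h.smul (x ^ n)).congr hp) h1 h2 b

/-- The return map of one period as a partial isometry. -/
theorem exists_ret (hN : K.M.NEG) {k : ℕ} (hk : 1 ≤ k) (u : G) :
    ∃ F : W → W, PIso K.T F {y | ∃ v, K.Fl a v 0 k ∧ v 0 = y} ∧
      ∀ v, K.Fl a v 0 k → F (v 0) = u⁻¹ • v k := by
  classical
  have hk0 : (0 : ℤ) < k := by omega
  let F : W → W := fun y => if h : ∃ v, K.Fl a v 0 k ∧ v 0 = y then u⁻¹ • h.choose k else y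
  have hF : ∀ v, K.Fl a v 0 k → F (v 0) = u⁻¹ • v k := by
    intro v hv
    have hex : ∃ v', K.Fl a v' 0 k ∧ v' 0 = v 0 := ⟨v, hv, rfl⟩
    simp only [F, dif_pos hex]
    rw [hex.choose_spec.1.uniq hv le_rfl hk0.le hex.choose_spec.2 k hk0.le le_rfl]
  refine ⟨F, ⟨?_, ?_⟩, hF⟩
  · rintro _ ⟨v, hv, rfl⟩ _ ⟨v', hv', rfl⟩
    refine ⟨hv.reach hv' hk0 0 le_rfl hk0.le, fun y hy => ?_⟩
    obtain ⟨z, z1, z2, -⟩ := hv.btw hv' hy
    exact ⟨z, z1, z2⟩
  · rintro _ ⟨v, hv, rfl⟩ _ ⟨v', hv', rfl⟩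
    rw [hF v hv, hF v' hv', acts.dist]
    exact ⟨acts.reach _ (hv.reach hv' hk0 k hk0.le le_rfl), hv.dist hN hv' k hk0.le le_rfl⟩

/-- Iterates of the return map along a long flow line. -/
theorem ret_iter {k J : ℕ} {u : G} {b : ℤ → S.A} {F : W → W}
    (hF : ∀ v, K.Fl a v 0 k → F (v 0) = u⁻¹ • v k) (hb : ∀ l : ℤ, b (l + k) = u • b l)
    (hab : ∀ l : ℤ, 0 ≤ l → l < k → a l = b l) (h : K.Fl b w 0 (J * k)) :
    (∀ m < J, F^[m] (w 0) ∈ {y | ∃ v, K.Fl a v 0 k ∧ v 0 = y}) ∧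
      ∀ m ≤ J, F^[m] (w 0) = (u ^ m)⁻¹ • w (m * k) := by
  have fl : ∀ m < J, K.Fl a (fun l => (u ^ m)⁻¹ • w (l + m * k)) 0 k := by
    intro m hm
    have h1 : ((m : ℤ) + 1) * k ≤ J * k :=
      mul_le_mul_of_nonneg_right (by omega) (Int.natCast_nonneg k)
    have h2 : (0 : ℤ) ≤ m * k := by positivity
    refine (((h.shift (m * k)).smul (u ^ m)⁻¹).mono (by omega) (by linarith)).congr
      fun l l1 l2 => ?_
    rw [mfl_zpow hb, zpow_natCast, inv_smul_smul, hab l l1 l2]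
  have key : ∀ m ≤ J, F^[m] (w 0) = (u ^ m)⁻¹ • w (m * k) := by
    intro m
    induction m with
    | zero => intro _; simp
    | succ m ih =>
      intro hm
      have e := hF _ (fl m (by omega))
      rw [zero_add] at e
      rw [Function.iterate_succ_apply', ih (by omega), e, pow_succ, mul_inv_rev, mul_smul]
      push_cast
      rw [show ((m : ℤ) + 1) * k = k + m * k by ring]
  refine ⟨fun m hm => ⟨_, fl m hm, ?_⟩, key⟩
  rw [key m hm.le, zero_add]

/-- Points whose iterates stay in the domain have long flow lines. -/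
theorem ret_flow {k J : ℕ} {u : G} {F : W → W} (hk : 1 ≤ k)
    (hF : ∀ v, K.Fl a v 0 k → F (v 0) = u⁻¹ • v k) (ha : ∀ l : ℤ, a (l + k) = u • a l) {y : W}
    (h : ∀ m < J, F^[m] y ∈ {y | ∃ v, K.Fl a v 0 k ∧ v 0 = y}) :
    ∃ v, K.Fl a v 0 (J * k) ∧ v 0 = y := by
  induction J generalizing y with
  | zero => exact ⟨fun _ => y, fun l l1 l2 => by omega, rfl⟩
  | succ J ih =>
    obtain ⟨v0, f0, e0⟩ := h 0 (by omega)
    rw [Function.iterate_zero_apply] at e0
    obtain ⟨v1, f1, e1⟩ := ih (y := F y) fun m hm => by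
      have := h (m + 1) (by omega)
      rwa [Function.iterate_succ_apply] at this
    have e2 : v0 k = u • v1 0 := by rw [e1, ← e0, hF v0 f0, smul_inv_smul]
    refine ⟨fun l => if l ≤ k then v0 l else u • v1 (l - k), fun l l1 l2 => ?_, ?_⟩
    · by_cases c : l < k
      · simp only [c.le, show l + 1 ≤ (k : ℤ) by omega, if_true]
        exact f0 l l1 c
      · have e3 : (if l ≤ k then v0 l else u • v1 (l - k)) = u • v1 (l - k) := by
          split_ifs with c'
          · rw [show l = k by omega, e2, sub_self]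
          · rfl
        have e4 := ha (l - k)
        rw [sub_add_cancel] at e4
        push_cast at l2
        simp only [e3, show ¬ l + 1 ≤ (k : ℤ) by omega, if_false]
        rw [e4, show l + 1 - k = l - k + 1 by ring]
        exact K.M.smul _ _ _ _ (f1 _ (by omega) (by linarith))
    · simp only [Int.natCast_nonneg, if_true, e0]

end Mc

end CPOR
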