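import Pool.Agent.P.MP_2cb329_al.F.MB

/-! Machines: darts on geodesics, fixed and straight points. -/

set_option autoImplicit false

namespace CPOR
open ZT MulAction

variable {G : Type} [Group G] {V : Type} [MulAction G V] {T : SimpleGraph V}

theorem ml_sep_geod (hT : T.IsAcyclic) (c : ℕ → V) (n : ℕ) (h : ∀ i < n, T.Adj (c i) (c (i + 1)))
    (hd : T.dist (c 0) (c n) = n) {i : ℕ} (hi : i < n) : Sep T (c i, c (i + 1)) (c 0) (c n) := by
  have _ := hT
  have key : ∀ p k, p + k ≤ n → T.Reachable (c p) (c (p + k)) ∧ T.dist (c p) (c (p + k)) ≤ k :=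
    fun p k hk => dist_le_of_chain (fun j => c (p + j)) k fun j hj => Or.inr (h (p + j) (by omega))
  have ha := h i hi
  have d1 : T.dist (c i) (c (i + 1)) = 1 := SimpleGraph.dist_eq_one_iff_adj.2 ha
  obtain ⟨r1, e1⟩ := key 0 i (by omega)
  obtain ⟨r2, e2⟩ := key (i + 1) (n - (i + 1)) (by omega)
  rw [Nat.zero_add] at r1 e1
  rw [show i + 1 + (n - (i + 1)) = n by omega] at r2 e2
  have t1 := dist_tri r1 ha.reachable
  have t2 := dist_tri ha.reachable r2
  have t3 := dist_tri (r1.trans ha.reachable) r2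
  have t4 := dist_tri r1 (ha.reachable.trans r2)
  refine ⟨ha, ⟨r1, ha.reachable, ?_⟩, ⟨ha.reachable, r2, ?_⟩⟩
  · show T.dist (c 0) (c i) + T.dist (c i) (c (i + 1)) = T.dist (c 0) (c (i + 1))
    omega
  · show T.dist (c i) (c (i + 1)) + T.dist (c (i + 1)) (c n) = T.dist (c i) (c n)
    omega

theorem ml_sep_mono (hT : T.IsAcyclic) {x x' z z' : V} {e : V × V} (h : Sep T e x' z')
    (h1 : Btw T x x' z') (h2 : Btw T x z' z) : Sep T e x z := by
  exact (sep_iff_of_btw hT h2 e).2 (Or.inl ((sep_iff_of_btw hT h1 e).2 (Or.inr h)))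

/-- A straight point lies on an axis. -/
theorem ml_axis (hG : GF T G) {g : G} {y : V} (h : Btw T y (g • y) (g • g • y))
    (hne : g • y ≠ y) : ∃ (a : ℤ → V) (l : ℕ), IsAxis T g a l ∧ a 0 = y := by
  exact axis_of_btw hG hne h

/-- If `g` has a fixed point in the component then straight points are fixed. -/
theorem ml_fix_of_ch (hG : GF T G) {g : G} {x y : V} (hx : g • x = x) (hr : T.Reachable x y)
    (h : Btw T y (g • y) (g • g • y)) : g • y = y := by
  by_contra hne
  obtain ⟨a, l, ha, rfl⟩ := ml_axis hG h hne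
  exact ha.not_fix hG.acyc hG.acts hr hx

/-- Fixed and straight points minimise the displacement. -/
theorem ml_ch_min (hG : GF T G) {g : G} {y z : V} (h : Btw T y (g • y) (g • g • y))
    (hr : T.Reachable y z) : T.dist y (g • y) ≤ T.dist z (g • z) := by
  by_cases hy : g • y = y
  · rw [hy, SimpleGraph.dist_self]
    exact Nat.zero_le _
  obtain ⟨a, l, ha, rfl⟩ := ml_axis hG h hy
  obtain ⟨i, -, e, -⟩ := ha.disp hG.acyc hG.acts hr.symm
  rw [ha.2.2, (ha.1.dist_nat hG.acyc 0 l).2]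
  omega

/-- Fixed and straight points of `g ≠ 1` lie in every invariant subtree. -/
theorem ml_ch_mem (hG : GF T G) {g : G} (hg : g ≠ 1) {y c : V} (h : Btw T y (g • y) (g • g • y))
    {C : Set V} (hC : Cvx T C) (hinv : ∀ x, g • x ∈ C ↔ x ∈ C) (hc : c ∈ C)
    (hr : T.Reachable c y) : y ∈ C := by
  by_cases hy : g • y = y
  · obtain ⟨q, hq, hfix, hb⟩ := fix_proj hG.acyc hG.acts hy hC hinv hc hr.symm
    rw [hG.fix_unique hg (hb c hc).1 hy hfix]
    exact hq
  obtain ⟨a, l, ha, rfl⟩ := ml_axis hG h hy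
  exact ha.mem_cvx hG.acyc hG.acts hC hinv hc hr 0

/-- Two fixed or straight points: the second lies between two translates of the first. -/
theorem ml_ch_btw (hG : GF T G) {g : G} (hg : g ≠ 1) {y z : V} (h : Btw T y (g • y) (g • g • y))
    (h' : Btw T z (g • z) (g • g • z)) (hr : T.Reachable y z) :
    ∃ j : ℕ, Btw T ((g ^ j)⁻¹ • y) z (g ^ j • y) := by
  by_cases hy : g • y = y
  · have hz := ml_fix_of_ch hG hy hr h'
    obtain rfl := hG.fix_unique hg hr hy hz
    refine ⟨0, ?_⟩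
    rw [pow_zero, inv_one, one_smul]
    exact btw_left hr
  obtain ⟨a, l, ha, rfl⟩ := ml_axis hG h hy
  obtain ⟨b, l', hb, rfl⟩ := ml_axis hG h' (ha.not_fix hG.acyc hG.acts hr.symm)
  obtain ⟨-, c, hc⟩ := ha.unique hG.acyc hG.acts hb hr
  refine ⟨c.natAbs, ?_⟩
  rw [← zpow_natCast, ← zpow_neg, ha.zpow_smul, ha.zpow_smul, hc 0]
  have h1 : (1 : ℤ) ≤ l := by exact_mod_cast ha.2.1
  have h2 : (c.natAbs : ℤ) ≤ c.natAbs * l := le_mul_of_one_le_right (by positivity) h1
  refine ha.1.btw hG.acyc ?_ ?_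
  · rw [neg_mul]; omega
  · omega

/-- Many darts on a geodesic: two of them are in one orbit. -/
theorem ml_two_darts (hE : FinOrb (⊤ : Subgroup G) (Darts T)) :
    ∃ E : ℕ, ∀ (c : ℕ → V) (n : ℕ), E ≤ n → (∀ i < n, T.Adj (c i) (c (i + 1))) →
      ∃ (h : G) (i j : ℕ), i < j ∧ j < n ∧ h • c i = c j ∧ h • c (i + 1) = c (j + 1) := by
  refine ⟨nOrb (⊤ : Subgroup G) (Darts T) + 1, fun c n hn h => ?_⟩
  obtain ⟨i, j, hij, hj, k, -, e⟩ := hE.pigeon (fun i => (c i, c (i + 1)))
    fun i hi => h i (by omega)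
  exact ⟨k, i, j, hij, by omega, congrArg Prod.fst e, congrArg Prod.snd e⟩

end CPOR
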