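import Pool.Agent.P.MP_2cb329_al.F.MFl
import Pool.Agent.P.MP_2cb329_al.F.MEl

/-! Machines: chains along flow lines, lifts of threads, the vertex cases of G1, G2, G3. -/

set_option autoImplicit false

namespace CPOR
open ZT MulAction

variable {G : Type} [Group G] {N : Type} [MulAction G N]

/-- The element `u⁻¹ * u'` of two threads with a common stretch is small at both ends. -/
theorem Sys.eps_small (S : Sys G N) : ∃ F, Bd F ∧ ∀ (L k n : ℕ) (u u' : G) (p p' : ℤ → S.P),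
    S.Thread L k u p → S.Thread L k u' p' →
    (∀ i : ℤ, 0 ≤ i → i ≤ n → S.arr (p i) = S.arr (p' i)) →
    S.Cl L (S.s (p 0)) (S.s (p' 0)) → S.Cl L (S.s (p n)) (S.s (p' n)) → k ≤ n →
    (∀ i : ℤ, 0 ≤ i → i ≤ n - k → (u⁻¹ * u') • S.arr (p i) = S.arr (p i)) ∧
      S.Cl (F L) (S.s (p 0)) ((u⁻¹ * u') • S.s (p 0)) ∧
      S.Cl (F L) (S.s (p (n - k))) ((u⁻¹ * u') • S.s (p (n - k))) := by
  obtain ⟨F, hF, H⟩ := S.chain_lip
  refine ⟨fun L => F (L + 1) + L, (hF.comp (Bd.id.add (Bd.const 1))).add Bd.id, ?_⟩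
  intro L k n u u' p p' h h' ha c0 cn hk
  beta_reduce
  have hkL := h.le
  have ch := fun i j => (h.mono (Nat.le_succ L)).chain i j
  have ch' := fun i j => (h'.mono (Nat.le_succ L)).chain i j
  refine ⟨fun i h0 h1 => ?_, ?_, ?_⟩
  · have e1 := ha i h0 (by omega)
    have e2 := ha (i + k) (by omega) (by omega)
    rw [h.arr_per, h'.arr_per, ← e1] at e2
    rw [mul_smul, ← e2, inv_smul_smul]
  · have e := (H (L + 1) p p' 0 (k + 1) 0 k (ch _ _) (ch' _ _)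
      (fun m h0 h1 => ha m h0 (by omega)) (by push_cast; omega) le_rfl (by omega) (by omega)
      (by omega) (Or.inl (c0.mono (Nat.le_succ L)))).1
    have e1 := h.per 0
    have e2 := h'.per 0
    rw [zero_add] at e1 e2
    rw [e1, e2, S.s_smul, S.s_smul] at e
    have e3 := e.smul u⁻¹
    rw [inv_smul_smul, ← mul_smul] at e3
    exact e3.trans (c0.symm.smul _)
  · have e := (H (L + 1) p p' (n - k) (n + 1) n (n - k) (ch _ _) (ch' _ _)
      (fun m h0 h1 => ha m (by omega) (by omega)) (by push_cast; omega) (by omega) (by omega)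
      le_rfl (by omega) (Or.inl (cn.mono (Nat.le_succ L)))).1
    have e1 := h.per (n - k)
    have e2 := h'.per (n - k)
    rw [sub_add_cancel] at e1 e2
    rw [e1, e2, S.s_smul, S.s_smul] at cn
    have e3 := cn.smul u⁻¹
    rw [inv_smul_smul, ← mul_smul] at e3
    exact (e3.trans (e.symm.smul _)).mono (by omega)

namespace Mc

variable {S : Sys G N} {W : Type} [MulAction G W] {K : Mc S W}

theorem Fl.exists_lift {a : ℤ → S.A} {w : ℤ → W} {i j : ℤ} (h : K.Fl a w i j) (hij : i < j) :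
    ∃ b : ℤ → K.S'.A, (∀ l, i ≤ l → l < j → K.Tr (b l) (a l) (w l) (w (l + 1))) ∧
      K.O.Lifts b a i j := by
  obtain ⟨b0, -⟩ := exists_tr (h i le_rfl hij)
  have : ∀ l, ∃ b : K.S'.A, i ≤ l → l < j → K.Tr b (a l) (w l) (w (l + 1)) := fun l => by
    by_cases hl : i ≤ l ∧ l < j
    · obtain ⟨b, hb⟩ := exists_tr (h l hl.1 hl.2)
      exact ⟨b, fun _ _ => hb⟩
    · exact ⟨b0, fun h1 h2 => absurd ⟨h1, h2⟩ hl⟩
  choose b hb using this
  refine ⟨b, hb, fun l h1 h2 => ?_, fun l h1 h2 => (hb l h1 h2).1⟩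
  rw [(hb l h1 (by omega)).2.2, (hb (l + 1) (by omega) h2).2.1]

theorem PFl.exists_lift {L k : ℕ} {u : G} {p : ℤ → S.P} {w : ℤ → W} (hp : S.Thread L k u p)
    (h : K.PFl (fun l => S.arr (p l)) k u w) :
    ∃ b : ℤ → K.S'.A, (∀ l, K.Tr (b l) (S.arr (p l)) (w l) (w (l + 1))) ∧ K.O.PLift k u p b := by
  obtain ⟨b, hb, hper⟩ := Sys.exists_periodic hp.pos u
    (fun l (b : K.S'.A) => K.Tr b (S.arr (p l)) (w l) (w (l + 1))) (fun l b => by
      rw [hp.arr_per, h.per, show l + k + 1 = l + 1 + k by ring, h.per]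
      refine ⟨fun e => e.smul u, fun e => ?_⟩
      have := e.smul u⁻¹
      simpa only [inv_smul_smul] using this) (fun l => exists_tr (h.fl l))
  exact ⟨b, hb, fun l => (hb l).1, fun l => by rw [(hb l).2.2, (hb (l + 1)).2.1], hper⟩

variable (K)

/-- (D2) Nearness is carried along a chain and a flow line. -/
theorem near_flow : ∃ F, Bd F ∧ ∀ (L : ℕ) (p : ℤ → S.P) (w : ℤ → W) (i j : ℤ), i ≤ j →
    j ≤ i + L → S.Chain L p i (j + 1) → K.Fl (fun l => S.arr (p l)) w i j →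
    (K.Near L (S.s (p i)) (w i) → K.Near (F L) (S.s (p j)) (w j)) ∧
    (K.Near L (S.s (p j)) (w j) → K.Near (F L) (S.s (p i)) (w i)) := by
  obtain ⟨F, hF, H⟩ := K.O.near_chain K.tight
  refine ⟨fun L => L + F (L + L), Bd.id.add (hF.comp (Bd.id.add Bd.id)), ?_⟩
  intro L p w i j hij hL hc hw
  beta_reduce
  rcases hij.eq_or_lt with rfl | hij
  · exact ⟨fun h => near_mono h (by omega), fun h => near_mono h (by omega)⟩
  obtain ⟨b, hb, hl⟩ := hw.exists_lift hij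
  have hc' : S.Chain (L + L) p i j := hc.mono (by omega) le_rfl (by omega)
  have link := hc (j - 1) (by omega) (by omega)
  have e1 := (hb i le_rfl hij).2.1
  have e2 := (hb (j - 1) (by omega) (by omega)).2.2
  rw [sub_add_cancel] at link e2
  constructor
  · intro h
    have := (H (L + L) p b i j i (j - 1) hc' hl (by push_cast; omega) le_rfl hij (by omega)
      (by omega) (Or.inl (by rw [e1]; exact near_mono h (by omega)))).2
    rw [e2] at this
    exact near_cl link.symm this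
  · intro h
    have := (H (L + L) p b i j (j - 1) i hc' hl (by push_cast; omega) (by omega) (by omega)
      le_rfl hij (Or.inr (by rw [e2]; exact near_cl link h))).1
    rw [e1] at this
    exact near_mono this (by omega)

/-- The distance of projections is carried backwards along two chains. -/
theorem lam_flow : ∃ F, Bd F ∧ ∀ (L : ℕ) (p p' : ℤ → S.P) (w : ℤ → W) (i j : ℤ)
    (q q' x x' : K.S'.V), i ≤ j → j ≤ i + L → S.Chain L p i (j + 1) → S.Chain L p' i (j + 1) →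
    (∀ l, i ≤ l → l ≤ j → S.arr (p l) = S.arr (p' l)) → K.Fl (fun l => S.arr (p l)) w i (j + 1) →
    K.IsPr (S.s (p i)) (w i) q → K.IsPr (S.s (p' i)) (w i) q' →
    K.IsPr (S.s (p j)) (w j) x → K.IsPr (S.s (p' j)) (w j) x' →
    K.S'.Cl L x x' → K.S'.Cl (F L) q q' := by
  obtain ⟨F, hF, H⟩ := K.O.lam_lip K.tight
  refine ⟨fun L => F (L + 1 + L), hF.comp ((Bd.id.add (Bd.const 1)).add Bd.id), ?_⟩
  intro L p p' w i j q q' x x' hij hL hc hc' ha hw h1 h2 h3 h4 hx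
  obtain ⟨b, hb, hl⟩ := hw.exists_lift (by omega)
  have e1 := (hb i le_rfl (by omega)).2.1
  have e2 := (hb j hij (by omega)).2.1
  exact H (L + 1) L p p' b i (j + 1) j i x x' q q' (hc.mono (by omega) le_rfl le_rfl)
    (hc'.mono (by omega) le_rfl le_rfl) (fun m h1 h2 => ha m h1 (by omega)) hl
    (by push_cast; omega) hij (by omega) le_rfl (by omega) (by rw [e2]; exact h3)
    (by rw [e2]; exact h4) (by rw [e1]; exact h1) (by rw [e1]; exact h2) hx

/-- Projection of a thread to a periodic flow line. -/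
theorem lift : ∃ F, Bd F ∧ ∀ (L k : ℕ) (u : G) (p : ℤ → S.P) (w : ℤ → W), S.Thread L k u p →
    K.PFl (fun l => S.arr (p l)) k u w → ∃ q : ℤ → K.S'.P, K.S'.Thread (F L) k u q ∧
      (∀ l, K.Tr (K.S'.arr (q l)) (S.arr (p l)) (w l) (w (l + 1))) ∧
      ∀ l x, K.IsPr (S.s (p l)) (w l) x → K.S'.Cl (F L) x (K.S'.s (q l)) := by
  obtain ⟨F, hF, H⟩ := K.O.proj_thread K.tight
  refine ⟨F, hF, fun L k u p w hp hw => ?_⟩
  obtain ⟨b, hb, hl⟩ := hw.exists_lift hp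
  obtain ⟨q, hq, hq'⟩ := H L k u p b hp hl
  refine ⟨q, hq, fun l => by rw [(hq' l).1]; exact hb l, fun l x hx => (hq' l).2 x ?_⟩
  rw [(hb l).2.1]; exact hx

theorem ta_lift : ∃ F, Bd F ∧ ∀ (r k M m : ℕ) (u : G) (p : ℤ → S.P) (a : ℤ → S.A) (w y : ℤ → W)
    (c c' : S.V), 1 ≤ M → S.Thread r k u p → K.PFl (fun l => S.arr (p l)) k u w →
    (∀ l : ℤ, 0 ≤ l → l ≤ m → S.arr (p l) = a l) → (∀ l : ℤ, 0 ≤ l → l ≤ m + 1 → w l = y l) →
    K.Near r (S.s (p 0)) (w 0) → K.Near r (S.s (p m)) (w m) →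
    S.Cl r c (S.s (p 0)) → S.Cl r c' (S.s (p m)) →
    K.TA (F r + k * M) (k * M) m a y c c' (u ^ M) := by
  obtain ⟨F, hF, H⟩ := K.lift
  refine ⟨fun r => r + r + F r, (Bd.id.add Bd.id).add hF, ?_⟩
  intro r k M m u p a w y c c' hM hp hw ha hy n0 nm c0 cm
  beta_reduce
  obtain ⟨q, hq, ht, hx⟩ := H r k u p w hp hw
  have key : ∀ (l : ℤ) (d : S.V), K.Near r (S.s (p l)) (w l) → S.Cl r d (S.s (p l)) →
      S.Cl (r + r + F r + k * M) d (K.O.V (K.S'.s (q l))) := fun l d hn hd => by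
    obtain ⟨x, hx'⟩ := exists_pr (near_nd hn)
    exact ((hd.trans (hx'.cl_of_near hn)).trans (cl_V (hx l x hx'))).mono (by omega)
  refine ⟨q, (hq.mul hM).mono (by omega), fun l h0 h1 => ?_, key 0 c n0 c0, key m c' nm cm⟩
  rw [← ha l h0 h1, ← hy l h0 (by omega), ← hy (l + 1) (by omega) (by omega)]
  exact ht l

theorem ta_g2 (h : K.S'.Gall) : ∃ M : ℕ, 0 < M ∧ ∃ F, Bd F ∧ ∀ (r κ m : ℕ) (a : ℤ → S.A)
    (y : ℤ → W) (c c' : S.V) (g g' : G), K.TA r κ m a y c c' g → K.TA r κ m a y c c' g' →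
    m ≤ F r ∨ g ^ M = g' ^ M := by
  obtain ⟨M, hM, F, hF, H⟩ := h.2.1
  refine ⟨M, hM, fun r => F (r + r), hF.comp (Bd.id.add Bd.id), ?_⟩
  rintro r κ m a y c c' g g' ⟨q, hq, ht, c0, cm⟩ ⟨q', hq', ht', c0', cm'⟩
  have ea : ∀ l : ℤ, 0 ≤ l → l ≤ m → K.S'.arr (q l) = K.S'.arr (q' l) :=
    fun l h0 h1 => (ht l h0 h1).eq (ht' l h0 h1)
  have en : ∀ l : ℤ, 0 ≤ l → l ≤ m → K.S'.nd (K.S'.s (q l)) = K.S'.nd (K.S'.s (q' l)) :=
    fun l h0 h1 => by rw [K.S'.nd_s, K.S'.nd_s, ea l h0 h1]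
  exact H (r + r) κ m g g' q q' (hq.mono (by omega)) (hq'.mono (by omega)) ea trivial
    (cl_of_V (en 0 le_rfl (by omega)) (c0.symm.trans c0'))
    (cl_of_V (en m (by omega) le_rfl) (cm.symm.trans cm'))

/-- G1 for an element with a fixed vertex. -/
theorem g1_ell (h : K.S'.Gall) : ∃ F, Bd F ∧ ∀ (L n : ℕ) (x : G) (a : ℤ → S.A) (y : W), x ≠ 1 →
    S.Rigid x a n → S.TL L x (S.src (a 0)) → S.TL L x (S.tgt (a (n - 1))) →
    K.Z.ν y = S.src (a 0) → x • y = y →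
    n ≤ F L ∨ ∃ (g : G) (i j : ℤ), 0 ≤ i ∧ i < j ∧ j < n ∧ Commute g x ∧ g • a i = a j := by
  obtain ⟨F, hF, H⟩ := K.O.g1_lift K.tight h.1
  refine ⟨F, hF, fun L n x a y hx hr t0 tn hy hf => ?_⟩
  rcases Nat.eq_zero_or_pos n with rfl | hn
  · exact Or.inl (Nat.zero_le _)
  have hc : K.Ch x y := by
    unfold Ch
    rw [hf, hf]
    exact btw_left (SimpleGraph.Reachable.refl y)
  obtain ⟨v, hv, hv0, -, -⟩ := ch_flow hx hr.path hr.fix hy hc
  obtain ⟨b, hb, hl⟩ := hv.exists_lift (by omega)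
  refine H L n x a b hx hr hl ?_ t0 tn
  rw [(hb 0 le_rfl (by omega)).2.1, hv0, hf]

/-- G2 for two threads with a common periodic flow line. -/
theorem g2_lift (h : K.S'.Gall) : ∃ M : ℕ, 0 < M ∧ ∃ F, Bd F ∧ ∀ (L k n : ℕ) (u u' : G)
    (p p' : ℤ → S.P) (w w' : ℤ → W), S.Thread L k u p → S.Thread L k u' p' →
    (∀ i : ℤ, 0 ≤ i → i ≤ n → S.arr (p i) = S.arr (p' i)) →
    S.Cl L (S.s (p 0)) (S.s (p' 0)) → S.Cl L (S.s (p n)) (S.s (p' n)) →
    K.PFl (fun l => S.arr (p l)) k u w → K.PFl (fun l => S.arr (p' l)) k u' w' → w 0 = w' 0 →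
    n ≤ F L ∨ u ^ M = u' ^ M := by
  obtain ⟨M, hM, F, hF, H⟩ := h.2.1
  obtain ⟨F1, hF1, H1⟩ := K.lift
  refine ⟨M, hM, fun L => F (F1 L + L + F1 L), hF.comp ((hF1.add Bd.id).add hF1), ?_⟩
  intro L k n u u' p p' w w' hp hp' ha c0 cn hw hw' e0
  obtain ⟨q, hq, ht, hx⟩ := H1 L k u p w hp hw
  obtain ⟨q', hq', ht', hx'⟩ := H1 L k u' p' w' hp' hw'
  have ew := (hw.toFl 0 (n + 1)).uniq ((hw'.toFl 0 (n + 1)).congr
    fun l h0 h1 => (ha l h0 (by omega)).symm) le_rfl (by omega) e0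
  have key : ∀ l : ℤ, 0 ≤ l → l ≤ n → S.Cl L (S.s (p l)) (S.s (p' l)) →
      K.S'.Cl (F1 L + L + F1 L) (K.S'.s (q l)) (K.S'.s (q' l)) := fun l h0 h1 hc => by
    have e : S.nd (S.s (p l)) = K.Z.ν (w l) := by rw [S.nd_s, K.M.src _ _ _ (hw.fl l)]
    obtain ⟨x, hx1⟩ := exists_pr e
    obtain ⟨x', hx2⟩ := exists_pr (hc.1.symm.trans e)
    refine ((hx l x hx1).symm.trans (hx1.lip hx2 hc)).trans (hx' l x' ?_)
    rw [← ew l h0 (by omega)]; exact hx2
  refine H _ k n u u' q q' (hq.mono (by omega)) (hq'.mono (by omega)) (fun l h0 h1 => ?_) trivial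
    (key 0 le_rfl (by omega) c0) (key n (by omega) le_rfl cn)
  refine (ht l).eq ?_
  rw [ha l h0 h1, ew l h0 (by omega), ew (l + 1) (by omega) (by omega)]
  exact ht' l

/-- G3 at a periodic flow line. -/
theorem g3_vertex (h : K.S'.Gall) : ∃ F, Bd F ∧ ∀ (L k : ℕ) (u : G) (p p' : ℤ → S.P)
    (w : ℤ → W) (q q' : K.S'.V), S.Thread L k u p → S.Thread L k u p' →
    (∀ i, S.arr (p i) = S.arr (p' i)) → K.PFl (fun l => S.arr (p l)) k u w →
    K.IsPr (S.s (p 0)) (w 0) q → K.IsPr (S.s (p' 0)) (w 0) q' →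
    ∃ e : G, Commute e u ∧ (∀ i, e • S.arr (p i) = S.arr (p i)) ∧ K.S'.Cl (F L) q (e • q') := by
  obtain ⟨F, hF, H⟩ := h.2.2
  obtain ⟨F1, hF1, H1⟩ := K.lift
  refine ⟨fun L => F1 L + F (F1 L) + F1 L, (hF1.add (hF.comp hF1)).add hF1, ?_⟩
  intro L k u p p' w x x' hp hp' ha hw hx hx'
  have hw' : K.PFl (fun l => S.arr (p' l)) k u w := ⟨fun l => by
    have := hw.fl l
    simpa only [ha l] using this, hw.per⟩
  obtain ⟨q, hq, ht, hc⟩ := H1 L k u p w hp hw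
  obtain ⟨q', hq', ht', hc'⟩ := H1 L k u p' w hp' hw'
  obtain ⟨e, he, hf, hcl⟩ := H (F1 L) k u q q' hq hq'
    (fun l => (ht l).eq (by rw [ha l]; exact ht' l)) (fun _ _ => trivial)
  refine ⟨e, he, fun l => ?_, ((hc 0 x hx).trans hcl).trans ((hc' 0 x' hx').symm.smul e)⟩
  rw [← (ht l).1, ← K.O.A_smul, hf l]

/-- A flow line near a thread whose window group is nontrivial. -/
theorem flow_near : ∃ F, Bd F ∧ ∀ (L k : ℕ) (u : G) (p : ℤ → S.P), S.Thread L k u p →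
    S.Fix (fun l => S.arr (p l)) 0 (2 * k) ≠ ⊥ → ∃ z : ℤ → W,
      K.Fl (fun l => S.arr (p l)) z 0 (2 * k) ∧
      K.Near (F L) (S.s (p 0)) (z 0) ∧ K.Near (F L) (S.s (p 0)) (u⁻¹ • z k) := by
  obtain ⟨A⟩ := K.exists_anc
  obtain ⟨F1, hF1, H1⟩ := S.small_elt
  obtain ⟨F2, hF2, H2⟩ := K.near_flow
  let F3 : ℕ → ℕ := fun L => A.F (F1 (L + L) + A.F 0) + L
  have hF3 : Bd F3 := (A.bd.comp ((hF1.comp (Bd.id.add Bd.id)).add (Bd.const _))).add Bd.id
  refine ⟨fun L => F3 L + F2 (F3 L), hF3.add (hF2.comp hF3), fun L k u p hp hne => ?_⟩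
  beta_reduce
  have hk := hp.pos
  have hkL := hp.le
  obtain ⟨x, hx, hx1, hc⟩ := H1 (L + L) p 0 (2 * k) ((hp.mono (by omega)).chain _ _) (by omega)
    (by push_cast; omega) hne
  obtain ⟨y, hy, hn⟩ := A.el (hc 0 le_rfl (by omega)).1
  obtain ⟨z, hz, hz0, -, -⟩ := ch_flow hx1 (hp.chain 0 (2 * k)).path (Sys.mem_fix.1 hx)
    ((near_nd hn).symm.trans (S.nd_s _)) hy
  have hn' : K.Near (F3 L) (S.s (p 0)) (z 0) := by
    rw [hz0]; exact near_mono hn (Nat.le_add_right _ _)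
  have hL : L ≤ F3 L := Nat.le_add_left _ _
  refine ⟨z, hz, near_mono hn' (by omega), ?_⟩
  have := (H2 (F3 L) p z 0 k (by omega) (by omega) ((hp.mono hL).chain _ _)
    (hz.mono le_rfl (by omega))).1 hn'
  have e := hp.per 0
  rw [zero_add] at e
  rw [e, S.s_smul] at this
  have := near_smul u⁻¹ this
  rw [inv_smul_smul] at this
  exact near_mono this (by omega)

/-- Start of G3: the threads are close, or there are long flow lines near both of them. -/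
theorem g3_start : ∃ F, Bd F ∧ ∀ (L k : ℕ) (u : G) (p p' : ℤ → S.P), S.Thread L k u p →
    S.Thread L k u p' → (∀ i, S.arr (p i) = S.arr (p' i)) →
    S.Cl (F L) (S.s (p 0)) (S.s (p' 0)) ∨ ∃ z z' : ℤ → W,
      K.Fl (fun l => S.arr (p l)) z 0 (2 * k) ∧ K.Fl (fun l => S.arr (p l)) z' 0 (2 * k) ∧
      K.Near (F L) (S.s (p 0)) (z 0) ∧ K.Near (F L) (S.s (p 0)) (u⁻¹ • z k) ∧
      K.Near (F L) (S.s (p' 0)) (z' 0) ∧ K.Near (F L) (S.s (p' 0)) (u⁻¹ • z' k) := by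
  obtain ⟨F1, hF1, H1⟩ := S.carry
  obtain ⟨F2, hF2, H2⟩ := K.flow_near
  refine ⟨fun L => F1 (L + L) + F2 L, (hF1.comp (Bd.id.add Bd.id)).add hF2, ?_⟩
  intro L k u p p' hp hp' ha
  beta_reduce
  have hk := hp.pos
  have hkL := hp.le
  have ea : (fun l => S.arr (p' l)) = fun l => S.arr (p l) := funext fun l => (ha l).symm
  by_cases hb : S.Fix (fun l => S.arr (p l)) 0 (2 * k) = ⊥
  · left
    obtain ⟨g, hg, hc⟩ := H1 (L + L) p p' 0 (2 * k) ((hp.mono (by omega)).chain _ _)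
      ((hp'.mono (by omega)).chain _ _) (fun m _ _ => ha m) (by omega) (by push_cast; omega)
    rw [hb, Subgroup.mem_bot] at hg
    have := (hc 0 le_rfl (by omega)).1
    rw [hg, one_smul] at this
    exact this.mono (by omega)
  · right
    obtain ⟨z, h1, h2, h3⟩ := H2 L k u p hp hb
    obtain ⟨z', h1', h2', h3'⟩ := H2 L k u p' hp' (by rw [ea]; exact hb)
    rw [ea] at h1'
    exact ⟨z, z', h1, h1', near_mono h2 (by omega), near_mono h3 (by omega),
      near_mono h2' (by omega), near_mono h3' (by omega)⟩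

variable {K}

theorem TA.mono {r r' κ m : ℕ} {a : ℤ → S.A} {y : ℤ → W} {c c' : S.V} {g : G}
    (h : K.TA r κ m a y c c' g) (hr : r ≤ r') : K.TA r' κ m a y c c' g :=
  let ⟨q, h1, h2, h3, h4⟩ := h; ⟨q, h1.mono hr, h2, h3.mono hr, h4.mono hr⟩

theorem Anc.cl_btw (A : K.Anc) {r : ℕ} {c : S.V} {x x' y y' : W} (h : K.Near r c x)
    (h' : K.Near r c x') (b : Btw K.T x y x') (b' : Btw K.T x y' x') (e : K.T.Adj y y') :
    S.Cl (A.F r + A.F 0) c (A.anc (y, y')) := by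
  rcases sep_of_btw acyc e b b' with hs | hs
  · exact (A.n1e _ _ _ _ _ _ h h' hs).mono (Nat.le_add_right _ _)
  · exact (A.n1e _ _ _ _ _ _ h h' hs).trans (A.rev _ _ e.symm)

theorem PFl.npow {a : ℤ → S.A} {k : ℕ} {u : G} {w : ℤ → W} (h : K.PFl a k u w) (j : ℕ) (i : ℤ) :
    w (i + j * k) = u ^ j • w i := by
  induction j with
  | zero => simp
  | succ j ih =>
    rw [show i + ((j + 1 : ℕ) : ℤ) * k = i + j * k + k by push_cast; ring, h.per, ih, ← mul_smul,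
      ← pow_succ']

/-- Nearness at time `j * k` translated back to time `0`. -/
theorem near_back {L r k : ℕ} {u : G} {p : ℤ → S.P} (hp : S.Thread L k u p) (j : ℕ) (i : ℤ)
    {x : W} (h : K.Near r (S.s (p (i + j * k))) x) : K.Near r (S.s (p i)) ((u ^ j)⁻¹ • x) := by
  rw [hp.npow, S.s_smul] at h
  have := near_smul (u ^ j)⁻¹ h
  rwa [inv_smul_smul] at this

/-- Elements that commute with `u` and fix all arrows of a line. -/
def Ecm (u : G) (a : ℤ → S.A) : Subgroup G where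
  carrier := {e | Commute e u ∧ ∀ i, e • a i = a i}
  mul_mem' := fun {x y} hx hy => ⟨hx.1.mul_left hy.1, fun i => by rw [mul_smul, hy.2, hx.2]⟩
  one_mem' := ⟨Commute.one_left u, fun i => one_smul _ _⟩
  inv_mem' := fun {x} hx => ⟨hx.1.inv_left, fun i => by rw [inv_smul_eq_iff, hx.2]⟩

theorem mem_Ecm_of_window {L k : ℕ} {u g : G} {p : ℤ → S.P} (hp : S.Thread L k u p)
    (hc : Commute g u) (hf : ∀ l : ℤ, 0 ≤ l → l < k → g • S.arr (p l) = S.arr (p l)) :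
    g ∈ Ecm u (fun l => S.arr (p l)) := by
  refine ⟨hc, fun i => ?_⟩
  have hk : (0 : ℤ) < k := by exact_mod_cast hp.pos
  have e : i = i % k + i / k * k := (Int.emod_add_ediv_mul i k).symm
  show g • S.arr (p i) = S.arr (p i)
  rw [e, hp.zpow, S.arr_smul, ← mul_smul, (hc.zpow_right _).eq, mul_smul,
    hf _ (Int.emod_nonneg _ hk.ne') (Int.emod_lt_of_pos _ hk)]

theorem PFl.csmul {a : ℤ → S.A} {k : ℕ} {u g : G} {w : ℤ → W} (h : K.PFl a k u w)
    (hg : g ∈ Ecm u a) : K.PFl a k u (fun l => g • w l) :=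
  ⟨fun l => by
    have := K.M.smul g _ _ _ (h.fl l)
    rwa [hg.2] at this, fun l => by rw [h.per, ← mul_smul, ← mul_smul, hg.1.eq]⟩

end Mc

end CPOR
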