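import Pool.Agent.P.MP_2cb329_al.F.MLift
import Pool.Agent.P.MP_2cb329_al.F.MDyn

/-! Machines: G1 in the case NEG. -/

set_option autoImplicit false

namespace CPOR
open ZT MulAction

variable {G : Type} [Group G] {N : Type} [MulAction G N] {S : Sys G N} {W : Type} [MulAction G W]

namespace Mc

variable (K : Mc S W)

/-- The axis of an element that fixes a path flows isometrically. -/
theorem axis_flow (hN : K.M.NEG) {x : G} (hx : x ≠ 1) {a : ℤ → S.A} {n : ℤ} (hp : S.IsPath a 0 n)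
    (hf : ∀ l, 0 ≤ l → l < n → x • a l = a l) {c : ℤ → W} {l : ℕ} (hc : IsAxis K.T x c l)
    (h0 : K.Z.ν (c 0) = S.src (a 0)) : ∃ v : ℤ → ℤ → W, (∀ j, K.Fl a (v j) 0 n ∧ v j 0 = c j) ∧
      ∀ m, 0 ≤ m → m ≤ n → IsAxis K.T x (fun j => v j m) l := by
  have hch : ∀ j, K.Ch x (c j) := fun j => by
    unfold Ch
    rw [hc.2.2, hc.2.2]
    exact hc.1.btw acyc (by omega) (by omega)
  have hν : ∀ j, K.Z.ν (c j) = S.src (a 0) := fun j =>
    ((K.Z.ν_eq _ _).2 (hc.1.dist acyc j 0).1).trans h0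
  choose v hv hv0 _ _ using fun j => ch_flow hx hp hf (hν j) (hch j)
  refine ⟨v, fun j => ⟨hv j, hv0 j⟩, fun m h1 h2 => ⟨⟨fun j => ?_, fun j e => ?_⟩, hc.2.1,
    fun j => ?_⟩⟩
  · exact (hv j).adj hN (hv (j + 1)) le_rfl (h1.trans h2) (by rw [hv0, hv0]; exact hc.1.1 j) m h1 h2
  · have := (hv j).uniq (hv (j + 2)) h1 h2 e 0 le_rfl (h1.trans h2)
    rw [hv0, hv0] at this
    exact hc.1.2 j this
  · exact (((hv j).smul x).congr hf).uniq (hv (j + l)) le_rfl (h1.trans h2)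
      (by rw [hv0, hv0, hc.2.2]) m h1 h2

theorem neg_g1 (hN : K.M.NEG) (h : K.S'.Gall) : S.G1P S.Any := by
  obtain ⟨A⟩ := K.exists_anc
  obtain ⟨Y⟩ := exists_dyn hN A
  obtain ⟨F1, hF1, H1⟩ := K.g1_ell h
  obtain ⟨M, hM, F2, hF2, H2⟩ := K.ta_g2 h
  obtain ⟨F3, hF3, H3⟩ := A.axis
  obtain ⟨F4, hF4, H4⟩ := S.tl_lip
  let r : ℕ → ℕ := fun L => F3 (L + F4 (L + 1))
  have hr : Bd r := hF3.comp (Bd.id.add (hF4.comp (Bd.id.add (Bd.const 1))))
  refine ⟨fun L => F1 L + F2 (r L + Y.C + 1 * Y.N) + (M * Y.N + 1),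
    (hF1.add (hF2.comp ((hr.add (Bd.const _)).add (Bd.const _)))).add (Bd.const _), ?_⟩
  intro L n x a hx hg _ t0 tn
  beta_reduce
  by_cases hn : n ≤ M * Y.N + 1
  · left; omega
  obtain ⟨p, hp, hpc⟩ := id t0
  obtain ⟨y, hy, hny⟩ := A.el hpc
  have hν : K.Z.ν y = S.src (a 0) := (near_nd hny).symm.trans hp
  by_cases hfix : x • y = y
  · rcases H1 L n x a y hx hg t0 tn hν hfix with h1 | h1
    · left; omega
    · exact Or.inr h1
  obtain ⟨c, l, hc, hc0⟩ := ml_axis K.Z.gf hy hfix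
  obtain ⟨v, hv, hax⟩ := K.axis_flow hN hx hg.path hg.fix hc (by rw [hc0]; exact hν)
  obtain ⟨m, rfl⟩ : ∃ m, n = m + 1 := ⟨n - 1, by omega⟩
  have e1 : ((m + 1 : ℕ) : ℤ) - 1 = m := by push_cast; ring
  have e2 : ((m + 1 : ℕ) : ℤ) = m + 1 := by push_cast; ring
  rw [e1] at tn
  have tm : S.TL (F4 (L + 1)) x (S.src (a m)) :=
    (H4 (L + 1) x a m (m + 1) m m hx (hg.path.mono (by omega) (by omega))
      (Sys.mem_fix.2 fun l h1 h2 => hg.fix l (by omega) (by omega)) (by push_cast; omega) le_rfl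
      (by omega) le_rfl (by omega) (Or.inr (tn.mono (by omega)))).1
  have c0 := H3 (L + F4 (L + 1)) x _ l (hax 0 le_rfl (by omega))
    (by rw [K.M.src _ _ _ ((hv 0).1 0 le_rfl (by omega))]; exact t0.mono (by omega))
  have cm := H3 (L + F4 (L + 1)) x _ l (hax m (by omega) (by omega))
    (by rw [K.M.src _ _ _ ((hv 0).1 m (by omega) (by omega))]; exact tm.mono (by omega))
  have hfl : ∀ j, K.Fl a (v j) 0 (m + 1) := fun j => e2 ▸ (hv j).1
  have hadj : ∀ j, K.T.Adj (v j 0) (v (j + 1) 0) := (hax 0 le_rfl (by omega)).1.1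
  by_cases hm : m ≤ F2 (r L + Y.C + 1 * Y.N)
  · left; omega
  have step : ∀ j : ℤ, Y.g (v j 0) (v (j + 1) 0) ^ M = Y.g (v (j + 1) 0) (v (j + 1 + 1) 0) ^ M := by
    intro j
    have t1 := Y.ta (r L) 1 m a (v (j + 1)) (v j) _ _ le_rfl (hfl _) (hfl _) (hadj j).symm
      (Sys.cl_refl _ _) (Sys.cl_refl _ _)
    have t2 := Y.ta (r L) 1 m a (v (j + 1)) (v (j + 1 + 1)) _ _ le_rfl (hfl _) (hfl _)
      (hadj (j + 1)) (by rw [show j + 1 + 1 = j + 2 by ring]; exact c0 j)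
      (by rw [show j + 1 + 1 = j + 2 by ring]; exact cm j)
    rcases H2 _ _ _ _ _ _ _ _ _ t1 t2 with h1 | h1
    · exact absurd h1 hm
    · rwa [pow_one, pow_one, Y.swap _ _ (hadj j)] at h1
  have all : ∀ j : ℕ, Y.g (v 0 0) (v (0 + 1) 0) ^ M = Y.g (v j 0) (v (j + 1) 0) ^ M := by
    intro j
    induction j with
    | zero => rfl
    | succ j ih => rw [ih, step]; push_cast; rfl
  have hx0 := (hax 0 le_rfl (by omega)).2.2
  have e3 := all l
  have e4 : v l 0 = x • v 0 0 := by rw [hx0, zero_add]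
  have e5 : v (l + 1) 0 = x • v (0 + 1) 0 := by rw [hx0]; congr 1; ring
  rw [e4, e5, Y.conj _ _ _ (hadj 0), conj_pow] at e3
  have hMN : 0 < M * Y.N := Nat.mul_pos hM Y.pos
  refine Or.inr ⟨Y.g (v 0 0) (v (0 + 1) 0) ^ M, 0, 0 + M * Y.N, le_rfl, by
    rw [zero_add]; exact_mod_cast hMN, by rw [zero_add]; exact_mod_cast (by omega), ?_, ?_⟩
  · exact (eq_mul_inv_iff_mul_eq.1 e3)
  · refine ((Y.per_pow hN (hfl 0) (hfl (0 + 1)) (hadj 0) M).2 0 le_rfl ?_).symm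
    rw [zero_add]; exact_mod_cast (by omega)

end Mc

end CPOR
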