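import Pool.Agent.P.MP_2cb329_al.F.MLift
import Pool.Agent.P.MP_2cb329_al.F.MDyn

/-! Machines: G2 in the case NEG. -/

set_option autoImplicit false

namespace CPOR
open ZT MulAction

variable {G : Type} [Group G] {N : Type} [MulAction G N] {S : Sys G N} {W : Type} [MulAction G W]

namespace Mc

variable (K : Mc S W)

/-- Two threads with periodic flow lines that are near the first thread at both ends. -/
theorem neg_g2_chain (hN : K.M.NEG) (h : K.S'.Gall) : ∃ M : ℕ, 0 < M ∧ ∃ F, Bd F ∧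
    ∀ (r k m : ℕ) (u u' : G) (p p' : ℤ → S.P) (w w' : ℤ → W), S.Thread r k u p →
    S.Thread r k u' p' → (∀ i : ℤ, 0 ≤ i → i ≤ m → S.arr (p i) = S.arr (p' i)) →
    S.Cl r (S.s (p 0)) (S.s (p' 0)) → S.Cl r (S.s (p m)) (S.s (p' m)) →
    K.PFl (fun l => S.arr (p l)) k u w → K.PFl (fun l => S.arr (p' l)) k u' w' →
    K.Near r (S.s (p 0)) (w 0) → K.Near r (S.s (p m)) (w m) →
    K.Near r (S.s (p' 0)) (w' 0) → K.Near r (S.s (p' m)) (w' m) →
    m ≤ F r ∨ u ^ M = u' ^ M := by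
  obtain ⟨A⟩ := K.exists_anc
  obtain ⟨Y⟩ := exists_dyn hN A
  obtain ⟨M, hM, F2, hF2, H2⟩ := K.ta_g2 h
  obtain ⟨F1, hF1, H1⟩ := K.ta_lift
  let R : ℕ → ℕ := fun r => F1 r + (A.F (r + r) + A.F 0) + Y.C + r * Y.N
  have hR : Bd R := ((hF1.add ((A.bd.comp (Bd.id.add Bd.id)).add (Bd.const _))).add
    (Bd.const _)).add (Bd.id.mul (Bd.const _))
  refine ⟨Y.N * M, Nat.mul_pos Y.pos hM, fun r => F2 (R r), hF2.comp hR, ?_⟩
  intro r k m u u' p p' w w' hp hp' ha c0 cm hw hw' n0 nm n0' nm'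
  by_cases hm : m ≤ F2 (R r)
  · exact Or.inl hm
  right
  have hkN : k * Y.N ≤ r * Y.N := Nat.mul_le_mul_right _ hp.le
  have f1 := hw.toFl 0 (m + 1)
  have f2 : K.Fl (fun l => S.arr (p l)) w' 0 (m + 1) :=
    (hw'.toFl 0 (m + 1)).congr fun l h0 h1 => (ha l h0 (by omega)).symm
  have a0 : K.Near (r + r) (S.s (p 0)) (w 0) := near_mono n0 (by omega)
  have am : K.Near (r + r) (S.s (p m)) (w m) := near_mono nm (by omega)
  have a0' : K.Near (r + r) (S.s (p 0)) (w' 0) := near_cl c0 n0'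
  have am' : K.Near (r + r) (S.s (p m)) (w' m) := near_cl cm nm'
  obtain ⟨y, y0, yD, yadj, -, ybtw⟩ := exists_geod (near_reach a0 a0')
  set D := K.T.dist (w 0) (w' 0)
  have : ∀ j : ℕ, ∃ v : ℤ → W, j ≤ D → K.Fl (fun l => S.arr (p l)) v 0 (m + 1) ∧ v 0 = y j ∧
      ∀ l : ℤ, 0 ≤ l → l ≤ m + 1 → Btw K.T (w l) (v l) (w' l) := fun j => by
    by_cases hj : j ≤ D
    · obtain ⟨v, hv⟩ := f1.btw f2 (ybtw j hj)
      exact ⟨v, fun _ => hv⟩
    · exact ⟨w, fun h => absurd h hj⟩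
  choose v hv using this
  let P : ℕ → G → Prop := fun j g =>
    K.TA (R r) (k * Y.N) m (fun l => S.arr (p l)) (v j) (S.s (p 0)) (S.s (p m)) g
  have eq : ∀ j g g', P j g → P j g' → g ^ M = g' ^ M := fun j g g' h1 h2 =>
    (H2 _ _ _ _ _ _ _ _ _ h1 h2).resolve_left hm
  have dart : ∀ i j, i ≤ D → j ≤ D → K.T.Adj (y i) (y j) → P i (Y.g (y i) (y j) ^ k) := by
    intro i j hi hj e
    obtain ⟨i1, i2, i3⟩ := hv i hi
    obtain ⟨j1, j2, j3⟩ := hv j hj
    have e0 : K.T.Adj (v i 0) (v j 0) := by rw [i2, j2]; exact e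
    have em := i1.adj hN j1 le_rfl (by omega) e0 m (by omega) (by omega)
    have := Y.ta (A.F (r + r) + A.F 0) k m _ (v i) (v j) _ _ hp.pos i1 j1 e0
      (A.cl_btw a0 a0' (i3 0 le_rfl (by omega)) (j3 0 le_rfl (by omega)) e0)
      (A.cl_btw am am' (i3 m (by omega) (by omega)) (j3 m (by omega) (by omega)) em)
    rw [i2, j2] at this
    exact this.mono (by simp only [R]; omega)
  have s0 : P 0 (u ^ Y.N) :=
    (H1 r k Y.N m u p _ w (v 0) _ _ Y.pos hp hw (fun _ _ _ => rfl)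
      (f1.uniq (hv 0 (Nat.zero_le _)).1 le_rfl (by omega)
        (by rw [(hv 0 (Nat.zero_le _)).2.1, y0])) n0 nm (Sys.cl_refl _ _)
      (Sys.cl_refl _ _)).mono (by simp only [R]; omega)
  have sD : P D (u' ^ Y.N) :=
    (H1 r k Y.N m u' p' _ w' (v D) _ _ Y.pos hp' hw' (fun l h0 h1 => (ha l h0 h1).symm)
      (f2.uniq (hv D le_rfl).1 le_rfl (by omega) (by rw [(hv D le_rfl).2.1, yD])) n0' nm' c0
      cm).mono (by simp only [R]; omega)
  have ind : ∀ j ≤ D, ∃ g, P j g ∧ (u ^ Y.N) ^ M = g ^ M := by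
    intro j
    induction j with
    | zero => exact fun _ => ⟨_, s0, rfl⟩
    | succ j ih =>
      intro hj
      obtain ⟨g, hg, e⟩ := ih (by omega)
      have e1 := yadj j (by omega)
      refine ⟨_, dart (j + 1) j hj (by omega) e1.symm, ?_⟩
      rw [e, eq j _ _ hg (dart j (j + 1) (by omega) hj e1), Y.swap _ _ e1]
  obtain ⟨g, hg, e⟩ := ind D le_rfl
  rw [pow_mul, pow_mul, e, eq D _ _ hg sD]

/-- Bounds for the return map at both ends of a long segment. -/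
theorem ret_bounds (hN : K.M.NEG) (A : K.Anc) : ∃ F, Bd F ∧ ∀ (r k n J : ℕ) (u : G)
    (p : ℤ → S.P) (z z' : ℤ → W), S.Thread r k u p → K.Fl (fun l => S.arr (p l)) z 0 n →
    K.Fl (fun l => S.arr (p l)) z' 0 n → k ≤ n → J * k ≤ n → n ≤ J * k + k →
    K.Near r (S.s (p 0)) (z 0) → K.Near r (S.s (p n)) (z' n) →
    K.Near (F r) (S.s (p 0)) (z 0) ∧ K.Near (F r) (S.s (p 0)) (u⁻¹ • z k) ∧
      K.T.dist (z 0) (u⁻¹ • z k) ≤ F r ∧ K.T.dist (z' 0) (u⁻¹ • z' k) ≤ F r ∧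
      K.T.dist (z 0) ((u ^ J)⁻¹ • z' (J * k)) ≤ F r := by
  obtain ⟨F1, hF1, H1⟩ := K.near_flow
  refine ⟨fun r => r + F1 r + A.F (r + F1 r), (Bd.id.add hF1).add (A.bd.comp (Bd.id.add hF1)), ?_⟩
  intro r k n J u p z z' hp hz hz' hk hJ hJ' n0 nn
  beta_reduce
  have hkr := hp.le
  have hJ1 : ((J * k : ℕ) : ℤ) = J * k := by push_cast; rfl
  have b0 : K.Near (r + F1 r) (S.s (p 0)) (z 0) := near_mono n0 (by omega)
  have b1 : K.Near (r + F1 r) (S.s (p 0)) (u⁻¹ • z k) := by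
    have := (H1 r p z 0 k (by omega) (by omega) (hp.chain _ _) (hz.mono le_rfl (by omega))).1 n0
    have := near_back hp 1 0 (x := z k) (by simpa using this)
    rw [pow_one] at this
    exact near_mono this (by omega)
  have b2 : K.Near (r + F1 r) (S.s (p 0)) ((u ^ J)⁻¹ • z' (J * k)) := by
    have := (H1 r p z' (J * k) n (by omega) (by omega) (hp.chain _ _)
      (hz'.mono (by omega) le_rfl)).2 nn
    exact near_mono (near_back hp J 0 (by rw [zero_add]; exact this)) (by omega)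
  have b3 : K.T.dist (z' 0) (u⁻¹ • z' k) ≤ A.F (r + F1 r) := by
    have f := hz'.back (k := k) (u := u) (fun l => hp.arr_per l)
    have := (hz'.mono le_rfl (show (n : ℤ) - k ≤ n by omega)).dist hN (f.mono (by omega) le_rfl)
      (n - k) (by omega) le_rfl
    rw [zero_add, sub_add_cancel] at this
    rw [← this]
    have t1 := (H1 r p z' (n - k) n (by omega) (by omega) (hp.chain _ _)
      (hz'.mono (by omega) le_rfl)).2 nn
    have t2 := near_back hp 1 (n - k) (x := z' n) (by simpa using nn)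
    rw [pow_one] at t2
    exact A.n1d _ _ _ _ (near_mono t1 (by omega)) (near_mono t2 (by omega))
  exact ⟨near_mono b0 (by omega), near_mono b1 (by omega),
    (A.n1d _ _ _ _ b0 b1).trans (by omega), b3.trans (by omega),
    (A.n1d _ _ _ _ b0 b2).trans (by omega)⟩

variable {K} in
/-- A point of period two of the return map lies on a periodic flow line. -/
theorem per_point {k : ℕ} {u : G} {a : ℤ → S.A} {F : W → W} (hk : 1 ≤ k)
    (hF : ∀ v, K.Fl a v 0 k → F (v 0) = u⁻¹ • v k) (ha : ∀ l : ℤ, a (l + k) = u • a l) {x : W}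
    (h0 : x ∈ {y | ∃ v, K.Fl a v 0 k ∧ v 0 = y}) (h1 : F x ∈ {y | ∃ v, K.Fl a v 0 k ∧ v 0 = y})
    (e : F (F x) = x) : ∃ w, K.PFl a (k * 2) (u ^ 2) w ∧ w 0 = x := by
  obtain ⟨v, hv, rfl⟩ := ret_flow (J := 2) hk hF ha (y := x) (fun m hm => by
    interval_cases m
    · exact h0
    · exact h1)
  have e2 := (ret_iter hF ha (fun _ _ _ => rfl) hv).2 2 le_rfl
  have e3 : ((k * 2 : ℕ) : ℤ) = (2 : ℕ) * k := by push_cast; ring
  refine Fl.per (by omega) (fun l => ?_) (by rw [e3]; exact hv) ?_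
  · rw [show l + ((k * 2 : ℕ) : ℤ) = l + k + k by push_cast; ring, ha, ha, ← mul_smul, sq]
  · have : F^[2] (v 0) = v 0 := e
    rw [e3, ← this, e2, smul_inv_smul]

theorem neg_g2 (hN : K.M.NEG) (h : K.S'.Gall) : S.G2P S.Any := by
  obtain ⟨A⟩ := K.exists_anc
  obtain ⟨M, hM, F1, hF1, H1⟩ := K.neg_g2_chain hN h
  obtain ⟨F2, hF2, H2⟩ := S.eps_small
  obtain ⟨F3, hF3, H3⟩ := S.chain_lip
  obtain ⟨F4, hF4, H4⟩ := K.ret_bounds hN A
  let R1 : ℕ → ℕ := fun L => F3 (L + L + 1) + L + A.F (F2 L + A.F 0)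
  have hR1 : Bd R1 := ((hF3.comp ((Bd.id.add Bd.id).add (Bd.const 1))).add Bd.id).add
    (A.bd.comp (hF2.add (Bd.const _)))
  let R2 : ℕ → ℕ := fun L => A.F (F4 (R1 L)) + F3 (L + L + 1) + (L + L + L)
  have hR2 : Bd R2 := ((A.bd.comp (hF4.comp hR1)).add
    (hF3.comp ((Bd.id.add Bd.id).add (Bd.const 1)))).add ((Bd.id.add Bd.id).add Bd.id)
  refine ⟨2 * M, by omega, fun L => (14 * F4 (R1 L) + 5) * L + (F1 (R2 L) + (L + L)),
    ((((Bd.const 14).mul (hF4.comp hR1)).add (Bd.const 5)).mul Bd.id).add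
      ((hF1.comp hR2).add (Bd.id.add Bd.id)), ?_⟩
  intro L k n u u' p p' hp hp' ha _ c0 cn
  beta_reduce
  have hk := hp.pos
  have hkL := hp.le
  by_cases hu : u = u'
  · right; rw [hu]
  by_cases hkn : n ≤ k + k
  · left; omega
  have hε : u⁻¹ * u' ≠ 1 := fun e => hu (inv_mul_eq_one.1 e)
  obtain ⟨ef, e0, en⟩ := H2 L k n u u' p p' hp hp' ha c0 cn (by omega)
  obtain ⟨n', rfl⟩ : ∃ n', n = n' + k := ⟨n - k, by omega⟩
  have en' : ((n' + k : ℕ) : ℤ) - k = n' := by push_cast; ring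
  rw [en'] at ef en
  have near_n : ∀ l : ℤ, 0 ≤ l → l ≤ (n' + k : ℕ) → ((n' + k : ℕ) : ℤ) ≤ l + (L + L) →
      S.Cl (F3 (L + L + 1)) (S.s (p l)) (S.s (p' l)) := fun l h0 h1 h2 =>
    (H3 (L + L + 1) p p' l ((n' + k : ℕ) + 1) (n' + k : ℕ) l ((hp.mono (by omega)).chain _ _)
      ((hp'.mono (by omega)).chain _ _) (fun m h3 h4 => ha m (by omega) (by omega))
      (by push_cast at h2 ⊢; omega) h1 (by omega) le_rfl (by omega)
      (Or.inl (cn.mono (by omega)))).1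
  obtain ⟨y, hy, ny⟩ := A.el e0
  obtain ⟨y', hy', ny'⟩ := A.el en
  have ef' : ∀ l : ℤ, 0 ≤ l → l < n' + 1 → (u⁻¹ * u') • S.arr (p l) = S.arr (p l) :=
    fun l h0 h1 => ef l h0 (by omega)
  obtain ⟨z, hz, z0, zc, -⟩ := ch_flow hε (hp.chain 0 (n' + 1)).path ef'
    ((near_nd ny).symm.trans (S.nd_s _)) hy
  obtain ⟨z', hz', z0'⟩ := ch_flow_back hN hε ef' hz zc (l := n') (by omega) (by omega)
    ((K.Z.ν_eq _ _).1 (by
      rw [K.M.src _ _ _ (hz n' (by omega) (by omega)), ← near_nd ny', S.nd_s])) hy'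
  have gz := hz.mono le_rfl (show (n' : ℤ) ≤ n' + 1 by omega)
  have gz' := hz'.mono le_rfl (show (n' : ℤ) ≤ n' + 1 by omega)
  have ea : ∀ l : ℤ, 0 ≤ l → l < n' → S.arr (p l) = S.arr (p' l) :=
    fun l h0 h1 => ha l h0 (by omega)
  obtain ⟨J, hJ, hJ'⟩ : ∃ J, J * k ≤ n' ∧ n' ≤ J * k + k :=
    ⟨n' / k, Nat.div_mul_le_self _ _, (Nat.lt_div_mul_add hk).le⟩
  have hJ1 : ((J * k : ℕ) : ℤ) = J * k := by push_cast; rfl
  have hL1 : L ≤ R1 L := by simp only [R1]; omega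
  obtain ⟨b0, b1, d1, d2, d5⟩ := H4 (R1 L) k n' J u p z z' (hp.mono hL1) gz gz' (by omega) hJ hJ'
    (by rw [z0]; exact near_mono ny (by simp only [R1]; omega))
    (by rw [z0']; exact near_mono ny' (by simp only [R1]; omega))
  obtain ⟨b0', b1', d3, d4, d6⟩ := H4 (R1 L) k n' J u' p' z z' (hp'.mono hL1) (gz.congr ea)
    (gz'.congr ea) (by omega) hJ hJ'
    (by rw [z0]; exact near_mono (near_cl c0.symm ny) (by simp only [R1]; omega))
    (by
      rw [z0']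
      exact near_mono (near_cl (near_n n' (by omega) (by omega) (by omega)).symm ny')
        (by simp only [R1]; omega))
  obtain ⟨F, hP, hF⟩ := exists_ret (a := fun l => S.arr (p l)) hN hk u
  obtain ⟨F', hP', hF'⟩ := exists_ret (a := fun l => S.arr (p' l)) hN hk u'
  have eD : {y | ∃ v, K.Fl (fun l => S.arr (p' l)) v 0 k ∧ v 0 = y} =
      {y | ∃ v, K.Fl (fun l => S.arr (p l)) v 0 k ∧ v 0 = y} := by
    ext y
    exact ⟨fun ⟨v, hv, e⟩ => ⟨v, hv.congr fun l h0 h1 => (ea l h0 (by omega)).symm, e⟩,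
      fun ⟨v, hv, e⟩ => ⟨v, hv.congr fun l h0 h1 => ea l h0 (by omega), e⟩⟩
  obtain ⟨i1, j1⟩ := ret_iter (J := J) hF hp.arr_per (fun _ _ _ => rfl)
    (gz.mono le_rfl (by omega))
  obtain ⟨i2, j2⟩ := ret_iter (J := J) hF hp.arr_per (fun _ _ _ => rfl)
    (gz'.mono le_rfl (by omega))
  obtain ⟨i3, j3⟩ := ret_iter (J := J) hF' hp'.arr_per (fun _ _ _ => rfl)
    ((gz.congr ea).mono le_rfl (by omega))
  obtain ⟨i4, j4⟩ := ret_iter (J := J) hF' hp'.arr_per (fun _ _ _ => rfl)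
    ((gz'.congr ea).mono le_rfl (by omega))
  have k1 := hF z (gz.mono le_rfl (by omega))
  have k2 := hF z' (gz'.mono le_rfl (by omega))
  have k3 := hF' z ((gz.congr ea).mono le_rfl (by omega))
  have k4 := hF' z' ((gz'.congr ea).mono le_rfl (by omega))
  by_cases hJ2 : J ≤ 14 * F4 (R1 L) + 3
  · left
    have : J * k ≤ (14 * F4 (R1 L) + 3) * L := Nat.mul_le_mul hJ2 hkL
    have e : (14 * F4 (R1 L) + 5) * L = (14 * F4 (R1 L) + 3) * L + (L + L) := by ring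
    omega
  rcases PIso.drift (c := F4 (R1 L)) acyc hP (eD ▸ hP') i1 i2 (eD ▸ i3) (eD ▸ i4) (by rw [k1]; exact d1)
    (by rw [k2]; exact d2) (by rw [k3]; exact d3) (by rw [k4]; exact d4)
    (by rw [j2 J le_rfl]; exact d5) (by rw [j4 J le_rfl]; exact d6) with
    h1 | ⟨_, ⟨v, hv, rfl⟩, _, ⟨v', hv', rfl⟩, hadj, e1, e2⟩ | ⟨⟨x, x1, x2, x3⟩, x', x1', x2', x3'⟩
  · exact absurd h1 hJ2
  · exfalso
    rw [hF v hv, hF' v (hv.congr fun l h0 h1 => ea l h0 (by omega))] at e1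
    rw [hF v' hv', hF' v' (hv'.congr fun l h0 h1 => ea l h0 (by omega))] at e2
    have := K.Z.gf.etriv (u' * u⁻¹) _ _ (hv.adj hN hv' le_rfl (by omega) hadj k (by omega) le_rfl)
      (by rw [mul_smul, e1, smul_inv_smul]) (by rw [mul_smul, e2, smul_inv_smul])
    exact hu (mul_inv_eq_one.1 this).symm
  · have m0 := i1 0 (by omega)
    have m1 := i1 1 (by omega)
    have m0' := i3 0 (by omega)
    have m1' := i3 1 (by omega)
    obtain ⟨w, hw, w0⟩ := per_point hk hF hp.arr_per ((hP.cvx _ m0 _ m1).2 _ x1)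
      ((hP.cvx _ m0 _ m1).2 _ x2) x3
    obtain ⟨w', hw', w0'⟩ := per_point hk hF' hp'.arr_per ((hP'.cvx _ m0' _ m1').2 _ x1')
      ((hP'.cvx _ m0' _ m1').2 _ x2') x3'
    have nw : K.Near (R2 L) (S.s (p 0)) (w 0) := by
      rw [w0]
      exact near_mono (A.n1v _ _ _ _ _ b0 b1 (k1 ▸ x1)) (by simp only [R2]; omega)
    have nw' : K.Near (R2 L) (S.s (p' 0)) (w' 0) := by
      rw [w0']
      exact near_mono (A.n1v _ _ _ _ _ b0' b1' (k3 ▸ x1')) (by simp only [R2]; omega)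
    obtain ⟨I, hI, hI'⟩ : ∃ I, I * (k * 2) ≤ n' + k ∧ n' + k ≤ I * (k * 2) + k * 2 :=
      ⟨(n' + k) / (k * 2), Nat.div_mul_le_self _ _, (Nat.lt_div_mul_add (by omega)).le⟩
    have t := (hp.mul (j := 2) (by omega)).mono (show L + k * 2 ≤ R2 L by simp only [R2]; omega)
    have t' := (hp'.mul (j := 2) (by omega)).mono (show L + k * 2 ≤ R2 L by simp only [R2]; omega)
    have eI : ((I * (k * 2) : ℕ) : ℤ) = 0 + I * (k * 2 : ℕ) := by push_cast; ring
    rcases H1 (R2 L) (k * 2) (I * (k * 2)) _ _ p p' w w' t t' (fun i h0 h1 => ha i h0 (by omega))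
      (c0.mono (by simp only [R2]; omega))
      ((near_n _ (by omega) (by omega) (by omega)).mono (by simp only [R2]; omega)) hw hw' nw
      (by rw [eI, t.npow, hw.npow, S.s_smul]; exact near_smul _ nw) nw'
      (by rw [eI, t'.npow, hw'.npow, S.s_smul]; exact near_smul _ nw') with h1 | h1
    · left; omega
    · right; rw [pow_mul, pow_mul, h1]

end Mc

end CPOR
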