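import Pool.Agent.P.MP_2cb329_al.F.MLift
import Pool.Agent.P.MP_2cb329_al.F.MDyn

/-! Machines: G3 in the case NEG, drifting flow lines. -/

set_option autoImplicit false

namespace CPOR
open ZT MulAction

variable {G : Type} [Group G] {N : Type} [MulAction G N] {S : Sys G N} {W : Type} [MulAction G W]

namespace Mc

variable (K : Mc S W)

variable {K} in
theorem Fl.backn {L k : ℕ} {u : G} {p : ℤ → S.P} (hp : S.Thread L k u p) {w : ℤ → W} {i j : ℤ}
    (h : K.Fl (fun l => S.arr (p l)) w i j) (q : ℕ) :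
    K.Fl (fun l => S.arr (p l)) (fun l => (u ^ q)⁻¹ • w (l + q * k)) (i - q * k) (j - q * k) :=
  ((h.shift (q * k)).smul (u ^ q)⁻¹).congr fun l _ _ => by
    rw [hp.npow, S.arr_smul, inv_smul_smul]

/-- Two darts at one vertex whose anchors are close at both ends have the same translation. -/
theorem two_darts (h : K.S'.Gall) {A : K.Anc} (Y : Dyn A) : ∃ M : ℕ, 0 < M ∧ ∃ F, Bd F ∧
    ∀ (r m : ℕ) (a : ℤ → S.A) (y y' y'' : ℤ → W) (c c' : S.V), F r < m → K.Fl a y 0 (m + 1) →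
    K.Fl a y' 0 (m + 1) → K.Fl a y'' 0 (m + 1) → K.T.Adj (y 0) (y' 0) → K.T.Adj (y 0) (y'' 0) →
    S.Cl r c (A.anc (y 0, y' 0)) → S.Cl r c' (A.anc (y m, y' m)) →
    S.Cl r c (A.anc (y 0, y'' 0)) → S.Cl r c' (A.anc (y m, y'' m)) →
    Y.g (y' 0) (y 0) ^ M = Y.g (y 0) (y'' 0) ^ M := by
  obtain ⟨M, hM, F, hF, H⟩ := K.ta_g2 h
  refine ⟨M, hM, fun r => F (r + Y.C + 1 * Y.N),
    hF.comp ((Bd.id.add (Bd.const _)).add (Bd.const _)), ?_⟩
  intro r m a y y' y'' c c' hm f f' f'' e' e'' c1 c2 c3 c4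
  rcases H _ _ _ _ _ _ _ _ _ (Y.ta r 1 m a y y' c c' le_rfl f f' e' c1 c2)
    (Y.ta r 1 m a y y'' c c' le_rfl f f'' e'' c3 c4) with h1 | h1
  · exact absurd h1 (not_le.2 hm)
  · rwa [pow_one, pow_one, ← Y.swap _ _ e'] at h1

/-- `w 0` is moved by the return map, its `J`-th iterate is near the second thread. -/
theorem neg_g3_drift (hN : K.M.NEG) (h : K.S'.Gall) : ∃ F, Bd F ∧
    ∀ (r k J : ℕ) (u : G) (p p' : ℤ → S.P) (w : ℤ → W), S.Thread r k u p → S.Thread r k u p' →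
    (∀ i, S.arr (p i) = S.arr (p' i)) → K.Fl (fun l => S.arr (p l)) w 0 ((J + 2 : ℕ) * k) →
    w 0 ≠ u⁻¹ • w k →
    K.Near r (S.s (p 0)) (w 0) → K.Near r (S.s (p' (J * k))) (w (J * k)) →
    ∃ e : G, Commute e u ∧ (∀ i, e • S.arr (p i) = S.arr (p i)) ∧
      S.Cl (F r) (S.s (p 0)) (e • S.s (p' 0)) := by
  obtain ⟨A⟩ := K.exists_anc
  obtain ⟨Y⟩ := exists_dyn hN A
  obtain ⟨M, hM, F2, hF2, H2⟩ := K.two_darts h Y
  obtain ⟨F1, hF1, H1⟩ := K.near_flow
  let R1 : ℕ → ℕ := fun r => F1 (r + r) + r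
  have hR1 : Bd R1 := (hF1.comp (Bd.id.add Bd.id)).add Bd.id
  let β : ℕ → ℕ := fun r => F2 (A.F (R1 r) + A.F 0) + (Y.N * M + 2)
  have hβ : Bd β := (hF2.comp ((A.bd.comp hR1).add (Bd.const _))).add (Bd.const _)
  let R2 : ℕ → ℕ := fun r => F1 ((β r + 1) * r + r) + R1 r
  have hR2 : Bd R2 := (hF1.comp (((hβ.add (Bd.const 1)).mul Bd.id).add Bd.id)).add hR1
  refine ⟨fun r => A.F (R2 r) + A.F (R2 r), (A.bd.comp hR2).add (A.bd.comp hR2), ?_⟩
  intro r k J u p p' w hp hp' ha hw hne n0 nJ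
  beta_reduce
  suffices H : ∃ e ∈ Ecm u (fun l => S.arr (p l)),
      S.Cl (A.F (R2 r) + A.F (R2 r)) (S.s (p 0)) (e • S.s (p' 0)) from
    let ⟨e, he, hc⟩ := H; ⟨e, he.1, he.2, hc⟩
  have hk := hp.pos
  have hkr := hp.le
  induction J using Nat.strong_induction_on generalizing p w with
  | _ J ih =>
  have hJ0 : (0 : ℤ) ≤ J * k := by positivity
  have eJ : ((J + 2 : ℕ) : ℤ) * k = J * k + k + k := by push_cast; ring
  rw [eJ] at hw
  have hw' : K.Fl (fun l => S.arr (p' l)) w 0 (J * k + k + k) := hw.congr fun l _ _ => ha l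
  have w1 := (hw.back (k := k) (u := u) hp.arr_per).mono (show 0 - (k : ℤ) ≤ 0 by omega) le_rfl
  rw [add_sub_cancel_right] at w1
  have hw0 := hw.mono le_rfl (show J * k + (k : ℤ) ≤ _ by omega)
  have hne' : ∀ l : ℤ, 0 ≤ l → l ≤ J * k + k → w l ≠ u⁻¹ • w (l + k) := fun l h0 h1 e =>
    hne (by simpa using hw0.uniq w1 h0 h1 e 0 le_rfl (by omega))
  have bk : ∀ {q : ℤ → S.P} {ρ : ℕ} (i : ℤ) {x : W}, S.Thread r k u q →
      K.Near ρ (S.s (q (i + k))) x → K.Near ρ (S.s (q i)) (u⁻¹ • x) := fun i x hq hx => by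
    have := near_back hq 1 i (x := x) (by simpa using hx)
    rwa [pow_one] at this
  have nJ1 : K.Near (R1 r) (S.s (p' (J * k + k))) (w (J * k + k)) :=
    near_mono ((H1 (r + r) p' w (J * k) (J * k + k) (by omega) (by push_cast; omega)
      ((hp'.mono (by omega)).chain _ _) (hw'.mono hJ0 (by omega))).1 (near_mono nJ (by omega)))
      (by simp only [R1]; omega)
  have hr1 : r ≤ R1 r := by simp only [R1]; omega
  by_cases hJ : J ≤ β r
  · have hb : (J : ℤ) * k + k ≤ ((β r + 1) * r + r : ℕ) := by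
      have : (J + 1) * k ≤ (β r + 1) * r := Nat.mul_le_mul (by omega) hkr
      have e : (J + 1) * k = J * k + k := by ring
      exact_mod_cast (by omega)
    have fw := fun j (h0 : 0 ≤ j) (h1 : j ≤ J * k + (k : ℤ)) =>
      (H1 ((β r + 1) * r + r) p w 0 j h0 (by omega) ((hp.mono (by omega)).chain _ _)
        (hw.mono le_rfl (by omega))).1 (near_mono n0 (by omega))
    have t1 := fw (J * k) hJ0 (by omega)
    have t2 := bk _ hp (fw (J * k + k) (by omega) le_rfl)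
    have t3 := bk _ hp' nJ1
    have := A.near_two (r := R2 r) (near_mono t1 (by simp only [R2]; omega))
      (near_mono t2 (by simp only [R2]; omega)) (near_mono nJ (by simp only [R2]; omega))
      (near_mono t3 (by simp only [R2]; omega)) (hne' _ hJ0 (by omega))
    refine ⟨1, (Ecm u _).one_mem, ?_⟩
    have e1 := hp.npow J 0
    have e2 := hp'.npow J 0
    rw [zero_add] at e1 e2
    rw [e1, e2, S.s_smul, S.s_smul] at this
    rw [one_smul]
    exact (Sys.cl_smul_iff _).1 this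
  have hβ' : F2 (A.F (R1 r) + A.F 0) + (Y.N * M + 2) < J := not_le.1 hJ
  obtain ⟨J', rfl⟩ : ∃ J', J = J' + 1 := ⟨J - 1, by omega⟩
  have em : ((J' + 1 : ℕ) : ℤ) * k = (J' * k : ℕ) + k := by push_cast; ring
  have hm : F2 (A.F (R1 r) + A.F 0) < J' * k :=
    lt_of_lt_of_le (by omega) (Nat.le_mul_of_pos_right J' hk)
  generalize hmm : J' * k = m at em hm
  rw [em] at hw hw' w1 hw0 hne' nJ nJ1
  -- nearness at time `0`
  have fw := fun j (h0 : 0 ≤ j) (h1 : j ≤ k + (k : ℤ)) => near_mono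
    ((H1 (r + r) p w 0 j h0 (by push_cast; omega) ((hp.mono (by omega)).chain _ _)
      (hw.mono le_rfl (by omega))).1 (near_mono n0 (by omega))) (Nat.le_add_right _ r)
  have a0 : K.Near (R1 r) (S.s (p 0)) (w 0) := near_mono n0 hr1
  have a1 : K.Near (R1 r) (S.s (p 0)) (u⁻¹ • w (0 + k)) := bk _ hp (fw _ (by omega) (by omega))
  have a2 : K.Near (R1 r) (S.s (p 0)) (u⁻¹ • u⁻¹ • w (0 + k + k)) :=
    bk _ hp (bk _ hp (fw _ (by omega) (by omega)))
  -- nearness at time `m`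
  have b0 : K.Near (R1 r) (S.s (p' m)) (w m) :=
    near_mono ((H1 (r + r) p' w m (m + k) (by omega) (by push_cast; omega)
      ((hp'.mono (by omega)).chain _ _) (hw'.mono (by omega) (by omega))).2
      (near_mono nJ (by omega))) (Nat.le_add_right _ r)
  have b1 : K.Near (R1 r) (S.s (p' m)) (u⁻¹ • w (m + k)) := bk _ hp' (near_mono nJ hr1)
  have b2 : K.Near (R1 r) (S.s (p' m)) (u⁻¹ • u⁻¹ • w (m + k + k)) := bk _ hp' (bk _ hp' nJ1)
  obtain ⟨y, y0, yD, yadj, -, ybtw⟩ := exists_geod (near_reach a0 a1)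
  set δ := K.T.dist (w 0) (u⁻¹ • w (0 + k)) with hδ
  have hδ1 : 1 ≤ δ := Nat.pos_of_ne_zero fun e =>
    hne' 0 le_rfl (by omega) (eq_of_dist_zero (near_reach a0 a1) e)
  have : ∀ j : ℕ, ∃ v : ℤ → W, j ≤ δ → K.Fl (fun l => S.arr (p l)) v 0 (m + k + k) ∧ v 0 = y j ∧
      ∀ l : ℤ, 0 ≤ l → l ≤ m + k + k → Btw K.T (w l) (v l) (u⁻¹ • w (l + k)) := fun j => by
    by_cases hj : j ≤ δ
    · obtain ⟨v, hv⟩ := hw0.btw w1 (ybtw j hj)
      exact ⟨v, fun _ => hv⟩
    · exact ⟨w, fun h => absurd h hj⟩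
  choose v hv using this
  have vf : ∀ j ≤ δ, K.Fl (fun l => S.arr (p l)) (v j) 0 (m + 1) := fun j hj =>
    (hv j hj).1.mono le_rfl (by omega)
  have vadj : ∀ j < δ, ∀ l : ℤ, 0 ≤ l → l ≤ m + k + k → K.T.Adj (v j l) (v (j + 1) l) :=
    fun j hj => (hv j (by omega)).1.adj hN (hv (j + 1) hj).1 le_rfl (by omega)
      (by rw [(hv j (by omega)).2.1, (hv (j + 1) hj).2.1]; exact yadj j hj)
  have c0 : ∀ i ≤ δ, ∀ j ≤ δ, K.T.Adj (v i 0) (v j 0) →
      S.Cl (A.F (R1 r) + A.F 0) (S.s (p 0)) (A.anc (v i 0, v j 0)) := fun i hi j hj e =>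
    A.cl_btw a0 a1 ((hv i hi).2.2 0 le_rfl (by omega)) ((hv j hj).2.2 0 le_rfl (by omega)) e
  have cm : ∀ i ≤ δ, ∀ j ≤ δ, K.T.Adj (v i m) (v j m) →
      S.Cl (A.F (R1 r) + A.F 0) (S.s (p' m)) (A.anc (v i m, v j m)) := fun i hi j hj e =>
    A.cl_btw b0 b1 ((hv i hi).2.2 m (by omega) (by omega))
      ((hv j hj).2.2 m (by omega) (by omega)) e
  have ind : ∀ j, j + 1 ≤ δ → Y.g (v 0 0) (v 1 0) ^ M = Y.g (v j 0) (v (j + 1) 0) ^ M := by
    intro j
    induction j with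
    | zero => exact fun _ => rfl
    | succ j ih' =>
      intro hj
      rw [ih' (by omega)]
      have e1 := vadj j (by omega)
      have e2 := vadj (j + 1) (by omega)
      exact H2 _ m _ _ _ _ _ _ hm (vf (j + 1) (by omega)) (vf j (by omega)) (vf (j + 1 + 1) hj)
        (e1 0 le_rfl (by omega)).symm (e2 0 le_rfl (by omega))
        (c0 _ (by omega) _ (by omega) (e1 0 le_rfl (by omega)).symm)
        (cm _ (by omega) _ (by omega) (e1 m (by omega) (by omega)).symm)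
        (c0 _ (by omega) _ (by omega) (e2 0 le_rfl (by omega)))
        (cm _ (by omega) _ (by omega) (e2 m (by omega) (by omega)))
  have v0 : ∀ l : ℤ, 0 ≤ l → l ≤ m + k + k → v 0 l = w l :=
    (hv 0 (by omega)).1.uniq hw0 le_rfl (by omega) (by rw [(hv 0 (by omega)).2.1, y0])
  have vδ : ∀ l : ℤ, 0 ≤ l → l ≤ m + k + k → v δ l = u⁻¹ • w (l + k) :=
    (hv δ le_rfl).1.uniq w1 le_rfl (by omega) (by rw [(hv δ le_rfl).2.1, yD])
  have last : Y.g (v 0 0) (v 1 0) ^ M = Y.g (v δ 0) (u⁻¹ • v 1 (0 + k)) ^ M := by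
    obtain ⟨d, hd⟩ : ∃ d, δ = d + 1 := ⟨δ - 1, by omega⟩
    rw [ind d (by omega), ← hd]
    have e1 := vadj d (by omega)
    rw [← hd] at e1
    have e2 : ∀ l : ℤ, 0 ≤ l → l ≤ m → K.T.Adj (v δ l) (u⁻¹ • v 1 (l + k)) := fun l h0 h1 => by
      rw [vδ l h0 (by omega), ← v0 _ (by omega) (by omega)]
      exact acts _ _ _ (vadj 0 (by omega) _ (by omega) (by omega))
    have e3 : ∀ l : ℤ, 0 ≤ l → l ≤ m → Btw K.T (u⁻¹ • w (l + k)) (u⁻¹ • v 1 (l + k))
        (u⁻¹ • u⁻¹ • w (l + k + k)) := fun l h0 h1 =>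
      acts.btw _ ((hv 1 hδ1).2.2 _ (by omega) (by omega))
    refine H2 _ m _ (v δ) (v d) (fun l => u⁻¹ • v 1 (l + k)) _ _ hm (vf δ le_rfl)
      (vf d (by omega))
      (((hv 1 hδ1).1.back (k := k) (u := u) hp.arr_per).mono (by omega) (by omega))
      (e1 0 le_rfl (by omega)).symm (e2 0 le_rfl (by omega))
      (c0 _ le_rfl _ (by omega) (e1 0 le_rfl (by omega)).symm)
      (cm _ le_rfl _ (by omega) (e1 m (by omega) (by omega)).symm)
      (A.cl_btw a1 a2 ?_ (e3 0 le_rfl (by omega)) (e2 0 le_rfl (by omega)))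
      (A.cl_btw b1 b2 ?_ (e3 m (by omega) le_rfl) (e2 m (by omega) le_rfl))
    · rw [vδ 0 le_rfl (by omega)]; exact btw_left (near_reach a1 a2)
    · rw [vδ m (by omega) (by omega)]; exact btw_left (near_reach b1 b2)
  have a01 : ∀ l : ℤ, 0 ≤ l → l ≤ m + k + k → K.T.Adj (v 0 l) (v 1 l) := vadj 0 (by omega)
  rw [vδ 0 le_rfl (by omega), ← v0 _ (by omega) (by omega),
    Y.conj _ _ _ (a01 _ (by omega) (by omega)),
    Y.flow hN (hv 0 (by omega)).1 (hv 1 hδ1).1 (a01 0 le_rfl (by omega)) (0 + k) (by omega)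
      (by omega),
    conj_pow, inv_inv] at last
  set g := Y.g (v 0 0) (v 1 0) with hg
  have hc : Commute (g ^ M) u := by
    have : u * g ^ M = g ^ M * u := by
      conv_lhs => rw [last]
      group
    exact this.symm
  obtain ⟨pp1, pp2⟩ := Y.per_pow hN (hv 0 (by omega)).1 (hv 1 hδ1).1 (a01 0 le_rfl (by omega))
    (M * k)
  rw [← hg] at pp1 pp2
  obtain ⟨J2, hJ2⟩ : ∃ J2, J' + 1 = J2 + Y.N * M := ⟨J' + 1 - Y.N * M, by omega⟩
  have eq1 : ((M * k : ℕ) : ℤ) * Y.N = (Y.N * M : ℕ) * k := by push_cast; ring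
  have eq2 : (m : ℤ) + k = J2 * k + (Y.N * M : ℕ) * k := by rw [← em, hJ2]; push_cast; ring
  have hJ20 : (0 : ℤ) ≤ J2 * k := by positivity
  have hq0 : (0 : ℤ) ≤ (Y.N * M : ℕ) * k := by positivity
  rw [eq1] at pp1 pp2
  generalize hq : Y.N * M = q at *
  have hq1 : 0 < q := hq ▸ Nat.mul_pos Y.pos hM
  have hh : (u ^ q)⁻¹ * g ^ (M * k) ∈ Ecm u (fun l => S.arr (p l)) := by
    refine mem_Ecm_of_window hp (Commute.mul_left ((Commute.refl u).pow_left q).inv_left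
      (by rw [pow_mul]; exact hc.pow_left k)) fun l h0 h1 => ?_
    have := pp2 l h0 (by omega)
    beta_reduce at this
    rw [mul_smul, ← this, hp.npow, S.arr_smul, inv_smul_smul]
  have ea : (fun l => S.arr (((u ^ q)⁻¹ * g ^ (M * k)) • p l)) = fun l => S.arr (p l) :=
    funext fun l => by rw [S.arr_smul]; exact hh.2 l
  obtain ⟨e, he, hcl⟩ := ih J2 (by omega) (fun l => ((u ^ q)⁻¹ * g ^ (M * k)) • p l)
    (fun l => (u ^ q)⁻¹ • w (l + q * k)) (hp.csmul hh.1)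
    (fun l => (congrFun ea l).trans (ha l))
    (by rw [ea]; exact (hw.backn hp q).mono (by omega) (by push_cast; linarith))
    (fun e => hne' (0 + q * k) (by omega) (by omega) (by
      beta_reduce at e
      rw [← mul_smul, ((Commute.refl u).pow_right q).inv_inv.eq, mul_smul] at e
      rw [smul_left_cancel _ e]; congr 2; ring))
    (by
      have := pp1 0 le_rfl (by omega)
      rw [v0 _ (by omega) (by omega), v0 0 le_rfl (by omega)] at this
      rw [this, ← mul_smul, S.s_smul]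
      exact near_smul _ n0)
    (near_back hp' q _ (by rw [← eq2]; exact nJ))
  rw [ea] at he
  refine ⟨_, (Ecm u _).mul_mem ((Ecm u _).inv_mem hh) he, ?_⟩
  have := hcl.smul ((u ^ q)⁻¹ * g ^ (M * k))⁻¹
  rwa [S.s_smul, inv_smul_smul, ← mul_smul] at this

end Mc

end CPOR
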