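import Pool.Agent.P.MP_2cb329_al.F.MN3a
import Pool.Agent.P.MP_2cb329_al.F.MN3b

/-! Machines: G3 in the case NEG. -/

set_option autoImplicit false

namespace CPOR
open ZT MulAction

variable {G : Type} [Group G] {N : Type} [MulAction G N] {S : Sys G N} {W : Type} [MulAction G W]

namespace Mc

variable (K : Mc S W)

theorem neg_g3 (hN : K.M.NEG) (h : K.S'.Gall) : S.G3P S.Any := by
  obtain ⟨A⟩ := K.exists_anc
  obtain ⟨F0, hF0, H0⟩ := K.g3_start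
  obtain ⟨F1, hF1, H1⟩ := K.neg_g3_fix hN h
  obtain ⟨F2, hF2, H2⟩ := K.neg_g3_drift hN h
  let R : ℕ → ℕ := fun L => A.F (F0 L) + L
  have hR : Bd R := (A.bd.comp hF0).add Bd.id
  refine ⟨fun L => F0 L + F1 (R L) + F2 (R L) + (A.F (R L) + A.F (R L)),
    ((hF0.add (hF1.comp hR)).add (hF2.comp hR)).add ((A.bd.comp hR).add (A.bd.comp hR)), ?_⟩
  intro L k u p p' hp hp' ha _
  beta_reduce
  have hk := hp.pos
  have hLR : L ≤ R L := Nat.le_add_left _ _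
  have one : ∀ r, r ≤ F0 L + F1 (R L) + F2 (R L) + (A.F (R L) + A.F (R L)) →
      S.Cl r (S.s (p 0)) (S.s (p' 0)) → ∃ e : G, Commute e u ∧
      (∀ i, e • S.arr (p i) = S.arr (p i)) ∧
      S.Cl (F0 L + F1 (R L) + F2 (R L) + (A.F (R L) + A.F (R L))) (S.s (p 0))
        (e • S.s (p' 0)) := fun r hr hc =>
    ⟨1, Commute.one_left u, fun _ => one_smul _ _, by rw [one_smul]; exact hc.mono hr⟩
  rcases H0 L k u p p' hp hp' ha with hc | ⟨z, z', hz, hz', n1, n2, n3, n4⟩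
  · exact one _ (by omega) hc
  obtain ⟨F, hP, hF⟩ := exists_ret (a := fun l => S.arr (p l)) hN hk u
  obtain ⟨i1, -⟩ := ret_iter (J := 2) hF hp.arr_per (fun _ _ _ => rfl) hz
  obtain ⟨i2, -⟩ := ret_iter (J := 2) hF hp.arr_per (fun _ _ _ => rfl) hz'
  have m0 := i1 0 (by omega)
  have m1 : F (z 0) ∈ _ := i1 1 (by omega)
  have m0' := i2 0 (by omega)
  have m1' : F (z' 0) ∈ _ := i2 1 (by omega)
  rw [← hF z (hz.mono le_rfl (by omega))] at n2
  rw [← hF z' (hz'.mono le_rfl (by omega))] at n4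
  have nz : ∀ x, Btw K.T (z 0) x (F (z 0)) → K.Near (R L) (S.s (p 0)) x := fun x hx =>
    near_mono (A.n1v _ _ _ _ _ n1 n2 hx) (Nat.le_add_right _ _)
  have nz' : ∀ x, Btw K.T (z' 0) x (F (z' 0)) → K.Near (R L) (S.s (p' 0)) x := fun x hx =>
    near_mono (A.n1v _ _ _ _ _ n3 n4 hx) (Nat.le_add_right _ _)
  have dz := (hP.cvx _ m0 _ m1).2
  have dz' := (hP.cvx _ m0' _ m1').2
  have fix : ∀ x x', Btw K.T (z 0) x (F (z 0)) → F x = x → Btw K.T (z' 0) x' (F (z' 0)) →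
      F x' = x' → ∃ e : G, Commute e u ∧ (∀ i, e • S.arr (p i) = S.arr (p i)) ∧
      S.Cl (F0 L + F1 (R L) + F2 (R L) + (A.F (R L) + A.F (R L))) (S.s (p 0))
        (e • S.s (p' 0)) := by
    intro x x' b e b' e'
    obtain ⟨v, hv, rfl⟩ := dz x b
    obtain ⟨v', hv', rfl⟩ := dz' x' b'
    obtain ⟨w, hw, w0⟩ := hv.per hk hp.arr_per (by rw [← e, hF v hv, smul_inv_smul])
    obtain ⟨w', hw', w0'⟩ := hv'.per hk hp.arr_per (by rw [← e', hF v' hv', smul_inv_smul])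
    obtain ⟨g, g1, g2, g3⟩ := H1 (R L) k u p p' w w' (hp.mono hLR) (hp'.mono hLR) ha hw hw'
      (by rw [w0]; exact nz _ b) (by rw [w0']; exact nz' _ b')
    exact ⟨g, g1, g2, g3.mono (by omega)⟩
  have inv : ∀ x y, K.T.Adj x y → x ∈ _ → y ∈ _ → F x = y → F y = x → _ :=
    fun x y e hx hy e1 e2 =>
      one _ (by omega) (A.near_two (nz _ (hP.qi_inv acyc e hx hy e1 e2 m0 m1).1)
        (nz _ (hP.qi_inv acyc e hx hy e1 e2 m0 m1).2)
        (nz' _ (hP.qi_inv acyc e hx hy e1 e2 m0' m1').1)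
        (nz' _ (hP.qi_inv acyc e hx hy e1 e2 m0' m1').2) e.ne)
  rcases hP.qi acyc m0 m1 with ⟨x, b, e⟩ | ⟨x, y, e, b1, b2, e1, e2⟩ | ⟨x, b1, b2, hne, hs⟩
  · obtain ⟨x', b', e'⟩ := hP.qi_fix acyc (dz x b) e m0' m1'
    exact fix x x' b e b' e'
  · exact inv x y e (dz x b1) (dz y b2) e1 e2
  rcases hP.qi acyc m0' m1' with
    ⟨x', b', e'⟩ | ⟨x', y', e, b1', b2', e1, e2⟩ | ⟨x', b1', b2', hne', hs'⟩
  · obtain ⟨x, b, e⟩ := hP.qi_fix acyc (dz' x' b') e' m0 m1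
    exact fix x x' b e b' e'
  · exact inv x' y' e (dz' x' b1') (dz' y' b2') e1 e2
  obtain ⟨y, J, y1, -, y3, hy⟩ := hP.ahead acyc (dz _ b1) (dz _ b2) (dz' _ b1') (dz' _ b2') hne hs
    hne' hs'
  obtain ⟨v, hv, rfl⟩ := ret_flow (J := J + 2) hk hF hp.arr_per fun m hm => y3 m (by omega)
  have hv1 : K.Fl (fun l => S.arr (p l)) v 0 k := hv.mono le_rfl (by
    have : ((J + 2 : ℕ) : ℤ) * k = J * k + k + k := by push_cast; ring
    have : (0 : ℤ) ≤ J * k := by positivity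
    omega)
  rw [hF v hv1] at y1
  have j1 := (ret_iter hF hp.arr_per (fun _ _ _ => rfl) hv).2 J (by omega)
  have fwd : ∀ {q : ℤ → S.P}, S.Thread L k u q → K.Near (R L) (S.s (q 0)) (F^[J] (v 0)) →
      K.Near (R L) (S.s (q (J * k))) (v (J * k)) := fun hq hn => by
    have e := hq.npow J 0
    rw [zero_add] at e
    have := near_smul (u ^ J) hn
    rwa [j1, smul_inv_smul, ← S.s_smul, ← e] at this
  rcases hy with ⟨c1, c2⟩ | ⟨c1, c2⟩
  · obtain ⟨g, g1, g2, g3⟩ := H2 (R L) k J u p p' v (hp.mono hLR) (hp'.mono hLR) ha hv y1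
      (nz _ ((cvx_btw acyc _ _ _ b1 _ b2).2 _ c1)) (fwd hp' (by rw [c2]; exact nz' _ b1'))
    exact ⟨g, g1, g2, g3.mono (by omega)⟩
  · obtain ⟨g, g1, g2, g3⟩ := H2 (R L) k J u p' p v (hp'.mono hLR) (hp.mono hLR)
      (fun i => (ha i).symm) (hv.congr fun l _ _ => ha l) y1
      (nz' _ ((cvx_btw acyc _ _ _ b1' _ b2').2 _ c1)) (fwd hp (by rw [c2]; exact nz _ b1))
    refine ⟨g⁻¹, g1.inv_left, fun i => by rw [inv_smul_eq_iff, ha i, g2], ?_⟩
    have := g3.symm.smul g⁻¹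
    rw [inv_smul_smul] at this
    exact this.mono (by omega)

end Mc

end CPOR
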