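import Pool.Agent.P.MP_2cb329_al.F.MLift
import Pool.Agent.P.MP_2cb329_al.F.MDyn

/-! Machines: G3 in the case NEG, periodic flow lines. -/

set_option autoImplicit false

namespace CPOR
open ZT MulAction

variable {G : Type} [Group G] {N : Type} [MulAction G N] {S : Sys G N} {W : Type} [MulAction G W]

namespace Mc

variable (K : Mc S W)

variable {K} in
/-- Points between two periodic flow lines lie on periodic flow lines. -/
theorem pfl_btw (hN : K.M.NEG) {a : ℤ → S.A} {k : ℕ} {u : G} {w w' : ℤ → W} (hk : 1 ≤ k)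
    (ha : ∀ l : ℤ, a (l + k) = u • a l) (h : K.PFl a k u w) (h' : K.PFl a k u w') {y : W}
    (hb : Btw K.T (w 0) y (w' 0)) : ∃ v, K.PFl a k u v ∧ v 0 = y := by
  obtain ⟨v, hv, rfl, hb'⟩ := (h.toFl 0 k).btw (h'.toFl 0 k) hb
  refine hv.per hk ha ?_
  have e1 := h.per 0
  have e2 := h'.per 0
  rw [zero_add] at e1 e2
  have b1 := hb' k (by omega) le_rfl
  have d1 := (h.toFl 0 k).dist hN hv k (by omega) le_rfl
  rw [e1] at b1 d1
  rw [e2] at b1
  exact b1.unique acyc (acts.btw u hb) (by rw [d1, acts.dist])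

theorem neg_g3_fix (hN : K.M.NEG) (h : K.S'.Gall) : ∃ F, Bd F ∧
    ∀ (r k : ℕ) (u : G) (p p' : ℤ → S.P) (w w' : ℤ → W), S.Thread r k u p → S.Thread r k u p' →
    (∀ i, S.arr (p i) = S.arr (p' i)) →
    K.PFl (fun l => S.arr (p l)) k u w → K.PFl (fun l => S.arr (p l)) k u w' →
    K.Near r (S.s (p 0)) (w 0) → K.Near r (S.s (p' 0)) (w' 0) →
    ∃ e : G, Commute e u ∧ (∀ i, e • S.arr (p i) = S.arr (p i)) ∧
      S.Cl (F r) (S.s (p 0)) (e • S.s (p' 0)) := by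
  obtain ⟨E, hE⟩ := ml_two_darts K.Z.finE
  obtain ⟨F1, hF1, H1⟩ := K.g3_vertex h
  obtain ⟨F2, hF2, H2⟩ := Anc.tel (K := K)
  refine ⟨fun r => F2 (r + E + F1 r), hF2.comp ((Bd.id.add (Bd.const _)).add hF1), ?_⟩
  intro r k u p p' w w' hp hp' ha hw hw' n0 n0'
  beta_reduce
  suffices H : ∃ e ∈ Ecm u (fun l => S.arr (p l)),
      S.Cl (F2 (r + E + F1 r)) (S.s (p 0)) (e • S.s (p' 0)) from
    let ⟨e, he, hc⟩ := H; ⟨e, he.1, he.2, hc⟩
  generalize hD : K.T.dist (w 0) (w' 0) = D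
  induction D using Nat.strong_induction_on generalizing p' w' with
  | _ D ih =>
  have hr : K.T.Reachable (w 0) (w' 0) :=
    (hw.toFl 0 1).reach (hw'.toFl 0 1) (by omega) 0 le_rfl (by omega)
  by_cases hDE : D ≤ E
  · refine H2 _ _ _ _ (w 0) (w' 0) (near_mono n0 (by omega)) (near_mono n0' (by omega)) hr
      (by omega) fun y q q' hb hq hq' => ?_
    obtain ⟨v, hv, rfl⟩ := pfl_btw hN hp.pos hp.arr_per hw hw' hb
    obtain ⟨e, h1, h2, h3⟩ := H1 r k u p p' v q q' hp hp' ha hv hq hq'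
    exact ⟨e, ⟨h1, h2⟩, h3.mono (by omega)⟩
  obtain ⟨y, y0, yD, yadj, ydist, ybtw⟩ := exists_geod hr
  rw [hD] at yD yadj ydist ybtw
  obtain ⟨g, i, j, hij, hj, e1, e2⟩ := hE y D (by omega) yadj
  obtain ⟨v1, hv1, f1⟩ := pfl_btw hN hp.pos hp.arr_per hw hw' (ybtw i (by omega))
  obtain ⟨v2, hv2, f2⟩ := pfl_btw hN hp.pos hp.arr_per hw hw' (ybtw (i + 1) (by omega))
  obtain ⟨v3, hv3, f3⟩ := pfl_btw hN hp.pos hp.arr_per hw hw' (ybtw j (by omega))
  obtain ⟨v4, hv4, f4⟩ := pfl_btw hN hp.pos hp.arr_per hw hw' (ybtw (j + 1) (by omega))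
  obtain ⟨u1, u2⟩ := (hv3.toFl 0 k).dart_uniq hN (hv4.toFl 0 k) ((hv1.toFl 0 k).smul g)
    ((hv2.toFl 0 k).smul g) (by rw [f3, f4]; exact yadj j hj) (by rw [f3, f1, e1])
    (by rw [f4, f2, e2])
  obtain ⟨u3, u4⟩ := u2 k (by omega) le_rfl
  have p1 := hv1.per 0
  have p2 := hv2.per 0
  have p3 := hv3.per 0
  have p4 := hv4.per 0
  rw [zero_add] at p1 p2 p3 p4
  rw [p3, p1, f3, f1, ← e1] at u3
  rw [p4, p2, f4, f2, ← e2] at u4
  have hc : Commute g u := by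
    have := K.Z.gf.etriv ((u * g)⁻¹ * (g * u)) _ _ (yadj i (by omega))
      (by rw [mul_smul, inv_smul_eq_iff, mul_smul, mul_smul, u3])
      (by rw [mul_smul, inv_smul_eq_iff, mul_smul, mul_smul, u4])
    exact (inv_mul_eq_one.1 this).symm
  have hg : g ∈ Ecm u (fun l => S.arr (p l)) :=
    mem_Ecm_of_window hp hc fun l h0 h1 => (u1 l h0 h1).symm
  have hg' := (Ecm u _).inv_mem hg
  have hd : K.T.dist (w 0) (g⁻¹ • w' 0) < D := by
    obtain ⟨r1, d1⟩ := ydist 0 i (by omega) (by omega)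
    obtain ⟨r2, d2⟩ := ydist j D (by omega) le_rfl
    rw [y0] at r1 d1
    rw [yD, ← e1] at r2 d2
    have r3 := acts.reach g⁻¹ r2
    have d3 := acts.dist (T := K.T) g⁻¹ (g • y i) (w' 0)
    rw [inv_smul_smul] at r3 d3
    have := dist_tri r1 r3
    omega
  obtain ⟨e, he, hcl⟩ := ih _ hd (fun l => g⁻¹ • p' l) (fun l => g⁻¹ • w' l) (hp'.csmul hg'.1)
    (fun l => by rw [S.arr_smul, ← ha l]; exact (hg'.2 l).symm) (hw'.csmul hg')
    (by rw [S.s_smul]; exact near_smul _ n0') rfl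
  refine ⟨e * g⁻¹, (Ecm u _).mul_mem he hg', ?_⟩
  rwa [S.s_smul, ← mul_smul] at hcl

end Mc

end CPOR
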