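import Pool.Agent.P.MP_2cb329_al.F.MN1
import Pool.Agent.P.MP_2cb329_al.F.MN2
import Pool.Agent.P.MP_2cb329_al.F.MN3
import Pool.Agent.P.MP_2cb329_al.F.ME12
import Pool.Agent.P.MP_2cb329_al.F.ME3

/-! Machines: the blocks `S_neg` and `S_exp`. -/

set_option autoImplicit false

namespace CPOR

theorem s_neg : S_neg := by
  intro G _ N _ S W _ Z M S' O hν hD hN h
  let K : Mc S W := ⟨Z, M, S', O, hν, hD⟩
  exact ⟨K.neg_g1 hN h, K.neg_g2 hN h, K.neg_g3 hN h⟩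

theorem s_exp : S_exp := by
  intro G _ N _ S W _ Z M S' O hν hD hE h
  let K : Mc S W := ⟨Z, M, S', O, hν, hD⟩
  exact ⟨K.exp_g1 hE h, K.exp_g2 hE h, K.exp_g3 hE h⟩

end CPOR
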