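import Pool.Agent.P.MP_2cb329_al.F.RE

/-! F8: existence of train tracks. -/

set_option autoImplicit false

namespace CPOR

open ZT MulAction

variable {G : Type} [Group G] {N : Type} [MulAction G N] {S : Sys G N}

theorem Adm.nonempty_EO (A : Adm S) (v : N) : Nonempty A.Z.EO := by
  obtain ⟨x, -⟩ := A.Z.ν_surj v
  obtain ⟨d, -⟩ := Spl.exists_dart A.nofix x
  exact ⟨d.cl⟩

/-- An irreducible pair whose constant cannot be improved. -/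
theorem exists_opt {ρ : ℕ} (hS : S.Aut ρ) (v0 : N) :
    ∃ (A : Adm S) (v : A.Z.EO → ℝ) (a : ℝ), RM.Irr A.φ.MR ∧ A.φ.Lip v a ∧ (∀ c, 1 ≤ v c) ∧
      ∀ B : Adm S, ¬ B.φ.Good a := by
  obtain ⟨A0, b0, h0⟩ := exists_adm hS
  obtain ⟨E0, hE0⟩ := edge_bound hS
  have key : ∀ (A : Adm S) (b : ℝ), b ≤ b0 → A.Min b →
      RM.Lam A.φ.MR ∈ RM.LamSet E0 ⌈b0 ^ (E0 + 1)⌉₊ ∧ RM.Lam A.φ.MR < b ∧
        ∃ v, A.φ.Lip v (RM.Lam A.φ.MR) ∧ ∀ c, 1 ≤ v c := by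
    intro A b hb h
    have := A.nonempty_EO v0
    have hI := h.irr hS.toBij hS.conn
    obtain ⟨v, a, hab, hL⟩ := h.1
    have ha := RM.one_le A.φ.MR_one (A.φ.row_ne hS.toBij A.nofix hI) hL
    obtain ⟨w, a', h1, h2, h3, h4⟩ := RM.pfmin A.φ.MR_one hI hL ha
    rw [RM.Lam_eq h1 h4]
    refine ⟨?_, lt_of_le_of_lt h2 hab, w, h1, h3⟩
    rw [← RM.Lam_eq h1 h4]
    refine RM.lam_mem (hE0 A b h) A.φ.M fun e c => ?_
    have a1 := RM.entry_le A.φ.MR_one hI hL ha e c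
    have a2 : a ^ (Fintype.card A.Z.EO + 1) ≤ b0 ^ (E0 + 1) :=
      (pow_le_pow_right₀ ha (Nat.succ_le_succ (hE0 A b h))).trans
        (pow_le_pow_left₀ (by linarith) (by linarith) _)
    have a3 : (A.φ.M e c : ℝ) ≤ (⌈b0 ^ (E0 + 1)⌉₊ : ℕ) := (a1.trans a2).trans (Nat.le_ceil _)
    exact_mod_cast a3
  obtain ⟨A1, h1⟩ := exists_min h0
  obtain ⟨_, ⟨A, b, hb, h, rfl⟩, hmin⟩ := Set.exists_min_image
    {t | ∃ (A : Adm S) (b : ℝ), b ≤ b0 ∧ A.Min b ∧ RM.Lam A.φ.MR = t} id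
    ((RM.lamSet_finite _ _).subset (by
      rintro _ ⟨A, b, hb, h, rfl⟩
      exact (key A b hb h).1)) ⟨_, A1, b0, le_rfl, h1, rfl⟩
  obtain ⟨-, a1, v, a2, a3⟩ := key A b hb h
  refine ⟨A, v, _, h.irr hS.toBij hS.conn, a2, a3, fun B hB => ?_⟩
  obtain ⟨B', hB'⟩ := exists_min hB
  have hle : RM.Lam A.φ.MR ≤ b0 := a1.le.trans hb
  exact absurd (hmin _ ⟨B', _, hle, hB', rfl⟩) (not_le.2 (key B' _ hle hB').2.1)

theorem rtt : S_rtt := by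
  intro G _ N _ S ρ hS
  rcases isEmpty_or_nonempty N with hN | ⟨⟨v0⟩⟩
  · have hV : ∀ _ : S.V, False := fun x => hN.elim (S.nd x)
    have hA : ∀ _ : S.A, False := fun a => hN.elim (S.src a)
    refine ⟨S.V, inferInstance, S.spl0, Or.inl ⟨{
      R := fun _ _ _ => False
      smul := fun _ _ _ _ h => h
      src := fun _ _ _ h => h.elim
      tgt := fun _ _ _ h => h.elim
      func := fun _ _ _ _ h => h.elim
      inj := fun _ _ _ _ h => h.elim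
      ne := fun a => (hA a).elim
      cvx := fun _ _ _ _ _ _ h => h.elim
      fin := ⟨∅, Set.finite_empty, fun _ h => h.elim⟩ }, fun x => (hV x).elim,
      fun _ _ _ _ _ h => h.elim, fun x => (hV x).elim, fun x => (hV x).elim⟩⟩
  obtain ⟨A, v, a, hI, hL, hv, hopt⟩ := exists_opt hS v0
  have := A.nonempty_EO v0
  have hrow := A.φ.row_ne hS.toBij A.nofix hI
  refine ⟨A.W, inferInstance, A.Z, ?_⟩
  rcases (RM.one_le A.φ.MR_one hrow hL).eq_or_lt with rfl | ha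
  · obtain ⟨M, hM⟩ := A.φ.neg_of hS.toBij hI hrow (RM.row_le_one A.φ.MR_one hI hL)
    exact Or.inl ⟨M, A.nofix, hM⟩
  have hnd := A.φ.nondeg_of hrow
  refine Or.inr ⟨A.φ, A.nofix, fun x y h => hnd (Spl.D.of h), fun x y h =>
    ⟨A.φ.reach hS.toBij h.reachable, fun p q r h1 h2 i hi => ?_⟩,
    ⟨Spl.wt v, a, Spl.isWt hv, ha, fun x y h => ?_⟩, A.φ.vinj_of hS.toBij, A.φ.vsurj_of hS.toBij,
    A.φ.bcc_of hS.toBij (A.φ.vsurj_of hS.toBij)⟩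
  · obtain ⟨B, hB⟩ := fold hS.toBij A.nofix A.φ hI hL ha hnd (d0 := Spl.D.of h)
      (p := Spl.D.of h1.1) (q := Spl.D.of h2.1) h1 h2 rfl hi
    exact hopt B hB
  · rw [Spl.len_wt]
    have h1 := Spl.wt_dart v (Spl.D.of h)
    have h2 := A.φ.MR_sum v (Spl.D.of h)
    rw [Spl.D.of_p] at h1
    rw [Spl.D.of_o, Spl.D.of_t] at h2
    rw [h1, ← h2]
    by_contra H
    exact hopt A (RM.st' A.φ.MR_nonneg hI hL (not_le.1 H))

end CPOR
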