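import Pool.Agent.P.MP_2cb329_al.F.Asm
import Pool.Agent.P.MP_2cb329_al.F.Bridge
import Pool.Agent.P.MP_2cb329_al.F.RTT
import Pool.Agent.P.MP_2cb329_al.F.MTop
import Pool.Agent.P.MP_2cb329_al.EG.Top
import Pool.Agent.P.MP_2cb329_al.F.GMain

/-! Theorem F. -/

set_option autoImplicit false

namespace CPOR

theorem s_F_of_gap (hgap : S_gap) : S_F :=
  sF_of_sys (gall_of_blocks hgap rtt (s_eg s_neg) s_neg s_exp)

theorem s_F : S_F := s_F_of_gap s_gap

end CPOR
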