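import Pool.Agent.P.MP_2cb329_al.F.Defs

/-! Theorem F: orbits. -/

set_option autoImplicit false

namespace CPOR
open MulAction

variable {G : Type} [Group G] {X Y : Type} [MulAction G X] [MulAction G Y] {K K' : Subgroup G}

theorem mem_orb_self (x : X) : x ∈ orb K x := by
  exact ⟨1, K.one_mem, one_smul _ _⟩

theorem orb_eq_iff {x y : X} : orb K x = orb K y ↔ ∃ k ∈ K, k • x = y := by
  constructor
  · intro h
    have := mem_orb_self (K := K) y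
    rwa [← h] at this
  · rintro ⟨k, hk, rfl⟩
    ext z
    constructor
    · rintro ⟨g, hg, rfl⟩
      exact ⟨g * k⁻¹, K.mul_mem hg (K.inv_mem hk), by rw [mul_smul, inv_smul_smul]⟩
    · rintro ⟨g, hg, rfl⟩
      exact ⟨g * k, K.mul_mem hg hk, mul_smul _ _ _⟩

theorem inv_orb (x : X) : Inv K (orb K x) := by
  rintro k hk _ ⟨g, hg, rfl⟩
  exact ⟨k * g, K.mul_mem hk hg, mul_smul _ _ _⟩

theorem Inv.mem_iff {S : Set X} (h : Inv K S) {k : G} (hk : k ∈ K) (x : X) : k • x ∈ S ↔ x ∈ S := by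
  refine ⟨fun hx => ?_, h k hk x⟩
  simpa using h k⁻¹ (K.inv_mem hk) _ hx

theorem FinOrb.mono {S S' : Set X} (h : FinOrb K S') (hS : S ⊆ S') : FinOrb K S := by
  obtain ⟨F, hF, h⟩ := h
  exact ⟨F, hF, fun x hx => h x (hS hx)⟩

theorem FinOrb.of_le {S : Set X} (h : FinOrb K S) (hK : K ≤ K') : FinOrb K' S := by
  obtain ⟨F, hF, h⟩ := h
  exact ⟨F, hF, fun x hx => let ⟨k, hk, e⟩ := h x hx; ⟨k, hK hk, e⟩⟩

theorem FinOrb.union {S S' : Set X} (h : FinOrb K S) (h' : FinOrb K S') : FinOrb K (S ∪ S') := by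
  obtain ⟨F, hF, h⟩ := h
  obtain ⟨F', hF', h'⟩ := h'
  refine ⟨F ∪ F', hF.union hF', ?_⟩
  rintro x (hx | hx)
  · obtain ⟨k, hk, e⟩ := h x hx
    exact ⟨k, hk, Or.inl e⟩
  · obtain ⟨k, hk, e⟩ := h' x hx
    exact ⟨k, hk, Or.inr e⟩

theorem finOrb_of_finite {S : Set X} (h : S.Finite) : FinOrb K S := by
  exact ⟨S, h, fun x hx => ⟨1, K.one_mem, by rwa [one_smul]⟩⟩

theorem finOrb_orb (x : X) : FinOrb K (orb K x) := by
  refine ⟨{x}, Set.finite_singleton x, ?_⟩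
  rintro _ ⟨k, hk, rfl⟩
  exact ⟨k⁻¹, K.inv_mem hk, by simp⟩

theorem finOrb_iff {S : Set X} : FinOrb K S ↔ (orb K '' S).Finite := by
  constructor
  · rintro ⟨F, hF, h⟩
    refine (hF.image (orb K)).subset ?_
    rintro _ ⟨x, hx, rfl⟩
    obtain ⟨k, hk, e⟩ := h x hx
    exact ⟨_, e, (orb_eq_iff.2 ⟨k, hk, rfl⟩).symm⟩
  · intro h
    obtain ⟨F, -, hF, e⟩ := Set.Finite.exists_subset_finite_image_eq h subset_rfl
    refine ⟨F, hF, fun x hx => ?_⟩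
    obtain ⟨y, hy, e'⟩ : orb K x ∈ orb K '' F := e ▸ ⟨x, hx, rfl⟩
    obtain ⟨k, hk, rfl⟩ := orb_eq_iff.1 e'.symm
    exact ⟨k, hk, hy⟩

/-- A complete system of representatives. -/
structure Reps (K : Subgroup G) (S : Set X) (F : Finset X) : Prop where
  sub : ∀ x ∈ F, x ∈ S
  cover : ∀ x ∈ S, ∃ k ∈ K, ∃ y ∈ F, x = k • y
  dist : ∀ x ∈ F, ∀ y ∈ F, (∃ k ∈ K, k • x = y) → x = y

theorem Reps.injOn {S : Set X} {F : Finset X} (h : Reps K S F) :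
    Set.InjOn (orb K) (F : Set X) := fun x hx y hy e => h.dist x hx y hy (orb_eq_iff.1 e)

theorem Reps.image {S : Set X} {F : Finset X} (h : Reps K S F) :
    orb K '' (F : Set X) = orb K '' S := by
  refine subset_antisymm (Set.image_mono fun x hx => h.sub x hx) ?_
  rintro _ ⟨x, hx, rfl⟩
  obtain ⟨k, hk, y, hy, rfl⟩ := h.cover x hx
  exact ⟨y, hy, orb_eq_iff.2 ⟨k, hk, rfl⟩⟩

theorem FinOrb.extend_reps' {S : Set X} (h : FinOrb K S) (F0 : Finset X) (h0 : ∀ x ∈ F0, x ∈ S)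
    (hd : ∀ x ∈ F0, ∀ y ∈ F0, (∃ k ∈ K, k • x = y) → x = y) : ∃ F, F0 ⊆ F ∧ Reps K S F := by
  obtain ⟨u, h1, h2, h3, h4⟩ := Set.InjOn.exists_subset_injOn_subset_range_eq (f := orb K)
    (r := (F0 : Set X)) (s := S) (fun x hx y hy e => hd x hx y hy (orb_eq_iff.1 e)) h0
  have hu : u.Finite := Set.Finite.of_finite_image (h3 ▸ finOrb_iff.1 h) h4
  refine ⟨hu.toFinset, fun x hx => by simpa using h1 hx, fun x hx => h2 (by simpa using hx),
    fun x hx => ?_, fun x hx y hy e => h4 (by simpa using hx) (by simpa using hy)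
      (orb_eq_iff.2 e)⟩
  obtain ⟨y, hy, e⟩ : orb K x ∈ orb K '' u := h3 ▸ ⟨x, hx, rfl⟩
  obtain ⟨k, hk, e'⟩ := orb_eq_iff.1 e
  exact ⟨k, hk, y, by simpa using hy, e'.symm⟩

theorem FinOrb.exists_reps {S : Set X} (h : FinOrb K S) : ∃ F, Reps K S F := by
  obtain ⟨F, -, hF⟩ := h.extend_reps' ∅ (by simp) (by simp)
  exact ⟨F, hF⟩

theorem Reps.card {S : Set X} {F : Finset X} (h : Reps K S F) : F.card = nOrb K S := by
  rw [nOrb, ← h.image, Set.InjOn.ncard_image h.injOn, Set.ncard_coe_finset]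

theorem Reps.finOrb {S : Set X} {F : Finset X} (h : Reps K S F) : FinOrb K S := by
  refine ⟨F, F.finite_toSet, fun x hx => ?_⟩
  obtain ⟨k, hk, y, hy, rfl⟩ := h.cover x hx
  exact ⟨k⁻¹, K.inv_mem hk, by simpa using hy⟩

/-- Points in distinct orbits extend to a system of representatives. -/
theorem FinOrb.extend_reps {S : Set X} (h : FinOrb K S) (F0 : Finset X) (h0 : ∀ x ∈ F0, x ∈ S)
    (hd : ∀ x ∈ F0, ∀ y ∈ F0, (∃ k ∈ K, k • x = y) → x = y) : ∃ F, F0 ⊆ F ∧ Reps K S F := by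
  exact h.extend_reps' F0 h0 hd

theorem FinOrb.card_le {S : Set X} (h : FinOrb K S) (F0 : Finset X) (h0 : ∀ x ∈ F0, x ∈ S)
    (hd : ∀ x ∈ F0, ∀ y ∈ F0, (∃ k ∈ K, k • x = y) → x = y) : F0.card ≤ nOrb K S := by
  obtain ⟨F, h1, h2⟩ := h.extend_reps F0 h0 hd
  rw [← h2.card]
  exact Finset.card_le_card h1

/-- Sums of invariant functions do not depend on the representatives. -/
theorem Reps.sum_eq {M : Type} [AddCommMonoid M] {S : Set X} {F F' : Finset X} (h : Reps K S F)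
    (h' : Reps K S F') (f : X → M) (hf : ∀ k ∈ K, ∀ x ∈ S, f (k • x) = f x) :
    ∑ x ∈ F, f x = ∑ x ∈ F', f x := by
  have key : ∀ {F F' : Finset X}, Reps K S F → Reps K S F' → ∀ x ∈ F, ∃ y ∈ F',
      orb K y = orb K x := fun h h' x hx => by
    obtain ⟨k, hk, y, hy, e⟩ := h'.cover x (h.sub x hx)
    exact ⟨y, hy, orb_eq_iff.2 ⟨k, hk, e.symm⟩⟩
  choose a ha1 ha2 using key h h'
  refine Finset.sum_bij a ha1 (fun x hx y hy e => ?_) (fun y hy => ?_) fun x hx => ?_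
  · exact h.injOn hx hy (by rw [← ha2 x hx, e, ha2 y hy])
  · obtain ⟨x, hx, e⟩ := key h' h y hy
    exact ⟨x, hx, h'.injOn (ha1 x hx) hy (by rw [ha2 x hx, e])⟩
  · obtain ⟨k, hk, e⟩ := orb_eq_iff.1 (ha2 x hx)
    exact (congrArg f e).symm.trans (hf k hk _ (h'.sub _ (ha1 x hx)))

/-- Uniform constants. -/
theorem FinOrb.bound {S : Set X} (h : FinOrb K S) (Q : X → ℕ → Prop)
    (hmono : ∀ x ∈ S, ∀ c c', c ≤ c' → Q x c → Q x c')
    (hinv : ∀ k ∈ K, ∀ x ∈ S, ∀ c, k • x ∈ S → Q x c → Q (k • x) c) (hex : ∀ x ∈ S, ∃ c, Q x c) :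
    ∃ C, ∀ x ∈ S, Q x C := by
  obtain ⟨F, hF⟩ := h.exists_reps
  choose! c hc using hex
  refine ⟨F.sup c, fun x hx => ?_⟩
  obtain ⟨k, hk, y, hy, rfl⟩ := hF.cover x hx
  exact hinv k hk y (hF.sub y hy) _ hx
    (hmono y (hF.sub y hy) _ _ (Finset.le_sup hy) (hc y (hF.sub y hy)))

theorem FinOrb.bound_real {S : Set X} (h : FinOrb K S) (f : X → ℝ)
    (hinv : ∀ k ∈ K, ∀ x ∈ S, k • x ∈ S → f (k • x) = f x) : ∃ C : ℕ, ∀ x ∈ S, f x ≤ C := by
  refine h.bound (fun x c => f x ≤ c) (fun x _ c c' hc hx => hx.trans (by exact_mod_cast hc))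
    (fun k hk x hx c hkx hc => by rwa [hinv k hk x hx hkx]) fun x _ => exists_nat_ge _

theorem FinOrb.pigeon {S : Set X} (h : FinOrb K S) (x : ℕ → X) (hx : ∀ i ≤ nOrb K S, x i ∈ S) :
    ∃ i j, i < j ∧ j ≤ nOrb K S ∧ ∃ k ∈ K, k • x i = x j := by
  by_contra hc
  have hinj : Set.InjOn (fun i => orb K (x i)) (Finset.range (nOrb K S + 1) : Set ℕ) := by
    intro i hi j hj e
    simp only [Finset.coe_range, Set.mem_Iio] at hi hj
    rcases lt_trichotomy i j with h' | h' | h'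
    · exact absurd ⟨i, j, h', by omega, orb_eq_iff.1 e⟩ hc
    · exact h'
    · exact absurd ⟨j, i, h', by omega, orb_eq_iff.1 e.symm⟩ hc
  have h1 := Set.ncard_le_ncard (s := (fun i => orb K (x i)) '' (Finset.range (nOrb K S + 1) :
    Set ℕ)) (t := orb K '' S) (by
      rintro _ ⟨i, hi, rfl⟩
      simp only [Finset.coe_range, Set.mem_Iio] at hi
      exact ⟨_, hx i (by omega), rfl⟩) (finOrb_iff.1 h)
  rw [hinj.ncard_image, Set.ncard_coe_finset, Finset.card_range] at h1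
  unfold nOrb at h1
  omega

theorem FinOrb.image {S : Set X} (h : FinOrb K S) (f : X → Y)
    (hf : ∀ k ∈ K, ∀ x ∈ S, k • x ∈ S → f (k • x) = k • f x) : FinOrb K (f '' S) := by
  obtain ⟨F, hF⟩ := h.exists_reps
  refine ⟨f '' F, F.finite_toSet.image f, ?_⟩
  rintro _ ⟨x, hx, rfl⟩
  obtain ⟨k, hk, y, hy, rfl⟩ := hF.cover x hx
  exact ⟨k⁻¹, K.inv_mem hk, y, hy, by rw [hf k hk y (hF.sub y hy) hx, inv_smul_smul]⟩

theorem FinOrb.of_rel_stab' {S : Set X} {S' : Set Y} (h : FinOrb K S') (Q : X → Y → Prop)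
    (hQ : ∀ k ∈ K, ∀ x y, Q x y → Q (k • x) (k • y)) (hex : ∀ x ∈ S, ∃ y ∈ S', Q x y)
    (hfin : ∀ y ∈ S', FinOrb K {x | Q x y}) : FinOrb K S := by
  obtain ⟨F, hF⟩ := h.exists_reps
  choose! A hA1 hA2 using hfin
  refine ⟨⋃ y ∈ F, A y, F.finite_toSet.biUnion fun y hy => hA1 y (hF.sub y hy), fun x hx => ?_⟩
  obtain ⟨y, hy, hq⟩ := hex x hx
  obtain ⟨k, hk, r, hr, rfl⟩ := hF.cover y hy
  have := hQ k⁻¹ (K.inv_mem hk) _ _ hq
  rw [inv_smul_smul] at this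
  obtain ⟨g, hg, e⟩ := hA2 r (hF.sub r hr) _ this
  exact ⟨g * k⁻¹, K.mul_mem hg (K.inv_mem hk), Set.mem_biUnion hr (by rwa [mul_smul])⟩

/-- Finite fibres over finitely many orbits. -/
theorem FinOrb.of_rel {S : Set X} {S' : Set Y} (h : FinOrb K S') (Q : X → Y → Prop)
    (hQ : ∀ k ∈ K, ∀ x y, Q x y → Q (k • x) (k • y)) (hex : ∀ x ∈ S, ∃ y ∈ S', Q x y)
    (hfin : ∀ y ∈ S', {x | Q x y}.Finite) : FinOrb K S := by
  exact h.of_rel_stab' Q hQ hex fun y hy => finOrb_of_finite (hfin y hy)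

/-- Fibres that are cocompact under the stabilisers. -/
theorem FinOrb.of_rel_stab {S : Set X} {S' : Set Y} (h : FinOrb K S') (Q : X → Y → Prop)
    (hQ : ∀ k ∈ K, ∀ x y, Q x y → Q (k • x) (k • y)) (hex : ∀ x ∈ S, ∃ y ∈ S', Q x y)
    (hfin : ∀ y ∈ S', FinOrb (K ⊓ stabilizer G y) {x | Q x y}) : FinOrb K S := by
  exact h.of_rel_stab' Q hQ hex fun y hy => (hfin y hy).of_le inf_le_left

/-- The converse: a fibre of an invariant relation that determines `y`. -/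
theorem FinOrb.fibre {S : Set X} (h : FinOrb K S) (hS : Inv K S) (f : X → Y)
    (hf : ∀ k ∈ K, ∀ x ∈ S, f (k • x) = k • f x) (y : Y) :
    FinOrb (K ⊓ stabilizer G y) {x | x ∈ S ∧ f x = y} := by
  obtain ⟨F, hF⟩ := h.exists_reps
  have hex : ∀ r : X, ∃ z, (∃ k ∈ K, f (k • r) = y) → ∃ k ∈ K, z = k • r ∧ f z = y := by
    intro r
    by_cases h' : ∃ k ∈ K, f (k • r) = y
    · obtain ⟨k, hk, e⟩ := h'
      exact ⟨k • r, fun _ => ⟨k, hk, rfl, e⟩⟩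
    · exact ⟨r, fun h'' => absurd h'' h'⟩
  choose z hz using hex
  refine ⟨z '' F, F.finite_toSet.image z, ?_⟩
  rintro x ⟨hx, e⟩
  obtain ⟨k, hk, r, hr, rfl⟩ := hF.cover x hx
  obtain ⟨k', hk', e1, e2⟩ := hz r ⟨k, hk, e⟩
  have hg := K.mul_mem hk' (K.inv_mem hk)
  have e3 : (k' * k⁻¹) • k • r = z r := by rw [mul_smul, inv_smul_smul, e1]
  refine ⟨k' * k⁻¹, ⟨hg, ?_⟩, r, hr, e3.symm⟩
  change (k' * k⁻¹) • y = y
  rw [← e, ← hf _ hg _ hx, e3, e2, e]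

end CPOR
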