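import Mathlib

/-! Train tracks: facts on nonnegative matrices. -/

set_option autoImplicit false

namespace CPOR
namespace RM

open Finset

variable {I : Type} [Fintype I]

/-- `M v ≤ lam v` with `v > 0`. -/
def MLip (M : I → I → ℝ) (v : I → ℝ) (lam : ℝ) : Prop :=
  (∀ c, 0 < v c) ∧ ∀ e, ∑ c, M e c * v c ≤ lam * v e

/-- Irreducible matrices. -/
def Irr (M : I → I → ℝ) : Prop :=
  ∀ U : Set I, U.Nonempty → (∀ e ∈ U, ∀ c, M e c ≠ 0 → c ∈ U) → ∀ c, c ∈ U

theorem MLip.mono {M : I → I → ℝ} {v : I → ℝ} {a b : ℝ} (h : MLip M v a) (hab : a ≤ b) :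
    MLip M v b :=
  ⟨h.1, fun e => (h.2 e).trans (mul_le_mul_of_nonneg_right hab (h.1 e).le)⟩

theorem MLip.single {M : I → I → ℝ} (hM : ∀ e c, 0 ≤ M e c) {v : I → ℝ} {a : ℝ}
    (h : MLip M v a) (e c : I) : M e c * v c ≤ a * v e :=
  (Finset.single_le_sum (f := fun c => M e c * v c)
    (fun c _ => mul_nonneg (hM e c) (h.1 c).le) (Finset.mem_univ c)).trans (h.2 e)

theorem MLip.smul {M : I → I → ℝ} {v : I → ℝ} {a : ℝ} (h : MLip M v a) {t : ℝ} (ht : 0 < t) :
    MLip M (fun c => t * v c) a := by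
  refine ⟨fun c => mul_pos ht (h.1 c), fun e => ?_⟩
  have := mul_le_mul_of_nonneg_left (h.2 e) ht.le
  rw [Finset.mul_sum] at this
  calc ∑ c, M e c * (t * v c) = ∑ c, t * (M e c * v c) := Finset.sum_congr rfl fun c _ => by ring
    _ ≤ t * (a * v e) := this
    _ = a * (t * v e) := by ring

theorem MLip.nonneg {M : I → I → ℝ} (hM : ∀ e c, 0 ≤ M e c) {v : I → ℝ} {a : ℝ}
    (h : MLip M v a) (e : I) : 0 ≤ a :=
  nonneg_of_mul_nonneg_left
    ((Finset.sum_nonneg fun c _ => mul_nonneg (hM e c) (h.1 c).le).trans (h.2 e)) (h.1 e)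

/-- All rows strict. -/
theorem good_of_strict {M : I → I → ℝ} {v : I → ℝ} {lam : ℝ} (hv : ∀ c, 0 < v c)
    (h : ∀ e, ∑ c, M e c * v c < lam * v e) : ∃ lam', lam' < lam ∧ MLip M v lam' := by
  classical
  have h1 : ∀ e, ∀ᶠ t in nhdsWithin lam (Set.Iio lam), ∑ c, M e c * v c < t * v e := by
    intro e
    have : ∀ᶠ t in nhds lam, ∑ c, M e c * v c < t * v e :=
      (continuous_id.mul continuous_const).continuousAt.eventually (lt_mem_nhds (h e))
    exact this.filter_mono nhdsWithin_le_nhds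
  have h2 := (Filter.eventually_all.2 h1).and (self_mem_nhdsWithin (a := lam) (s := Set.Iio lam))
  obtain ⟨t, ht1, ht2⟩ := h2.exists
  exact ⟨t, ht2, hv, fun e => (ht1 e).le⟩

/-- (St) -/
theorem st {M : I → I → ℝ} (hM : ∀ e c, 0 ≤ M e c) (hirr : Irr M) {lam : ℝ} :
    ∀ (n : ℕ) (v : I → ℝ), MLip M v lam → (∃ e, ∑ c, M e c * v c < lam * v e) →
      {e | ¬ ∑ c, M e c * v c < lam * v e}.ncard ≤ n →
      ∃ v' lam', lam' < lam ∧ MLip M v' lam' := by
  classical
  intro n
  induction n with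
  | zero =>
    intro v h _ hn
    have h0 : {e | ¬ ∑ c, M e c * v c < lam * v e} = ∅ :=
      (Set.ncard_eq_zero (Set.toFinite _)).1 (by omega)
    have : ∀ e, ∑ c, M e c * v c < lam * v e := fun e => by
      by_contra H
      exact (Set.eq_empty_iff_forall_notMem.1 h0) e H
    obtain ⟨l, hl, hl'⟩ := good_of_strict h.1 this
    exact ⟨v, l, hl, hl'⟩
  | succ n ih =>
    intro v h ⟨e0, he0⟩ hn
    by_cases hU : {e | ¬ ∑ c, M e c * v c < lam * v e} = ∅
    · exact ih v h ⟨e0, he0⟩ (by rw [hU]; simp)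
    have hne := Set.nonempty_iff_ne_empty.2 hU
    have hnc : ¬ ∀ e ∈ {e | ¬ ∑ c, M e c * v c < lam * v e}, ∀ c, M e c ≠ 0 →
        c ∈ {e | ¬ ∑ c, M e c * v c < lam * v e} := fun H => hirr _ hne H e0 he0
    push Not at hnc
    obtain ⟨e1, he1, c1, hc1, hc1'⟩ := hnc
    have hc1s : ∑ c, M c1 c * v c < lam * v c1 := by
      by_contra H
      exact hc1' (not_lt.1 H)
    let w : ℝ → I → ℝ := fun t c => v c - if c = c1 then t else 0
    have hw : ∀ t e, ∑ c, M e c * w t c = ∑ c, M e c * v c - M e c1 * t := by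
      intro t e
      simp only [w, mul_sub, Finset.sum_sub_distrib, mul_ite, mul_zero, Finset.sum_ite_eq',
        Finset.mem_univ, if_true]
    have h1 : ∀ᶠ t in nhdsWithin (0 : ℝ) (Set.Ioi 0),
        t < v c1 ∧ ∑ c, M c1 c * v c < lam * (v c1 - t) := by
      have a1 : ∀ᶠ t in nhds (0 : ℝ), t < v c1 := gt_mem_nhds (h.1 c1)
      have a2 : ∀ᶠ t in nhds (0 : ℝ), ∑ c, M c1 c * v c < lam * (v c1 - t) := by
        have hc : ContinuousAt (fun t : ℝ => lam * (v c1 - t)) 0 := by fun_prop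
        exact hc.eventually (lt_mem_nhds (by simpa using hc1s))
      exact (a1.and a2).filter_mono nhdsWithin_le_nhds
    obtain ⟨t, ⟨ht1, ht2⟩, ht0⟩ :=
      (h1.and (self_mem_nhdsWithin (a := (0 : ℝ)) (s := Set.Ioi 0))).exists
    have ht0 : 0 < t := ht0
    have hstrict : ∀ e, (∑ c, M e c * v c < lam * v e ∨ e = e1) →
        ∑ c, M e c * w t c < lam * w t e := by
      intro e he
      rw [hw]
      have hn1 : 0 ≤ M e c1 * t := mul_nonneg (hM e c1) ht0.le
      by_cases hec : e = c1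
      · subst hec
        simp only [w, if_true]
        linarith
      · simp only [w, if_neg hec, sub_zero]
        rcases he with he | he
        · linarith
        · subst he
          have : 0 < M e c1 * t := mul_pos (lt_of_le_of_ne (hM e c1) (Ne.symm hc1)) ht0
          have := h.2 e
          linarith
    refine ih (w t) ⟨fun c => ?_, fun e => ?_⟩ ⟨e0, hstrict e0 (Or.inl he0)⟩ ?_
    · by_cases hc : c = c1
      · subst hc
        simp only [w, if_true]
        linarith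
      · simp only [w, if_neg hc, sub_zero]
        exact h.1 c
    · by_cases hec : e = c1
      · exact (hstrict e (Or.inl (hec ▸ hc1s))).le
      · rw [hw]
        simp only [w, if_neg hec, sub_zero]
        have hn1 : 0 ≤ M e c1 * t := mul_nonneg (hM e c1) ht0.le
        have := h.2 e
        linarith
    · have hss : {e | ¬ ∑ c, M e c * w t c < lam * w t e} ⊂
          {e | ¬ ∑ c, M e c * v c < lam * v e} := by
        refine ⟨fun e he H => he (hstrict e (Or.inl H)), fun H => ?_⟩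
        exact H (not_lt.2 he1) (hstrict e1 (Or.inr rfl))
      have := Set.ncard_lt_ncard hss (Set.toFinite _)
      omega

theorem st' {M : I → I → ℝ} (hM : ∀ e c, 0 ≤ M e c) (hirr : Irr M) {lam : ℝ} {v : I → ℝ}
    (h : MLip M v lam) {e : I} (he : ∑ c, M e c * v c < lam * v e) :
    ∃ v' lam', lam' < lam ∧ MLip M v' lam' :=
  st hM hirr _ v h ⟨e, he⟩ le_rfl

/-- The entries of a positive vector are comparable. -/
theorem ratio {M : I → I → ℝ} (hirr : Irr M) {v : I → ℝ} (hv : ∀ c, 0 < v c) {q : ℝ}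
    (hq : 1 ≤ q) (h : ∀ e c, M e c ≠ 0 → v c ≤ q * v e) (e c : I) :
    v c ≤ q ^ Fintype.card I * v e := by
  classical
  have key : ∀ k : ℕ, (∀ c, v c ≤ q ^ k * v e) ∨ k + 1 ≤ {c | v c ≤ q ^ k * v e}.ncard := by
    intro k
    induction k with
    | zero =>
      right
      have : ({c | v c ≤ q ^ 0 * v e}).Nonempty := ⟨e, by simp⟩
      have := (Set.ncard_pos (Set.toFinite _)).2 this
      omega
    | succ k ih =>
      have hmono : ∀ c, v c ≤ q ^ k * v e → v c ≤ q ^ (k + 1) * v e := fun c hc =>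
        hc.trans (mul_le_mul_of_nonneg_right (pow_le_pow_right₀ hq (by omega)) (hv e).le)
      rcases ih with ih | ih
      · exact Or.inl fun c => hmono c (ih c)
      by_cases hall : ∀ c, v c ≤ q ^ k * v e
      · exact Or.inl fun c => hmono c (hall c)
      right
      have hne : ({c | v c ≤ q ^ k * v e}).Nonempty :=
        (Set.ncard_pos (Set.toFinite _)).1 (by omega)
      have hnc : ¬ ∀ a ∈ {c | v c ≤ q ^ k * v e}, ∀ c, M a c ≠ 0 →
          c ∈ {c | v c ≤ q ^ k * v e} := fun H => hall (hirr _ hne H)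
      push Not at hnc
      obtain ⟨a, ha, b, hab, hb⟩ := hnc
      have hss : {c | v c ≤ q ^ k * v e} ⊂ {c | v c ≤ q ^ (k + 1) * v e} := by
        refine ⟨fun c hc => hmono c hc, fun H => hb (H ?_)⟩
        have h1 := h a b hab
        have h2 : v a ≤ q ^ k * v e := ha
        show v b ≤ q ^ (k + 1) * v e
        calc v b ≤ q * v a := h1
          _ ≤ q * (q ^ k * v e) := mul_le_mul_of_nonneg_left h2 (by linarith)
          _ = q ^ (k + 1) * v e := by ring
      have := Set.ncard_lt_ncard hss (Set.toFinite _)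
      omega
  rcases key (Fintype.card I) with H | H
  · exact H c
  · have := Set.ncard_le_card {c | v c ≤ q ^ Fintype.card I * v e}
    rw [Nat.card_eq_fintype_card] at this
    omega

/-- (N) -/
theorem left_of_right {M : I → I → ℝ} (hM : ∀ e c, 0 ≤ M e c) {v : I → ℝ} {a b : ℝ}
    (h : MLip M v a) (hab : a < b) : ∃ w, MLip (fun e c => M c e) w b := by
  classical
  rcases isEmpty_or_nonempty I with hI | ⟨⟨i0⟩⟩
  · exact ⟨v, h.1, fun e => hI.elim e⟩
  have ha : 0 ≤ a := by
    have h1 : 0 ≤ a * v i0 :=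
      (Finset.sum_nonneg fun c _ => mul_nonneg (hM i0 c) (h.1 c).le).trans (h.2 i0)
    exact nonneg_of_mul_nonneg_left h1 (h.1 i0)
  have hb : 0 < b := lt_of_le_of_lt ha hab
  let T : (I → ℝ) → I → ℝ := fun x e => b⁻¹ * ∑ c, M c e * x c
  let x : ℕ → I → ℝ := fun n => T^[n] fun _ => 1
  have hx : ∀ n e, x (n + 1) e = b⁻¹ * ∑ c, M c e * x n c := fun n e => by
    simp only [x, Function.iterate_succ_apply', T]
  have hx0 : ∀ n e, 0 ≤ x n e := by
    intro n
    induction n with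
    | zero => intro e; simp [x]
    | succ n ih =>
      intro e
      rw [hx]
      exact mul_nonneg (inv_nonneg.2 hb.le) (Finset.sum_nonneg fun c _ => mul_nonneg (hM c e) (ih c))
  have hxv : ∀ n, ∑ e, x n e * v e ≤ (a / b) ^ n * ∑ e, v e := by
    intro n
    induction n with
    | zero => simp [x]
    | succ n ih =>
      calc ∑ e, x (n + 1) e * v e = b⁻¹ * ∑ c, x n c * ∑ e, M c e * v e := by
            simp only [hx, Finset.mul_sum, Finset.sum_mul]
            rw [Finset.sum_comm]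
            exact Finset.sum_congr rfl fun c _ => Finset.sum_congr rfl fun e _ => by ring
        _ ≤ b⁻¹ * ∑ c, x n c * (a * v c) := by
            refine mul_le_mul_of_nonneg_left (Finset.sum_le_sum fun c _ => ?_) (inv_nonneg.2 hb.le)
            exact mul_le_mul_of_nonneg_left (h.2 c) (hx0 n c)
        _ = (a / b) * ∑ c, x n c * v c := by
            simp only [Finset.mul_sum]
            exact Finset.sum_congr rfl fun c _ => by rw [div_eq_mul_inv]; ring
        _ ≤ (a / b) * ((a / b) ^ n * ∑ e, v e) :=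
            mul_le_mul_of_nonneg_left ih (div_nonneg ha hb.le)
        _ = (a / b) ^ (n + 1) * ∑ e, v e := by ring
  have hlim : Filter.Tendsto (fun n : ℕ => (a / b) ^ n * ∑ e, v e) Filter.atTop (nhds 0) := by
    have := (tendsto_pow_atTop_nhds_zero_of_lt_one (div_nonneg ha hb.le)
      ((div_lt_one hb).2 hab)).mul_const (∑ e, v e)
    simpa using this
  have hev : ∀ e, ∀ᶠ n : ℕ in Filter.atTop, (a / b) ^ n * ∑ e, v e < v e := fun e =>
    hlim.eventually (gt_mem_nhds (h.1 e))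
  obtain ⟨n, hn, hn1⟩ := ((Filter.eventually_all.2 hev).and (Filter.eventually_ge_atTop 1)).exists
  have hxn : ∀ e, x n e ≤ 1 := by
    intro e
    have h1 : x n e * v e ≤ ∑ e, x n e * v e :=
      Finset.single_le_sum (f := fun e => x n e * v e)
        (fun c _ => mul_nonneg (hx0 n c) (h.1 c).le) (Finset.mem_univ e)
    have h2 : x n e * v e ≤ 1 * v e := by have := hxv n; have := hn e; linarith
    exact le_of_mul_le_mul_right h2 (h.1 e)
  refine ⟨fun e => ∑ i ∈ Finset.range n, x i e, fun c => ?_, fun e => ?_⟩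
  · have h1 : x 0 c ≤ ∑ i ∈ Finset.range n, x i c :=
      Finset.single_le_sum (f := fun i => x i c) (fun i _ => hx0 i c) (Finset.mem_range.2 (by omega))
    have h2 : x 0 c = 1 := rfl
    show 0 < ∑ i ∈ Finset.range n, x i c
    linarith
  · have h1 : ∑ c, M c e * ∑ i ∈ Finset.range n, x i c =
        b * ∑ i ∈ Finset.range n, x (i + 1) e := by
      simp only [hx, Finset.mul_sum]
      rw [Finset.sum_comm]
      exact Finset.sum_congr rfl fun i _ => Finset.sum_congr rfl fun c _ => by field_simp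
    have h2 := Finset.sum_range_succ' (fun i => x i e) n
    have h3 := Finset.sum_range_succ (fun i => x i e) n
    have h4 : x 0 e = 1 := rfl
    have h5 := hxn e
    show ∑ c, M c e * ∑ i ∈ Finset.range n, x i c ≤ b * ∑ i ∈ Finset.range n, x i e
    rw [h1]
    exact mul_le_mul_of_nonneg_left (by linarith) hb.le

/-- Choice of one column in each fibre of `κ`. -/
theorem opt {J : Type} (κ : I → J) {A : J → I → ℝ} (hA : ∀ E c, 0 ≤ A E c) {v : I → ℝ}
    (hv : ∀ c, 0 < v c) {a b : ℝ} (hab : a < b)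
    (h : ∀ e, ∃ F : Finset I, (∀ c ∈ F, κ c = κ e) ∧ ∑ c, A (κ e) c * v c ≤ a * ∑ c ∈ F, v c)
    (ha : 0 ≤ a) :
    ∃ K : Finset I, (∀ e, ∃! c, c ∈ K ∧ κ c = κ e) ∧ ∃ (u : I → ℝ) (a' : ℝ), a' < b ∧
      (∀ c, 0 < u c) ∧ ∀ e ∈ K, ∑ c ∈ K, A (κ e) c * u c ≤ a' * u e := by
  classical
  let Fb : J → Finset I := fun E => Finset.univ.filter fun c => κ c = E
  have hFb : ∀ E c, c ∈ Fb E ↔ κ c = E := fun E c => by simp [Fb]
  let s : J → ℝ := fun E => ∑ c ∈ Fb E, v c
  have hs : ∀ e, 0 < s (κ e) := fun e =>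
    Finset.sum_pos (fun c _ => hv c) ⟨e, (hFb _ _).2 rfl⟩
  let Nm : I → I → ℝ := fun e c => v e / s (κ e) * A (κ e) c
  have hN0 : ∀ e c, 0 ≤ Nm e c := fun e c =>
    mul_nonneg (div_nonneg (hv e).le (hs e).le) (hA _ _)
  have hN : MLip Nm v a := by
    refine ⟨hv, fun e => ?_⟩
    have h1 : ∑ c, A (κ e) c * v c ≤ a * s (κ e) := by
      obtain ⟨F, hF1, hF2⟩ := h e
      exact hF2.trans (mul_le_mul_of_nonneg_left (Finset.sum_le_sum_of_subset_of_nonneg
        (fun c hc => (hFb _ _).2 (hF1 c hc)) fun c _ _ => (hv c).le) ha)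
    calc ∑ c, Nm e c * v c = v e / s (κ e) * ∑ c, A (κ e) c * v c := by
          rw [Finset.mul_sum]
          exact Finset.sum_congr rfl fun c _ => by simp only [Nm]; ring
      _ ≤ v e / s (κ e) * (a * s (κ e)) :=
          mul_le_mul_of_nonneg_left h1 (div_nonneg (hv e).le (hs e).le)
      _ = a * v e := by have := hs e; field_simp
  obtain ⟨b1, hb1, hb1'⟩ := exists_between hab
  obtain ⟨b2, hb2, hb2'⟩ := exists_between hb1'
  obtain ⟨w, hw⟩ := left_of_right hN0 hN hb1
  have hmin : ∀ E : J, (Fb E).Nonempty → ∃ c ∈ Fb E, ∀ c' ∈ Fb E, w c ≤ w c' := fun E hE =>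
    Finset.exists_min_image _ w hE
  choose θ hθ1 hθ2 using hmin
  have hne : ∀ e, (Fb (κ e)).Nonempty := fun e => ⟨e, (hFb _ _).2 rfl⟩
  let r : I → I := fun e => θ (κ e) (hne e)
  have hrκ : ∀ e, κ (r e) = κ e := fun e => (hFb _ _).1 (hθ1 _ (hne e))
  have hrc : ∀ e e', κ e = κ e' → r e = r e' := fun e e' hee => by
    simp only [r]
    congr 1
  have hrw : ∀ e c, κ c = κ e → w (r e) ≤ w c := fun e c hc => hθ2 _ (hne e) c ((hFb _ _).2 hc)
  let K : Finset I := Finset.univ.filter fun c => r c = c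
  have hK : ∀ c, c ∈ K ↔ r c = c := fun c => by simp [K]
  have hrK : ∀ e, r e ∈ K := fun e => (hK _).2 (hrc _ _ (hrκ e))
  let Wt : J → ℝ := fun E => ∑ e ∈ Fb E, w e * (v e / s E)
  have hWt : ∀ e, w (r e) ≤ Wt (κ e) := by
    intro e
    calc w (r e) = ∑ c ∈ Fb (κ e), w (r e) * (v c / s (κ e)) := by
          rw [← Finset.mul_sum, ← Finset.sum_div]
          have := hs e
          change w (r e) = w (r e) * (s (κ e) / s (κ e))
          field_simp
      _ ≤ Wt (κ e) := Finset.sum_le_sum fun c hc =>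
          mul_le_mul_of_nonneg_right (hrw e c ((hFb _ _).1 hc)) (div_nonneg (hv c).le (hs e).le)
  have hb0 : 0 ≤ b1 := ha.trans hb1.le
  let P : K → K → ℝ := fun c e => A (κ e) c
  have hP : MLip P (fun e => Wt (κ e)) b1 := by
    refine ⟨fun c => lt_of_lt_of_le (hw.1 _) (hWt c), fun c => ?_⟩
    have h1 := hw.2 c
    have h2 : ∑ e, Nm e c * w e = ∑ e : K, P c e * Wt (κ e) := by
      rw [← Finset.sum_fiberwise_of_maps_to (s := Finset.univ) (t := K) (g := r)
        (fun e _ => hrK e), ← Finset.sum_coe_sort K]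
      refine Finset.sum_congr rfl fun k _ => ?_
      have hk : r k = k := (hK _).1 k.2
      have : (Finset.univ.filter fun e => r e = k) = Fb (κ k) := by
        ext e
        simp only [Finset.mem_filter, Finset.mem_univ, true_and, hFb]
        exact ⟨fun H => by rw [← H, hrκ], fun H => (hrc _ _ H).trans hk⟩
      rw [this]
      simp only [P, Wt, Finset.mul_sum]
      refine Finset.sum_congr rfl fun e he => ?_
      simp only [Nm, (hFb _ _).1 he]
      ring
    have h3 : w c ≤ Wt (κ c) := by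
      have := hWt c
      rwa [(hK _).1 c.2] at this
    calc ∑ e : K, P c e * Wt (κ e) = ∑ e, Nm e c * w e := h2.symm
      _ ≤ b1 * w c := h1
      _ ≤ b1 * Wt (κ c) := mul_le_mul_of_nonneg_left h3 hb0
  obtain ⟨u, hu⟩ := left_of_right (fun c e => hA _ _) hP hb2
  refine ⟨K, fun e => ⟨r e, ⟨hrK e, hrκ e⟩, fun c hc => ?_⟩,
    fun c => if hc : c ∈ K then u ⟨c, hc⟩ else 1, b2, hb2', fun c => ?_, fun e he => ?_⟩
  · rw [← (hK _).1 hc.1]
    exact hrc _ _ hc.2
  · by_cases hc : c ∈ K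
    · simp only [dif_pos hc]
      exact hu.1 _
    · simp only [dif_neg hc]
      exact one_pos
  · have := hu.2 ⟨e, he⟩
    rw [← Finset.sum_coe_sort K]
    simp only [dif_pos he, Finset.coe_mem, dif_pos]
    exact this

/-- The least Lipschitz constant is attained. -/
theorem pfmin [Nonempty I] {M : I → I → ℝ} (hM : ∀ e c, M e c ≠ 0 → 1 ≤ M e c) (hirr : Irr M)
    {v0 : I → ℝ} {a0 : ℝ} (h0 : MLip M v0 a0) (ha0 : 1 ≤ a0) :
    ∃ v a, MLip M v a ∧ a ≤ a0 ∧ (∀ c, 1 ≤ v c) ∧ ∀ v' a', MLip M v' a' → a ≤ a' := by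
  classical
  have hM0 : ∀ e c, 0 ≤ M e c := fun e c => by
    by_cases h : M e c = 0
    · exact h.ge
    · exact zero_le_one.trans (hM e c h)
  set R : ℝ := a0 ^ Fintype.card I with hR
  let C : Set ((I → ℝ) × ℝ) := (Set.Icc (fun _ => 1) (fun _ => R) ×ˢ Set.Icc 0 a0) ∩
    {p | ∀ e, ∑ c, M e c * p.1 c ≤ p.2 * p.1 e}
  have hC : IsCompact C := by
    refine (isCompact_Icc.prod isCompact_Icc).inter_right ?_
    simp only [Set.ofPred_forall]
    exact isClosed_iInter fun e => isClosed_le (by fun_prop) (by fun_prop)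
  have hnorm : ∀ v a, MLip M v a → a ≤ a0 → ∃ v', (v', a) ∈ C := by
    intro v a h ha
    obtain ⟨m, -, hm⟩ := Finset.exists_min_image Finset.univ v Finset.univ_nonempty
    have hvm := h.1 m
    have h1 := h.smul (inv_pos.2 hvm)
    have hrat := ratio hirr h.1 ha0 (fun e c hec => by
      have a1 := h.single hM0 e c
      have a2 := hM e c hec
      have a3 := h.1 c
      have a4 := h.1 e
      nlinarith) m
    have ha' : 0 ≤ a := by
      have h1 : 0 ≤ a * v m :=
        (Finset.sum_nonneg fun c _ => mul_nonneg (hM0 m c) (h.1 c).le).trans (h.2 m)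
      exact nonneg_of_mul_nonneg_left h1 hvm
    refine ⟨_, ⟨⟨fun c => ?_, fun c => ?_⟩, ha', ha⟩, h1.2⟩
    · show 1 ≤ (v m)⁻¹ * v c
      rw [← div_eq_inv_mul, le_div_iff₀ hvm, one_mul]
      exact hm c (Finset.mem_univ c)
    · show (v m)⁻¹ * v c ≤ R
      rw [← div_eq_inv_mul, div_le_iff₀ hvm]
      exact hrat c
  obtain ⟨v1, hv1⟩ := hnorm v0 a0 h0 le_rfl
  obtain ⟨p, hp, hmin⟩ := hC.exists_isMinOn ⟨_, hv1⟩ (continuous_snd.continuousOn)
  refine ⟨p.1, p.2, ⟨fun c => lt_of_lt_of_le one_pos (hp.1.1.1 c), hp.2⟩, hp.1.2.2,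
    hp.1.1.1, fun v' a' h' => ?_⟩
  by_cases ha : a' ≤ a0
  · obtain ⟨v2, hv2⟩ := hnorm v' a' h' ha
    exact hmin hv2
  · exact hp.1.2.2.trans (not_le.1 ha).le

/-- Entries are bounded. -/
theorem entry_le {M : I → I → ℝ} (hM : ∀ e c, M e c ≠ 0 → 1 ≤ M e c) (hirr : Irr M)
    {v : I → ℝ} {a : ℝ} (h : MLip M v a) (ha : 1 ≤ a) (e c : I) :
    M e c ≤ a ^ (Fintype.card I + 1) := by
  have hM0 : ∀ e c, 0 ≤ M e c := fun e c => by
    by_cases h : M e c = 0
    · exact h.ge
    · exact zero_le_one.trans (hM e c h)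
  have hrat := ratio hirr h.1 ha (fun e c hec => by
    have a1 := h.single hM0 e c
    have a2 := hM e c hec
    have a3 := h.1 c
    nlinarith) c e
  have a1 := h.single hM0 e c
  have a2 : a * v e ≤ a * (a ^ Fintype.card I * v c) := mul_le_mul_of_nonneg_left hrat (by linarith)
  have a3 : M e c * v c ≤ a ^ (Fintype.card I + 1) * v c := by rw [pow_succ]; nlinarith
  exact le_of_mul_le_mul_right a3 (h.1 c)

/-- Nonzero integer rows force `1 ≤ a`. -/
theorem one_le [Nonempty I] {M : I → I → ℝ} (hM : ∀ e c, M e c ≠ 0 → 1 ≤ M e c)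
    (hrow : ∀ e, ∃ c, M e c ≠ 0) {v : I → ℝ} {a : ℝ} (h : MLip M v a) : 1 ≤ a := by
  have hM0 : ∀ e c, 0 ≤ M e c := fun e c => by
    by_cases h : M e c = 0
    · exact h.ge
    · exact zero_le_one.trans (hM e c h)
  obtain ⟨m, -, hm⟩ := Finset.exists_min_image Finset.univ v Finset.univ_nonempty
  obtain ⟨c, hc⟩ := hrow m
  have a1 := h.single hM0 m c
  have a2 := hM m c hc
  have a3 := hm c (Finset.mem_univ c)
  have a4 := h.1 m
  have a5 : 1 * v m ≤ a * v m := by nlinarith
  exact le_of_mul_le_mul_right a5 a4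

/-- The case `a = 1`: all row sums are at most `1`. -/
theorem row_le_one [Nonempty I] {M : I → I → ℝ} (hM : ∀ e c, M e c ≠ 0 → 1 ≤ M e c)
    (hirr : Irr M) {v : I → ℝ} (h : MLip M v 1) (e : I) : ∑ c, M e c ≤ 1 := by
  have hM0 : ∀ e c, 0 ≤ M e c := fun e c => by
    by_cases h : M e c = 0
    · exact h.ge
    · exact zero_le_one.trans (hM e c h)
  have hrat := ratio hirr h.1 le_rfl (fun e c hec => by
    have a1 := h.single hM0 e c
    have a2 := hM e c hec
    have a3 := h.1 c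
    nlinarith)
  simp only [one_pow, one_mul] at hrat
  have h1 := h.2 e
  have h2 : ∑ c, M e c * v c = (∑ c, M e c) * v e := by
    rw [Finset.sum_mul]
    exact Finset.sum_congr rfl fun c _ => by rw [le_antisymm (hrat e c) (hrat c e)]
  rw [h2] at h1
  exact le_of_mul_le_mul_right h1 (h.1 e)

/-- A smaller constant at the price of a small error in one row. -/
theorem st_err {M : I → I → ℝ} (hM : ∀ e c, M e c ≠ 0 → 1 ≤ M e c) (hirr : Irr M)
    {v : I → ℝ} {a : ℝ} (h : MLip M v a) (ha : 1 < a) (e0 : I) {δ : ℝ} (hδ : 0 < δ) :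
    ∃ (u : I → ℝ) (μ : ℝ), 1 < μ ∧ μ < a ∧ (∀ c, 1 ≤ u c) ∧
      (∀ e, e ≠ e0 → ∑ c, M e c * u c ≤ μ * u e) ∧ ∑ c, M e0 c * u c ≤ μ * u e0 + δ := by
  classical
  have hM0 : ∀ e c, 0 ≤ M e c := fun e c => by
    by_cases h : M e c = 0
    · exact h.ge
    · exact zero_le_one.trans (hM e c h)
  set R : ℝ := (2 * a) ^ Fintype.card I with hR
  have hR1 : 1 ≤ R := one_le_pow₀ (by linarith)
  set η : ℝ := min 1 (δ / (a * R)) with hη
  have hη0 : 0 < η := lt_min one_pos (div_pos hδ (by positivity))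
  have hη1 : η ≤ 1 := min_le_left _ _
  have hη2 : η * (a * R) ≤ δ := by
    have : η ≤ δ / (a * R) := min_le_right _ _
    rwa [le_div_iff₀ (by positivity)] at this
  let t : I → ℝ := fun e => if e = e0 then (1 + η)⁻¹ else 1
  have ht0 : ∀ e, 1 / 2 ≤ t e := fun e => by
    simp only [t]
    split_ifs
    · rw [one_div]
      exact inv_anti₀ (by linarith) (by linarith)
    · norm_num
  have ht1 : ∀ e, t e ≤ 1 := fun e => by
    simp only [t]
    split_ifs
    · exact inv_le_one_of_one_le₀ (by linarith)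
    · exact le_rfl
  let M' : I → I → ℝ := fun e c => t e * M e c
  have hsum : ∀ (x : I → ℝ) e, ∑ c, M' e c * x c = t e * ∑ c, M e c * x c := fun x e => by
    rw [Finset.mul_sum]
    exact Finset.sum_congr rfl fun c _ => by simp only [M']; ring
  have hM'0 : ∀ e c, 0 ≤ M' e c := fun e c => mul_nonneg (by linarith [ht0 e]) (hM0 e c)
  have hirr' : Irr M' := fun U hU H => hirr U hU fun e he c hc =>
    H e he c (mul_ne_zero (by linarith [ht0 e]) hc)
  have hL : MLip M' v a := by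
    refine ⟨h.1, fun e => ?_⟩
    rw [hsum]
    have h1 : 0 ≤ ∑ c, M e c * v c := Finset.sum_nonneg fun c _ => mul_nonneg (hM0 e c) (h.1 c).le
    have := h.2 e
    have := ht1 e
    nlinarith
  have hs : ∑ c, M' e0 c * v c < a * v e0 := by
    rw [hsum]
    have h1 : t e0 < 1 := by
      simp only [t, if_true]
      exact inv_lt_one_of_one_lt₀ (by linarith)
    have h2 := h.2 e0
    have h3 : 0 < a * v e0 := mul_pos (by linarith) (h.1 e0)
    have h4 := ht0 e0
    nlinarith
  obtain ⟨v', a', ha', h'⟩ := st' hM'0 hirr' hL hs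
  obtain ⟨μ, hμ1, hμ2⟩ := exists_between (max_lt ha ha')
  have hμ : MLip M' v' μ := h'.mono ((le_max_right _ _).trans hμ1.le)
  have hμ0 : 1 < μ := lt_of_le_of_lt (le_max_left _ _) hμ1
  obtain ⟨m, -, hm⟩ := Finset.exists_min_image Finset.univ v' ⟨e0, Finset.mem_univ _⟩
  have hvm := h'.1 m
  have hrat := ratio hirr' h'.1 (q := 2 * a) (by linarith) (fun e c hec => by
    have a1 := hμ.single hM'0 e c
    have a2 : 1 ≤ M e c := hM e c (right_ne_zero_of_mul hec)
    have a3 := h'.1 c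
    have a4 := h'.1 e
    have a5 : 1 / 2 ≤ M' e c := by have := ht0 e; simp only [M']; nlinarith
    nlinarith) m e0
  have hu := hμ.smul (inv_pos.2 hvm)
  have hu0 : (v' m)⁻¹ * v' e0 ≤ R := by
    rw [← div_eq_inv_mul, div_le_iff₀ hvm]
    exact hrat
  refine ⟨fun c => (v' m)⁻¹ * v' c, μ, hμ0, hμ2, fun c => ?_, fun e he => ?_, ?_⟩
  · show 1 ≤ (v' m)⁻¹ * v' c
    rw [← div_eq_inv_mul, le_div_iff₀ hvm, one_mul]
    exact hm c (Finset.mem_univ c)
  · have := hu.2 e
    rw [hsum] at this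
    simpa only [t, if_neg he, one_mul] using this
  · have h1 := hu.2 e0
    rw [hsum] at h1
    simp only [t, if_true] at h1
    rw [inv_mul_le_iff₀ (by linarith)] at h1
    have h2 := hu.1 e0
    have h3 : μ * ((v' m)⁻¹ * v' e0) ≤ a * R :=
      mul_le_mul hμ2.le hu0 h2.le (by linarith)
    have h4 : η * (μ * ((v' m)⁻¹ * v' e0)) ≤ η * (a * R) := mul_le_mul_of_nonneg_left h3 hη0.le
    show ∑ c, M e0 c * ((v' m)⁻¹ * v' c) ≤ μ * ((v' m)⁻¹ * v' e0) + δ
    linarith

/-- The infimum of the Lipschitz constants. -/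
noncomputable def Lam (M : I → I → ℝ) : ℝ := sInf {a | ∃ v, MLip M v a}

theorem Lam_eq {M : I → I → ℝ} {v : I → ℝ} {a : ℝ} (h : MLip M v a)
    (hmin : ∀ v' a', MLip M v' a' → a ≤ a') : Lam M = a :=
  IsLeast.csInf_eq ⟨⟨v, h⟩, fun _ ⟨v', h'⟩ => hmin v' _ h'⟩

theorem Lam_equiv {I' : Type} [Fintype I'] (σ : I' ≃ I) (M : I → I → ℝ) :
    Lam (fun e c => M (σ e) (σ c)) = Lam M := by
  unfold Lam
  congr 1
  ext a
  constructor
  · rintro ⟨v, h⟩
    refine ⟨fun c => v (σ.symm c), fun c => h.1 _, fun e => ?_⟩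
    have := h.2 (σ.symm e)
    rw [← Equiv.sum_comp σ]
    simpa using this
  · rintro ⟨v, h⟩
    refine ⟨fun c => v (σ c), fun c => h.1 _, fun e => ?_⟩
    have := h.2 (σ e)
    rw [← Equiv.sum_comp σ] at this
    exact this

/-- The values of `Lam` on integer matrices of bounded size. -/
def LamSet (n B : ℕ) : Set ℝ :=
  ⋃ k ∈ Set.Iic n, (fun M : Fin k → Fin k → ℕ => Lam fun e c => (M e c : ℝ)) ''
    {M | ∀ e c, M e c ≤ B}

theorem lamSet_finite (n B : ℕ) : (LamSet n B).Finite := by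
  refine (Set.finite_Iic n).biUnion fun k _ => Set.Finite.image _ ?_
  exact (Set.finite_Iic (fun (_ _ : Fin k) => B)).subset fun M hM e c => hM e c

theorem lam_mem {n B : ℕ} (hn : Fintype.card I ≤ n) (M : I → I → ℕ) (hB : ∀ e c, M e c ≤ B) :
    Lam (fun e c => (M e c : ℝ)) ∈ LamSet n B := by
  refine Set.mem_biUnion (x := Fintype.card I) hn ?_
  let σ := (Fintype.equivFin I).symm
  exact ⟨fun e c => M (σ e) (σ c), fun e c => hB _ _,
    Lam_equiv σ fun e c => (M e c : ℝ)⟩

end RM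
end CPOR
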