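import Pool.Agent.P.MP_2cb329_al.F.Defs
import Pool.Agent.P.MP_2cb329_al.F.RM

/-! Train tracks: darts, classes of edges, crossing numbers, admissible pairs. -/

set_option autoImplicit false

namespace CPOR
namespace RT

open ZT MulAction

section Tree

variable {V : Type} {T : SimpleGraph V}

theorem sep_swap {e : V × V} {x y : V} (h : Sep T e x y) : Sep T e.swap y x :=
  ⟨h.1.symm, h.2.2.symm, h.2.1.symm⟩

theorem sep_reach {e : V × V} {x y : V} (h : Sep T e x y) : T.Reachable x y :=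
  h.2.1.1.trans h.2.2.reach

theorem not_btw_swap {x y z : V} (ha : T.Adj x y) (h : Btw T x y z) : ¬ Btw T y x z := by
  intro h'
  have e1 := h.2.2
  have e2 := h'.2.2
  have := SimpleGraph.dist_eq_one_iff_adj.2 ha
  have := SimpleGraph.dist_eq_one_iff_adj.2 ha.symm
  omega

theorem not_sep_self (e : V × V) (x : V) : ¬ Sep T e x x := fun h =>
  not_btw_swap h.1 h.2.2 h.2.1.symm

theorem btw_adj {x y : V} (h : T.Adj x y) : Btw T x y y := btw_right h.reachable

theorem sep_dart {x y : V} (h : T.Adj x y) : Sep T (x, y) x y :=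
  ⟨h, btw_left h.reachable, btw_right h.reachable⟩

variable (hT : T.IsAcyclic)
include hT

theorem sep_btw {e : V × V} {x y : V} (h : Sep T e x y) : Btw T x e.1 y ∧ Btw T x e.2 y :=
  Btw.glue hT h.2.1 h.2.2 h.1.ne

theorem sep_tri {e : V × V} {x y z : V} (h : Sep T e x z) (hr : T.Reachable x y) :
    Sep T e x y ∨ Sep T e y z := by
  rcases adj_btw hT h.1 (h.2.1.1.symm.trans hr) with H | H
  · exact Or.inl ⟨h.1, h.2.1, H⟩
  · exact Or.inr ⟨h.1, H.symm, h.2.2⟩

theorem sep_left {e : V × V} {x y z : V} (hb : Btw T x y z) (h : Sep T e x y) : Sep T e x z :=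
  ⟨h.1, h.2.1, ((hb.trans_left (sep_btw hT h).2).1.trans_left h.2.1).2⟩

theorem sep_right {e : V × V} {x y z : V} (hb : Btw T x y z) (h : Sep T e y z) : Sep T e x z :=
  sep_swap (e := e.swap) (sep_left hT hb.symm (sep_swap h))

theorem sep_not_both {e : V × V} {x y z : V} (hb : Btw T x y z) (h : Sep T e x y)
    (h' : Sep T e y z) : False := by
  have _ := hb
  have _ := hT
  exact not_btw_swap h.1 h.2.2 h'.2.1.symm

theorem sep_adj {e : V × V} {x y : V} (ha : T.Adj x y) (h : Sep T e x y) : e = (x, y) := by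
  obtain ⟨h1, h2⟩ := sep_btw hT h
  have e1 := h.2.1.2.2
  have e2 := h.2.2.2.2
  have e3 := h2.2.2
  have := SimpleGraph.dist_eq_one_iff_adj.2 ha
  have := SimpleGraph.dist_eq_one_iff_adj.2 h.1
  have a1 : e.1 = x := (eq_of_dist_zero h.2.1.1 (by omega)).symm
  have a2 : e.2 = y := eq_of_dist_zero h2.2.1 (by omega)
  exact Prod.ext a1 a2

theorem btw_finite (x y : V) : {z | Btw T x z y}.Finite := by
  refine Set.Finite.of_finite_image (f := fun z => T.dist x z)
    ((Set.finite_Iic (T.dist x y)).subset ?_) fun z hz z' hz' h => Btw.unique hT hz hz' h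
  rintro _ ⟨z, hz, rfl⟩
  have := hz.2.2
  show T.dist x z ≤ T.dist x y
  omega

theorem sep_finite (x y : V) : {e | Sep T e x y}.Finite :=
  ((btw_finite hT x y).prod (btw_finite hT x y)).subset fun _ he => sep_btw hT he

omit hT in
theorem nxt_spec {x y : V} (hr : T.Reachable x y) (hne : x ≠ y) :
    T.Adj x (nxt T x y) ∧ Btw T x (nxt T x y) y := by
  have h : ∃ z, T.Adj x z ∧ Btw T x z y := by
    have h0 : T.dist x y ≠ 0 := fun H => hne (eq_of_dist_zero hr H)
    obtain ⟨z, hz, hz1⟩ := exists_btw_dist hr (i := 1) (by omega)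
    exact ⟨z, adj_of_dist_one hz1, hz⟩
  unfold nxt
  rw [dif_pos h]
  exact h.choose_spec

omit hT in
theorem ne_of_btw {x z y : V} (ha : T.Adj x z) (h : Btw T x z y) : x ≠ y := by
  rintro rfl
  exact ha.ne h.eq_of_self.symm

theorem nxt_eq {x z y : V} (ha : T.Adj x z) (h : Btw T x z y) : nxt T x y = z := by
  obtain ⟨h1, h2⟩ := nxt_spec h.reach (ne_of_btw ha h)
  refine Btw.unique hT h2 h ?_
  rw [SimpleGraph.dist_eq_one_iff_adj.2 h1, SimpleGraph.dist_eq_one_iff_adj.2 ha]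

omit hT in
theorem sep_nxt {x y : V} (hr : T.Reachable x y) (hne : x ≠ y) : Sep T (x, nxt T x y) x y :=
  ⟨(nxt_spec hr hne).1, btw_left (nxt_spec hr hne).1.reachable, (nxt_spec hr hne).2⟩

omit hT in
/-- Induction along a geodesic. -/
theorem geod_ind {P : V → V → Prop} (h0 : ∀ x, P x x)
    (hs : ∀ x z y, T.Adj x z → Btw T x z y → P z y → P x y) {x y : V} (hr : T.Reachable x y) :
    P x y := by
  generalize hn : T.dist x y = n
  induction n generalizing x with
  | zero =>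
    rw [eq_of_dist_zero hr hn]
    exact h0 y
  | succ n ih =>
    have hne : x ≠ y := by
      rintro rfl
      simp at hn
    obtain ⟨h1, h2⟩ := nxt_spec hr hne
    refine hs x _ y h1 h2 (ih h2.2.1 ?_)
    have := h2.2.2
    have := SimpleGraph.dist_eq_one_iff_adj.2 h1
    omega

/-- Half spaces are closed under adjacency, except through the dart itself. -/
theorem half_adj {y z u u' : V} (hyz : T.Adj y z) (h : Btw T y z u) (ha : T.Adj u u')
    (hne : u' ≠ y) : Btw T y z u' := by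
  rcases Btw.or hT h (h.reach.trans ha.reachable) with H | H
  · exact H
  · rcases H.eq_of_adj hT ha.symm with rfl | rfl
    · exact btw_right h.1
    · exact btw_of_adj hT hyz ha hne.symm

end Tree

section Act

variable {G : Type} [Group G]

/-- Existence of equivariant maps. -/
theorem exists_eqmap {X Y : Type} [MulAction G X] [MulAction G Y] (R : X → Y → Prop)
    (hR : ∀ (g : G) x y, R x y → R (g • x) (g • y))
    (h : ∀ x, ∃ y, R x y ∧ stabilizer G x ≤ stabilizer G y) :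
    ∃ f : X → Y, (∀ (g : G) x, f (g • x) = g • f x) ∧ ∀ x, R x (f x) := by
  choose y hy1 hy2 using h
  let r : X → X := fun x => (Quotient.mk (orbitRel G X) x).out
  have hr : ∀ x, ∃ g : G, g • r x = x := fun x => by
    have : (orbitRel G X) (r x) x := Quotient.exact (Quotient.out_eq _)
    exact (orbitRel G X).symm this
  have hrg : ∀ (g : G) x, r (g • x) = r x := fun g x => by
    simp only [r]
    congr 1
    exact Quotient.sound ⟨g, rfl⟩
  choose γ hγ using hr
  refine ⟨fun x => γ x • y (r x), fun g x => ?_, fun x => ?_⟩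
  · have h1 : (g * γ x)⁻¹ * γ (g • x) ∈ stabilizer G (r x) := by
      rw [mem_stabilizer_iff, mul_smul, ← hrg g x, hγ, hrg, inv_smul_eq_iff, mul_smul, hγ]
    have h2 := hy2 _ h1
    rw [mem_stabilizer_iff, mul_smul, inv_smul_eq_iff, mul_smul] at h2
    show γ (g • x) • y (r (g • x)) = g • γ x • y (r x)
    rw [hrg, h2]
  · have := hR (γ x) _ _ (hy1 (r x))
    rwa [hγ] at this

/-- Invariant functions are bounded. -/
theorem bdd_of_finOrb {X : Type} [MulAction G X] {A : Set X} (h : FinOrb (⊤ : Subgroup G) A)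
    (F : X → ℕ) (hF : ∀ (g : G) x, F (g • x) = F x) : ∃ C, ∀ x ∈ A, F x ≤ C := by
  obtain ⟨B, hB, h⟩ := h
  obtain ⟨C, hC⟩ := (hB.image F).bddAbove
  refine ⟨C, fun x hx => ?_⟩
  obtain ⟨k, -, hk⟩ := h x hx
  rw [← hF k x]
  exact hC ⟨_, hk, rfl⟩

variable {V : Type} [MulAction G V] {T : SimpleGraph V}

theorem sep_smul (hA : Acts T G) (g : G) {e : V × V} {x y : V} (h : Sep T e x y) :
    Sep T (g • e) (g • x) (g • y) :=
  ⟨hA g _ _ h.1, hA.btw g h.2.1, hA.btw g h.2.2⟩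

theorem nxt_smul (hT : T.IsAcyclic) (hA : Acts T G) (g : G) {x y : V} (hr : T.Reachable x y)
    (hne : x ≠ y) : nxt T (g • x) (g • y) = g • nxt T x y :=
  nxt_eq hT (hA g _ _ (nxt_spec hr hne).1) (hA.btw g (nxt_spec hr hne).2)

theorem stab_smul_le {X Y : Type} [MulAction G X] [MulAction G Y] {f : X → Y}
    (hf : ∀ (g : G) x, f (g • x) = g • f x) (x : X) : stabilizer G x ≤ stabilizer G (f x) := by
  intro g hg
  rw [mem_stabilizer_iff] at hg ⊢
  rw [← hf, hg]

end Act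

end RT

open ZT MulAction RT

variable {G : Type} [Group G] {N : Type} [MulAction G N] {S : Sys G N}

namespace Spl

variable {W : Type} [MulAction G W] (Z : Spl S W)

/-- Darts. -/
structure D : Type where
  o : W
  t : W
  adj : Z.T.Adj o t

variable {Z}

theorem D.ext' {d d' : Z.D} (h1 : d.o = d'.o) (h2 : d.t = d'.t) : d = d' := by
  cases d
  cases d'
  simp only at h1 h2
  subst h1 h2
  rfl

instance : MulAction G Z.D where
  smul g d := ⟨g • d.o, g • d.t, Z.gf.acts g _ _ d.adj⟩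
  one_smul d := D.ext' (one_smul G d.o) (one_smul G d.t)
  mul_smul g h d := D.ext' (mul_smul g h d.o) (mul_smul g h d.t)

namespace D

/-- The underlying pair. -/
def p (d : Z.D) : W × W := (d.o, d.t)

/-- Reversed dart. -/
def rev (d : Z.D) : Z.D := ⟨d.t, d.o, d.adj.symm⟩

/-- The dart between adjacent vertices. -/
def of {x y : W} (h : Z.T.Adj x y) : Z.D := ⟨x, y, h⟩

theorem p_inj : Function.Injective (p : Z.D → W × W) := fun _ _ h =>
  ext' (congrArg Prod.fst h) (congrArg Prod.snd h)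

@[simp] theorem smul_p (g : G) (d : Z.D) : (g • d).p = g • d.p := rfl
@[simp] theorem rev_p (d : Z.D) : d.rev.p = d.p.swap := rfl
@[simp] theorem smul_o (g : G) (d : Z.D) : (g • d).o = g • d.o := rfl
@[simp] theorem smul_t (g : G) (d : Z.D) : (g • d).t = g • d.t := rfl
@[simp] theorem rev_o (d : Z.D) : d.rev.o = d.t := rfl
@[simp] theorem rev_t (d : Z.D) : d.rev.t = d.o := rfl
@[simp] theorem rev_rev (d : Z.D) : d.rev.rev = d := rfl
@[simp] theorem of_o {x y : W} (h : Z.T.Adj x y) : (of h).o = x := rfl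
@[simp] theorem of_t {x y : W} (h : Z.T.Adj x y) : (of h).t = y := rfl
@[simp] theorem of_p {x y : W} (h : Z.T.Adj x y) : (of h).p = (x, y) := rfl
theorem smul_rev (g : G) (d : Z.D) : g • d.rev = (g • d).rev := rfl

theorem free {g : G} {d : Z.D} (h : g • d = d) : g = 1 :=
  Z.gf.etriv g _ _ d.adj (congrArg o h) (congrArg t h)

theorem noinv (g : G) (d : Z.D) : g • d ≠ d.rev := fun h =>
  Z.gf.noinv g _ _ d.adj (congrArg o h) (congrArg t h)

theorem ν_t (d : Z.D) : Z.ν d.t = Z.ν d.o := ((Z.ν_eq _ _).2 d.adj.reachable).symm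

end D

variable (Z)

/-- Darts in the same class of unoriented edges. -/
def eRel : Setoid Z.D where
  r d d' := ∃ g : G, d' = g • d ∨ d' = g • d.rev
  iseqv := {
    refl := fun d => ⟨1, Or.inl (one_smul G d).symm⟩
    symm := by
      rintro d d' ⟨g, rfl | rfl⟩
      · exact ⟨g⁻¹, Or.inl (inv_smul_smul g d).symm⟩
      · exact ⟨g⁻¹, Or.inr (inv_smul_smul g d).symm⟩
    trans := by
      rintro d d' d'' ⟨g, rfl | rfl⟩ ⟨h, rfl | rfl⟩
      · exact ⟨h * g, Or.inl (mul_smul h g d).symm⟩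
      · exact ⟨h * g, Or.inr (mul_smul h g d.rev).symm⟩
      · exact ⟨h * g, Or.inr (mul_smul h g d.rev).symm⟩
      · exact ⟨h * g, Or.inl (mul_smul h g d).symm⟩ }

/-- Classes of unoriented edges. -/
def EO : Type := Quotient Z.eRel

variable {Z}

/-- The class of a dart. -/
def D.cl (d : Z.D) : Z.EO := Quotient.mk Z.eRel d

theorem D.cl_eq {d d' : Z.D} : d.cl = d'.cl ↔ ∃ g : G, d' = g • d ∨ d' = g • d.rev :=
  Quotient.eq (r := Z.eRel)

@[simp] theorem D.cl_smul (g : G) (d : Z.D) : (g • d).cl = d.cl :=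
  (D.cl_eq.2 ⟨g, Or.inl rfl⟩).symm

@[simp] theorem D.cl_rev (d : Z.D) : d.rev.cl = d.cl :=
  (D.cl_eq.2 ⟨1, Or.inr (one_smul G _).symm⟩).symm

theorem cl_surj (c : Z.EO) : ∃ d : Z.D, d.cl = c := Quotient.exists_rep c

variable (Z)

theorem finD : ∃ F : Set Z.D, F.Finite ∧ ∀ d : Z.D, ∃ g : G, g • d ∈ F := by
  obtain ⟨F, hF, h⟩ := Z.finE
  refine ⟨D.p ⁻¹' F, hF.preimage D.p_inj.injOn, fun d => ?_⟩
  obtain ⟨k, -, hk⟩ := h d.p d.adj
  exact ⟨k, hk⟩

instance : Finite Z.EO := by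
  obtain ⟨F, hF, h⟩ := Z.finD
  have := hF.to_subtype
  refine Finite.of_surjective (fun d : F => d.1.cl) fun c => ?_
  obtain ⟨d, rfl⟩ := cl_surj c
  obtain ⟨g, hg⟩ := h d
  exact ⟨⟨_, hg⟩, D.cl_smul g d⟩

noncomputable instance : Fintype Z.EO := Fintype.ofFinite _

noncomputable instance : DecidableEq Z.EO := Classical.decEq _

/-- Number of darts of class `c` on the geodesic from `x` to `y`. -/
noncomputable def cr (x y : W) (c : Z.EO) : ℕ := {d : Z.D | Sep Z.T d.p x y ∧ d.cl = c}.ncard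

theorem cr_fin (x y : W) (c : Z.EO) : {d : Z.D | Sep Z.T d.p x y ∧ d.cl = c}.Finite :=
  ((sep_finite Z.gf.acyc x y).preimage D.p_inj.injOn).subset fun _ h => h.1

variable {Z}

theorem cr_ne_zero {x y : W} {c : Z.EO} :
    Z.cr x y c ≠ 0 ↔ ∃ d : Z.D, Sep Z.T d.p x y ∧ d.cl = c := by
  unfold cr
  rw [Ne, Set.ncard_eq_zero (Z.cr_fin x y c), ← Ne, ← Set.nonempty_iff_ne_empty]
  rfl

theorem cr_eq_zero {x y : W} {c : Z.EO} :
    Z.cr x y c = 0 ↔ ∀ d : Z.D, Sep Z.T d.p x y → d.cl ≠ c := by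
  rw [← not_iff_not, ← Ne, cr_ne_zero]
  push Not
  rfl

@[simp] theorem cr_self (x : W) (c : Z.EO) : Z.cr x x c = 0 :=
  cr_eq_zero.2 fun _ h => (not_sep_self _ _ h).elim

theorem cr_tri {x y : W} (hr : Z.T.Reachable x y) (z : W) (c : Z.EO) :
    Z.cr x z c ≤ Z.cr x y c + Z.cr y z c := by
  refine le_trans (Set.ncard_le_ncard ?_ ((Z.cr_fin x y c).union (Z.cr_fin y z c)))
    (Set.ncard_union_le _ _)
  rintro d ⟨h1, h2⟩
  rcases sep_tri Z.gf.acyc h1 hr with H | H
  · exact Or.inl ⟨H, h2⟩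
  · exact Or.inr ⟨H, h2⟩

theorem cr_btw {x y z : W} (hb : Btw Z.T x y z) (c : Z.EO) :
    Z.cr x z c = Z.cr x y c + Z.cr y z c := by
  unfold cr
  rw [← Set.ncard_union_eq _ (Z.cr_fin x y c) (Z.cr_fin y z c)]
  · congr 1
    ext d
    constructor
    · rintro ⟨h1, h2⟩
      rcases sep_tri Z.gf.acyc h1 hb.1 with H | H
      · exact Or.inl ⟨H, h2⟩
      · exact Or.inr ⟨H, h2⟩
    · rintro (⟨h1, h2⟩ | ⟨h1, h2⟩)
      · exact ⟨sep_left Z.gf.acyc hb h1, h2⟩
      · exact ⟨sep_right Z.gf.acyc hb h1, h2⟩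
  · rw [Set.disjoint_left]
    rintro d ⟨h1, -⟩ ⟨h2, -⟩
    exact sep_not_both Z.gf.acyc hb h1 h2

theorem cr_symm (x y : W) (c : Z.EO) : Z.cr x y c = Z.cr y x c := by
  have key : ∀ x y, Z.cr x y c ≤ Z.cr y x c := fun x y =>
    Set.ncard_le_ncard_of_injOn D.rev (fun d h => ⟨sep_swap h.1, (D.cl_rev d).trans h.2⟩)
      (fun d _ d' _ h => by rw [← D.rev_rev d, h, D.rev_rev]) (Z.cr_fin y x c)
  exact le_antisymm (key x y) (key y x)

theorem cr_smul (g : G) (x y : W) (c : Z.EO) : Z.cr (g • x) (g • y) c = Z.cr x y c := by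
  have key : ∀ (g : G) x y, Z.cr x y c ≤ Z.cr (g • x) (g • y) c := fun g x y =>
    Set.ncard_le_ncard_of_injOn (fun d => g • d)
      (fun d h => ⟨sep_smul Z.gf.acts g h.1, (D.cl_smul g d).trans h.2⟩)
      (fun d _ d' _ h => smul_left_cancel g h) (Z.cr_fin _ _ c)
  refine le_antisymm ?_ (key g x y)
  have := key g⁻¹ (g • x) (g • y)
  rwa [inv_smul_smul, inv_smul_smul] at this

theorem cr_dart (d : Z.D) (c : Z.EO) : Z.cr d.o d.t c = if d.cl = c then 1 else 0 := by
  unfold cr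
  split_ifs with h
  · rw [Set.ncard_eq_one]
    refine ⟨d, Set.ext fun d' => ⟨fun H => D.p_inj (sep_adj Z.gf.acyc d.adj H.1), ?_⟩⟩
    rintro rfl
    exact ⟨sep_dart d'.adj, h⟩
  · rw [Set.ncard_eq_zero (Z.cr_fin _ _ c), Set.eq_empty_iff_forall_notMem]
    rintro d' ⟨h1, h2⟩
    have : d' = d := D.p_inj (sep_adj Z.gf.acyc d.adj h1)
    exact h (this ▸ h2)

theorem eq_of_cr {x y : W} (hr : Z.T.Reachable x y) (h : ∀ c, Z.cr x y c = 0) : x = y := by
  by_contra hne
  exact cr_eq_zero.1 (h _) (D.of (nxt_spec hr hne).1) (sep_nxt hr hne) rfl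

variable (Z)

/-- Weighted length. -/
noncomputable def L (v : Z.EO → ℝ) (x y : W) : ℝ := ∑ c, (Z.cr x y c : ℝ) * v c

variable {Z}

@[simp] theorem L_self (v : Z.EO → ℝ) (x : W) : Z.L v x x = 0 := by simp [L]

theorem L_tri {v : Z.EO → ℝ} (hv : ∀ c, 0 ≤ v c) {x y : W} (hr : Z.T.Reachable x y) (z : W) :
    Z.L v x z ≤ Z.L v x y + Z.L v y z := by
  unfold L
  rw [← Finset.sum_add_distrib]
  refine Finset.sum_le_sum fun c _ => ?_
  rw [← add_mul]
  exact mul_le_mul_of_nonneg_right (by exact_mod_cast cr_tri hr z c) (hv c)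

theorem L_btw (v : Z.EO → ℝ) {x y z : W} (hb : Btw Z.T x y z) :
    Z.L v x z = Z.L v x y + Z.L v y z := by
  unfold L
  rw [← Finset.sum_add_distrib]
  refine Finset.sum_congr rfl fun c _ => ?_
  rw [cr_btw hb c]
  push_cast
  ring

theorem L_symm (v : Z.EO → ℝ) (x y : W) : Z.L v x y = Z.L v y x := by
  simp only [L, cr_symm x y]

theorem L_smul (v : Z.EO → ℝ) (g : G) (x y : W) : Z.L v (g • x) (g • y) = Z.L v x y := by
  simp only [L, cr_smul]

theorem L_dart (v : Z.EO → ℝ) (d : Z.D) : Z.L v d.o d.t = v d.cl := by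
  simp [L, cr_dart]

theorem L_nonneg {v : Z.EO → ℝ} (hv : ∀ c, 0 ≤ v c) (x y : W) : 0 ≤ Z.L v x y :=
  Finset.sum_nonneg fun c _ => mul_nonneg (Nat.cast_nonneg _) (hv c)

open Classical in
/-- Weights on pairs from weights on classes. -/
noncomputable def wt (v : Z.EO → ℝ) (e : W × W) : ℝ :=
  if h : Z.T.Adj e.1 e.2 then v (D.of h).cl else 1

theorem wt_dart (v : Z.EO → ℝ) (d : Z.D) : wt v d.p = v d.cl := by
  unfold wt
  exact dif_pos d.adj

theorem isWt {v : Z.EO → ℝ} (hv : ∀ c, 1 ≤ v c) : IsWt Z.T G (wt v) where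
  smul g e h := by
    have h1 := wt_dart v (g • D.of h)
    have h2 := wt_dart v (D.of h)
    rw [D.cl_smul] at h1
    exact h1.trans h2.symm
  symm x y h := by
    have h1 := wt_dart v (D.of h).rev
    have h2 := wt_dart v (D.of h)
    rw [D.cl_rev] at h1
    exact h2.trans h1.symm
  one_le x y h := by
    have h2 := wt_dart v (D.of h)
    exact (hv _).trans h2.ge

theorem len_wt (v : Z.EO → ℝ) (x y : W) : len Z.T (wt v) x y = Z.L v x y := by
  classical
  have hf : {d : Z.D | Sep Z.T d.p x y}.Finite :=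
    (sep_finite Z.gf.acyc x y).preimage D.p_inj.injOn
  have h1 : {e | Sep Z.T e x y} = D.p '' {d : Z.D | Sep Z.T d.p x y} := by
    ext e
    exact ⟨fun h => ⟨D.of h.1, h, rfl⟩, by rintro ⟨d, h, rfl⟩; exact h⟩
  unfold len
  rw [h1, finsum_mem_image D.p_inj.injOn, finsum_mem_eq_finite_toFinset_sum _ hf,
    ← Finset.sum_fiberwise (g := D.cl)]
  refine Finset.sum_congr rfl fun c _ => ?_
  rw [Finset.sum_congr rfl (g := fun _ => v c)
    (fun d hd => by rw [wt_dart, (Finset.mem_filter.1 hd).2]), Finset.sum_const, nsmul_eq_mul]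
  congr 2
  unfold cr
  rw [← Set.ncard_coe_finset]
  congr 1
  ext d
  simp

theorem exists_dart (hZ : Z.NoFix) (x : W) : ∃ d : Z.D, d.o = x := by
  have h := hZ x
  rw [SetLike.not_le_iff_exists] at h
  obtain ⟨g, hg, hgx⟩ := h
  have hr : Z.T.Reachable x (g • x) := (Z.ν_eq _ _).1 (by rw [Z.ν_smul]; exact hg.symm)
  exact ⟨D.of (nxt_spec hr fun H => hgx H.symm).1, rfl⟩

theorem reach_smul {x : W} {g : G} (hg : g ∈ stabilizer G (Z.ν x)) : Z.T.Reachable x (g • x) :=
  (Z.ν_eq _ _).1 (by rw [Z.ν_smul]; exact hg.symm)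

theorem stab_le (x : W) : stabilizer G x ≤ stabilizer G (Z.ν x) := stab_smul_le Z.ν_smul x

end Spl

namespace Sys.Bij

variable (hS : S.Bij)
include hS

theorem stab_src (a : S.A) : stabilizer G (S.src a) = stabilizer G a := by
  refine le_antisymm (fun g hg => ?_) (stab_smul_le S.src_smul a)
  exact (hS.out (S.src a)).unique ((S.src_smul g a).trans hg) rfl

theorem stab_tgt (a : S.A) : stabilizer G (S.tgt a) = stabilizer G a := by
  refine le_antisymm (fun g hg => ?_) (stab_smul_le S.tgt_smul a)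
  exact (hS.inn (S.tgt a)).unique ((S.tgt_smul g a).trans hg) rfl

theorem fg (v : N) : (stabilizer G v).FG := by
  obtain ⟨a, rfl⟩ := (hS.out v).exists
  rw [hS.stab_src]
  exact S.fg a

end Sys.Bij

theorem Sys.Conn.ind (h : S.Conn) {Q : N → Prop} (h1 : ∀ (g : G) v, Q v → Q (g • v))
    (h2 : ∀ a, Q (S.src a) → Q (S.tgt a)) {v : N} (hv : Q v) (v' : N) : Q v' := by
  obtain ⟨g, n, a, hn, hp, h0, hn'⟩ := h v v'
  have key : ∀ k : ℕ, k < n → Q (S.tgt (a k)) := by
    intro k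
    induction k with
    | zero => exact fun _ => h2 _ (by simpa [h0] using hv)
    | succ k ih =>
      intro hk
      refine h2 _ ?_
      have := hp k (by omega) (by omega)
      push_cast
      rw [← this]
      exact ih (by omega)
  have h3 := key (n - 1) (by omega)
  rw [show ((n - 1 : ℕ) : ℤ) = n - 1 by omega, hn'] at h3
  have := h1 g⁻¹ _ h3
  rwa [inv_smul_smul] at this

namespace TMap

variable {W : Type} [MulAction G W] {Z : Spl S W} (φ : TMap Z)

/-- The transition matrix. -/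
noncomputable def M (e c : Z.EO) : ℕ := Z.cr (φ.f (Quotient.out e).o) (φ.f (Quotient.out e).t) c

theorem M_cl (d : Z.D) (c : Z.EO) : φ.M d.cl c = Z.cr (φ.f d.o) (φ.f d.t) c := by
  have h : d.cl = (Quotient.out d.cl : Z.D).cl := (Quotient.out_eq _).symm
  obtain ⟨g, h | h⟩ := Spl.D.cl_eq.1 h
  · unfold M
    rw [h, Spl.D.smul_o, Spl.D.smul_t, φ.smul, φ.smul, Spl.cr_smul]
  · unfold M
    rw [h, Spl.D.smul_o, Spl.D.smul_t, φ.smul, φ.smul, Spl.cr_smul, Spl.cr_symm]
    rfl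

/-- The real transition matrix. -/
noncomputable def MR (e c : Z.EO) : ℝ := φ.M e c

theorem MR_one (e c : Z.EO) (h : φ.MR e c ≠ 0) : 1 ≤ φ.MR e c := by
  unfold MR at *
  exact_mod_cast Nat.one_le_iff_ne_zero.2 (by exact_mod_cast h)

theorem MR_sum (v : Z.EO → ℝ) (d : Z.D) :
    ∑ c, φ.MR d.cl c * v c = Z.L v (φ.f d.o) (φ.f d.t) := by
  simp only [MR, M_cl, Spl.L]

/-- `φ` is `a`-Lipschitz for the weights `v`. -/
def Lip (v : Z.EO → ℝ) (a : ℝ) : Prop := RM.MLip φ.MR v a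

theorem lip_iff {v : Z.EO → ℝ} {a : ℝ} : φ.Lip v a ↔
    (∀ c, 0 < v c) ∧ ∀ d : Z.D, Z.L v (φ.f d.o) (φ.f d.t) ≤ a * v d.cl := by
  refine and_congr_right fun _ => ⟨fun h d => ?_, fun h e => ?_⟩
  · rw [← MR_sum]
    exact h _
  · obtain ⟨d, rfl⟩ := Spl.cl_surj e
    rw [MR_sum]
    exact h d

def Good (a : ℝ) : Prop := ∃ v a', a' < a ∧ φ.Lip v a'

/-- Composition with a map over the identity. -/
def comp (ρ ρ' : W → W) (h : ∀ (g : G) x, ρ (g • x) = g • ρ x) (h' : ∀ (g : G) x, ρ' (g • x) = g • ρ' x)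
    (hν : ∀ x, Z.ν (ρ x) = Z.ν x) (hν' : ∀ x, Z.ν (ρ' x) = Z.ν x) : TMap Z where
  f x := ρ' (φ.f (ρ x))
  smul g x := by rw [h, φ.smul, h']
  ν_f a x hx := by rw [hν', φ.ν_f a _ ((hν x).trans hx)]

variable (hS : S.Bij)
include hS

theorem ν_iff (x y : W) : Z.ν (φ.f x) = Z.ν (φ.f y) ↔ Z.ν x = Z.ν y := by
  obtain ⟨a, ha⟩ := (hS.out (Z.ν x)).exists
  obtain ⟨b, hb⟩ := (hS.out (Z.ν y)).exists
  rw [φ.ν_f a x ha.symm, φ.ν_f b y hb.symm, ← ha, ← hb]
  constructor
  · intro h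
    rw [(hS.inn _).unique h rfl]
  · intro h
    rw [(hS.out _).unique h rfl]

theorem reach {x y : W} (h : Z.T.Reachable x y) : Z.T.Reachable (φ.f x) (φ.f y) :=
  (Z.ν_eq _ _).1 ((φ.ν_iff hS x y).2 ((Z.ν_eq _ _).2 h))

theorem reach_iff {x y : W} : Z.T.Reachable (φ.f x) (φ.f y) ↔ Z.T.Reachable x y :=
  ⟨fun h => (Z.ν_eq _ _).1 ((φ.ν_iff hS x y).1 ((Z.ν_eq _ _).2 h)), φ.reach hS⟩

theorem stab_ν (x : W) : stabilizer G (Z.ν (φ.f x)) = stabilizer G (Z.ν x) := by
  obtain ⟨a, ha⟩ := (hS.out (Z.ν x)).exists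
  rw [φ.ν_f a x ha.symm, ← ha, hS.stab_src, hS.stab_tgt]

theorem ν_surj (y : W) : ∃ x, Z.ν (φ.f x) = Z.ν y := by
  obtain ⟨a, ha⟩ := (hS.inn (Z.ν y)).exists
  obtain ⟨x, hx⟩ := Z.ν_surj (S.src a)
  exact ⟨x, (φ.ν_f a x hx).trans ha⟩

end TMap

/-- Admissible pairs. -/
structure Adm (S : Sys G N) where
  W : Type
  [act : MulAction G W]
  Z : Spl S W
  φ : TMap Z
  nofix : Z.NoFix

attribute [instance] Adm.act

/-- Number of classes of edges. -/
noncomputable def Adm.E (A : Adm S) : ℕ := Fintype.card A.Z.EO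

end CPOR
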