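import Pool.Agent.P.MP_2cb329_al.F.RQ

/-! Train tracks: reductions of the number of edges. -/

set_option autoImplicit false

namespace CPOR

open ZT MulAction RT

variable {G : Type} [Group G] {N : Type} [MulAction G N] {S : Sys G N}

namespace RT

theorem beta_le_one {K : Subgroup G} {g : G} (h : K ≤ Subgroup.zpowers g) : beta K ≤ 1 := by
  have hc : IsCyclic K := Subgroup.isCyclic_of_le h
  obtain ⟨k, hk⟩ := hc.exists_generator
  let ev : (Additive K →+ ℚ) →ₗ[ℚ] ℚ :=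
    { toFun := fun χ => χ (Additive.ofMul k), map_add' := fun _ _ => rfl,
      map_smul' := fun _ _ => rfl }
  have hinj : Function.Injective ev := by
    rw [injective_iff_map_eq_zero]
    intro χ hχ
    ext x
    obtain ⟨n, hn⟩ := hk x
    have h1 : χ (Additive.ofMul k) = 0 := hχ
    have h2 : (Additive.ofMul x : Additive K) = n • Additive.ofMul k := by
      rw [← hn]
      rfl
    show χ (Additive.ofMul x) = 0
    rw [h2, map_zsmul, h1, smul_zero]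
  have := LinearMap.finrank_le_finrank_of_injective hinj
  simpa [beta] using this

end RT

variable {W : Type} [MulAction G W] {Z : Spl S W}

theorem Spl.sum_le_L (K : Finset Z.EO) {v : Z.EO → ℝ} (hv : ∀ c, 0 < v c) (x y : W) :
    ∑ c ∈ K, (Z.cr x y c : ℝ) * v c ≤ Z.L v x y :=
  Finset.sum_le_sum_of_subset_of_nonneg (Finset.subset_univ K)
    fun c _ _ => mul_nonneg (Nat.cast_nonneg _) (hv c).le

/-- Restriction to an invariant subforest. -/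
theorem restr (hZ : Z.NoFix) (φ : TMap Z) {v : Z.EO → ℝ} {a : ℝ} (hL : φ.Lip v a) (Y : Set W)
    (h1 : ∀ (g : G), ∀ x ∈ Y, g • x ∈ Y) (h2 : ∀ x, ∃ y ∈ Y, Z.T.Reachable x y)
    (h3 : ∀ x ∈ Y, ∀ z ∈ Y, ∀ y, Btw Z.T x y z → y ∈ Y) {x0 : W} (h0 : x0 ∉ Y) :
    ∃ A : Adm S, A.E < Fintype.card Z.EO ∧ ∃ v, A.φ.Lip v a := by
  classical
  have hT := Z.gf.acyc
  have hp : ∀ x, ∃ p, (p ∈ Y ∧ Z.T.Reachable x p) ∧
      ∀ c, c ∈ Y ∧ Z.T.Reachable x c → Btw Z.T x p c := by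
    intro x
    obtain ⟨y, hy, hxy⟩ := h2 x
    have hC : Cvx Z.T {c | c ∈ Y ∧ Z.T.Reachable x c} := fun p hp q hq =>
      ⟨hp.2.symm.trans hq.2, fun y hy => ⟨h3 p hp.1 q hq.1 y hy, hp.2.trans hy.1⟩⟩
    exact Cvx.exists_proj hT hC ⟨hy, hxy⟩ hxy
  choose ρ hρ1 hρ2 using hp
  have huniq : ∀ x p, p ∈ Y → Z.T.Reachable x p →
      (∀ c, c ∈ Y ∧ Z.T.Reachable x c → Btw Z.T x p c) → ρ x = p := fun x p a1 a2 a3 =>
    (hρ2 x p ⟨a1, a2⟩).antisymm (a3 _ (hρ1 x))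
  have hid : ∀ x ∈ Y, ρ x = x := fun x hx =>
    huniq x x hx (SimpleGraph.Reachable.refl x) fun c hc => btw_left hc.2
  have hd : ∀ d : Z.D, d.o ∉ Y → ρ d.t = ρ d.o := by
    intro d hd
    refine huniq _ _ (hρ1 _).1 (d.adj.symm.reachable.trans (hρ1 _).2) fun c hc => ?_
    have hb := hρ2 d.o c ⟨hc.1, d.adj.reachable.trans hc.2⟩
    rcases adj_btw hT d.adj (hρ1 d.o).2 with H | H
    · exact (hb.symm.trans_right H.symm).2.symm
    · exact (Btw.glue hT H hb fun e => hd (e ▸ (hρ1 d.o).1)).2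
  let K : Finset Z.EO := Finset.univ.filter fun c => ∃ d : Z.D, d.cl = c ∧ d.o ∈ Y ∧ d.t ∈ Y
  have hK : ∀ d : Z.D, d.cl ∈ K ↔ d.o ∈ Y ∧ d.t ∈ Y := by
    intro d
    simp only [K, Finset.mem_filter, Finset.mem_univ, true_and]
    refine ⟨?_, fun h => ⟨d, rfl, h⟩⟩
    rintro ⟨e, he, a1, a2⟩
    obtain ⟨g, rfl | rfl⟩ := Spl.D.cl_eq.1 he
    · exact ⟨h1 g _ a1, h1 g _ a2⟩
    · exact ⟨h1 g _ a2, h1 g _ a1⟩
  rw [TMap.lip_iff] at hL
  refine Exists.elim (quot_retr hZ φ K ρ (fun g x => ?_)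
    (fun x => ((Z.ν_eq _ _).2 (hρ1 x).2).symm) (fun d hdK => ?_) hL.1 (a := a) fun d hdK => ?_)
    fun A ⟨hA, hA'⟩ => ?_
  rotate_right
  · refine ⟨A, ?_, hA'⟩
    obtain ⟨d, rfl⟩ := Spl.exists_dart hZ x0
    rw [hA]
    exact Finset.card_lt_card (Finset.ssubset_univ_iff.2 fun H =>
      h0 ((hK d).1 (H ▸ Finset.mem_univ _)).1)
  · refine huniq _ _ (h1 g _ (hρ1 x).1) (Z.gf.acts.reach g (hρ1 x).2) fun c hc => ?_
    have a1 := Z.gf.acts.reach g⁻¹ hc.2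
    rw [inv_smul_smul] at a1
    have := Z.gf.acts.btw g (hρ2 x _ ⟨h1 g⁻¹ _ hc.1, a1⟩)
    rwa [smul_inv_smul] at this
  · rw [hK, not_and_or] at hdK
    rcases hdK with H | H
    · exact (hd d H).symm
    · exact hd d.rev H
  · rw [hK] at hdK
    rw [hid _ hdK.1, hid _ hdK.2]
    exact (Spl.sum_le_L K hL.1 _ _).trans (hL.2 d)

/-- Removal of an orbit of vertices of valence two. -/
theorem val2_aux (hZ : Z.NoFix) (φ : TMap Z) {d1 d2 : Z.D} (ho : d2.o = d1.o)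
    (hs : stabilizer G d1.o = ⊥) (hall : ∀ d : Z.D, d.o = d1.o → d = d1 ∨ d = d2)
    (hne : d1.cl ≠ d2.cl) (K : Finset Z.EO) (hK : ∀ c, c ∈ K ↔ c ≠ d1.cl) {u : Z.EO → ℝ}
    (hu : ∀ c, 0 < u c) {a : ℝ}
    (h2 : ∑ c ∈ K, (Z.cr (φ.f d1.t) (φ.f d2.t) c : ℝ) * u c ≤ a * u d2.cl)
    (h3 : ∀ e, e ≠ d1.cl → e ≠ d2.cl → ∑ c ∈ K, φ.MR e c * u c ≤ a * u e) :
    ∃ A : Adm S, A.E < Fintype.card Z.EO ∧ ∃ v, A.φ.Lip v a := by
  classical
  let O : W → Prop := fun x => ∃ g : G, g • d1.o = x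
  let ρ : W → W := fun x => if h : O x then h.choose • d1.t else x
  have hρ1 : ∀ g : G, ρ (g • d1.o) = g • d1.t := by
    intro g
    have h : O (g • d1.o) := ⟨g, rfl⟩
    have a1 : g⁻¹ * h.choose ∈ stabilizer G d1.o := by
      rw [mem_stabilizer_iff, mul_smul, h.choose_spec, inv_smul_smul]
    rw [hs, Subgroup.mem_bot, inv_mul_eq_one] at a1
    simp only [ρ, dif_pos h, ← a1]
  have hρ2 : ∀ x, ¬ O x → ρ x = x := fun x hx => dif_neg hx
  have hO : ∀ (g : G) x, O (g • x) ↔ O x := fun g x =>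
    ⟨fun ⟨k, hk⟩ => ⟨g⁻¹ * k, by rw [mul_smul, hk, inv_smul_smul]⟩,
      fun ⟨k, hk⟩ => ⟨g * k, by rw [mul_smul, hk]⟩⟩
  have hcl : ∀ e : Z.D, O e.o → ∃ g : G, e = g • d1 ∨ e = g • d2 := by
    rintro e ⟨g, hg⟩
    refine ⟨g, ?_⟩
    rcases hall (g⁻¹ • e) (by rw [Spl.D.smul_o, ← hg, inv_smul_smul]) with H | H
    · exact Or.inl (by rw [← H, smul_inv_smul])
    · exact Or.inr (by rw [← H, smul_inv_smul])
  have hn1 : ¬ O d1.t := fun h => by
    obtain ⟨g, H | H⟩ := hcl d1.rev h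
    · exact Spl.D.noinv g d1 H.symm
    · exact hne (by rw [← Spl.D.cl_rev d1, H, Spl.D.cl_smul])
  have hn2 : ¬ O d2.t := fun h => by
    obtain ⟨g, H | H⟩ := hcl d2.rev h
    · exact hne (by rw [← Spl.D.cl_rev d2, H, Spl.D.cl_smul])
    · exact Spl.D.noinv g d2 H.symm
  have hρs : ∀ (g : G) x, ρ (g • x) = g • ρ x := by
    intro g x
    by_cases hx : O x
    · obtain ⟨k, rfl⟩ := hx
      rw [← mul_smul, hρ1, hρ1, mul_smul]
    · rw [hρ2 x hx, hρ2 _ fun H => hx ((hO g x).1 H)]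
  have hρ0 : ρ d1.o = d1.t := by simpa using hρ1 1
  refine Exists.elim (quot_retr hZ φ K ρ hρs (fun x => ?_) (fun d hd => ?_) hu (a := a)
    fun d hd => ?_) fun A ⟨hA, hA'⟩ => ?_
  rotate_right
  · refine ⟨A, ?_, hA'⟩
    rw [hA]
    exact Finset.card_lt_card (Finset.ssubset_univ_iff.2 fun H =>
      (hK d1.cl).1 (H ▸ Finset.mem_univ _) rfl)
  · by_cases hx : O x
    · obtain ⟨k, rfl⟩ := hx
      rw [hρ1, Z.ν_smul, Z.ν_smul, d1.ν_t]
    · rw [hρ2 x hx]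
  · rw [hK, not_not] at hd
    obtain ⟨g, rfl | rfl⟩ := Spl.D.cl_eq.1 hd.symm
    · rw [Spl.D.smul_o, Spl.D.smul_t, hρs, hρs, hρ0, hρ2 _ hn1]
    · rw [Spl.D.smul_o, Spl.D.smul_t, hρs, hρs, Spl.D.rev_o, Spl.D.rev_t, hρ0, hρ2 _ hn1]
  · rw [hK] at hd
    by_cases hd2 : d.cl = d2.cl
    · rw [hd2]
      obtain ⟨g, rfl | rfl⟩ := Spl.D.cl_eq.1 hd2.symm
      · simpa only [Spl.D.smul_o, Spl.D.smul_t, hρs, φ.smul, Spl.cr_smul, ho, hρ0, hρ2 _ hn2]
          using h2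
      · simpa only [Spl.D.smul_o, Spl.D.smul_t, hρs, φ.smul, Spl.cr_smul, Spl.D.rev_o,
          Spl.D.rev_t, ho, hρ0, hρ2 _ hn2, Spl.cr_symm (φ.f d2.t)] using h2
    · have a1 : ∀ e : Z.D, e.cl = d.cl → ¬ O e.o := fun e he h => by
        obtain ⟨g, rfl | rfl⟩ := hcl e h
        · exact hd (by rw [← he, Spl.D.cl_smul])
        · exact hd2 (by rw [← he, Spl.D.cl_smul])
      rw [hρ2 _ (a1 d rfl), hρ2 d.t (a1 d.rev d.cl_rev)]
      simpa only [TMap.MR, TMap.M_cl] using h3 _ hd hd2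

theorem TMap.MR_nonneg (φ : TMap Z) (e c : Z.EO) : 0 ≤ φ.MR e c := Nat.cast_nonneg _

theorem val2 (hS : S.Bij) (hZ : Z.NoFix) (φ : TMap Z) {d1 d2 : Z.D} (ho : d2.o = d1.o)
    (hs : stabilizer G d1.o = ⊥) (hall : ∀ d : Z.D, d.o = d1.o → d = d1 ∨ d = d2)
    (hne : d1.cl ≠ d2.cl) {b : ℝ} (h : φ.Good b) :
    ∃ A : Adm S, A.E < Fintype.card Z.EO ∧ A.φ.Good b := by
  classical
  obtain ⟨v, a, hab, hL⟩ := h
  have ha := RM.MLip.nonneg φ.MR_nonneg hL d1.cl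
  let κ : Z.EO → Z.EO := fun c => if c = d2.cl then d1.cl else c
  let A : Z.EO → Z.EO → ℝ := fun E c =>
    if E = d1.cl then (Z.cr (φ.f d1.t) (φ.f d2.t) c : ℝ) else φ.MR E c
  have k1 : κ d1.cl = d1.cl := if_neg hne
  have k2 : κ d2.cl = d1.cl := if_pos rfl
  have k3 : ∀ c, c ≠ d2.cl → κ c = c := fun c hc => if_neg hc
  have k4 : ∀ c, κ c = d1.cl → c = d1.cl ∨ c = d2.cl := fun c hc => by
    by_cases h2 : c = d2.cl
    · exact Or.inr h2
    · exact Or.inl ((k3 c h2).symm.trans hc)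
  have hA1 : ∀ c, A d1.cl c = (Z.cr (φ.f d1.t) (φ.f d2.t) c : ℝ) := fun c => if_pos rfl
  have hA2 : ∀ e, e ≠ d1.cl → ∀ c, A e c = φ.MR e c := fun e he c => if_neg he
  obtain ⟨K, hK, u, a', ha', hu, hl⟩ := RM.opt κ (A := A) (fun E c => by
    simp only [A]
    split_ifs
    · exact Nat.cast_nonneg _
    · exact φ.MR_nonneg _ _) hL.1 hab (fun e => by
    by_cases he : κ e = d1.cl
    · refine ⟨{d1.cl, d2.cl}, fun c hc => ?_, ?_⟩
      · rw [he]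
        rcases Finset.mem_insert.1 hc with rfl | hc
        · exact k1
        · rw [Finset.mem_singleton.1 hc]
          exact k2
      · have hL' := (φ.lip_iff.1 hL).2
        have b1 := hL' d1
        have b2 := hL' d2
        have b3 := Spl.L_tri (fun c => (hL.1 c).le) (φ.reach hS d1.adj.symm.reachable) (φ.f d2.t)
        rw [Spl.L_symm v (φ.f d1.t) (φ.f d1.o)] at b3
        rw [ho] at b2
        rw [he, Finset.sum_pair hne]
        simp only [hA1]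
        change Z.L v _ _ ≤ _
        linarith
    · have h2 : e ≠ d2.cl := fun H => he (H ▸ k2)
      refine ⟨{e}, fun c hc => by rw [Finset.mem_singleton.1 hc], ?_⟩
      rw [k3 e h2] at he ⊢
      simpa only [hA2 e he, Finset.sum_singleton] using hL.2 e) ha
  have hoth : ∀ e, e ≠ d1.cl → e ≠ d2.cl → e ∈ K := fun e b1 b2 => by
    obtain ⟨c, ⟨c1, c2⟩, -⟩ := hK e
    rw [k3 e b2] at c2
    by_cases h2 : c = d2.cl
    · rw [h2, k2] at c2
      exact (b1 c2.symm).elim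
    · rw [k3 c h2] at c2
      exact c2 ▸ c1
  have h3 : ∀ e, e ≠ d1.cl → e ≠ d2.cl → ∑ c ∈ K, φ.MR e c * u c ≤ a' * u e := fun e b1 b2 => by
    have := hl e (hoth e b1 b2)
    rw [k3 e b2] at this
    simpa only [hA2 e b1] using this
  obtain ⟨c, ⟨c1, c2⟩, c3⟩ := hK d1.cl
  rw [k1] at c2 c3
  have hnb : ¬ (d1.cl ∈ K ∧ d2.cl ∈ K) := fun H =>
    hne ((c3 _ ⟨H.1, k1⟩).trans (c3 _ ⟨H.2, k2⟩).symm)
  rcases k4 c c2 with rfl | rfl
  · obtain ⟨B, hB, w, hw⟩ := val2_aux hZ φ (d1 := d2) (d2 := d1) ho.symm (ho ▸ hs)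
      (fun d hd => (hall d (hd.trans ho)).symm) hne.symm K (fun c => ⟨fun h1 h2 =>
        hnb ⟨c1, h2 ▸ h1⟩, fun h1 => by
          by_cases h2 : c = d1.cl
          · exact h2 ▸ c1
          · exact hoth c h2 h1⟩) hu (a := a') (by
        have := hl _ c1
        rw [k1] at this
        simpa only [hA1, Spl.cr_symm (φ.f d1.t)] using this) fun e b1 b2 => h3 e b2 b1
    exact ⟨B, hB, w, a', ha', hw⟩
  · obtain ⟨B, hB, w, hw⟩ := val2_aux hZ φ ho hs hall hne K (fun c => ⟨fun h1 h2 =>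
        hnb ⟨h2 ▸ h1, c1⟩, fun h1 => by
          by_cases h2 : c = d2.cl
          · exact h2 ▸ c1
          · exact hoth c h1 h2⟩) hu (a := a') (by
        have := hl _ c1
        rw [k2] at this
        simpa only [hA1] using this) h3
    exact ⟨B, hB, w, a', ha', hw⟩

theorem val2_line {d1 d2 : Z.D} (ho : d2.o = d1.o) (hd : d1 ≠ d2)
    (hs : stabilizer G d1.o = ⊥) (hall : ∀ d : Z.D, d.o = d1.o → d = d1 ∨ d = d2)
    (hc : d1.cl = d2.cl) : beta (stabilizer G (Z.ν d1.o)) ≤ 1 := by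
  obtain ⟨g, H | H⟩ := Spl.D.cl_eq.1 hc
  · have : g ∈ stabilizer G d1.o := by
      rw [mem_stabilizer_iff, ← Spl.D.smul_o, ← H, ho]
    rw [hs, Subgroup.mem_bot] at this
    exact (hd (by rw [H, this, one_smul])).elim
  have a1 : g • d1.t = d1.o := by rw [← ho, H]; rfl
  have a2 : g • d1.o = d2.t := by rw [H]; rfl
  have key : ∀ y, Z.T.Reachable d1.o y → ∃ k ∈ Subgroup.zpowers g, k • d1.o = y := by
    intro y hy
    refine geod_ind (P := fun x y => (∃ k ∈ Subgroup.zpowers g, k • d1.o = x) →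
      ∃ k ∈ Subgroup.zpowers g, k • d1.o = y) (fun _ h => h) ?_ hy ⟨1, one_mem _, one_smul _ _⟩
    rintro _ z y hxz - ih ⟨k, hk, rfl⟩
    refine ih ?_
    have hg := Subgroup.mem_zpowers g
    rcases hall (k⁻¹ • Spl.D.of hxz) (by simp) with b | b
    · refine ⟨k * g⁻¹, mul_mem hk (inv_mem hg), ?_⟩
      have := congrArg Spl.D.t b
      rw [Spl.D.smul_t, Spl.D.of_t, inv_smul_eq_iff] at this
      rw [this, mul_smul, ← a1, inv_smul_smul]
    · refine ⟨k * g, mul_mem hk hg, ?_⟩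
      have := congrArg Spl.D.t b
      rw [Spl.D.smul_t, Spl.D.of_t, inv_smul_eq_iff] at this
      rw [this, mul_smul, a2]
  refine beta_le_one (g := g) fun h hh => ?_
  obtain ⟨k, hk, hk'⟩ := key _ (Spl.reach_smul hh)
  have : h⁻¹ * k ∈ stabilizer G d1.o := by
    rw [mem_stabilizer_iff, mul_smul, hk', inv_smul_smul]
  rw [hs, Subgroup.mem_bot, inv_mul_eq_one] at this
  exact this ▸ hk

theorem TMap.row_ne (hS : S.Bij) (hZ : Z.NoFix) (φ : TMap Z) (hI : RM.Irr φ.MR) (e : Z.EO) :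
    ∃ c, φ.MR e c ≠ 0 := by
  by_contra h
  push Not at h
  have h1 := hI {e} ⟨e, rfl⟩ (by
    rintro _ rfl c hc
    exact (hc (h c)).elim)
  have h2 : ∀ d : Z.D, φ.f d.o = φ.f d.t := fun d =>
    Spl.eq_of_cr (φ.reach hS d.adj.reachable) fun c => by
      have := h c
      rw [← show d.cl = e from h1 _, TMap.MR, φ.M_cl] at this
      exact_mod_cast this
  obtain ⟨d, -⟩ := Spl.cl_surj e
  refine hZ (φ.f d.o) fun g hg => ?_
  rw [φ.stab_ν hS] at hg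
  rw [mem_stabilizer_iff, ← φ.smul]
  exact (geod_ind (P := fun x y => φ.f x = φ.f y) (fun _ => rfl)
    (fun x z y hxz _ ih => (h2 (Spl.D.of hxz)).trans ih) (Spl.reach_smul hg)).symm

/-- The number of edges is minimal among the pairs that are good for `b`. -/
def Adm.Min (A : Adm S) (b : ℝ) : Prop := A.φ.Good b ∧ ∀ A' : Adm S, A'.φ.Good b → A.E ≤ A'.E

theorem exists_min {b : ℝ} {A : Adm S} (h : A.φ.Good b) : ∃ A' : Adm S, A'.Min b := by
  obtain ⟨A', h1, h2⟩ := (measure (Adm.E (S := S))).wf.has_min {A | A.φ.Good b} ⟨A, h⟩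
  exact ⟨A', h1, fun A'' h'' => not_lt.1 (h2 A'' h'')⟩

namespace Adm.Min

variable {A : Adm S} {b : ℝ} (h : A.Min b)
include h

theorem sub (Y : Set A.W) (h1 : ∀ (g : G), ∀ x ∈ Y, g • x ∈ Y)
    (h2 : ∀ x, ∃ y ∈ Y, A.Z.T.Reachable x y)
    (h3 : ∀ x ∈ Y, ∀ z ∈ Y, ∀ y, Btw A.Z.T x y z → y ∈ Y) (x : A.W) : x ∈ Y := by
  by_contra h0
  obtain ⟨v, a, hab, hL⟩ := h.1
  obtain ⟨B, hB, w, hw⟩ := restr A.nofix A.φ hL Y h1 h2 h3 h0
  exact absurd (h.2 B ⟨w, a, hab, hw⟩) (not_le.2 hB)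

theorem node {x0 : A.W} (X : Set A.W) (h0 : x0 ∈ X)
    (h1 : ∀ g ∈ stabilizer G (A.Z.ν x0), ∀ x ∈ X, g • x ∈ X)
    (h3 : ∀ x ∈ X, ∀ z ∈ X, ∀ y, Btw A.Z.T x y z → y ∈ X) {x : A.W}
    (hx : A.Z.ν x = A.Z.ν x0) : x ∈ X := by
  have := h.sub {w | ∀ g : G, A.Z.ν (g • w) = A.Z.ν x0 → g • w ∈ X} (fun g w hw k hk => by
    rw [← mul_smul] at hk ⊢
    exact hw _ hk) (fun w => by
    by_cases hw : ∃ g : G, A.Z.ν (g • w) = A.Z.ν x0
    · obtain ⟨g, hg⟩ := hw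
      refine ⟨g⁻¹ • x0, fun k hk => ?_, (A.Z.ν_eq _ _).1 ?_⟩
      · rw [← mul_smul] at hk ⊢
        exact h1 _ ((A.Z.ν_smul _ _).symm.trans hk) _ h0
      · rw [A.Z.ν_smul, ← hg, A.Z.ν_smul, inv_smul_smul]
    · exact ⟨w, fun g hg => (hw ⟨g, hg⟩).elim, SimpleGraph.Reachable.refl w⟩)
    (fun p hp q hq y hy g hg => by
      have hb := A.Z.gf.acts.btw g hy
      exact h3 _ (hp g (((A.Z.ν_eq _ _).2 hb.1).trans hg)) _
        (hq g (((A.Z.ν_eq _ _).2 hb.2.1).symm.trans hg)) _ hb) x 1 (by rwa [one_smul])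
  rwa [one_smul] at this

theorem irr (hS : S.Bij) (hc : S.Conn) : RM.Irr A.φ.MR := by
  classical
  intro U ⟨e0, he0⟩ hU c0
  by_contra hc0
  let K : Finset A.Z.EO := Finset.univ.filter fun c => c ∉ U
  have hK : ∀ c, c ∈ K ↔ c ∉ U := fun c => by simp [K]
  have hK' : ∀ d : A.Z.D, d.cl ∉ K → A.Z.KRel K (A.φ.f d.o) (A.φ.f d.t) := by
    intro d hd
    rw [hK, not_not] at hd
    refine ⟨A.φ.reach hS d.adj.reachable, fun c hc => ?_⟩
    by_contra H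
    refine (hK c).1 hc (hU _ hd c ?_)
    rw [TMap.MR, TMap.M_cl]
    exact_mod_cast H
  obtain ⟨v, a, hab, hL⟩ := h.1
  have hL' := A.φ.lip_iff.1 hL
  refine Exists.elim (quot A.φ K hK' (fun x hx => ?_) hL.1 (a := a)
    fun d _ => (Spl.sum_le_L K hL.1 _ _).trans (hL'.2 d)) fun B ⟨hB, w, hw⟩ => ?_
  rotate_right
  · have := h.2 B ⟨w, a, hab, hw⟩
    rw [hB] at this
    exact absurd this (not_le.2 (Finset.card_lt_card (Finset.ssubset_univ_iff.2 fun H =>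
      (hK e0).1 (H ▸ Finset.mem_univ _) he0)))
  · obtain ⟨d, rfl⟩ := Spl.cl_surj c0
    obtain ⟨y, hy1, hy2⟩ := hc.ind
      (Q := fun n => ∃ y, A.Z.ν y = n ∧ ∀ g ∈ stabilizer G n, A.Z.KRel K y (g • y))
      (by
        rintro g _ ⟨y, rfl, hy⟩
        refine ⟨g • y, A.Z.ν_smul g y, fun k hk => ?_⟩
        have := (hy (g⁻¹ * k * g) (by
          rw [mem_stabilizer_iff, mul_smul, mul_smul, hk, inv_smul_smul])).smul g
        rwa [mul_smul, mul_smul, smul_inv_smul] at this)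
      (by
        rintro a ⟨y, hy, hy'⟩
        refine ⟨A.φ.f y, A.φ.ν_f a y hy, fun k hk => ?_⟩
        rw [hS.stab_tgt, ← hS.stab_src] at hk
        rw [← A.φ.smul]
        exact A.φ.krel hK' (hy' k hk)) ⟨x, rfl, hx⟩ (A.Z.ν d.o)
    have key : ∀ z, A.Z.ν z = A.Z.ν y → A.Z.KRel K y z := fun z hz =>
      h.node {z | A.Z.KRel K y z} (Spl.KRel.refl y)
        (fun g hg x hx => (hy2 g (hy1 ▸ hg)).trans (Spl.KRel.smul g hx))
        (fun p hp q hq r hr => Spl.KRel.trans hp ((hp.symm.trans hq).btw hr).1) hz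
    exact Spl.KRel.dart.1 ((key _ hy1.symm).symm.trans (key _ (d.ν_t.trans hy1.symm)))
      ((hK _).2 hc0)

theorem two (d1 : A.Z.D) : ∃ d2 : A.Z.D, d2.o = d1.o ∧ d1 ≠ d2 := by
  by_contra H
  push Not at H
  have hu : ∀ (g : G) (d : A.Z.D), d.o = g • d1.o → d = g • d1 := fun g d hd => by
    rw [H (g⁻¹ • d) (by rw [Spl.D.smul_o, hd, inv_smul_smul]), smul_inv_smul]
  refine h.sub {w | ∀ g : G, w ≠ g • d1.o} (fun g w hw k hk => hw (g⁻¹ * k) ?_) (fun w => ?_)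
    (fun p hp q hq y hy g hg => ?_) d1.o 1 (one_smul _ _).symm
  · rw [mul_smul, ← hk, inv_smul_smul]
  · by_cases hw : ∃ g : G, w = g • d1.o
    · obtain ⟨g, rfl⟩ := hw
      refine ⟨g • d1.t, fun k hk => ?_, (g • d1).adj.reachable⟩
      have := hu k (g • d1).rev hk
      refine Spl.D.noinv (g⁻¹ * k) d1 ?_
      rw [mul_smul, ← this, ← Spl.D.smul_rev, inv_smul_smul]
    · exact ⟨w, fun g hg => hw ⟨g, hg⟩, SimpleGraph.Reachable.refl w⟩
  · have b1 := nxt_spec hy.1.symm fun e => hp g (e.symm.trans hg)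
    have b2 := nxt_spec hy.2.1 fun e => hq g (e.symm.trans hg)
    have e1 := congrArg Spl.D.t ((hu g (Spl.D.of b1.1) hg).trans (hu g (Spl.D.of b2.1) hg).symm)
    rw [Spl.D.of_t, Spl.D.of_t] at e1
    rw [← e1] at b2
    exact not_btw_swap b1.1 b2.2 (hy.trans_left b1.2.symm).2

theorem three {ρ : ℕ} (hS : S.Aut ρ) {x : A.W} (hx : stabilizer G x = ⊥) :
    ∃ d1 d2 d3 : A.Z.D, d1.o = x ∧ d2.o = x ∧ d3.o = x ∧ d1 ≠ d2 ∧ d1 ≠ d3 ∧ d2 ≠ d3 := by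
  obtain ⟨d1, rfl⟩ := Spl.exists_dart A.nofix x
  obtain ⟨d2, ho, hd⟩ := h.two d1
  by_contra H
  have hall : ∀ d : A.Z.D, d.o = d1.o → d = d1 ∨ d = d2 := fun d hd' => by
    by_contra H'
    rw [not_or] at H'
    exact H ⟨d1, d2, d, rfl, ho, hd', hd, Ne.symm H'.1, Ne.symm H'.2⟩
  by_cases hc : d1.cl = d2.cl
  · have := val2_line ho hd hx hall hc
    rw [hS.bN] at this
    have := hS.two
    omega
  · obtain ⟨B, hB, hB'⟩ := val2 hS.toBij A.nofix A.φ ho hx hall hc h.1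
    exact absurd (h.2 B hB') (not_le.2 hB)

end Adm.Min

end CPOR
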