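import Pool.Agent.P.MP_2cb329_al.F.RB

/-! Train tracks: the folded forest. -/

set_option autoImplicit false

namespace CPOR

open ZT MulAction RT

variable {G : Type} [Group G] {N : Type} [MulAction G N] {S : Sys G N}
variable {W : Type} [MulAction G W] {Z : Spl S W}

/-- Data of the fold: an equivariant map of darts and a depth. -/
structure FD (Z : Spl S W) where
  D : Z.D → Z.D
  smul : ∀ (g : G) d, D (g • d) = g • D d
  ho : ∀ d d', d.o = d'.o → (D d).o = (D d').o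
  K : ℕ
  nofix : Z.NoFix

namespace FD

variable (F : FD Z)

theorem iter_smul (g : G) (i : ℕ) (d : Z.D) : F.D^[i] (g • d) = g • F.D^[i] d := by
  induction i with
  | zero => rfl
  | succ i ih => rw [Function.iterate_succ_apply', Function.iterate_succ_apply', ih, F.smul]

/-- Gates of level `i`. -/
def fSet : Setoid (Z.D × ℕ) where
  r p q := p.1.o = q.1.o ∧ min p.2 (F.K + 1) = min q.2 (F.K + 1) ∧
    (p.2 ≤ F.K → F.D^[p.2] p.1 = F.D^[p.2] q.1)
  iseqv := {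
    refl := fun _ => ⟨rfl, rfl, fun _ => rfl⟩
    symm := by
      rintro ⟨d, i⟩ ⟨d', j⟩ ⟨h1, h2, h3⟩
      refine ⟨h1.symm, h2.symm, fun h => ?_⟩
      dsimp only at h2 h3 h ⊢
      obtain rfl : i = j := by omega
      exact (h3 h).symm
    trans := by
      rintro ⟨d, i⟩ ⟨d', j⟩ ⟨d'', k⟩ ⟨h1, h2, h3⟩ ⟨h1', h2', h3'⟩
      refine ⟨h1.trans h1', h2.trans h2', fun h => ?_⟩
      dsimp only at h2 h3 h h3' ⊢
      obtain rfl : i = j := by omega
      exact (h3 h).trans (h3' h) }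

/-- Vertices of the folded forest. -/
def V : Type := Quotient F.fSet

/-- The gate of level `i` of the dart `d`. -/
def gt (d : Z.D) (i : ℕ) : F.V := Quotient.mk F.fSet (d, i)

variable {F}

theorem mk_eq {d d' : Z.D} {i j : ℕ} : F.gt d i = F.gt d' j ↔
    d.o = d'.o ∧ min i (F.K + 1) = min j (F.K + 1) ∧ (i ≤ F.K → F.D^[i] d = F.D^[i] d') :=
  Quotient.eq (r := F.fSet)

theorem mk_surj (x : F.V) : ∃ d i, i ≤ F.K + 1 ∧ F.gt d i = x := by
  obtain ⟨⟨d, i⟩, rfl⟩ := Quotient.exists_rep x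
  exact ⟨d, min i (F.K + 1), min_le_right _ _, mk_eq.2 ⟨rfl, by omega, fun _ => rfl⟩⟩

theorem mk_mono {d d' : Z.D} {i j : ℕ} (h : F.gt d i = F.gt d' i) (hij : i ≤ j) :
    F.gt d j = F.gt d' j := by
  rw [mk_eq] at h ⊢
  refine ⟨h.1, rfl, fun hj => ?_⟩
  obtain ⟨k, rfl⟩ := Nat.exists_eq_add_of_le' hij
  rw [Function.iterate_add_apply, Function.iterate_add_apply, h.2.2 (by omega)]

theorem mk_zero {d d' : Z.D} (h : F.gt d 0 = F.gt d' 0) : d = d' := (mk_eq.1 h).2.2 (Nat.zero_le _)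

theorem mk_top {d d' : Z.D} (h : d.o = d'.o) : F.gt d (F.K + 1) = F.gt d' (F.K + 1) :=
  mk_eq.2 ⟨h, rfl, fun h => by omega⟩

theorem mk_lev {d d' : Z.D} {i j : ℕ} (h : F.gt d i = F.gt d' j) :
    min i (F.K + 1) = min j (F.K + 1) := (mk_eq.1 h).2.1

instance : MulAction G F.V where
  smul g := Quotient.map (fun p => (g • p.1, p.2)) fun p q h =>
    ⟨congrArg (g • ·) h.1, h.2.1, fun hp => by
      show F.D^[p.2] (g • p.1) = F.D^[p.2] (g • q.1)
      rw [F.iter_smul, F.iter_smul, h.2.2 hp]⟩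
  one_smul x := by
    obtain ⟨d, i, -, rfl⟩ := mk_surj x
    exact congrArg (fun d => F.gt d i) (one_smul G d)
  mul_smul g h x := by
    obtain ⟨d, i, -, rfl⟩ := mk_surj x
    exact congrArg (fun d => F.gt d i) (mul_smul g h d)

theorem smul_mk (g : G) (d : Z.D) (i : ℕ) : g • F.gt d i = F.gt (g • d) i := rfl

/-- The vertex of the old forest below a vertex. -/
def base : F.V → W := Quotient.lift (fun p => p.1.o) fun _ _ h => h.1

theorem base_mk (d : Z.D) (i : ℕ) : base (F.gt d i) = d.o := rfl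

theorem base_smul (g : G) (x : F.V) : base (g • x) = g • base x := by
  obtain ⟨d, i, -, rfl⟩ := mk_surj x
  rfl

variable (F)

/-- The folded forest. -/
def T : SimpleGraph F.V where
  Adj x y := (∃ d i, i ≤ F.K ∧ x = F.gt d i ∧ y = F.gt d (i + 1)) ∨
    (∃ d i, i ≤ F.K ∧ y = F.gt d i ∧ x = F.gt d (i + 1)) ∨ ∃ d, x = F.gt d 0 ∧ y = F.gt d.rev 0
  symm := ⟨by
    rintro x y (h | h | ⟨d, h1, h2⟩)
    · exact Or.inr (Or.inl h)
    · exact Or.inl h
    · exact Or.inr (Or.inr ⟨d.rev, h2, h1⟩)⟩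
  loopless := ⟨by
    rintro x (⟨d, i, hi, h1, h2⟩ | ⟨d, i, hi, h1, h2⟩ | ⟨d, h1, h2⟩)
    · have := mk_lev (h1.symm.trans h2)
      omega
    · have := mk_lev (h1.symm.trans h2)
      omega
    · exact d.adj.ne (congrArg Spl.D.o (mk_zero (h1.symm.trans h2)))⟩

variable {F}

theorem adj_up (d : Z.D) {i : ℕ} (hi : i ≤ F.K) : F.T.Adj (F.gt d i) (F.gt d (i + 1)) :=
  Or.inl ⟨d, i, hi, rfl, rfl⟩

theorem adj_mid (d : Z.D) : F.T.Adj (F.gt d 0) (F.gt d.rev 0) := Or.inr (Or.inr ⟨d, rfl, rfl⟩)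

theorem cut_mid (d : Z.D) :
    Cut F.T (F.gt d 0) (F.gt d.rev 0) {x | Btw Z.T d.o d.t (base x)} := by
  refine ⟨btw_adj d.adj, d.not_btw, ?_⟩
  rintro _ _ (⟨e, i, -, rfl, rfl⟩ | ⟨e, i, -, rfl, rfl⟩ | ⟨e, rfl, rfl⟩) h1 h2
  · exact (h2 h1).elim
  · exact (h2 h1).elim
  · obtain rfl : e = d.rev := Spl.D.half h1 h2
    exact ⟨rfl, rfl⟩

theorem cut_up (d : Z.D) {i : ℕ} (hi : i ≤ F.K) :
    Cut F.T (F.gt d (i + 1)) (F.gt d i) {x | ∃ c, F.gt c i = F.gt d i ∧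
      ((∃ j ≤ i, x = F.gt c j) ∨ Btw Z.T c.o c.t (base x))} := by
  refine ⟨⟨d, rfl, Or.inl ⟨i, le_rfl, rfl⟩⟩, ?_, ?_⟩
  · rintro ⟨c, hc, ⟨j, hj, h⟩ | h⟩
    · have := mk_lev h
      omega
    · rw [base_mk, ← (mk_eq.1 hc).1] at h
      exact c.not_btw h
  · rintro _ _ (⟨e, k, hk, rfl, rfl⟩ | ⟨e, k, hk, rfl, rfl⟩ | ⟨e, rfl, rfl⟩)
      ⟨c, hc, ⟨j, hj, h⟩ | h⟩ h2
    · have := mk_lev h
      obtain rfl : k = j := by omega
      have he := (mk_mono h hj).trans hc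
      rcases hj.lt_or_eq with hj | rfl
      · exact (h2 ⟨e, he, Or.inl ⟨k + 1, hj, rfl⟩⟩).elim
      · exact ⟨he, mk_mono he (Nat.le_succ _)⟩
    · exact (h2 ⟨c, hc, Or.inr h⟩).elim
    · have := mk_lev h
      obtain rfl : k + 1 = j := by omega
      exact (h2 ⟨e, (mk_mono h hj).trans hc, Or.inl ⟨k, by omega, rfl⟩⟩).elim
    · exact (h2 ⟨c, hc, Or.inr h⟩).elim
    · have := mk_lev h
      obtain rfl : 0 = j := by omega
      obtain rfl := mk_zero h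
      exact (h2 ⟨e, hc, Or.inr (btw_adj e.adj)⟩).elim
    · by_cases hb : Btw Z.T c.o c.t e.t
      · exact (h2 ⟨c, hc, Or.inr hb⟩).elim
      · obtain rfl : e = c.rev := Spl.D.half h hb
        exact (h2 ⟨c, hc, Or.inl ⟨0, Nat.zero_le _, rfl⟩⟩).elim

theorem acyc : F.T.IsAcyclic :=
  acyc_of_cut (by
    rintro _ _ (⟨e, k, hk, rfl, rfl⟩ | ⟨e, k, hk, rfl, rfl⟩ | ⟨e, rfl, rfl⟩)
    · exact Or.inr ⟨_, cut_up e hk⟩
    · exact Or.inl ⟨_, cut_up e hk⟩
    · exact Or.inl ⟨_, cut_mid e⟩)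

theorem free {g : G} {d : Z.D} {i : ℕ} (hi : i ≤ F.K) (h : g • F.gt d i = F.gt d i) : g = 1 := by
  have := (mk_eq.1 h).2.2 hi
  rw [F.iter_smul] at this
  exact Spl.D.free this

theorem reach_lev (d : Z.D) {i j : ℕ} (hij : i ≤ j) (hj : j ≤ F.K + 1) :
    F.T.Reachable (F.gt d i) (F.gt d j) := by
  induction j, hij using Nat.le_induction with
  | base => rfl
  | succ j _ ih => exact (ih (by omega)).trans (adj_up d (by omega)).reachable

theorem reach_of {d e : Z.D} (h : Z.T.Reachable d.o e.o) :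
    F.T.Reachable (F.gt d (F.K + 1)) (F.gt e (F.K + 1)) := by
  refine geod_ind (P := fun x y => ∀ d e : Z.D, d.o = x → e.o = y →
    F.T.Reachable (F.gt d (F.K + 1)) (F.gt e (F.K + 1))) ?_ ?_ h d e rfl rfl
  · intro x d e h1 h2
    rw [mk_top (h1.trans h2.symm)]
  · intro x z y hxz _ ih d e h1 h2
    rw [mk_top (d' := Spl.D.of hxz) h1]
    exact (((reach_lev _ (Nat.zero_le _) le_rfl).symm.trans (adj_mid _).reachable).trans
      (reach_lev _ (Nat.zero_le _) le_rfl)).trans (ih _ e rfl h2)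

variable (F)

/-- The folded splitting. -/
def Z' : Spl S F.V where
  T := F.T
  gf := {
    acyc := acyc
    acts := by
      rintro g _ _ (⟨e, k, hk, rfl, rfl⟩ | ⟨e, k, hk, rfl, rfl⟩ | ⟨e, rfl, rfl⟩)
      · exact adj_up (g • e) hk
      · exact (adj_up (g • e) hk).symm
      · exact adj_mid (g • e)
    noinv := by
      rintro g _ _ (⟨e, k, hk, rfl, rfl⟩ | ⟨e, k, hk, rfl, rfl⟩ | ⟨e, rfl, rfl⟩) h1 _
      · have := mk_lev h1
        omega
      · have := mk_lev h1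
        omega
      · exact Spl.D.noinv g e (mk_zero h1)
    etriv := by
      rintro g _ _ (⟨e, k, hk, rfl, rfl⟩ | ⟨e, k, hk, rfl, rfl⟩ | ⟨e, rfl, rfl⟩) h1 h2
      · exact free hk h1
      · exact free hk h2
      · exact free (Nat.zero_le _) h1 }
  finW := by
    obtain ⟨A, hA, h⟩ := Z.finD
    refine ⟨(fun p : Z.D × ℕ => F.gt p.1 p.2) '' (A ×ˢ Set.Iic (F.K + 1)),
      (hA.prod (Set.finite_Iic _)).image _, fun x _ => ?_⟩
    obtain ⟨d, i, hi, rfl⟩ := mk_surj x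
    obtain ⟨g, hg⟩ := h d
    exact ⟨g, trivial, (g • d, i), ⟨hg, hi⟩, rfl⟩
  finE := by
    obtain ⟨A, hA, h⟩ := Z.finD
    have hB := hA.prod (Set.finite_Iic F.K)
    refine ⟨_, ((hB.image fun p : Z.D × ℕ => (F.gt p.1 p.2, F.gt p.1 (p.2 + 1))).union
      (hB.image fun p : Z.D × ℕ => (F.gt p.1 (p.2 + 1), F.gt p.1 p.2))).union
      (hA.image fun d => (F.gt d 0, F.gt d.rev 0)), ?_⟩
    rintro ⟨_, _⟩ (⟨e, k, hk, rfl, rfl⟩ | ⟨e, k, hk, rfl, rfl⟩ | ⟨e, rfl, rfl⟩)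
    all_goals obtain ⟨g, hg⟩ := h e
    · exact ⟨g, trivial, Or.inl (Or.inl ⟨(g • e, k), ⟨hg, hk⟩, rfl⟩)⟩
    · exact ⟨g, trivial, Or.inl (Or.inr ⟨(g • e, k), ⟨hg, hk⟩, rfl⟩)⟩
    · exact ⟨g, trivial, Or.inr ⟨g • e, hg, rfl⟩⟩
  ν x := Z.ν (base x)
  ν_smul g x := by rw [base_smul, Z.ν_smul]
  ν_surj v := by
    obtain ⟨x, rfl⟩ := Z.ν_surj v
    obtain ⟨d, rfl⟩ := Spl.exists_dart F.nofix x
    exact ⟨F.gt d 0, rfl⟩
  ν_eq x y := by
    constructor
    · obtain ⟨d, i, hi, rfl⟩ := mk_surj x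
      obtain ⟨e, j, hj, rfl⟩ := mk_surj y
      exact fun h => ((reach_lev d hi le_rfl).trans (reach_of ((Z.ν_eq _ _).1 h))).trans
        (reach_lev e hj le_rfl).symm
    · rintro ⟨p⟩
      induction p with
      | nil => rfl
      | cons h _ ih =>
        refine Eq.trans ?_ ih
        rcases h with ⟨e, k, hk, rfl, rfl⟩ | ⟨e, k, hk, rfl, rfl⟩ | ⟨e, rfl, rfl⟩
        · rfl
        · rfl
        · exact e.ν_t.symm

theorem nofix' : F.Z'.NoFix := fun x hx =>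
  F.nofix (base x) (le_trans hx (stab_smul_le base_smul x))

variable {F}

/-- Inner darts. -/
def up (d : Z.D) (i : ℕ) (hi : i ≤ F.K) : F.Z'.D := ⟨F.gt d i, F.gt d (i + 1), adj_up d hi⟩

variable (F) in
/-- Middle darts. -/
def mid (d : Z.D) : F.Z'.D := ⟨F.gt d 0, F.gt d.rev 0, adj_mid d⟩

theorem dart_cases (e : F.Z'.D) :
    (∃ d i hi, e = up d i hi) ∨ (∃ d i hi, e = (up d i hi).rev) ∨ ∃ d, e = F.mid d := by
  rcases e.adj with ⟨d, k, hk, h1, h2⟩ | ⟨d, k, hk, h1, h2⟩ | ⟨d, h1, h2⟩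
  · exact Or.inl ⟨d, k, hk, Spl.D.ext' h1 h2⟩
  · exact Or.inr (Or.inl ⟨d, k, hk, Spl.D.ext' h2 h1⟩)
  · exact Or.inr (Or.inr ⟨d, Spl.D.ext' h1 h2⟩)

theorem cl_cases (c : F.Z'.EO) : (∃ d i hi, c = (up d i hi).cl) ∨ ∃ d, c = (F.mid d).cl := by
  obtain ⟨e, rfl⟩ := Spl.cl_surj c
  rcases dart_cases e with ⟨d, i, hi, rfl⟩ | ⟨d, i, hi, rfl⟩ | ⟨d, rfl⟩
  · exact Or.inl ⟨d, i, hi, rfl⟩
  · exact Or.inl ⟨d, i, hi, Spl.D.cl_rev _⟩
  · exact Or.inr ⟨d, rfl⟩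

theorem cl_up_up {d d' : Z.D} {i j : ℕ} {hi : i ≤ F.K} {hj : j ≤ F.K}
    (h : (up d i hi).cl = (up d' j hj).cl) : j = i ∧ ∃ g : G, F.gt d' i = F.gt (g • d) i := by
  obtain ⟨g, h | h⟩ := Spl.D.cl_eq.1 h
  · have a1 : F.gt d' j = F.gt (g • d) i := congrArg Spl.D.o h
    have := mk_lev a1
    obtain rfl : j = i := by omega
    exact ⟨rfl, g, a1⟩
  · have a1 : F.gt d' j = F.gt (g • d) (i + 1) := congrArg Spl.D.o h
    have a2 : F.gt d' (j + 1) = F.gt (g • d) i := congrArg Spl.D.t h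
    have := mk_lev a1
    have := mk_lev a2
    omega

theorem cl_up_mid {d d' : Z.D} {i : ℕ} {hi : i ≤ F.K} : (up d i hi).cl ≠ (F.mid d').cl := by
  intro h
  obtain ⟨g, h | h⟩ := Spl.D.cl_eq.1 h
  · have a2 : F.gt d'.rev 0 = F.gt (g • d) (i + 1) := congrArg Spl.D.t h
    have := mk_lev a2
    omega
  · have a1 : F.gt d' 0 = F.gt (g • d) (i + 1) := congrArg Spl.D.o h
    have := mk_lev a1
    omega

theorem cl_mid_mid {d d' : Z.D} : (F.mid d).cl = (F.mid d').cl ↔ d.cl = d'.cl := by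
  rw [Spl.D.cl_eq, Spl.D.cl_eq]
  refine exists_congr fun g => or_congr ⟨fun h => mk_zero (congrArg Spl.D.o h), ?_⟩
    ⟨fun h => mk_zero (congrArg Spl.D.o h), ?_⟩
  all_goals
    rintro rfl
    rfl

theorem cl_up_smul (g : G) (d : Z.D) (i : ℕ) (hi : i ≤ F.K) :
    (up (g • d) i hi).cl = (up d i hi).cl := Spl.D.cl_smul g (up d i hi)

theorem cl_up_rev (d : Z.D) : (up d 0 (Nat.zero_le F.K)).cl ≠ (up d.rev 0 (Nat.zero_le F.K)).cl := by
  intro h
  obtain ⟨-, g, h⟩ := cl_up_up h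
  exact Spl.D.noinv g d (mk_zero h).symm

/-- Definition by cases on the classes of edges of the folded forest. -/
theorem exists_fun {α : Type} (Fu : Z.EO → ℕ → α) (Fm : Z.EO → α)
    (hu : ∀ c c' i, Fu c (i + 1) = Fu c' (i + 1)) :
    ∃ Φ : F.Z'.EO → α, (∀ d i hi, Φ (up d i hi).cl = Fu d.cl i) ∧
      ∀ d, Φ (F.mid d).cl = Fm d.cl := by
  have : ∀ c : F.Z'.EO, ∃ a, (∀ d i hi, c = (up d i hi).cl → a = Fu d.cl i) ∧
      ∀ d, c = (F.mid d).cl → a = Fm d.cl := by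
    intro c
    rcases cl_cases c with ⟨d, i, hi, rfl⟩ | ⟨d, rfl⟩
    · refine ⟨Fu d.cl i, fun d' j hj h => ?_, fun d' h => (cl_up_mid h).elim⟩
      obtain ⟨rfl, g, h⟩ := cl_up_up h
      cases j with
      | zero => rw [mk_zero h, Spl.D.cl_smul]
      | succ j => exact hu _ _ _
    · exact ⟨Fm d.cl, fun d' j hj h => (cl_up_mid h.symm).elim, fun d' h => by
        rw [cl_mid_mid.1 h]⟩
  choose Φ h1 h2 using this
  exact ⟨Φ, fun d i hi => h1 _ d i hi rfl, fun d => h2 _ d rfl⟩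

/-- The map of the folded forest. -/
def f' : F.V → F.V :=
  Quotient.map (fun p => (F.D p.1, if p.2 ≤ F.K then p.2 - 1 else p.2)) (by
    rintro ⟨d, i⟩ ⟨d', j⟩ ⟨h1, h2, h3⟩
    dsimp only at h1 h2 h3
    refine ⟨F.ho _ _ h1, ?_, ?_⟩
    · dsimp only
      split_ifs <;> omega
    · dsimp only
      by_cases hi : i ≤ F.K
      · rw [if_pos hi]
        intro _
        cases i with
        | zero => exact congrArg F.D (h3 hi)
        | succ i => exact h3 hi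
      · rw [if_neg hi]
        exact fun h => (hi h).elim)

theorem f'_low (d : Z.D) {i : ℕ} (hi : i ≤ F.K) : f' (F.gt d i) = F.gt (F.D d) (i - 1) :=
  congrArg (F.gt (F.D d)) (if_pos hi)

theorem f'_top (d : Z.D) : f' (F.gt d (F.K + 1)) = F.gt (F.D d) (F.K + 1) :=
  congrArg (F.gt (F.D d)) (if_neg (by omega))

theorem f'_smul (g : G) (x : F.V) : f' (g • x) = g • f' x := by
  obtain ⟨d, i, -, rfl⟩ := mk_surj x
  exact congrArg (fun e => F.gt e (if i ≤ F.K then i - 1 else i)) (F.smul g d)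

theorem base_f' (d : Z.D) (i : ℕ) : base (f' (F.gt d i)) = (F.D d).o := rfl

variable (F) in
/-- The map of the folded splitting. -/
def φ' (φ : TMap Z) (h : ∀ d, (F.D d).o = φ.f d.o) : TMap F.Z' where
  f := f'
  smul := f'_smul
  ν_f a x hx := by
    obtain ⟨d, i, -, rfl⟩ := mk_surj x
    show Z.ν (F.D d).o = _
    rw [h]
    exact φ.ν_f a _ hx

section Len

variable {r : ℕ → ℝ} {u : Z.EO → ℝ} {v : F.Z'.EO → ℝ} (hv : ∀ c, 0 ≤ v c)
  (h1 : ∀ d i hi, v (up d i hi).cl = r i - r (i + 1))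
  (h2 : ∀ d, v (F.mid d).cl = u d.cl - 2 * r 0)
include hv h1

theorem L_lev (d : Z.D) {i j : ℕ} (hij : i ≤ j) (hj : j ≤ F.K + 1) :
    F.Z'.L v (F.gt d i) (F.gt d j) ≤ r i - r j := by
  induction j, hij using Nat.le_induction with
  | base => simp
  | succ j hij ih =>
    have a1 := Spl.L_tri (Z := F.Z') hv (reach_lev d hij (by omega)) (F.gt d (j + 1))
    have a2 : F.Z'.L v (F.gt d j) (F.gt d (j + 1)) = _ :=
      (Spl.L_dart v (up d j (by omega))).trans (h1 _ _ _)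
    have := ih (by omega)
    linarith

theorem L_turn {a b : Z.D} {j : ℕ} (hj : j ≤ F.K + 1) (h : F.gt a j = F.gt b j) :
    F.Z'.L v (F.gt a 0) (F.gt b 0) ≤ 2 * (r 0 - r j) := by
  have a1 := Spl.L_tri (Z := F.Z') hv (reach_lev a (Nat.zero_le j) hj) (F.gt b 0)
  have a2 := L_lev hv h1 a (Nat.zero_le j) hj
  have a3 := L_lev hv h1 b (Nat.zero_le j) hj
  rw [Spl.L_symm, ← h] at a3
  linarith

omit hv h1 in
theorem reach_mk {a b : Z.D} (h : Z.T.Reachable a.o b.o) (i j : ℕ) :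
    F.Z'.T.Reachable (F.gt a i) (F.gt b j) := (F.Z'.ν_eq _ _).1 ((Z.ν_eq _ _).2 h)

theorem L_split {a b c d : Z.D} (hab : Z.T.Reachable a.o b.o) {j : ℕ} (hj : j ≤ F.K + 1)
    (h : F.gt b j = F.gt c j) : F.Z'.L v (F.gt a 0) (F.gt d 0) ≤
      F.Z'.L v (F.gt a 0) (F.gt b 0) + 2 * (r 0 - r j) + F.Z'.L v (F.gt c 0) (F.gt d 0) := by
  have a1 := Spl.L_tri (Z := F.Z') hv (reach_mk hab 0 0) (F.gt d 0)
  have a2 := Spl.L_tri (Z := F.Z') hv (reach_mk (a := b) (b := c)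
    (by rw [(mk_eq.1 h).1]) 0 0) (F.gt d 0)
  have a3 := L_turn hv h1 hj h
  linarith

include h2

theorem L_path (hr : r (F.K + 1) = 0) {a b : Z.D} (ha : Btw Z.T a.o a.t b.o)
    (hb : Btw Z.T b.o b.t a.o) :
    F.Z'.L v (F.gt a 0) (F.gt b 0) ≤ Z.L u a.o b.o - 2 * r 0 := by
  have hT := Z.gf.acyc
  refine geod_ind (P := fun x y => ∀ a b : Z.D, a.o = x → b.o = y → Btw Z.T a.o a.t b.o →
    Btw Z.T b.o b.t a.o → F.Z'.L v (F.gt a 0) (F.gt b 0) ≤ Z.L u a.o b.o - 2 * r 0) ?_ ?_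
    ha.reach a b rfl rfl ha hb
  · intro x a b h1 h2 ha _
    rw [h2, ← h1] at ha
    exact (a.not_btw ha).elim
  · rintro _ z _ hxz hz ih a b rfl rfl ha hb
    obtain rfl : a.t = z := (nxt_eq hT a.adj ha).symm.trans (nxt_eq hT hxz hz)
    have am : F.Z'.L v (F.gt a 0) (F.gt a.rev 0) = _ := (Spl.L_dart v (F.mid a)).trans (h2 a)
    by_cases hab : a.t = b.o
    · have : b = a.rev := by
        refine Spl.D.ext' hab.symm ?_
        rcases hb.eq_of_adj hT (hab ▸ a.adj.symm) with H | H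
        · exact absurd H b.adj.ne'
        · exact H
      rw [this, am, Spl.D.rev_o, Spl.L_dart]
    · have b1 := nxt_spec ha.2.1 hab
      have b2 : Btw Z.T b.o b.t a.t := by
        refine (Btw.compare hT hb ha.symm ?_).1
        have := SimpleGraph.dist_eq_one_iff_adj.2 b.adj
        have : Z.T.dist b.o a.t ≠ 0 := fun H => hab (eq_of_dist_zero ha.2.1.symm H).symm
        omega
      have b3 := ih (Spl.D.of b1.1) b rfl rfl b1.2 b2
      have b4 := L_split hv h1 (a := a) (b := a.rev) (c := Spl.D.of b1.1) (d := b)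
        a.adj.reachable le_rfl (mk_top rfl)
      have b5 := Spl.L_btw u ha
      rw [Spl.L_dart] at b5
      rw [Spl.D.of_o] at b3
      rw [hr, am] at b4
      linarith

theorem L_ill (hr : r (F.K + 1) = 0) {a b p q : Z.D} (ha : Btw Z.T a.o a.t b.o)
    (hb : Btw Z.T b.o b.t a.o) (hp : Sep Z.T p.p a.o b.o) (hq : Sep Z.T q.p a.o b.o)
    (h : F.gt p.rev F.K = F.gt q F.K) :
    F.Z'.L v (F.gt a 0) (F.gt b 0) ≤ Z.L u a.o b.o - 2 * r 0 - 2 * r F.K := by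
  have hT := Z.gf.acyc
  have e : p.t = q.o := (mk_eq.1 h).1
  have c1 : Btw Z.T a.o p.t b.o := (sep_btw hT hp).2
  have c2 : Btw Z.T a.o p.o p.t := hp.2.1
  have c3 : Btw Z.T q.o q.t b.o := hq.2.2
  have c4 : Btw Z.T a.o a.t p.t := by
    refine (Btw.compare hT ha c1 ?_).1
    have := SimpleGraph.dist_eq_one_iff_adj.2 a.adj
    have := SimpleGraph.dist_eq_one_iff_adj.2 p.adj
    have := c2.2.2
    omega
  have c5 : Btw Z.T b.o b.t q.o := by
    refine (Btw.compare hT hb (e ▸ c1.symm) ?_).1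
    have := SimpleGraph.dist_eq_one_iff_adj.2 b.adj
    have := SimpleGraph.dist_eq_one_iff_adj.2 q.adj.symm
    have := c3.symm.2.2
    omega
  have b1 := L_path hv h1 h2 hr (a := a) (b := p.rev) c4 c2.symm
  have b2 := L_path hv h1 h2 hr (a := q) (b := b) c3 c5
  have b3 := L_split hv h1 (a := a) (b := p.rev) (c := q) (d := b) c1.1 (Nat.le_succ _) h
  have b4 := Spl.L_btw u c1
  rw [Spl.D.rev_o] at b1
  rw [← e] at b2
  linarith

end Len

end FD

end CPOR
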