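import Pool.Agent.P.MP_2cb329_al.F.RF

/-! Train tracks: an illegal turn gives a better pair. -/

set_option autoImplicit false

namespace CPOR

open ZT MulAction RT

variable {G : Type} [Group G] {N : Type} [MulAction G N] {S : Sys G N}
variable {W : Type} [MulAction G W] {Z : Spl S W}

namespace FD

variable {F : FD Z}

theorem cr_out (d : Z.D) (c : F.Z'.EO) :
    F.Z'.cr (F.gt (F.D (Quotient.out d.cl : Z.D)) 0) (F.gt (F.D (Quotient.out d.cl : Z.D).rev) 0) c =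
      F.Z'.cr (F.gt (F.D d) 0) (F.gt (F.D d.rev) 0) c := by
  have h : d.cl = (Quotient.out d.cl : Z.D).cl := (Quotient.out_eq _).symm
  obtain ⟨g, h | h⟩ := Spl.D.cl_eq.1 h
  · rw [h, ← Spl.D.smul_rev, F.smul, F.smul, ← smul_mk, ← smul_mk, Spl.cr_smul]
  · rw [h, ← Spl.D.smul_rev, F.smul, F.smul, ← smul_mk, ← smul_mk, Spl.cr_smul, Spl.cr_symm]
    rfl

/-- (Red) for the folded forest. -/
theorem red (φ : TMap Z) (hφ : ∀ d, (F.D d).o = φ.f d.o) (hK : 1 ≤ F.K) {v : F.Z'.EO → ℝ}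
    (hv : ∀ c, 0 < v c) {μ a : ℝ} (h0 : 0 ≤ μ) (hμ : μ < a)
    (h1 : ∀ d i hi, 1 ≤ i →
      F.Z'.L v (f' (F.gt d i)) (f' (F.gt d (i + 1))) ≤ μ * v (up d i hi).cl)
    (h2 : ∀ c : Z.EO, ∃ d : Z.D, d.cl = c ∧ F.Z'.L v (F.gt (F.D d) 0) (F.gt (F.D d.rev) 0) ≤
      μ * (v (up d 0 (Nat.zero_le _)).cl + v (F.mid d).cl + v (up d.rev 0 (Nat.zero_le _)).cl)) :
    ∃ A : Adm S, A.φ.Good a := by
  classical
  obtain ⟨ty, ty1, ty2⟩ := exists_fun (F := F) (α := Option Z.EO)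
    (fun c i => if i = 0 then some c else none) some fun _ _ _ => rfl
  let κ : F.Z'.EO → Z.EO ⊕ F.Z'.EO := fun c => (ty c).elim (Sum.inr c) Sum.inl
  have k0 : ∀ d hi, κ (up d 0 hi).cl = Sum.inl d.cl := fun d hi => by simp only [κ, ty1]; rfl
  have k1 : ∀ d i hi, 1 ≤ i → κ (up d i hi).cl = Sum.inr (up d i hi).cl := fun d i hi h => by
    simp only [κ, ty1, if_neg (show i ≠ 0 by omega)]
    rfl
  have k2 : ∀ d, κ (F.mid d).cl = Sum.inl d.cl := fun d => by simp only [κ, ty2]; rfl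
  have k3 : ∀ c e, κ c = Sum.inr e → c = e := fun c e h => by
    simp only [κ] at h
    cases hc : ty c with
    | none => rw [hc] at h; exact Sum.inr_injective h
    | some x => rw [hc] at h; cases h
  have k4 : ∀ c (d : Z.D), κ c = Sum.inl d.cl → c = (up d 0 (Nat.zero_le _)).cl ∨
      c = (F.mid d).cl ∨ c = (up d.rev 0 (Nat.zero_le _)).cl := by
    intro c d h
    rcases cl_cases c with ⟨e, i, hi, rfl⟩ | ⟨e, rfl⟩
    · rcases Nat.eq_zero_or_pos i with rfl | hi0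
      · rw [k0] at h
        obtain ⟨g, rfl | rfl⟩ := Spl.D.cl_eq.1 (Sum.inl_injective h).symm
        · exact Or.inl (cl_up_smul g d 0 hi)
        · exact Or.inr (Or.inr (cl_up_smul g d.rev 0 hi))
      · rw [k1 _ _ _ hi0] at h
        cases h
    · rw [k2] at h
      exact Or.inr (Or.inl (cl_mid_mid.2 (Sum.inl_injective h)))
  let φ' := F.φ' φ hφ
  let A : Z.EO ⊕ F.Z'.EO → F.Z'.EO → ℝ := fun E c => E.elim
    (fun E => (F.Z'.cr (F.gt (F.D (Quotient.out E : Z.D)) 0)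
      (F.gt (F.D (Quotient.out E : Z.D).rev) 0) c : ℝ)) fun e => φ'.MR e c
  have A1 : ∀ (d : Z.D) c, A (Sum.inl d.cl) c =
      (F.Z'.cr (F.gt (F.D d) 0) (F.gt (F.D d.rev) 0) c : ℝ) := fun d c => by
    rw [← cr_out]
    rfl
  have A2 : ∀ (e : F.Z'.D) c, A (Sum.inr e.cl) c = (F.Z'.cr (f' e.o) (f' e.t) c : ℝ) :=
    fun e c => congrArg Nat.cast (φ'.M_cl e c)
  have hmid : ∀ (e : F.Z'.EO) (c : Z.EO), κ e = Sum.inl c → ∃ B : Finset F.Z'.EO,
      (∀ x ∈ B, κ x = κ e) ∧ ∑ x, A (κ e) x * v x ≤ μ * ∑ x ∈ B, v x := by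
    intro e c he
    obtain ⟨d, rfl, hd⟩ := h2 c
    refine ⟨{(up d 0 (Nat.zero_le _)).cl, (F.mid d).cl, (up d.rev 0 (Nat.zero_le _)).cl},
      fun x hx => ?_, ?_⟩
    · rw [he]
      simp only [Finset.mem_insert, Finset.mem_singleton] at hx
      rcases hx with rfl | rfl | rfl
      · exact k0 _ _
      · exact k2 _
      · rw [k0, Spl.D.cl_rev]
    · rw [he, Finset.sum_insert (by
        simp only [Finset.mem_insert, Finset.mem_singleton, not_or]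
        exact ⟨cl_up_mid, cl_up_rev d⟩), Finset.sum_pair cl_up_mid.symm, ← add_assoc]
      simp only [A1]
      exact hd
  obtain ⟨K, hK1, u, a', ha', hu, hl⟩ := RM.opt κ (A := A) (fun E c => by
    cases E with
    | inl E => exact Nat.cast_nonneg _
    | inr e => exact φ'.MR_nonneg _ _) hv hμ (fun e => by
    rcases cl_cases e with ⟨d, i, hi, rfl⟩ | ⟨d, rfl⟩
    · rcases Nat.eq_zero_or_pos i with rfl | hi0
      · exact hmid _ _ (k0 d hi)
      · refine ⟨{(up d i hi).cl}, fun c hc => by rw [Finset.mem_singleton.1 hc], ?_⟩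
        rw [k1 d i hi hi0, Finset.sum_singleton]
        simp only [A2]
        exact h1 d i hi hi0
    · exact hmid _ _ (k2 d)) h0
  have u1 : ∀ c c', c ∈ K → c' ∈ K → κ c = κ c' → c = c' := fun c c' hc hc' h =>
    (hK1 c').unique ⟨hc, h⟩ ⟨hc', rfl⟩
  have u2 : ∀ d i hi, 1 ≤ i → (up d i hi).cl ∈ K := fun d i hi h => by
    obtain ⟨c, ⟨c1, c2⟩, -⟩ := hK1 (up d i hi).cl
    rw [k1 d i hi h] at c2
    exact k3 _ _ c2 ▸ c1
  have u3 : ∀ d : Z.D, (up d 0 (Nat.zero_le _)).cl ∈ K ∨ (F.mid d).cl ∈ K ∨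
      (up d.rev 0 (Nat.zero_le _)).cl ∈ K := fun d => by
    obtain ⟨c, ⟨c1, c2⟩, -⟩ := hK1 (F.mid d).cl
    rw [k2] at c2
    rcases k4 c d c2 with rfl | rfl | rfl
    · exact Or.inl c1
    · exact Or.inr (Or.inl c1)
    · exact Or.inr (Or.inr c1)
  have u4 : ∀ d : Z.D, (up d 0 (Nat.zero_le _)).cl ∈ K → (up d.rev 0 (Nat.zero_le _)).cl ∉ K :=
    fun d b1 b2 => cl_up_rev d (u1 _ _ b1 b2 (by rw [k0, k0, Spl.D.cl_rev]))
  have u5 : ∀ d : Z.D, (F.mid d).cl ∈ K → (up d 0 (Nat.zero_le _)).cl ∉ K :=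
    fun d b1 b2 => cl_up_mid (u1 _ _ b2 b1 (by rw [k0, k2]))
  have u6 : ∀ d : Z.D, (F.mid d).cl ∈ K → (up d.rev 0 (Nat.zero_le _)).cl ∉ K :=
    fun d b1 => u5 d.rev (cl_mid_mid.2 d.cl_rev ▸ b1)
  let R : Z.D → F.V := fun d =>
    if (up d 0 (Nat.zero_le F.K)).cl ∈ K then F.gt d.rev 1 else F.gt d 1
  let ρ : F.V → F.V := fun x => if h : ∃ d, x = F.gt d 0 then R h.choose else x
  have r0 : ∀ d, ρ (F.gt d 0) = R d := fun d => by
    have h : ∃ e, F.gt d 0 = F.gt e 0 := ⟨d, rfl⟩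
    simp only [ρ, dif_pos h, ← mk_zero h.choose_spec]
  have r1 : ∀ d i, 1 ≤ i → ρ (F.gt d i) = F.gt d i := fun d i hi => dif_neg (by
    rintro ⟨e, he⟩
    have := mk_lev he
    omega)
  have r2 : ∀ d, (up d 0 (Nat.zero_le F.K)).cl ∈ K → ρ (F.gt d 0) = F.gt d.rev 1 :=
    fun d h => (r0 d).trans (if_pos h)
  have r3 : ∀ d, (up d 0 (Nat.zero_le F.K)).cl ∉ K → ρ (F.gt d 0) = F.gt d 1 :=
    fun d h => (r0 d).trans (if_neg h)
  have f1 : ∀ d, φ'.f (F.gt d 1) = F.gt (F.D d) 0 := fun d => f'_low d hK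
  have n1 : ∀ d i hi, (up d i hi).cl ∉ K → ρ (F.gt d i) = ρ (F.gt d (i + 1)) := by
    intro d i hi h
    rcases Nat.eq_zero_or_pos i with rfl | hi0
    · rw [r3 d h, r1 d _ le_rfl]
    · exact (h (u2 d i hi hi0)).elim
  have n2 : ∀ d i hi, (up d i hi).cl ∈ K → ∑ c ∈ K, (F.Z'.cr (φ'.f (ρ (F.gt d i)))
      (φ'.f (ρ (F.gt d (i + 1)))) c : ℝ) * u c ≤ a' * u (up d i hi).cl := by
    intro d i hi h
    have := hl _ h
    rcases Nat.eq_zero_or_pos i with rfl | hi0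
    · rw [k0] at this
      rw [r2 d h, r1 d _ le_rfl, f1, f1]
      simpa only [A1, Spl.cr_symm (F.gt (F.D d) 0)] using this
    · rw [k1 d i hi hi0] at this
      rw [r1 d _ hi0, r1 d _ (by omega)]
      simp only [A2] at this
      exact this
  obtain ⟨B, -, w, hw⟩ := quot_retr F.nofix' φ' K ρ (fun g x => by
    obtain ⟨d, i, -, rfl⟩ := mk_surj x
    rcases Nat.eq_zero_or_pos i with rfl | hi0
    · rw [smul_mk]
      by_cases h : (up d 0 (Nat.zero_le F.K)).cl ∈ K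
      · rw [r2 d h, r2 _ (cl_up_smul g d 0 _ ▸ h)]
        rfl
      · rw [r3 d h, r3 _ (cl_up_smul g d 0 _ ▸ h)]
        rfl
    · rw [smul_mk, r1 _ _ hi0, r1 _ _ hi0]
      rfl) (fun x => by
    obtain ⟨d, i, -, rfl⟩ := mk_surj x
    rcases Nat.eq_zero_or_pos i with rfl | hi0
    · by_cases h : (up d 0 (Nat.zero_le F.K)).cl ∈ K
      · rw [r2 d h]
        exact d.ν_t
      · rw [r3 d h]
        rfl
    · rw [r1 _ _ hi0]) (fun e he => by
    rcases dart_cases e with ⟨d, i, hi, rfl⟩ | ⟨d, i, hi, rfl⟩ | ⟨d, rfl⟩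
    · exact n1 d i hi he
    · rw [Spl.D.cl_rev] at he
      exact (n1 d i hi he).symm
    · show ρ (F.gt d 0) = ρ (F.gt d.rev 0)
      rcases u3 d with h | h | h
      · rw [r2 d h, r3 _ (u4 d h)]
      · exact (he h).elim
      · rw [r2 _ h, r3 d fun h' => u4 d h' h]
        rfl) hu (a := a') (fun e he => by
    rcases dart_cases e with ⟨d, i, hi, rfl⟩ | ⟨d, i, hi, rfl⟩ | ⟨d, rfl⟩
    · exact n2 d i hi he
    · rw [Spl.D.cl_rev] at he ⊢
      have := n2 d i hi he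
      simp only [Spl.cr_symm (φ'.f (ρ (F.gt d i)))] at this
      exact this
    · have := hl _ he
      rw [k2] at this
      show ∑ c ∈ K, (F.Z'.cr (φ'.f (ρ (F.gt d 0))) (φ'.f (ρ (F.gt d.rev 0))) c : ℝ) * u c ≤ _
      rw [r3 d (u5 d he), r3 _ (u6 d he), f1, f1]
      simpa only [A1] using this)
  exact ⟨B, w, a', ha', hw⟩

end FD

/-- The first dart of the image of a dart. -/
noncomputable def TMap.Dd (φ : TMap Z) (hS : S.Bij) (hnd : ∀ d : Z.D, φ.f d.o ≠ φ.f d.t)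
    (d : Z.D) : Z.D :=
  Spl.D.of (nxt_spec (φ.reach hS d.adj.reachable) (hnd d)).1

theorem fold (hS : S.Bij) (hZ : Z.NoFix) (φ : TMap Z) (hI : RM.Irr φ.MR) {v : Z.EO → ℝ} {a : ℝ}
    (hL : φ.Lip v a) (ha : 1 < a) (hnd : ∀ d : Z.D, φ.f d.o ≠ φ.f d.t) {d0 p q : Z.D}
    (hp : Sep Z.T p.p (φ.f d0.o) (φ.f d0.t)) (hq : Sep Z.T q.p (φ.f d0.o) (φ.f d0.t))
    (hpq : p.t = q.o) {i : ℕ} (hi : φ.Df^[i] p.rev.p = φ.Df^[i] q.p) :
    ∃ A : Adm S, A.φ.Good a := by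
  let F : FD Z := {
    D := φ.Dd hS hnd
    smul := fun g d => Spl.D.ext' (φ.smul g d.o) (by
      show nxt Z.T (φ.f (g • d.o)) (φ.f (g • d.t)) = g • nxt Z.T (φ.f d.o) (φ.f d.t)
      rw [φ.smul, φ.smul, nxt_smul Z.gf.acyc Z.gf.acts g (φ.reach hS d.adj.reachable) (hnd d)])
    ho := fun d d' h => congrArg φ.f h
    K := i + 1
    nofix := hZ }
  have hD : ∀ (j : ℕ) (d : Z.D), (F.D^[j] d).p = φ.Df^[j] d.p := by
    intro j
    induction j with
    | zero => exact fun _ => rfl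
    | succ j ih =>
      intro d
      rw [Function.iterate_succ_apply', Function.iterate_succ_apply', ← ih]
      rfl
  have hill : F.gt p.rev F.K = F.gt q F.K :=
    FD.mk_mono (i := i) (FD.mk_eq.2 ⟨hpq, rfl, fun _ =>
      Spl.D.p_inj (by rw [hD, hD, hi])⟩) (Nat.le_succ i)
  have hDb : ∀ d : Z.D, Btw Z.T (F.D d).o (F.D d).t (F.D d.rev).o := fun d =>
    (nxt_spec (φ.reach hS d.adj.reachable) (hnd d)).2
  have ha0 : 0 < a := by linarith
  obtain ⟨u, μ, hμ1, hμa, hu1, hu2, hu3⟩ := RM.st_err φ.MR_one hI hL ha d0.cl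
    (δ := 2 * (1 / 4 * a⁻¹ ^ F.K)) (by positivity)
  have hμ0 : 0 < μ := by linarith
  let r : ℕ → ℝ := fun j => if j ≤ F.K then 1 / 4 * μ⁻¹ ^ j else 0
  have hr0 : r 0 = 1 / 4 := by simp [r]
  have hrt : r (F.K + 1) = 0 := if_neg (by omega)
  have hrs : ∀ j, j + 1 ≤ F.K → r j = μ * r (j + 1) := fun j hj => by
    simp only [r, if_pos hj, if_pos (show j ≤ F.K by omega), pow_succ]
    field_simp
  have hrp : ∀ j ≤ F.K, 0 < r j := fun j hj => by
    simp only [r, if_pos hj]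
    positivity
  have hrd : ∀ j ≤ F.K, 0 < r j - r (j + 1) := fun j hj => by
    rcases hj.lt_or_eq with hj | rfl
    · have := hrs j hj
      have := hrp (j + 1) hj
      nlinarith
    · have := hrp _ le_rfl
      linarith
  have hrK : 1 / 4 * a⁻¹ ^ F.K ≤ r F.K := by
    simp only [r, le_refl, if_true]
    exact mul_le_mul_of_nonneg_left
      (pow_le_pow_left₀ (by positivity) (inv_anti₀ hμ0 hμa.le) _) (by norm_num)
  obtain ⟨w, w1, w2⟩ := FD.exists_fun (F := F) (fun _ j => r j - r (j + 1))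
    (fun c => u c - 2 * r 0) fun _ _ _ => rfl
  have hw : ∀ c, 0 < w c := fun c => by
    rcases FD.cl_cases c with ⟨d, j, hj, rfl⟩ | ⟨d, rfl⟩
    · rw [w1]
      exact hrd j hj
    · rw [w2, hr0]
      have := hu1 d.cl
      linarith
  have hw0 : ∀ c, 0 ≤ w c := fun c => (hw c).le
  have hK : 1 ≤ F.K := Nat.le_add_left 1 i
  refine FD.red (F := F) φ (fun _ => rfl) hK hw hμ0.le hμa (fun d j hj hj1 => ?_) fun c => ?_
  · rw [w1]
    obtain ⟨j, rfl⟩ := Nat.exists_eq_add_of_le' hj1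
    rw [FD.f'_low d hj, Nat.add_sub_cancel]
    rcases hj.lt_or_eq with hj | hj
    · rw [FD.f'_low d (i := j + 1 + 1) hj, Nat.add_sub_cancel]
      have := FD.L_lev hw0 w1 (F.D d) (show j ≤ j + 1 by omega) (by omega)
      have := hrs j hj.le
      have := hrs (j + 1) hj
      linarith
    · rw [hj, FD.f'_top, hrt]
      have := FD.L_lev hw0 w1 (F.D d) (show j ≤ F.K + 1 by omega) le_rfl
      have := hrs j hj.le
      rw [hj] at this
      linarith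
  · have h01 := hrs 0 hK
    by_cases hc : c = d0.cl
    · refine ⟨d0, hc.symm, ?_⟩
      have b1 := FD.L_ill hw0 w1 w2 hrt (hDb d0) (hDb d0.rev) hp hq hill
      rw [φ.MR_sum] at hu3
      rw [w1, w1, w2]
      change _ ≤ Z.L u (φ.f d0.o) (φ.f d0.t) - _ - _ at b1
      linarith
    · obtain ⟨d, rfl⟩ := Spl.cl_surj c
      refine ⟨d, rfl, ?_⟩
      have b1 := FD.L_path hw0 w1 w2 hrt (hDb d) (hDb d.rev)
      have b2 := hu2 _ hc
      rw [φ.MR_sum] at b2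
      rw [w1, w1, w2]
      change _ ≤ Z.L u (φ.f d.o) (φ.f d.t) - _ at b1
      linarith

end CPOR
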