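import Pool.Agent.P.MP_2cb329_al.F.RG

/-! Train tracks: bounded cancellation, the isometric case, the first pair. -/

set_option autoImplicit false

namespace CPOR

open ZT MulAction RT

variable {G : Type} [Group G] {N : Type} [MulAction G N] {S : Sys G N}
variable {W : Type} [MulAction G W] {Z : Spl S W}

theorem Spl.bdd_dart (F : W → W) (hF : ∀ (g : G) x, F (g • x) = g • F x) :
    ∃ C, ∀ d : Z.D, Z.T.dist (F d.o) (F d.t) ≤ C := by
  obtain ⟨C, hC⟩ := bdd_of_finOrb Z.finE (fun e => Z.T.dist (F e.1) (F e.2)) fun g e => by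
    show Z.T.dist (F (g • e.1)) (F (g • e.2)) = _
    rw [hF, hF, Z.gf.acts.dist]
  exact ⟨C, fun d => hC d.p d.adj⟩

theorem Spl.bdd_vert (F : W → W) (hF : ∀ (g : G) x, F (g • x) = g • F x) :
    ∃ C, ∀ x, Z.T.dist x (F x) ≤ C := by
  obtain ⟨C, hC⟩ := bdd_of_finOrb Z.finW (fun x => Z.T.dist x (F x)) fun g x => by
    show Z.T.dist (g • x) (F (g • x)) = _
    rw [hF, Z.gf.acts.dist]
  exact ⟨C, fun x => hC x trivial⟩

theorem TMap.dist_lip (φ : TMap Z) (hS : S.Bij) {C : ℕ}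
    (hC : ∀ d : Z.D, Z.T.dist (φ.f d.o) (φ.f d.t) ≤ C) {x y : W} (h : Z.T.Reachable x y) :
    Z.T.dist (φ.f x) (φ.f y) ≤ C * Z.T.dist x y := by
  refine geod_ind (P := fun x y => Z.T.dist (φ.f x) (φ.f y) ≤ C * Z.T.dist x y)
    (fun x => by simp) ?_ h
  intro x z y hxz hb ih
  have a1 := dist_tri (φ.reach hS hb.1) (φ.reach hS hb.2.1)
  have a2 := hC (Spl.D.of hxz)
  rw [Spl.D.of_o, Spl.D.of_t] at a2
  rw [← hb.2.2, SimpleGraph.dist_eq_one_iff_adj.2 hxz, mul_add, mul_one]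
  omega

/-- Bounded cancellation. -/
theorem TMap.bcc_of (φ : TMap Z) (hS : S.Bij)
    (hv : ∀ y, stabilizer G y ≠ ⊥ → ∃ x, φ.f x = y ∧ stabilizer G x = stabilizer G y) :
    ∃ C : ℕ, ∀ x z y, Btw Z.T x z y →
      ∃ w, Btw Z.T (φ.f x) w (φ.f y) ∧ Z.T.Reachable (φ.f z) w ∧ Z.T.dist (φ.f z) w ≤ C := by
  have hT := Z.gf.acyc
  obtain ⟨ψ, hψ, hν⟩ := exists_eqmap (G := G) (fun y x : W => Z.ν (φ.f x) = Z.ν y)
    (fun g y x h => by rw [φ.smul, Z.ν_smul, Z.ν_smul, h]) fun y => by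
      by_cases hy : stabilizer G y = ⊥
      · obtain ⟨x, hx⟩ := φ.ν_surj hS y
        exact ⟨x, hx, hy ▸ bot_le⟩
      · obtain ⟨x, h1, h2⟩ := hv y hy
        exact ⟨x, by rw [h1], h2.ge⟩
  have r1 : ∀ x, Z.T.Reachable x (ψ (φ.f x)) := fun x =>
    (Z.ν_eq _ _).1 ((φ.ν_iff hS _ _).1 (hν _)).symm
  have r2 : ∀ y, Z.T.Reachable y (φ.f (ψ y)) := fun y => (Z.ν_eq _ _).1 (hν y).symm
  have r3 : ∀ p q, Z.T.Reachable p q → Z.T.Reachable (ψ p) (ψ q) := fun p q h =>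
    (φ.reach_iff hS).1 (((r2 p).symm.trans h).trans (r2 q))
  obtain ⟨C1, h1⟩ := Spl.bdd_vert (Z := Z) (fun x => ψ (φ.f x)) fun g x => by rw [φ.smul, hψ]
  obtain ⟨C2, h2⟩ := Spl.bdd_dart (Z := Z) ψ hψ
  obtain ⟨C3, h3⟩ := Spl.bdd_vert (Z := Z) (fun x => φ.f (ψ x)) fun g x => by rw [hψ, φ.smul]
  obtain ⟨C4, h4⟩ := Spl.bdd_dart (Z := Z) φ.f φ.smul
  have key : ∀ p q, Z.T.Reachable p q → ∀ x y z, Z.T.Reachable x (ψ p) →
      Z.T.dist x (ψ p) ≤ C1 + C2 → Z.T.dist y (ψ q) ≤ C1 + C2 → Btw Z.T x z y →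
      ∃ w, Btw Z.T p w q ∧ Z.T.Reachable z (ψ w) ∧ Z.T.dist z (ψ w) ≤ C1 + C2 := by
    intro p q hpq
    refine geod_ind (P := fun p q => ∀ x y z, Z.T.Reachable x (ψ p) →
      Z.T.dist x (ψ p) ≤ C1 + C2 → Z.T.dist y (ψ q) ≤ C1 + C2 → Btw Z.T x z y →
      ∃ w, Btw Z.T p w q ∧ Z.T.Reachable z (ψ w) ∧ Z.T.dist z (ψ w) ≤ C1 + C2) ?_ ?_ hpq
    · intro p x y z a1 a2 a3 hb
      refine ⟨p, btw_left (SimpleGraph.Reachable.refl p), hb.1.symm.trans a1, ?_⟩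
      rcases Btw.or hT hb a1 with H | H
      · have := H.2.2
        omega
      · have := H.symm.2.2
        omega
    · intro p p' q hpp hb' ih x y z a1 a2 a3 hb
      rcases Btw.or hT hb a1 with H | H
      · refine ⟨p, btw_left hb'.reach, H.2.1, ?_⟩
        have := H.2.2
        omega
      · have := h2 (Spl.D.of hpp)
        rw [Spl.D.of_o, Spl.D.of_t] at this
        obtain ⟨w, w1, w2⟩ := ih (ψ p) y z (r3 _ _ hpp.reachable) (by omega) a3 H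
        exact ⟨w, (hb'.trans_right w1).1, w2⟩
  refine ⟨C4 * (C1 + C2) + C3, fun x z y hb => ?_⟩
  obtain ⟨w, w1, w2, w3⟩ := key _ _ (φ.reach hS hb.reach) x y z (r1 x)
    ((h1 x).trans (Nat.le_add_right _ _)) ((h1 y).trans (Nat.le_add_right _ _)) hb
  refine ⟨w, w1, (φ.reach hS w2).trans (r2 w).symm, ?_⟩
  have a1 := dist_tri (φ.reach hS w2) (r2 w).symm
  have a2 := φ.dist_lip hS h4 w2
  have a3 := h3 w
  rw [SimpleGraph.dist_comm] at a3
  have a4 := Nat.mul_le_mul_left C4 w3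
  omega

theorem Spl.L_one {x y : W} (h : Z.T.Reachable x y) : Z.L (fun _ => 1) x y = Z.T.dist x y := by
  refine geod_ind (P := fun x y => Z.L (fun _ => 1) x y = Z.T.dist x y) (fun x => by simp) ?_ h
  intro x z y hxz hb ih
  rw [Spl.L_btw _ hb, ih, ← hb.2.2, SimpleGraph.dist_eq_one_iff_adj.2 hxz]
  have := Spl.L_dart (fun _ => (1 : ℝ)) (Spl.D.of hxz)
  rw [Spl.D.of_o, Spl.D.of_t] at this
  rw [this]
  push_cast
  rfl

theorem TMap.nondeg_of (φ : TMap Z) (hrow : ∀ e, ∃ c, φ.MR e c ≠ 0) (d : Z.D) :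
    φ.f d.o ≠ φ.f d.t := by
  intro h
  obtain ⟨c, hc⟩ := hrow d.cl
  rw [TMap.MR, φ.M_cl, h, Spl.cr_self] at hc
  exact hc Nat.cast_zero

/-- The isometric case. -/
theorem TMap.neg_of (φ : TMap Z) (hS : S.Bij) (hI : RM.Irr φ.MR)
    (hrow : ∀ e, ∃ c, φ.MR e c ≠ 0) (h1 : ∀ e, ∑ c, φ.MR e c ≤ 1) : ∃ M : Mach Z, M.NEG := by
  have hT := Z.gf.acyc
  have hadj : ∀ d : Z.D, Z.T.Adj (φ.f d.o) (φ.f d.t) := by
    intro d
    have a1 := φ.MR_sum (fun _ => 1) d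
    have hr := φ.reach hS d.adj.reachable
    rw [Spl.L_one hr] at a1
    simp only [mul_one] at a1
    have a2 := h1 d.cl
    rw [a1] at a2
    have a3 : Z.T.dist (φ.f d.o) (φ.f d.t) ≤ 1 := by exact_mod_cast a2
    have a4 : Z.T.dist (φ.f d.o) (φ.f d.t) ≠ 0 := fun H =>
      φ.nondeg_of hrow d (eq_of_dist_zero hr H)
    exact adj_of_dist_one (by omega)
  let fd : Z.D → Z.D := fun d => Spl.D.of (hadj d)
  have fs : ∀ (g : G) d, fd (g • d) = g • fd d := fun g d =>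
    Spl.D.ext' (φ.smul g d.o) (φ.smul g d.t)
  have fr : ∀ d, fd d.rev = (fd d).rev := fun _ => rfl
  let τ : Z.EO → Z.EO := Quotient.lift (fun d => (fd d).cl) (by
    rintro d _ ⟨g, rfl | rfl⟩
    · rw [fs, Spl.D.cl_smul]
    · rw [fs, fr, Spl.D.cl_smul, Spl.D.cl_rev])
  have hτ : ∀ d : Z.D, τ d.cl = (fd d).cl := fun _ => rfl
  have hsurj : Function.Surjective τ := by
    intro c
    refine hI (Set.range τ) ⟨_, c, rfl⟩ (fun e _ c hc => ?_) c
    obtain ⟨d, rfl⟩ := Spl.cl_surj e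
    refine ⟨d.cl, ?_⟩
    by_contra H
    have := Spl.cr_dart (fd d) c
    rw [if_neg (show ¬ (fd d).cl = c from H)] at this
    rw [TMap.MR, φ.M_cl] at hc
    exact hc (by exact_mod_cast this)
  have hinj := Finite.injective_iff_surjective.2 hsurj
  have fi : Function.Injective fd := by
    intro d d' h
    obtain ⟨g, rfl | rfl⟩ := Spl.D.cl_eq.1 (hinj (by rw [hτ, hτ, h] : τ d.cl = τ d'.cl))
    · rw [fs] at h
      rw [Spl.D.free h.symm, one_smul]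
    · rw [fs, fr] at h
      exact (Spl.D.noinv g (fd d).rev h.symm).elim
  have fsu : Function.Surjective fd := by
    intro e
    obtain ⟨c, hc⟩ := hsurj e.cl
    obtain ⟨d, rfl⟩ := Spl.cl_surj c
    obtain ⟨g, rfl | rfl⟩ := Spl.D.cl_eq.1 (show (fd d).cl = e.cl from hc)
    · exact ⟨g • d, fs g d⟩
    · exact ⟨g • d.rev, fs g d.rev⟩
  have hiso : ∀ x y, Z.T.Reachable x y → Z.T.dist (φ.f x) (φ.f y) = Z.T.dist x y := by
    intro x y h
    obtain ⟨a, a0, an, a1, a2, -⟩ := exists_geod h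
    have := geod_of_noback hT (fun i => φ.f (a i)) (Z.T.dist x y)
      (fun i hi => hadj (Spl.D.of (a1 i hi))) (fun i hi H => by
        have b1 : fd (Spl.D.of (a1 i (by omega))).rev = fd (Spl.D.of (a1 (i + 1) (by omega))) :=
          Spl.D.ext' rfl H
        have b2 : a i = a (i + 2) := congrArg Spl.D.t (fi b1)
        have := (a2 i (i + 2) (by omega) hi).2
        rw [b2, SimpleGraph.dist_self] at this
        omega) 0 _ (Nat.zero_le _) le_rfl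
    simpa only [a0, an, Nat.sub_zero] using this.2
  have hr : ∀ {a : S.A} {x x' : W}, Z.ν x = S.src a → Z.ν x' = S.src a → Z.T.Reachable x x' :=
    fun h h' => (Z.ν_eq _ _).1 (h.trans h'.symm)
  refine ⟨{
    R := fun a x y => Z.ν x = S.src a ∧ φ.f x = y
    smul := fun g a x y h => ⟨by rw [Z.ν_smul, S.src_smul, h.1], by rw [φ.smul, h.2]⟩
    src := fun a x y h => h.1
    tgt := fun a x y h => h.2 ▸ φ.ν_f a x h.1
    func := fun a x y y' h h' => h.2.symm.trans h'.2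
    inj := fun a x x' y h h' => eq_of_dist_zero (hr h.1 h'.1) (by
      rw [← hiso _ _ (hr h.1 h'.1), h.2, h'.2, SimpleGraph.dist_self])
    ne := fun a => by
      obtain ⟨x, hx⟩ := Z.ν_surj (S.src a)
      exact ⟨x, _, hx, rfl⟩
    cvx := by
      rintro a x _ x' _ z ⟨h, rfl⟩ ⟨-, rfl⟩ hb
      refine ⟨_, ⟨((Z.ν_eq _ _).2 hb.1).symm.trans h, rfl⟩, φ.reach hS hb.1, φ.reach hS hb.2.1, ?_⟩
      rw [hiso _ _ hb.1, hiso _ _ hb.2.1, hiso _ _ hb.reach]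
      exact hb.2.2
    fin := by
      obtain ⟨F, hF, h⟩ := Z.finW
      refine ⟨(fun x => ((hS.out (Z.ν x)).exists.choose, x, φ.f x)) '' F, hF.image _, ?_⟩
      rintro ⟨a, x, y⟩ ⟨h1, h2⟩
      obtain rfl : φ.f x = y := h2
      obtain ⟨k, hk, hk'⟩ := h x trivial
      refine ⟨k, hk, _, hk', Prod.ext ?_ (Prod.ext rfl (φ.smul k x))⟩
      refine (hS.out (Z.ν (k • x))).unique (hS.out (Z.ν (k • x))).exists.choose_spec ?_
      show S.src (k • a) = _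
      rw [S.src_smul, Z.ν_smul, show Z.ν x = S.src a from h1] }, ?_, ?_, ?_⟩
  · rintro a x _ x' _ ⟨h, rfl⟩ ⟨h', rfl⟩
    exact hiso _ _ (hr h h')
  · intro x x' h
    obtain ⟨a, ha, ha'⟩ := hS.out (Z.ν x)
    exact ⟨a, ⟨⟨_, ha.symm, rfl⟩, _, (Spl.D.of h).ν_t.trans ha.symm, rfl⟩,
      fun b hb => ha' b hb.1.choose_spec.1.symm⟩
  · intro y y' h
    obtain ⟨d, hd⟩ := fsu (Spl.D.of h)
    obtain ⟨a, ha⟩ := (hS.out (Z.ν d.o)).exists
    have b1 : φ.f d.o = y := congrArg Spl.D.o hd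
    refine ⟨a, ⟨⟨d.o, ha.symm, b1⟩, d.t, d.ν_t.trans ha.symm, congrArg Spl.D.t hd⟩, ?_⟩
    rintro b ⟨⟨x, hx, hx'⟩, -⟩
    exact (hS.inn (Z.ν y)).unique (by rw [← hx', φ.ν_f b x hx]) (by rw [← b1, φ.ν_f a _ ha.symm])

/-- The free forest as a splitting. -/
def Sys.spl0 (S : Sys G N) : Spl S S.V where
  T := S.B
  gf := S.gf
  finW := S.finV
  finE := by
    obtain ⟨F, hF, h⟩ := S.finV
    refine ⟨⋃ x ∈ F, (fun y => (x, y)) '' S.B.neighborSet x,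
      hF.biUnion fun x _ => (S.lf x).image _, fun e he => ?_⟩
    obtain ⟨k, hk, hk'⟩ := h e.1 trivial
    exact ⟨k, hk, Set.mem_biUnion hk' ⟨k • e.2, S.gf.acts k _ _ he, rfl⟩⟩
  ν := S.nd
  ν_smul := S.nd_smul
  ν_surj := S.nd_surj
  ν_eq := S.nd_eq

theorem exists_adm {ρ : ℕ} (hS : S.Aut ρ) : ∃ (A : Adm S) (b : ℝ), A.φ.Good b := by
  obtain ⟨f, hf, hν⟩ := exists_eqmap (G := G)
    (fun x y : S.V => ∀ a, S.nd x = S.src a → S.nd y = S.tgt a)
    (fun g x y h a ha => by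
      have := h (g⁻¹ • a) (by rw [S.src_smul, ← ha, S.nd_smul, inv_smul_smul])
      rw [S.nd_smul, this, S.tgt_smul, smul_inv_smul]) fun x => by
      obtain ⟨a, ha, ha'⟩ := hS.out (S.nd x)
      obtain ⟨y, hy⟩ := S.nd_surj (S.tgt a)
      refine ⟨y, fun b hb => by rw [ha' b hb.symm, hy], fun g hg => ?_⟩
      rw [S.free g x hg]
      exact one_mem _
  let φ : TMap S.spl0 := ⟨f, hf, fun a x => hν x a⟩
  have hN : S.spl0.NoFix := fun x hx => by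
    have := beta_le_one (K := stabilizer G (S.nd x)) (g := 1) fun g hg => by
      rw [S.free g x (hx hg)]
      exact one_mem _
    rw [hS.bN] at this
    have := hS.two
    omega
  refine ⟨⟨S.V, S.spl0, φ, hN⟩, (∑ e, ∑ c, φ.MR e c) + 1, fun _ => 1, ∑ e, ∑ c, φ.MR e c,
    lt_add_one _, fun _ => one_pos, fun e => ?_⟩
  simp only [mul_one]
  exact Finset.single_le_sum (f := fun e => ∑ c, φ.MR e c)
    (fun e _ => Finset.sum_nonneg fun c _ => φ.MR_nonneg e c) (Finset.mem_univ e)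

end CPOR
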