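import Pool.Agent.P.MP_2cb329_al.F.RA

/-! Train tracks: collapsing classes of edges. -/

set_option autoImplicit false

namespace CPOR

open ZT MulAction RT

namespace RT

variable {V : Type} {T : SimpleGraph V}

/-- `U` is left only through the dart `(w, v)`. -/
def Cut (T : SimpleGraph V) (v w : V) (U : Set V) : Prop :=
  w ∈ U ∧ v ∉ U ∧ ∀ a b, T.Adj a b → a ∈ U → b ∉ U → a = w ∧ b = v

theorem acyc_of_cut (h : ∀ v w, T.Adj v w → (∃ U, Cut T v w U) ∨ ∃ U, Cut T w v U) :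
    T.IsAcyclic := by
  have key : ∀ v w U, Cut T v w U → ¬ (T.deleteEdges {s(w, v)}).Reachable w v := by
    intro v w U hU ⟨p⟩
    have : ∀ a b (_ : (T.deleteEdges {s(w, v)}).Walk a b), a ∈ U → b ∈ U := by
      intro a b q
      induction q with
      | nil => exact id
      | cons hadj _ ih =>
        intro ha
        refine ih ?_
        by_contra hb
        rw [SimpleGraph.deleteEdges_adj] at hadj
        obtain ⟨rfl, rfl⟩ := hU.2.2 _ _ hadj.1 ha hb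
        exact hadj.2 rfl
    exact hU.2.1 (this _ _ p hU.1)
  rw [SimpleGraph.isAcyclic_iff_forall_adj_isBridge]
  intro v w hvw
  rcases h v w hvw with ⟨U, hU⟩ | ⟨U, hU⟩
  · rw [Sym2.eq_swap]
    exact key v w U hU
  · exact key w v U hU

theorem Cut.closed (hT : T.IsAcyclic) {v w : V} {U : Set V} (hU : Cut T v w U) {a b : V}
    (hr : T.Reachable a b) : a ∈ U → ¬ Sep T (w, v) a b → b ∈ U := by
  refine geod_ind (P := fun a b => a ∈ U → ¬ Sep T (w, v) a b → b ∈ U) (fun _ h _ => h) ?_ hr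
  intro x z y hxz hb ih hx hs
  by_cases hz : z ∈ U
  · exact ih hz fun H => hs (sep_right hT hb H)
  · obtain ⟨rfl, rfl⟩ := hU.2.2 _ _ hxz hx hz
    exact (hs ⟨hxz, btw_left hxz.reachable, hb⟩).elim

theorem Cut.btw_iff (hT : T.IsAcyclic) {v w : V} {U : Set V} (hU : Cut T v w U) (ha : T.Adj v w)
    {x : V} (hr : T.Reachable v x) : Btw T v w x ↔ x ∈ U := by
  constructor
  · intro h
    exact hU.closed hT h.2.1 hU.1 fun H => not_btw_swap ha h H.2.2
  · intro h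
    by_contra hb
    exact hU.2.1 (hU.closed hT hr.symm h fun H => hb H.2.1.symm)

end RT

variable {G : Type} [Group G] {N : Type} [MulAction G N] {S : Sys G N}

namespace Spl

variable {W : Type} [MulAction G W] (Z : Spl S W) (K : Finset Z.EO)

/-- No edge of a class in `K` separates `x` and `y`. -/
def KRel (x y : W) : Prop := Z.T.Reachable x y ∧ ∀ c ∈ K, Z.cr x y c = 0

variable {Z K}

theorem KRel.refl (x : W) : Z.KRel K x x := ⟨SimpleGraph.Reachable.refl x, fun c _ => cr_self x c⟩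

theorem KRel.symm {x y : W} (h : Z.KRel K x y) : Z.KRel K y x :=
  ⟨h.1.symm, fun c hc => (cr_symm y x c).trans (h.2 c hc)⟩

theorem KRel.trans {x y z : W} (h : Z.KRel K x y) (h' : Z.KRel K y z) : Z.KRel K x z := by
  refine ⟨h.1.trans h'.1, fun c hc => ?_⟩
  have := cr_tri h.1 z c
  have := h.2 c hc
  have := h'.2 c hc
  omega

theorem KRel.smul (g : G) {x y : W} (h : Z.KRel K x y) : Z.KRel K (g • x) (g • y) :=
  ⟨Z.gf.acts.reach g h.1, fun c hc => (cr_smul g x y c).trans (h.2 c hc)⟩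

theorem KRel.dart {d : Z.D} : Z.KRel K d.o d.t ↔ d.cl ∉ K := by
  constructor
  · intro h hd
    have := h.2 _ hd
    rw [cr_dart, if_pos rfl] at this
    omega
  · intro h
    refine ⟨d.adj.reachable, fun c hc => ?_⟩
    rw [cr_dart, if_neg]
    rintro rfl
    exact h hc

theorem KRel.btw {x y z : W} (h : Z.KRel K x z) (hb : Btw Z.T x y z) :
    Z.KRel K x y ∧ Z.KRel K y z := by
  refine ⟨⟨hb.1, fun c hc => ?_⟩, hb.2.1, fun c hc => ?_⟩
  all_goals
    have := cr_btw hb c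
    have := h.2 c hc
    omega

/-- Induction along a path of collapsed edges. -/
theorem KRel.ind {R : W → W → Prop} (h0 : ∀ x, R x x) (h1 : ∀ x y z, R x y → R y z → R x z)
    (h2 : ∀ d : Z.D, d.cl ∉ K → R d.o d.t) {x y : W} (h : Z.KRel K x y) : R x y := by
  refine geod_ind (P := fun x y => Z.KRel K x y → R x y) (fun x _ => h0 x) ?_ h.1 h
  intro x z y hxz hb ih H
  exact h1 _ _ _ (h2 (D.of hxz) (KRel.dart.1 (H.btw hb).1)) (ih (H.btw hb).2)

theorem KRel.side {d : Z.D} (hd : d.cl ∈ K) {x y : W} (h : Z.KRel K x y)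
    (hx : Btw Z.T d.o d.t x) : Btw Z.T d.o d.t y := by
  rcases adj_btw Z.gf.acyc d.adj (hx.reach.trans h.1) with H | H
  · exact H
  · exact (cr_eq_zero.1 (h.symm.2 _ hd) d ⟨d.adj, H.symm, hx⟩ rfl).elim

variable (Z K)

/-- The setoid of the collapse. -/
def kSet : Setoid W := ⟨Z.KRel K, ⟨KRel.refl, KRel.symm, KRel.trans⟩⟩

/-- Vertices of the collapse. -/
def QW : Type := Quotient (Z.kSet K)

variable {Z}

/-- The collapse map. -/
def qp (x : W) : Z.QW K := Quotient.mk (Z.kSet K) x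

variable {K}

theorem qp_eq {x y : W} : qp K x = qp K y ↔ Z.KRel K x y := Quotient.eq (r := Z.kSet K)

theorem qp_surj (x : Z.QW K) : ∃ y, qp K y = x := Quotient.exists_rep x

instance : MulAction G (Z.QW K) where
  smul g := Quotient.map (fun x => g • x) fun _ _ h => KRel.smul g h
  one_smul x := by
    obtain ⟨y, rfl⟩ := qp_surj x
    exact congrArg (qp K) (one_smul G y)
  mul_smul g h x := by
    obtain ⟨y, rfl⟩ := qp_surj x
    exact congrArg (qp K) (mul_smul g h y)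

theorem qp_smul (g : G) (x : W) : qp K (g • x) = g • qp K x := rfl

variable (Z K)

/-- The collapsed forest. -/
def qT : SimpleGraph (Z.QW K) where
  Adj x y := ∃ d : Z.D, d.cl ∈ K ∧ qp K d.o = x ∧ qp K d.t = y
  symm := ⟨fun _ _ ⟨d, h1, h2, h3⟩ => ⟨d.rev, (D.cl_rev d).symm ▸ h1, h3, h2⟩⟩
  loopless := ⟨fun _ ⟨_, h1, h2, h3⟩ => KRel.dart.1 (qp_eq.1 (h2.trans h3.symm)) h1⟩

variable {Z}

/-- Image of a half space. -/
def qH (d : Z.D) : Set (Z.QW K) := {x | ∃ y, qp K y = x ∧ Btw Z.T d.o d.t y}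

variable {K}

theorem mem_qH {d : Z.D} (hd : d.cl ∈ K) {x : W} : qp K x ∈ qH K d ↔ Btw Z.T d.o d.t x :=
  ⟨fun ⟨_, h1, h2⟩ => (qp_eq.1 h1).side hd h2, fun h => ⟨x, rfl, h⟩⟩

theorem D.half {d e : Z.D} (h : Btw Z.T d.o d.t e.o) (h' : ¬ Btw Z.T d.o d.t e.t) :
    e = d.rev := by
  by_cases ht : e.t = d.o
  · refine D.ext' ?_ ht
    rcases h.eq_of_adj Z.gf.acyc (ht ▸ e.adj.symm) with H | H
    · exact absurd H d.adj.ne'
    · exact H.symm
  · exact (h' (half_adj Z.gf.acyc d.adj h e.adj ht)).elim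

theorem D.not_btw (d : Z.D) : ¬ Btw Z.T d.o d.t d.o := fun h => d.adj.ne' h.eq_of_self

theorem q_cut {d : Z.D} (hd : d.cl ∈ K) : Cut (Z.qT K) (qp K d.o) (qp K d.t) (qH K d) := by
  refine ⟨(mem_qH hd).2 (btw_adj d.adj), fun h => d.not_btw ((mem_qH hd).1 h), ?_⟩
  rintro _ _ ⟨e, -, rfl, rfl⟩ h1 h2
  rw [mem_qH hd] at h1 h2
  rw [D.half h1 h2]
  exact ⟨rfl, rfl⟩

theorem q_inj {d e : Z.D} (hd : d.cl ∈ K) (h1 : qp K d.o = qp K e.o) (h2 : qp K d.t = qp K e.t) :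
    d = e := by
  have a1 : Btw Z.T d.o d.t e.rev.o := (qp_eq.1 h2).side hd (btw_adj d.adj)
  have a2 : ¬ Btw Z.T d.o d.t e.rev.t := fun h => d.not_btw ((mem_qH hd).1 ⟨_, h1.symm, h⟩)
  rw [← D.rev_rev e, D.half a1 a2, D.rev_rev]

theorem q_acyc : (Z.qT K).IsAcyclic :=
  acyc_of_cut (by
    rintro _ _ ⟨d, hd, rfl, rfl⟩
    exact Or.inl ⟨_, q_cut hd⟩)

theorem q_reach {x y : W} (h : Z.T.Reachable x y) : (Z.qT K).Reachable (qp K x) (qp K y) := by
  refine geod_ind (P := fun x y => (Z.qT K).Reachable (qp K x) (qp K y))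
    (fun x => SimpleGraph.Reachable.refl _) ?_ h
  intro x z y hxz _ ih
  refine SimpleGraph.Reachable.trans ?_ ih
  by_cases hd : (D.of hxz).cl ∈ K
  · exact SimpleGraph.Adj.reachable ⟨D.of hxz, hd, rfl, rfl⟩
  · rw [show qp K x = qp K z from qp_eq.2 (KRel.dart.2 hd)]

variable (K)

/-- The node of a vertex of the collapse. -/
def qν : Z.QW K → N := Quotient.lift Z.ν fun _ _ h => (Z.ν_eq _ _).2 h.1

/-- The collapsed splitting. -/
def q : Spl S (Z.QW K) where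
  T := Z.qT K
  gf := {
    acyc := q_acyc
    acts := by
      rintro g _ _ ⟨d, hd, rfl, rfl⟩
      exact ⟨g • d, (D.cl_smul g d).symm ▸ hd, rfl, rfl⟩
    noinv := by
      rintro g _ _ ⟨d, hd, rfl, rfl⟩ h1 h2
      exact D.noinv g d (q_inj ((D.cl_smul g d).symm ▸ hd) h1 h2)
    etriv := by
      rintro g _ _ ⟨d, hd, rfl, rfl⟩ h1 h2
      exact D.free (q_inj ((D.cl_smul g d).symm ▸ hd) h1 h2) }
  finW := by
    obtain ⟨F, hF, h⟩ := Z.finW
    refine ⟨qp K '' F, hF.image _, fun x _ => ?_⟩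
    obtain ⟨y, rfl⟩ := qp_surj x
    obtain ⟨k, hk, hk'⟩ := h y trivial
    exact ⟨k, hk, _, hk', rfl⟩
  finE := by
    obtain ⟨F, hF, h⟩ := Z.finD
    refine ⟨(fun d => (qp K d.o, qp K d.t)) '' F, hF.image _, ?_⟩
    rintro ⟨_, _⟩ ⟨d, -, rfl, rfl⟩
    obtain ⟨k, hk⟩ := h d
    exact ⟨k, trivial, _, hk, rfl⟩
  ν := qν K
  ν_smul g x := by
    obtain ⟨y, rfl⟩ := qp_surj x
    exact Z.ν_smul g y
  ν_surj v := by
    obtain ⟨x, hx⟩ := Z.ν_surj v
    exact ⟨qp K x, hx⟩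
  ν_eq x y := by
    constructor
    · obtain ⟨x, rfl⟩ := qp_surj x
      obtain ⟨y, rfl⟩ := qp_surj y
      exact fun h => q_reach ((Z.ν_eq _ _).1 h)
    · rintro ⟨p⟩
      induction p with
      | nil => rfl
      | cons h _ ih =>
        obtain ⟨d, -, rfl, rfl⟩ := h
        exact Eq.trans d.ν_t.symm ih

variable {K}

theorem q_ν (x : W) : (Z.q K).ν (qp K x) = Z.ν x := rfl

theorem q_btw {d : Z.D} (hd : d.cl ∈ K) {x : W} :
    Btw (Z.qT K) (qp K d.o) (qp K d.t) (qp K x) ↔ Btw Z.T d.o d.t x := by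
  have ha : (Z.qT K).Adj (qp K d.o) (qp K d.t) := ⟨d, hd, rfl, rfl⟩
  constructor
  · intro h
    exact (mem_qH hd).1 (((q_cut hd).btw_iff q_acyc ha h.reach).1 h)
  · intro h
    exact ((q_cut hd).btw_iff q_acyc ha (q_reach h.reach)).2 ((mem_qH hd).2 h)

/-- The kept dart over a dart of the collapse. -/
noncomputable def lift (e : (Z.q K).D) : Z.D := Exists.choose e.adj

theorem lift_spec (e : (Z.q K).D) :
    (lift e).cl ∈ K ∧ qp K (lift e).o = e.o ∧ qp K (lift e).t = e.t := Exists.choose_spec e.adj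

theorem lift_eq {e : (Z.q K).D} {d : Z.D} (hd : d.cl ∈ K) (h1 : qp K d.o = e.o)
    (h2 : qp K d.t = e.t) : lift e = d :=
  (q_inj hd (h1.trans (lift_spec e).2.1.symm) (h2.trans (lift_spec e).2.2.symm)).symm

theorem lift_inj : Function.Injective (lift : (Z.q K).D → Z.D) := fun e e' h =>
  D.ext' (by rw [← (lift_spec e).2.1, h, (lift_spec e').2.1])
    (by rw [← (lift_spec e).2.2, h, (lift_spec e').2.2])

theorem lift_smul (g : G) (e : (Z.q K).D) : lift (g • e) = g • lift e :=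
  lift_eq ((D.cl_smul g (lift e)).symm ▸ (lift_spec e).1) (congrArg (g • ·) (lift_spec e).2.1)
    (congrArg (g • ·) (lift_spec e).2.2)

theorem lift_rev (e : (Z.q K).D) : lift e.rev = (lift e).rev :=
  lift_eq ((D.cl_rev (lift e)).symm ▸ (lift_spec e).1) (lift_spec e).2.2 (lift_spec e).2.1

theorem lift_surj {d : Z.D} (hd : d.cl ∈ K) : ∃ e : (Z.q K).D, lift e = d :=
  ⟨⟨qp K d.o, qp K d.t, ⟨d, hd, rfl, rfl⟩⟩, lift_eq hd rfl rfl⟩

theorem lift_cl {e e' : (Z.q K).D} : (lift e).cl = (lift e').cl ↔ e.cl = e'.cl := by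
  rw [D.cl_eq, D.cl_eq]
  refine exists_congr fun g => ?_
  rw [← lift_rev, ← lift_smul, ← lift_smul, lift_inj.eq_iff, lift_inj.eq_iff]

theorem lift_sep {e : (Z.q K).D} {x y : W} :
    Sep (Z.q K).T e.p (qp K x) (qp K y) ↔ Sep Z.T (lift e).p x y := by
  obtain ⟨h0, h1, h2⟩ := lift_spec e
  have a1 := q_btw h0 (x := y)
  have a2 := q_btw (d := (lift e).rev) ((D.cl_rev (lift e)).symm ▸ h0) (x := x)
  rw [D.rev_o, D.rev_t] at a2
  rw [h1, h2] at a1 a2
  exact ⟨fun h => ⟨(lift e).adj, (a2.1 h.2.1.symm).symm, a1.1 h.2.2⟩,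
    fun h => ⟨e.adj, (a2.2 h.2.1.symm).symm, a1.2 h.2.2⟩⟩

/-- The class of kept edges over a class of the collapse. -/
noncomputable def qι : (Z.q K).EO → Z.EO :=
  Quotient.lift (fun e => (lift e).cl) fun _ _ h => lift_cl.2 (Quotient.sound h)

theorem qι_cl (e : (Z.q K).D) : qι e.cl = (lift e).cl := rfl

theorem qι_inj : Function.Injective (qι : (Z.q K).EO → Z.EO) := by
  intro c c' h
  obtain ⟨e, rfl⟩ := cl_surj c
  obtain ⟨e', rfl⟩ := cl_surj c'
  exact lift_cl.1 h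

theorem qι_map : Finset.univ.map ⟨qι (K := K), qι_inj⟩ = K := by
  ext c
  simp only [Finset.mem_map, Finset.mem_univ, true_and, Function.Embedding.coeFn_mk]
  constructor
  · rintro ⟨c', rfl⟩
    obtain ⟨e, rfl⟩ := cl_surj c'
    exact (lift_spec e).1
  · intro hc
    obtain ⟨d, rfl⟩ := cl_surj c
    obtain ⟨e, rfl⟩ := lift_surj hc
    exact ⟨e.cl, rfl⟩

theorem q_card : Fintype.card (Z.q K).EO = K.card := by
  conv_rhs => rw [← qι_map (K := K)]
  rw [Finset.card_map, Finset.card_univ]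

theorem q_cr (x y : W) (c : (Z.q K).EO) :
    (Z.q K).cr (qp K x) (qp K y) c = Z.cr x y (qι c) := by
  unfold cr
  rw [← Set.ncard_image_of_injective _ lift_inj]
  congr 1
  obtain ⟨e0, rfl⟩ := cl_surj c
  ext d
  constructor
  · rintro ⟨e, ⟨h1, h2⟩, rfl⟩
    exact ⟨lift_sep.1 h1, lift_cl.2 h2⟩
  · rintro ⟨h1, h2⟩
    obtain ⟨e, rfl⟩ := lift_surj (d := d) (K := K) (h2 ▸ (lift_spec e0).1)
    exact ⟨e, ⟨lift_sep.2 h1, lift_cl.1 h2⟩, rfl⟩

theorem q_L (u : Z.EO → ℝ) (x y : W) :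
    (Z.q K).L (fun c => u (qι c)) (qp K x) (qp K y) = ∑ c ∈ K, (Z.cr x y c : ℝ) * u c := by
  conv_rhs => rw [← qι_map (K := K)]
  rw [Finset.sum_map]
  simp only [L, q_cr, Function.Embedding.coeFn_mk]

end Spl

variable {W : Type} [MulAction G W] {Z : Spl S W}

theorem TMap.krel (h : TMap Z) {K : Finset Z.EO}
    (hK : ∀ d : Z.D, d.cl ∉ K → Z.KRel K (h.f d.o) (h.f d.t)) {x y : W} (H : Z.KRel K x y) :
    Z.KRel K (h.f x) (h.f y) :=
  H.ind (R := fun x y => Z.KRel K (h.f x) (h.f y)) (fun _ => Spl.KRel.refl _)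
    (fun _ _ _ => Spl.KRel.trans) hK

/-- The collapse of a pair. -/
theorem quot (h : TMap Z) (K : Finset Z.EO)
    (hK : ∀ d : Z.D, d.cl ∉ K → Z.KRel K (h.f d.o) (h.f d.t))
    (hnf : ∀ x, ¬ ∀ g ∈ stabilizer G (Z.ν x), Z.KRel K x (g • x))
    {u : Z.EO → ℝ} (hu : ∀ c, 0 < u c) {a : ℝ}
    (hl : ∀ d : Z.D, d.cl ∈ K → ∑ c ∈ K, (Z.cr (h.f d.o) (h.f d.t) c : ℝ) * u c ≤ a * u d.cl) :
    ∃ A : Adm S, A.E = K.card ∧ ∃ v, A.φ.Lip v a := by
  let φ : TMap (Z.q K) := {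
    f := Quotient.map h.f fun _ _ H => h.krel hK H
    smul := fun g x => by
      obtain ⟨y, rfl⟩ := Spl.qp_surj x
      exact congrArg (Spl.qp K) (h.smul g y)
    ν_f := fun a x hx => by
      obtain ⟨y, rfl⟩ := Spl.qp_surj x
      exact h.ν_f a y hx }
  have hφ : ∀ x, φ.f (Spl.qp K x) = Spl.qp K (h.f x) := fun _ => rfl
  have hN : (Z.q K).NoFix := by
    intro x hx
    obtain ⟨y, rfl⟩ := Spl.qp_surj x
    exact hnf y fun g hg => (Spl.qp_eq.1 (hx hg)).symm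
  refine ⟨⟨Z.QW K, Z.q K, φ, hN⟩, Spl.q_card, fun c => u (Spl.qι c), ?_⟩
  rw [TMap.lip_iff]
  refine ⟨fun c => hu _, fun e => ?_⟩
  obtain ⟨h0, h1, h2⟩ := Spl.lift_spec e
  show (Z.q K).L _ (φ.f e.o) (φ.f e.t) ≤ _
  rw [← h1, ← h2, hφ, hφ, Spl.q_L]
  exact hl _ h0

/-- The collapse along a retraction. -/
theorem quot_retr (hZ : Z.NoFix) (φ : TMap Z) (K : Finset Z.EO) (ρ : W → W)
    (h1 : ∀ (g : G) x, ρ (g • x) = g • ρ x) (h2 : ∀ x, Z.ν (ρ x) = Z.ν x)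
    (h3 : ∀ d : Z.D, d.cl ∉ K → ρ d.o = ρ d.t)
    {u : Z.EO → ℝ} (hu : ∀ c, 0 < u c) {a : ℝ}
    (hl : ∀ d : Z.D, d.cl ∈ K →
      ∑ c ∈ K, (Z.cr (φ.f (ρ d.o)) (φ.f (ρ d.t)) c : ℝ) * u c ≤ a * u d.cl) :
    ∃ A : Adm S, A.E = K.card ∧ ∃ v, A.φ.Lip v a := by
  refine quot (φ.comp ρ id h1 (fun _ _ => rfl) h2 fun _ => rfl) K (fun d hd => ?_)
    (fun x hx => hZ (ρ x) fun g hg => ?_) hu hl
  · show Z.KRel K (φ.f (ρ d.o)) (φ.f (ρ d.t))
    rw [h3 d hd]
    exact Spl.KRel.refl _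
  · rw [h2] at hg
    rw [mem_stabilizer_iff, ← h1]
    exact ((hx g hg).ind (R := fun x y => ρ x = ρ y) (fun _ => rfl) (fun _ _ _ => Eq.trans) h3).symm

end CPOR
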