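import Pool.Agent.P.MP_2cb329_al.F.T6

/-! Theorem F: basic facts on systems and the constants of arrows. -/

set_option autoImplicit false

namespace CPOR
open ZT MulAction

namespace Sys

variable {G : Type} [Group G] {N : Type} [MulAction G N] (S : Sys G N)

theorem ft : FT S.B G := { S.gf with free := S.free, lf := S.lf }

variable {S}

theorem Cl.reach {r : ℕ} {x y : S.V} (h : S.Cl r x y) : S.B.Reachable x y := (S.nd_eq x y).1 h.1

theorem cl_refl (r : ℕ) (x : S.V) : S.Cl r x x := by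
  exact ⟨rfl, by rw [SimpleGraph.dist_self]; exact Nat.zero_le _⟩

theorem Cl.symm {r : ℕ} {x y : S.V} (h : S.Cl r x y) : S.Cl r y x := by
  exact ⟨h.1.symm, by rw [SimpleGraph.dist_comm]; exact h.2⟩

theorem Cl.trans {r r' : ℕ} {x y z : S.V} (h : S.Cl r x y) (h' : S.Cl r' y z) :
    S.Cl (r + r') x z := by
  exact ⟨h.1.trans h'.1, (dist_tri h.reach h'.reach).trans (Nat.add_le_add h.2 h'.2)⟩

theorem Cl.mono {r r' : ℕ} {x y : S.V} (h : S.Cl r x y) (hr : r ≤ r') : S.Cl r' x y := by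
  exact ⟨h.1, h.2.trans hr⟩

theorem Cl.smul {r : ℕ} {x y : S.V} (h : S.Cl r x y) (g : G) : S.Cl r (g • x) (g • y) := by
  exact ⟨by rw [S.nd_smul, S.nd_smul, h.1], by rw [S.gf.acts.dist]; exact h.2⟩

theorem cl_smul_iff {r : ℕ} {x y : S.V} (g : G) : S.Cl r (g • x) (g • y) ↔ S.Cl r x y := by
  refine ⟨fun h => ?_, fun h => h.smul g⟩
  have := h.smul g⁻¹
  rwa [inv_smul_smul, inv_smul_smul] at this

theorem cl_dist {x y : S.V} (h : S.nd x = S.nd y) : S.Cl (S.B.dist x y) x y := ⟨h, le_rfl⟩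

theorem nd_of_btw {x y z : S.V} (h : Btw S.B x y z) : S.nd x = S.nd y ∧ S.nd y = S.nd z := by
  exact ⟨(S.nd_eq x y).2 h.1, (S.nd_eq y z).2 h.2.1⟩

theorem pres_of_le {K : Subgroup G} {v : N} (h : K ≤ stabilizer G v) {c : S.V} (hc : S.nd c = v) :
    Pres S.B K c := by
  intro k hk
  refine (S.nd_eq _ _).1 ?_
  rw [S.nd_smul, hc]
  exact (mem_stabilizer_iff.1 (h hk)).symm

theorem stab_le_src (a : S.A) : stabilizer G a ≤ stabilizer G (S.src a) := by
  intro g hg
  rw [mem_stabilizer_iff] at hg ⊢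
  rw [← S.src_smul, hg]

theorem stab_le_tgt (a : S.A) : stabilizer G a ≤ stabilizer G (S.tgt a) := by
  intro g hg
  rw [mem_stabilizer_iff] at hg ⊢
  rw [← S.tgt_smul, hg]

variable (S)

theorem finA : FinOrb (⊤ : Subgroup G) (Set.univ : Set S.A) := by
  have := S.finP.image S.arr (fun k _ x _ _ => S.arr_smul k x)
  rwa [Set.image_univ, S.arr_surj.range_eq] at this

include S in
theorem finN : FinOrb (⊤ : Subgroup G) (Set.univ : Set N) := by
  have := S.finV.image S.nd (fun k _ x _ _ => S.nd_smul k x)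
  rwa [Set.image_univ, S.nd_surj.range_eq] at this

theorem freeP (g : G) (p : S.P) (h : g • p = p) : g = 1 := by
  refine S.free g (S.s p) ?_
  rw [← S.s_smul, h]

theorem kc_node (v : N) : KC S.B (stabilizer G v) {x | S.nd x = v} := by
  have hV : FinOrb (stabilizer G v) {x | S.nd x = v} := by
    have := S.finV.fibre (fun _ _ _ _ => Set.mem_univ _) S.nd (fun k _ x _ => S.nd_smul k x) v
    rw [top_inf_eq] at this
    exact this.mono fun x hx => ⟨Set.mem_univ _, hx⟩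
  refine ⟨⟨S.nd_surj v, fun x hx z hz => ⟨(S.nd_eq x z).1 (hx.trans hz.symm), fun y hy => ?_⟩,
    fun k hk x hx => ?_⟩, hV, S.ft.finOrb_darts hV⟩
  · exact (nd_of_btw hy).1.symm.trans hx
  · change S.nd (k • x) = v
    rw [S.nd_smul, hx]
    exact mem_stabilizer_iff.1 hk

include S in
theorem node_fg (v : N) : (stabilizer G v).FG := by
  exact S.ft.fg_of_finOrb (S.kc_node v).toKT (S.kc_node v).finV

theorem finOrb_points (a : S.A) : FinOrb (stabilizer G a) {p | S.arr p = a} := by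
  have := S.finP.fibre (fun _ _ _ _ => Set.mem_univ _) S.arr (fun k _ x _ => S.arr_smul k x) a
  rw [top_inf_eq] at this
  exact this.mono fun x hx => ⟨Set.mem_univ _, hx⟩

include S in
theorem howson {v : N} {K K' : Subgroup G} (hK : K.FG) (hK' : K'.FG) (h : K ≤ stabilizer G v)
    (h' : K' ≤ stabilizer G v) : (K ⊓ K').FG := by
  obtain ⟨c, hc⟩ := S.nd_surj v
  exact S.ft.howson hK hK' (pres_of_le h hc) (pres_of_le h' hc)

include S in
theorem one_le_beta {v : N} {K : Subgroup G} (hK : K.FG) (h : K ≤ stabilizer G v) (hne : K ≠ ⊥) :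
    1 ≤ beta K := by
  obtain ⟨c, hc⟩ := S.nd_surj v
  exact S.ft.one_le_beta hK hne (pres_of_le h hc)

include S in
theorem nc_iff {v : N} {K : Subgroup G} (hK : K.FG) (h : K ≤ stabilizer G v) :
    ¬ IsCyclic K ↔ 2 ≤ beta K := by
  obtain ⟨c, hc⟩ := S.nd_surj v
  rw [S.ft.isCyclic_iff hK (pres_of_le h hc)]
  omega

include S in
theorem eq_one_of_zpow {v : N} {g : G} (h : g • v = v) {n : ℤ} (hn : n ≠ 0) (hg : g ^ n = 1) :
    g = 1 := by
  obtain ⟨c, hc⟩ := S.nd_surj v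
  refine S.ft.eq_one_of_zpow (x := c) ((S.nd_eq _ _).1 ?_) hn hg
  rw [S.nd_smul, hc, h]

include S in
/-- A vertex group of full rank in any splitting is the whole group. -/
theorem le_stab_of_beta_le {v : N} {K : Subgroup G} (hK : K.FG) (h : K ≤ stabilizer G v)
    {W : Type} [MulAction G W] {T : SimpleGraph W} (hG : GF T G) {y : W} (hy : Pres T K y)
    (hb : beta K ≤ beta (K ⊓ stabilizer G y)) : K ≤ stabilizer G y := by
  refine CPOR.le_stab_of_beta_le hG hK hy (fun x hx hne => ?_) hb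
  exact S.one_le_beta (fg_inf_stab hG hK (hy.of_reach hG.acts hx)) (inf_le_left.trans h) hne

theorem min_eq {K : Subgroup G} {v : N} {c : S.V} (hc : S.nd c = v) :
    S.Min K v = MinT S.B K c := by
  ext p
  refine and_congr_left fun _ => ?_
  rw [← S.nd_eq, hc, eq_comm]

theorem kc_min {K : Subgroup G} {v : N} (hK : K.FG) (h : K ≤ stabilizer G v) (hne : K ≠ ⊥) :
    KC S.B K (S.Min K v) ∧ Leafless S.B (S.Min K v) := by
  obtain ⟨c, hc⟩ := S.nd_surj v
  rw [S.min_eq hc]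
  exact ⟨S.ft.kc_minT hK hne (pres_of_le h hc), leafless_minT S.gf c⟩

/-- Balls and point balls have bounded size. -/
theorem ball_bound : ∃ F, Bd F ∧ ∀ r x, {y | S.Cl r x y}.Finite ∧ {y | S.Cl r x y}.ncard ≤ F r ∧
    {p | S.Cl r x (S.s p)}.Finite ∧ {p | S.Cl r x (S.s p)}.ncard ≤ F r ∧
    {p | S.Cl r x (S.t p)}.Finite ∧ {p | S.Cl r x (S.t p)}.ncard ≤ F r := by
  obtain ⟨D, hD⟩ := S.ft.ball_card S.finV
  obtain ⟨F, hF, hcov⟩ := S.finP
  have key : ∀ σ : S.P → S.V, (∀ (g : G) p, σ (g • p) = g • σ p) → ∀ Y : Set S.V, Y.Finite →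
      {p | σ p ∈ Y}.Finite ∧ {p | σ p ∈ Y}.ncard ≤ Y.ncard * F.ncard := by
    intro σ hσ Y hY
    choose k _ hk using fun p => hcov p (Set.mem_univ p)
    have hm : Set.MapsTo (fun p => (σ p, k p • p)) {p | σ p ∈ Y} (Y ×ˢ F) :=
      fun p hp => ⟨hp, hk p⟩
    have hi : Set.InjOn (fun p => (σ p, k p • p)) {p | σ p ∈ Y} := by
      intro p _ q _ h
      obtain ⟨h1, h2⟩ := Prod.mk.inj h
      have h3 : k p • σ p = k q • σ p := by
        rw [← hσ, h2, hσ, h1]
      have h4 : (k q)⁻¹ * k p = 1 := S.free _ (σ p) (by rw [mul_smul, h3, inv_smul_smul])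
      rw [inv_mul_eq_one] at h4
      rw [h4] at h2
      exact smul_left_cancel _ h2
    refine ⟨Set.Finite.of_injOn hm hi (hY.prod hF), ?_⟩
    rw [← Set.ncard_prod]
    exact Set.ncard_le_ncard_of_injOn _ hm hi (hY.prod hF)
  refine ⟨fun r => (D + 1) ^ r * (F.ncard + 1),
    ((Bd.const D).pow Bd.id).mul (Bd.const _), fun r x => ?_⟩
  have e : {y | S.Cl r x y} = {y | S.B.Reachable x y ∧ S.B.dist x y ≤ r} := by
    ext y
    exact and_congr_left fun _ => S.nd_eq x y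
  have h1 : {y | S.Cl r x y}.Finite := e ▸ S.ft.ball_finite x r
  have h2 : {y | S.Cl r x y}.ncard ≤ (D + 1) ^ r := e ▸ hD x r
  obtain ⟨a1, a2⟩ := key S.s S.s_smul _ h1
  obtain ⟨b1, b2⟩ := key S.t S.t_smul _ h1
  have h3 : {y | S.Cl r x y}.ncard * F.ncard ≤ (D + 1) ^ r * (F.ncard + 1) :=
    Nat.mul_le_mul h2 (Nat.le_succ _)
  exact ⟨h1, h2.trans (Nat.le_mul_of_pos_right _ (Nat.succ_pos _)), a1, a2.trans h3, b1,
    b2.trans h3⟩

variable {S}

end Sys

end CPOR
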