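import Pool.Agent.P.MP_2cb329_al.F.S1

/-! Theorem F: windows, chains, threads, constants of arrows. -/

set_option autoImplicit false

namespace CPOR
open ZT MulAction

namespace Sys

variable {G : Type} [Group G] {N : Type} [MulAction G N] {S : Sys G N}

theorem mem_fix {a : ℤ → S.A} {i j : ℤ} {g : G} :
    g ∈ S.Fix a i j ↔ ∀ l, i ≤ l → l < j → g • a l = a l := by
  simp only [Fix, Subgroup.mem_iInf, Set.mem_Ico, mem_stabilizer_iff, and_imp]

theorem fix_mono {a : ℤ → S.A} {i j i' j' : ℤ} (hi : i ≤ i') (hj : j' ≤ j) :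
    S.Fix a i j ≤ S.Fix a i' j' := by
  intro g hg
  rw [mem_fix] at hg ⊢
  intro l h1 h2
  exact hg l (by omega) (by omega)

theorem fix_congr {a a' : ℤ → S.A} {i j c : ℤ} (h : ∀ l, i ≤ l → l < j → a l = a' (l + c)) :
    S.Fix a i j = S.Fix a' (i + c) (j + c) := by
  ext g
  rw [mem_fix, mem_fix]
  constructor
  · intro H l h1 h2
    have e := h (l - c) (by omega) (by omega)
    rw [sub_add_cancel] at e
    rw [← e]
    exact H _ (by omega) (by omega)
  · intro H l h1 h2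
    rw [h l h1 h2]
    exact H _ (by omega) (by omega)

theorem fix_smul {a a' : ℤ → S.A} {i j c : ℤ} {g : G}
    (h : ∀ l, i ≤ l → l < j → g • a l = a' (l + c)) :
    (S.Fix a i j).map (MulAut.conj g).toMonoidHom = S.Fix a' (i + c) (j + c) := by
  ext x
  rw [Subgroup.mem_map]
  constructor
  · rintro ⟨y, hy, rfl⟩
    rw [mem_fix] at hy ⊢
    intro l h1 h2
    have e := h (l - c) (by omega) (by omega)
    rw [sub_add_cancel] at e
    rw [← e]
    show (g * y * g⁻¹) • g • a (l - c) = _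
    rw [mul_smul, inv_smul_smul, mul_smul, hy _ (by omega) (by omega)]
  · intro hx
    refine ⟨g⁻¹ * x * g, ?_, ?_⟩
    · rw [mem_fix] at hx ⊢
      intro l h1 h2
      rw [mul_smul, mul_smul, h l h1 h2, hx _ (by omega) (by omega), ← h l h1 h2, inv_smul_smul]
    · show g * (g⁻¹ * x * g) * g⁻¹ = x
      group

theorem fix_single (a : ℤ → S.A) (i : ℤ) : S.Fix a i (i + 1) = stabilizer G (a i) := by
  ext g
  rw [mem_fix, mem_stabilizer_iff]
  constructor
  · intro H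
    exact H i le_rfl (by omega)
  · intro H l h1 h2
    obtain rfl : l = i := by omega
    exact H

theorem fix_succ {a : ℤ → S.A} {i j : ℤ} (h : i ≤ j) :
    S.Fix a i (j + 1) = S.Fix a i j ⊓ stabilizer G (a j) := by
  ext g
  rw [Subgroup.mem_inf, mem_fix, mem_fix, mem_stabilizer_iff]
  constructor
  · intro H
    exact ⟨fun l h1 h2 => H l h1 (by omega), H j h (by omega)⟩
  · rintro ⟨H, H'⟩ l h1 h2
    by_cases hl : l = j
    · rw [hl]; exact H'
    · exact H l h1 (by omega)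

theorem fix_pred {a : ℤ → S.A} {i j : ℤ} (h : i < j) :
    S.Fix a i j = S.Fix a (i + 1) j ⊓ stabilizer G (a i) := by
  ext g
  rw [Subgroup.mem_inf, mem_fix, mem_fix, mem_stabilizer_iff]
  constructor
  · intro H
    exact ⟨fun l h1 h2 => H l (by omega) h2, H i le_rfl h⟩
  · rintro ⟨H, H'⟩ l h1 h2
    by_cases hl : l = i
    · rw [hl]; exact H'
    · exact H l (by omega) h2

theorem fix_le_src {a : ℤ → S.A} {i j l : ℤ} (h1 : i ≤ l) (h2 : l < j) :
    S.Fix a i j ≤ stabilizer G (S.src (a l)) := by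
  intro g hg
  exact stab_le_src (a l) (mem_fix.1 hg l h1 h2)

theorem fix_le_tgt {a : ℤ → S.A} {i j l : ℤ} (h1 : i ≤ l) (h2 : l < j) :
    S.Fix a i j ≤ stabilizer G (S.tgt (a l)) := by
  intro g hg
  exact stab_le_tgt (a l) (mem_fix.1 hg l h1 h2)

theorem IsPath.mono {a : ℤ → S.A} {i j i' j' : ℤ} (h : S.IsPath a i j) (hi : i ≤ i') (hj : j' ≤ j) :
    S.IsPath a i' j' := by
  intro l h1 h2
  exact h l (by omega) (by omega)

theorem fix_fg {a : ℤ → S.A} {i j : ℤ} (hij : i < j) (h : S.IsPath a i j) : (S.Fix a i j).FG := by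
  have key : ∀ n : ℕ, S.IsPath a i (i + n + 1) → (S.Fix a i (i + n + 1)).FG := by
    intro n
    induction n with
    | zero =>
      intro _
      simp only [Nat.cast_zero, add_zero]
      rw [fix_single]
      exact S.fg _
    | succ n ih =>
      intro hp
      have e : i + ((n + 1 : ℕ) : ℤ) = i + n + 1 := by push_cast; ring
      rw [e] at hp ⊢
      rw [fix_succ (by omega)]
      have h1 := ih (hp.mono le_rfl (by omega))
      have h2 := hp (i + n) (by omega) (by omega)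
      refine S.howson (v := S.src (a (i + n + 1))) h1 (S.fg _) ?_ (stab_le_src _)
      rw [← h2]
      exact fix_le_tgt (by omega) (by omega)
  have e : j = i + ((j - i - 1).toNat : ℤ) + 1 := by omega
  rw [e] at h ⊢
  exact key _ h

theorem Chain.path {L : ℕ} {p : ℤ → S.P} {i j : ℤ} (h : S.Chain L p i j) :
    S.IsPath (fun l => S.arr (p l)) i j := by
  intro l h1 h2
  have := (h l h1 h2).1
  rwa [S.nd_t, S.nd_s] at this

theorem Chain.mono {L L' : ℕ} {p : ℤ → S.P} {i j i' j' : ℤ} (h : S.Chain L p i j) (hL : L ≤ L')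
    (hi : i ≤ i') (hj : j' ≤ j) : S.Chain L' p i' j' := by
  intro l h1 h2
  exact (h l (by omega) (by omega)).mono hL

theorem Chain.smul {L : ℕ} {p : ℤ → S.P} {i j : ℤ} (h : S.Chain L p i j) (g : G) :
    S.Chain L (fun l => g • p l) i j := by
  intro l h1 h2
  have := (h l h1 h2).smul g
  rwa [← S.t_smul, ← S.s_smul] at this

theorem Thread.chain {L k : ℕ} {u : G} {p : ℤ → S.P} (h : S.Thread L k u p) (i j : ℤ) :
    S.Chain L p i j := by
  intro l _ _
  exact h.ch l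

theorem Thread.mono {L L' k : ℕ} {u : G} {p : ℤ → S.P} (h : S.Thread L k u p) (hL : L ≤ L') :
    S.Thread L' k u p := by
  exact ⟨h.pos, h.le.trans hL, h.per, fun i => (h.ch i).mono hL⟩

theorem Thread.shift {L k : ℕ} {u : G} {p : ℤ → S.P} (h : S.Thread L k u p) (c : ℤ) :
    S.Thread L k u (fun i => p (i + c)) := by
  refine ⟨h.pos, h.le, fun i => ?_, fun i => ?_⟩
  · have := h.per (i + c)
    rwa [show i + c + k = i + k + c by ring] at this
  · have := h.ch (i + c)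
    rwa [show i + c + 1 = i + 1 + c by ring] at this

theorem Thread.smul {L k : ℕ} {u : G} {p : ℤ → S.P} (h : S.Thread L k u p) (g : G) :
    S.Thread L k (g * u * g⁻¹) (fun i => g • p i) := by
  refine ⟨h.pos, h.le, fun i => ?_, fun i => ?_⟩
  · show g • p (i + k) = (g * u * g⁻¹) • g • p i
    rw [mul_smul, inv_smul_smul, mul_smul, h.per]
  · have := (h.ch i).smul g
    rwa [← S.t_smul, ← S.s_smul] at this

theorem Thread.zpow {L k : ℕ} {u : G} {p : ℤ → S.P} (h : S.Thread L k u p) (j i : ℤ) :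
    p (i + j * k) = u ^ j • p i := by
  induction j using Int.induction_on generalizing i with
  | zero => simp
  | succ n ih =>
    rw [zpow_add_one, mul_smul, ← h.per, ← ih]
    congr 1
    ring
  | pred n ih =>
    have e := h.per (i - k)
    rw [sub_add_cancel] at e
    rw [zpow_sub_one, mul_smul, e, inv_smul_smul, ← ih]
    congr 1
    ring

theorem Thread.pow {L k : ℕ} {u : G} {p : ℤ → S.P} (h : S.Thread L k u p) {m : ℕ} (hm : 1 ≤ m) :
    S.Thread (L * m) (k * m) (u ^ m) p := by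
  have hk := h.pos
  have hl := h.le
  refine ⟨Nat.mul_pos hk hm, Nat.mul_le_mul_right m hl, fun i => ?_, fun i => ?_⟩
  · have := h.zpow m i
    rw [zpow_natCast] at this
    rw [← this]
    congr 1
    push_cast
    ring
  · exact (h.ch i).mono (Nat.le_mul_of_pos_right L hm)

/-- A `u`-periodic choice. -/
theorem exists_periodic {X : Type} [MulAction G X] {k : ℕ} (hk : 1 ≤ k) (u : G) (Q : ℤ → X → Prop)
    (hQ : ∀ i x, Q i x ↔ Q (i + k) (u • x)) (hex : ∀ i, ∃ x, Q i x) :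
    ∃ q : ℤ → X, (∀ i, Q i (q i)) ∧ ∀ i : ℤ, q (i + k) = u • q i := by
  choose x hx using hex
  have key : ∀ (m i : ℤ) (y : X), Q i y ↔ Q (i + m * k) (u ^ m • y) := by
    intro m
    induction m using Int.induction_on with
    | zero => intro i y; simp
    | succ n ih =>
      intro i y
      rw [hQ, ih, zpow_add_one, mul_smul, show i + (k : ℤ) + n * k = i + (n + 1) * k by ring]
    | pred n ih =>
      intro i y
      have e := hQ (i - k) (u⁻¹ • y)
      rw [sub_add_cancel, smul_inv_smul] at e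
      rw [← e, ih, zpow_sub_one, mul_smul, show i - (k : ℤ) + -n * k = i + (-n - 1) * k by ring]
  have hk0 : (k : ℤ) ≠ 0 := by omega
  refine ⟨fun i => u ^ (i / k) • x (i % k), fun i => ?_, fun i => ?_⟩
  · have := (key (i / k) (i % k) _).1 (hx (i % k))
    rwa [show i % k + i / k * k = i by rw [mul_comm]; exact Int.emod_add_mul_ediv i k] at this
  · show u ^ ((i + k) / k) • x ((i + k) % k) = u • u ^ (i / k) • x (i % k)
    rw [Int.add_emod_right, Int.add_ediv_of_dvd_right (dvd_refl _), Int.ediv_self hk0,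
      add_comm, zpow_add, zpow_one, mul_smul]

theorem TL.mono {L L' : ℕ} {x : G} {v : N} (h : S.TL L x v) (hL : L ≤ L') : S.TL L' x v := by
  obtain ⟨p, hp, h⟩ := h
  exact ⟨p, hp, h.mono hL⟩

theorem TL.smul {L : ℕ} {x : G} {v : N} (h : S.TL L x v) (g : G) :
    S.TL L (g * x * g⁻¹) (g • v) := by
  obtain ⟨p, hp, h⟩ := h
  refine ⟨g • p, by rw [S.nd_smul, hp], ?_⟩
  have := h.smul g
  rwa [mul_smul, inv_smul_smul, mul_smul]

/-- A root moves points less than its powers. -/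
theorem Cl.of_zpow {L : ℕ} {c : G} {n : ℤ} (hn : n ≠ 0) {p : S.V} (hc : c • S.nd p = S.nd p)
    (h : S.Cl L p (c ^ n • p)) : S.Cl L p (c • p) := by
  have e : S.nd p = S.nd (c • p) := by rw [S.nd_smul, hc]
  exact ⟨e, (S.ft.disp_le_zpow ((S.nd_eq _ _).1 e) hn).trans h.2⟩

variable (S)

theorem s1b_arr_smul_of {a : S.A} {p : S.P} (hp : S.arr p = a) {k : G} (hk : k ∈ stabilizer G a) :
    S.arr (k • p) = a := by
  rw [S.arr_smul, hp]
  exact hk

theorem s1b_pres_s {a : S.A} {p : S.P} (hp : S.arr p = a) : Pres S.B (stabilizer G a) (S.s p) :=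
  pres_of_le (stab_le_src a) (by rw [S.nd_s, hp])

theorem s1b_pres_t {a : S.A} {p : S.P} (hp : S.arr p = a) : Pres S.B (stabilizer G a) (S.t p) :=
  pres_of_le (stab_le_tgt a) (by rw [S.nd_t, hp])

theorem s1b_nd_s_eq {p q : S.P} (h : S.arr p = S.arr q) : S.nd (S.s p) = S.nd (S.s q) := by
  rw [S.nd_s, S.nd_s, h]

theorem s1b_nd_t_eq {p q : S.P} (h : S.arr p = S.arr q) : S.nd (S.t p) = S.nd (S.t q) := by
  rw [S.nd_t, S.nd_t, h]

/-- All points of an arrow are close to one orbit. -/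
theorem s1b_base_pt {a : S.A} {p0 : S.P} (h0 : S.arr p0 = a) : ∃ E : ℕ, ∀ p, S.arr p = a →
    ∃ k ∈ stabilizer G a, S.Cl E (S.s p) (k • S.s p0) ∧ S.Cl E (S.t p) (k • S.t p0) := by
  obtain ⟨E, hE⟩ := (S.finOrb_points a).bound
    (fun p c => ∃ k ∈ stabilizer G a, S.Cl c (S.s p) (k • S.s p0) ∧ S.Cl c (S.t p) (k • S.t p0))
    (by
      rintro p - c c' hc ⟨k, hk, h1, h2⟩
      exact ⟨k, hk, h1.mono hc, h2.mono hc⟩)
    (by
      rintro g hg p - c - ⟨k, hk, h1, h2⟩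
      refine ⟨g * k, mul_mem hg hk, ?_, ?_⟩
      · rw [S.s_smul, mul_smul]; exact h1.smul g
      · rw [S.t_smul, mul_smul]; exact h2.smul g)
    (by
      intro p hp
      have e : S.arr p = S.arr p0 := by rw [h0]; exact hp
      refine ⟨S.B.dist (S.s p) (S.s p0) + S.B.dist (S.t p) (S.t p0), 1, one_mem _, ?_, ?_⟩
      · rw [one_smul]; exact (cl_dist (S.s1b_nd_s_eq e)).mono (Nat.le_add_right _ _)
      · rw [one_smul]; exact (cl_dist (S.s1b_nd_t_eq e)).mono (Nat.le_add_left _ _))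
  exact ⟨E, fun p hp => hE p hp⟩

theorem s1b_btw_near {x y z x' z' : S.V} {c : ℕ} (h : Btw S.B x y z) (h1 : S.Cl c x x')
    (h2 : S.Cl c z z') : ∃ y', Btw S.B x' y' z' ∧ S.Cl c y y' := by
  obtain ⟨y', hy, hr, hd⟩ := h.near S.gf.acyc h1.reach h2.reach h1.2 h2.2
  exact ⟨y', hy, (S.nd_eq _ _).2 hr, hd⟩

theorem s1b_btw_inv {x y z : S.V} (g : G) (h : Btw S.B x y z) :
    Btw S.B (g • x) (g • y) (g • z) := S.gf.acts.btw g h

theorem s1b_const1 : ∃ C : ℕ, ∀ p q : S.P, S.arr p = S.arr q →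
    ∀ z, Btw S.B (S.s p) z (S.s q) → ∃ r, S.arr r = S.arr p ∧ S.Cl C z (S.s r) := by
  obtain ⟨C, hC⟩ := S.finA.bound
    (fun a c => ∀ p q : S.P, S.arr p = a → S.arr q = a →
      ∀ z, Btw S.B (S.s p) z (S.s q) → ∃ r, S.arr r = a ∧ S.Cl c z (S.s r))
    (by
      intro a _ c c' hc H p q hp hq z hz
      obtain ⟨r, hr, h⟩ := H p q hp hq z hz
      exact ⟨r, hr, h.mono hc⟩)
    (by
      intro g _ a _ c _ H p q hp hq z hz
      have hz' := S.s1b_btw_inv g⁻¹ hz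
      rw [← S.s_smul, ← S.s_smul] at hz'
      obtain ⟨r, hr, h⟩ := H (g⁻¹ • p) (g⁻¹ • q) (by rw [S.arr_smul, hp, inv_smul_smul])
        (by rw [S.arr_smul, hq, inv_smul_smul]) _ hz'
      refine ⟨g • r, by rw [S.arr_smul, hr], ?_⟩
      have := h.smul g
      rwa [smul_inv_smul, ← S.s_smul] at this)
    (by
      intro a _
      obtain ⟨p0, h0⟩ := S.arr_surj a
      obtain ⟨E, hE⟩ := S.s1b_base_pt h0
      have hX := kc_hull S.gf (S.fg a) (S.s1b_pres_s h0)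
      obtain ⟨C1, h1⟩ := hX.cobdd S.gf (p := S.s p0) (subset_hull _ (mem_orb_self _))
        (SimpleGraph.Reachable.refl _)
      refine ⟨E + C1, fun p q hp hq z hz => ?_⟩
      obtain ⟨k, hk, hk1, -⟩ := hE p hp
      obtain ⟨k', hk', hk1', -⟩ := hE q hq
      obtain ⟨z', hz', hc⟩ := S.s1b_btw_near hz hk1 hk1'
      obtain ⟨k'', hk'', hd⟩ := h1 z' ⟨_, ⟨k, hk, rfl⟩, _, ⟨k', hk', rfl⟩, hz'⟩
      refine ⟨k'' • p0, S.s1b_arr_smul_of h0 hk'', hc.trans ⟨?_, ?_⟩⟩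
      · rw [← (nd_of_btw hz').1, ← S.s_smul]
        exact S.s1b_nd_s_eq (by rw [S.s1b_arr_smul_of h0 hk, S.s1b_arr_smul_of h0 hk''])
      · rw [S.s_smul]; exact hd)
  exact ⟨C, fun p q h z hz => hC _ trivial p q rfl h.symm z hz⟩

theorem s1b_const3 : ∃ C : ℕ, ∀ p q : S.P, S.arr p = S.arr q →
    ∀ D, S.Cl D (S.s p) (S.s q) → S.Cl (C * (D + 1)) (S.t p) (S.t q) := by
  obtain ⟨C, hC⟩ := S.finA.bound
    (fun a c => ∀ p q : S.P, S.arr p = a → S.arr q = a →
      ∀ D, S.Cl D (S.s p) (S.s q) → S.Cl (c * (D + 1)) (S.t p) (S.t q))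
    (by
      intro a _ c c' hc H p q hp hq D hD
      exact (H p q hp hq D hD).mono (Nat.mul_le_mul_right _ hc))
    (by
      intro g _ a _ c _ H p q hp hq D hD
      have hz' := hD.smul g⁻¹
      rw [← S.s_smul, ← S.s_smul] at hz'
      have h := H (g⁻¹ • p) (g⁻¹ • q) (by rw [S.arr_smul, hp, inv_smul_smul])
        (by rw [S.arr_smul, hq, inv_smul_smul]) _ hz'
      rwa [S.t_smul, S.t_smul, cl_smul_iff] at h)
    (by
      intro a _
      obtain ⟨p0, h0⟩ := S.arr_surj a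
      obtain ⟨E, hE⟩ := S.s1b_base_pt h0
      obtain ⟨C1, h1⟩ := S.ft.lip S.gf.acts (S.fg a) (S.s1b_pres_s h0) (S.s1b_pres_t h0)
      refine ⟨2 * E + C1 * (2 * E + 1), fun p q hp hq D hD => ?_⟩
      obtain ⟨k, hk, hk1, hk2⟩ := hE p hp
      obtain ⟨k', hk', hk1', hk2'⟩ := hE q hq
      have h2 := (hk1.symm.trans hD).trans hk1'
      have h3 := h1 (k⁻¹ * k') (mul_mem (inv_mem hk) hk')
      rw [← S.gf.acts.dist k, ← S.gf.acts.dist k (S.s p0), mul_smul, mul_smul, smul_inv_smul,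
        smul_inv_smul] at h3
      have h4 : S.Cl (C1 * (E + D + E + 1)) (k • S.t p0) (k' • S.t p0) := by
        refine ⟨?_, h3.trans (Nat.mul_le_mul_left _ (Nat.succ_le_succ h2.2))⟩
        rw [← S.t_smul, ← S.t_smul]
        exact S.s1b_nd_t_eq (by rw [S.s1b_arr_smul_of h0 hk, S.s1b_arr_smul_of h0 hk'])
      refine ((hk2.trans h4).trans hk2'.symm).mono ?_
      nlinarith [Nat.zero_le (E * D), Nat.zero_le (C1 * E * D)])
  exact ⟨C, fun p q h D hD => hC _ trivial p q rfl h.symm D hD⟩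

theorem s1b_const5 : ∃ C : ℕ, ∀ p q : S.P, S.arr p = S.arr q →
    ∀ r, S.arr r = S.arr p → ∀ D y, Btw S.B (S.s p) y (S.s q) → S.Cl D (S.s r) y →
      ∃ y', Btw S.B (S.t p) y' (S.t q) ∧ S.Cl (C * (D + 1)) (S.t r) y' := by
  obtain ⟨C, hC⟩ := S.finA.bound
    (fun a c => ∀ p q : S.P, S.arr p = a → S.arr q = a →
      ∀ r, S.arr r = a → ∀ D y, Btw S.B (S.s p) y (S.s q) → S.Cl D (S.s r) y →
      ∃ y', Btw S.B (S.t p) y' (S.t q) ∧ S.Cl (c * (D + 1)) (S.t r) y')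
    (by
      intro a _ c c' hc H p q hp hq r hr D y hy hD
      obtain ⟨y', h1, h2⟩ := H p q hp hq r hr D y hy hD
      exact ⟨y', h1, h2.mono (Nat.mul_le_mul_right _ hc)⟩)
    (by
      intro g _ a _ c _ H p q hp hq r hr D y hy hD
      have hy' := S.s1b_btw_inv g⁻¹ hy
      have hz' := hD.smul g⁻¹
      rw [← S.s_smul, ← S.s_smul] at hy'
      rw [← S.s_smul] at hz'
      obtain ⟨y', h1, h2⟩ := H (g⁻¹ • p) (g⁻¹ • q) (by rw [S.arr_smul, hp, inv_smul_smul])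
        (by rw [S.arr_smul, hq, inv_smul_smul]) (g⁻¹ • r) (by rw [S.arr_smul, hr, inv_smul_smul])
        _ _ hy' hz'
      have h1' := S.s1b_btw_inv g h1
      have h2' := h2.smul g
      rw [S.t_smul, S.t_smul, smul_inv_smul, smul_inv_smul] at h1'
      rw [S.t_smul, smul_inv_smul] at h2'
      exact ⟨_, h1', h2'⟩)
    (by
      intro a _
      obtain ⟨p0, h0⟩ := S.arr_surj a
      obtain ⟨E, hE⟩ := S.s1b_base_pt h0
      obtain ⟨C1, h1⟩ := S.ft.bcc S.ft (S.fg a) (S.s1b_pres_s h0) (S.s1b_pres_t h0)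
      refine ⟨2 * E + C1 * (2 * E + 1), fun p q hp hq r hr D y hy hD => ?_⟩
      obtain ⟨k, hk, hk1, hk2⟩ := hE p hp
      obtain ⟨k', hk', hk1', hk2'⟩ := hE q hq
      obtain ⟨k'', hk'', hk1'', hk2''⟩ := hE r hr
      obtain ⟨z, hz, hc⟩ := S.s1b_btw_near hy hk1 hk1'
      have h2 := (hk1''.symm.trans hD).trans hc
      obtain ⟨w, hw, hd⟩ := h1 k hk k' hk' k'' hk'' _ z hz h2.2
      obtain ⟨y', hy', hc'⟩ := S.s1b_btw_near hw hk2.symm hk2'.symm
      have h4 : S.Cl (C1 * (E + D + E + 1)) (k'' • S.t p0) w := by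
        refine ⟨?_, hd⟩
        rw [← (nd_of_btw hw).1, ← S.t_smul, ← S.t_smul]
        exact S.s1b_nd_t_eq (by rw [S.s1b_arr_smul_of h0 hk, S.s1b_arr_smul_of h0 hk''])
      refine ⟨y', hy', ((hk2''.trans h4).trans hc').mono ?_⟩
      nlinarith [Nat.zero_le (E * D), Nat.zero_le (C1 * E * D)])
  exact ⟨C, fun p q h r hr => hC _ trivial p q rfl h.symm r hr⟩

/-- The constants of the arrows: quasi-convexity, Lipschitz bounds, bounded cancellation. -/
theorem consts : ∃ C : ℕ, ∀ p q : S.P, S.arr p = S.arr q →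
    (∀ z, Btw S.B (S.s p) z (S.s q) → ∃ r, S.arr r = S.arr p ∧ S.Cl C z (S.s r)) ∧
    (∀ z, Btw S.B (S.t p) z (S.t q) → ∃ r, S.arr r = S.arr p ∧ S.Cl C z (S.t r)) ∧
    (∀ D, S.Cl D (S.s p) (S.s q) → S.Cl (C * (D + 1)) (S.t p) (S.t q)) ∧
    (∀ D, S.Cl D (S.t p) (S.t q) → S.Cl (C * (D + 1)) (S.s p) (S.s q)) ∧
    (∀ r, S.arr r = S.arr p → ∀ D y, Btw S.B (S.s p) y (S.s q) → S.Cl D (S.s r) y →
      ∃ y', Btw S.B (S.t p) y' (S.t q) ∧ S.Cl (C * (D + 1)) (S.t r) y') ∧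
    (∀ r, S.arr r = S.arr p → ∀ D y, Btw S.B (S.t p) y (S.t q) → S.Cl D (S.t r) y →
      ∃ y', Btw S.B (S.s p) y' (S.s q) ∧ S.Cl (C * (D + 1)) (S.s r) y') := by
  obtain ⟨C1, h1⟩ := S.s1b_const1
  obtain ⟨C2, h2⟩ := S.rev.s1b_const1
  obtain ⟨C3, h3⟩ := S.s1b_const3
  obtain ⟨C4, h4⟩ := S.rev.s1b_const3
  obtain ⟨C5, h5⟩ := S.s1b_const5
  obtain ⟨C6, h6⟩ := S.rev.s1b_const5
  refine ⟨C1 + C2 + C3 + C4 + C5 + C6, fun p q h => ⟨?_, ?_, ?_, ?_, ?_, ?_⟩⟩
  · intro z hz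
    obtain ⟨r, hr, hc⟩ := h1 p q h z hz
    exact ⟨r, hr, hc.mono (by omega)⟩
  · intro z hz
    obtain ⟨r, hr, hc⟩ := h2 p q h z hz
    exact ⟨r, hr, Cl.mono (S := S) hc (by omega)⟩
  · intro D hD
    exact (h3 p q h D hD).mono (Nat.mul_le_mul_right _ (by omega))
  · intro D hD
    exact Cl.mono (S := S) (h4 p q h D hD) (Nat.mul_le_mul_right _ (by omega))
  · intro r hr D y hy hD
    obtain ⟨y', a1, a2⟩ := h5 p q h r hr D y hy hD
    exact ⟨y', a1, a2.mono (Nat.mul_le_mul_right _ (by omega))⟩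
  · intro r hr D y hy hD
    obtain ⟨y', a1, a2⟩ := h6 p q h r hr D y hy hD
    exact ⟨y', a1, Cl.mono (S := S) a2 (Nat.mul_le_mul_right _ (by omega))⟩

theorem s1b_near_arrow_s : ∃ C : ℕ, ∀ (a : S.A) (K : Subgroup G), K ≤ stabilizer G a →
    ∀ z ∈ S.Min K (S.src a), ∃ p, S.arr p = a ∧ S.Cl C z (S.s p) := by
  obtain ⟨C, hC⟩ := S.s1b_const1
  refine ⟨C, fun a K hK z hz => ?_⟩
  obtain ⟨p0, h0⟩ := S.arr_surj a
  rw [S.min_eq (c := S.s p0) (by rw [S.nd_s, h0])] at hz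
  have hX := kc_hull S.gf (S.fg a) (S.s1b_pres_s h0)
  have hz' := minT_subset S.gf hX.toKT (c := S.s p0)
    ⟨S.s p0, subset_hull _ (mem_orb_self _), SimpleGraph.Reachable.refl _⟩ (minT_mono hK _ hz)
  obtain ⟨_, ⟨k, hk, rfl⟩, _, ⟨k', hk', rfl⟩, hb⟩ := hz'
  rw [← S.s_smul, ← S.s_smul] at hb
  obtain ⟨r, hr, hc⟩ := hC (k • p0) (k' • p0)
    (by rw [S.s1b_arr_smul_of h0 hk, S.s1b_arr_smul_of h0 hk']) z hb
  exact ⟨r, by rw [hr, S.s1b_arr_smul_of h0 hk], hc⟩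

/-- The axis of an element that fixes an arrow is close to the points of the arrow. -/
theorem near_arrow : ∃ C : ℕ, ∀ (a : S.A) (K : Subgroup G), K ≤ stabilizer G a →
    (∀ z ∈ S.Min K (S.src a), ∃ p, S.arr p = a ∧ S.Cl C z (S.s p)) ∧
    (∀ z ∈ S.Min K (S.tgt a), ∃ p, S.arr p = a ∧ S.Cl C z (S.t p)) := by
  obtain ⟨C1, h1⟩ := S.s1b_near_arrow_s
  obtain ⟨C2, h2⟩ := S.rev.s1b_near_arrow_s
  refine ⟨C1 + C2, fun a K hK => ⟨fun z hz => ?_, fun z hz => ?_⟩⟩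
  · obtain ⟨p, hp, hc⟩ := h1 a K hK z hz
    exact ⟨p, hp, hc.mono (by omega)⟩
  · obtain ⟨p, hp, hc⟩ := h2 a K hK z hz
    exact ⟨p, hp, Cl.mono (S := S) hc (by omega)⟩

end Sys

end CPOR
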