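import Pool.Agent.P.MP_2cb329_al.F.S1b

/-! Theorem F: chains, the carry lemma, finiteness of windows. -/

set_option autoImplicit false

namespace CPOR
open ZT MulAction

namespace Sys

variable {G : Type} [Group G] {N : Type} [MulAction G N] (S : Sys G N)

theorem s2_prop {F : ℕ → ℕ} (P : ℤ → ℕ → Prop) {i j l l' : ℤ} {n : ℕ}
    (hmono : ∀ m a b, a ≤ b → P m a → P m b) (hn : j - i ≤ n) (h1 : i ≤ l) (h2 : l < j)
    (h1' : i ≤ l') (h2' : l' < j) (h0 : P l n)
    (fwd : ∀ m c, i ≤ m → m + 1 < j → n ≤ c → P m c → P (m + 1) (F c))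
    (bwd : ∀ m c, i ≤ m → m + 1 < j → n ≤ c → P (m + 1) c → P m (F c)) :
    P l' (Bd.it F n) := by
  rcases le_total l l' with h | h
  · have := Bd.it_induct (F := F) (fun k c => P (l + k) c) (l' - l).toNat n (by omega)
      (fun k a b hab => hmono _ a b hab) (by simpa using h0)
      (fun k c hk hc hP => by
        have := fwd (l + k) c (by omega) (by omega) hc hP
        rwa [show l + ((k + 1 : ℕ) : ℤ) = l + k + 1 by push_cast; ring]) _ le_rfl
    rwa [show l + ((l' - l).toNat : ℤ) = l' by omega] at this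
  · have := Bd.it_induct (F := F) (fun k c => P (l - k) c) (l - l').toNat n (by omega)
      (fun k a b hab => hmono _ a b hab) (by simpa using h0)
      (fun k c hk hc hP => by
        have := bwd (l - k - 1) c (by omega) (by omega) hc (by rwa [sub_add_cancel])
        rwa [show l - ((k + 1 : ℕ) : ℤ) = l - k - 1 by push_cast; ring]) _ le_rfl
    rwa [show l - ((l - l').toNat : ℤ) = l' by omega] at this

theorem s2_choice {X : Type} (St : ℤ → X → Prop) (R : X → X → Prop) {i j l : ℤ} {x₀ : X}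
    (h1 : i ≤ l) (h2 : l < j) (h0 : St l x₀)
    (fwd : ∀ m x, i ≤ m → m + 1 < j → St m x → ∃ y, St (m + 1) y ∧ R x y)
    (bwd : ∀ m y, i ≤ m → m + 1 < j → St (m + 1) y → ∃ x, St m x ∧ R x y) :
    ∃ q : ℤ → X, q l = x₀ ∧ (∀ m, i ≤ m → m < j → St m (q m)) ∧
      ∀ m, i ≤ m → m + 1 < j → R (q m) (q (m + 1)) := by
  classical
  have up : ∀ b, l ≤ b → b < j → ∃ q : ℤ → X, q l = x₀ ∧ (∀ m, l ≤ m → m ≤ b → St m (q m)) ∧
      ∀ m, l ≤ m → m + 1 ≤ b → R (q m) (q (m + 1)) := by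
    intro b hb
    induction b, hb using Int.leInduction with
    | base =>
      intro _
      refine ⟨fun _ => x₀, rfl, fun m a b => ?_, fun m a b => by omega⟩
      rw [show m = l by omega]; exact h0
    | succ b hb ih =>
      intro hj
      obtain ⟨q, q0, q1, q2⟩ := ih (by omega)
      obtain ⟨y, y1, y2⟩ := fwd b (q b) (by omega) hj (q1 b hb le_rfl)
      refine ⟨Function.update q (b + 1) y, ?_, fun m a a' => ?_, fun m a a' => ?_⟩
      · rw [Function.update_of_ne (by omega), q0]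
      · by_cases hm : m = b + 1
        · rw [hm, Function.update_self]; exact y1
        · rw [Function.update_of_ne hm]; exact q1 m a (by omega)
      · by_cases hm : m = b
        · rw [hm, Function.update_self, Function.update_of_ne (by omega)]; exact y2
        · rw [Function.update_of_ne (by omega), Function.update_of_ne (by omega)]
          exact q2 m a (by omega)
  have down : ∀ a, a ≤ l → i ≤ a → ∃ q : ℤ → X, q l = x₀ ∧ (∀ m, a ≤ m → m < j → St m (q m)) ∧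
      ∀ m, a ≤ m → m + 1 < j → R (q m) (q (m + 1)) := by
    intro a ha
    induction a, ha using Int.leInductionDown with
    | base =>
      intro _
      obtain ⟨q, q0, q1, q2⟩ := up (j - 1) (by omega) (by omega)
      exact ⟨q, q0, fun m a b => q1 m a (by omega), fun m a b => q2 m a (by omega)⟩
    | pred a ha ih =>
      intro hi
      obtain ⟨q, q0, q1, q2⟩ := ih (by omega)
      obtain ⟨x, x1, x2⟩ := bwd (a - 1) (q a) hi (by omega)
        (by rw [sub_add_cancel]; exact q1 a le_rfl (by omega))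
      refine ⟨Function.update q (a - 1) x, ?_, fun m b b' => ?_, fun m b b' => ?_⟩
      · rw [Function.update_of_ne (by omega), q0]
      · by_cases hm : m = a - 1
        · rw [hm, Function.update_self]; exact x1
        · rw [Function.update_of_ne hm]; exact q1 m (by omega) b'
      · by_cases hm : m = a - 1
        · rw [hm, Function.update_self, Function.update_of_ne (by omega), sub_add_cancel]
          exact x2
        · rw [Function.update_of_ne hm, Function.update_of_ne (by omega)]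
          exact q2 m (by omega) b'
  exact down i h1 le_rfl

variable {S} in
theorem s2_near {L : ℕ} {x y z x' z' : S.V} (h : Btw S.B x y z) (hx : S.Cl L x x')
    (hz : S.Cl L z z') : ∃ y', Btw S.B x' y' z' ∧ S.Cl L y y' := by
  obtain ⟨y', a, b, c⟩ := h.near S.gf.acyc hx.reach hz.reach hx.2 hz.2
  exact ⟨y', a, (S.nd_eq _ _).2 b, c⟩

/-- Distances between two chains over one path change in a controlled way. -/
theorem chain_lip : ∃ F, Bd F ∧ ∀ (L : ℕ) (p p' : ℤ → S.P) (i j l l' : ℤ),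
    S.Chain L p i j → S.Chain L p' i j → (∀ m, i ≤ m → m < j → S.arr (p m) = S.arr (p' m)) →
    j - i ≤ L → i ≤ l → l < j → i ≤ l' → l' < j →
    (S.Cl L (S.s (p l)) (S.s (p' l)) ∨ S.Cl L (S.t (p l)) (S.t (p' l))) →
    S.Cl (F L) (S.s (p l')) (S.s (p' l')) ∧ S.Cl (F L) (S.t (p l')) (S.t (p' l')) := by
  obtain ⟨C, hC⟩ := S.consts
  have bF : Bd fun c => C * (3 * c + 1) + 3 * c :=
    ((Bd.const C).mul (((Bd.const 3).mul Bd.id).add (Bd.const 1))).add ((Bd.const 3).mul Bd.id)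
  refine ⟨fun L => Bd.it (fun c => C * (3 * c + 1) + 3 * c) (C * (L + 1) + L),
    (Bd.it_bd bF).comp (((Bd.const C).mul (Bd.id.add (Bd.const 1))).add Bd.id), ?_⟩
  intro L p p' i j l l' hp hp' ha hL h1 h2 h1' h2' h0
  refine s2_prop (fun m c => S.Cl c (S.s (p m)) (S.s (p' m)) ∧ S.Cl c (S.t (p m)) (S.t (p' m)))
    (fun m a b hab h => ⟨h.1.mono hab, h.2.mono hab⟩) (by omega) h1 h2 h1' h2' ?_ ?_ ?_
  · rcases h0 with h0 | h0
    · exact ⟨h0.mono (by omega), ((hC _ _ (ha l h1 h2)).2.2.1 L h0).mono (by omega)⟩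
    · exact ⟨((hC _ _ (ha l h1 h2)).2.2.2.1 L h0).mono (by omega), h0.mono (by omega)⟩
  · intro m c a1 a2 hc h
    have e : S.Cl (3 * c) (S.s (p (m + 1))) (S.s (p' (m + 1))) :=
      (((hp m a1 a2).symm.trans h.2).trans (hp' m a1 a2)).mono (by omega)
    exact ⟨e.mono (by omega), ((hC _ _ (ha _ (by omega) a2)).2.2.1 _ e).mono (by omega)⟩
  · intro m c a1 a2 hc h
    have e : S.Cl (3 * c) (S.t (p m)) (S.t (p' m)) :=
      (((hp m a1 a2).trans h.1).trans (hp' m a1 a2).symm).mono (by omega)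
    exact ⟨((hC _ _ (ha _ a1 (by omega))).2.2.2.1 _ e).mono (by omega), e.mono (by omega)⟩

/-- A third chain that is close to the geodesic between two chains at one time stays close. -/
theorem chain_bcc : ∃ F, Bd F ∧ ∀ (L : ℕ) (p p' q : ℤ → S.P) (i j l l' : ℤ),
    S.Chain L p i j → S.Chain L p' i j → S.Chain L q i j →
    (∀ m, i ≤ m → m < j → S.arr (p m) = S.arr (p' m) ∧ S.arr (p m) = S.arr (q m)) →
    j - i ≤ L → i ≤ l → l < j → i ≤ l' → l' < j →
    (∃ z, Btw S.B (S.s (p l)) z (S.s (p' l)) ∧ S.Cl L z (S.s (q l))) →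
    ∃ z, Btw S.B (S.s (p l')) z (S.s (p' l')) ∧ S.Cl (F L) z (S.s (q l')) := by
  obtain ⟨C, hC⟩ := S.consts
  have bF : Bd fun c => C * (3 * c + 1) + 3 * c :=
    ((Bd.const C).mul (((Bd.const 3).mul Bd.id).add (Bd.const 1))).add ((Bd.const 3).mul Bd.id)
  refine ⟨fun L => Bd.it (fun c => C * (3 * c + 1) + 3 * c) (C * (L + 1) + L),
    (Bd.it_bd bF).comp (((Bd.const C).mul (Bd.id.add (Bd.const 1))).add Bd.id), ?_⟩
  intro L p p' q i j l l' hp hp' hq ha hL h1 h2 h1' h2' h0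
  have st : ∀ m D, i ≤ m → m < j →
      (∃ z, Btw S.B (S.s (p m)) z (S.s (p' m)) ∧ S.Cl D z (S.s (q m))) →
      ∃ z, Btw S.B (S.t (p m)) z (S.t (p' m)) ∧ S.Cl (C * (D + 1)) z (S.t (q m)) := by
    rintro m D a1 a2 ⟨z, z1, z2⟩
    obtain ⟨y, y1, y2⟩ := (hC _ _ (ha m a1 a2).1).2.2.2.2.1 (q m) (ha m a1 a2).2.symm D z z1 z2.symm
    exact ⟨y, y1, y2.symm⟩
  have ts : ∀ m D, i ≤ m → m < j →
      (∃ z, Btw S.B (S.t (p m)) z (S.t (p' m)) ∧ S.Cl D z (S.t (q m))) →
      ∃ z, Btw S.B (S.s (p m)) z (S.s (p' m)) ∧ S.Cl (C * (D + 1)) z (S.s (q m)) := by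
    rintro m D a1 a2 ⟨z, z1, z2⟩
    obtain ⟨y, y1, y2⟩ := (hC _ _ (ha m a1 a2).1).2.2.2.2.2 (q m) (ha m a1 a2).2.symm D z z1 z2.symm
    exact ⟨y, y1, y2.symm⟩
  have mo : ∀ {x x' y : S.V} {a b : ℕ}, (∃ z, Btw S.B x z x' ∧ S.Cl a z y) → a ≤ b →
      ∃ z, Btw S.B x z x' ∧ S.Cl b z y := fun ⟨z, z1, z2⟩ h => ⟨z, z1, z2.mono h⟩
  refine (s2_prop (fun m c => (∃ z, Btw S.B (S.s (p m)) z (S.s (p' m)) ∧ S.Cl c z (S.s (q m))) ∧
      ∃ z, Btw S.B (S.t (p m)) z (S.t (p' m)) ∧ S.Cl c z (S.t (q m)))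
    (fun m a b hab h => ⟨mo h.1 hab, mo h.2 hab⟩) (by omega) h1 h2 h1' h2' ?_ ?_ ?_).1
  · exact ⟨mo h0 (by omega), mo (st l L h1 h2 h0) (by omega)⟩
  · rintro m c a1 a2 hc ⟨-, z, z1, z2⟩
    obtain ⟨y, y1, y2⟩ := s2_near z1 (hp m a1 a2) (hp' m a1 a2)
    have e : ∃ z, Btw S.B (S.s (p (m + 1))) z (S.s (p' (m + 1))) ∧
        S.Cl (3 * c) z (S.s (q (m + 1))) :=
      ⟨y, y1, ((y2.symm.trans z2).trans (hq m a1 a2)).mono (by omega)⟩
    exact ⟨mo e (by omega), mo (st _ _ (by omega) a2 e) (by omega)⟩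
  · rintro m c a1 a2 hc ⟨⟨z, z1, z2⟩, -⟩
    obtain ⟨y, y1, y2⟩ := s2_near z1 (hp m a1 a2).symm (hp' m a1 a2).symm
    have e : ∃ z, Btw S.B (S.t (p m)) z (S.t (p' m)) ∧ S.Cl (3 * c) z (S.t (q m)) :=
      ⟨y, y1, ((y2.symm.trans z2).trans (hq m a1 a2).symm).mono (by omega)⟩
    exact ⟨mo (ts _ _ a1 (by omega) e) (by omega), mo e (by omega)⟩

/-- Every point of the geodesic between two chains carries a chain. -/
theorem chain_carry : ∃ F, Bd F ∧ ∀ (L : ℕ) (p p' : ℤ → S.P) (i j l : ℤ) (z : S.V),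
    S.Chain L p i j → S.Chain L p' i j → (∀ m, i ≤ m → m < j → S.arr (p m) = S.arr (p' m)) →
    j - i ≤ L → i ≤ l → l < j → Btw S.B (S.s (p l)) z (S.s (p' l)) →
    ∃ q, S.Chain (F L) q i j ∧ (∀ m, i ≤ m → m < j → S.arr (q m) = S.arr (p m)) ∧
      S.Cl (F L) z (S.s (q l)) := by
  obtain ⟨C, hC⟩ := S.consts
  obtain ⟨C', hC'⟩ : ∃ C', C' = C * (C + 1) + C := ⟨_, rfl⟩
  refine ⟨fun L => C * (C' + 1) + C' + C + L, (Bd.const _).add Bd.id, ?_⟩
  intro L p p' i j l z hp hp' ha hL h1 h2 hz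
  obtain ⟨r, r1, r2⟩ := (hC _ _ (ha l h1 h2)).1 z hz
  obtain ⟨q, q0, q1, q2⟩ := s2_choice
    (fun m r => S.arr r = S.arr (p m) ∧
      ∃ z, Btw S.B (S.s (p m)) z (S.s (p' m)) ∧ S.Cl C' z (S.s r))
    (fun r r' => S.Cl (C * (C' + 1) + C' + C + L) (S.t r) (S.s r')) (x₀ := r) h1 h2
    ⟨r1, z, hz, r2.mono (by omega)⟩
    (by
      rintro m x a1 a2 ⟨x1, w, w1, w2⟩
      obtain ⟨y, y1, y2⟩ := (hC _ _ (ha m a1 (by omega))).2.2.2.2.1 x x1 C' w w1 w2.symm
      obtain ⟨y', y1', y2'⟩ := s2_near y1 (hp m a1 a2) (hp' m a1 a2)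
      obtain ⟨r', r1', r2'⟩ := (hC _ _ (ha (m + 1) (by omega) a2)).1 y' y1'
      exact ⟨r', ⟨r1', y', y1', r2'.mono (by omega)⟩, ((y2.trans y2').trans r2').mono (by omega)⟩)
    (by
      rintro m x a1 a2 ⟨-, w, w1, w2⟩
      obtain ⟨y, y1, y2⟩ := s2_near w1 (hp m a1 a2).symm (hp' m a1 a2).symm
      obtain ⟨r', r1', r2'⟩ := (hC _ _ (ha m a1 (by omega))).2.1 y y1
      obtain ⟨y', y1', y2'⟩ := (hC _ _ (ha m a1 (by omega))).2.2.2.2.2 r' r1' C y y1 r2'.symm
      exact ⟨r', ⟨r1', y', y1', y2'.symm.mono (by omega)⟩,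
        ((r2'.symm.trans y2.symm).trans w2).mono (by omega)⟩)
  exact ⟨q, q2, fun m a b => (q1 m a b).1, by rw [q0]; exact r2.mono (by simp only; omega)⟩

/-- Pigeonhole principle for chains. -/
theorem chain_pigeon : ∃ F, Bd F ∧ ∀ (L : ℕ) (i j : ℤ) (q : ℕ → ℤ → S.P), i < j → j - i ≤ L →
    (∀ m ≤ F L, S.Chain L (q m) i j) →
    ∃ m m', m < m' ∧ m' ≤ F L ∧ ∃ g : G, ∀ l, i ≤ l → l < j → g • q m l = q m' l := by
  classical
  obtain ⟨Fb, hFb, hb⟩ := S.ball_bound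
  obtain ⟨F0, hF0, h0⟩ := S.finP
  refine ⟨fun L => hF0.toFinset.card * (Fb L + 1) ^ L, (Bd.const _).mul (hFb.pow Bd.id), ?_⟩
  intro L i j q hij hL hq
  have hc : ∀ x : S.V, ∃ c : S.P → Fin (Fb L + 1), Set.InjOn c {p | S.Cl L x (S.s p)} := by
    intro x
    obtain ⟨-, -, f1, f2, -⟩ := hb L x
    obtain ⟨c, -, hc⟩ := f1.exists_injOn_of_encard_le (t := (Set.univ : Set (Fin (Fb L + 1))))
      (by
        rw [← f1.cast_ncard_eq, Set.encard_univ]
        simp only [ENat.card_eq_coe_fintype_card, Fintype.card_fin]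
        exact_mod_cast f2.trans (Nat.le_succ _))
    exact ⟨c, hc⟩
  choose c hc using hc
  choose g _ hg using fun m => h0 (q m i) (Set.mem_univ _)
  obtain ⟨m, m', hne, he⟩ := Fintype.exists_ne_map_eq_of_card_lt
    (fun m : Fin (hF0.toFinset.card * (Fb L + 1) ^ L + 1) =>
      ((⟨g m • q m i, hF0.mem_toFinset.2 (hg m)⟩,
        fun k : Fin L => c (S.t (g m • q m (i + k))) (g m • q m (i + k + 1))) :
        hF0.toFinset × (Fin L → Fin (Fb L + 1)))) (by simp)
  have key : ∀ l, i ≤ l → l < j → g m • q m l = g m' • q m' l := by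
    intro l hl
    induction l, hl using Int.leInduction with
    | base => intro _; exact congrArg Subtype.val (congrArg Prod.fst he)
    | succ l hl ih =>
      intro hj
      have ih' := ih (by omega)
      have e := congrFun (congrArg Prod.snd he) ⟨(l - i).toNat, by omega⟩
      simp only at e
      rw [show i + ((l - i).toNat : ℤ) = l by omega, ← ih'] at e
      refine hc _ ?_ ?_ e
      · exact ((hq m (Nat.lt_succ_iff.1 m.2)).smul (g m)) l hl hj
      · rw [ih']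
        exact ((hq m' (Nat.lt_succ_iff.1 m'.2)).smul (g m')) l hl hj
  rcases lt_or_gt_of_ne hne with h | h
  · refine ⟨m, m', h, Nat.lt_succ_iff.1 m'.2, (g m')⁻¹ * g m, fun l a b => ?_⟩
    rw [mul_smul, key l a b, inv_smul_smul]
  · refine ⟨m', m, h, Nat.lt_succ_iff.1 m.2, (g m)⁻¹ * g m', fun l a b => ?_⟩
    rw [mul_smul, ← key l a b, inv_smul_smul]

end Sys

end CPOR
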