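import Pool.Agent.P.MP_2cb329_al.F.S2

/-! Theorem F: the carry lemma, finiteness of windows. -/

set_option autoImplicit false

namespace CPOR
open ZT MulAction

namespace Sys

variable {G : Type} [Group G] {N : Type} [MulAction G N] (S : Sys G N)

/-- Two chains over one path start close to each other, or a small element of the window group
brings them closer. -/
theorem s2b_step : ∃ H, Bd H ∧ ∀ (L : ℕ) (p p' : ℤ → S.P) (i j : ℤ),
    S.Chain L p i j → S.Chain L p' i j → (∀ m, i ≤ m → m < j → S.arr (p m) = S.arr (p' m)) →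
    i < j → j - i ≤ L → S.Cl (H L) (S.s (p i)) (S.s (p' i)) ∨
      ∃ g ∈ S.Fix (fun m => S.arr (p m)) i j, g ≠ 1 ∧ S.Cl (H L) (S.s (p i)) (g • S.s (p i)) ∧
        S.B.dist (S.s (p i)) (g⁻¹ • S.s (p' i)) < S.B.dist (S.s (p i)) (S.s (p' i)) := by
  obtain ⟨Fc, hFc, hc⟩ := S.chain_carry
  obtain ⟨Fp, hFp, hpg⟩ := S.chain_pigeon
  refine ⟨fun L => 2 * (Fp (Fc L + L) * (2 * Fc L + 1) + Fc L), (Bd.const 2).mul
    (((hFp.comp (hFc.add Bd.id)).mul (((Bd.const 2).mul hFc).add (Bd.const 1))).add hFc),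
    fun L p p' i j hp hp' ha hij hL => ?_⟩
  dsimp only
  set r := Fc L with hr
  set M := Fp (r + L) with hM
  have hnd : S.nd (S.s (p i)) = S.nd (S.s (p' i)) := by rw [S.nd_s, S.nd_s, ha i le_rfl hij]
  by_cases hd : S.B.dist (S.s (p i)) (S.s (p' i)) ≤ M * (2 * r + 1)
  · exact Or.inl ⟨hnd, by omega⟩
  right
  have hz : ∀ m, ∃ (z : S.V) (q : ℤ → S.P), m ≤ M → Btw S.B (S.s (p i)) z (S.s (p' i)) ∧
      S.B.dist (S.s (p i)) z = m * (2 * r + 1) ∧ S.Chain r q i j ∧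
      (∀ m, i ≤ m → m < j → S.arr (q m) = S.arr (p m)) ∧ S.Cl r z (S.s (q i)) := by
    intro m
    by_cases hm : m ≤ M
    · have := Nat.mul_le_mul_right (2 * r + 1) hm
      obtain ⟨z, z1, z2⟩ := exists_btw_dist ((S.nd_eq _ _).1 hnd) (i := m * (2 * r + 1)) (by omega)
      obtain ⟨q, h⟩ := hc L p p' i j i z hp hp' ha hL le_rfl hij z1
      exact ⟨z, q, fun _ => ⟨z1, z2, h⟩⟩
    · exact ⟨S.s (p i), p, fun h => absurd h hm⟩
  choose z q hq using hz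
  obtain ⟨m, m', hmm, hm', g, hg⟩ := hpg (r + L) i j q hij (by push_cast; omega)
    fun m hm => (hq m hm).2.2.1.mono (by omega) le_rfl le_rfl
  obtain ⟨a1, a2, -, a4, a5⟩ := hq m (by omega)
  obtain ⟨b1, b2, -, b4, b5⟩ := hq m' hm'
  have hgs : g • S.s (q m i) = S.s (q m' i) := by rw [← S.s_smul, hg i le_rfl hij]
  have e1 : (m + 1) * (2 * r + 1) ≤ m' * (2 * r + 1) := Nat.mul_le_mul_right _ hmm
  have e2 : m' * (2 * r + 1) ≤ M * (2 * r + 1) := Nat.mul_le_mul_right _ hm'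
  rw [Nat.succ_mul] at e1
  have c1 : S.Cl (m * (2 * r + 1) + r) (S.s (p i)) (S.s (q m i)) :=
    Cl.trans ⟨(nd_of_btw a1).1, a2.le⟩ a5
  have c2 : S.Cl (m' * (2 * r + 1) + r) (S.s (p i)) (S.s (q m' i)) :=
    Cl.trans ⟨(nd_of_btw b1).1, b2.le⟩ b5
  have c3 := b5.symm.trans (cl_dist (nd_of_btw b1).2)
  have b3 := b1.2.2
  refine ⟨g, mem_fix.2 fun l l1 l2 => ?_, ?_, ?_, ?_⟩
  · rw [← a4 l l1 l2, ← S.arr_smul, hg l l1 l2, b4 l l1 l2, a4 l l1 l2]
  · rintro rfl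
    rw [one_smul] at hgs
    rw [hgs] at c1
    have := (c1.trans b5.symm).2
    omega
  · have := (c1.smul g).symm
    rw [hgs] at this
    exact (c2.trans this).mono (by omega)
  · have c4 := c3.smul g⁻¹
    rw [← hgs, inv_smul_smul] at c4
    have := (c1.trans c4).2
    omega

/-- The carry lemma. -/
theorem carry : ∃ F, Bd F ∧ ∀ (L : ℕ) (p p' : ℤ → S.P) (i j : ℤ),
    S.Chain L p i j → S.Chain L p' i j → (∀ m, i ≤ m → m < j → S.arr (p m) = S.arr (p' m)) →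
    i < j → j - i ≤ L →
    ∃ g ∈ S.Fix (fun m => S.arr (p m)) i j, ∀ l, i ≤ l → l < j →
      S.Cl (F L) (S.s (p l)) (g • S.s (p' l)) ∧ S.Cl (F L) (S.t (p l)) (g • S.t (p' l)) := by
  obtain ⟨H, hH, hst⟩ := S.s2b_step
  obtain ⟨Fl, hFl, hl⟩ := S.chain_lip
  refine ⟨fun L => Fl (H L + L), hFl.comp (hH.add Bd.id), fun L p p' i j hp hp' ha hij hL => ?_⟩
  have key : ∀ (d : ℕ) (p' : ℤ → S.P), S.Chain L p' i j →
      (∀ m, i ≤ m → m < j → S.arr (p m) = S.arr (p' m)) →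
      S.B.dist (S.s (p i)) (S.s (p' i)) = d →
      ∃ g ∈ S.Fix (fun m => S.arr (p m)) i j, S.Cl (H L) (S.s (p i)) (g • S.s (p' i)) := by
    intro d
    induction d using Nat.strong_induction_on with
    | _ d ih =>
    intro p' hp' ha hd
    rcases hst L p p' i j hp hp' ha hij hL with h | ⟨g, hg, -, -, h⟩
    · exact ⟨1, Subgroup.one_mem _, by rwa [one_smul]⟩
    · have hg' := Subgroup.inv_mem _ hg
      obtain ⟨g', h1, h2⟩ := ih _ (hd ▸ h) (fun m => g⁻¹ • p' m) (hp'.smul _)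
        (fun m m1 m2 => by rw [S.arr_smul, ← ha m m1 m2, mem_fix.1 hg' m m1 m2])
        (by rw [S.s_smul])
      refine ⟨g' * g⁻¹, Subgroup.mul_mem _ h1 hg', ?_⟩
      rwa [S.s_smul, smul_smul] at h2
  obtain ⟨g, hg, h⟩ := key _ p' hp' ha rfl
  refine ⟨g, hg, fun l l1 l2 => ?_⟩
  have := hl (H L + L) p (fun m => g • p' m) i j i l (hp.mono (by omega) le_rfl le_rfl)
    ((hp'.smul g).mono (by omega) le_rfl le_rfl)
    (fun m m1 m2 => by rw [S.arr_smul, ← ha m m1 m2, mem_fix.1 hg m m1 m2])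
    (by push_cast; omega) le_rfl hij l1 l2 (Or.inl (by rw [S.s_smul]; exact h.mono (by omega)))
  rwa [S.s_smul, S.t_smul] at this

/-- A nontrivial window group has a nontrivial small element. -/
theorem small_elt : ∃ F, Bd F ∧ ∀ (L : ℕ) (p : ℤ → S.P) (i j : ℤ),
    S.Chain L p i j → i < j → j - i ≤ L → S.Fix (fun m => S.arr (p m)) i j ≠ ⊥ →
    ∃ h ∈ S.Fix (fun m => S.arr (p m)) i j, h ≠ 1 ∧ ∀ l, i ≤ l → l < j →
      S.Cl (F L) (S.s (p l)) (h • S.s (p l)) ∧ S.Cl (F L) (S.t (p l)) (h • S.t (p l)) := by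
  obtain ⟨H, hH, hst⟩ := S.s2b_step
  obtain ⟨Fl, hFl, hl⟩ := S.chain_lip
  refine ⟨fun L => Fl (H L + L), hFl.comp (hH.add Bd.id), fun L p i j hp hij hL hne => ?_⟩
  obtain ⟨⟨h₀, hh⟩, h0⟩ := Subgroup.ne_bot_iff_exists_ne_one.1 hne
  have h0' : h₀ ≠ 1 := fun h => h0 (Subtype.ext h)
  have key : ∃ g ∈ S.Fix (fun m => S.arr (p m)) i j, g ≠ 1 ∧
      S.Cl (H L) (S.s (p i)) (g • S.s (p i)) := by
    rcases hst L p (fun m => h₀ • p m) i j hp (hp.smul _)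
      (fun m m1 m2 => by rw [S.arr_smul, mem_fix.1 hh m m1 m2]) hij hL with h | ⟨g, h1, h2, h3, -⟩
    · exact ⟨h₀, hh, h0', by rwa [S.s_smul] at h⟩
    · exact ⟨g, h1, h2, h3⟩
  obtain ⟨g, hg, hg1, h⟩ := key
  refine ⟨g, hg, hg1, fun l l1 l2 => ?_⟩
  have := hl (H L + L) p (fun m => g • p m) i j i l (hp.mono (by omega) le_rfl le_rfl)
    ((hp.smul g).mono (by omega) le_rfl le_rfl)
    (fun m m1 m2 => by rw [S.arr_smul, mem_fix.1 hg m m1 m2])
    (by push_cast; omega) le_rfl hij l1 l2 (Or.inl (by rw [S.s_smul]; exact h.mono (by omega)))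
  rwa [S.s_smul, S.t_smul] at this

/-- A point of the axis near a point that is moved little. -/
theorem s2b_axis {x : G} (hx : x ≠ 1) {z : S.V} (h : S.nd z = S.nd (x • z)) {K : Subgroup G}
    (hK : x ∈ K) : ∃ y, Btw S.B z y (x • z) ∧ y ∈ S.Min K (S.nd z) := by
  obtain ⟨a, l, h1, h2⟩ := S.ft.exists_axis hx ((S.nd_eq _ _).1 h)
  have h3 := h2 0 le_rfl (by omega)
  exact ⟨a 0, h3, (nd_of_btw h3).1.symm, x, hK, a, l, h1, 0, rfl⟩

/-- One step of the construction of a chain along a fixed path. -/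
theorem s2b_one : ∃ H, Bd H ∧ ∀ (D : ℕ) (x : G) (a : S.A) (z : S.V), x ≠ 1 → x • a = a →
    S.Cl D z (x • z) →
    (S.nd z = S.src a → ∃ p, S.arr p = a ∧ S.Cl (H D) z (S.s p) ∧
      S.Cl (H D) (S.s p) (x • S.s p) ∧ S.Cl (H D) (S.t p) (x • S.t p)) ∧
    (S.nd z = S.tgt a → ∃ p, S.arr p = a ∧ S.Cl (H D) z (S.t p) ∧
      S.Cl (H D) (S.s p) (x • S.s p) ∧ S.Cl (H D) (S.t p) (x • S.t p)) := by
  obtain ⟨C, hC⟩ := S.consts
  obtain ⟨C', hC'⟩ := S.near_arrow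
  refine ⟨fun D => C * (3 * D + 2 * C' + 1) + (3 * D + 2 * C'), ((Bd.const C).mul
    ((((Bd.const 3).mul Bd.id).add (Bd.const _)).add (Bd.const 1))).add
      (((Bd.const 3).mul Bd.id).add (Bd.const _)), fun D x a z hx ha hz => ?_⟩
  obtain ⟨y, y1, y2⟩ := S.s2b_axis hx hz.1 (K := stabilizer G a) ha
  have c1 : S.Cl D z y := ⟨(nd_of_btw y1).1, by have := y1.2.2; have := hz.2; omega⟩
  have mv : ∀ w, S.Cl C' y w → S.Cl (3 * D + 2 * C') w (x • w) := fun w hw =>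
    (((c1.trans hw).symm.trans hz).trans ((c1.trans hw).smul x)).mono (by omega)
  refine ⟨fun h => ?_, fun h => ?_⟩
  · obtain ⟨p, p1, p2⟩ := (hC' a _ le_rfl).1 y (h ▸ y2)
    have k := (hC p (x • p) (by rw [S.arr_smul, p1, ha])).2.2.1 _ (S.s_smul x p ▸ mv _ p2)
    rw [S.t_smul] at k
    exact ⟨p, p1, (c1.trans p2).mono (by dsimp only; omega),
      (mv _ p2).mono (Nat.le_add_left _ _), k.mono (Nat.le_add_right _ _)⟩
  · obtain ⟨p, p1, p2⟩ := (hC' a _ le_rfl).2 y (h ▸ y2)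
    have k := (hC p (x • p) (by rw [S.arr_smul, p1, ha])).2.2.2.1 _ (S.t_smul x p ▸ mv _ p2)
    rw [S.s_smul] at k
    exact ⟨p, p1, (c1.trans p2).mono (by dsimp only; omega), k.mono (Nat.le_add_right _ _),
      (mv _ p2).mono (Nat.le_add_left _ _)⟩

/-- An element that fixes a path and moves a point little gives a chain (from any node). -/
theorem chain_of_fix : ∃ F, Bd F ∧ ∀ (L : ℕ) (x : G) (a : ℤ → S.A) (i j l : ℤ) (z : S.V),
    x ≠ 1 → S.IsPath a i j → x ∈ S.Fix a i j → j - i ≤ L → i ≤ l → l < j →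
    (S.nd z = S.src (a l) ∨ S.nd z = S.tgt (a l)) → S.Cl L z (x • z) →
    ∃ p, S.Chain (F L) p i j ∧ (∀ m, i ≤ m → m < j → S.arr (p m) = a m ∧
      S.Cl (F L) (S.s (p m)) (x • S.s (p m)) ∧ S.Cl (F L) (S.t (p m)) (x • S.t (p m))) ∧
      (S.Cl (F L) z (S.s (p l)) ∨ S.Cl (F L) z (S.t (p l))) := by
  obtain ⟨H, hH, hst⟩ := S.s2b_one
  let H1 : ℕ → ℕ := fun D => H D + D
  have hH1 : Bd H1 := hH.add Bd.id
  refine ⟨fun L => Bd.it (fun D => H1 (H1 D)) (H1 L), (Bd.it_bd (hH1.comp hH1)).comp hH1,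
    fun L x a i j l z hx hpath hfix hL l1 l2 hz hcl => ?_⟩
  let Good : ℕ → (ℤ → S.P) → ℤ → ℤ → Prop := fun D p u v => S.Chain D p u v ∧
    ∀ m, u ≤ m → m < v → S.arr (p m) = a m ∧ S.Cl D (S.s (p m)) (x • S.s (p m)) ∧
      S.Cl D (S.t (p m)) (x • S.t (p m))
  have gmono : ∀ {D D' p u v}, Good D p u v → D ≤ D' → Good D' p u v := fun h hD =>
    ⟨h.1.mono hD le_rfl le_rfl, fun m m1 m2 =>
      ⟨(h.2 m m1 m2).1, (h.2 m m1 m2).2.1.mono hD, (h.2 m m1 m2).2.2.mono hD⟩⟩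
  have fwd : ∀ D p u v, Good D p u v → i ≤ u → u ≤ l → l < v → v ≤ j →
      ∃ p', Good (H1 D) p' u (min j (v + 1)) ∧ p' l = p l := by
    intro D p u v h h1 h2 h3 h4
    have hD : D ≤ H1 D := Nat.le_add_left _ _
    rcases h4.eq_or_lt with rfl | h4
    · exact ⟨p, by rw [min_eq_left (by omega)]; exact gmono h hD, rfl⟩
    obtain ⟨k1, -, k3⟩ := h.2 (v - 1) (by omega) (by omega)
    have k4 := hpath (v - 1) (by omega) (by omega)
    rw [sub_add_cancel] at k4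
    obtain ⟨q, q1, q2, q3⟩ := (hst D x (a v) _ hx (mem_fix.1 hfix v (by omega) h4) k3).1
      (by rw [S.nd_t, k1, k4])
    refine ⟨Function.update p v q, ?_, Function.update_of_ne h3.ne _ _⟩
    rw [min_eq_right (by omega)]
    refine ⟨fun m m1 m2 => ?_, fun m m1 m2 => ?_⟩
    · rw [Function.update_of_ne (by omega)]
      by_cases hm : m + 1 = v
      · rw [hm, Function.update_self, show m = v - 1 by omega]
        exact q2.mono (Nat.le_add_right _ _)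
      · rw [Function.update_of_ne hm]
        exact (h.1 m m1 (by omega)).mono hD
    · by_cases hm : m = v
      · rw [hm, Function.update_self]
        exact ⟨q1, q3.1.mono (Nat.le_add_right _ _), q3.2.mono (Nat.le_add_right _ _)⟩
      · rw [Function.update_of_ne hm]
        exact (gmono h hD).2 m m1 (by omega)
  have bwd : ∀ D p u v, Good D p u v → i ≤ u → u ≤ l → l < v → v ≤ j →
      ∃ p', Good (H1 D) p' (max i (u - 1)) v ∧ p' l = p l := by
    intro D p u v h h1 h2 h3 h4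
    have hD : D ≤ H1 D := Nat.le_add_left _ _
    rcases h1.eq_or_lt with rfl | h1
    · exact ⟨p, by rw [max_eq_left (by omega)]; exact gmono h hD, rfl⟩
    obtain ⟨k1, k3, -⟩ := h.2 u le_rfl (by omega)
    have k4 := hpath (u - 1) (by omega) (by omega)
    rw [sub_add_cancel] at k4
    obtain ⟨q, q1, q2, q3⟩ := (hst D x (a (u - 1)) _ hx
      (mem_fix.1 hfix (u - 1) (by omega) (by omega)) k3).2 (by rw [S.nd_s, k1, k4])
    refine ⟨Function.update p (u - 1) q, ?_, Function.update_of_ne (by omega) _ _⟩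
    rw [max_eq_right (by omega)]
    refine ⟨fun m m1 m2 => ?_, fun m m1 m2 => ?_⟩
    · rw [Function.update_of_ne (a := m + 1) (by omega)]
      by_cases hm : m = u - 1
      · rw [hm, Function.update_self, sub_add_cancel]
        exact q2.symm.mono (Nat.le_add_right _ _)
      · rw [Function.update_of_ne hm]
        exact (h.1 m (by omega) m2).mono hD
    · by_cases hm : m = u - 1
      · rw [hm, Function.update_self]
        exact ⟨q1, q3.1.mono (Nat.le_add_right _ _), q3.2.mono (Nat.le_add_right _ _)⟩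
      · rw [Function.update_of_ne hm]
        exact (gmono h hD).2 m (by omega) m2
  have hbase : ∃ q, S.arr q = a l ∧ (S.Cl (H L) z (S.s q) ∨ S.Cl (H L) z (S.t q)) ∧
      S.Cl (H L) (S.s q) (x • S.s q) ∧ S.Cl (H L) (S.t q) (x • S.t q) := by
    have := hst L x (a l) z hx (mem_fix.1 hfix l l1 l2) hcl
    rcases hz with hz | hz
    · obtain ⟨q, q1, q2, q3⟩ := this.1 hz
      exact ⟨q, q1, Or.inl q2, q3⟩
    · obtain ⟨q, q1, q2, q3⟩ := this.2 hz
      exact ⟨q, q1, Or.inr q2, q3⟩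
  obtain ⟨q, q1, q2, q3⟩ := hbase
  have hle : H L ≤ H1 L := Nat.le_add_right _ _
  obtain ⟨p, hp, hpl⟩ := Bd.it_induct (F := fun D => H1 (H1 D))
    (fun k D => ∃ p, Good D p (max i (l - k)) (min j (l + 1 + k)) ∧ p l = q) L (H1 L)
    (Nat.le_add_left _ _) (fun _ _ _ hab ⟨p, h1, h2⟩ => ⟨p, gmono h1 hab, h2⟩)
    ⟨fun _ => q, ⟨fun m m1 m2 => by omega, fun m m1 m2 => by
      rw [show m = l by omega]
      exact ⟨q1, q3.1.mono hle, q3.2.mono hle⟩⟩, rfl⟩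
    (fun k D _ _ ⟨p, h1, h2⟩ => by
      obtain ⟨p', h3, h4⟩ := fwd D p _ _ h1 (by omega) (by omega) (by omega) (by omega)
      obtain ⟨p'', h5, h6⟩ := bwd _ p' _ _ h3 (by omega) (by omega) (by omega) (by omega)
      refine ⟨p'', ?_, h6.trans (h4.trans h2)⟩
      rwa [show max i (max i (l - k) - 1) = max i (l - (k + 1 : ℕ)) by omega,
        show min j (min j (l + 1 + k) + 1) = min j (l + 1 + (k + 1 : ℕ)) by omega] at h5)
    L le_rfl
  rw [max_eq_left (by omega), min_eq_left (by omega)] at hp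
  have hle2 := hle.trans (Bd.le_it (fun D => H1 (H1 D)) (H1 L))
  refine ⟨p, hp.1, hp.2, ?_⟩
  rw [hpl]
  exact q2.imp (fun h => h.mono hle2) fun h => h.mono hle2

/-- Translation lengths along a path. -/
theorem tl_lip : ∃ F, Bd F ∧ ∀ (L : ℕ) (x : G) (a : ℤ → S.A) (i j l l' : ℤ),
    x ≠ 1 → S.IsPath a i j → x ∈ S.Fix a i j → j - i ≤ L → i ≤ l → l < j → i ≤ l' → l' < j →
    (S.TL L x (S.src (a l)) ∨ S.TL L x (S.tgt (a l))) →
    S.TL (F L) x (S.src (a l')) ∧ S.TL (F L) x (S.tgt (a l')) := by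
  obtain ⟨F, hF, h⟩ := S.chain_of_fix
  refine ⟨F, hF, fun L x a i j l l' hx hp hf hL l1 l2 l3 l4 hT => ?_⟩
  have key : ∃ z, (S.nd z = S.src (a l) ∨ S.nd z = S.tgt (a l)) ∧ S.Cl L z (x • z) := by
    rcases hT with ⟨z, h1, h2⟩ | ⟨z, h1, h2⟩
    · exact ⟨z, Or.inl h1, h2⟩
    · exact ⟨z, Or.inr h1, h2⟩
  obtain ⟨z, z1, z2⟩ := key
  obtain ⟨p, -, p2, -⟩ := h L x a i j l z hx hp hf hL l1 l2 z1 z2
  obtain ⟨k1, k2, k3⟩ := p2 l' l3 l4
  exact ⟨⟨_, by rw [S.nd_s, k1], k2⟩, ⟨_, by rw [S.nd_t, k1], k3⟩⟩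

/-- Finitely many orbits of arrows that meet a finitely generated subgroup nontrivially. -/
theorem s2b_ext {K : Subgroup G} {v : N} (hK : K.FG) (h : K ≤ stabilizer G v) :
    ∃ E : Set S.A, E.Finite ∧ ∀ a, S.src a = v → K ⊓ stabilizer G a ≠ ⊥ →
      ∃ k ∈ K, k • a ∈ E := by
  by_cases hne : K = ⊥
  · exact ⟨∅, Set.finite_empty, fun a _ h => absurd (by rw [hne, bot_inf_eq]) h⟩
  obtain ⟨C, hC⟩ := S.near_arrow
  obtain ⟨Fb, -, hb⟩ := S.ball_bound
  obtain ⟨F, hF, hc⟩ := (S.kc_min hK h hne).1.finV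
  refine ⟨S.arr '' ⋃ y ∈ F, {p | S.Cl C y (S.s p)},
    (hF.biUnion fun y _ => (hb C y).2.2.1).image _, fun a ha h1 => ?_⟩
  obtain ⟨⟨x, hx⟩, h0⟩ := Subgroup.ne_bot_iff_exists_ne_one.1 h1
  have h0' : x ≠ 1 := fun h => h0 (Subtype.ext h)
  obtain ⟨z, rfl⟩ := S.nd_surj v
  obtain ⟨y, -, y1, g, hg, y2⟩ := S.s2b_axis h0' (z := z) (by rw [S.nd_smul, h hx.1]) hx
  obtain ⟨p, p1, p2⟩ := (hC a _ le_rfl).1 y ⟨y1.trans ha.symm, g, hg.2, y2⟩
  obtain ⟨k, hk, hy⟩ := hc y ⟨y1, g, hg.1, y2⟩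
  refine ⟨k, hk, k • p, Set.mem_biUnion hy ?_, by rw [S.arr_smul, p1]⟩
  rw [Set.mem_ofPred_eq, S.s_smul]
  exact p2.smul k

theorem s2b_match {a b : ℤ → S.A} {i m : ℤ} {g : G}
    (he : ∀ l : ℤ, 0 ≤ l → l < m → a (i + l) = g • b l) (h1 : S.IsPath a i (i + m))
    (h2 : S.Fix a i (i + m) ≠ ⊥) : S.IsPath b 0 m ∧ S.Fix b 0 m ≠ ⊥ := by
  refine ⟨fun l l1 l2 => ?_, fun h => h2 ?_⟩
  · have := h1 (i + l) (by omega) (by omega)
    rw [add_assoc, he l l1 (by omega), he (l + 1) (by omega) l2, S.tgt_smul, S.src_smul] at this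
    exact smul_left_cancel g this
  · have := fix_smul (a := b) (a' := a) (i := 0) (j := m) (c := i) (g := g)
      fun l l1 l2 => by rw [add_comm, he l l1 l2]
    rw [h, Subgroup.map_bot, zero_add, add_comm] at this
    exact this.symm

theorem s2b_fin (m : ℕ) : ∃ F : Set (ℤ → S.A), F.Finite ∧
    ∀ (a : ℤ → S.A) (i : ℤ), S.IsPath a i (i + (m + 1 : ℕ)) → S.Fix a i (i + (m + 1 : ℕ)) ≠ ⊥ →
      ∃ g : G, ∃ b ∈ F, ∀ l : ℤ, 0 ≤ l → l < (m + 1 : ℕ) → a (i + l) = g • b l := by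
  classical
  induction m with
  | zero =>
    obtain ⟨F, hF, hc⟩ := S.finA
    refine ⟨(fun b _ => b) '' F, hF.image _, fun a i _ _ => ?_⟩
    obtain ⟨k, -, hk⟩ := hc (a i) trivial
    refine ⟨k⁻¹, _, ⟨_, hk, rfl⟩, fun l l1 l2 => ?_⟩
    rw [show l = 0 by omega, add_zero, inv_smul_smul]
  | succ m ih =>
    obtain ⟨F, hF, hc⟩ := ih
    have hE : ∀ b : ℤ → S.A, ∃ E : Set S.A, E.Finite ∧ (S.IsPath b 0 (m + 1 : ℕ) →
        ∀ a, S.src a = S.tgt (b m) → S.Fix b 0 (m + 1 : ℕ) ⊓ stabilizer G a ≠ ⊥ →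
          ∃ k ∈ S.Fix b 0 (m + 1 : ℕ), k • a ∈ E) := by
      intro b
      by_cases hb : S.IsPath b 0 (m + 1 : ℕ)
      · obtain ⟨E, h1, h2⟩ := S.s2b_ext (fix_fg (by omega) hb)
          (fix_le_tgt (l := m) (by omega) (by omega))
        exact ⟨E, h1, fun _ => h2⟩
      · exact ⟨∅, Set.finite_empty, fun h => absurd h hb⟩
    choose E hE1 hE2 using hE
    refine ⟨⋃ b ∈ F, (fun e => Function.update b (m + 1 : ℕ) e) '' E b,
      hF.biUnion fun b _ => (hE1 b).image _, fun a i h1 h2 => ?_⟩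
    have h3 : S.IsPath a i (i + (m + 1 : ℕ)) := h1.mono le_rfl (by omega)
    have h4 : S.Fix a i (i + (m + 1 : ℕ)) ≠ ⊥ := fun h =>
      h2 (le_bot_iff.1 (h ▸ fix_mono le_rfl (by omega)))
    obtain ⟨g, b, hb, he⟩ := hc a i h3 h4
    obtain ⟨⟨x, hx⟩, h0⟩ := Subgroup.ne_bot_iff_exists_ne_one.1 h2
    have h0' : x ≠ 1 := fun h => h0 (Subtype.ext h)
    obtain ⟨k, hk, hke⟩ := hE2 b (S.s2b_match he h3 h4).1 (g⁻¹ • a (i + (m + 1 : ℕ))) (by
        have := h1 (i + m) (by omega) (by omega)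
        rw [he m (by omega) (by omega), S.tgt_smul] at this
        rw [S.src_smul, inv_smul_eq_iff, this]
        congr 2; omega) (by
        refine Subgroup.ne_bot_iff_exists_ne_one.2 ⟨⟨g⁻¹ * x * g, mem_fix.2 fun l l1 l2 => ?_, ?_⟩,
          fun h => h0' ?_⟩
        · rw [mul_smul, mul_smul, ← he l l1 l2, mem_fix.1 hx _ (by omega) (by omega), he l l1 l2,
            inv_smul_smul]
        · change (g⁻¹ * x * g) • _ = _
          rw [mul_smul, mul_smul, smul_inv_smul, mem_fix.1 hx _ (by omega) (by omega)]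
        · have h5 : g⁻¹ * x * g = 1 := congrArg Subtype.val h
          have h6 : x = g * (g⁻¹ * x * g) * g⁻¹ := by group
          rw [h6, h5]; group)
    refine ⟨g * k⁻¹, _, Set.mem_biUnion hb ⟨_, hke, rfl⟩, fun l l1 l2 => ?_⟩
    by_cases hl : l = (m + 1 : ℕ)
    · rw [hl]
      dsimp only
      rw [Function.update_self, mul_smul, inv_smul_smul, smul_inv_smul]
    · dsimp only
      rw [Function.update_of_ne hl, mul_smul,
        mem_fix.1 (Subgroup.inv_mem _ hk) l l1 (by omega), he l l1 (by omega)]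

/-- Windows of a given length with nontrivial stabiliser carry chains of bounded size. -/
theorem win_chain (m : ℕ) : ∃ C, ∀ (a : ℤ → S.A) (i : ℤ), S.IsPath a i (i + m) →
    S.Fix a i (i + m) ≠ ⊥ →
    ∃ p, S.Chain C p i (i + m) ∧ ∀ l, i ≤ l → l < i + m → S.arr (p l) = a l := by
  classical
  rcases Nat.eq_zero_or_pos m with rfl | hm
  · refine ⟨0, fun a i _ _ => ⟨fun l => Function.surjInv S.arr_surj (a l),
      fun l l1 l2 => by omega, fun l l1 l2 => by omega⟩⟩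
  obtain ⟨m, rfl⟩ := Nat.exists_eq_succ_of_ne_zero hm.ne'
  obtain ⟨F, hF, hc⟩ := S.s2b_fin m
  let pt : S.A → S.P := Function.surjInv S.arr_surj
  have hpt : ∀ a, S.arr (pt a) = a := Function.surjInv_eq S.arr_surj
  refine ⟨hF.toFinset.sup fun b => (Finset.range m).sup fun l =>
    S.B.dist (S.t (pt (b l))) (S.s (pt (b (l + 1)))), fun a i h1 h2 => ?_⟩
  obtain ⟨g, b, hb, he⟩ := hc a i h1 h2
  have hb' := (S.s2b_match he h1 h2).1
  refine ⟨fun l => g • pt (b (l - i)), fun l l1 l2 => ?_, fun l l1 l2 => ?_⟩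
  · rw [S.t_smul, S.s_smul]
    refine Cl.smul ⟨?_, ?_⟩ g
    · rw [S.nd_t, S.nd_s, hpt, hpt, hb' (l - i) (by omega) (by omega)]
      congr 2; ring
    · obtain ⟨n, hn⟩ := Int.eq_ofNat_of_zero_le (show 0 ≤ l - i by omega)
      rw [show l + 1 - i = l - i + 1 by ring, hn]
      refine le_trans ?_ (Finset.le_sup (f := fun b : ℤ → S.A => (Finset.range m).sup fun l : ℕ =>
        S.B.dist (S.t (pt (b l))) (S.s (pt (b (l + 1))))) (hF.mem_toFinset.2 hb))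
      exact Finset.le_sup (f := fun l : ℕ => S.B.dist (S.t (pt (b l))) (S.s (pt (b (l + 1)))))
        (Finset.mem_range.2 (by omega))
  · rw [S.arr_smul, hpt, ← he (l - i) (by omega) (by omega)]
    congr 1; ring

/-- Finitely many types of windows with nontrivial stabiliser. -/
theorem fin_win (m : ℕ) : ∃ F : Finset (ℤ → S.A), (∀ b ∈ F, S.IsPath b 0 m ∧ S.Fix b 0 m ≠ ⊥) ∧
    ∀ (a : ℤ → S.A) (i : ℤ), 1 ≤ m → S.IsPath a i (i + m) → S.Fix a i (i + m) ≠ ⊥ →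
      ∃ g : G, ∃ b ∈ F, ∀ l : ℤ, 0 ≤ l → l < m → a (i + l) = g • b l := by
  classical
  rcases Nat.eq_zero_or_pos m with rfl | hm
  · exact ⟨∅, by simp, fun a i h => by omega⟩
  obtain ⟨m, rfl⟩ := Nat.exists_eq_succ_of_ne_zero hm.ne'
  obtain ⟨F, hF, hc⟩ := S.s2b_fin m
  refine ⟨hF.toFinset.filter fun b => S.IsPath b 0 (m + 1 : ℕ) ∧ S.Fix b 0 (m + 1 : ℕ) ≠ ⊥,
    fun b hb => (Finset.mem_filter.1 hb).2, fun a i _ h1 h2 => ?_⟩
  obtain ⟨g, b, hb, he⟩ := hc a i h1 h2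
  exact ⟨g, b, Finset.mem_filter.2 ⟨hF.mem_toFinset.2 hb, S.s2b_match he h1 h2⟩, he⟩

end Sys

end CPOR
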