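import Pool.Agent.P.MP_2cb329_al.F.S2b

/-! Theorem F: cyclic windows, G2 and G3. -/

set_option autoImplicit false

namespace CPOR
open ZT MulAction

namespace Sys

variable {G : Type} [Group G] {N : Type} [MulAction G N] (S : Sys G N)

theorem s3_geom_pos (t : ℕ → ℤ) (J c : ℕ) (h0 : t 0 = 0) (h1 : 0 < t 1) (h2 : t 2 ≠ 0)
    (hne : t 2 ≠ t 1) (hrec : ∀ j, j + 1 ≤ J → (t (j + 1) - t 1) * t 1 = (t 2 - t 1) * t j)
    (hb1 : (t 1).natAbs ≤ c) (hbJ : (t J).natAbs ≤ c) : J ≤ 3 * c + 3 := by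
  obtain ⟨a, ha⟩ : ∃ a, a = t 1 := ⟨_, rfl⟩
  obtain ⟨b, hb⟩ : ∃ b, b = t 2 - t 1 := ⟨_, rfl⟩
  rw [← hb, ← ha] at hrec
  have ha0 : 0 < a := ha ▸ h1
  have hb0 : b ≠ 0 := by omega
  have hba : b ≠ -a := by omega
  rcases le_or_gt a b with hab | hab
  · have key : ∀ j, j ≤ J → (j : ℤ) ≤ t j := by
      intro j
      induction j with
      | zero => intro _; simp [h0]
      | succ j ih =>
        intro hj
        have e := hrec j hj
        have i := ih (by omega)
        have hj0 : (0 : ℤ) ≤ j := Int.natCast_nonneg j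
        have : t j * a ≤ (t (j + 1) - a) * a := by rw [e]; nlinarith
        have := le_of_mul_le_mul_right this ha0
        push_cast; omega
    have := key J le_rfl
    omega
  rcases lt_or_ge b (-a) with hab' | hab'
  · have key : ∀ i : ℕ, (2 * i ≤ J → t (2 * i) ≤ -i) ∧ (2 * i + 1 ≤ J → a + i ≤ t (2 * i + 1)) := by
      have step : ∀ i : ℕ, (2 * i ≤ J → t (2 * i) ≤ -i) → (2 * i + 1 ≤ J → a + i ≤ t (2 * i + 1)) := by
        intro i h hj
        have e := hrec (2 * i) hj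
        have i1 := h (by omega)
        have hj0 : (0 : ℤ) ≤ i := Int.natCast_nonneg i
        have : i * a ≤ (t (2 * i + 1) - a) * a := by rw [e]; nlinarith
        have := le_of_mul_le_mul_right this ha0
        omega
      intro i
      induction i with
      | zero => exact ⟨fun _ => by simp [h0], step 0 fun _ => by simp [h0]⟩
      | succ i ih =>
        have h : 2 * (i + 1) ≤ J → t (2 * (i + 1)) ≤ -((i + 1 : ℕ) : ℤ) := by
          intro hj
          have e := hrec (2 * i + 1) (by omega)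
          have i1 := ih.2 (by omega)
          have hj0 : (0 : ℤ) ≤ i := Int.natCast_nonneg i
          have : (t (2 * i + 1 + 1) - a) * a ≤ (-(i + 1) - a) * a := by rw [e]; nlinarith
          have := le_of_mul_le_mul_right this ha0
          rw [show 2 * (i + 1) = 2 * i + 1 + 1 by ring]
          push_cast; omega
        exact ⟨h, step _ h⟩
    obtain ⟨i, hi | hi⟩ := Nat.even_or_odd' J
    · have := (key i).1 hi.ge
      rw [← hi] at this
      omega
    · have := (key i).2 hi.ge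
      rw [← hi] at this
      omega
  · have key : ∀ j, j + 1 ≤ J → t (j + 1) - t j ≠ 0 ∧ |t (j + 1) - t j| + j ≤ a := by
      intro j
      induction j with
      | zero =>
        intro _
        rw [h0, Nat.zero_add, ← ha, sub_zero, abs_of_pos ha0]
        exact ⟨ha0.ne', by simp⟩
      | succ j ih =>
        intro hj
        obtain ⟨i1, i2⟩ := ih (by omega)
        have e1 := hrec j (by omega)
        have e2 := hrec (j + 1) hj
        have e : (t (j + 1 + 1) - t (j + 1)) * a = b * (t (j + 1) - t j) := by linarith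
        refine ⟨fun h => ?_, ?_⟩
        · rw [h, zero_mul] at e
          exact mul_ne_zero hb0 i1 e.symm
        · have e' := congrArg abs e
          rw [abs_mul, abs_mul, abs_of_pos ha0] at e'
          have p1 : 0 < |t (j + 1) - t j| := abs_pos.2 i1
          have p2 : |b| < a := abs_lt.2 ⟨by omega, hab⟩
          have : |t (j + 1 + 1) - t (j + 1)| * a < |t (j + 1) - t j| * a := by
            rw [e']; nlinarith
          have := lt_of_mul_lt_mul_right this ha0.le
          push_cast; omega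
    rcases Nat.eq_zero_or_pos J with h | h
    · omega
    obtain ⟨j, rfl⟩ : ∃ j, J = j + 1 := ⟨J - 1, by omega⟩
    obtain ⟨-, i2⟩ := key j le_rfl
    have := abs_nonneg (t (j + 1) - t j)
    omega

/-- Arithmetic of the exponents. -/
theorem geom_seq (t : ℕ → ℤ) (J c : ℕ) (h0 : t 0 = 0) (h1 : t 1 ≠ 0) (h2 : t 2 ≠ 0)
    (hne : t 2 ≠ t 1) (hrec : ∀ j, j + 1 ≤ J → (t (j + 1) - t 1) * t 1 = (t 2 - t 1) * t j)
    (hb1 : (t 1).natAbs ≤ c) (hbJ : (t J).natAbs ≤ c) : J ≤ 3 * c + 3 := by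
  rcases lt_or_gt_of_ne h1 with h | h
  · refine s3_geom_pos (fun j => -t j) J c (by simp [h0]) (by simpa using h) (by simpa using h2)
      (by simpa using hne) (fun j hj => ?_) (by simpa using hb1) (by simpa using hbJ)
    have := hrec j hj
    linarith
  · exact s3_geom_pos t J c h0 h h2 hne hrec hb1 hbJ

variable {S}

theorem s3_arr_zpow {L k : ℕ} {u : G} {p : ℤ → S.P} (h : S.Thread L k u p) (j i : ℤ) :
    S.arr (p (i + j * k)) = u ^ j • S.arr (p i) := by
  rw [h.zpow, S.arr_smul]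

/-- A cyclic window can be moved to the start of a thread. -/
theorem s3_window {L k m : ℕ} {u : G} {p : ℤ → S.P} (h : S.Thread L k u p) (hm : 1 ≤ m) {l : ℤ}
    (hc : IsCyclic (S.Fix (fun i => S.arr (p i)) l (l + m))) :
    ∃ (M : ℕ) (c : G), 1 ≤ M ∧ M ≤ L + m ∧
      S.Fix (fun i => S.arr (p i)) 0 M = Subgroup.zpowers c := by
  have hk : (0 : ℤ) < k := by exact_mod_cast h.pos
  have h0 : 0 ≤ l % k := Int.emod_nonneg _ hk.ne'
  have h1 : l % k < k := Int.emod_lt_of_pos _ hk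
  have hl : l % k + l / k * k = l := by
    rw [mul_comm]; exact Int.emod_add_mul_ediv l k
  have e := fix_smul (S := S) (a := fun i => S.arr (p i)) (a' := fun i => S.arr (p i))
    (i := l % k) (j := l % k + m) (c := l / k * k) (g := u ^ (l / k))
    (fun i _ _ => (s3_arr_zpow h _ _).symm)
  rw [hl, show l % k + m + l / k * k = l + m by omega] at e
  rw [← e, isCyclic_conj] at hc
  have hle := h.le
  obtain ⟨c, hc⟩ := exists_gen_of_isCyclic
    (isCyclic_of_le hc (fix_mono (S := S) (a := fun i => S.arr (p i)) h0 le_rfl))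
  refine ⟨(l % k).toNat + m, c, by omega, by omega, ?_⟩
  rw [← hc]
  congr 1
  push_cast
  omega

theorem s3_nd {c : G} {p : S.P} (h : c • S.arr p = S.arr p) : c • S.nd (S.s p) = S.nd (S.s p) := by
  rw [S.nd_s, ← S.src_smul, h]

theorem s3_natAbs {c : G} (hc : c ≠ 1) {x : S.V} (h : c • S.nd x = S.nd x) {r : ℕ} {n : ℤ}
    (hr : S.Cl r x (c ^ n • x)) : n.natAbs ≤ r :=
  (S.ft.natAbs_le hc ((S.nd_eq _ _).1 (by rw [S.nd_smul, h])) n).trans hr.2

theorem s3_zpow_inj {c : G} (hc : c ≠ 1) {x : S.V} (h : c • S.nd x = S.nd x) {i j : ℤ}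
    (hij : c ^ i = c ^ j) : i = j := by
  by_contra hne
  exact hc (S.eq_one_of_zpow h (sub_ne_zero.2 hne) (by rw [zpow_sub, hij, mul_inv_cancel]))

theorem s3_cl_zpow {c : G} {x : S.V} {r : ℕ} (h : S.Cl r x (c • x)) (n : ℤ) :
    S.Cl (n.natAbs * r) x (c ^ n • x) := by
  obtain ⟨h1, h2⟩ := dist_zpow_le S.gf.acts h.reach n
  exact ⟨(S.nd_eq _ _).2 h1, h2.trans (Nat.mul_le_mul_left _ h.2)⟩

variable (S)

theorem cyc2 (m : ℕ) (hm : 1 ≤ m) : S.G2P (fun a i j => ¬ S.NC m a i j) := by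
  obtain ⟨FL, hFL, hlip⟩ := S.chain_lip
  have hC : Bd fun L => L + FL (L + L + m) :=
    Bd.id.add (hFL.comp ((Bd.id.add Bd.id).add (Bd.const m)))
  refine ⟨2, by norm_num, fun L => L + m + (3 * (L + FL (L + L + m)) + 4) * L,
    (Bd.id.add (Bd.const m)).add ((((Bd.const 3).mul hC).add (Bd.const 4)).mul Bd.id), ?_⟩
  intro L k n u u' p p' hp hp' harr hW h0 hn
  obtain ⟨l, hc⟩ : ∃ l : ℤ, IsCyclic (S.Fix (fun i => S.arr (p i)) l (l + m)) := by
    by_contra hne
    exact hW fun l _ _ hc => hne ⟨l, hc⟩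
  obtain ⟨M, c, hM1, hML, hfix⟩ := s3_window hp hm hc
  have hk1 := hp.pos
  have hkL := hp.le
  by_cases hnM : n + 1 < M
  · left
    show n ≤ L + m + (3 * (L + FL (L + L + m)) + 4) * L
    omega
  obtain ⟨J, hJ⟩ : ∃ J, J = (n + 1 - M) / k := ⟨_, rfl⟩
  have hJ1 : J * k ≤ n + 1 - M := hJ ▸ Nat.div_mul_le_self _ _
  have hJ2 : n + 1 - M < (J + 1) * k := by
    rw [hJ, mul_comm]; exact Nat.lt_mul_div_succ _ hk1
  suffices hfin : J ≤ 3 * (L + FL (L + L + m)) + 3 ∨ u ^ 2 = u' ^ 2 by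
    refine hfin.imp_left fun h => ?_
    have : (J + 1) * k ≤ (3 * (L + FL (L + L + m)) + 4) * L := Nat.mul_le_mul (by omega) hkL
    show n ≤ L + m + (3 * (L + FL (L + L + m)) + 4) * L
    omega
  by_cases hJ0 : J < 2
  · left; omega
  have hjk : ∀ j : ℕ, j ≤ J → (j : ℤ) * k + M ≤ n + 1 := fun j hj => by
    have h1 : j * k ≤ J * k := Nat.mul_le_mul_right k hj
    have h2 : j * k + M ≤ n + 1 := by omega
    exact_mod_cast h2
  have hmem : ∀ j : ℕ, j ≤ J → ∃ t : ℤ, c ^ t = (u ^ j)⁻¹ * u' ^ j := fun j hj => by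
    rw [← Subgroup.mem_zpowers_iff, ← hfix, mem_fix]
    intro i hi0 hiM
    have h1 := hjk j hj
    have h2 : (0 : ℤ) ≤ (j : ℤ) * k := by positivity
    show ((u ^ j)⁻¹ * u' ^ j) • S.arr (p i) = S.arr (p i)
    rw [mul_smul, inv_smul_eq_iff, ← zpow_natCast, ← zpow_natCast, ← s3_arr_zpow hp,
      harr i hi0 (by omega), ← s3_arr_zpow hp', harr _ (by omega) (by omega)]
  choose! t ht using hmem
  by_cases hc1 : c = 1
  · right
    have := ht 2 (by omega)
    rw [hc1, one_zpow, eq_inv_mul_iff_mul_eq, mul_one] at this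
    exact this
  have hc0 : c • S.arr (p' 0) = S.arr (p' 0) := by
    have : c ∈ S.Fix (fun i => S.arr (p i)) 0 M := hfix ▸ Subgroup.mem_zpowers c
    rw [← harr 0 le_rfl (Int.natCast_nonneg n)]
    exact mem_fix.1 this 0 le_rfl (by exact_mod_cast hM1)
  have hnd := s3_nd hc0
  have hconj : ∀ j, j + 1 ≤ J → u⁻¹ * c ^ t j * u = c ^ (t (j + 1) - t 1) := fun j hj => by
    rw [zpow_sub, ht j (by omega), ht (j + 1) hj, ht 1 (by omega)]
    group
  by_cases h2 : t 2 = 0
  · right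
    have := ht 2 (by omega)
    rw [h2, zpow_zero, eq_inv_mul_iff_mul_eq, mul_one] at this
    exact this
  by_cases h1 : t 1 = 0
  · right
    have := ht 1 (by omega)
    rw [h1, zpow_zero, eq_inv_mul_iff_mul_eq, mul_one, pow_one, pow_one] at this
    rw [this]
  left
  have hbound : ∀ j : ℕ, j ≤ J →
      S.Cl (FL (L + L + m)) (S.s (p (0 + (j : ℤ) * k))) (S.s (p' (0 + (j : ℤ) * k))) →
      (t j).natAbs ≤ L + FL (L + L + m) := fun j hj hcl => by
    refine s3_natAbs hc1 hnd ?_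
    rw [ht j hj, ← cl_smul_iff (u ^ j), mul_smul, smul_inv_smul]
    rw [hp.zpow, hp'.zpow, S.s_smul, S.s_smul, zpow_natCast, zpow_natCast] at hcl
    exact (h0.symm.smul _).trans hcl
  have hLL : L ≤ L + L + m := by omega
  refine geom_seq t J _ ?_ h1 h2 ?_ ?_ (hbound 1 (by omega) ?_) (hbound J le_rfl ?_)
  · refine s3_zpow_inj hc1 hnd ?_
    rw [ht 0 (by omega)]; simp
  · intro h
    have := hconj 1 (by omega)
    rw [h, sub_self, zpow_zero] at this
    refine h1 (s3_zpow_inj hc1 hnd ?_)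
    have e : c ^ t 1 = u * (u⁻¹ * c ^ t 1 * u) * u⁻¹ := by group
    rw [e, this]; group
  · intro j hj
    refine s3_zpow_inj hc1 hnd ?_
    rw [zpow_mul, zpow_mul, ← hconj j hj, ← hconj 1 (by omega)]
    have e : ∀ i i' : ℤ, (u⁻¹ * c ^ i * u) ^ i' = u⁻¹ * c ^ (i * i') * u := fun i i' => by
      have := conj_zpow (a := u⁻¹) (b := c ^ i) (i := i')
      rw [inv_inv] at this
      rw [this, zpow_mul]
    rw [e, e, mul_comm (t j)]
  · have h3 := hjk 1 (by omega)
    push_cast at h3 ⊢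
    exact (hlip (L + L + m) p p' 0 (k + 1) 0 _ ((hp.mono hLL).chain _ _) ((hp'.mono hLL).chain _ _)
      (fun i hi hi' => harr i hi (by omega)) (by push_cast; omega) le_rfl (by omega) (by omega)
      (by omega) (Or.inl (h0.mono hLL))).1
  · have h3 := hjk J le_rfl
    have h4 : (0 : ℤ) ≤ (J : ℤ) * k := by positivity
    have h5 : ((n + 1 - M : ℕ) : ℤ) < ((J + 1) * k : ℕ) := by exact_mod_cast hJ2
    push_cast at h5
    rw [add_mul, one_mul] at h5
    exact (hlip (L + L + m) p p' (J * k) (n + 1) n _ ((hp.mono hLL).chain _ _)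
      ((hp'.mono hLL).chain _ _) (fun i hi hi' => harr i (by omega) (by omega))
      (by push_cast; omega) (by omega) (by omega) (by omega)
      (by omega) (Or.inl (hn.mono hLL))).1

theorem cyc3 (m : ℕ) (hm : 1 ≤ m) : ∃ F, Bd F ∧ ∀ (L k : ℕ) (u : G) (p p' : ℤ → S.P) (l : ℤ),
    S.Thread L k u p → S.Thread L k u p' → (∀ i, S.arr (p i) = S.arr (p' i)) →
    IsCyclic (S.Fix (fun i => S.arr (p i)) l (l + m)) →
    ∃ e : G, Commute e u ∧ (∀ i, e • S.arr (p i) = S.arr (p i)) ∧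
      S.Cl (F L) (S.s (p 0)) (e • S.s (p' 0)) := by
  obtain ⟨FC, hFC, hcarry⟩ := S.carry
  obtain ⟨FS', hFS, hsmall⟩ := S.small_elt
  have hK : Bd fun K => FC K + (FC K + FC K) * FS' K * FS' K :=
    hFC.add (((hFC.add hFC).mul hFS).mul hFS)
  refine ⟨_, hK.comp ((Bd.id.add Bd.id).add (Bd.const m)), ?_⟩
  intro L k u p p' l hp hp' harr hc
  obtain ⟨M, c, hM1, hML, hfix⟩ := s3_window hp hm hc
  have hk1 := hp.pos
  have hkL := hp.le
  obtain ⟨K, hKdef⟩ : ∃ K, K = L + L + m := ⟨_, rfl⟩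
  rw [← hKdef]
  have hLK : L ≤ K := by omega
  have hfun : (fun i => S.arr (p' i)) = fun i => S.arr (p i) := funext fun i => (harr i).symm
  have hdown : ∀ g ∈ S.Fix (fun i => S.arr (p i)) 0 (M + k),
      (∃ t : ℤ, c ^ t = g) ∧ ∃ t : ℤ, c ^ t = u⁻¹ * g * u := fun g hg => by
    rw [← Subgroup.mem_zpowers_iff, ← Subgroup.mem_zpowers_iff, ← hfix]
    refine ⟨fix_mono le_rfl (by omega) hg, mem_fix.2 fun i hi hi' => ?_⟩
    have := mem_fix.1 hg (i + k) (by omega) (by omega)
    rw [mul_smul, mul_smul, inv_smul_eq_iff]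
    simpa only [hp.per, S.arr_smul] using this
  obtain ⟨g, hg, hcl⟩ := hcarry K p p' 0 (M + k) ((hp.mono hLK).chain _ _)
    ((hp'.mono hLK).chain _ _) (fun i _ _ => harr i) (by omega) (by omega)
  have a0 := (hcl 0 le_rfl (by omega)).1
  have ak : S.Cl (FC K) (S.s (p 0)) ((u⁻¹ * g * u) • S.s (p' 0)) := by
    have := (hcl (0 + k) (by omega) (by omega)).1
    rw [hp.per, hp'.per, S.s_smul, S.s_smul] at this
    rw [← cl_smul_iff u, mul_smul, mul_smul, smul_inv_smul]
    exact this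
  by_cases hcomm : u⁻¹ * g * u = g
  · have hcm : Commute g u := by
      have : g * u = u * (u⁻¹ * g * u) := by group
      rw [hcomm] at this
      exact this
    refine ⟨g, hcm, fun i => ?_, a0.mono (Nat.le_add_right _ _)⟩
    have hk : (0 : ℤ) < k := by exact_mod_cast hk1
    have h0 : 0 ≤ i % k := Int.emod_nonneg _ hk.ne'
    have h1 : i % k < k := Int.emod_lt_of_pos _ hk
    have hl : i % k + i / k * k = i := by
      rw [mul_comm]; exact Int.emod_add_mul_ediv i k
    have h2 : g • S.arr (p (i % k)) = S.arr (p (i % k)) := mem_fix.1 hg _ h0 (by omega)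
    rw [← hl, s3_arr_zpow hp, ← mul_smul, (hcm.zpow_right _).eq, mul_smul, h2]
  refine ⟨1, Commute.one_left u, fun i => one_smul _ _, ?_⟩
  have hg1 : g ≠ 1 := by
    rintro rfl
    exact hcomm (by group)
  obtain ⟨⟨t, ht⟩, t', ht'⟩ := hdown g hg
  have hc1 : c ≠ 1 := by
    rintro rfl
    exact hg1 (by rw [← ht, one_zpow])
  have hc0 : c • S.arr (p' 0) = S.arr (p' 0) := by
    have : c ∈ S.Fix (fun i => S.arr (p i)) 0 M := hfix ▸ Subgroup.mem_zpowers c
    rw [← harr 0]
    exact mem_fix.1 this 0 le_rfl (by exact_mod_cast hM1)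
  have hnd := s3_nd hc0
  obtain ⟨h, hh, hh1, hhcl⟩ := hsmall K p' 0 (M + k) ((hp'.mono hLK).chain _ _) (by omega)
    (by omega) (by
      rw [hfun]
      intro hb
      rw [hb] at hg
      exact hg1 (Subgroup.mem_bot.1 hg))
  rw [hfun] at hh
  obtain ⟨⟨j, hj⟩, r, hr⟩ := hdown h hh
  have hj0 : j ≠ 0 := by
    rintro rfl
    exact hh1 (by rw [← hj, zpow_zero])
  have b0 := (hhcl 0 le_rfl (by omega)).1
  rw [← hj] at b0
  have b1 : j.natAbs ≤ FS' K := s3_natAbs hc1 hnd b0
  have b2 := Cl.of_zpow hj0 hnd b0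
  have b3 : (t - t').natAbs ≤ FC K + FC K := by
    refine s3_natAbs hc1 hnd ?_
    rw [← cl_smul_iff (c ^ t'), ← mul_smul, ← zpow_add, add_sub_cancel, ht, ht']
    exact ak.symm.trans a0
  have hconj : ∀ (x : G) (i : ℤ), (u⁻¹ * x * u) ^ i = u⁻¹ * x ^ i * u := fun x i => by
    have := conj_zpow (a := u⁻¹) (b := x) (i := i)
    rwa [inv_inv] at this
  have e1 : t' * j = r * t := by
    refine s3_zpow_inj hc1 hnd ?_
    rw [zpow_mul, zpow_mul, ht', hr, hconj, hconj, ← ht, ← hj, ← zpow_mul, ← zpow_mul,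
      mul_comm t j]
  have hjr : j - r ≠ 0 := by
    intro e
    have e2 : r = j := by omega
    rw [e2, mul_comm j t] at e1
    exact hcomm (by rw [← ht', ← ht, mul_right_cancel₀ hj0 e1])
  have b4 : t.natAbs ≤ (FC K + FC K) * FS' K := by
    have e2 : t * (j - r) = (t - t') * j := by linarith
    have e3 := congrArg Int.natAbs e2
    rw [Int.natAbs_mul, Int.natAbs_mul] at e3
    calc t.natAbs ≤ t.natAbs * (j - r).natAbs :=
          Nat.le_mul_of_pos_right _ (Int.natAbs_pos.2 hjr)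
      _ = (t - t').natAbs * j.natAbs := e3
      _ ≤ _ := Nat.mul_le_mul b3 b1
  have b5 := s3_cl_zpow b2 t
  rw [ht] at b5
  rw [one_smul]
  exact (a0.trans b5.symm).mono (Nat.add_le_add_left (Nat.mul_le_mul_right _ b4) _)

end Sys

end CPOR
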