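import Pool.Agent.P.MP_2cb329_al.F.O2

/-! Theorem F: darts, separation, hulls, weighted lengths, acyclicity criteria. -/

set_option autoImplicit false

namespace CPOR
open ZT MulAction

variable {V : Type} {T : SimpleGraph V} {G : Type} [Group G] [MulAction G V]

theorem Sep.smul (hA : Acts T G) (g : G) {e : V × V} {x y : V} (h : Sep T e x y) :
    Sep T (g • e) (g • x) (g • y) := by
  exact ⟨hA g _ _ h.1, hA.btw g h.2.1, hA.btw g h.2.2⟩

theorem Sep.swap {e : V × V} {x y : V} (h : Sep T e x y) : Sep T e.swap y x := by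
  exact ⟨h.1.symm, h.2.2.symm, h.2.1.symm⟩

theorem Sep.reach {e : V × V} {x y : V} (h : Sep T e x y) : T.Reachable x y := by
  exact h.2.1.1.trans h.2.2.reach

theorem subset_hull (S : Set V) : S ⊆ hull T S := by
  intro y hy
  exact ⟨y, hy, y, hy, btw_left (SimpleGraph.Reachable.refl y)⟩

theorem hull_subset {S C : Set V} (hC : Cvx T C) (h : S ⊆ C) : hull T S ⊆ C := by
  rintro y ⟨x, hx, z, hz, hb⟩
  exact (hC x (h hx) z (h hz)).2 y hb

theorem inv_hull (hA : Acts T G) {K : Subgroup G} {S : Set V} (h : Inv K S) : Inv K (hull T S) := by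
  rintro k hk y ⟨x, hx, z, hz, hb⟩
  exact ⟨k • x, h k hk x hx, k • z, h k hk z hz, hA.btw k hb⟩

theorem inv_darts (hA : Acts T G) (K : Subgroup G) : Inv K (Darts T) := by
  intro k _ e he
  exact hA k _ _ he

theorem inv_dartsIn (hA : Acts T G) {K : Subgroup G} {X : Set V} (h : Inv K X) :
    Inv K (DartsIn T X) := by
  intro k hk e he
  exact ⟨hA k _ _ he.1, h k hk _ he.2.1, h k hk _ he.2.2⟩

theorem GF.dart_free (h : GF T G) {g : G} {e : V × V} (he : T.Adj e.1 e.2) (hg : g • e = e) :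
    g = 1 := by
  exact h.etriv g e.1 e.2 he (congrArg Prod.fst hg) (congrArg Prod.snd hg)

theorem GF.ne_swap (h : GF T G) (g : G) {e : V × V} (he : T.Adj e.1 e.2) : g • e ≠ e.swap := by
  intro H
  exact h.noinv g e.1 e.2 he (congrArg Prod.fst H) (congrArg Prod.snd H)

/-- A nontrivial element fixes at most one vertex of a component. -/
theorem GF.fix_unique (h : GF T G) {g : G} (hg : g ≠ 1) {x y : V} (hr : T.Reachable x y)
    (hx : g • x = x) (hy : g • y = y) : x = y := by
  by_contra hne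
  have hd : 1 ≤ T.dist x y := by
    by_contra h0
    exact hne (eq_of_dist_zero hr (by omega))
  obtain ⟨z, hz, e⟩ := exists_btw_dist hr hd
  exact hg (h.etriv g x z (adj_of_dist_one e) hx (fix_btw h.acyc h.acts hx hy hz))

/-- Components as a `G`-set. -/
theorem exists_comp (hA : Acts T G) :
    ∃ (C : Type) (_ : MulAction G C) (c : V → C), Function.Surjective c ∧
      (∀ (g : G) x, c (g • x) = g • c x) ∧ ∀ x y, c x = c y ↔ T.Reachable x y := by
  let φ : G → T →g T := fun g => ⟨fun v => g • v, fun h => hA g _ _ h⟩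
  let inst : MulAction G T.ConnectedComponent :=
    { smul := fun g c => c.map (φ g)
      one_smul := fun c => by
        induction c using SimpleGraph.ConnectedComponent.ind with
        | _ v =>
          show T.connectedComponentMk ((1 : G) • v) = T.connectedComponentMk v
          rw [one_smul]
      mul_smul := fun g g' c => by
        induction c using SimpleGraph.ConnectedComponent.ind with
        | _ v =>
          show T.connectedComponentMk ((g * g') • v) = T.connectedComponentMk (g • g' • v)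
          rw [mul_smul] }
  refine ⟨T.ConnectedComponent, inst, T.connectedComponentMk, fun c => ?_, fun g x => rfl,
    fun x y => SimpleGraph.ConnectedComponent.eq⟩
  induction c using SimpleGraph.ConnectedComponent.ind with
  | _ v => exact ⟨v, rfl⟩

/-- Every edge is cut by a two-valued function. -/
theorem acyclic_of_cut
    (h : ∀ x y, T.Adj x y → ∃ H : V → Prop, H y ∧ ¬ H x ∧
      ∀ u v, T.Adj u v → (u, v) ≠ (x, y) → (u, v) ≠ (y, x) → (H u ↔ H v)) : T.IsAcyclic := by
  rw [SimpleGraph.isAcyclic_iff_forall_adj_isBridge]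
  intro x y hxy
  obtain ⟨H, hy, hx, hH⟩ := h x y hxy
  rw [SimpleGraph.isBridge_iff]
  intro hr
  have key : ∀ u v, (T.deleteEdges {s(x, y)}).Reachable u v → (H u ↔ H v) := by
    rintro u v ⟨w⟩
    induction w with
    | nil => exact Iff.rfl
    | @cons a b c hab _ ih =>
      rw [SimpleGraph.deleteEdges_adj] at hab
      refine (hH a b hab.1 ?_ ?_).trans ih
      · intro e
        obtain ⟨rfl, rfl⟩ := Prod.mk.inj e
        exact hab.2 rfl
      · intro e
        obtain ⟨rfl, rfl⟩ := Prod.mk.inj e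
        exact hab.2 (by simp)
  exact hx ((key x y hr).2 hy)

theorem acyclic_of_noback
    (h : ∀ (a : ℕ → V) (n : ℕ), 0 < n → (∀ i < n, T.Adj (a i) (a (i + 1))) →
      (∀ i, i + 2 ≤ n → a i ≠ a (i + 2)) → a 0 ≠ a n) : T.IsAcyclic := by
  intro v c hc
  have h3 := hc.three_le_length
  refine h c.getVert c.length (by omega) (fun i hi => c.adj_getVert_succ hi) (fun i hi => ?_)
    (by simp)
  have := hc.getVert_sub_one_ne_getVert_add_one (i := i + 1) (by omega)
  simpa using this

theorem cvx_comp (c : V) : Cvx T {x | T.Reachable c x} := by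
  intro x hx z hz
  exact ⟨hx.symm.trans hz, fun y hy => hx.trans hy.1⟩

section Acyclic

variable (hT : T.IsAcyclic)
include hT

theorem btw_iff_cut {x y : V} (hxy : T.Adj x y) (H : V → Prop) (hy : H y) (hx : ¬ H x)
    (hH : ∀ u v, T.Adj u v → (u, v) ≠ (x, y) → (u, v) ≠ (y, x) → (H u ↔ H v)) {z : V}
    (hz : T.Reachable x z) : Btw T x y z ↔ H z := by
  have hd := SimpleGraph.dist_eq_one_iff_adj.2 hxy
  have hd' := SimpleGraph.dist_eq_one_iff_adj.2 hxy.symm
  have key : ∀ p q : V, T.Adj p q →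
      (∀ u v, T.Adj u v → (u, v) ≠ (p, q) → (u, v) ≠ (q, p) → (H u ↔ H v)) →
      Btw T p q z → (H q ↔ H z) := by
    intro p q hpq hH' hb
    obtain ⟨a, h0, hn, hadj, -, hbt⟩ := exists_geod hb.2.1
    have hne : ∀ i ≤ T.dist q z, a i ≠ p := by
      intro i hi e
      have h1 := (hb.trans_right (hbt i hi)).2
      rw [e] at h1
      exact hpq.ne h1.eq_of_self.symm
    have : ∀ i ≤ T.dist q z, (H q ↔ H (a i)) := by
      intro i
      induction i with
      | zero => intro _; rw [h0]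
      | succ i ih =>
        intro hi
        refine (ih (by omega)).trans (hH' _ _ (hadj i (by omega)) ?_ ?_)
        · intro e
          exact hne i (by omega) (Prod.mk.inj e).1
        · intro e
          exact hne (i + 1) hi (Prod.mk.inj e).2
    have h2 := this _ le_rfl
    rwa [hn] at h2
  constructor
  · intro hb
    exact (key x y hxy hH hb).1 hy
  · intro hz'
    rcases adj_btw hT hxy hz with hb | hb
    · exact hb
    · exact absurd ((key y x hxy.symm (fun u v huv h1 h2 => hH u v huv h2 h1) hb).2 hz') hx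

theorem Sep.btw {e : V × V} {x y : V} (h : Sep T e x y) :
    Btw T x e.1 y ∧ Btw T x e.2 y ∧ T.dist x e.2 = T.dist x e.1 + 1 ∧
      T.dist e.1 y = T.dist e.2 y + 1 := by
  obtain ⟨h1, h2⟩ := h.2.1.glue hT h.2.2 h.1.ne
  have hd := SimpleGraph.dist_eq_one_iff_adj.2 h.1
  have e1 := h.2.1.2.2
  have e2 := h.2.2.2.2
  exact ⟨h1, h2, by omega, by omega⟩

theorem sep_of_btw {p q x y : V} (h : T.Adj p q) (hp : Btw T x p y) (hq : Btw T x q y) :
    Sep T (p, q) x y ∨ Sep T (q, p) x y := by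
  rcases le_total (T.dist x p) (T.dist x q) with hd | hd
  · obtain ⟨h1, h2⟩ := hp.compare hT hq hd
    exact Or.inl ⟨h, h1, h2⟩
  · obtain ⟨h1, h2⟩ := hq.compare hT hp hd
    exact Or.inr ⟨h.symm, h1, h2⟩

theorem sep_adj {p q : V} (h : T.Adj p q) : Sep T (p, q) p q := by
  have _ := hT
  exact ⟨h, btw_left h.reachable, btw_right h.reachable⟩

theorem Sep.eq_of_adj {e : V × V} {p q : V} (h : T.Adj p q) (he : Sep T e p q) : e = (p, q) := by
  obtain ⟨h1, h2, h3, h4⟩ := he.btw hT
  have hd := SimpleGraph.dist_eq_one_iff_adj.2 h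
  have e1 := h1.2.2
  have e2 := h2.2.2
  have a1 : p = e.1 := eq_of_dist_zero h1.1 (by omega)
  have a2 : e.2 = q := eq_of_dist_zero h2.2.1 (by omega)
  exact Prod.ext a1.symm a2

theorem not_btw_both {p q x : V} (h : T.Adj p q) (h1 : Btw T x p q) : ¬ Btw T p q x := by
  have _ := hT
  intro h2
  have hd := SimpleGraph.dist_eq_one_iff_adj.2 h
  have e1 := h1.2.2
  have e2 := h2.2.2
  rw [SimpleGraph.dist_comm (u := q) (v := x), SimpleGraph.dist_comm (u := p) (v := x)] at e2
  omega

theorem Sep.not_swap {e : V × V} {x y : V} (h : Sep T e x y) : ¬ Sep T e.swap x y := by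
  intro h'
  have e1 := (h.btw hT).2.2.1
  have e2 := (h'.btw hT).2.2.1
  simp only [Prod.fst_swap, Prod.snd_swap] at e2
  omega

theorem not_sep_self (e : V × V) (x : V) : ¬ Sep T e x x := by
  intro h
  exact not_btw_both hT h.1 h.2.1 h.2.2

theorem sep_iff_of_btw {x y z : V} (h : Btw T x y z) (e : V × V) :
    Sep T e x z ↔ Sep T e x y ∨ Sep T e y z := by
  constructor
  · intro hs
    rcases adj_btw hT hs.1 (hs.2.1.1.symm.trans h.1) with hb | hb
    · exact Or.inl ⟨hs.1, hs.2.1, hb⟩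
    · exact Or.inr ⟨hs.1, hb.symm, hs.2.2⟩
  · rintro (hs | hs)
    · have h1 := (h.trans_left (hs.btw hT).2.1).1
      exact ⟨hs.1, hs.2.1, (h1.trans_left hs.2.1).2⟩
    · have h1 := (h.trans_right (hs.btw hT).1).1
      exact ⟨hs.1, (h1.trans_right hs.2.2).2, hs.2.2⟩

theorem not_sep_both {e : V × V} {x y z : V} (h : Sep T e x y) : ¬ Sep T e y z := by
  intro h'
  exact not_btw_both hT h.1 h'.2.1 h.2.2

theorem Sep.tri {e : V × V} {x z : V} (h : Sep T e x z) {y : V} (hy : T.Reachable x y) :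
    Sep T e x y ∨ Sep T e y z := by
  rcases adj_btw hT h.1 (h.2.1.1.symm.trans hy) with hb | hb
  · exact Or.inl ⟨h.1, h.2.1, hb⟩
  · exact Or.inr ⟨h.1, hb.symm, h.2.2⟩

/-- Two darts on one geodesic are equal or ordered. -/
theorem Sep.order {e e' : V × V} {x y : V} (h : Sep T e x y) (h' : Sep T e' x y) :
    e = e' ∨ (Sep T e x e'.1 ∧ Sep T e' e.2 y) ∨ (Sep T e' x e.1 ∧ Sep T e e'.2 y) := by
  have key : ∀ e e' : V × V, Sep T e x y → Sep T e' x y → T.dist x e.1 < T.dist x e'.1 →
      Sep T e x e'.1 ∧ Sep T e' e.2 y := by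
    intro e e' h h' hd
    obtain ⟨a1, a2, a3, a4⟩ := h.btw hT
    obtain ⟨b1, b2, b3, b4⟩ := h'.btw hT
    obtain ⟨c1, c2⟩ := a2.compare hT b1 (by omega)
    exact ⟨⟨h.1, h.2.1, (c1.trans_left h.2.1).2⟩, ⟨h'.1, (c2.trans_right h'.2.2).2, h'.2.2⟩⟩
  rcases lt_trichotomy (T.dist x e.1) (T.dist x e'.1) with hd | hd | hd
  · exact Or.inr (Or.inl (key e e' h h' hd))
  · obtain ⟨a1, a2, a3, a4⟩ := h.btw hT
    obtain ⟨b1, b2, b3, b4⟩ := h'.btw hT
    exact Or.inl (Prod.ext (a1.unique hT b1 hd) (a2.unique hT b2 (by omega)))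
  · exact Or.inr (Or.inr (key e' e h' h hd))

theorem btw_param {x y : V} (h : T.Reachable x y) :
    ∃ a : ℕ → V, Set.InjOn a (Set.Iic (T.dist x y)) ∧
      {z | Btw T x z y} = a '' Set.Iic (T.dist x y) := by
  obtain ⟨a, h0, hn, hadj, hd, hb⟩ := exists_geod h
  have hd0 : ∀ i ≤ T.dist x y, T.dist x (a i) = i := by
    intro i hi
    have := (hd 0 i (Nat.zero_le _) hi).2
    rwa [h0] at this
  refine ⟨a, fun i hi j hj e => ?_, Set.ext fun z => ⟨fun hz => ?_, ?_⟩⟩
  · rw [← hd0 i hi, ← hd0 j hj, e]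
  · have hz' : Btw T x z y := hz
    have e := hz'.2.2
    have hi : T.dist x z ≤ T.dist x y := by omega
    exact ⟨T.dist x z, hi, (hb _ hi).unique hT hz' (hd0 _ hi)⟩
  · rintro ⟨i, hi, rfl⟩
    exact hb i hi

theorem sep_param (x y : V) :
    ∃ a : ℕ → V × V, Set.InjOn a (Set.Iio (T.dist x y)) ∧
      {e | Sep T e x y} = a '' Set.Iio (T.dist x y) := by
  by_cases h : T.Reachable x y
  · obtain ⟨a, h0, hn, hadj, hd, hb⟩ := exists_geod h
    have hd0 : ∀ i ≤ T.dist x y, T.dist x (a i) = i := by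
      intro i hi
      have := (hd 0 i (Nat.zero_le _) hi).2
      rwa [h0] at this
    refine ⟨fun i => (a i, a (i + 1)), fun i hi j hj e => ?_, Set.ext fun e => ⟨fun he => ?_, ?_⟩⟩
    · rw [← hd0 i (le_of_lt hi), ← hd0 j (le_of_lt hj), (Prod.mk.inj e).1]
    · have he' : Sep T e x y := he
      obtain ⟨a1, a2, a3, a4⟩ := he'.btw hT
      have e1 := a2.2.2
      have hi : T.dist x e.1 < T.dist x y := by omega
      refine ⟨T.dist x e.1, hi, Prod.ext ?_ ?_⟩
      · exact (hb _ hi.le).unique hT a1 (hd0 _ hi.le)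
      · exact (hb _ hi).unique hT a2 ((hd0 _ hi).trans a3.symm)
    · rintro ⟨i, hi, rfl⟩
      have hi' : i < T.dist x y := hi
      obtain ⟨c1, c2⟩ := (hb i hi'.le).compare hT (hb (i + 1) hi')
        (by rw [hd0 i hi'.le, hd0 (i + 1) hi']; omega)
      exact ⟨hadj i hi', c1, c2⟩
  · refine ⟨fun _ => (x, x), ?_, ?_⟩
    · rw [SimpleGraph.dist_eq_zero_of_not_reachable h]
      intro i hi
      exact absurd hi (Nat.not_lt_zero i)
    · rw [SimpleGraph.dist_eq_zero_of_not_reachable h]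
      ext e
      exact ⟨fun he => absurd (Sep.reach he) h, fun ⟨i, hi, _⟩ => absurd hi (Nat.not_lt_zero i)⟩

theorem sep_finite (x y : V) : {e | Sep T e x y}.Finite := by
  obtain ⟨a, -, h⟩ := sep_param hT x y
  rw [h]
  exact (Set.finite_Iio _).image _

theorem ncard_sep (x y : V) : {e | Sep T e x y}.ncard = T.dist x y := by
  obtain ⟨a, h0, h⟩ := sep_param hT x y
  rw [h, Set.InjOn.ncard_image h0]
  simp

theorem btw_finite (x y : V) : {z | Btw T x z y}.Finite := by
  by_cases h : T.Reachable x y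
  · obtain ⟨a, -, h⟩ := btw_param hT h
    rw [h]
    exact (Set.finite_Iic _).image _
  · refine Set.finite_empty.subset fun z hz => h hz.reach

theorem ncard_btw {x y : V} (h : T.Reachable x y) : {z | Btw T x z y}.ncard = T.dist x y + 1 := by
  obtain ⟨a, h0, h⟩ := btw_param hT h
  rw [h, Set.InjOn.ncard_image h0]
  simp

theorem eq_of_no_sep {x y : V} (h : T.Reachable x y) (hs : ∀ e, ¬ Sep T e x y) : x = y := by
  refine eq_of_dist_zero h ?_
  rw [← ncard_sep hT x y]
  have : {e | Sep T e x y} = ∅ := Set.eq_empty_of_forall_notMem hs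
  rw [this, Set.ncard_empty]

theorem btw_of_sep {x y z : V} (h1 : T.Reachable x y) (h2 : T.Reachable y z)
    (hs : ∀ e, Sep T e x y → Sep T e x z) : Btw T x y z := by
  obtain ⟨m, m1, m2, m3⟩ := exists_median hT h1 h2
  have : m = y := by
    refine eq_of_no_sep hT m1.2.1 fun e he => ?_
    rcases (sep_iff_of_btw hT m3 e).1 (hs e ((sep_iff_of_btw hT m1 e).2 (Or.inr he))) with h | h
    · exact not_sep_both hT h he
    · exact Sep.not_swap hT ((sep_iff_of_btw hT m2 e).2 (Or.inr h))
        ((sep_iff_of_btw hT m2 e.swap).2 (Or.inl he.swap))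
  rwa [this] at m3

theorem sep_nxt {x y : V} (h : T.Reachable x y) (hne : x ≠ y) : Sep T (x, nxt T x y) x y := by
  have _ := hT
  have hd : 1 ≤ T.dist x y := by
    by_contra h0
    exact hne (eq_of_dist_zero h (by omega))
  obtain ⟨z, hz, e⟩ := exists_btw_dist h hd
  have hex : ∃ z, T.Adj x z ∧ Btw T x z y := ⟨z, adj_of_dist_one e, hz⟩
  have hn : nxt T x y = hex.choose := by
    unfold nxt
    rw [dif_pos hex]
  rw [hn]
  exact ⟨hex.choose_spec.1, btw_left hex.choose_spec.1.reachable, hex.choose_spec.2⟩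

theorem nxt_eq {x z y : V} (h : T.Adj x z) (hb : Btw T x z y) : nxt T x y = z := by
  have hex : ∃ z, T.Adj x z ∧ Btw T x z y := ⟨z, h, hb⟩
  have hn : nxt T x y = hex.choose := by
    unfold nxt
    rw [dif_pos hex]
  rw [hn]
  refine hex.choose_spec.2.unique hT hb ?_
  rw [SimpleGraph.dist_eq_one_iff_adj.2 h, SimpleGraph.dist_eq_one_iff_adj.2 hex.choose_spec.1]

theorem nxt_smul (hA : Acts T G) (g : G) (x y : V) : nxt T (g • x) (g • y) = g • nxt T x y := by
  by_cases hex : ∃ z, T.Adj x z ∧ Btw T x z y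
  · obtain ⟨z, h1, h2⟩ := hex
    rw [nxt_eq hT h1 h2, nxt_eq hT (hA g _ _ h1) (hA.btw g h2)]
  · have hex' : ¬ ∃ z, T.Adj (g • x) z ∧ Btw T (g • x) z (g • y) := by
      rintro ⟨z, h1, h2⟩
      have a1 := hA g⁻¹ _ _ h1
      have a2 := hA.btw g⁻¹ h2
      rw [inv_smul_smul] at a1
      rw [inv_smul_smul, inv_smul_smul] at a2
      exact hex ⟨_, a1, a2⟩
    unfold nxt
    rw [dif_neg hex, dif_neg hex']

theorem nxt_btw {x y z : V} (h : Btw T x y z) (hne : x ≠ y) : nxt T x z = nxt T x y := by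
  have hs := sep_nxt hT h.1 hne
  exact nxt_eq hT hs.1 (h.trans_left hs.2.2).1

/-- Two geodesics that leave `y` in different directions form a geodesic. -/
theorem btw_of_nxt_ne {x y z : V} (h1 : T.Reachable y x) (h2 : T.Reachable y z)
    (h : nxt T y x ≠ nxt T y z) : Btw T x y z := by
  obtain ⟨m, m1, m2, m3⟩ := exists_median hT h1.symm h2
  by_cases hm : y = m
  · rwa [← hm] at m3
  · exact absurd ((nxt_btw hT m1.symm hm).trans (nxt_btw hT m2 hm).symm) h

theorem nxt_ne_of_btw {x y z : V} (h : Btw T x y z) (hx : x ≠ y) (hz : z ≠ y) :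
    nxt T y x ≠ nxt T y z := by
  intro e
  have s1 := sep_nxt hT h.1.symm hx.symm
  have s2 := sep_nxt hT h.2.1 hz.symm
  rw [e] at s1
  exact Sep.not_swap hT ((sep_iff_of_btw hT h _).2 (Or.inr s2))
    ((sep_iff_of_btw hT h _).2 (Or.inl s1.swap))

end Acyclic

end CPOR
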