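import Pool.Agent.P.MP_2cb329_al.F.T1

/-! Theorem F: convexity and weighted lengths. -/

set_option autoImplicit false

namespace CPOR
open ZT MulAction

variable {V : Type} {T : SimpleGraph V} {G : Type} [Group G] [MulAction G V]

section Acyclic

variable (hT : T.IsAcyclic)
include hT

theorem cvx_hull {S : Set V} (h : ∀ x ∈ S, ∀ y ∈ S, T.Reachable x y) : Cvx T (hull T S) := by
  rintro x ⟨a, ha, b, hb, h1⟩ z ⟨c, hc, d, hd, h2⟩
  refine ⟨(h1.1.symm.trans (h a ha c hc)).trans h2.1, fun y hy => ?_⟩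
  rcases hy.or hT h1.1.symm with h3 | h3
  · exact ⟨b, hb, a, ha, (h1.symm.trans_right h3).1⟩
  · rcases h3.or hT (h a ha c hc) with h4 | h4
    · exact ⟨a, ha, c, hc, h4⟩
    · exact ⟨c, hc, d, hd, (h2.trans_left h4).1⟩

theorem cvx_half {p q : V} (h : T.Adj p q) : Cvx T {x | Btw T p q x} := by
  intro x hx z hz
  have hx' : Btw T p q x := hx
  have hz' : Btw T p q z := hz
  refine ⟨hx'.2.1.symm.trans hz'.2.1, fun y hy => ?_⟩
  rcases hy.or hT hx'.2.1.symm with h3 | h3
  · exact (hx'.trans_right h3.symm).2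
  · exact (hz'.trans_right h3).2

/-- Halfspaces that miss a common point are nested or disjoint. -/
theorem half_nested {p q p' q' c : V} (h : T.Adj p q) (h' : T.Adj p' q') (hc : Btw T c p q)
    (hc' : Btw T c p' q') :
    (∀ x, Btw T p q x → Btw T p' q' x) ∨ (∀ x, Btw T p' q' x → Btw T p q x) ∨
      ∀ x, Btw T p q x → ¬ Btw T p' q' x := by
  by_cases hx : ∃ x, Btw T p q x ∧ Btw T p' q' x
  · obtain ⟨x, h1, h2⟩ := hx
    have h3 := (hc.glue hT h1 h.ne).2
    have h4 := (hc'.glue hT h2 h'.ne).2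
    rcases le_total (T.dist c q) (T.dist c q') with hd | hd
    · refine Or.inr (Or.inl fun y hy => ?_)
      have h5 := ((hc'.glue hT hy h'.ne).2.trans_left (h3.compare hT h4 hd).1).1
      exact (h5.trans_left hc).2
    · refine Or.inl fun y hy => ?_
      have h5 := ((hc.glue hT hy h.ne).2.trans_left (h4.compare hT h3 hd).1).1
      exact (h5.trans_left hc').2
  · exact Or.inr (Or.inr fun x h1 h2 => hx ⟨x, h1, h2⟩)

/-- The projection to a convex set does not increase distances. -/
theorem proj_dist_le {C : Set V} (hC : Cvx T C) {x x' p p' : V} (hp : p ∈ C) (hp' : p' ∈ C)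
    (h : ∀ c ∈ C, Btw T x p c) (h' : ∀ c ∈ C, Btw T x' p' c) : T.dist p p' ≤ T.dist x x' := by
  by_cases hne : p = p'
  · simp [hne]
  have h1 := h p' hp'
  have h2 := (h1.glue hT (h' p hp).symm hne).2
  have h3 := h1.2.2
  have h4 := h2.2.2
  omega

/-- If the projections differ, the geodesic passes through both. -/
theorem btw_proj_of_ne {C : Set V} (hC : Cvx T C) {x x' p p' : V} (hp : p ∈ C) (hp' : p' ∈ C)
    (h : ∀ c ∈ C, Btw T x p c) (h' : ∀ c ∈ C, Btw T x' p' c) (hne : p ≠ p') :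
    Btw T x p x' ∧ Btw T x p' x' ∧ Btw T x p p' := by
  have h1 := h p' hp'
  have h2 := h1.glue hT (h' p hp).symm hne
  exact ⟨h2.1, h2.2, h1⟩

/-- The distance to a point is convex along geodesics. -/
theorem Btw.dist_le_max {x y z p : V} (h : Btw T x y z) (hp : T.Reachable p x) :
    T.dist p y ≤ max (T.dist p x) (T.dist p z) := by
  rcases h.or hT hp.symm with h1 | h1
  · have h2 := h1.symm.2.2
    exact le_max_of_le_left (by omega)
  · have h2 := h1.2.2
    exact le_max_of_le_right (by omega)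

/-- Neighbourhoods of convex sets are convex. -/
theorem Btw.near_cvx {C : Set V} (hC : Cvx T C) {x y z c c' : V} (h : Btw T x y z) (hc : c ∈ C)
    (hc' : c' ∈ C) (hx : T.Reachable x c) {r : ℕ} (h1 : T.dist x c ≤ r) (h2 : T.dist z c' ≤ r) :
    ∃ c'' ∈ C, T.dist y c'' ≤ r := by
  obtain ⟨y', h3, -, h4⟩ :=
    h.near hT hx ((h.reach.symm.trans hx).trans (hC c hc c' hc').1) h1 h2
  exact ⟨y', (hC c hc c' hc').2 y' h3, h4⟩

theorem dist_parity {x y z : V} (h1 : T.Reachable x y) (h2 : T.Reachable y z) :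
    (T.dist x y + T.dist y z + T.dist x z) % 2 = 0 := by
  obtain ⟨m, h3, h4, h5⟩ := exists_median hT h1 h2
  have e1 := h3.2.2
  have e2 := h4.2.2
  have e3 := h5.2.2
  have e4 : T.dist m y = T.dist y m := SimpleGraph.dist_comm
  omega

/-! Weighted lengths. -/

theorem len_self (l : V × V → ℝ) (x : V) : len T l x x = 0 := by
  have : {e | Sep T e x x} = ∅ := Set.eq_empty_of_forall_notMem fun e => not_sep_self hT e x
  simp [len, this]

theorem len_adj (l : V × V → ℝ) {x y : V} (h : T.Adj x y) : len T l x y = l (x, y) := by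
  have : {e | Sep T e x y} = {(x, y)} :=
    Set.eq_singleton_iff_unique_mem.2 ⟨sep_adj hT h, fun e he => Sep.eq_of_adj hT h he⟩
  rw [len, this, finsum_mem_singleton]

theorem len_add (l : V × V → ℝ) {x y z : V} (h : Btw T x y z) :
    len T l x z = len T l x y + len T l y z := by
  have : {e | Sep T e x z} = {e | Sep T e x y} ∪ {e | Sep T e y z} :=
    Set.ext fun e => sep_iff_of_btw hT h e
  have hd : Disjoint {e | Sep T e x y} {e | Sep T e y z} :=
    Set.disjoint_left.2 fun e he => not_sep_both hT he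
  rw [len, this, finsum_mem_union hd (sep_finite hT x y) (sep_finite hT y z)]
  rfl

theorem len_eq_sum (l : V × V → ℝ) (x y : V) :
    len T l x y = ∑ e ∈ (sep_finite hT x y).toFinset, l e := by
  exact finsum_mem_eq_finite_toFinset_sum l (sep_finite hT x y)

theorem len_geod (l : V × V → ℝ) (a : ℕ → V) (n : ℕ) (h : ∀ i < n, T.Adj (a i) (a (i + 1)))
    (hb : ∀ i, i + 2 ≤ n → a i ≠ a (i + 2)) :
    len T l (a 0) (a n) = ∑ i ∈ Finset.range n, l (a i, a (i + 1)) := by
  have hg := geod_of_noback hT a n h hb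
  have key : ∀ m ≤ n, len T l (a 0) (a m) = ∑ i ∈ Finset.range m, l (a i, a (i + 1)) := by
    intro m
    induction m with
    | zero => intro _; simp [len_self hT]
    | succ m ih =>
      intro hm
      have h1 := hg 0 m (Nat.zero_le _) (by omega)
      have h2 := hg m (m + 1) (Nat.le_succ _) hm
      have h3 := hg 0 (m + 1) (Nat.zero_le _) hm
      have h4 : Btw T (a 0) (a m) (a (m + 1)) := ⟨h1.1, h2.1, by omega⟩
      rw [len_add hT l h4, ih (by omega), len_adj hT l (h m hm), Finset.sum_range_succ]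
  exact key n le_rfl

theorem len_symm {l : V × V → ℝ} (hl : ∀ x y, T.Adj x y → l (x, y) = l (y, x)) (x y : V) :
    len T l x y = len T l y x := by
  rw [len_eq_sum hT, len_eq_sum hT]
  refine Finset.sum_nbij' Prod.swap Prod.swap ?_ ?_ ?_ ?_ ?_
  · intro e he
    simp only [Set.Finite.mem_toFinset, Set.mem_ofPred_eq] at he ⊢
    exact he.swap
  · intro e he
    simp only [Set.Finite.mem_toFinset, Set.mem_ofPred_eq] at he ⊢
    exact he.swap
  · intro e _; rfl
  · intro e _; rfl
  · intro e he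
    simp only [Set.Finite.mem_toFinset, Set.mem_ofPred_eq] at he
    exact hl e.1 e.2 he.1

theorem len_smul (hA : Acts T G) {l : V × V → ℝ} (g : G)
    (hl : ∀ e : V × V, T.Adj e.1 e.2 → l (g • e) = l e) (x y : V) :
    len T l (g • x) (g • y) = len T l x y := by
  rw [len_eq_sum hT, len_eq_sum hT]
  symm
  refine Finset.sum_nbij' (fun e => g • e) (fun e => g⁻¹ • e) ?_ ?_ ?_ ?_ ?_
  · intro e he
    simp only [Set.Finite.mem_toFinset, Set.mem_ofPred_eq] at he ⊢
    exact he.smul hA g
  · intro e he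
    simp only [Set.Finite.mem_toFinset, Set.mem_ofPred_eq] at he ⊢
    simpa using he.smul hA g⁻¹
  · intro e _; simp
  · intro e _; simp
  · intro e he
    simp only [Set.Finite.mem_toFinset, Set.mem_ofPred_eq] at he
    exact (hl e he.1).symm

theorem len_mono {l l' : V × V → ℝ} (hl : ∀ x y, T.Adj x y → l (x, y) ≤ l' (x, y)) (x y : V) :
    len T l x y ≤ len T l' x y := by
  rw [len_eq_sum hT, len_eq_sum hT]
  refine Finset.sum_le_sum fun e he => ?_
  simp only [Set.Finite.mem_toFinset, Set.mem_ofPred_eq] at he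
  exact hl e.1 e.2 he.1

theorem len_nonneg {l : V × V → ℝ} (hl : ∀ x y, T.Adj x y → 0 ≤ l (x, y)) (x y : V) :
    0 ≤ len T l x y := by
  rw [len_eq_sum hT]
  refine Finset.sum_nonneg fun e he => ?_
  simp only [Set.Finite.mem_toFinset, Set.mem_ofPred_eq] at he
  exact hl e.1 e.2 he.1

theorem len_tri {l : V × V → ℝ} (hl : ∀ x y, T.Adj x y → 0 ≤ l (x, y)) {x y z : V}
    (h1 : T.Reachable x y) (h2 : T.Reachable y z) : len T l x z ≤ len T l x y + len T l y z := by
  obtain ⟨m, h3, h4, h5⟩ := exists_median hT h1 h2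
  rw [len_add hT l h3, len_add hT l h4, len_add hT l h5]
  have e1 := len_nonneg hT hl m y
  have e2 := len_nonneg hT hl y m
  linarith

theorem len_const (c : ℝ) (x y : V) : len T (fun _ => c) x y = c * T.dist x y := by
  rw [len_eq_sum hT, Finset.sum_const, ← ncard_sep hT x y,
    Set.ncard_eq_toFinset_card _ (sep_finite hT x y), nsmul_eq_mul, mul_comm]

theorem len_sum {ι : Type} (s : Finset ι) (c : ι → ℝ) (l : ι → V × V → ℝ) (x y : V) :
    len T (fun e => ∑ i ∈ s, c i * l i e) x y = ∑ i ∈ s, c i * len T (l i) x y := by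
  simp only [len_eq_sum hT, Finset.mul_sum]
  exact Finset.sum_comm

theorem IsWt.bounds {l : V × V → ℝ} (hl : IsWt T G l) (hE : FinOrb (⊤ : Subgroup G) (Darts T)) :
    ∃ C : ℕ, 1 ≤ C ∧ ∀ x y, (T.dist x y : ℝ) ≤ len T l x y ∧ len T l x y ≤ C * T.dist x y := by
  obtain ⟨C, hC⟩ := hE.bound_real l fun k _ e he _ => hl.smul k e he
  refine ⟨C + 1, Nat.le_add_left _ _, fun x y => ⟨?_, ?_⟩⟩
  · have := len_mono hT (l := fun _ => (1 : ℝ)) (l' := l) hl.one_le x y
    rwa [len_const hT, one_mul] at this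
  · rw [← len_const hT]
    refine len_mono hT (fun a b hab => ?_) x y
    have := hC (a, b) hab
    push_cast
    linarith

end Acyclic

/-- Bernoulli: exponential growth below a bound takes bounded time. -/
theorem time_le_of_growth {μ : ℝ} (hμ : 1 < μ) :
    ∃ q : ℕ, ∀ n c : ℕ, μ ^ n ≤ c → n ≤ q * c := by
  obtain ⟨q, hq⟩ := exists_nat_ge (1 / (μ - 1))
  refine ⟨q, fun n c h => ?_⟩
  have h0 : 0 < μ - 1 := by linarith
  have h1 : 1 ≤ q * (μ - 1) := by rwa [div_le_iff₀ h0] at hq
  have h2 : 1 + n * (μ - 1) ≤ (1 + (μ - 1)) ^ n := one_add_mul_le_pow (by linarith) n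
  rw [add_sub_cancel] at h2
  have h3 : (n : ℝ) ≤ q * c := by
    have hn : (0 : ℝ) ≤ n := Nat.cast_nonneg n
    have hq0 : (0 : ℝ) ≤ q := Nat.cast_nonneg q
    nlinarith [mul_le_mul_of_nonneg_left (show (n : ℝ) * (μ - 1) ≤ c by linarith) hq0]
  exact_mod_cast h3

end CPOR
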