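import Pool.Agent.P.MP_2cb329_al.F.T1b

/-! Theorem F: free actions on locally finite forests, axes, cocompact subtrees. -/

set_option autoImplicit false

namespace CPOR
open ZT MulAction

/-- A free action on a locally finite forest. -/
structure FT {V : Type} (T : SimpleGraph V) (G : Type) [Group G] [MulAction G V] : Prop
    extends GF T G where
  free : ∀ (g : G) (x : V), g • x = x → g = 1
  lf : ∀ x, (T.neighborSet x).Finite

/-- `K` preserves the component of `c`. -/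
def Pres {V : Type} (T : SimpleGraph V) {G : Type} [Group G] [MulAction G V] (K : Subgroup G)
    (c : V) : Prop := ∀ k ∈ K, T.Reachable c (k • c)

variable {V : Type} {T : SimpleGraph V} {G : Type} [Group G] [MulAction G V] {K : Subgroup G}

theorem Pres.of_reach (hA : Acts T G) {c c' : V} (h : Pres T K c) (hr : T.Reachable c c') :
    Pres T K c' := by
  intro k hk
  exact hr.symm.trans ((h k hk).trans (hA.reach k hr))

theorem KT.pres {X : Set V} (h : KT T K X) {c : V} (hc : c ∈ X) : Pres T K c := by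
  intro k hk
  exact (h.cvx c hc _ (h.inv k hk c hc)).1

/-! ### General forests with trivial edge stabilisers -/

namespace T2A

theorem inv_smul_sep (hA : Acts T G) {g : G} {e : V × V} {x y : V}
    (h : Sep T e (g • x) (g • y)) : Sep T (g⁻¹ • e) x y := by
  have := h.smul hA g⁻¹
  simpa using this

/-- Darts between `c` and its translates fall in finitely many orbits. -/
theorem finOrb_sep (hG : GF T G) (hK : K.FG) {c : V} (hc : Pres T K c) :
    FinOrb K {e : V × V | ∃ k ∈ K, Sep T e c (k • c)} := by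
  obtain ⟨S, hS, hSf⟩ := (Subgroup.fg_iff K).1 hK
  refine ⟨⋃ s ∈ S, ({e | Sep T e c (s • c)} ∪ {e | Sep T e (s • c) c}),
    hSf.biUnion (fun s _ => (sep_finite hG.acyc _ _).union (sep_finite hG.acyc _ _)), ?_⟩
  rintro e ⟨k, hk, he⟩
  have key : ∀ k ∈ Subgroup.closure S, ∀ e : V × V, (Sep T e c (k • c) ∨ Sep T e (k • c) c) →
      ∃ k' ∈ K, k' • e ∈ ⋃ s ∈ S, ({e | Sep T e c (s • c)} ∪ {e | Sep T e (s • c) c}) := by
    intro k hk
    induction hk using Subgroup.closure_induction with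
    | mem s hs =>
      intro e he
      exact ⟨1, K.one_mem, by
        rw [one_smul]
        exact Set.mem_biUnion hs he⟩
    | one =>
      intro e he
      rw [one_smul, or_self] at he
      exact (not_sep_self hG.acyc e c he).elim
    | mul x y hx hy ihx ihy =>
      intro e he
      have hxK : x ∈ K := hS ▸ hx
      have hyK : y ∈ K := hS ▸ hy
      have h2 : (Sep T e (x • c) (x • y • c) ∨ Sep T e (x • y • c) (x • c)) →
          ∃ k' ∈ K, k' • e ∈ ⋃ s ∈ S, ({e | Sep T e c (s • c)} ∪ {e | Sep T e (s • c) c}) := by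
        intro h
        obtain ⟨k', hk', h'⟩ := ihy (x⁻¹ • e)
          (h.imp (inv_smul_sep hG.acts) (inv_smul_sep hG.acts))
        exact ⟨k' * x⁻¹, K.mul_mem hk' (K.inv_mem hxK), by rwa [mul_smul]⟩
      rw [mul_smul] at he
      rcases he with he | he
      · rcases he.tri hG.acyc (hc x hxK) with h | h
        · exact ihx e (Or.inl h)
        · exact h2 (Or.inl h)
      · rcases he.tri hG.acyc (he.reach.trans (hc x hxK)) with h | h
        · exact h2 (Or.inr h)
        · exact ihx e (Or.inr h)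
    | inv x hx ihx =>
      intro e he
      have hxK : x ∈ K := hS ▸ hx
      have : Sep T (x • e) c (x • c) ∨ Sep T (x • e) (x • c) c := by
        rcases he with he | he
        · right
          simpa using he.smul hG.acts x
        · left
          simpa using he.smul hG.acts x
      obtain ⟨k', hk', h'⟩ := ihx _ this
      exact ⟨k' * x, K.mul_mem hk' hxK, by rwa [mul_smul]⟩
  exact key k (hS.symm ▸ hk) e (Or.inl he)

/-- A dart with both ends in a hull separates two points of the set. -/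
theorem sep_of_dartsIn (hT : T.IsAcyclic) {S : Set V} {e : V × V}
    (he : e ∈ DartsIn T (hull T S)) : ∃ x ∈ S, ∃ z ∈ S, Sep T e x z := by
  obtain ⟨u, v⟩ := e
  obtain ⟨hadj, ⟨x1, hx1, z1, hz1, h1⟩, ⟨x2, hx2, z2, hz2, h2⟩⟩ := he
  simp only at hadj h1 h2
  have side : ∀ {u v x z : V}, T.Adj u v → Btw T x u z → Btw T v u x ∨ Btw T v u z := by
    intro u v x z hadj h
    rcases h.or hT (h.1.trans hadj.reachable) with h' | h'
    · exact Or.inl h'.symm
    · exact Or.inr h'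
  have a1 : ∃ x ∈ S, Btw T v u x := by
    rcases side hadj h1 with h | h
    · exact ⟨_, hx1, h⟩
    · exact ⟨_, hz1, h⟩
  have a2 : ∃ x ∈ S, Btw T u v x := by
    rcases side hadj.symm h2 with h | h
    · exact ⟨_, hx2, h⟩
    · exact ⟨_, hz2, h⟩
  obtain ⟨x, hx, hx'⟩ := a1
  obtain ⟨z, hz, hz'⟩ := a2
  exact ⟨x, hx, z, hz, hadj, hx'.symm, hz'⟩

theorem kc_hull_finset (hG : GF T G) (hK : K.FG) {c : V} (hc : Pres T K c) (F : Finset V)
    (hF : F.Nonempty) (hr : ∀ p ∈ F, T.Reachable c p) :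
    KC T K (hull T {x | ∃ p ∈ F, x ∈ orb K p}) := by
  set S : Set V := {x | ∃ p ∈ F, x ∈ orb K p} with hSdef
  have hT := hG.acyc
  have hA := hG.acts
  have hreach : ∀ x ∈ S, T.Reachable c x := by
    rintro x ⟨p, hp, k, hk, rfl⟩
    exact (hc k hk).trans (hA.reach k (hr p hp))
  have hinv : Inv K S := by
    rintro k hk x ⟨p, hp, hx⟩
    exact ⟨p, hp, inv_orb p k hk x hx⟩
  have hE : FinOrb K (DartsIn T (hull T S)) := by
    have h1 := finOrb_sep hG hK hc
    have h2 : FinOrb K {e : V × V | ∃ k ∈ K, ∃ p ∈ F,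
        Sep T e (k • p) (k • c) ∨ Sep T e (k • c) (k • p)} := by
      refine ⟨⋃ p ∈ (F : Set V), ({e | Sep T e p c} ∪ {e | Sep T e c p}),
        F.finite_toSet.biUnion (fun s _ => (sep_finite hT _ _).union (sep_finite hT _ _)), ?_⟩
      rintro e ⟨k, hk, p, hp, he⟩
      exact ⟨k⁻¹, K.inv_mem hk,
        Set.mem_biUnion hp (he.imp (inv_smul_sep hA) (inv_smul_sep hA))⟩
    obtain ⟨F1, hF1, hF1'⟩ := h1
    obtain ⟨F2, hF2, hF2'⟩ := h2
    refine ⟨F1 ∪ F2, hF1.union hF2, ?_⟩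
    intro e he
    obtain ⟨x, ⟨p, hp, k, hk, rfl⟩, z, ⟨p', hp', k', hk', rfl⟩, hs⟩ := sep_of_dartsIn hT he
    rcases hs.tri hT (hA.reach k (hr p hp).symm) with h | h
    · obtain ⟨k1, hk1, h1⟩ := hF2' e ⟨k, hk, p, hp, Or.inl h⟩
      exact ⟨k1, hk1, Or.inr h1⟩
    rcases h.tri hT ((hc k hk).symm.trans (hc k' hk')) with h | h
    · have h' : Sep T e (k • c) (k • (k⁻¹ * k') • c) := by
        rwa [mul_smul, smul_inv_smul]
      obtain ⟨k1, hk1, h1⟩ := hF1' (k⁻¹ • e)
        ⟨k⁻¹ * k', K.mul_mem (K.inv_mem hk) hk', inv_smul_sep hA h'⟩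
      exact ⟨k1 * k⁻¹, K.mul_mem hk1 (K.inv_mem hk), Or.inl (by rwa [mul_smul])⟩
    · obtain ⟨k1, hk1, h1⟩ := hF2' e ⟨k', hk', p', hp', Or.inr h⟩
      exact ⟨k1, hk1, Or.inr h1⟩
  have hcv : Cvx T (hull T S) :=
    cvx_hull hT (fun x hx y hy => (hreach x hx).symm.trans (hreach y hy))
  obtain ⟨p0, hp0⟩ := hF
  refine ⟨⟨⟨p0, subset_hull S ⟨p0, hp0, mem_orb_self p0⟩⟩, hcv, inv_hull hA hinv⟩, ?_, hE⟩
  obtain ⟨F1, hF1, hF1'⟩ := hE
  refine ⟨(F : Set V) ∪ Prod.fst '' F1, F.finite_toSet.union (hF1.image _), ?_⟩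
  rintro y hy
  obtain ⟨x, hx, z, hz, h⟩ := id hy
  by_cases hyz : y = z
  · obtain ⟨p, hp, k, hk, rfl⟩ := hz
    refine ⟨k⁻¹, K.inv_mem hk, Or.inl ?_⟩
    rw [hyz, inv_smul_smul]
    exact hp
  · have hs := sep_nxt hT h.2.1 hyz
    have hb := (hs.btw hT).2.1
    obtain ⟨k, hk, h1⟩ := hF1' (y, nxt T y z)
      ⟨hs.1, hy, (hcv y hy z (subset_hull S hz)).2 _ hb⟩
    exact ⟨k, hk, Or.inr ⟨_, h1, rfl⟩⟩

/-- Schreier type generation lemma. -/
theorem fg_of_section {H : Subgroup G} {S : Set G} (ρ : G → G) (h1 : ρ 1 = 1)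
    (hH : ∀ g ∈ H, ρ g = g) (hle : H ≤ Subgroup.closure S)
    (hm : ∀ k ∈ Subgroup.closure S, ρ k ∈ H)
    (hfin : {z | ∃ k ∈ Subgroup.closure S, ∃ s ∈ S, z = (ρ k)⁻¹ * ρ (k * s)}.Finite) : H.FG := by
  refine (Subgroup.fg_iff H).2 ⟨_, ?_, hfin⟩
  apply le_antisymm
  · rw [Subgroup.closure_le]
    rintro z ⟨k, hk, s, hs, rfl⟩
    exact H.mul_mem (H.inv_mem (hm k hk))
      (hm _ (Subgroup.mul_mem _ hk (Subgroup.subset_closure hs)))
  · have key : ∀ k ∈ Subgroup.closure S, ρ k ∈ Subgroup.closure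
        {z | ∃ k ∈ Subgroup.closure S, ∃ s ∈ S, z = (ρ k)⁻¹ * ρ (k * s)} := by
      intro k hk
      induction hk using Subgroup.closure_induction_right with
      | one => rw [h1]; exact Subgroup.one_mem _
      | mul_right x hx y hy ih =>
        have : ρ (x * y) = ρ x * ((ρ x)⁻¹ * ρ (x * y)) := by group
        rw [this]
        exact Subgroup.mul_mem _ ih (Subgroup.subset_closure ⟨x, hx, y, hy, rfl⟩)
      | mul_inv_cancel x hx y hy ih =>
        have : ρ (x * y⁻¹) = ρ x * ((ρ (x * y⁻¹))⁻¹ * ρ (x * y⁻¹ * y))⁻¹ := by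
          rw [inv_mul_cancel_right]
          group
        rw [this]
        exact Subgroup.mul_mem _ ih (Subgroup.inv_mem _ (Subgroup.subset_closure
          ⟨x * y⁻¹, Subgroup.mul_mem _ hx (Subgroup.inv_mem _ (Subgroup.subset_closure hy)),
            y, hy, rfl⟩))
    intro g hg
    have := key g (hle hg)
    rwa [hH g hg] at this

theorem exists_far (hT : T.IsAcyclic) {X : Set V} (hl : Leafless T X) (n : ℕ) :
    ∀ {x y : V}, y ∈ X → T.Adj x y → ∃ z ∈ X, Btw T x y z ∧ T.dist x z = n + 1 := by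
  induction n with
  | zero =>
    intro x y hy hxy
    exact ⟨y, hy, btw_right hxy.reachable, by simpa using SimpleGraph.dist_eq_one_iff_adj.2 hxy⟩
  | succ n ih =>
    intro x y hy hxy
    have : ∃ w ∈ X, T.Adj y w ∧ w ≠ x := by
      obtain ⟨w, hw, w', hw', h1, h2, h3⟩ := hl y hy
      by_cases h : w = x
      · exact ⟨w', hw', h2, fun h' => h3 (h.trans h'.symm)⟩
      · exact ⟨w, hw, h1, h⟩
    obtain ⟨w, hw, h1, h2⟩ := this
    obtain ⟨z, hz, hb, hd⟩ := ih hw h1
    have hb' := ((btw_of_adj hT hxy h1 h2.symm).glue hT hb h1.ne).1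
    refine ⟨z, hz, hb', ?_⟩
    have := hb'.2.2
    rw [SimpleGraph.dist_eq_one_iff_adj.2 hxy, hd] at this
    omega

theorem axis_of_btw (hG : GF T G) {g : G} {p : V} (hne : g • p ≠ p)
    (h : Btw T p (g • p) (g • g • p)) :
    ∃ (a : ℤ → V) (l : ℕ), IsAxis T g a l ∧ a 0 = p := by
  have hT := hG.acyc
  have hA := hG.acts
  rcases ell_or_hyp hT hA hG.noinv g h.1 with ⟨q, hq, hfix⟩ | ⟨a, l, ha, hb⟩
  · exfalso
    have h1 : Btw T (g • p) q (g • g • p) := by
      have := hA.btw g hq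
      rwa [hfix] at this
    have h2 : Btw T q (g • p) (g • g • p) := (h.trans_left hq).2
    have h3 : g • p = q := h2.symm.antisymm h1.symm
    have h4 : p = q := by
      apply MulAction.injective g
      exact h3.trans hfix.symm
    exact hne (h3.trans h4.symm)
  · have hr : T.Reachable p (a 0) := (hb 0 le_rfl (by positivity)).1
    obtain ⟨i, hi, hd, -, -⟩ := ha.disp hT hA hr
    obtain ⟨i', hi', hd', -, -⟩ := (ha.pow (n := 2) (by norm_num)).disp hT hA hr
    have e : a i = a i' := (hi' i).antisymm (hi i') |>.symm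
    rw [← e, pow_two, mul_smul] at hd'
    have h3 := h.2.2
    rw [hA.dist g p (g • p), hd, hd'] at h3
    have h0 : T.dist p (a i) = 0 := by omega
    refine ⟨fun j => a (j + i), l, ha.shift i, ?_⟩
    simp only [zero_add]
    exact (eq_of_dist_zero (hi i).1 h0).symm

theorem zpow_axis {g : G} {a : ℤ → V} {l : ℕ} (ha : IsAxis T g a l) {i : ℤ} (hi : i ≠ 0) :
    ∃ (a' : ℤ → V) (l' : ℕ), IsAxis T (g ^ i) a' l' ∧ a' 0 = a 0 ∧ Set.range a' = Set.range a := by
  obtain ⟨n, rfl | rfl⟩ := Int.eq_nat_or_neg i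
  · refine ⟨a, n * l, ?_, rfl, rfl⟩
    rw [zpow_natCast]
    exact ha.pow (by omega)
  · refine ⟨fun j => a (0 - j), n * l, ?_, by simp, ?_⟩
    · rw [zpow_neg, zpow_natCast]
      exact (ha.pow (by omega)).inv 0
    · ext x
      constructor
      · rintro ⟨j, rfl⟩
        exact ⟨_, rfl⟩
      · rintro ⟨j, rfl⟩
        exact ⟨-j, by simp⟩

end T2A

theorem kc_hull (hG : GF T G) (hK : K.FG) {p : V} (hp : Pres T K p) :
    KC T K (hull T (orb K p)) := by
  have h := T2A.kc_hull_finset hG hK hp {p} (Finset.singleton_nonempty p)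
    (fun q hq => by rw [Finset.mem_singleton.1 hq])
  have e : {x | ∃ q ∈ ({p} : Finset V), x ∈ orb K q} = orb K p := by
    ext x
    simp
  rwa [e] at h

/-- The hull of finitely many orbits. -/
theorem kc_hull_finset (hG : GF T G) (hK : K.FG) {c : V} (hc : Pres T K c) (F : Finset V)
    (hF : F.Nonempty) (hr : ∀ p ∈ F, T.Reachable c p) :
    KC T K (hull T {x | ∃ p ∈ F, x ∈ orb K p}) := by
  exact T2A.kc_hull_finset hG hK hc F hF hr

theorem fg_of_kc (hG : GF T G) {X : Set V} (hX : KC T K X)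
    (hs : ∀ x ∈ X, (K ⊓ stabilizer G x).FG) : K.FG := by
  classical
  obtain ⟨F, hF⟩ := hX.finV.exists_reps
  obtain ⟨D, hD⟩ := hX.finE.exists_reps
  have h1 : ∀ d : V × V, ∃ a : G, d ∈ D → a ∈ K ∧ ∃ f ∈ F, d.1 = a • f := by
    intro d
    by_cases hd : d ∈ D
    · obtain ⟨k, hk, f, hf, e⟩ := hF.cover d.1 (hD.sub d hd).2.1
      exact ⟨k, fun _ => ⟨hk, f, hf, e⟩⟩
    · exact ⟨1, fun h => (hd h).elim⟩
  have h2 : ∀ d : V × V, ∃ a : G, d ∈ D → a ∈ K ∧ ∃ f ∈ F, d.2 = a • f := by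
    intro d
    by_cases hd : d ∈ D
    · obtain ⟨k, hk, f, hf, e⟩ := hF.cover d.2 (hD.sub d hd).2.2
      exact ⟨k, fun _ => ⟨hk, f, hf, e⟩⟩
    · exact ⟨1, fun h => (hd h).elim⟩
  choose A hAA using h1
  choose B hBB using h2
  set K' : Subgroup G := (⨆ f ∈ F, K ⊓ stabilizer G f) ⊔
    Subgroup.closure (A '' (D : Set (V × V)) ∪ B '' (D : Set (V × V))) with hK'
  have hfg : K'.FG := by
    refine Subgroup.FG.sup (Subgroup.FG.biSup_finset F _ (fun f hf => hs f (hF.sub f hf))) ?_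
    exact (Subgroup.fg_iff _).2 ⟨_, rfl, (D.finite_toSet.image _).union (D.finite_toSet.image _)⟩
  have hle : K' ≤ K := by
    refine sup_le (iSup₂_le fun f _ => inf_le_left) ?_
    rw [Subgroup.closure_le]
    rintro _ (⟨d, hd, rfl⟩ | ⟨d, hd, rfl⟩)
    · exact (hAA d hd).1
    · exact (hBB d hd).1
  have hst : ∀ f ∈ F, K ⊓ stabilizer G f ≤ K' := fun f hf =>
    le_sup_of_le_left (le_iSup₂_of_le (f := fun f (_ : f ∈ F) => K ⊓ stabilizer G f) f hf le_rfl)
  have hAm : ∀ d ∈ D, A d ∈ K' := fun d hd =>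
    (le_sup_right : _ ≤ K') (Subgroup.subset_closure (Or.inl ⟨d, hd, rfl⟩))
  have hBm : ∀ d ∈ D, B d ∈ K' := fun d hd =>
    (le_sup_right : _ ≤ K') (Subgroup.subset_closure (Or.inr ⟨d, hd, rfl⟩))
  have hmem : ∀ k ∈ K, ∀ k' ∈ K', ∀ f ∈ F, ∀ f' ∈ F, k • f = k' • f' → k ∈ K' := by
    intro k hk k' hk' f hf f' hf' e
    have e1 : (k'⁻¹ * k) • f = f' := by rw [mul_smul, e, inv_smul_smul]
    have hkk : k'⁻¹ * k ∈ K := K.mul_mem (K.inv_mem (hle hk')) hk
    have e2 : f = f' := hF.dist f hf f' hf' ⟨_, hkk, e1⟩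
    have : k'⁻¹ * k ∈ K' := hst f hf ⟨hkk, by rw [← e2] at e1; exact e1⟩
    simpa using K'.mul_mem hk' this
  have hstep : ∀ x ∈ X, ∀ y ∈ X, T.Adj x y → (∃ k' ∈ K', ∃ f ∈ F, x = k' • f) →
      ∃ k' ∈ K', ∃ f ∈ F, y = k' • f := by
    rintro x hx y hy hxy ⟨k', hk', f, hf, e⟩
    obtain ⟨k, hk, d, hd, ed⟩ := hD.cover (x, y) ⟨hxy, hx, hy⟩
    obtain ⟨hA1, f1, hf1, e1⟩ := hAA d hd
    obtain ⟨-, f2, hf2, e2⟩ := hBB d hd
    have ex : x = k • d.1 := congrArg Prod.fst ed
    have ey : y = k • d.2 := congrArg Prod.snd ed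
    have h3 : k * A d ∈ K' := hmem _ (K.mul_mem hk hA1) k' hk' f1 hf1 f hf (by
      rw [mul_smul, ← e1, ← ex, e])
    have h4 : k ∈ K' := by simpa using K'.mul_mem h3 (K'.inv_mem (hAm d hd))
    exact ⟨k * B d, K'.mul_mem h4 (hBm d hd), f2, hf2, by rw [mul_smul, ← e2, ey]⟩
  obtain ⟨x0, hx0⟩ := hX.ne
  obtain ⟨-, -, f0, hf0, -⟩ := hF.cover x0 hx0
  have hall : ∀ y ∈ X, ∃ k' ∈ K', ∃ f ∈ F, y = k' • f := by
    intro y hy
    obtain ⟨hr, hb⟩ := hX.cvx f0 (hF.sub f0 hf0) y hy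
    obtain ⟨a, a0, an, hadj, -, hbt⟩ := exists_geod hr
    have : ∀ i, i ≤ T.dist f0 y → ∃ k' ∈ K', ∃ f ∈ F, a i = k' • f := by
      intro i
      induction i with
      | zero => exact fun _ => ⟨1, K'.one_mem, f0, hf0, by rw [a0, one_smul]⟩
      | succ i ih =>
        intro hi
        exact hstep (a i) (hb _ (hbt i (by omega))) (a (i + 1)) (hb _ (hbt _ hi))
          (hadj i (by omega)) (ih (by omega))
    simpa [an] using this _ le_rfl
  have : K = K' := by
    refine le_antisymm (fun k hk => ?_) hle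
    obtain ⟨k', hk', f, hf, e⟩ := hall (k • f0) (hX.inv k hk f0 (hF.sub f0 hf0))
    exact hmem k hk k' hk' f0 hf0 f hf e
  rw [this]
  exact hfg

theorem fg_inf_stab (hG : GF T G) (hK : K.FG) {x : V} (hx : Pres T K x) :
    (K ⊓ stabilizer G x).FG := by
  classical
  have hT := hG.acyc
  have hA := hG.acts
  obtain ⟨S, hS, hSf⟩ := (Subgroup.fg_iff K).1 hK
  set H : Subgroup G := K ⊓ stabilizer G x with hH
  have hHx : ∀ g : H, (g : G) • x = x := fun g => g.2.2
  obtain ⟨t, -, ht⟩ := exists_equiv_choice_on (G := H) (X := V) (Y := H)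
    (S := {z | T.Adj x z}) (by
      intro g _ z hz
      have := hA (g : G) x z hz
      rwa [hHx g] at this) (fun _ _ => True) (fun _ _ _ _ _ => trivial) (by
      intro z hz
      refine ⟨1, trivial, fun g hg => ?_⟩
      have : (g : G) = 1 := hG.etriv g x z hz (hHx g) hg
      have : g = 1 := Subtype.ext this
      rw [this]
      exact Subgroup.one_mem _)
  let ρ : G → G := fun k => if k • x = x then k else (t (nxt T x (k • x)) : G)
  have hρ : ∀ g ∈ H, ∀ k ∈ K, ρ (g * k) = g * ρ k := by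
    intro g hg k hk
    have hgx : g • x = x := hg.2
    by_cases h : k • x = x
    · have h' : (g * k) • x = x := by rw [mul_smul, h, hgx]
      simp only [ρ, h, h', if_true]
    · have h' : ¬ (g * k) • x = x := by
        intro h'
        apply h
        apply MulAction.injective g
        show g • k • x = g • x
        rw [← mul_smul, h', hgx]
      simp only [ρ, h, h', if_false]
      have e : nxt T x ((g * k) • x) = g • nxt T x (k • x) := by
        rw [← nxt_smul hT hA, hgx, mul_smul]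
      have hadj : T.Adj x (nxt T x (k • x)) := (sep_nxt hT (hx k hk) (Ne.symm h)).1
      have := ht ⟨g, hg⟩ _ hadj
      rw [e]
      exact congrArg Subtype.val this
  refine T2A.fg_of_section (S := S) ρ (by simp [ρ]) (fun g hg => ?_) (hS ▸ inf_le_left) ?_ ?_
  · have hgx : g • x = x := hg.2
    simp only [ρ, hgx, if_true]
  · intro k hk
    by_cases h : k • x = x
    · simp only [ρ, h, if_true]
      exact ⟨hS ▸ hk, h⟩
    · simp only [ρ, h, if_false]
      exact (t _).2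
  · rw [hS]
    have hch : ∀ y : V, ∃ k0 : G, (∃ k ∈ K, k • y = x) → k0 ∈ K ∧ k0 • y = x := by
      intro y
      by_cases h : ∃ k ∈ K, k • y = x
      · obtain ⟨k, hk, e⟩ := h
        exact ⟨k, fun _ => ⟨hk, e⟩⟩
      · exact ⟨1, fun h' => (h h').elim⟩
    choose κ hκ using hch
    refine Set.Finite.subset ((Set.finite_singleton (1 : G)).union
      (hSf.biUnion (fun s _ => (btw_finite hT x (s • x)).image
        (fun y => (ρ (κ y))⁻¹ * ρ (κ y * s))))) ?_
    rintro _ ⟨k, hk, s, hs, rfl⟩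
    have hsK : s ∈ K := hS ▸ Subgroup.subset_closure hs
    by_cases hb : Btw T (k • x) x ((k * s) • x)
    · right
      refine Set.mem_biUnion hs ⟨k⁻¹ • x, ?_, ?_⟩
      · have := hA.btw k⁻¹ hb
        simpa [mul_smul] using this
      · obtain ⟨h0, h1⟩ := hκ (k⁻¹ • x) ⟨k, hk, smul_inv_smul _ _⟩
        have hg : κ (k⁻¹ • x) * k⁻¹ ∈ H :=
          ⟨K.mul_mem h0 (K.inv_mem hk), by
            show (κ (k⁻¹ • x) * k⁻¹) • x = x
            rw [mul_smul, h1]⟩
        have e1 := hρ _ hg k hk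
        have e2 := hρ _ hg (k * s) (K.mul_mem hk hsK)
        rw [inv_mul_cancel_right] at e1
        rw [← mul_assoc, inv_mul_cancel_right] at e2
        show (ρ (κ (k⁻¹ • x)))⁻¹ * ρ (κ (k⁻¹ • x) * s) = _
        rw [e1, e2]
        group
    · left
      have r1 := hx k hk
      have r2 := hx _ (K.mul_mem hk hsK)
      have n1 : ¬ k • x = x := fun h => hb (by rw [h]; exact btw_left r2)
      have n2 : ¬ (k * s) • x = x := fun h => hb (by rw [h]; exact btw_right r1.symm)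
      have e : nxt T x (k • x) = nxt T x ((k * s) • x) := by
        by_contra hne
        exact hb (btw_of_nxt_ne hT r1 r2 hne)
      simp only [ρ, n1, n2, if_false, e, inv_mul_cancel, Set.mem_singleton_iff]

/-- A cocompact subtree is within bounded distance of any orbit. -/
theorem KC.cobdd (hG : GF T G) {X : Set V} (hX : KC T K X) {p : V} {c : V} (hc : c ∈ X)
    (hp : T.Reachable c p) : ∃ C, ∀ x ∈ X, ∃ k ∈ K, T.dist x (k • p) ≤ C := by
  obtain ⟨F, hF, hF'⟩ := hX.finV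
  obtain ⟨C, hC⟩ := (hF.image (fun f => T.dist f p)).bddAbove
  refine ⟨C, fun x hx => ?_⟩
  obtain ⟨k, hk, h⟩ := hF' x hx
  refine ⟨k⁻¹, K.inv_mem hk, ?_⟩
  rw [← hG.acts.dist k, smul_inv_smul]
  exact hC ⟨_, h, rfl⟩

/-- A leafless cocompact tree has no proper invariant subtree. -/
theorem KC.eq_of_leafless (hG : GF T G) {X Y : Set V} (hX : KC T K X) (hl : Leafless T X)
    (hY : KT T K Y) (hsub : Y ⊆ X) : Y = X := by
  have hT := hG.acyc
  refine Set.Subset.antisymm hsub fun x hx => ?_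
  by_contra hxY
  obtain ⟨y0, hy0⟩ := hY.ne
  obtain ⟨C, hC⟩ := hX.cobdd hG (hsub hy0) (SimpleGraph.Reachable.refl y0)
  obtain ⟨p, hp, hpr⟩ := hY.cvx.exists_proj hT hy0 (hX.cvx x hx y0 (hsub hy0)).1
  have hpx : p ≠ x := fun h => hxY (h ▸ hp)
  have hr : T.Reachable p x := (hpr p hp).1.symm
  have hs := sep_nxt hT hr hpx
  have hq : nxt T p x ∈ X := (hX.cvx p (hsub hp) x hx).2 _ (hs.btw hT).2.1
  obtain ⟨z, hz, hb, hd⟩ := T2A.exists_far hT hl C hq hs.1
  obtain ⟨k, hk, h⟩ := hC z hz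
  have hy : k • y0 ∈ Y := hY.inv k hk y0 hy0
  have h1 : Btw T (nxt T p x) p (k • y0) := ((hpr _ hy).trans_left hs.2.2.symm).2
  have h2 := (hb.symm.glue hT h1 hs.1.ne.symm).2.2.2
  rw [SimpleGraph.dist_comm, hd] at h2
  omega

/-- Every vertex of a leafless subtree lies on arbitrarily long geodesics in every direction. -/
theorem Leafless.exists_far (hT : T.IsAcyclic) {X : Set V} (hl : Leafless T X) {x y : V}
    (hx : x ∈ X) (hy : y ∈ X) (hxy : T.Adj x y) (n : ℕ) :
    ∃ z ∈ X, Btw T x y z ∧ T.dist x z = n + 1 := by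
  exact T2A.exists_far hT hl n hy hxy

/-- Nested halfspaces give an axis through the dart. -/
theorem axis_of_nested (hG : GF T G) {g : G} {p q : V} (hpq : T.Adj p q)
    (h : Btw T p q (g • p)) (h' : Btw T q (g • p) (g • q)) :
    ∃ (a : ℤ → V) (l : ℕ), IsAxis T g a l ∧ a 0 = p ∧ a 1 = q := by
  have hT := hG.acyc
  have hA := hG.acts
  have hne : g • p ≠ p := by
    intro e
    rw [e] at h
    exact hpq.ne.symm h.eq_of_self
  have hadj : T.Adj (g • p) (g • q) := hA g p q hpq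
  have h1 : Btw T p (g • p) (g • q) := by
    by_cases e : q = g • p
    · refine btw_of_adj hT (e ▸ hpq) hadj ?_
      exact (hG.noinv g p q hpq e.symm).symm
    · exact (h.glue hT h' e).2
  have h2 := (h1.glue hT (hA.btw g h) hadj.ne).1
  obtain ⟨a, l, ha, a0⟩ := T2A.axis_of_btw hG hne h2
  refine ⟨a, l, ha, a0, ?_⟩
  have hl := ha.2.1
  have h3 : Btw T (a 0) (a 1) (a (0 + l)) := ha.1.btw hT (by norm_num) (by omega)
  rw [← ha.2.2 0, a0] at h3
  refine h3.unique hT h ?_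
  have h4 := ha.1.1 0
  rw [a0, zero_add] at h4
  rw [SimpleGraph.dist_eq_one_iff_adj.2 h4, SimpleGraph.dist_eq_one_iff_adj.2 hpq]

/-- Three aligned points give an axis. -/
theorem axis_of_btw (hG : GF T G) {g : G} {p : V} (hne : g • p ≠ p)
    (h : Btw T p (g • p) (g • g • p)) :
    ∃ (a : ℤ → V) (l : ℕ), IsAxis T g a l ∧ a 0 = p := by
  exact T2A.axis_of_btw hG hne h

/-- Two elements that translate a long common segment have a common power. -/
theorem common_pow (hG : GF T G) {g h : G} {a b : ℤ → V} {l m : ℕ} (ha : IsAxis T g a l)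
    (hb : IsAxis T h b m) (hov : ∀ i : ℤ, 0 ≤ i → i ≤ l * m + 1 → a i = b i) : g ^ m = h ^ l := by
  have h0 : (0 : ℤ) ≤ (l : ℤ) * m := by positivity
  have key : ∀ i : ℤ, 0 ≤ i → i ≤ 1 → ((h ^ l)⁻¹ * g ^ m) • a i = a i := by
    intro i hi hi'
    have e1 := ha.zpow_smul m i
    have e2 := hb.zpow_smul l i
    rw [zpow_natCast] at e1 e2
    rw [mul_smul, inv_smul_eq_iff, e1, hov i hi (by omega), e2, mul_comm (m : ℤ) l]
    exact hov _ (by omega) (by omega)
  have := hG.etriv _ (a 0) (a (0 + 1)) (ha.1.1 0) (key 0 le_rfl (by norm_num))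
    (key _ (by norm_num) (by norm_num))
  exact (inv_mul_eq_one.1 this).symm

theorem commute_axis (hG : GF T G) {g h : G} {a : ℤ → V} {l : ℕ} (ha : IsAxis T g a l)
    (hc : Commute g h) (hh : T.Reachable (a 0) (h • a 0)) : ∃ c : ℤ, ∀ i, h • a i = a (i + c) := by
  have h1 := ha.conj hG.acts h
  have e : h * g * h⁻¹ = g := by rw [← hc.eq, mul_inv_cancel_right]
  rw [e] at h1
  exact (ha.unique hG.acyc hG.acts h1 hh).2

/-- Elements with a common nonzero power have the same axis. -/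
theorem axis_range_of_pow (hG : GF T G) {g h : G} {a b : ℤ → V} {l m : ℕ} (ha : IsAxis T g a l)
    (hb : IsAxis T h b m) (hr : T.Reachable (a 0) (b 0)) {i j : ℤ} (hi : i ≠ 0)
    (he : g ^ i = h ^ j) : Set.range a = Set.range b := by
  obtain ⟨a', l', ha', a0, ra⟩ := T2A.zpow_axis ha hi
  have hj : j ≠ 0 := by
    rintro rfl
    refine ha'.not_fix hG.acyc hG.acts (SimpleGraph.Reachable.refl (a' 0)) ?_
    rw [he, zpow_zero, one_smul]
  obtain ⟨b', m', hb', b0, rb⟩ := T2A.zpow_axis hb hj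
  rw [← he] at hb'
  obtain ⟨-, c, hc⟩ := ha'.unique hG.acyc hG.acts hb' (by rw [a0, b0]; exact hr)
  rw [← ra, ← rb]
  ext x
  constructor
  · rintro ⟨k, rfl⟩
    exact ⟨k - c, by rw [hc]; simp⟩
  · rintro ⟨k, rfl⟩
    exact ⟨k + c, (hc k).symm⟩

end CPOR
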