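import Pool.Agent.P.MP_2cb329_al.F.T2

/-! Theorem F: free actions. -/

set_option autoImplicit false

namespace CPOR
open ZT MulAction

variable {V : Type} {T : SimpleGraph V} {G : Type} [Group G] [MulAction G V] {K : Subgroup G}

/-! ### Free actions -/

theorem FT.no_refl (hF : FT T G) {a : ℤ → V} (ha : Line T a) {g : G} {c : ℤ}
    (h : ∀ i, g • a i = a (c - i)) : False := by
  rcases Int.even_or_odd' c with ⟨m, hm | hm⟩
  · have h1 := h m
    rw [show c - m = m by omega] at h1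
    have h2 := h (m + 1)
    rw [hF.free g _ h1, one_smul] at h2
    have := ha.inj hF.acyc h2
    omega
  · have h1 := h m
    rw [show c - m = m + 1 by omega] at h1
    have h2 := h (m + 1)
    rw [show c - (m + 1) = m by omega] at h2
    exact hF.noinv g _ _ (ha.1 m) h1 h2

theorem FT.disp_zpow (hF : FT T G) {g : G} {a : ℤ → V} {l : ℕ} (ha : IsAxis T g a l) {x : V}
    (hr : T.Reachable x (a 0)) :
    ∃ i : ℤ, ∀ n : ℤ, n ≠ 0 → T.dist x (g ^ n • x) = n.natAbs * l + 2 * T.dist x (a i) := by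
  obtain ⟨i, hi, -⟩ := ha.disp hF.acyc hF.acts hr
  refine ⟨i, fun n hn => ?_⟩
  obtain ⟨m, rfl | rfl⟩ := n.eq_nat_or_neg
  · have hm : 1 ≤ m := by omega
    obtain ⟨j, hj, h2, -⟩ := (ha.pow hm).disp hF.acyc hF.acts hr
    rw [zpow_natCast, h2, (hj i).antisymm (hi j), Int.natAbs_natCast]
  · have hm : 1 ≤ m := by omega
    obtain ⟨j, hj, h2, -⟩ := ((ha.inv 0).pow hm).disp hF.acyc hF.acts (p := x) (by simpa using hr)
    have h3 := hj (-i)
    simp only [zero_sub, neg_neg] at h2 h3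
    rw [zpow_neg, zpow_natCast, ← inv_pow, h2, h3.antisymm (hi _), Int.natAbs_neg,
      Int.natAbs_natCast]

theorem ball_succ_subset (x : V) (r : ℕ) :
    {y | T.Reachable x y ∧ T.dist x y ≤ r + 1} ⊆
      ⋃ y ∈ {y | T.Reachable x y ∧ T.dist x y ≤ r}, insert y (T.neighborSet y) := by
  intro z hz
  rw [Set.mem_iUnion₂]
  by_cases h : T.dist x z ≤ r
  · exact ⟨z, ⟨hz.1, h⟩, Set.mem_insert _ _⟩
  · have h2 := hz.2
    obtain ⟨y, hb, hd⟩ := exists_btw_dist hz.1 (by omega : r ≤ T.dist x z)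
    refine ⟨y, ⟨hb.1, hd.le⟩, Set.mem_insert_of_mem _ (adj_of_dist_one ?_)⟩
    have := hb.2.2
    omega

theorem FT.exists_axis (hF : FT T G) {g : G} (hg : g ≠ 1) {x : V} (hx : T.Reachable x (g • x)) :
    ∃ (a : ℤ → V) (l : ℕ), IsAxis T g a l ∧ ∀ i : ℤ, 0 ≤ i → i ≤ l → Btw T x (a i) (g • x) := by
  rcases ell_or_hyp hF.acyc hF.acts hF.noinv g hx with ⟨p, -, hp⟩ | h
  · exact absurd (hF.free g p hp) hg
  · exact h

theorem FT.eq_one_of_zpow (hF : FT T G) {g : G} {x : V} (hx : T.Reachable x (g • x)) {n : ℤ}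
    (hn : n ≠ 0) (h : g ^ n = 1) : g = 1 := by
  by_contra hg
  obtain ⟨a, l, ha, -⟩ := hF.exists_axis hg hx
  have h1 := ha.zpow_smul n 0
  rw [h, one_smul] at h1
  have h2 := ha.1.inj hF.acyc h1
  have h3 : (1 : ℤ) ≤ l := by exact_mod_cast ha.2.1
  have h4 : n * (l : ℤ) = 0 := by omega
  rcases mul_eq_zero.1 h4 with h5 | h5
  · exact hn h5
  · omega

theorem FT.not_inverted (hF : FT T G) {g h : G} {x : V} (hx : T.Reachable x (g • x))
    (hh : T.Reachable x (h • x)) (he : h * g * h⁻¹ = g⁻¹) : g = 1 := by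
  by_contra hg
  obtain ⟨a, l, ha, hb⟩ := hF.exists_axis hg hx
  have hr : T.Reachable x (a 0) := (hb 0 le_rfl (by positivity)).1
  have h1 := ha.conj hF.acts h
  rw [he] at h1
  have h2 := ha.inv 0
  have hr' : T.Reachable (a (0 - 0)) (h • a 0) := by
    rw [sub_zero]
    exact hr.symm.trans (hh.trans (hF.acts.reach h hr))
  obtain ⟨-, c, hc⟩ := IsAxis.unique hF.acyc hF.acts h2 h1 hr'
  refine hF.no_refl ha.1 (g := h) (c := -c) fun i => ?_
  rw [hc i]
  congr 1
  ring

theorem FT.disp_le_zpow (hF : FT T G) {g : G} {x : V} (hx : T.Reachable x (g • x)) {n : ℤ}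
    (hn : n ≠ 0) : T.dist x (g • x) ≤ T.dist x (g ^ n • x) := by
  by_cases hg : g = 1
  · subst hg
    simp
  obtain ⟨a, l, ha, hb⟩ := hF.exists_axis hg hx
  have hr : T.Reachable x (a 0) := (hb 0 le_rfl (by positivity)).1
  obtain ⟨i, hi⟩ := hF.disp_zpow ha hr
  have h1 := hi 1 one_ne_zero
  have h2 := hi n hn
  rw [zpow_one] at h1
  rw [h1, h2]
  have : 1 ≤ n.natAbs := Int.natAbs_pos.2 hn
  have := Nat.mul_le_mul_right l this
  simp only [Int.natAbs_one] at *
  omega

theorem FT.natAbs_le (hF : FT T G) {g : G} (hg : g ≠ 1) {x : V} (hx : T.Reachable x (g • x))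
    (n : ℤ) : n.natAbs ≤ T.dist x (g ^ n • x) := by
  by_cases hn : n = 0
  · subst hn
    simp
  obtain ⟨a, l, ha, hb⟩ := hF.exists_axis hg hx
  have hr : T.Reachable x (a 0) := (hb 0 le_rfl (by positivity)).1
  obtain ⟨i, hi⟩ := hF.disp_zpow ha hr
  rw [hi n hn]
  have := Nat.mul_le_mul_left n.natAbs ha.2.1
  omega

theorem dist_zpow_le (hA : Acts T G) {g : G} {x : V} (hx : T.Reachable x (g • x)) (n : ℤ) :
    T.Reachable x (g ^ n • x) ∧ T.dist x (g ^ n • x) ≤ n.natAbs * T.dist x (g • x) := by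
  have key : ∀ (g : G), T.Reachable x (g • x) → ∀ m : ℕ,
      T.Reachable x (g ^ m • x) ∧ T.dist x (g ^ m • x) ≤ m * T.dist x (g • x) := by
    intro g hx m
    induction m with
    | zero => simp
    | succ m ih =>
      have h1 : T.Reachable (g ^ m • x) (g ^ (m + 1) • x) := by
        rw [pow_succ, mul_smul]
        exact hA.reach _ hx
      have h2 : T.dist (g ^ m • x) (g ^ (m + 1) • x) = T.dist x (g • x) := by
        rw [pow_succ, mul_smul, hA.dist]
      refine ⟨ih.1.trans h1, ?_⟩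
      have := dist_tri ih.1 h1
      have h3 := ih.2
      rw [add_mul, one_mul]
      omega
  obtain ⟨m, rfl | rfl⟩ := n.eq_nat_or_neg
  · simpa using key g hx m
  · have h1 : T.Reachable x (g⁻¹ • x) := by
      have := hA.reach g⁻¹ hx
      rw [inv_smul_smul] at this
      exact this.symm
    have h2 : T.dist x (g⁻¹ • x) = T.dist x (g • x) := by
      rw [← hA.dist g x, smul_inv_smul, SimpleGraph.dist_comm]
    have := key g⁻¹ h1 m
    rw [h2] at this
    simpa using this

/-- A group that preserves a line is cyclic. -/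
theorem FT.isCyclic_of_line (hF : FT T G) {a : ℤ → V} (ha : Line T a)
    (h : ∀ k ∈ K, ∀ i, k • a i ∈ Set.range a) : IsCyclic K := by
  have h1 : ∀ k : K, ∃ c : ℤ, ∀ i, (k : G) • a i = a (i + c) := by
    intro k
    obtain ⟨c, hc | hc⟩ := ha.stab hF.acyc hF.acts (h k k.2)
    · exact ⟨c, hc⟩
    · exact (hF.no_refl ha hc).elim
  choose c hc using h1
  have hmul : ∀ k k' : K, c (k * k') = c k + c k' := by
    intro k k'
    have h2 := hc (k * k') 0
    rw [Subgroup.coe_mul, mul_smul, hc k', hc k] at h2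
    have := ha.inj hF.acyc h2
    omega
  let φ : K →* Multiplicative ℤ :=
    MonoidHom.mk' (fun k => Multiplicative.ofAdd (c k)) (fun k k' => by rw [hmul, ofAdd_add])
  have hinj : Function.Injective φ := by
    rw [injective_iff_map_eq_one]
    intro k hk
    have h0 : c k = 0 := by simpa [φ] using hk
    have h2 := hc k 0
    rw [h0, add_zero] at h2
    exact Subtype.ext (hF.free _ _ h2)
  exact isCyclic_of_injective φ hinj

theorem FT.isCyclic_of_commute (hF : FT T G) {c : V} (hK : Pres T K c) {g : G} (hg : g ≠ 1)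
    (hgc : T.Reachable c (g • c)) (h : ∀ k ∈ K, Commute k g) : IsCyclic K := by
  obtain ⟨a, l, ha, hb⟩ := hF.exists_axis hg hgc
  have hr : T.Reachable c (a 0) := (hb 0 le_rfl (by positivity)).1
  refine hF.isCyclic_of_line ha.1 fun k hk i => ?_
  obtain ⟨d, hd⟩ := commute_axis hF.toGF ha (h k hk).symm (hK.of_reach hF.acts hr k hk)
  exact ⟨i + d, (hd i).symm⟩

theorem FT.ball_finite (hF : FT T G) (x : V) (r : ℕ) :
    {y | T.Reachable x y ∧ T.dist x y ≤ r}.Finite := by
  induction r with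
  | zero =>
    refine (Set.finite_singleton x).subset fun y hy => ?_
    exact (eq_of_dist_zero hy.1 (Nat.le_zero.1 hy.2)).symm
  | succ r ih =>
    refine (ih.biUnion fun y _ => (hF.lf y).insert y).subset (ball_succ_subset x r)

theorem FT.ball_card (hF : FT T G) (hV : FinOrb (⊤ : Subgroup G) (Set.univ : Set V)) :
    ∃ D : ℕ, ∀ x r, {y | T.Reachable x y ∧ T.dist x y ≤ r}.ncard ≤ (D + 1) ^ r := by
  classical
  obtain ⟨D, hD⟩ := hV.bound (fun x c => (T.neighborSet x).ncard ≤ c)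
    (fun x _ c c' h1 h2 => h2.trans h1) (fun k _ x _ c _ h => by
      refine le_trans ?_ h
      have : T.neighborSet (k • x) ⊆ (fun y => k • y) '' T.neighborSet x := by
        intro y hy
        refine ⟨k⁻¹ • y, ?_, smul_inv_smul k y⟩
        have := hF.acts k⁻¹ _ _ hy
        rwa [inv_smul_smul] at this
      exact (Set.ncard_le_ncard this ((hF.lf x).image _)).trans (Set.ncard_image_le (hF.lf x)))
    (fun x _ => ⟨_, le_rfl⟩)
  refine ⟨D, fun x r => ?_⟩
  induction r with
  | zero =>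
    have : {y | T.Reachable x y ∧ T.dist x y ≤ 0} ⊆ {x} := fun y hy =>
      (eq_of_dist_zero hy.1 (Nat.le_zero.1 hy.2)).symm
    simpa using Set.ncard_le_ncard this (Set.finite_singleton x)
  | succ r ih =>
    have hfin := hF.ball_finite x r
    have h1 : {y | T.Reachable x y ∧ T.dist x y ≤ r + 1} ⊆
        ↑(hfin.toFinset.biUnion fun y => ((hF.lf y).insert y).toFinset) := by
      intro z hz
      obtain ⟨y, hy, hz'⟩ := Set.mem_iUnion₂.1 (ball_succ_subset x r hz)
      simp only [Finset.coe_biUnion, Set.Finite.coe_toFinset, Set.mem_iUnion]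
      exact ⟨y, hy, hz'⟩
    have h2 := Set.ncard_le_ncard h1 (Finset.finite_toSet _)
    rw [Set.ncard_coe_finset] at h2
    have h3 := Finset.card_biUnion_le_card_mul hfin.toFinset
      (fun y => ((hF.lf y).insert y).toFinset) (D + 1) (fun y _ => by
        rw [← Set.ncard_eq_toFinset_card _ ((hF.lf y).insert y)]
        exact (Set.ncard_insert_le _ _).trans (Nat.add_le_add_right (hD y (Set.mem_univ y)) 1))
    rw [← Set.ncard_eq_toFinset_card _ hfin] at h3
    rw [pow_succ]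
    exact h2.trans (h3.trans (Nat.mul_le_mul_right _ ih))

theorem FT.elts_finite (hF : FT T G) (x y : V) (r : ℕ) :
    {g : G | T.Reachable x (g • y) ∧ T.dist x (g • y) ≤ r}.Finite := by
  refine Set.Finite.preimage (f := fun g : G => g • y) (fun g _ g' _ h => ?_) (hF.ball_finite x r)
  have h1 : (g'⁻¹ * g) • y = y := by
    simp only at h
    rw [mul_smul, h, inv_smul_smul]
  exact (inv_mul_eq_one.1 (hF.free _ _ h1)).symm

theorem FT.finOrb_darts (hF : FT T G) {X : Set V} (h : FinOrb K X) : FinOrb K (DartsIn T X) := by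
  refine h.of_rel (fun (e : V × V) (x : V) => e.1 = x ∧ T.Adj e.1 e.2) ?_ ?_ ?_
  · rintro k _ e x ⟨h1, h2⟩
    exact ⟨by rw [← h1]; rfl, hF.acts k _ _ h2⟩
  · intro e he
    exact ⟨e.1, he.2.1, rfl, he.1⟩
  · intro x _
    refine ((hF.lf x).image fun y => (x, y)).subset ?_
    rintro ⟨u, v⟩ ⟨h1, h2⟩
    simp only at h1 h2
    subst h1
    exact ⟨v, h2, rfl⟩

theorem FT.finOrb_nbhd (hF : FT T G) {X : Set V} (h : FinOrb K X) (r : ℕ) :
    FinOrb K {y | ∃ x ∈ X, T.Reachable x y ∧ T.dist x y ≤ r} := by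
  refine h.of_rel (fun (y x : V) => T.Reachable x y ∧ T.dist x y ≤ r) ?_ ?_ ?_
  · rintro k _ y x ⟨h1, h2⟩
    exact ⟨hF.acts.reach k h1, by rw [hF.acts.dist]; exact h2⟩
  · rintro y ⟨x, hx, h1⟩
    exact ⟨x, hx, h1⟩
  · intro x _
    exact hF.ball_finite x r

theorem FT.fg_of_finOrb (hF : FT T G) {X : Set V} (hX : KT T K X) (h : FinOrb K X) : K.FG := by
  refine fg_of_kc hF.toGF ⟨hX, h, hF.finOrb_darts h⟩ fun x _ => ?_
  have : K ⊓ stabilizer G x = ⊥ := by
    rw [eq_bot_iff]
    intro k hk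
    exact hF.free k x hk.2
  rw [this]
  exact ⟨∅, by simp⟩

/-- Generation by elements of small displacement. -/
theorem FT.closure_small (hF : FT T G) {X : Set V} (hX : KC T K X) {x : V} (hx : x ∈ X) :
    Subgroup.closure {k | k ∈ K ∧ T.dist x (k • x) ≤ 2 * nOrb K X + 1} = K := by
  classical
  have hnear : ∀ y ∈ X, ∃ k ∈ K, T.dist y (k • x) ≤ nOrb K X := by
    intro y hy
    have hex : ∃ d, ∃ k ∈ K, T.dist y (k • x) = d := ⟨_, 1, K.one_mem, rfl⟩
    obtain ⟨k, hk, hd⟩ := Nat.find_spec hex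
    refine ⟨k, hk, ?_⟩
    by_contra hlt
    push Not at hlt
    have hkx : k • x ∈ X := hX.inv k hk x hx
    obtain ⟨hr, hcv⟩ := hX.cvx y hy _ hkx
    obtain ⟨a, h0, h1, -, h3, h4⟩ := exists_geod hr
    obtain ⟨i, j, hij, hj, k', hk', he⟩ := hX.finV.pigeon a fun i hi => hcv _ (h4 i (by omega))
    have e1 := h3 0 i (by omega) (by omega)
    have e2 := h3 j _ (by omega : j ≤ T.dist y (k • x)) le_rfl
    rw [h0] at e1
    rw [h1, ← he] at e2
    have e3 : T.Reachable (a i) ((k'⁻¹ * k) • x) := by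
      have := hF.acts.reach k'⁻¹ e2.1
      rwa [inv_smul_smul, ← mul_smul] at this
    have e4 : T.dist (a i) ((k'⁻¹ * k) • x) = T.dist y (k • x) - j := by
      rw [← hF.acts.dist k', ← mul_smul, mul_inv_cancel_left]
      exact e2.2
    have e5 := dist_tri e1.1 e3
    have e6 := Nat.find_min' hex ⟨k'⁻¹ * k, K.mul_mem (K.inv_mem hk') hk, rfl⟩
    have e7 := e1.2
    omega
  apply le_antisymm
  · rw [Subgroup.closure_le]
    exact fun k hk => hk.1
  have key : ∀ n, ∀ y ∈ X, T.dist x y = n → ∀ k ∈ K, T.dist y (k • x) ≤ nOrb K X →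
      k ∈ Subgroup.closure {k | k ∈ K ∧ T.dist x (k • x) ≤ 2 * nOrb K X + 1} := by
    intro n
    induction n with
    | zero =>
      intro y hy hd k hk h
      have := eq_of_dist_zero (hX.cvx x hx y hy).1 hd
      subst this
      exact Subgroup.subset_closure ⟨hk, by omega⟩
    | succ n ih =>
      intro y hy hd k hk h
      obtain ⟨hr, hcv⟩ := hX.cvx x hx y hy
      obtain ⟨y', hb, hd'⟩ := exists_btw_dist hr (by omega : n ≤ T.dist x y)
      have hy' := hcv y' hb
      obtain ⟨k', hk', h'⟩ := hnear y' hy'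
      have h1 := ih y' hy' hd' k' hk' h'
      have h2 : k'⁻¹ * k ∈
          Subgroup.closure {k | k ∈ K ∧ T.dist x (k • x) ≤ 2 * nOrb K X + 1} := by
        refine Subgroup.subset_closure ⟨K.mul_mem (K.inv_mem hk') hk, ?_⟩
        rw [← hF.acts.dist k', ← mul_smul, mul_inv_cancel_left]
        have r1 := (hX.cvx _ (hX.inv k' hk' x hx) y' hy').1
        have r2 := (hX.cvx y hy _ (hX.inv k hk x hx)).1
        have t1 := dist_tri r1 (hb.2.1.trans r2)
        have t2 := dist_tri hb.2.1 r2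
        have t3 := hb.2.2
        rw [SimpleGraph.dist_comm] at h'
        omega
      have := Subgroup.mul_mem _ h1 h2
      rwa [mul_inv_cancel_left] at this
  intro k hk
  exact key _ (k • x) (hX.inv k hk x hx) rfl k hk (by simp)

/-- If a translate of a ray of points stays in a cocompact set, a power lies in `K`. -/
theorem FT.pow_mem (hF : FT T G) {X : Set V} (h : FinOrb K X) {g : G} {x : V}
    (hx : ∀ i ≤ nOrb K X, g ^ i • x ∈ X) : ∃ j, 1 ≤ j ∧ j ≤ nOrb K X ∧ g ^ j ∈ K := by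
  obtain ⟨i, j, hij, hj, k, hk, he⟩ := h.pigeon (fun i => g ^ i • x) hx
  refine ⟨j - i, by omega, by omega, ?_⟩
  have h1 : ((g ^ j)⁻¹ * k * g ^ i) • x = x := by
    rw [mul_smul, mul_smul, he, inv_smul_smul]
  have h2 := hF.free _ _ h1
  have h3 : g ^ (j - i) = k := by
    have h4 : g ^ j = g ^ (j - i) * g ^ i := by rw [← pow_add]; congr 1; omega
    rw [mul_assoc, inv_mul_eq_one, h4] at h2
    exact mul_right_cancel h2
  rwa [h3]

end CPOR
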