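import Pool.Agent.P.MP_2cb329_al.F.T2b

/-! Theorem F: Howson property, coarse intersections, bounded cancellation, minimal subtrees. -/

set_option autoImplicit false

namespace CPOR
open ZT MulAction

variable {V : Type} {T : SimpleGraph V} {G : Type} [Group G] [MulAction G V] {K P Q : Subgroup G}

theorem FT.finOrb_inter (hF : FT T G) {X Y : Set V} (hX : FinOrb P X) (hY : FinOrb Q Y) :
    FinOrb (P ⊓ Q) (X ∩ Y) ∧ nOrb (P ⊓ Q) (X ∩ Y) ≤ nOrb P X * nOrb Q Y := by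
  have hX' := finOrb_iff.1 hX
  have hY' := finOrb_iff.1 hY
  have hs : orb (P ⊓ Q) '' (X ∩ Y) ⊆
      (fun p : Set V × Set V => p.1 ∩ p.2) '' ((orb P '' X) ×ˢ (orb Q '' Y)) := by
    rintro _ ⟨x, hx, rfl⟩
    refine ⟨(orb P x, orb Q x), ⟨⟨x, hx.1, rfl⟩, ⟨x, hx.2, rfl⟩⟩, ?_⟩
    ext y
    constructor
    · rintro ⟨⟨k, hk, h1⟩, ⟨k', hk', h2⟩⟩
      have e : k'⁻¹ * k = 1 := hF.free _ x (by rw [mul_smul, h1, ← h2, inv_smul_smul])
      have e' : k' = k := inv_mul_eq_one.1 e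
      subst e'
      exact ⟨k', ⟨hk, hk'⟩, h1⟩
    · rintro ⟨k, hk, h⟩
      exact ⟨⟨k, hk.1, h⟩, ⟨k, hk.2, h⟩⟩
  have hf := (hX'.prod hY').image (fun p : Set V × Set V => p.1 ∩ p.2)
  refine ⟨finOrb_iff.2 (hf.subset hs), ?_⟩
  unfold nOrb
  rw [← Set.ncard_prod]
  exact (Set.ncard_le_ncard hs hf).trans (Set.ncard_image_le (hX'.prod hY'))

theorem KT.inter {X Y : Set V} (hX : KT T P X) (hY : KT T Q Y) {c : V} (hcX : c ∈ X)
    (hcY : c ∈ Y) : KT T (P ⊓ Q) (X ∩ Y) :=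
  ⟨⟨c, hcX, hcY⟩, fun x hx z hz => ⟨(hX.cvx x hx.1 z hz.1).1,
      fun y hy => ⟨(hX.cvx x hx.1 z hz.1).2 y hy, (hY.cvx x hx.2 z hz.2).2 y hy⟩⟩,
    fun k hk x hx => ⟨hX.inv k hk.1 x hx.1, hY.inv k hk.2 x hx.2⟩⟩

theorem FT.howson (hF : FT T G) (hP : P.FG) (hQ : Q.FG) {c : V} (hPc : Pres T P c)
    (hQc : Pres T Q c) : (P ⊓ Q).FG := by
  have hX := kc_hull hF.toGF hP hPc
  have hY := kc_hull hF.toGF hQ hQc
  exact hF.fg_of_finOrb (hX.toKT.inter hY.toKT (subset_hull _ (mem_orb_self c))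
    (subset_hull _ (mem_orb_self c))) (hF.finOrb_inter hX.finV hY.finV).1

/-- Coarse intersection of two cocompact subtrees of one component. -/
theorem FT.coarse_inter (hF : FT T G) {X Y : Set V} (hX : KC T P X) (hY : KC T Q Y) {x0 y0 p : V}
    (hx0 : x0 ∈ X) (hy0 : y0 ∈ Y) (hr : T.Reachable x0 y0) (hp : T.Reachable x0 p) :
    ∃ C, (∀ r z, ∀ x ∈ X, ∀ y ∈ Y, T.Reachable x0 z → T.dist z x ≤ r → T.dist z y ≤ r →
        ∃ k ∈ P ⊓ Q, T.dist z (k • p) ≤ r + C) ∧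
      ∀ x ∈ X, ∀ q ∈ Y, (∀ y ∈ Y, Btw T x q y) → ∃ k ∈ P ⊓ Q, T.dist q (k • p) ≤ C := by
  have key : ∃ C, ∀ x ∈ X, ∀ y ∈ Y, ∃ w ∈ Y, Btw T x w y ∧
      ∃ k ∈ P ⊓ Q, T.dist w (k • p) ≤ C := by
    by_cases hd : Disjoint X Y
    · obtain ⟨a, -, b, hb, -, h1, -⟩ := hX.cvx.bridge hF.acyc hY.cvx hd hx0 hy0 hr
      exact ⟨T.dist b p, fun x hx y hy => ⟨b, hb, (h1 x hx y hy).2.2.2, 1, Subgroup.one_mem _,
        by rw [one_smul]⟩⟩
    · obtain ⟨c, hcX, hcY⟩ := Set.not_disjoint_iff.1 hd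
      have h1 := (hF.finOrb_inter hX.finV hY.finV).1
      have hZ : KC T (P ⊓ Q) (X ∩ Y) :=
        ⟨hX.toKT.inter hY.toKT hcX hcY, h1, hF.finOrb_darts h1⟩
      obtain ⟨C, hC⟩ := hZ.cobdd hF.toGF (c := c) ⟨hcX, hcY⟩
        ((hX.cvx c hcX x0 hx0).1.trans hp)
      refine ⟨C, fun x hx y hy => ?_⟩
      obtain ⟨w, hw, hb⟩ := hX.cvx.helly hF.acyc hY.cvx hcX hcY hx hy
      exact ⟨w, hw.2, hb, hC w hw⟩
  obtain ⟨C, hC⟩ := key
  refine ⟨C, fun r z x hx y hy hz h1 h2 => ?_, fun x hx q hq h => ?_⟩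
  · obtain ⟨w, hw, hb, k, hk, hd⟩ := hC x hx y hy
    refine ⟨k, hk, ?_⟩
    have rxz : T.Reachable x z := (hX.cvx x hx x0 hx0).1.trans hz
    have rzw : T.Reachable z w := rxz.symm.trans hb.1
    have rwk : T.Reachable w (k • p) :=
      hb.1.symm.trans ((hX.cvx x hx _ (hX.inv k hk.1 x0 hx0)).1.trans (hF.acts.reach k hp))
    have h3 : T.dist z w ≤ r := by
      rcases hb.or hF.acyc rxz with e | e
      · have := e.symm.2.2
        omega
      · have := e.2.2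
        omega
    exact (dist_tri rzw rwk).trans (Nat.add_le_add h3 hd)
  · obtain ⟨w, hw, hb, hk⟩ := hC x hx q hq
    rwa [hb.antisymm (h w hw)] at hk

section Two

variable {V' : Type} {T' : SimpleGraph V'} [MulAction G V']

theorem Pres.reach_orb {p : V} (hp : Pres T K p) {g h : G} (hg : g ∈ K) (hh : h ∈ K) :
    T.Reachable (g • p) (h • p) := (hp g hg).symm.trans (hp h hh)

/-- Induction along a geodesic between two points of an orbit. -/
theorem orb_induct (hG : GF T G) (hK : K.FG) {p : V} (hp : Pres T K p) :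
    ∃ C, ∀ g ∈ K, ∀ h ∈ K, ∀ R : ℕ → G → Prop,
      (∀ k ∈ K, ∀ y, Btw T (g • p) y (h • p) → T.dist y (k • p) ≤ C →
        T.dist (g • p) (k • p) ≤ C → R 0 k) →
      (∀ i, ∀ k ∈ K, ∀ k' ∈ K, ∀ y, Btw T (g • p) y (h • p) → T.dist y (k' • p) ≤ C →
        T.dist (k • p) (k' • p) ≤ C → R i k → R (i + 1) k') →
      R (T.dist (g • p) (h • p)) h := by
  have hX := kc_hull hG hK hp
  obtain ⟨C, hC⟩ := hX.cobdd hG (subset_hull _ (mem_orb_self p)) (SimpleGraph.Reachable.refl p)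
  refine ⟨2 * C + 1, fun g hg h hh R h0 hs => ?_⟩
  obtain ⟨a, a0, an, -, ad, ab⟩ := exists_geod (hp.reach_orb hg hh)
  have key : ∀ i ≤ T.dist (g • p) (h • p), ∀ k ∈ K, T.dist (a i) (k • p) ≤ C → R i k := by
    intro i
    induction i with
    | zero =>
      intro hi k hk hd
      exact h0 k hk _ (ab 0 hi) (by omega) (by rw [← a0]; omega)
    | succ i ih =>
      intro hi k' hk' hd
      have b1 := ab i (by omega)
      have b2 := ab (i + 1) hi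
      obtain ⟨k, hk, hd'⟩ := hC (a i) ⟨_, ⟨g, hg, rfl⟩, _, ⟨h, hh, rfl⟩, b1⟩
      refine hs i k hk k' hk' _ b2 (by omega) ?_ (ih (by omega) k hk hd')
      have r1 : T.Reachable (k • p) (a i) := (hp.reach_orb hk hg).trans b1.1
      have r2 := ad i (i + 1) (by omega) hi
      have r3 : T.Reachable (a (i + 1)) (k' • p) := b2.2.1.trans (hp.reach_orb hh hk')
      have t1 := dist_tri r1 (r2.1.trans r3)
      have t2 := dist_tri r2.1 r3
      rw [SimpleGraph.dist_comm] at hd'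
      omega
  exact key _ le_rfl h hh (by rw [an, SimpleGraph.dist_self]; omega)

theorem dist_orb (hA : Acts T G) (p : V) (g h : G) :
    T.dist (g • p) (h • p) = T.dist p ((g⁻¹ * h) • p) := by
  rw [← hA.dist g⁻¹, inv_smul_smul, mul_smul]

/-- Displacement in any forest is bounded by the displacement in a free one. -/
theorem FT.lip (hF : FT T G) (hA : Acts T' G) (hK : K.FG) {p : V} {p' : V'} (hp : Pres T K p)
    (hp' : Pres T' K p') : ∃ C, ∀ g ∈ K, T'.dist p' (g • p') ≤ C * (T.dist p (g • p) + 1) := by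
  obtain ⟨C, hC⟩ := orb_induct hF.toGF hK hp
  obtain ⟨M, hM⟩ := ((hF.elts_finite p p C).image fun g => T'.dist p' (g • p')).bddAbove
  have hM' : ∀ k ∈ K, ∀ k' ∈ K, T.dist (k • p) (k' • p) ≤ C → T'.dist (k • p') (k' • p') ≤ M := by
    intro k hk k' hk' hd
    rw [dist_orb hF.acts] at hd
    rw [dist_orb hA]
    exact hM ⟨_, ⟨hp _ (K.mul_mem (K.inv_mem hk) hk'), hd⟩, rfl⟩
  refine ⟨M, fun g hg => ?_⟩
  have := hC 1 K.one_mem g hg (fun i k => T'.dist p' (k • p') ≤ M * (i + 1))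
    (fun k hk _ _ _ hd => by simpa using hM' 1 K.one_mem k hk hd)
    (fun i k hk k' hk' _ _ _ hd ih => by
      have t := dist_tri (hp' k hk) (hp'.reach_orb hk hk')
      have := hM' k hk k' hk' hd
      rw [Nat.mul_succ]
      omega)
  rwa [one_smul] at this

theorem FT.lip_orb (hF : FT T G) (hA : Acts T' G) (hK : K.FG) {p : V} {p' : V'}
    (hp : Pres T K p) (hp' : Pres T' K p') : ∃ C, ∀ g ∈ K, ∀ h ∈ K,
      T'.dist (g • p') (h • p') ≤ C * (T.dist (g • p) (h • p) + 1) := by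
  obtain ⟨C, hC⟩ := hF.lip hA hK hp hp'
  refine ⟨C, fun g hg h hh => ?_⟩
  rw [dist_orb hF.acts, dist_orb hA]
  exact hC _ (K.mul_mem (K.inv_mem hg) hh)

/-- Bounded cancellation. -/
theorem FT.bcc (hF : FT T G) (hF' : FT T' G) (hK : K.FG) {p : V} {p' : V'} (hp : Pres T K p)
    (hp' : Pres T' K p') :
    ∃ C, ∀ g ∈ K, ∀ h ∈ K, ∀ k ∈ K, ∀ D y, Btw T (g • p) y (h • p) → T.dist (k • p) y ≤ D →
      ∃ y', Btw T' (g • p') y' (h • p') ∧ T'.dist (k • p') y' ≤ C * (D + 1) := by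
  obtain ⟨C, hC⟩ := orb_induct hF'.toGF hK hp'
  obtain ⟨L, hL⟩ := hF.lip_orb hF'.acts hK hp hp'
  obtain ⟨L', hL'⟩ := hF'.lip_orb hF.acts hK hp' hp
  refine ⟨L * (L' * (C + 1) + 1) + C, fun g hg h hh k hk D y hy hD => ?_⟩
  have fin : ∀ m ∈ K, ∀ m' ∈ K, T'.dist (m • p') (m' • p') ≤ C → Btw T (m • p) y (m' • p) →
      T.dist y (m' • p) ≤ L' * (C + 1) := by
    intro m hm m' hm' hd hb
    have h1 := hb.2.2
    have h2 := (hL' m hm m' hm').trans (Nat.mul_le_mul_left L' (Nat.add_le_add_right hd 1))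
    omega
  obtain ⟨m, hm, y', hy', h1, h2⟩ := hC g hg h hh
    (fun _ m => Btw T (g • p) y (m • p) → ∃ m' ∈ K, ∃ y', Btw T' (g • p') y' (h • p') ∧
      T'.dist y' (m' • p') ≤ C ∧ T.dist y (m' • p) ≤ L' * (C + 1))
    (fun m hm y' b1 b2 b3 hb => ⟨m, hm, y', b1, b2, fin g hg m hm b3 hb⟩)
    (fun _ m hm m' hm' y' b1 b2 b3 ih hb => by
      rcases hb.or hF.acyc (hp.reach_orb hg hm) with e | e
      · exact ih e
      · exact ⟨m', hm', y', b1, b2, fin m hm m' hm' b3 e⟩) hy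
  refine ⟨y', hy', ?_⟩
  have t1 := dist_tri ((hp.reach_orb hk hg).trans hy.1) (hy.2.1.trans (hp.reach_orb hh hm))
  have t2 := dist_tri (hp'.reach_orb hk hm) ((hp'.reach_orb hm hg).trans hy'.1)
  have t3 := (hL k hk m hm).trans (Nat.mul_le_mul_left L
    (show T.dist (k • p) (m • p) + 1 ≤ (L' * (C + 1) + 1) * (D + 1) by nlinarith))
  rw [SimpleGraph.dist_comm] at h1
  nlinarith

end Two

end CPOR
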