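import Pool.Agent.P.MP_2cb329_al.F.T3

/-! Theorem F: minimal subtrees. -/

set_option autoImplicit false

namespace CPOR
open ZT MulAction

variable {V : Type} {T : SimpleGraph V} {G : Type} [Group G] [MulAction G V] {K P Q : Subgroup G}

/-- The bridge between two axes lies on the axis of the product. -/
theorem t3b_cross (hG : GF T G) {g h : G} {a b : ℤ → V} {l m : ℕ} (ha : IsAxis T g a l)
    (hb : IsAxis T h b m) {p q : V} (hp : p ∈ Set.range a) (hq : q ∈ Set.range b) (hne : p ≠ q)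
    (h1 : ∀ x ∈ Set.range a, Btw T x p q) (h2 : ∀ z ∈ Set.range b, Btw T p q z) :
    ∃ (a' : ℤ → V) (l' : ℕ), IsAxis T (h * g) a' l' ∧ a' 0 = p ∧ Btw T p q (a' l') := by
  have hT := hG.acyc
  have hA := hG.acts
  obtain ⟨i, rfl⟩ := hp
  obtain ⟨j, rfl⟩ := hq
  have b1 : Btw T (a i) (b j) (h • b j) := h2 _ ⟨_, (hb.2.2 j).symm⟩
  have b2 : Btw T (b j) (h • b j) (h • a i) := by
    have := hA.btw h (h2 _ ⟨j - m, rfl⟩).symm
    rwa [hb.2.2, sub_add_cancel] at this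
  have b3 : Btw T (h • b j) (h • a i) ((h * g) • a i) := by
    rw [mul_smul]
    exact hA.btw h (h1 _ ⟨_, (ha.2.2 i).symm⟩).symm
  have b4 : Btw T (h • a i) ((h * g) • a i) ((h * g) • b j) := by
    have := hA.btw (h * g) (h1 _ ⟨i - l, rfl⟩)
    rwa [mul_smul h g (a (i - l)), ha.2.2, sub_add_cancel] at this
  have n1 : b j ≠ h • b j := (hb.not_fix hT hA (hb.1.dist hT j 0).1).symm
  have n2 : ∀ k : G, k • a i ≠ k • b j := fun k e => hne (smul_left_cancel k e)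
  have n3 : h • a i ≠ (h * g) • a i := fun e => by
    rw [mul_smul] at e
    exact ha.not_fix hT hA (ha.1.dist hT i 0).1 (smul_left_cancel h e).symm
  obtain ⟨c1, c2⟩ := b1.glue hT b2 n1
  obtain ⟨-, c3⟩ := c2.glue hT b3 (n2 h).symm
  obtain ⟨-, c4⟩ := c3.glue hT b4 n3
  have c5 := (c3.trans_left c1).1
  obtain ⟨c6, -⟩ := c4.glue hT (hA.btw (h * g) c5) (n2 _)
  obtain ⟨a', l', ha', h0⟩ := axis_of_btw hG (g := h * g) (p := a i) (fun e => by
    rw [e] at c5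
    exact hne c5.eq_of_self.symm) c6
  refine ⟨a', l', ha', h0, ?_⟩
  have := ha'.2.2 0
  rw [h0, zero_add] at this
  rwa [← this]

theorem minT_mono (h : P ≤ Q) (c : V) : MinT T P c ⊆ MinT T Q c := by
  rintro p ⟨h1, g, hg, h2⟩
  exact ⟨h1, g, h hg, h2⟩

theorem minT_congr {c c' : V} (h : T.Reachable c c') : MinT T K c = MinT T K c' := by
  ext p
  exact ⟨fun ⟨h1, h2⟩ => ⟨h.symm.trans h1, h2⟩, fun ⟨h1, h2⟩ => ⟨h.trans h1, h2⟩⟩

theorem minT_smul (hA : Acts T G) (g : G) (c x : V) :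
    g • x ∈ MinT T (K.map (MulAut.conj g).toMonoidHom) (g • c) ↔ x ∈ MinT T K c := by
  constructor
  · rintro ⟨h1, _, ⟨k, hk, rfl⟩, a, l, ha, i, hi⟩
    have h2 := hA.reach g⁻¹ h1
    rw [inv_smul_smul, inv_smul_smul] at h2
    have h3 := ha.conj hA g⁻¹
    have e : g⁻¹ * (MulAut.conj g).toMonoidHom k * g⁻¹⁻¹ = k := by
      simp [mul_assoc]
    rw [e] at h3
    exact ⟨h2, k, hk, _, l, h3, i, by simp only [hi, inv_smul_smul]⟩
  · rintro ⟨h1, k, hk, a, l, ha, i, rfl⟩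
    exact ⟨hA.reach g h1, g * k * g⁻¹, ⟨k, hk, rfl⟩, _, l, ha.conj hA g, i, rfl⟩

theorem minT_subset (hG : GF T G) {X : Set V} (hX : KT T K X) {c : V} (hc : ∃ x ∈ X, T.Reachable c x) :
    MinT T K c ⊆ X := by
  rintro p ⟨h1, g, hg, a, l, ha, i, rfl⟩
  obtain ⟨x, hx, hr⟩ := hc
  exact ha.mem_cvx hG.acyc hG.acts hX.cvx (fun y => hX.inv.mem_iff hg y) hx
    ((hr.symm.trans h1).trans (ha.1.dist hG.acyc i 0).1) i

theorem leafless_minT (hG : GF T G) (c : V) : Leafless T (MinT T K c) := by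
  rintro p ⟨h1, g, hg, a, l, ha, i, rfl⟩
  have m : ∀ j, a j ∈ MinT T K c := fun j =>
    ⟨h1.trans (ha.1.dist hG.acyc i j).1, g, hg, a, l, ha, j, rfl⟩
  refine ⟨a (i + 1), m _, a (i - 1), m _, ha.1.1 i, ?_, fun h => ?_⟩
  · have := (ha.1.1 (i - 1)).symm
    rwa [sub_add_cancel] at this
  · have := ha.1.inj hG.acyc h
    omega

theorem FT.kc_minT (hF : FT T G) (hK : K.FG) (hne : K ≠ ⊥) {c : V} (hc : Pres T K c) :
    KC T K (MinT T K c) := by
  have hT := hF.acyc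
  have hX := kc_hull hF.toGF hK hc
  have fin : FinOrb K (MinT T K c) := hX.finV.mono (minT_subset hF.toGF hX.toKT
    ⟨c, subset_hull _ (mem_orb_self c), SimpleGraph.Reachable.refl c⟩)
  refine ⟨⟨?_, ?_, ?_⟩, fin, hF.finOrb_darts fin⟩
  · obtain ⟨⟨g, hg⟩, h1⟩ := Subgroup.ne_bot_iff_exists_ne_one.1 hne
    obtain ⟨a, l, ha, hb⟩ := hF.exists_axis (g := g) (fun h => h1 (Subtype.ext h)) (hc g hg)
    exact ⟨a 0, (hb 0 le_rfl (by omega)).1, g, hg, a, l, ha, 0, rfl⟩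
  · rintro x ⟨hx, g, hg, a, l, ha, hxa⟩ z ⟨hz, h, hh, b, m, hb, hzb⟩
    refine ⟨hx.symm.trans hz, fun y hy => ⟨hx.trans hy.1, ?_⟩⟩
    have cA := ha.1.cvx hT
    have cB := hb.1.cvx hT
    by_cases hd : Disjoint (Set.range a) (Set.range b)
    · obtain ⟨p, hp, q, hq, hne', hb', -⟩ := Cvx.bridge hT cA cB hd hxa hzb (hx.symm.trans hz)
      rcases hy.or hT (cA x hxa p hp).1 with H | H
      · exact ⟨g, hg, a, l, ha, (cA x hxa p hp).2 y H⟩
      rcases H.or hT (hb' x hxa z hzb).2.1.1 with H' | H'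
      · obtain ⟨a', l', ha', h0, h1⟩ := t3b_cross hF.toGF ha hb hp hq hne'
          (fun u hu => (hb' u hu z hzb).1) (fun u hu => (hb' x hxa u hu).2.1)
        refine ⟨h * g, K.mul_mem hh hg, a', l', ha', ?_⟩
        exact (ha'.1.cvx hT p ⟨0, h0⟩ _ ⟨l', rfl⟩).2 y (h1.trans_left H').1
      · exact ⟨h, hh, b, m, hb, (cB q hq z hzb).2 y H'⟩
    · obtain ⟨w, hw1, hw2⟩ := Set.not_disjoint_iff.1 hd
      rcases hy.or hT (cA x hxa w hw1).1 with H | H
      · exact ⟨g, hg, a, l, ha, (cA x hxa w hw1).2 y H⟩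
      · exact ⟨h, hh, b, m, hb, (cB w hw2 z hzb).2 y H⟩
  · rintro k hk x ⟨hx, g, hg, a, l, ha, i, rfl⟩
    exact ⟨(hc k hk).trans (hF.acts.reach k hx), k * g * k⁻¹,
      K.mul_mem (K.mul_mem hk hg) (K.inv_mem hk), _, l, ha.conj hF.acts k, i, rfl⟩

/-- Every dart of the minimal subtree lies on an axis. -/
theorem FT.dart_on_axis (hF : FT T G) {c : V} (hc : Pres T K c) {x y : V}
    (hx : x ∈ MinT T K c) (hy : y ∈ MinT T K c) (hxy : T.Adj x y) :
    ∃ g ∈ K, ∃ (a : ℤ → V) (l : ℕ), IsAxis T g a l ∧ a 0 = x ∧ a 1 = y := by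
  have hT := hF.acyc
  have one : ∀ g ∈ K, ∀ (a : ℤ → V) (l : ℕ), IsAxis T g a l → x ∈ Set.range a → y ∈ Set.range a →
      ∃ g ∈ K, ∃ (a : ℤ → V) (l : ℕ), IsAxis T g a l ∧ a 0 = x ∧ a 1 = y := by
    rintro g hg a l ha ⟨i, rfl⟩ ⟨j, rfl⟩
    have h1 := (ha.1.dist hT i j).2
    rw [SimpleGraph.dist_eq_one_iff_adj.2 hxy] at h1
    rcases (by omega : j = i + 1 ∨ j = i - 1) with rfl | rfl
    · exact ⟨g, hg, _, l, ha.shift i, by simp, by simp [add_comm]⟩
    · exact ⟨g⁻¹, K.inv_mem hg, _, l, ha.inv i, by simp, by simp⟩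
  obtain ⟨-, g, hg, a, l, ha, hxa⟩ := hx
  obtain ⟨-, h, hh, b, m, hb, hyb⟩ := hy
  by_cases h1 : y ∈ Set.range a
  · exact one g hg a l ha hxa h1
  by_cases h2 : x ∈ Set.range b
  · exact one h hh b m hb h2 hyb
  have cA := ha.1.cvx hT
  have cB := hb.1.cvx hT
  obtain ⟨a', l', ha', h0, h3⟩ := t3b_cross hF.toGF ha hb hxa hyb hxy.ne
    (fun u hu => ((adj_btw hT hxy (cA x hxa u hu).1).resolve_left
      fun H => h1 ((cA x hxa u hu).2 y H)).symm)
    (fun u hu => (adj_btw hT hxy.symm (cB y hyb u hu).1).resolve_left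
      fun H => h2 ((cB y hyb u hu).2 x H))
  refine ⟨h * g, K.mul_mem hh hg, a', l', ha', h0, ?_⟩
  rw [← h0] at h3
  obtain ⟨j, hj0, -, rfl⟩ := ha'.1.of_btw hT (by omega) h3
  have h4 := (ha'.1.dist hT 0 j).2
  rw [h0, SimpleGraph.dist_eq_one_iff_adj.2 hxy] at h4
  rw [show j = 1 by omega]

/-- A finitely generated subgroup is not conjugate to a proper subgroup of itself. -/
theorem FT.conj_le_eq (hF : FT T G) (hK : K.FG) {c : V} (hc : Pres T K c) {g : G}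
    (hg : T.Reachable c (g • c)) (h : K.map (MulAut.conj g).toMonoidHom ≤ K) :
    K.map (MulAut.conj g).toMonoidHom = K := by
  refine le_antisymm h ?_
  by_cases hne : K = ⊥
  · rw [hne]; exact bot_le
  have hX := hF.kc_minT hK hne hc
  obtain ⟨x, hx⟩ := hX.ne
  have step : ∀ y ∈ MinT T K c, g • y ∈ MinT T K c := fun y hy => by
    rw [minT_congr hg]
    exact minT_mono h _ ((minT_smul hF.acts g c y).2 hy)
  have pw : ∀ i : ℕ, g ^ i • x ∈ MinT T K c := fun i => by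
    induction i with
    | zero => simpa using hx
    | succ i ih => rw [pow_succ', mul_smul]; exact step _ ih
  obtain ⟨j, hj, -, hm⟩ := hF.pow_mem hX.finV (fun i _ => pw i)
  have cj : ∀ i : ℕ, ∀ k ∈ K, g ^ i * k * (g ^ i)⁻¹ ∈ K := fun i => by
    induction i with
    | zero => simp
    | succ i ih =>
      intro k hk
      have := h ⟨_, ih k hk, rfl⟩
      convert this using 1
      simp [pow_succ', mul_assoc]
  obtain ⟨j, rfl⟩ : ∃ i, j = i + 1 := ⟨j - 1, by omega⟩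
  intro k hk
  refine ⟨_, cj j _ (K.mul_mem (K.mul_mem (K.inv_mem hm) hk) hm), ?_⟩
  simp only [MulEquiv.coe_toMonoidHom, MulAut.conj_apply]
  group

/-- Finitely many conjugacy classes of subgroups with a small cocompact tree. -/
theorem FT.finite_classes (hF : FT T G) {H : Subgroup G} {c : V}
    (hH : FinOrb H {x | T.Reachable c x}) (n : ℕ) (Ks : ℕ → Subgroup G) (X : ℕ → Set V)
    (hX : ∀ i, KC T (Ks i) (X i)) (hXc : ∀ i, ∀ x ∈ X i, T.Reachable c x)
    (hn : ∀ i, nOrb (Ks i) (X i) ≤ n) :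
    ∃ i j, i < j ∧ ∃ g ∈ H, (Ks i).map (MulAut.conj g).toMonoidHom = Ks j := by
  obtain ⟨F, hFf, hcov⟩ := hH
  choose x hx using fun i => (hX i).ne
  choose h hh hxF using fun i => hcov (x i) (hXc i _ (hx i))
  set S : ℕ → Set G := fun i => (MulAut.conj (h i)).toMonoidHom ''
    {k | k ∈ Ks i ∧ T.dist (x i) (k • x i) ≤ 2 * nOrb (Ks i) (X i) + 1} with hS
  have cl : ∀ i, Subgroup.closure (S i) = (Ks i).map (MulAut.conj (h i)).toMonoidHom := fun i => by
    rw [hS, ← MonoidHom.map_closure, hF.closure_small (hX i) (hx i)]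
  have fin : (⋃ y ∈ F, {g : G | T.Reachable y (g • y) ∧ T.dist y (g • y) ≤ 2 * n + 1}).Finite :=
    hFf.biUnion fun y _ => hF.elts_finite y y _
  obtain ⟨i, j, hij, he⟩ := Set.Finite.exists_lt_map_eq_of_forall_mem (f := S)
    (fun i => by
      rintro _ ⟨k, ⟨hk, hd⟩, rfl⟩
      refine Set.mem_biUnion (hxF i) ?_
      have e : (MulAut.conj (h i)).toMonoidHom k • h i • x i = h i • k • x i := by
        simp [mul_smul]
      rw [Set.mem_ofPred_eq, e, hF.acts.dist]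
      exact ⟨hF.acts.reach _ ((hX i).toKT.pres (hx i) k hk), by have := hn i; omega⟩)
    fin.finite_subsets
  refine ⟨i, j, hij, (h j)⁻¹ * h i, H.mul_mem (H.inv_mem (hh j)) (hh i), ?_⟩
  have e := (cl i).symm.trans ((congrArg _ he).trans (cl j))
  ext k
  have := SetLike.ext_iff.1 e (h j * k * (h j)⁻¹)
  simp only [Subgroup.mem_map_equiv, MulAut.conj_symm_apply] at this ⊢
  rw [show (h j)⁻¹ * (h j * k * (h j)⁻¹) * h j = k by group] at this
  rw [← this]
  constructor <;> intro H <;> convert H using 1 <;> group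

end CPOR
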