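import Pool.Agent.P.MP_2cb329_al.F.T3b

/-! Theorem F: first Betti numbers, part 1 (algebra, crossing homomorphisms, restriction). -/

set_option autoImplicit false

namespace CPOR
open ZT MulAction

variable {V : Type} {T : SimpleGraph V} {G : Type} [Group G] [MulAction G V] {K : Subgroup G}

theorem beta_bot : beta (⊥ : Subgroup G) = 0 := by
  exact Module.finrank_zero_of_subsingleton

theorem beta_congr {K K' : Subgroup G} (e : K ≃* K') : beta K = beta K' := by
  let E : (Additive K →+ ℚ) ≃ₗ[ℚ] (Additive K' →+ ℚ) :=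
    { toFun := fun χ => χ.comp (MulEquiv.toAdditive e.symm).toAddMonoidHom
      invFun := fun χ => χ.comp (MulEquiv.toAdditive e).toAddMonoidHom
      map_add' := fun _ _ => rfl
      map_smul' := fun _ _ => rfl
      left_inv := fun χ => by
        ext x
        simp
      right_inv := fun χ => by
        ext x
        simp }
  exact E.finrank_eq

theorem beta_conj (g : G) : beta (K.map (MulAut.conj g).toMonoidHom) = beta K := by
  exact (beta_congr ((MulAut.conj g).subgroupMap K)).symm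

theorem beta_stab_smul {X : Type} [MulAction G X] (g : G) (x : X) :
    beta (stabilizer G (g • x)) = beta (stabilizer G x) := by
  rw [stabilizer_smul_eq_stabilizer_map_conj, beta_conj]

theorem beta_inf_stab_smul {X : Type} [MulAction G X] {k : G} (hk : k ∈ K) (x : X) :
    beta (K ⊓ stabilizer G (k • x)) = beta (K ⊓ stabilizer G x) := by
  rw [← beta_conj (K := K ⊓ stabilizer G x) k]
  congr 1
  ext h
  rw [Subgroup.mem_inf, stab_smul_mem, Subgroup.mem_map]
  constructor
  · rintro ⟨h1, h2⟩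
    exact ⟨k⁻¹ * h * k, ⟨K.mul_mem (K.mul_mem (K.inv_mem hk) h1) hk, h2⟩, by simp [mul_assoc]⟩
  · rintro ⟨a, ⟨h1, h2⟩, rfl⟩
    refine ⟨K.mul_mem (K.mul_mem hk h1) (K.inv_mem hk), ?_⟩
    simpa [mul_assoc] using h2

/-- Evaluation of homomorphisms at a family of elements. -/
def t4_ev {ι : Type} (f : ι → K) : (Additive K →+ ℚ) →ₗ[ℚ] (ι → ℚ) where
  toFun χ i := χ (Additive.ofMul (f i))
  map_add' _ _ := rfl
  map_smul' _ _ := rfl

theorem t4_zero {A : Set G} (hA : K ≤ Subgroup.closure A) (hA' : A ⊆ K) (χ : Additive K →+ ℚ)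
    (h : ∀ g (hg : g ∈ A), χ (Additive.ofMul ⟨g, hA' hg⟩) = 0) : χ = 0 := by
  have hle : Subgroup.closure A ≤ K := (Subgroup.closure_le K).2 hA'
  have key : ∀ g (hg : g ∈ Subgroup.closure A), χ (Additive.ofMul ⟨g, hle hg⟩) = 0 := by
    intro g hg
    induction hg using Subgroup.closure_induction with
    | mem x hx => exact h x hx
    | one => exact map_zero χ
    | mul x y hx hy ihx ihy =>
      have := map_add χ (Additive.ofMul ⟨x, hle hx⟩) (Additive.ofMul ⟨y, hle hy⟩)
      rw [ihx, ihy, add_zero] at this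
      exact this
    | inv x hx ihx =>
      have := map_neg χ (Additive.ofMul ⟨x, hle hx⟩)
      rw [ihx, neg_zero] at this
      exact this
  ext x
  exact key x.1 (hA x.2)

theorem t4_ev_inj {ι : Type} (f : ι → G) (hf : Subgroup.closure (Set.range f) = K) :
    Function.Injective (t4_ev (K := K) fun i => ⟨f i, hf ▸ Subgroup.subset_closure ⟨i, rfl⟩⟩) := by
  rw [injective_iff_map_eq_zero]
  intro χ h
  refine t4_zero hf.ge (hf ▸ Subgroup.subset_closure) χ ?_
  rintro _ ⟨i, rfl⟩
  exact congrFun h i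

theorem finite_hom (hK : K.FG) : Module.Finite ℚ (Additive K →+ ℚ) := by
  obtain ⟨A, hA⟩ := hK
  exact Module.Finite.of_injective _ (t4_ev_inj (fun a : A => (a : G)) (by simpa using hA))

theorem beta_sup_zpowers (hK : K.FG) (g : G) : beta (K ⊔ Subgroup.zpowers g) ≤ beta K + 1 := by
  have := finite_hom hK
  have hg : g ∈ K ⊔ Subgroup.zpowers g := Subgroup.mem_sup_right (Subgroup.mem_zpowers g)
  let E : (Additive (K ⊔ Subgroup.zpowers g : Subgroup G) →+ ℚ) →ₗ[ℚ] (Additive K →+ ℚ) × ℚ :=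
    { toFun := fun χ => (χ.comp (MonoidHom.toAdditive (Subgroup.inclusion le_sup_left)),
        χ (Additive.ofMul ⟨g, hg⟩))
      map_add' := fun _ _ => rfl
      map_smul' := fun _ _ => rfl }
  have hE : Function.Injective E := by
    rw [injective_iff_map_eq_zero]
    intro χ h
    refine t4_zero (A := (K : Set G) ∪ {g}) ?_ ?_ χ ?_
    · rw [Subgroup.closure_union, Subgroup.closure_eq, Subgroup.zpowers_eq_closure]
    · rintro x (hx | rfl)
      · exact Subgroup.mem_sup_left hx
      · exact hg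
    · rintro x (hx | rfl)
      · exact DFunLike.congr_fun (congrArg Prod.fst h) (Additive.ofMul ⟨x, hx⟩)
      · exact congrArg Prod.snd h
  have := LinearMap.finrank_le_finrank_of_injective hE
  rwa [Module.finrank_prod, Module.finrank_self] at this

theorem beta_le_one_of_isCyclic (h : IsCyclic K) : beta K ≤ 1 := by
  obtain ⟨c, rfl⟩ := exists_gen_of_isCyclic h
  have := LinearMap.finrank_le_finrank_of_injective (t4_ev_inj (K := Subgroup.zpowers c)
    (fun _ : Fin 1 => c) (by rw [Set.range_const, Subgroup.zpowers_eq_closure]))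
  simpa [beta] using this

theorem beta_le_of_rkLe {n : ℕ} (h : RkLe K n) : beta K ≤ n := by
  obtain ⟨f, hf⟩ := h
  have := LinearMap.finrank_le_finrank_of_injective (t4_ev_inj f hf)
  simpa [beta] using this

/-- Homomorphisms as functions. -/
def t4_coe (K : Subgroup G) : (Additive K →+ ℚ) →ₗ[ℚ] (K → ℚ) := t4_ev id

theorem t4_coe_inj (K : Subgroup G) : Function.Injective (t4_coe K) := fun _ _ h =>
  AddMonoidHom.ext fun x => congrFun h (Additive.toMul x)

theorem le_beta_of_rkGe (hK : K.FG) {n : ℕ} (h : RkGe K n) : n ≤ beta K := by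
  have := finite_hom hK
  obtain ⟨χ, hχ⟩ := h
  have h1 : LinearIndependent ℚ fun i => MonoidHom.toAdditiveLeft (χ i) :=
    LinearIndependent.of_comp (t4_coe K) hχ
  simpa [beta] using h1.fintype_card_le_finrank

theorem rkGe_beta (hK : K.FG) : RkGe K (beta K) := by
  have := finite_hom hK
  let b := Module.finBasis ℚ (Additive K →+ ℚ)
  exact ⟨fun i => MonoidHom.toAdditiveLeft.symm (b i),
    b.linearIndependent.map' (t4_coe K) (LinearMap.ker_eq_bot.2 (t4_coe_inj K))⟩

/-- Signed number of `K`-translates of the dart `e` on the geodesic from `x` to `y`. -/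
noncomputable def cross (T : SimpleGraph V) (K : Subgroup G) (e : V × V) (x y : V) : ℚ :=
  ({e' | e' ∈ orb K e ∧ Sep T e' x y}.ncard : ℚ) - ({e' | e' ∈ orb K e ∧ Sep T e' y x}.ncard : ℚ)

theorem t4_cnt (hT : T.IsAcyclic) (O : Set (V × V)) {x y z : V} (h : Btw T x y z) :
    {e' | e' ∈ O ∧ Sep T e' x z}.ncard =
      {e' | e' ∈ O ∧ Sep T e' x y}.ncard + {e' | e' ∈ O ∧ Sep T e' y z}.ncard := by
  rw [← Set.ncard_union_eq _ ((sep_finite hT x y).subset fun _ h => h.2)
    ((sep_finite hT y z).subset fun _ h => h.2)]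
  · congr 1
    ext e
    simp only [Set.mem_ofPred_eq, Set.mem_union, sep_iff_of_btw hT h, and_or_left]
  · rw [Set.disjoint_left]
    exact fun e h1 h2 => not_sep_both hT h1.2 h2.2

theorem cross_add (hT : T.IsAcyclic) (e : V × V) {x y z : V} (h1 : T.Reachable x y)
    (h2 : T.Reachable y z) : cross T K e x z = cross T K e x y + cross T K e y z := by
  obtain ⟨m, m1, m2, m3⟩ := exists_median hT h1 h2
  simp only [cross, t4_cnt hT _ m1, t4_cnt hT _ m2, t4_cnt hT _ m3, t4_cnt hT _ m1.symm,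
    t4_cnt hT _ m2.symm, t4_cnt hT _ m3.symm]
  push_cast
  ring

theorem cross_smul (hA : Acts T G) {k : G} (hk : k ∈ K) (e : V × V) (x y : V) :
    cross T K e (k • x) (k • y) = cross T K e x y := by
  have key : ∀ x y, {e' | e' ∈ orb K e ∧ Sep T e' (k • x) (k • y)}.ncard =
      {e' | e' ∈ orb K e ∧ Sep T e' x y}.ncard := by
    intro x y
    rw [← Set.ncard_image_of_injective {e' | e' ∈ orb K e ∧ Sep T e' x y} (MulAction.injective k)]
    congr 1
    ext e'
    constructor
    · rintro ⟨h1, h2⟩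
      refine ⟨k⁻¹ • e', ⟨inv_orb e _ (inv_mem hk) _ h1, ?_⟩, smul_inv_smul k e'⟩
      simpa only [inv_smul_smul] using h2.smul hA k⁻¹
    · rintro ⟨e'', ⟨h1, h2⟩, rfl⟩
      exact ⟨inv_orb e _ hk _ h1, h2.smul hA k⟩
  simp only [cross, key]

theorem cross_self (hT : T.IsAcyclic) (e : V × V) (x : V) : cross T K e x x = 0 := by
  have _ := hT
  exact sub_self _

theorem t4_cnt_adj (hT : T.IsAcyclic) (O : Set (V × V)) {x y : V} (h : T.Adj x y) :
    ((x, y) ∈ O → {e' | e' ∈ O ∧ Sep T e' x y}.ncard = 1) ∧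
      ((x, y) ∉ O → {e' | e' ∈ O ∧ Sep T e' x y}.ncard = 0) := by
  refine ⟨fun H => Set.ncard_eq_one.2 ⟨(x, y), Set.ext fun e => ⟨fun he => he.2.eq_of_adj hT h, ?_⟩⟩,
    fun H => ?_⟩
  · rintro rfl
    exact ⟨H, sep_adj hT h⟩
  · have : {e' | e' ∈ O ∧ Sep T e' x y} = ∅ := Set.eq_empty_iff_forall_notMem.2 fun e he =>
      H (he.2.eq_of_adj hT h ▸ he.1)
    rw [this, Set.ncard_empty]

theorem cross_adj_of_mem (hG : GF T G) {e : V × V} {x y : V} (h : T.Adj x y)
    (he : (x, y) ∈ orb K e) : cross T K e x y = 1 := by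
  have he' : (y, x) ∉ orb K e := by
    rintro ⟨k, -, hk⟩
    obtain ⟨k', -, hk'⟩ := he
    refine hG.ne_swap (k * k'⁻¹) (e := (x, y)) h ?_
    rw [← hk', mul_smul, inv_smul_smul, hk, hk']
    rfl
  simp [cross, (t4_cnt_adj hG.acyc _ h).1 he, (t4_cnt_adj hG.acyc _ h.symm).2 he']

theorem cross_adj_of_not_mem (hG : GF T G) {e : V × V} {x y : V} (h : T.Adj x y)
    (he : (x, y) ∉ orb K e) (he' : (y, x) ∉ orb K e) : cross T K e x y = 0 := by
  simp [cross, (t4_cnt_adj hG.acyc _ h).2 he, (t4_cnt_adj hG.acyc _ h.symm).2 he']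

/-- The homomorphism of an invariant additive function. -/
theorem exists_hom_of_cocycle (hA : Acts T G) {c : V} (hc : Pres T K c) (F : V → V → ℚ)
    (h1 : ∀ x y z, T.Reachable c x → T.Reachable x y → T.Reachable y z → F x z = F x y + F y z)
    (h2 : ∀ k ∈ K, ∀ x y, T.Reachable c x → T.Reachable x y → F (k • x) (k • y) = F x y) :
    ∃ φ : Additive K →+ ℚ, ∀ (g : K) (x : V), T.Reachable c x →
      φ (Additive.ofMul g) = F x ((g : G) • x) := by
  refine ⟨AddMonoidHom.mk' (fun g => F c ((Additive.toMul g : K) • c)) fun g h => ?_,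
    fun g x hx => ?_⟩
  · have a1 := hc _ (Additive.toMul g).2
    have a2 := hc _ (Additive.toMul h).2
    have := h1 _ _ _ (SimpleGraph.Reachable.refl c) a1 (hA.reach (Additive.toMul g : K) a2)
    rw [h2 _ (Additive.toMul g).2 _ _ (SimpleGraph.Reachable.refl c) a2, ← mul_smul] at this
    exact this
  · show F c ((g : G) • c) = _
    have a1 := hc _ g.2
    have a2 := hA.reach (g : G) hx
    have b1 := h1 _ _ _ (SimpleGraph.Reachable.refl c) a1 a2
    have b2 := h1 _ _ _ (SimpleGraph.Reachable.refl c) hx (hx.symm.trans (a1.trans a2))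
    rw [h2 _ g.2 _ _ (SimpleGraph.Reachable.refl c) hx] at b1
    linarith

/-- The crossing homomorphism. -/
theorem exists_cross_hom (hG : GF T G) {c : V} (hc : Pres T K c) (e : V × V) :
    ∃ φ : Additive K →+ ℚ, ∀ (g : K) (x : V), T.Reachable c x →
      φ (Additive.ofMul g) = cross T K e x ((g : G) • x) := by
  exact exists_hom_of_cocycle hG.acts hc _ (fun _ _ _ _ h1 h2 => cross_add hG.acyc e h1 h2)
    fun _ hk x y _ _ => cross_smul hG.acts hk e x y

end CPOR
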