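import Pool.Agent.P.MP_2cb329_al.F.T4

/-! Theorem F: restriction to vertex groups. -/

set_option autoImplicit false

namespace CPOR
open ZT MulAction

variable {V : Type} {T : SimpleGraph V} {G : Type} [Group G] [MulAction G V] {K : Subgroup G}

/-- Induction along a walk. -/
theorem t4_reach_ind {P : V → Prop} {x : V} (h0 : P x)
    (hs : ∀ y z, T.Reachable x y → T.Adj y z → P y → P z) {y : V} (h : T.Reachable x y) : P y := by
  rw [SimpleGraph.reachable_iff_reflTransGen] at h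
  induction h with
  | refl => exact h0
  | tail h1 h2 ih => exact hs _ _ ((SimpleGraph.reachable_iff_reflTransGen _ _).2 h1) h2 ih

/-- An antisymmetric function on darts has a potential. -/
theorem exists_potential (hT : T.IsAcyclic) (ω : V → V → ℚ)
    (hω : ∀ y z, T.Adj y z → ω z y = - ω y z) (c : V) :
    ∃ h : V → ℚ, ∀ y z, T.Reachable c y → T.Adj y z → h z - h y = ω y z := by
  classical
  have key : ∀ y z, T.Adj y z → Btw T c y z →
      ∑ e ∈ (sep_finite hT c z).toFinset, ω e.1 e.2 =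
        ∑ e ∈ (sep_finite hT c y).toFinset, ω e.1 e.2 + ω y z := by
    intro y z ha hb
    have h1 : (sep_finite hT c z).toFinset = insert (y, z) (sep_finite hT c y).toFinset := by
      ext e
      simp only [Set.Finite.mem_toFinset, Set.mem_ofPred_eq, Finset.mem_insert,
        sep_iff_of_btw hT hb]
      constructor
      · rintro (h | h)
        · exact Or.inr h
        · exact Or.inl (h.eq_of_adj hT ha)
      · rintro (rfl | h)
        · exact Or.inr (sep_adj hT ha)
        · exact Or.inl h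
    rw [h1, Finset.sum_insert, add_comm]
    rw [Set.Finite.mem_toFinset]
    exact fun h => not_sep_both hT h (sep_adj hT ha)
  refine ⟨fun y => ∑ e ∈ (sep_finite hT c y).toFinset, ω e.1 e.2, fun y z hy ha => ?_⟩
  rcases adj_btw hT ha hy.symm with H | H
  · have := key z y ha.symm H.symm
    rw [hω y z ha] at this
    linarith
  · have := key y z ha H.symm
    linarith

/-- Homomorphisms on vertex groups in distinct orbits extend simultaneously. -/
theorem exists_extend_hom (hG : GF T G) {c : V} (hc : Pres T K c) (F : Finset V)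
    (hr : ∀ x ∈ F, T.Reachable c x) (hd : ∀ x ∈ F, ∀ y ∈ F, (∃ k ∈ K, k • x = y) → x = y)
    (ψ : ∀ x : V, Additive (K ⊓ stabilizer G x : Subgroup G) →+ ℚ) :
    ∃ φ : Additive K →+ ℚ, ∀ x ∈ F, ∀ (g : G) (hg : g ∈ K ⊓ stabilizer G x),
      φ (Additive.ofMul ⟨g, hg.1⟩) = ψ x (Additive.ofMul ⟨g, hg⟩) := by
  classical
  let Ψ : V → G → ℚ := fun x g =>
    if h : g ∈ K ⊓ stabilizer G x then ψ x (Additive.ofMul ⟨g, h⟩) else 0
  have hΨ : ∀ x, ∀ a ∈ K ⊓ stabilizer G x, ∀ b ∈ K ⊓ stabilizer G x,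
      Ψ x (a * b) = Ψ x a + Ψ x b := by
    intro x a ha b hb
    simp only [Ψ, dif_pos ha, dif_pos hb, dif_pos (mul_mem ha hb)]
    exact map_add (ψ x) (Additive.ofMul ⟨a, ha⟩) (Additive.ofMul ⟨b, hb⟩)
  let O : V → Prop := fun y => ∃ x ∈ F, ∃ k ∈ K, k • x = y
  have hO : ∀ y, ∃ (x : V) (k : G), O y → x ∈ F ∧ k ∈ K ∧ k • x = y := fun y => by
    by_cases h : O y
    · obtain ⟨x, hx, k, hk, e⟩ := h
      exact ⟨x, k, fun _ => ⟨hx, hk, e⟩⟩
    · exact ⟨y, 1, fun H => (h H).elim⟩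
  choose r κ hrκ using hO
  have hOs : ∀ g ∈ K, ∀ y, O (g • y) ↔ O y := fun g hg y =>
    ⟨fun ⟨x, hx, k, hk, e⟩ => ⟨x, hx, g⁻¹ * k, mul_mem (inv_mem hg) hk, by
      rw [mul_smul, e, inv_smul_smul]⟩,
    fun ⟨x, hx, k, hk, e⟩ => ⟨x, hx, g * k, mul_mem hg hk, by rw [mul_smul, e]⟩⟩
  have hrs : ∀ g ∈ K, ∀ y, O y → r (g • y) = r y := fun g hg y hy => by
    obtain ⟨a1, a2, a3⟩ := hrκ y hy
    obtain ⟨b1, b2, b3⟩ := hrκ _ ((hOs g hg y).2 hy)
    refine (hd _ a1 _ b1 ⟨(κ (g • y))⁻¹ * g * κ y, mul_mem (mul_mem (inv_mem b2) hg) a2, ?_⟩).symm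
    rw [mul_smul, mul_smul, a3, inv_smul_eq_iff, b3]
  have hmem : ∀ g ∈ K, ∀ y, O y → (κ (g • y))⁻¹ * g * κ y ∈ K ⊓ stabilizer G (r y) := by
    intro g hg y hy
    obtain ⟨-, a2, a3⟩ := hrκ y hy
    obtain ⟨-, b2, b3⟩ := hrκ _ ((hOs g hg y).2 hy)
    refine Subgroup.mem_inf.2 ⟨mul_mem (mul_mem (inv_mem b2) hg) a2, ?_⟩
    rw [mem_stabilizer_iff, mul_smul, mul_smul, a3, inv_smul_eq_iff, ← hrs g hg y hy, b3]
  let cc : G → V → ℚ := fun g y => if O y then Ψ (r y) ((κ (g • y))⁻¹ * g * κ y) else 0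
  have hcc : ∀ g ∈ K, ∀ h ∈ K, ∀ y, cc (g * h) y = cc g (h • y) + cc h y := by
    intro g hg h hh y
    by_cases hy : O y
    · have hy' := (hOs h hh y).2 hy
      have a1 := hmem g hg _ hy'
      rw [hrs h hh y hy] at a1
      simp only [cc, if_pos hy, if_pos hy', hrs h hh y hy]
      rw [← hΨ _ _ a1 _ (hmem h hh y hy), mul_smul]
      congr 1
      group
    · simp only [cc, if_neg hy, if_neg (fun H => hy ((hOs h hh y).1 H)), add_zero]
  have hccF : ∀ x ∈ F, ∀ g ∈ K ⊓ stabilizer G x, cc g x = Ψ x g := by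
    intro x hx g hg
    have hy : O x := ⟨x, hx, 1, one_mem _, one_smul _ _⟩
    obtain ⟨a1, a2, a3⟩ := hrκ x hy
    have a4 : r x = x := hd _ a1 _ hx ⟨_, a2, a3⟩
    rw [a4] at a3
    have a5 : κ x ∈ K ⊓ stabilizer G x := Subgroup.mem_inf.2 ⟨a2, a3⟩
    have a6 := hΨ x _ a5 _ (mul_mem (mul_mem (inv_mem a5) hg) a5)
    have a7 := hΨ x _ hg _ a5
    rw [show κ x * ((κ x)⁻¹ * g * κ x) = g * κ x by group] at a6
    simp only [cc, if_pos hy, a4, show g • x = x from hg.2]
    linarith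
  let ρ : V × V → V × V := fun e => (Quotient.mk (orbitRel K (V × V)) e).out
  have hρ : ∀ e, ∃ k ∈ K, k • ρ e = e := fun e => by
    have : (orbitRel K (V × V)) (ρ e) e := Quotient.exact (Quotient.out_eq _)
    obtain ⟨k, hk⟩ := (orbitRel K (V × V)).symm this
    exact ⟨k, k.2, hk⟩
  have hρs : ∀ g ∈ K, ∀ e, ρ (g • e) = ρ e := fun g hg e => by
    simp only [ρ]
    congr 1
    exact Quotient.sound ⟨⟨g, hg⟩, rfl⟩
  choose lam hl1 hl2 using hρ
  let Λ : V × V → ℚ := fun e => cc (lam e) (ρ e).1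
  have hΛ : ∀ g ∈ K, ∀ e : V × V, T.Adj e.1 e.2 → Λ (g • e) = cc g e.1 + Λ e := by
    intro g hg e he
    have a1 : lam (g • e) * (lam e)⁻¹ * g⁻¹ = 1 := by
      refine hG.dart_free (e := g • e) (hG.acts g _ _ he) ?_
      rw [mul_smul, inv_smul_smul, mul_smul, inv_smul_eq_iff.2 (hl2 e).symm, ← hρs g hg e, hl2]
    have a2 : lam (g • e) = g * lam e := by
      rw [mul_inv_eq_one, mul_inv_eq_iff_eq_mul] at a1
      exact a1
    have a3 : lam e • (ρ e).1 = e.1 := congrArg Prod.fst (hl2 e)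
    simp only [Λ]
    rw [a2, hρs g hg, hcc g hg _ (hl1 e), a3]
  obtain ⟨h, hh⟩ := exists_potential hG.acyc (fun y z => Λ (z, y) - Λ (y, z))
    (fun y z _ => by ring) c
  have hconst : ∀ g ∈ K, ∀ y, T.Reachable c y →
      cc g y - h (g • y) + h y = cc g c - h (g • c) + h c := by
    intro g hg y hy
    refine t4_reach_ind (P := fun y => cc g y - h (g • y) + h y = cc g c - h (g • c) + h c) rfl
      (fun y z hy ha ih => ?_) hy
    have a1 := hh y z hy ha
    have a2 := hh _ _ ((hc g hg).trans (hG.acts.reach g hy)) (hG.acts g _ _ ha)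
    have a3 : Λ (g • y, g • z) = _ := hΛ g hg (y, z) ha
    have a4 : Λ (g • z, g • y) = _ := hΛ g hg (z, y) ha.symm
    dsimp only at a3 a4
    linarith
  refine ⟨AddMonoidHom.mk' (fun g => cc (Additive.toMul g : K) c - h ((Additive.toMul g : K) • c) +
    h c) fun a b => ?_, fun x hx g hg => ?_⟩
  · have a1 := hcc _ (Additive.toMul a).2 _ (Additive.toMul b).2 c
    have a2 := hconst _ (Additive.toMul a).2 _ (hc _ (Additive.toMul b).2)
    rw [← mul_smul] at a2
    show cc (((Additive.toMul a : K) : G) * (Additive.toMul b : K)) c -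
      h ((((Additive.toMul a : K) : G) * (Additive.toMul b : K)) • c) + h c =
      (cc (Additive.toMul a : K) c - h (((Additive.toMul a : K) : G) • c) + h c) +
      (cc (Additive.toMul b : K) c - h (((Additive.toMul b : K) : G) • c) + h c)
    linarith
  · have a1 := hconst g hg.1 x (hr x hx)
    rw [show g • x = x from hg.2, hccF x hx g hg] at a1
    simp only [Ψ, dif_pos hg] at a1
    show cc g c - h (g • c) + h c = _
    linarith

/-- Restriction to the vertex groups. -/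
def resHom (K : Subgroup G) (F : Finset V) : (Additive K →+ ℚ) →ₗ[ℚ]
    ∀ x : F, (Additive (K ⊓ stabilizer G (x : V) : Subgroup G) →+ ℚ) where
  toFun χ _ := χ.comp (MonoidHom.toAdditive (Subgroup.inclusion inf_le_left))
  map_add' _ _ := rfl
  map_smul' _ _ := rfl

theorem resHom_surj (hG : GF T G) {c : V} (hc : Pres T K c) (F : Finset V)
    (hr : ∀ x ∈ F, T.Reachable c x) (hd : ∀ x ∈ F, ∀ y ∈ F, (∃ k ∈ K, k • x = y) → x = y) :
    Function.Surjective (resHom K F) := by
  classical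
  intro ψ
  obtain ⟨φ, hφ⟩ := exists_extend_hom hG hc F hr hd fun x => if h : x ∈ F then ψ ⟨x, h⟩ else 0
  refine ⟨φ, funext fun x => AddMonoidHom.ext fun g => ?_⟩
  have := hφ x x.2 _ (Additive.toMul g).2
  rw [dif_pos x.2] at this
  exact this

theorem mem_ker_resHom {F : Finset V} {χ : Additive K →+ ℚ} : χ ∈ LinearMap.ker (resHom K F) ↔
    ∀ x ∈ F, ∀ g : K, (g : G) • x = x → χ (Additive.ofMul g) = 0 := by
  rw [LinearMap.mem_ker]
  constructor
  · intro h x hx g hg
    exact DFunLike.congr_fun (congrFun h ⟨x, hx⟩) (Additive.ofMul ⟨g, g.2, hg⟩)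
  · intro h
    exact funext fun x => AddMonoidHom.ext fun g => h x x.2 _ (Additive.toMul g).2.2

theorem beta_eq_sum_add (hG : GF T G) (hK : K.FG) {c : V} (hc : Pres T K c) (F : Finset V)
    (hr : ∀ x ∈ F, T.Reachable c x) (hd : ∀ x ∈ F, ∀ y ∈ F, (∃ k ∈ K, k • x = y) → x = y) :
    beta K = ∑ x ∈ F, beta (K ⊓ stabilizer G x) +
      Module.finrank ℚ (LinearMap.ker (resHom K F)) := by
  have := finite_hom hK
  have : ∀ x : F, Module.Finite ℚ (Additive (K ⊓ stabilizer G (x : V) : Subgroup G) →+ ℚ) :=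
    fun x => finite_hom (fg_inf_stab hG hK (hc.of_reach hG.acts (hr x x.2)))
  have h1 := (resHom K F).finrank_range_add_finrank_ker
  rw [LinearMap.range_eq_top.2 (resHom_surj hG hc F hr hd), finrank_top,
    Module.finrank_pi_fintype] at h1
  rw [← Finset.sum_coe_sort F]
  exact h1.symm

/-- Vertex groups are jointly inert. -/
theorem sum_beta_le (hG : GF T G) (hK : K.FG) {c : V} (hc : Pres T K c) (F : Finset V)
    (hr : ∀ x ∈ F, T.Reachable c x) (hd : ∀ x ∈ F, ∀ y ∈ F, (∃ k ∈ K, k • x = y) → x = y) :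
    ∑ x ∈ F, beta (K ⊓ stabilizer G x) ≤ beta K := by
  rw [beta_eq_sum_add hG hK hc F hr hd]
  exact Nat.le_add_right _ _

/-- Extra homomorphisms that kill a vertex group. -/
theorem beta_add_le (hG : GF T G) (hK : K.FG) {y : V} (hy : Pres T K y) {m : ℕ}
    (φ : Fin m → (Additive K →+ ℚ)) (hφ : LinearIndependent ℚ φ)
    (h0 : ∀ i (g : K), (g : G) • y = y → φ i (Additive.ofMul g) = 0) :
    beta (K ⊓ stabilizer G y) + m ≤ beta K := by
  have := finite_hom hK
  rw [beta_eq_sum_add hG hK hy {y} (fun x hx => by rw [Finset.mem_singleton.1 hx])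
    (fun a ha b hb _ => by rw [Finset.mem_singleton.1 ha, Finset.mem_singleton.1 hb]),
    Finset.sum_singleton]
  have h1 : LinearIndependent ℚ fun i => (⟨φ i, mem_ker_resHom.2 fun x hx g hg =>
      h0 i g (Finset.mem_singleton.1 hx ▸ hg)⟩ : LinearMap.ker (resHom K {y})) :=
    LinearIndependent.of_comp (LinearMap.ker (resHom K {y})).subtype hφ
  have := h1.fintype_card_le_finrank
  rw [Fintype.card_fin] at this
  omega

end CPOR
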