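import Pool.Agent.P.MP_2cb329_al.F.T5

/-! Theorem F: collapses. -/

set_option autoImplicit false

namespace CPOR
open ZT MulAction

variable {V : Type} {T : SimpleGraph V} {G : Type} [Group G] [MulAction G V] {K : Subgroup G}

theorem t6_not_self {p q : V} (h : T.Adj p q) : ¬ Btw T p q p := fun H => h.ne' H.eq_of_self

theorem t6_half (hT : T.IsAcyclic) {p q u u' : V} (hpq : T.Adj p q) (ha : T.Adj u u')
    (h : Btw T p q u) (h' : ¬ Btw T p q u') : u = q ∧ u' = p := by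
  rcases Btw.or hT h (h.reach.trans ha.reachable) with H | H
  · exact (h' H).elim
  · rcases H.eq_of_adj hT ha.symm with rfl | rfl
    · exact (h' (btw_right h.1)).elim
    · by_contra hne
      exact h' (btw_of_adj hT hpq ha fun e => hne ⟨rfl, e.symm⟩)

theorem t6_geod_ind (hT : T.IsAcyclic) {P : V → V → Prop} (h0 : ∀ x, P x x)
    (hs : ∀ x z y, T.Adj x z → Btw T x z y → P z y → P x y) {x y : V} (hr : T.Reachable x y) :
    P x y := by
  generalize hn : T.dist x y = n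
  induction n generalizing x with
  | zero =>
    rw [eq_of_dist_zero hr hn]
    exact h0 y
  | succ n ih =>
    have hne : x ≠ y := by
      rintro rfl
      simp at hn
    have h1 := sep_nxt hT hr hne
    refine hs x _ y h1.1 h1.2.2 (ih h1.2.2.2.1 ?_)
    have := (h1.btw hT).2.2.2
    dsimp only at this ⊢
    omega

namespace IsCol

variable {Kp : Set (V × V)} {V' : Type} [MulAction G V'] {T' : SimpleGraph V'} {π : V → V'}
  (h : IsCol T G Kp T' π) (hG : GF T G) (hK : SymInv G Kp)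
include h hG

theorem t6_side {e : V × V} (he : e ∈ Kp) (ha : T.Adj e.1 e.2) {x y : V} (hxy : π x = π y)
    (hx : Btw T e.1 e.2 x) : Btw T e.1 e.2 y := by
  obtain ⟨h1, h2⟩ := (h.eq_iff y x).1 hxy.symm
  rcases adj_btw hG.acyc ha (hx.reach.trans h1.symm) with H | H
  · exact H
  · exact (h2 e he ⟨ha, H.symm, hx⟩).elim

theorem t6_inj {e e' : V × V} (he : e ∈ Kp) (ha : T.Adj e.1 e.2)
    (ha' : T.Adj e'.1 e'.2) (h1 : π e.1 = π e'.1) (h2 : π e.2 = π e'.2) : e = e' := by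
  obtain ⟨a1, a2⟩ := t6_half hG.acyc ha ha'.symm (h.t6_side hG he ha h2 (btw_right ha.reachable))
    fun H => t6_not_self ha (h.t6_side hG he ha h1.symm H)
  exact Prod.ext a2.symm a1.symm

theorem t6_cut {e : V × V} (he : e ∈ Kp) (ha : T.Adj e.1 e.2) (u v : V') (huv : T'.Adj u v)
    (h1 : (u, v) ≠ (π e.1, π e.2)) (h2 : (u, v) ≠ (π e.2, π e.1)) :
    (∃ y, π y = u ∧ Btw T e.1 e.2 y) ↔ ∃ y, π y = v ∧ Btw T e.1 e.2 y := by
  obtain ⟨d, -, hd, rfl, rfl⟩ := (h.adj_iff u v).1 huv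
  constructor
  · rintro ⟨y, hy, hb⟩
    by_contra H
    obtain ⟨a1, a2⟩ := t6_half hG.acyc ha hd (h.t6_side hG he ha hy hb) fun H' => H ⟨_, rfl, H'⟩
    exact h2 (by rw [a1, a2])
  · rintro ⟨y, hy, hb⟩
    by_contra H
    obtain ⟨a1, a2⟩ := t6_half hG.acyc ha hd.symm (h.t6_side hG he ha hy hb)
      fun H' => H ⟨_, rfl, H'⟩
    exact h1 (by rw [a1, a2])

theorem t6_acyc : T'.IsAcyclic := by
  refine acyclic_of_cut fun x y hxy => ?_
  obtain ⟨e, he, ha, rfl, rfl⟩ := (h.adj_iff x y).1 hxy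
  exact ⟨fun u => ∃ y, π y = u ∧ Btw T e.1 e.2 y, ⟨_, rfl, btw_right ha.reachable⟩,
    fun ⟨y, hy, hb⟩ => t6_not_self ha (h.t6_side hG he ha hy hb), h.t6_cut hG he ha⟩

include hK in
theorem t6_gf : GF T' G where
  acyc := h.t6_acyc hG
  acts := fun g x y hxy => by
    obtain ⟨e, he, ha, rfl, rfl⟩ := (h.adj_iff x y).1 hxy
    exact (h.adj_iff _ _).2 ⟨g • e, hK.smul g e he, hG.acts g _ _ ha, h.smul g _, h.smul g _⟩
  noinv := fun g x y hxy h1 h2 => by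
    obtain ⟨e, he, ha, rfl, rfl⟩ := (h.adj_iff x y).1 hxy
    exact hG.ne_swap g ha (h.t6_inj hG (hK.smul g e he) (hG.acts g _ _ ha) ha.symm
      ((h.smul g _).trans h1) ((h.smul g _).trans h2))
  etriv := fun g x y hxy h1 h2 => by
    obtain ⟨e, he, ha, rfl, rfl⟩ := (h.adj_iff x y).1 hxy
    exact hG.dart_free ha (h.t6_inj hG (hK.smul g e he) (hG.acts g _ _ ha) ha
      ((h.smul g _).trans h1) ((h.smul g _).trans h2))

end IsCol

theorem exists_col (hG : GF T G) {Kp : Set (V × V)} (hK : SymInv G Kp) :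
    ∃ (V' : Type) (_ : MulAction G V') (T' : SimpleGraph V') (π : V → V'),
      IsCol T G Kp T' π ∧ GF T' G := by
  have hT := hG.acyc
  let s : Setoid V := {
    r := fun x y => T.Reachable x y ∧ ∀ e ∈ Kp, ¬ Sep T e x y
    iseqv := {
      refl := fun x => ⟨SimpleGraph.Reachable.refl x, fun e _ => not_sep_self hT e x⟩
      symm := fun h => ⟨h.1.symm, fun e he H => h.2 _ (hK.symm e he) H.swap⟩
      trans := fun h h' => ⟨h.1.trans h'.1, fun e he H =>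
        (H.tri hT h.1).elim (h.2 e he) (h'.2 e he)⟩ } }
  let inst : MulAction G (Quotient s) := {
    smul := fun g => Quotient.map (fun x => g • x) fun x y h => ⟨hG.acts.reach g h.1,
      fun e he H => h.2 _ (hK.smul g⁻¹ e he) (by simpa only [inv_smul_smul] using H.smul hG.acts g⁻¹)⟩
    one_smul := fun x => by
      obtain ⟨y, rfl⟩ := Quotient.exists_rep x
      exact congrArg (Quotient.mk s) (one_smul G y)
    mul_smul := fun g k x => by
      obtain ⟨y, rfl⟩ := Quotient.exists_rep x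
      exact congrArg (Quotient.mk s) (mul_smul g k y) }
  let T' : SimpleGraph (Quotient s) := {
    Adj := fun x y => ∃ e ∈ Kp, T.Adj e.1 e.2 ∧ Quotient.mk s e.1 = x ∧ Quotient.mk s e.2 = y
    symm := ⟨fun _ _ ⟨e, he, ha, h1, h2⟩ => ⟨e.swap, hK.symm e he, ha.symm, h2, h1⟩⟩
    loopless := ⟨fun _ ⟨e, he, ha, h1, h2⟩ =>
      (Quotient.exact (h1.trans h2.symm)).2 e he (sep_adj hT ha)⟩ }
  have h : IsCol T G Kp T' (Quotient.mk s) :=
    ⟨Quotient.mk_surjective, fun _ _ => rfl, fun _ _ => Quotient.eq, fun _ _ => Iff.rfl⟩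
  exact ⟨_, inst, T', _, h, h.t6_gf hG hK⟩

namespace IsCol

variable {Kp : Set (V × V)} {V' : Type} [MulAction G V'] {T' : SimpleGraph V'} {π : V → V'}
  (h : IsCol T G Kp T' π) (hG : GF T G) (hK : SymInv G Kp)
include h hG hK

theorem gf : GF T' G := by
  exact h.t6_gf hG hK

theorem t6_eq {x y : V} (hxy : T.Adj x y) (hn : (x, y) ∉ Kp) : π x = π y := by
  have _ := hK
  exact (h.eq_iff x y).2 ⟨hxy.reachable, fun e he H => hn (H.eq_of_adj hG.acyc hxy ▸ he)⟩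

theorem t6_step {x y : V} (hxy : T.Adj x y) : π x = π y ∨ T'.Adj (π x) (π y) := by
  by_cases hn : (x, y) ∈ Kp
  · exact Or.inr ((h.adj_iff _ _).2 ⟨_, hn, hxy, rfl, rfl⟩)
  · exact Or.inl (h.t6_eq hG hK hxy hn)

theorem reach_iff (x y : V) : T'.Reachable (π x) (π y) ↔ T.Reachable x y := by
  constructor
  · intro H
    have := t4_reach_ind (P := fun w => ∀ z, π z = w → T.Reachable x z)
      (fun z hz => ((h.eq_iff z x).1 hz).1.symm) (fun u v _ huv ih z hz => by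
        obtain ⟨e, -, ha, rfl, rfl⟩ := (h.adj_iff u v).1 huv
        exact ((ih _ rfl).trans ha.reachable).trans ((h.eq_iff _ _).1 hz).1.symm) H
    exact this y rfl
  · intro H
    refine t4_reach_ind (P := fun y => T'.Reachable (π x) (π y)) (SimpleGraph.Reachable.refl _)
      (fun u v _ huv ih => ?_) H
    rcases h.t6_step hG hK huv with e | e
    · exact e ▸ ih
    · exact ih.trans e.reachable

theorem eq_of_adj {x y : V} (hxy : T.Adj x y) (hn : (x, y) ∉ Kp) : π x = π y := by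
  exact h.t6_eq hG hK hxy hn

theorem t6_btw {e : V × V} (he : e ∈ Kp) (ha : T.Adj e.1 e.2) (x : V) :
    Btw T' (π e.1) (π e.2) (π x) ↔ Btw T e.1 e.2 x := by
  have key : T'.Reachable (π e.1) (π x) → (Btw T' (π e.1) (π e.2) (π x) ↔
      ∃ y, π y = π x ∧ Btw T e.1 e.2 y) := fun hr =>
    btw_iff_cut (h.t6_acyc hG) ((h.adj_iff _ _).2 ⟨e, he, ha, rfl, rfl⟩)
      (fun u => ∃ y, π y = u ∧ Btw T e.1 e.2 y) ⟨_, rfl, btw_right ha.reachable⟩
      (fun ⟨y, hy, hb⟩ => t6_not_self ha (h.t6_side hG he ha hy hb)) (h.t6_cut hG he ha) hr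
  constructor
  · intro H
    obtain ⟨y, hy, hb⟩ := (key H.reach).1 H
    exact h.t6_side hG he ha hy hb
  · exact fun H => (key ((h.reach_iff hG hK _ _).2 H.reach)).2 ⟨x, rfl, H⟩

theorem sep_iff {e : V × V} (he : e ∈ Kp) (ha : T.Adj e.1 e.2) (x y : V) :
    Sep T' (π e.1, π e.2) (π x) (π y) ↔ Sep T e x y := by
  have a1 := h.t6_btw hG hK he ha y
  have a2 := h.t6_btw hG hK (hK.symm e he) ha.symm x
  exact ⟨fun H => ⟨ha, (a2.1 H.2.1.symm).symm, a1.1 H.2.2⟩,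
    fun H => ⟨(h.adj_iff _ _).2 ⟨e, he, ha, rfl, rfl⟩, (a2.2 H.2.1.symm).symm, a1.2 H.2.2⟩⟩

theorem dart_inj {e e' : V × V} (he : e ∈ Kp) (ha : T.Adj e.1 e.2) (he' : e' ∈ Kp)
    (ha' : T.Adj e'.1 e'.2) (h1 : π e.1 = π e'.1) (h2 : π e.2 = π e'.2) : e = e' := by
  have _ := hK
  have _ := he'
  exact h.t6_inj hG he ha ha' h1 h2

theorem t6_lift {e' : V' × V'} {x y : V} (H : Sep T' e' (π x) (π y)) :
    ∃ e ∈ Kp, Sep T e x y ∧ π e.1 = e'.1 ∧ π e.2 = e'.2 := by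
  obtain ⟨e, he, ha, h1, h2⟩ := (h.adj_iff _ _).1 H.1
  refine ⟨e, he, (h.sep_iff hG hK he ha x y).1 ?_, h1, h2⟩
  rw [h1, h2]
  exact H

theorem btw {x y z : V} (hb : Btw T x y z) : Btw T' (π x) (π y) (π z) := by
  refine btw_of_sep (h.t6_acyc hG) ((h.reach_iff hG hK _ _).2 hb.1)
    ((h.reach_iff hG hK _ _).2 hb.2.1) fun e' H => ?_
  obtain ⟨e, he, hs, h1, h2⟩ := h.t6_lift hG hK H
  have := (h.sep_iff hG hK he hs.1 x z).2 ((sep_iff_of_btw hG.acyc hb e).2 (Or.inl hs))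
  rwa [h1, h2] at this

theorem btw_lift {x z : V} {w : V'} (hb : Btw T' (π x) w (π z)) : ∃ y, Btw T x y z ∧ π y = w := by
  by_cases hw : w = π z
  · exact ⟨z, btw_right ((h.reach_iff hG hK _ _).1 hb.reach), hw.symm⟩
  · have h1 := sep_nxt (h.t6_acyc hG) hb.2.1 hw
    obtain ⟨e, -, hs, a1, -⟩ :=
      h.t6_lift hG hK ((sep_iff_of_btw (h.t6_acyc hG) hb _).2 (Or.inr h1))
    exact ⟨e.1, (hs.btw hG.acyc).1, a1⟩

theorem cvx_preimage {C : Set V'} (hC : Cvx T' C) : Cvx T (π ⁻¹' C) := by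
  exact fun x hx z hz => ⟨(h.reach_iff hG hK _ _).1 (hC _ hx _ hz).1,
    fun y hy => (hC _ hx _ hz).2 _ (h.btw hG hK hy)⟩

theorem cvx_fibre (w : V') : Cvx T {x | π x = w} := by
  refine h.cvx_preimage hG hK (C := {w}) ?_
  rintro _ rfl _ rfl
  exact ⟨SimpleGraph.Reachable.refl _, fun y hy => hy.eq_of_self⟩

theorem cvx_image {C : Set V} (hC : Cvx T C) : Cvx T' (π '' C) := by
  rintro _ ⟨x, hx, rfl⟩ _ ⟨z, hz, rfl⟩
  refine ⟨(h.reach_iff hG hK _ _).2 (hC x hx z hz).1, fun w hw => ?_⟩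
  obtain ⟨y, hy, rfl⟩ := h.btw_lift hG hK hw
  exact ⟨y, (hC x hx z hz).2 y hy, rfl⟩

theorem dist_le (x y : V) : T'.dist (π x) (π y) ≤ T.dist x y := by
  by_cases hr : T.Reachable x y
  · obtain ⟨a, a0, an, a1, -⟩ := exists_geod hr
    have := (dist_le_of_chain (fun i => π (a i)) _ fun i hi => h.t6_step hG hK (a1 i hi)).2
    simpa only [a0, an] using this
  · rw [SimpleGraph.dist_eq_zero_of_not_reachable fun H => hr ((h.reach_iff hG hK _ _).1 H)]
    exact Nat.zero_le _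

theorem dartsIn_image {X : Set V} (hX : Cvx T X) {e' : V' × V'} (he : e' ∈ DartsIn T' (π '' X)) :
    ∃ e ∈ Kp, e ∈ DartsIn T X ∧ π e.1 = e'.1 ∧ π e.2 = e'.2 := by
  obtain ⟨ha, ⟨x, hx, h1⟩, y, hy, h2⟩ := he
  obtain ⟨e, he, hs, a1, a2⟩ := h.t6_lift hG hK (e' := e') (x := x) (y := y) (by
    rw [h1, h2]
    exact sep_adj (h.t6_acyc hG) ha)
  obtain ⟨b1, b2, -⟩ := hs.btw hG.acyc
  exact ⟨e, he, ⟨hs.1, (hX x hx y hy).2 _ b1, (hX x hx y hy).2 _ b2⟩, a1, a2⟩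

theorem kt_image {X : Set V} (hX : KT T K X) : KT T' K (π '' X) := by
  refine ⟨hX.ne.image π, h.cvx_image hG hK hX.cvx, ?_⟩
  rintro k hk _ ⟨x, hx, rfl⟩
  exact ⟨k • x, hX.inv k hk x hx, h.smul k x⟩

omit hG hK in
theorem t6_map_smul (k : G) (e : V × V) : Prod.map π π (k • e) = k • Prod.map π π e :=
  Prod.ext (h.smul k e.1) (h.smul k e.2)

theorem kc_image {X : Set V} (hX : KC T K X) : KC T' K (π '' X) := by
  refine ⟨h.kt_image hG hK hX.toKT, hX.finV.image π fun k _ x _ _ => h.smul k x,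
    (hX.finE.image (Prod.map π π) fun k _ e _ _ => h.t6_map_smul k e).mono fun e' he' => ?_⟩
  obtain ⟨e, -, he, a1, a2⟩ := h.dartsIn_image hG hK hX.cvx he'
  exact ⟨e, he, Prod.ext a1 a2⟩

theorem nOrb_darts {X : Set V} (hX : KC T K X) :
    nOrb K (DartsIn T' (π '' X)) = nOrb K (Kp ∩ DartsIn T X) := by
  refine le_antisymm (nOrb_le_of_surj (hX.finE.mono Set.inter_subset_right) (Prod.map π π)
    (fun e _ e' _ ⟨k, hk, H⟩ => ⟨k, hk, by rw [← h.t6_map_smul, H]⟩) fun e' he' => ?_).2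
    (nOrb_le_of_inj (h.kc_image hG hK hX).finE (Prod.map π π) (fun e he => ?_)
      fun e he e' he' ⟨k, hk, H⟩ => ⟨k, hk, ?_⟩).2
  · obtain ⟨e, he, he2, a1, a2⟩ := h.dartsIn_image hG hK hX.cvx he'
    exact ⟨e, ⟨he, he2⟩, 1, one_mem _, (one_smul _ _).trans (Prod.ext a1 a2)⟩
  · exact ⟨(h.adj_iff _ _).2 ⟨e, he.1, he.2.1, rfl, rfl⟩, ⟨_, he.2.2.1, rfl⟩, _, he.2.2.2, rfl⟩
  · rw [← h.t6_map_smul] at H
    exact h.t6_inj hG (hK.smul k e he.1) (hG.acts k _ _ he.2.1) he'.2.1 (congrArg Prod.fst H)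
      (congrArg Prod.snd H)

open Classical in
theorem len_eq (l : V' × V' → ℝ) (x y : V) :
    len T' l (π x) (π y) = len T (fun e => if e ∈ Kp then l (π e.1, π e.2) else 0) x y := by
  have h1 : {e' | Sep T' e' (π x) (π y)} = Prod.map π π '' ({e | Sep T e x y} ∩ Kp) := by
    ext e'
    constructor
    · intro H
      obtain ⟨e, he, hs, a1, a2⟩ := h.t6_lift hG hK H
      exact ⟨e, ⟨hs, he⟩, Prod.ext a1 a2⟩
    · rintro ⟨e, ⟨hs, he⟩, rfl⟩
      exact (h.sep_iff hG hK he hs.1 x y).2 hs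
  unfold len
  rw [h1, finsum_mem_image fun e he e' he' H =>
    h.t6_inj hG he.2 he.1.1 he'.1.1 (congrArg Prod.fst H) (congrArg Prod.snd H),
    finsum_mem_def, finsum_mem_def]
  congr 1
  ext e
  by_cases a1 : Sep T e x y <;> by_cases a2 : e ∈ Kp <;> simp [Set.indicator, a1, a2, Prod.map]

theorem t6_all {X : Set V} (hX : KC T K X) (hl : Leafless T X) {C : Set V'} (hC : Cvx T' C)
    (hi : Inv K C) {x : V} (hx : x ∈ X) (hxC : π x ∈ C) : ∀ y ∈ X, π y ∈ C := by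
  have := hX.eq_of_leafless hG hl (Y := X ∩ π ⁻¹' C) ⟨⟨x, hx, hxC⟩,
    Cvx.inter hX.cvx (h.cvx_preimage hG hK hC), fun k hk y hy =>
      ⟨hX.inv k hk y hy.1, show π (k • y) ∈ C from h.smul k y ▸ hi k hk _ hy.2⟩⟩
    Set.inter_subset_left
  exact fun y hy => (this.symm ▸ hy : y ∈ X ∩ π ⁻¹' C).2

/-- The collapse of a leafless cocompact tree is a point or leafless without fixed vertex. -/
theorem leafless_image {X : Set V} (hX : KC T K X) (hl : Leafless T X)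
    (hne : (Kp ∩ DartsIn T X).Nonempty) :
    Leafless T' (π '' X) ∧ ∀ x ∈ X, ¬ K ≤ stabilizer G (π x) := by
  have hT := h.t6_acyc hG
  have hG' := h.t6_gf hG hK
  have hX' := h.kt_image hG hK hX.toKT
  obtain ⟨e, he, ha, e1, e2⟩ := hne
  have ha' : T'.Adj (π e.1) (π e.2) := (h.adj_iff _ _).2 ⟨e, he, ha, rfl, rfl⟩
  constructor
  · intro w hw
    by_contra H
    push Not at H
    have hw0 : ∃ w' ∈ π '' X, T'.Adj w w' := by
      by_cases h1 : w = π e.1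
      · exact ⟨_, ⟨_, e2, rfl⟩, h1 ▸ ha'⟩
      · have := sep_nxt hT (hX'.cvx w hw _ ⟨_, e1, rfl⟩).1 h1
        exact ⟨_, (hX'.cvx w hw _ ⟨_, e1, rfl⟩).2 _ this.2.2, this.1⟩
    obtain ⟨w', hw', hww⟩ := hw0
    have hu : ∀ k ∈ K, ∀ u ∈ π '' X, T'.Adj (k • w) u → u = k • w' := fun k hk u hu hadj => by
      have := H _ (hX'.inv _ (inv_mem hk) u hu) w' hw'
        (by simpa only [inv_smul_smul] using hG'.acts k⁻¹ _ _ hadj) hww
      rw [← this, smul_inv_smul]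
    obtain ⟨x, hx, rfl⟩ := hw
    obtain ⟨x', hx', rfl⟩ := hw'
    refine (h.t6_all hG hK hX hl (C := {u | u ∈ π '' X ∧ u ∉ orb K (π x)}) ?_ ?_ hx'
      ⟨⟨_, hx', rfl⟩, ?_⟩ x hx).2 (mem_orb_self _)
    · intro p hp q hq
      refine ⟨(hX'.cvx p hp.1 q hq.1).1, fun y hy => ⟨(hX'.cvx p hp.1 q hq.1).2 y hy, ?_⟩⟩
      rintro ⟨k, hk, rfl⟩
      have n1 : p ≠ k • π x := fun e => hp.2 ⟨k, hk, e.symm⟩
      have n2 : q ≠ k • π x := fun e => hq.2 ⟨k, hk, e.symm⟩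
      have hy' := (hX'.cvx p hp.1 q hq.1).2 _ hy
      have b1 := sep_nxt hT hy.1.symm n1.symm
      have b2 := sep_nxt hT hy.2.1 n2.symm
      exact nxt_ne_of_btw hT hy n1 n2
        ((hu k hk _ ((hX'.cvx _ hy' _ hp.1).2 _ b1.2.2) b1.1).trans
          (hu k hk _ ((hX'.cvx _ hy' _ hq.1).2 _ b2.2.2) b2.1).symm)
    · exact fun k hk u hu => ⟨hX'.inv k hk u hu.1, fun H => hu.2 (((inv_orb _).mem_iff hk u).1 H)⟩
    · rintro ⟨k, hk, e⟩
      exact hG'.noinv k _ _ hww e (hu k hk _ ⟨x, hx, rfl⟩ (e ▸ hww.symm)).symm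
  · intro x hx H
    have := h.t6_all hG hK hX hl (C := {π x}) (by
      rintro _ rfl _ rfl
      exact ⟨SimpleGraph.Reachable.refl _, fun y hy => hy.eq_of_self⟩) (by
      rintro k hk _ rfl
      exact H hk) hx rfl
    exact ha'.ne ((this _ e1).trans (this _ e2).symm)

/-- The stabiliser of a class acts cocompactly on its part of `X`. -/
theorem kc_fibre {X : Set V} (hX : KC T K X) {x : V} (hx : x ∈ X) :
    KC T (K ⊓ stabilizer G (π x)) {y | y ∈ X ∧ π y = π x} := by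
  refine ⟨⟨⟨x, hx, rfl⟩, Cvx.inter hX.cvx (h.cvx_fibre hG hK (π x)), fun k hk y hy =>
    ⟨hX.inv k hk.1 y hy.1, by rw [h.smul, hy.2]; exact hk.2⟩⟩,
    hX.finV.fibre hX.inv π (fun k _ y _ => h.smul k y) _,
    (hX.finE.fibre (inv_dartsIn hG.acts hX.inv) (fun e => π e.1) (fun k _ e _ => h.smul k e.1)
      (π x)).mono fun e he => ⟨⟨he.1, he.2.1.1, he.2.2.1⟩, he.2.1.2⟩⟩

end IsCol

end CPOR
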