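import Pool.Agent.P.MP_2cb329_al.F.Api

/-! Theorem F: the system of non-cyclic windows, existence and basic properties. -/

set_option autoImplicit false

namespace CPOR
open ZT MulAction

variable {G : Type} [Group G] {N N' : Type} [MulAction G N] [MulAction G N']

namespace W1P

theorem stab_prod {X Y : Type} [MulAction G X] [MulAction G Y] (x : X) (y : Y) :
    stabilizer G (x, y) = stabilizer G x ⊓ stabilizer G y := by
  ext g
  simp [mem_stabilizer_iff, Prod.ext_iff]

theorem nc_smul {X Y : Type} [MulAction G X] [MulAction G Y] {x : X} {y : Y}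
    (h : ¬ IsCyclic (stabilizer G x ⊓ stabilizer G y : Subgroup G)) (g : G) :
    ¬ IsCyclic (stabilizer G (g • x) ⊓ stabilizer G (g • y) : Subgroup G) := by
  rw [← stab_prod] at h ⊢
  rw [← Prod.smul_mk, stabilizer_smul_eq_stabilizer_map_conj, isCyclic_conj]
  exact h

theorem ne_bot {K : Subgroup G} (h : ¬ IsCyclic K) : K ≠ ⊥ := by
  rintro rfl
  exact h inferInstance

/-- Normalised windows. -/
def nrm {X : Type} (m : ℕ) (a : ℤ → X) : ℤ → X := fun l => if 0 ≤ l ∧ l < m then a l else a 0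

theorem nrm_eq {X : Type} {m : ℕ} (a : ℤ → X) {l : ℤ} (h1 : 0 ≤ l) (h2 : l < m) :
    nrm m a l = a l := if_pos ⟨h1, h2⟩

/-- The non-cyclic windows of length `m`. -/
def Win (S : Sys G N) (m : ℕ) : SubMulAction G (ℤ → S.A) where
  carrier := {a | (∀ l : ℤ, ¬ (0 ≤ l ∧ l < m) → a l = a 0) ∧ S.IsPath a 0 m ∧
    ¬ IsCyclic (S.Fix a 0 m)}
  smul_mem' := by
    rintro g a ⟨h1, h2, h3⟩
    refine ⟨fun l hl => by simp only [Pi.smul_apply, h1 l hl], fun l k1 k2 => ?_, ?_⟩
    · simp only [Pi.smul_apply, S.src_smul, S.tgt_smul, h2 l k1 k2]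
    · have := Sys.fix_smul (a := a) (a' := g • a) (i := 0) (j := m) (c := 0) (g := g)
        (fun l _ _ => by simp)
      rw [add_zero, add_zero] at this
      rw [← this, isCyclic_conj]
      exact h3

variable {S : Sys G N} {m : ℕ}

theorem win_ext (hm : 1 ≤ m) {x y : Win S m}
    (h : ∀ l : ℤ, 0 ≤ l → l < m → (x : ℤ → S.A) l = (y : ℤ → S.A) l) : x = y := by
  refine Subtype.ext (funext fun l => ?_)
  by_cases hl : 0 ≤ l ∧ l < m
  · exact h l hl.1 hl.2
  · rw [x.2.1 l hl, y.2.1 l hl]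
    exact h 0 le_rfl (by omega)

theorem win_stab (hm : 1 ≤ m) (x : Win S m) : stabilizer G x = S.Fix (x : ℤ → S.A) 0 m := by
  ext g
  rw [mem_stabilizer_iff, Sys.mem_fix]
  refine ⟨fun h l _ _ => ?_, fun h => win_ext hm h⟩
  exact congrFun (congrArg Subtype.val h) l

theorem exists_nrm (hm : 1 ≤ m) (a : ℤ → S.A) (h1 : S.IsPath a 0 m)
    (h2 : ¬ IsCyclic (S.Fix a 0 m)) :
    ∃ x : Win S m, ∀ l : ℤ, 0 ≤ l → l < m → (x : ℤ → S.A) l = a l := by
  refine ⟨⟨nrm m a, fun l hl => ?_, fun l k1 k2 => ?_, ?_⟩, fun l k1 k2 => nrm_eq a k1 k2⟩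
  · rw [nrm_eq a le_rfl (by omega)]
    exact if_neg hl
  · rw [nrm_eq a k1 (by omega), nrm_eq a (by omega) k2]
    exact h1 l k1 k2
  · have := Sys.fix_congr (a := nrm m a) (a' := a) (i := 0) (j := m) (c := 0)
      (fun l k1 k2 => by rw [add_zero, nrm_eq a k1 k2])
    rw [add_zero, add_zero] at this
    rwa [this]

end W1P

open W1P in
theorem exists_win (S : Sys G N) {m : ℕ} (hm : 1 ≤ m) :
    ∃ (N' : Type) (_ : MulAction G N') (S' : Sys G N') (O : Over S' S) (w : N' → ℤ → S.A),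
      O.IsWin m w := by
  classical
  let ν : Win S m → N := fun x => S.tgt ((x : ℤ → S.A) (m - 1))
  let R : S.A → Win S m → Win S m → Prop := fun a x y =>
    S.src a = ν x ∧ (y : ℤ → S.A) (m - 1) = a ∧
      (∀ l : ℤ, 0 ≤ l → l + 1 < m → (y : ℤ → S.A) l = (x : ℤ → S.A) (l + 1)) ∧
      ¬ IsCyclic (stabilizer G x ⊓ stabilizer G a : Subgroup G)
  have hν : ∀ (g : G) x, ν (g • x) = g • ν x := fun g x => S.tgt_smul g _
  have hfin : FinOrb (⊤ : Subgroup G) (Set.univ : Set (Win S m)) := by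
    obtain ⟨F, -, hF⟩ := S.fin_win m
    refine ⟨⋃ b ∈ F, {x : Win S m | ∀ l : ℤ, 0 ≤ l → l < m → (x : ℤ → S.A) l = b l},
      F.finite_toSet.biUnion fun b _ => Set.Subsingleton.finite fun x hx y hy =>
        win_ext hm fun l h1 h2 => (hx l h1 h2).trans (hy l h1 h2).symm, fun x _ => ?_⟩
    obtain ⟨g, b, hb, h⟩ := hF x 0 hm (by simpa using x.2.2.1) (by simpa using ne_bot x.2.2.2)
    refine ⟨g⁻¹, trivial, Set.mem_biUnion hb fun l h1 h2 => ?_⟩
    have := h l h1 h2
    rw [zero_add] at this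
    show g⁻¹ • (x : ℤ → S.A) l = _
    rw [this, inv_smul_smul]
  have hfg : ∀ x : Win S m, (stabilizer G x).FG := fun x => by
    rw [win_stab hm]
    exact Sys.fix_fg (by omega) x.2.2.1
  have hR : ∀ (g : G) a x y, R a x y → R (g • a) (g • x) (g • y) := by
    rintro g a x y ⟨h1, h2, h3, h4⟩
    refine ⟨by rw [S.src_smul, hν, h1], ?_, fun l k1 k2 => ?_, nc_smul h4 g⟩
    · show g • (y : ℤ → S.A) (m - 1) = _
      rw [h2]
    · show g • (y : ℤ → S.A) l = g • (x : ℤ → S.A) (l + 1)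
      rw [h3 l k1 k2]
  have hRfin : FinOrb (⊤ : Subgroup G) {τ : S.A × Win S m × Win S m | R τ.1 τ.2.1 τ.2.2} := by
    obtain ⟨F, -, hF⟩ := S.fin_win (m + 1)
    refine ⟨⋃ b ∈ F, {τ : S.A × Win S m × Win S m | τ.1 = b m ∧
        (∀ l : ℤ, 0 ≤ l → l < m → (τ.2.1 : ℤ → S.A) l = b l) ∧
        ∀ l : ℤ, 0 ≤ l → l < m → (τ.2.2 : ℤ → S.A) l = b (l + 1)},
      F.finite_toSet.biUnion fun b _ => Set.Subsingleton.finite fun x hx y hy =>
        Prod.ext (hx.1.trans hy.1.symm) (Prod.ext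
          (win_ext hm fun l h1 h2 => (hx.2.1 l h1 h2).trans (hy.2.1 l h1 h2).symm)
          (win_ext hm fun l h1 h2 => (hx.2.2 l h1 h2).trans (hy.2.2 l h1 h2).symm)), ?_⟩
    rintro ⟨a, x, y⟩ ⟨h1, h2, h3, h4⟩
    let c : ℤ → S.A := fun l => if l < m then (x : ℤ → S.A) l else a
    have c1 : ∀ l : ℤ, l < m → c l = (x : ℤ → S.A) l := fun l hl => if_pos hl
    have c2 : c m = a := if_neg (lt_irrefl _)
    obtain ⟨g, b, hb, h⟩ := hF c 0 (by omega)
      (fun l k1 k2 => by
        push_cast at k2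
        rw [c1 l (by omega)]
        by_cases k3 : l + 1 < m
        · rw [c1 _ k3]; exact x.2.2.1 l k1 k3
        · have e : l + 1 = m := by omega
          rw [e, c2, show l = m - 1 by omega]
          exact h1.symm)
      (fun H => ne_bot h4 (le_bot_iff.1 (H ▸ fun g hg => by
        rw [Sys.mem_fix]
        intro l k1 k2
        push_cast at k2
        by_cases k3 : l < m
        · rw [c1 l k3]
          have := hg.1
          rw [win_stab hm] at this
          exact Sys.mem_fix.1 this l k1 k3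
        · rw [show l = m by omega, c2]
          exact hg.2)))
    have h' : ∀ l : ℤ, 0 ≤ l → l ≤ m → g⁻¹ • c l = b l := fun l k1 k2 => by
      have := h l k1 (by push_cast; omega)
      rw [zero_add] at this
      rw [this, inv_smul_smul]
    refine ⟨g⁻¹, trivial, Set.mem_biUnion hb ⟨?_, fun l k1 k2 => ?_, fun l k1 k2 => ?_⟩⟩
    · rw [← h' m (by omega) le_rfl, c2]; rfl
    · rw [← h' l k1 k2.le, c1 l k2]; rfl
    · rw [← h' (l + 1) (by omega) (by omega)]
      show g⁻¹ • (y : ℤ → S.A) l = _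
      congr 1
      by_cases k3 : l + 1 < m
      · rw [c1 _ k3]; exact h3 l k1 k3
      · have e : l + 1 = m := by omega
        rw [e, c2, show l = m - 1 by omega]
        exact h2
  obtain ⟨S', O, hO, hD⟩ := exists_der S ν hν hfin hfg R hR (fun a x y h => h.1.symm)
    (fun a x y h => by show S.tgt _ = _; rw [h.2.1]) hRfin
  refine ⟨Win S m, inferInstance, S', O, fun x => (x : ℤ → S.A), hm, fun _ _ _ _ _ => rfl,
    fun x y h => win_ext hm h, fun x => x.2.2.1, fun x => x.2.2.2, fun a i h1 h2 => ?_,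
    fun x => by rw [hO], fun b => (hD.mem b).2.2.1, fun b => (hD.mem b).2.1, fun b hb => ?_,
    fun x a h1 h2 => ?_⟩
  · refine exists_nrm hm (fun l => a (i + l)) (fun l k1 k2 => ?_) ?_
    · have := h1 (i + l) (by omega) (by omega)
      rwa [add_assoc] at this
    · have := Sys.fix_congr (a := fun l => a (i + l)) (a' := a) (i := 0) (j := m) (c := i)
        (fun l _ _ => by rw [add_comm])
      rw [zero_add, add_comm (m : ℤ) i] at this
      rwa [this]
  · obtain ⟨h1, h2, h3, h4⟩ := hD.mem b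
    refine h4 (isCyclic_of_le hb fun g hg => ?_)
    rw [O.stab_eq]
    refine ⟨⟨hg.2, hg.1⟩, ?_⟩
    have k := hg.1
    rw [win_stab hm] at k
    show g ∈ stabilizer G (S'.tgt b)
    rw [win_stab hm, Sys.mem_fix]
    intro l k1 k2
    by_cases k3 : l + 1 < m
    · rw [h3 l k1 k3]
      exact Sys.mem_fix.1 k _ (by omega) k3
    · rw [show l = m - 1 by omega, h2]
      exact hg.2
  · let c : ℤ → S.A := fun l => if l + 1 < m then (x : ℤ → S.A) (l + 1) else a
    have c1 : ∀ l : ℤ, l + 1 < m → c l = (x : ℤ → S.A) (l + 1) := fun l hl => if_pos hl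
    have c2 : c (m - 1) = a := if_neg (by omega)
    rw [hO] at h1
    obtain ⟨y, hy⟩ := exists_nrm hm c
      (fun l k1 k2 => by
        rw [c1 l k2]
        by_cases k3 : l + 1 + 1 < m
        · rw [c1 _ k3]; exact x.2.2.1 (l + 1) (by omega) k3
        · rw [show l + 1 = m - 1 by omega, c2]
          exact h1.symm)
      (fun H => h2 (isCyclic_of_le H fun g hg => by
        rw [Sys.mem_fix]
        intro l k1 k2
        by_cases k3 : l + 1 < m
        · rw [c1 l k3]
          have := hg.1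
          rw [win_stab hm] at this
          exact Sys.mem_fix.1 this _ (by omega) k3
        · rw [show l = m - 1 by omega, c2]
          exact hg.2))
    obtain ⟨b, k1, k2, -⟩ := hD.surj a x y ⟨h1, by rw [hy _ (by omega) (by omega), c2],
      fun l k1 k2 => by rw [hy l k1 (by omega), c1 l k2], h2⟩
    exact ⟨b, k2, k1⟩

namespace Over.IsWin

variable {S' : Sys G N'} {S : Sys G N} {O : Over S' S} {m : ℕ} {w : N' → ℤ → S.A}
  (h : O.IsWin m w)
include h

theorem stab (ω : N') : stabilizer G ω = S.Fix (w ω) 0 m := by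
  ext g
  rw [mem_stabilizer_iff, Sys.mem_fix]
  refine ⟨fun H l h1 h2 => by rw [← h.smul g ω l h1 h2, H], fun H => h.inj _ _ fun l h1 h2 => ?_⟩
  rw [h.smul g ω l h1 h2, H l h1 h2]

theorem fix_w {g : G} {ω : N'} (hg : g • ω = ω) {l : ℤ} (h1 : 0 ≤ l) (h2 : l < m) :
    g • w ω l = w ω l := by
  rw [← h.smul g ω l h1 h2, hg]

theorem w_tgt {b : S'.A} {a : ℤ → S.A} {l : ℤ} (hA : O.A b = a (l + m))
    (hs : ∀ r : ℤ, 0 ≤ r → r < m → w (S'.src b) r = a (l + r)) (r : ℤ) (h1 : 0 ≤ r) (h2 : r < m) :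
    w (S'.tgt b) r = a (l + 1 + r) := by
  by_cases k : r + 1 < m
  · rw [h.shift b r h1 k, hs _ (by omega) k]
    congr 1; ring
  · rw [show r = m - 1 by omega, h.last, hA]
    congr 1; ring

theorem detOut : O.DetOut := by
  intro b b' h1 h2
  refine O.det b b' h1 h2 (h.inj _ _ fun l k1 k2 => ?_)
  by_cases k : l + 1 < m
  · rw [h.shift b l k1 k, h.shift b' l k1 k, h2]
  · rw [show l = m - 1 by omega, h.last, h.last, h1]

/-- An arrow is determined by its target and the first arrow of its source. -/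
theorem det_first {b b' : S'.A} (ht : S'.tgt b = S'.tgt b')
    (h0 : w (S'.src b) 0 = w (S'.src b') 0) : b = b' := by
  refine O.det b b' (by rw [← h.last, ← h.last, ht]) (h.inj _ _ fun l k1 k2 => ?_) ht
  rcases k1.eq_or_lt with rfl | k
  · exact h0
  · have e1 := h.shift b (l - 1) (by omega) (by omega)
    have e2 := h.shift b' (l - 1) (by omega) (by omega)
    rw [sub_add_cancel] at e1 e2
    rw [← e1, ← e2, ht]

theorem tgt_first (b : S'.A) : S.tgt (w (S'.src b) 0) = S.src (w (S'.tgt b) 0) := by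
  have hm := h.pos
  by_cases k : (0 : ℤ) + 1 < m
  · rw [h.shift b 0 le_rfl k]
    exact h.path _ 0 le_rfl k
  · have e : (0 : ℤ) = m - 1 := by omega
    rw [e, h.last, O.src_A, h.ν_eq]

theorem stab_first (b : S'.A) :
    stabilizer G b = stabilizer G (S'.tgt b) ⊓ stabilizer G (w (S'.src b) 0) := by
  have hm := h.pos
  ext g
  simp only [Subgroup.mem_inf, mem_stabilizer_iff]
  refine ⟨fun H => ⟨by rw [← S'.tgt_smul, H], h.fix_w (by rw [← S'.src_smul, H]) le_rfl (by omega)⟩,
    fun H => h.det_first (by rw [S'.tgt_smul, H.1]) ?_⟩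
  rw [S'.src_smul, h.smul g _ 0 le_rfl (by omega), H.2]

/-- An arrow with a given target and first arrow. -/
theorem surjB (ω : N') (a : S.A) (ha : S.tgt a = S.src (w ω 0))
    (hnc : ¬ IsCyclic (stabilizer G ω ⊓ stabilizer G a : Subgroup G)) :
    ∃ b, S'.tgt b = ω ∧ w (S'.src b) 0 = a := by
  classical
  have hm := h.pos
  let c : ℤ → S.A := fun l => if l = 0 then a else w ω (l - 1)
  have c0 : c 0 = a := if_pos rfl
  have c1 : ∀ l : ℤ, 0 ≤ l → c (l + 1) = w ω l := fun l hl => by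
    show (if l + 1 = 0 then a else w ω (l + 1 - 1)) = _
    rw [if_neg (by omega), add_sub_cancel_right]
  have hp : S.IsPath c 0 (m + 1) := fun l k1 k2 => by
    rw [c1 l k1]
    rcases k1.eq_or_lt with rfl | k
    · rw [c0, ha]
    · have := h.path ω (l - 1) (by omega) (by omega)
      rw [← c1 (l - 1) (by omega), sub_add_cancel] at this
      exact this
  have hf : ∀ g ∈ stabilizer G ω ⊓ stabilizer G a, ∀ l : ℤ, 0 ≤ l → l ≤ m → g • c l = c l := by
    intro g hg l k1 k2
    rcases k1.eq_or_lt with rfl | k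
    · rw [c0]; exact hg.2
    · have := c1 (l - 1) (by omega)
      rw [sub_add_cancel] at this
      rw [this]
      exact h.fix_w hg.1 (by omega) (by omega)
  obtain ⟨ω₁, h1⟩ := h.surj c 0 (hp.mono le_rfl (by omega))
    (fun H => hnc (isCyclic_of_le H fun g hg =>
      Sys.mem_fix.2 fun l k1 k2 => hf g hg l k1 (by omega)))
  obtain ⟨b, hb1, hb2⟩ := h.surjA ω₁ (c m)
    (by
      rw [h.ν_eq, h1 _ (by omega) (by omega), zero_add, hp (m - 1) (by omega) (by omega),
        sub_add_cancel])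
    (fun H => hnc (isCyclic_of_le H fun g hg => ⟨by
      show g ∈ stabilizer G ω₁
      rw [h.stab, Sys.mem_fix]
      intro l k1 k2
      rw [h1 l k1 k2, zero_add]
      exact hf g hg l k1 k2.le, hf g hg m (by omega) le_rfl⟩))
  refine ⟨b, h.inj _ _ fun l k1 k2 => ?_, by rw [hb1, h1 0 le_rfl (by omega), add_zero, c0]⟩
  rw [h.w_tgt (a := c) (l := 0) (by rw [hb2, zero_add]) (fun r r1 r2 => by rw [hb1, h1 r r1 r2])
    l k1 k2, zero_add, add_comm, c1 l k1]

/-- Paths of `S'` are paths of `S` that are longer by `m`. -/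
theorem unfold {b : ℤ → S'.A} {i j : ℤ} (hij : i < j) (hb : S'.IsPath b i j) :
    ∃ a : ℤ → S.A, S.IsPath a i (j + m) ∧
      (∀ l, i ≤ l → l < j → O.A (b l) = a (l + m) ∧
        (∀ r : ℤ, 0 ≤ r → r < m → w (S'.src (b l)) r = a (l + r)) ∧
        ∀ r : ℤ, 0 ≤ r → r < m → w (S'.tgt (b l)) r = a (l + 1 + r)) ∧
      ∀ i' j', i ≤ i' → i' < j' → j' ≤ j → S'.Fix b i' j' = S.Fix a i' (j' + m) := by
  classical
  have hm := h.pos
  let a : ℤ → S.A := fun l => if l < i + m then w (S'.src (b i)) (l - i) else O.A (b (l - m))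
  have a1 : ∀ r : ℤ, r < m → a (i + r) = w (S'.src (b i)) r := fun r hr => by
    show (if i + r < i + m then w (S'.src (b i)) (i + r - i) else _) = _
    rw [if_pos (by omega), add_sub_cancel_left]
  have a2 : ∀ l : ℤ, i ≤ l → O.A (b l) = a (l + m) := fun l hl => by
    show _ = (if l + m < i + m then _ else O.A (b (l + m - m)))
    rw [if_neg (by omega), add_sub_cancel_right]
  have a3 : ∀ n : ℕ, i + n < j → ∀ r : ℤ, 0 ≤ r → r < m → w (S'.src (b (i + n))) r = a (i + n + r) := by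
    intro n
    induction n with
    | zero => intro _ r _ r2; simpa using (a1 r r2).symm
    | succ n ih =>
      intro hn r r1 r2
      push_cast at hn ⊢
      rw [← add_assoc, ← hb (i + n) (by omega) (by omega)]
      exact h.w_tgt (a2 _ (by omega)) (ih (by omega)) r r1 r2
  have a4 : ∀ l, i ≤ l → l < j → ∀ r : ℤ, 0 ≤ r → r < m → w (S'.src (b l)) r = a (l + r) := by
    intro l h1 h2
    obtain ⟨n, hn⟩ := Int.eq_ofNat_of_zero_le (show 0 ≤ l - i by omega)
    obtain rfl : l = i + n := by omega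
    exact a3 n h2
  refine ⟨a, fun l h1 h2 => ?_, fun l h1 h2 => ⟨a2 l h1, a4 l h1 h2, h.w_tgt (a2 l h1) (a4 l h1 h2)⟩,
    fun i' j' h1 h2 h3 => ?_⟩
  · by_cases k : l + 1 < i + m
    · have := h.path (S'.src (b i)) (l - i) (by omega) (by omega)
      rw [← a1 _ (by omega), ← a1 _ (by omega), show i + (l - i) = l by ring,
        show i + (l - i + 1) = l + 1 by ring] at this
      exact this
    · have e1 := a2 (l + 1 - m) (by omega)
      have e2 := a4 (l + 1 - m) (by omega) (by omega) (m - 1) (by omega) (by omega)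
      rw [sub_add_cancel] at e1
      rw [show l + 1 - m + (m - 1) = l by ring] at e2
      rw [← e1, O.src_A, h.ν_eq, e2]
  · ext g
    rw [Sys.mem_fix, Sys.mem_fix]
    refine ⟨fun H l k1 k2 => ?_, fun H l k1 k2 => h.detOut _ _ ?_ ?_⟩
    · by_cases k : l < i' + m
      · have e := a4 i' h1 (by omega) (l - i') (by omega) (by omega)
        rw [show i' + (l - i') = l by ring] at e
        rw [← e]
        exact h.fix_w (by rw [← S'.src_smul, H i' le_rfl h2]) (by omega) (by omega)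
      · have e := a2 (l - m) (by omega)
        rw [sub_add_cancel] at e
        rw [← e, ← O.A_smul, H _ (by omega) (by omega)]
    · rw [O.A_smul, a2 l (by omega), H _ (by omega) (by omega)]
    · rw [S'.src_smul]
      refine h.inj _ _ fun r r1 r2 => ?_
      rw [h.smul g _ r r1 r2, a4 l (by omega) (by omega) r r1 r2, H _ (by omega) (by omega)]

theorem exists_arrow' {a : ℤ → S.A} {l : ℤ} (ha : S.IsPath a l (l + m + 1))
    (hnc : ¬ IsCyclic (S.Fix a l (l + m + 1))) :
    ∃ b : S'.A, O.A b = a (l + m) ∧ ∀ r : ℤ, 0 ≤ r → r < m → w (S'.src b) r = a (l + r) := by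
  have hm := h.pos
  obtain ⟨ω, h1⟩ := h.surj a l (ha.mono le_rfl (by omega))
    (fun H => hnc (isCyclic_of_le H (Sys.fix_mono le_rfl (by omega))))
  obtain ⟨b, hb1, hb2⟩ := h.surjA ω (a (l + m))
    (by
      rw [h.ν_eq, h1 _ (by omega) (by omega), ha (l + (m - 1)) (by omega) (by omega)]
      congr 2; ring)
    (fun H => hnc (isCyclic_of_le H fun g hg => ⟨by
      show g ∈ stabilizer G ω
      rw [h.stab, Sys.mem_fix]
      intro r k1 k2
      rw [h1 r k1 k2]
      exact Sys.mem_fix.1 hg _ (by omega) (by omega),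
      Sys.mem_fix.1 hg _ (by omega) (by omega)⟩))
  exact ⟨b, hb2, fun r r1 r2 => by rw [hb1, h1 r r1 r2]⟩

theorem fold {a : ℤ → S.A} {i j : ℤ} (hij : i < j) (ha : S.IsPath a i (j + m))
    (hnc : S.NC (m + 1) a i (j + m)) :
    ∃ b : ℤ → S'.A, S'.IsPath b i j ∧
      (∀ l, i ≤ l → l < j → O.A (b l) = a (l + m) ∧
        (∀ r : ℤ, 0 ≤ r → r < m → w (S'.src (b l)) r = a (l + r)) ∧
        ∀ r : ℤ, 0 ≤ r → r < m → w (S'.tgt (b l)) r = a (l + 1 + r)) := by
  classical
  have hm := h.pos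
  have key : ∀ l, ∃ b : S'.A, i ≤ l → l < j →
      O.A b = a (l + m) ∧ ∀ r : ℤ, 0 ≤ r → r < m → w (S'.src b) r = a (l + r) := by
    have k : ∀ l, i ≤ l → l < j → ∃ b : S'.A,
        O.A b = a (l + m) ∧ ∀ r : ℤ, 0 ≤ r → r < m → w (S'.src b) r = a (l + r) := by
      intro l h1 h2
      refine h.exists_arrow' (ha.mono h1 (by omega)) ?_
      have := hnc l h1 (by push_cast; omega)
      rwa [Nat.cast_succ, ← add_assoc] at this
    intro l
    by_cases hl : i ≤ l ∧ l < j
    · obtain ⟨b, hb⟩ := k l hl.1 hl.2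
      exact ⟨b, fun _ _ => hb⟩
    · obtain ⟨b, -⟩ := k i le_rfl hij
      exact ⟨b, fun h1 h2 => absurd ⟨h1, h2⟩ hl⟩
  choose b hb using key
  have ht := fun l h1 h2 => h.w_tgt (hb l h1 h2).1 (hb l h1 h2).2
  refine ⟨b, fun l h1 h2 => h.inj _ _ fun r r1 r2 => ?_,
    fun l h1 h2 => ⟨(hb l h1 h2).1, (hb l h1 h2).2, ht l h1 h2⟩⟩
  rw [ht l h1 (by omega) r r1 r2, (hb (l + 1) (by omega) h2).2 r r1 r2]

/-- The arrow of `S'` attached to a non-cyclic window of length `m + 1`. -/
theorem exists_arrow {a : ℤ → S.A} {l : ℤ} (ha : S.IsPath a l (l + m + 1))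
    (hnc : ¬ IsCyclic (S.Fix a l (l + m + 1))) :
    ∃! b : S'.A, O.A b = a (l + m) ∧ ∀ r : ℤ, 0 ≤ r → r < m → w (S'.src b) r = a (l + r) := by
  obtain ⟨b, hb⟩ := h.exists_arrow' ha hnc
  refine ⟨b, hb, fun b' hb' => h.detOut _ _ (hb'.1.trans hb.1.symm) ?_⟩
  exact h.inj _ _ fun r r1 r2 => (hb'.2 r r1 r2).trans (hb.2 r r1 r2).symm

theorem si (hS : S.SI) : S'.SI := by
  classical
  have hm := h.pos
  refine ⟨O.si_out h.detOut hS.1, fun ω K hK hle F hF hd => ?_⟩
  have hinj : ∀ b ∈ F, ∀ b' ∈ F, w (S'.src b) 0 = w (S'.src b') 0 → b = b' :=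
    fun b hb b' hb' e => h.det_first ((hF b hb).trans (hF b' hb').symm) e
  have key := hS.2 (S.src (w ω 0)) K hK
    (fun g hg => Sys.stab_le_src _ (h.fix_w (hle hg) le_rfl (by omega)))
    (F.image fun b => w (S'.src b) 0)
    (fun a ha => by
      obtain ⟨b, hb, rfl⟩ := Finset.mem_image.1 ha
      rw [h.tgt_first, hF b hb])
    (fun a ha a' ha' ⟨k, hk, e⟩ => by
      obtain ⟨b, hb, rfl⟩ := Finset.mem_image.1 ha
      obtain ⟨b', hb', rfl⟩ := Finset.mem_image.1 ha'
      have : k • b = b' := h.det_first (by rw [S'.tgt_smul, hF b hb, hF b' hb']; exact hle hk)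
        (by rw [S'.src_smul, h.smul k _ 0 le_rfl (by omega), e])
      rw [hd b hb b' hb' ⟨k, hk, this⟩])
  rw [Finset.sum_image hinj] at key
  refine le_trans (le_of_eq (Finset.sum_congr rfl fun b hb => ?_)) key
  rw [h.stab_first b, hF b hb, ← inf_assoc, inf_eq_left.2 hle]

theorem beta_le (hS : S.SI) (ω : N') : beta (stabilizer G ω) ≤ beta (stabilizer G (S.src (w ω 0))) := by
  have hm := h.pos
  have key : ∀ n : ℕ, n + 1 ≤ m →
      beta (S.Fix (w ω) 0 (n + 1)) - 1 ≤ beta (stabilizer G (S.src (w ω 0))) - 1 := by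
    intro n
    induction n with
    | zero =>
      intro _
      have := Sys.SIs.single hS.1 (S.node_fg (S.src (w ω 0))) (a := w ω 0) le_rfl
      rw [inf_eq_right.2 (Sys.stab_le_src _)] at this
      have e := Sys.fix_single (w ω) 0
      simp only [Nat.cast_zero]
      rwa [e]
    | succ n ih =>
      intro hn
      refine le_trans ?_ (ih (by omega))
      rw [Nat.cast_succ, Sys.fix_succ (by omega)]
      refine Sys.SIs.single hS.1 (Sys.fix_fg (by omega) ((h.path ω).mono le_rfl (by omega))) ?_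
      rw [← h.path ω n (by omega) (by omega)]
      exact Sys.fix_le_tgt (by omega) (by omega)
  obtain ⟨n, rfl⟩ : ∃ n, m = n + 1 := ⟨m - 1, by omega⟩
  have h1 := key n le_rfl
  have h2 := (S.nc_iff (Sys.fix_fg (by omega) (h.path ω))
    (Sys.fix_le_src (l := 0) le_rfl (by omega))).1 (h.nc ω)
  rw [h.stab]
  push_cast at h2 ⊢
  omega

end Over.IsWin

end CPOR
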