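import Pool.Agent.P.MP_2cb329_al.F.W1

/-! Theorem F: from the window system back to the system. -/

set_option autoImplicit false

namespace CPOR
open ZT MulAction

variable {G : Type} [Group G] {N N' : Type} [MulAction G N] [MulAction G N']

namespace Over.IsWin

variable {S' : Sys G N'} {S : Sys G N} {O : Over S' S} {m : ℕ} {w : N' → ℤ → S.A}
  (h : O.IsWin m w)
include h

/-- A chain over a window ends near the tree of the window. -/
theorem near : ∃ F, Bd F ∧ ∀ (L : ℕ) (p : ℤ → S.P) (i : ℤ) (ω : N'), S.Chain L p i (i + m) →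
    (∀ r : ℤ, 0 ≤ r → r < m → w ω r = S.arr (p (i + r))) →
    O.Near (F L) (S.t (p (i + m - 1))) ω := by
  have hm : (0 : ℤ) < m := by exact_mod_cast h.pos
  obtain ⟨C0, hC0⟩ := S.win_chain m
  obtain ⟨C, hC⟩ := S'.finN.bound (fun ω C => ∃ q : ℤ → S.P, S.Chain C q 0 m ∧
      (∀ r : ℤ, 0 ≤ r → r < m → S.arr (q r) = w ω r) ∧ O.Near C (S.t (q (m - 1))) ω)
    (fun ω _ c c' hc ⟨q, h1, h2, h3⟩ => ⟨q, h1.mono hc le_rfl le_rfl, h2, h3.mono hc⟩)
    (fun g _ ω _ c _ ⟨q, h1, h2, h3⟩ => ⟨fun l => g • q l, h1.smul g, fun r r1 r2 => by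
      rw [S.arr_smul, h2 r r1 r2, h.smul g ω r r1 r2], by
      rw [S.t_smul]; exact h3.smul g⟩)
    (fun ω _ => by
      obtain ⟨q, h1, h2⟩ := hC0 (w ω) 0 (by simpa using h.path ω) (by
        intro e
        apply h.nc ω
        rw [zero_add] at e
        rw [e]; infer_instance)
      rw [zero_add] at h1 h2
      obtain ⟨z, hz⟩ := S'.nd_surj ω
      have hn : S.nd (S.t (q (m - 1))) = S.nd (O.V z) := by
        rw [S.nd_t, h2 _ (by omega) (by omega), O.nd_V, hz, h.ν_eq]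
      exact ⟨C0 + S.B.dist (S.t (q (m - 1))) (O.V z), q, h1.mono (by omega) le_rfl le_rfl, h2,
        z, hz, (Sys.cl_dist hn).mono (by omega)⟩)
  obtain ⟨F, hF, hcar⟩ := S.carry
  refine ⟨fun L => F (L + (C + m)) + C, (hF.comp (Bd.id.add (Bd.const _))).add (Bd.const _), ?_⟩
  intro L p i ω hp hw
  obtain ⟨q, h1, h2, h3⟩ := hC ω trivial
  have hq : S.Chain (L + (C + m)) (fun l => q (l - i)) i (i + m) := by
    intro l l1 l2
    have := h1 (l - i) (by omega) (by omega)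
    rw [show l - i + 1 = l + 1 - i by ring] at this
    exact this.mono (by omega)
  obtain ⟨g, hg, hcl⟩ := hcar (L + (C + m)) p (fun l => q (l - i)) i (i + m)
    (hp.mono (by omega) le_rfl le_rfl) hq (fun l l1 l2 => by
      rw [h2 _ (by omega) (by omega), hw _ (by omega) (by omega)]; congr 2; ring)
    (by omega) (by push_cast; omega)
  have hgω : g • ω = ω := by
    have : g ∈ stabilizer G ω := by
      rw [h.stab, Sys.mem_fix]
      intro r r1 r2
      rw [hw r r1 r2]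
      exact Sys.mem_fix.1 hg (i + r) (by omega) (by omega)
    exact this
  have h4 := h3.smul g
  rw [hgω] at h4
  have h5 := (hcl (i + m - 1) (by omega) (by omega)).2
  rw [show i + m - 1 - i = m - 1 by ring] at h5
  exact h4.of_cl h5

theorem g1 (h1 : S'.G1P S'.Any) : S.G1P (S.NC (m + 1)) := by
  have hm : (0 : ℤ) < m := by exact_mod_cast h.pos
  obtain ⟨F, hF, h1⟩ := h1
  obtain ⟨T, hT, htl⟩ := S.tl_lip
  refine ⟨fun L => F (T (L + (m + 1)) + L) + m,
    (hF.comp ((hT.comp (Bd.id.add (Bd.const _))).add Bd.id)).add (Bd.const _), ?_⟩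
  intro L n x a hx hr hnc t1 t2
  by_cases hn : n ≤ m
  · left; show n ≤ F (T (L + (m + 1)) + L) + m; omega
  obtain ⟨j, rfl⟩ : ∃ j : ℕ, n = j + m := ⟨n - m, by omega⟩
  have hj : (0 : ℤ) < j := by omega
  have hpath := hr.path
  push_cast at hpath hnc t2
  obtain ⟨b, hb, hba⟩ := h.fold hj hpath hnc
  have hfx : ∀ l : ℤ, 0 ≤ l → l < j + m → x • a l = a l := fun l l1 l2 =>
    hr.fix l l1 (by push_cast; exact l2)
  have hsrc : ∀ l : ℤ, 0 ≤ l → l < j → x • S'.src (b l) = S'.src (b l) := fun l l1 l2 =>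
    h.inj _ _ fun r r1 r2 => by
      rw [h.smul x _ r r1 r2, (hba l l1 l2).2.1 r r1 r2, hfx _ (by omega) (by omega)]
  have hfb : ∀ l : ℤ, 0 ≤ l → l < j → x • b l = b l := fun l l1 l2 =>
    h.detOut _ _ (by rw [O.A_smul, (hba l l1 l2).1, hfx _ (by omega) (by omega)])
      (by rw [S'.src_smul, hsrc l l1 l2])
  have hrb : S'.Rigid x b j := by
    refine ⟨hb, hfb, fun i i1 i2 b' hb' hs => ?_, fun i i1 i2 b' hb' hs => ?_⟩
    · refine h.detOut _ _ ?_ hs
      rw [(hba i i1.le i2).1]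
      refine hr.out (i + m) (by omega) (by push_cast; omega) _ (by rw [← O.A_smul, hb']) ?_
      rw [O.src_A, hs, ← O.src_A, (hba i i1.le i2).1]
    · have e1 : S'.tgt (b (i - 1)) = S'.src (b i) := by
        have := hb (i - 1) (by omega) (by omega)
        rwa [sub_add_cancel] at this
      refine h.det_first (by rw [hs, e1]) ?_
      rw [(hba (i - 1) (by omega) (by omega)).2.1 0 le_rfl hm, add_zero]
      refine hr.inn i i1 (by push_cast; omega) _ ?_ ?_
      · rw [← h.smul x _ 0 le_rfl hm, ← S'.src_smul, hb']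
      · rw [h.tgt_first, hs, (hba i i1.le i2).2.1 0 le_rfl hm, add_zero]
  have s1 : S.TL (T (L + (m + 1))) x (S.src (a m)) :=
    (htl (L + (m + 1)) x a 0 (m + 1) 0 m hx (hpath.mono le_rfl (by omega))
      (Sys.mem_fix.2 fun l l1 l2 => hfx l l1 (by omega)) (by push_cast; omega) le_rfl (by omega)
      hm.le (by omega) (Or.inl (t1.mono (by omega)))).1
  have s2 : S'.TL (T (L + (m + 1)) + L) x (S'.src (b 0)) := by
    refine Over.tl_of_fix (O := O) hx (hsrc 0 le_rfl hj) ?_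
    rw [← O.src_A, (hba 0 le_rfl hj).1, zero_add]
    exact s1.mono (by omega)
  have s3 : S'.TL (T (L + (m + 1)) + L) x (S'.tgt (b (j - 1))) := by
    refine Over.tl_of_fix (O := O) hx (by rw [← S'.tgt_smul, hfb _ (by omega) (by omega)]) ?_
    rw [← O.tgt_A, (hba (j - 1) (by omega) (by omega)).1, show (j : ℤ) - 1 + m = j + m - 1 by ring]
    exact t2.mono (by omega)
  rcases h1 _ j x b hx hrb trivial s2 s3 with h2 | ⟨g, i, i', e1, e2, e3, e4, e5⟩
  · left; show j + m ≤ F (T (L + (m + 1)) + L) + m; omega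
  · right
    refine ⟨g, i + m, i' + m, by omega, by omega, by push_cast; omega, e4, ?_⟩
    rw [← (hba i e1 (by omega)).1, ← (hba i' (by omega) e3).1, ← O.A_smul, e5]

/-- `b` is the line of windows of the line `a`. -/
def WL (_ : O.IsWin m w) (a : ℤ → S.A) (b : ℤ → S'.A) (i : ℤ) : Prop :=
  O.A (b i) = a (i + m) ∧ ∀ r : ℤ, 0 ≤ r → r < m → w (S'.src (b i)) r = a (i + r)

theorem wl_tgt {a : ℤ → S.A} {b : ℤ → S'.A} {i : ℤ} (hb : h.WL a b i) (r : ℤ) (r1 : 0 ≤ r)
    (r2 : r < m) : w (S'.tgt (b i)) r = a (i + 1 + r) := by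
  rcases (show r + 1 < m ∨ r = m - 1 by omega) with e | e
  · rw [h.shift _ r r1 e, hb.2 _ (by omega) e]; congr 1; ring
  · rw [e, h.last, hb.1]; congr 1; ring

theorem wl_eq {a a' : ℤ → S.A} {b b' : ℤ → S'.A} {i i' : ℤ} (g : G) (hb : h.WL a b i)
    (hb' : h.WL a' b' i') (e : ∀ r : ℤ, 0 ≤ r → r ≤ m → a' (i' + r) = g • a (i + r)) :
    b' i' = g • b i := by
  refine h.detOut _ _ ?_ (h.inj _ _ fun r r1 r2 => ?_)
  · rw [O.A_smul, hb.1, hb'.1, e m (by omega) le_rfl]
  · rw [S'.src_smul, h.smul g _ r r1 r2, hb.2 r r1 r2, hb'.2 r r1 r2, e r r1 r2.le]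

theorem exists_wl {L k : ℕ} {u : G} {p : ℤ → S.P} (hp : S.Thread L k u p)
    (hnc : ∀ i : ℤ, ¬ IsCyclic (S.Fix (fun i => S.arr (p i)) i (i + m + 1))) :
    ∃ b, (∀ i, h.WL (fun i => S.arr (p i)) b i) ∧ O.PLift k u (fun i => p (i + m)) b := by
  have : ∀ i : ℤ, ∃ b : S'.A, O.A b = S.arr (p (i + m)) ∧
      ∀ r : ℤ, 0 ≤ r → r < m → w (S'.src b) r = S.arr (p (i + r)) := fun i =>
    (h.exists_arrow (a := fun i => S.arr (p i)) (hp.chain _ _).path (hnc i)).exists
  choose b hb using this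
  have hb' : ∀ i, h.WL (fun i => S.arr (p i)) b i := hb
  refine ⟨b, hb', fun i => (hb i).1, fun i => h.inj _ _ fun r r1 r2 => ?_, fun i => ?_⟩
  · rw [h.wl_tgt (hb' i) r r1 r2, (hb (i + 1)).2 r r1 r2]
  · refine h.wl_eq u (hb' i) (hb' (i + k)) fun r _ _ => ?_
    show S.arr (p (i + k + r)) = u • S.arr (p (i + r))
    rw [← S.arr_smul, ← hp.per]; congr 2; ring

theorem wl_near : ∃ F, Bd F ∧ ∀ (L k : ℕ) (u : G) (p : ℤ → S.P) (b : ℤ → S'.A),
    S.Thread L k u p → (∀ i, h.WL (fun i => S.arr (p i)) b i) → ∀ i : ℤ,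
    O.Near (F L) (S.s (p (i + m))) (S'.src (b i)) ∧
      O.Near (F L) (S.t (p (i + m))) (S'.tgt (b i)) := by
  obtain ⟨F, hF, hn⟩ := h.near
  refine ⟨fun L => L + F L, Bd.id.add hF, fun L k u p b hp hb i => ⟨?_, ?_⟩⟩
  · have h1 := hn L p i _ (hp.chain _ _) (hb i).2
    have h2 := (hp.ch (i + m - 1)).symm
    rw [sub_add_cancel] at h2
    exact h1.of_cl h2
  · have h1 := hn L p (i + 1) _ (hp.chain _ _) (h.wl_tgt (hb i))
    rw [show i + 1 + m - 1 = i + m by ring] at h1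
    exact h1.mono (Nat.le_add_left _ _)

omit h in
theorem nc_all {L k n : ℕ} {u : G} {p : ℤ → S.P} (hp : S.Thread L k u p) (hn : L + m ≤ n)
    (hnc : S.NC (m + 1) (fun i => S.arr (p i)) 0 (n + 1)) (i : ℤ) :
    ¬ IsCyclic (S.Fix (fun i => S.arr (p i)) i (i + m + 1)) := by
  have hk : (0 : ℤ) < k := by exact_mod_cast hp.pos
  have hkL := hp.le
  have h1 := Int.emod_nonneg i hk.ne'
  have h2 := Int.emod_lt_of_pos i hk
  have h3 := hnc (i % k) h1 (by push_cast; omega)
  have h4 := Sys.fix_smul (S := S) (a := fun i => S.arr (p i)) (a' := fun i => S.arr (p i))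
    (i := i % k) (j := i % k + ((m + 1 : ℕ) : ℤ)) (c := i / k * k) (g := u ^ (i / k))
    (fun l _ _ => by rw [← S.arr_smul, hp.zpow])
  have h5 : i % k + i / k * k = i := Int.emod_add_ediv_mul i k
  rw [← isCyclic_conj (u ^ (i / k)), h4, h5,
    show i % k + ((m + 1 : ℕ) : ℤ) + i / k * k = i + m + 1 by push_cast; omega] at h3
  exact h3

theorem g2 (h2 : S'.G2P S'.Any) : S.G2P (S.NC (m + 1)) := by
  obtain ⟨M, hM, F, hF, h2⟩ := O.g2_lift h2
  obtain ⟨W, hW, hnear⟩ := h.wl_near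
  obtain ⟨T, hT, hlip⟩ := S.chain_lip
  refine ⟨M, hM, fun L => F (W L + T (L + (m + 1)) + L) + L + m,
    ((hF.comp ((hW.add (hT.comp (Bd.id.add (Bd.const _)))).add Bd.id)).add Bd.id).add
      (Bd.const _), ?_⟩
  intro L k n u u' p p' hp hp' he hnc c1 c2
  by_cases hn : L + m ≤ n
  swap
  · left; show n ≤ F (W L + T (L + (m + 1)) + L) + L + m; omega
  have hnc' : S.NC (m + 1) (fun i => S.arr (p' i)) 0 (n + 1) := by
    intro l l1 l2
    have := hnc l l1 l2
    rwa [Sys.fix_congr (a' := fun i => S.arr (p' i)) (c := 0) (fun r r1 r2 => by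
      rw [add_zero]; exact he r (by omega) (by omega)), add_zero, add_zero] at this
  obtain ⟨b, hb, hl⟩ := h.exists_wl hp (nc_all hp hn hnc)
  obtain ⟨b', hb', hl'⟩ := h.exists_wl hp' (nc_all hp' hn hnc')
  obtain ⟨j, rfl⟩ : ∃ j : ℕ, n = j + m := ⟨n - m, by omega⟩
  have c3 := (hlip (L + (m + 1)) p p' 0 (m + 1) 0 m
    ((hp.chain _ _).mono (by omega) le_rfl le_rfl) ((hp'.chain _ _).mono (by omega) le_rfl le_rfl)
    (fun r r1 r2 => he r r1 (by push_cast; omega)) (by push_cast; omega) le_rfl (by omega)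
    (by omega) (by omega) (Or.inl (c1.mono (by omega)))).1
  rcases h2 (W L + T (L + (m + 1)) + L) k j u u' _ _ b b'
    ((hp.shift m).mono (by omega)) ((hp'.shift m).mono (by omega)) hl hl'
    (fun i i1 i2 => by
      have := h.wl_eq 1 (hb' i) (hb i) fun r r1 r2 => by
        rw [one_smul]; exact he _ (by omega) (by push_cast; omega)
      rwa [one_smul] at this)
    (fun i => ⟨(hnear L k u p b hp hb i).1.mono (by omega),
      (hnear L k u p b hp hb i).2.mono (by omega)⟩)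
    (fun i => ⟨(hnear L k u' p' b' hp' hb' i).1.mono (by omega),
      (hnear L k u' p' b' hp' hb' i).2.mono (by omega)⟩)
    (by rw [zero_add]; exact c3.mono (by omega))
    (by push_cast at c2; exact c2.mono (by omega)) with h3 | h3
  · left; show j + m ≤ F (W L + T (L + (m + 1)) + L) + L + m; omega
  · exact Or.inr h3

theorem g3 (h3 : S'.G3P S'.Any) : S.G3P (S.NC (m + 1)) := by
  obtain ⟨F, hF, h3⟩ := O.g3_lift h3
  obtain ⟨W, hW, hnear⟩ := h.wl_near
  obtain ⟨T, hT, hlip⟩ := S.chain_lip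
  refine ⟨fun L => T (F (W L + L) + L + (m + 1)),
    hT.comp (((hF.comp (hW.add Bd.id)).add Bd.id).add (Bd.const _)), ?_⟩
  intro L k u p p' hp hp' he hnc
  obtain ⟨b, hb, hl⟩ := h.exists_wl hp (fun i => by
    have := hnc i (i + ((m + 1 : ℕ) : ℤ)) i le_rfl le_rfl
    rwa [show i + ((m + 1 : ℕ) : ℤ) = i + m + 1 by push_cast; ring] at this)
  have hb' : ∀ i, h.WL (fun i => S.arr (p' i)) b i := by
    have : (fun i => S.arr (p' i)) = fun i => S.arr (p i) := funext fun i => (he i).symm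
    rw [this]; exact hb
  obtain ⟨e, e1, e2, e3⟩ := h3 (W L + L) k u _ _ b ((hp.shift m).mono (by omega))
    ((hp'.shift m).mono (by omega)) (fun i => he _) hl
    (fun i => ⟨(hnear L k u p b hp hb i).1.mono (by omega),
      (hnear L k u p b hp hb i).2.mono (by omega)⟩)
    (fun i => ⟨(hnear L k u p' b hp' hb' i).1.mono (by omega),
      (hnear L k u p' b hp' hb' i).2.mono (by omega)⟩)
  have e4 : ∀ i, e • S.arr (p i) = S.arr (p i) := fun i => by
    have := e2 (i - m)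
    rwa [sub_add_cancel] at this
  refine ⟨e, e1, e4, ?_⟩
  rw [zero_add, ← S.s_smul] at e3
  have := (hlip (F (W L + L) + L + (m + 1)) p (fun l => e • p' l) 0 (m + 1) m 0
    ((hp.chain _ _).mono (by omega) le_rfl le_rfl)
    (((hp'.chain _ _).mono (by omega) le_rfl le_rfl).smul e)
    (fun r _ _ => by rw [S.arr_smul, ← he, e4]) (by push_cast; omega) (by omega) (by omega)
    le_rfl (by omega) (Or.inl (e3.mono (by omega)))).1
  rwa [S.s_smul] at this

theorem gall (hG : S'.Gall) : S.Gall :=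
  Sys.gall_of_nc (Nat.le_add_left 1 m) ⟨h.g1 hG.1, h.g2 hG.2.1, h.g3 hG.2.2⟩

end Over.IsWin

end CPOR
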