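import Pool.Agent.P.MP_2cb329_al.F.Api

/-! Theorem F: windows become persistent. -/

set_option autoImplicit false

namespace CPOR
open ZT MulAction

variable {G : Type} [Group G] {N : Type} [MulAction G N]

/-- Weighted counting along an equivariant map. -/
theorem sum_reps_le {X Y : Type} [MulAction G X] [MulAction G Y] {A : Set X} {B : Set Y}
    {FA : Finset X} {FB : Finset Y} (hA : Reps (⊤ : Subgroup G) A FA)
    (hB : Reps (⊤ : Subgroup G) B FB) (hAi : Inv (⊤ : Subgroup G) A) (f : X → Y)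
    (hf : ∀ (g : G), ∀ x ∈ A, f (g • x) = g • f x) (hm : ∀ x ∈ A, f x ∈ B) (rA : X → ℕ) (rB : Y → ℕ)
    (hrA : ∀ (g : G), ∀ x ∈ A, rA (g • x) = rA x)
    (hle : ∀ y ∈ FB, ∀ F : Finset X, (∀ x ∈ F, x ∈ A ∧ f x = y) →
      (∀ x ∈ F, ∀ x' ∈ F, (∃ k ∈ stabilizer G y, k • x = x') → x = x') → ∑ x ∈ F, rA x ≤ rB y) :
    ∑ x ∈ FA, rA x ≤ ∑ y ∈ FB, rB y ∧ (∑ y ∈ FB, rB y ≤ ∑ x ∈ FA, rA x →
      ∀ y ∈ FB, ∃ F, Reps (stabilizer G y) {x | x ∈ A ∧ f x = y} F ∧ ∑ x ∈ F, rA x = rB y) := by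
  classical
  have hfib : ∀ y, ∃ F, Reps (stabilizer G y) {x | x ∈ A ∧ f x = y} F := by
    intro y
    have := hA.finOrb.fibre hAi f (fun k _ x hx => hf k x hx) y
    rw [top_inf_eq] at this
    exact this.exists_reps
  choose Φ hΦ using hfib
  have hR : Reps (⊤ : Subgroup G) A (FB.biUnion Φ) := by
    refine ⟨fun x hx => ?_, fun x hx => ?_, fun x hx x' hx' e => ?_⟩
    · obtain ⟨y, -, hy⟩ := Finset.mem_biUnion.1 hx
      exact ((hΦ y).sub x hy).1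
    · obtain ⟨k, -, y, hy, e⟩ := hB.cover _ (hm x hx)
      have h1 : k⁻¹ • x ∈ A := hAi _ (Subgroup.mem_top _) x hx
      obtain ⟨k', -, z, hz, e'⟩ := (hΦ y).cover (k⁻¹ • x) ⟨h1, by rw [hf _ _ hx, e, inv_smul_smul]⟩
      refine ⟨k * k', Subgroup.mem_top _, z, Finset.mem_biUnion.2 ⟨y, hy, hz⟩, ?_⟩
      rw [mul_smul, ← e', smul_inv_smul]
    · obtain ⟨y, hy, hx1⟩ := Finset.mem_biUnion.1 hx
      obtain ⟨y', hy', hx2⟩ := Finset.mem_biUnion.1 hx'
      obtain ⟨k, -, e⟩ := e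
      obtain ⟨h1, h2⟩ := (hΦ y).sub x hx1
      obtain ⟨-, h4⟩ := (hΦ y').sub x' hx2
      have h5 : k • y = y' := by rw [← h2, ← h4, ← e, hf _ _ h1]
      obtain rfl := hB.dist y hy y' hy' ⟨k, Subgroup.mem_top _, h5⟩
      exact (hΦ y).dist x hx1 x' hx2 ⟨k, h5, e⟩
  have hdis : (FB : Set Y).PairwiseDisjoint Φ := by
    intro y _ y' _ hne
    refine Finset.disjoint_left.2 fun x h1 h2 => hne ?_
    rw [← ((hΦ y).sub x h1).2, ((hΦ y').sub x h2).2]
  have e1 : ∑ x ∈ FA, rA x = ∑ y ∈ FB, ∑ x ∈ Φ y, rA x := by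
    rw [hA.sum_eq hR rA (fun k _ x hx => hrA k x hx), Finset.sum_biUnion hdis]
  have hle' : ∀ y ∈ FB, ∑ x ∈ Φ y, rA x ≤ rB y := fun y hy =>
    hle y hy (Φ y) (hΦ y).sub (hΦ y).dist
  rw [e1]
  refine ⟨Finset.sum_le_sum hle', fun h y hy => ⟨Φ y, hΦ y, ?_⟩⟩
  exact (Finset.sum_eq_sum_iff_of_le hle').1 (le_antisymm (Finset.sum_le_sum hle') h) y hy

theorem w3_anti (f : ℕ → ℕ) (h : ∀ m, f (m + 1) ≤ f m) : ∃ M, ∀ m, M ≤ m → f m = f M := by
  obtain ⟨M, hM⟩ := exists_minimalFor_of_wellFoundedLT (fun _ : ℕ => True) f ⟨0, trivial⟩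
  refine ⟨M, fun m hm => ?_⟩
  have h1 := antitone_nat_of_succ_le h hm
  exact le_antisymm h1 (hM.2 trivial h1)

theorem w3_const (ρ ν : ℕ → ℕ) (h1 : ∀ m, ρ (m + 1) ≤ ρ m)
    (h2 : ∀ m, ρ m ≤ ρ (m + 1) → ν m ≤ ν (m + 1)) (h3 : ∀ m, ν m ≤ ρ m) :
    ∃ K, ∀ m, K ≤ m → ρ m ≤ ρ (m + 1) ∧ ν (m + 1) ≤ ν m := by
  obtain ⟨M, hM⟩ := w3_anti ρ h1
  have h4 : ∀ m, M ≤ m → ρ m ≤ ρ (m + 1) := fun m hm => by
    rw [hM m hm, hM (m + 1) (by omega)]
  obtain ⟨M', hM'⟩ := w3_anti (fun m => ρ M - ν (M + m)) fun m => by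
    have := h2 (M + m) (h4 _ (by omega))
    rw [← add_assoc]
    omega
  refine ⟨M + M', fun m hm => ⟨h4 m (by omega), ?_⟩⟩
  obtain ⟨d, rfl⟩ := Nat.exists_eq_add_of_le (show M ≤ m by omega)
  have e1 := hM' d (by omega)
  have e2 := hM' (d + 1) (by omega)
  have e3 := h3 (M + d)
  have e4 := h3 (M + d + 1)
  have e5 := hM (M + d) (by omega)
  have e6 := hM (M + d + 1) (by omega)
  simp only [← add_assoc] at e1 e2
  omega

/-- The rank of a stabiliser minus one. -/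
noncomputable def w3r (G : Type) [Group G] {X : Type} [MulAction G X] (x : X) : ℕ :=
  beta (stabilizer G x) - 1

/-- One step of the counting argument, for a map `f` whose fibres are given by arrows. -/
theorem w3_step {S : Sys G N} {σ : S.A → N} (hS : S.SIs σ) {X : Type} [MulAction G X]
    {A B : Set X} {FA FB : Finset X} (hA : Reps (⊤ : Subgroup G) A FA)
    (hB : Reps (⊤ : Subgroup G) B FB) (hAi : Inv (⊤ : Subgroup G) A) (f : X → X) (e : X → S.A)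
    (v : X → N) (hf : ∀ (g : G) x, f (g • x) = g • f x) (he : ∀ (g : G) x, e (g • x) = g • e x)
    (hm : ∀ x ∈ A, f x ∈ B) (hdet : ∀ x ∈ A, ∀ x' ∈ A, f x = f x' → e x = e x' → x = x')
    (hσ : ∀ x ∈ A, σ (e x) = v (f x))
    (hv : ∀ y ∈ B, (stabilizer G y).FG ∧ stabilizer G y ≤ stabilizer G (v y))
    (h2 : ∀ y ∈ B, 1 ≤ w3r G y) :
    (∀ x ∈ A, stabilizer G x = stabilizer G (f x) ⊓ stabilizer G (e x)) ∧
    ∑ x ∈ FA, w3r G x ≤ ∑ y ∈ FB, w3r G y ∧ (∑ y ∈ FB, w3r G y ≤ ∑ x ∈ FA, w3r G x →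
      (∀ y ∈ B, ∃ x ∈ A, f x = y) ∧ FB.card ≤ FA.card ∧
        (FA.card ≤ FB.card → ∀ x ∈ A, w3r G x = w3r G (f x))) := by
  classical
  have hst : ∀ x ∈ A, stabilizer G x = stabilizer G (f x) ⊓ stabilizer G (e x) := by
    intro x hx
    ext g
    simp only [Subgroup.mem_inf, mem_stabilizer_iff]
    refine ⟨fun h => ⟨by rw [← hf, h], by rw [← he, h]⟩, fun h => ?_⟩
    exact hdet _ (hAi g (Subgroup.mem_top _) x hx) x hx (by rw [hf, h.1]) (by rw [he, h.2])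
  have hr : ∀ (g : G) (x : X), w3r G (g • x) = w3r G x := fun g x => by
    rw [w3r, w3r, beta_stab_smul]
  obtain ⟨k1, k2⟩ := sum_reps_le hA hB hAi f (fun g x _ => hf g x) hm (w3r G) (w3r G)
    (fun g x _ => hr g x) (by
      intro y hy F hF hd
      have hinj : Set.InjOn e (F : Set X) := fun x hx x' hx' h =>
        hdet x (hF x hx).1 x' (hF x' hx').1 ((hF x hx).2.trans (hF x' hx').2.symm) h
      obtain ⟨h3, h4⟩ := hv y (hB.sub y hy)
      have := hS (v y) (stabilizer G y) h3 h4 (F.image e) (by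
        intro a ha
        obtain ⟨x, hx, rfl⟩ := Finset.mem_image.1 ha
        rw [hσ x (hF x hx).1, (hF x hx).2]) (by
        rintro a ha a' ha' ⟨k, hk, hka⟩
        obtain ⟨x, hx, rfl⟩ := Finset.mem_image.1 ha
        obtain ⟨x', hx', rfl⟩ := Finset.mem_image.1 ha'
        rw [hd x hx x' hx' ⟨k, hk, hdet _ (hAi k (Subgroup.mem_top _) x (hF x hx).1) x'
          (hF x' hx').1 (by rw [hf, (hF x hx).2, (hF x' hx').2]; exact hk) (by rw [he, hka])⟩])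
      rw [Finset.sum_image hinj] at this
      refine le_trans (le_of_eq (Finset.sum_congr rfl fun x hx => ?_)) this
      rw [w3r, hst x (hF x hx).1, (hF x hx).2])
  refine ⟨hst, k1, fun h => ?_⟩
  have hsurj : ∀ y ∈ B, ∃ x ∈ A, f x = y := by
    intro y hy
    obtain ⟨k, -, y0, hy0, rfl⟩ := hB.cover y hy
    obtain ⟨F, hF, hs⟩ := k2 h y0 hy0
    have := h2 y0 (hB.sub y0 hy0)
    obtain ⟨x, hx⟩ : F.Nonempty := by
      rw [Finset.nonempty_iff_ne_empty]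
      rintro rfl
      rw [Finset.sum_empty] at hs
      omega
    exact ⟨k • x, hAi k (Subgroup.mem_top _) x (hF.sub x hx).1, by rw [hf, (hF.sub x hx).2]⟩
  have hf' : ∀ x ∈ A, ∀ x' ∈ A, (∃ k ∈ (⊤ : Subgroup G), k • x = x') →
      ∃ k ∈ (⊤ : Subgroup G), k • f x = f x' := by
    rintro x _ _ _ ⟨k, hk, rfl⟩
    exact ⟨k, hk, (hf k x).symm⟩
  have hs' : ∀ y ∈ B, ∃ x ∈ A, ∃ k ∈ (⊤ : Subgroup G), k • f x = y := fun y hy => by
    obtain ⟨x, hx, e1⟩ := hsurj y hy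
    exact ⟨x, hx, 1, Subgroup.mem_top _, by rw [one_smul, e1]⟩
  refine ⟨hsurj, ?_, fun hc x hx => ?_⟩
  · rw [hA.card, hB.card]
    exact (nOrb_le_of_surj hA.finOrb f hf' hs').2
  · rw [hA.card, hB.card] at hc
    have hi := inj_of_surj_of_nOrb_le hA.finOrb f hm hf' hs' hc
    obtain ⟨k, -, y0, hy0, e1⟩ := hB.cover _ (hm x hx)
    obtain ⟨F, hF, hs⟩ := k2 h y0 hy0
    obtain ⟨k', -, z, hz, e2⟩ := hF.cover (k⁻¹ • x)
      ⟨hAi _ (Subgroup.mem_top _) x hx, by rw [hf, e1, inv_smul_smul]⟩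
    have hFz : F = {z} := by
      refine Finset.eq_singleton_iff_unique_mem.2 ⟨hz, fun z' hz' => ?_⟩
      obtain ⟨h3, h4⟩ := hF.sub z hz
      obtain ⟨h5, h6⟩ := hF.sub z' hz'
      obtain ⟨g, -, hg⟩ := hi z' h5 z h3 ⟨1, Subgroup.mem_top _, by rw [one_smul, h4, h6]⟩
      refine hF.dist z' hz' z hz ⟨g, ?_, hg⟩
      rw [mem_stabilizer_iff]
      conv_lhs => rw [← h6, ← hf, hg, h4]
    rw [hFz, Finset.sum_singleton] at hs
    rw [e1, hr, ← hs, ← hr k⁻¹ x, e2, hr]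

/-- Clamping an index to `[0, n]`. -/
def w3c (n : ℕ) (l : ℤ) : ℤ := max 0 (min l n)

theorem w3c_of {n : ℕ} {l : ℤ} (h1 : 0 ≤ l) (h2 : l < n + 1) : w3c n l = l := by
  unfold w3c; omega

theorem w3c_mem (n : ℕ) (l : ℤ) : 0 ≤ w3c n l ∧ w3c n l < n + 1 := by
  unfold w3c; omega

namespace Sys

variable {S : Sys G N}

/-- Normalised non-cyclic windows of length `n + 1`. -/
def W3 (S : Sys G N) (n : ℕ) : Set (ℤ → S.A) :=
  {a | (∀ l, a l = a (w3c n l)) ∧ S.IsPath a 0 (n + 1) ∧ ¬ IsCyclic (stabilizer G a)}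

/-- The window of length `n + 1` that starts at `i`. -/
def w3n (n : ℕ) (i : ℤ) (a : ℤ → S.A) : ℤ → S.A := fun l => a (w3c n l + i)

theorem w3n_of {n : ℕ} (i : ℤ) (a : ℤ → S.A) {l : ℤ} (h1 : 0 ≤ l) (h2 : l < n + 1) :
    w3n n i a l = a (l + i) := by
  rw [w3n, w3c_of h1 h2]

theorem w3_stab {n : ℕ} {a : ℤ → S.A} (h : ∀ l, a l = a (w3c n l)) :
    stabilizer G a = S.Fix a 0 (n + 1) := by
  ext g
  rw [mem_fix, mem_stabilizer_iff]
  refine ⟨fun e l _ _ => congrFun e l, fun e => funext fun l => ?_⟩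
  rw [Pi.smul_apply, h l]
  exact e _ (w3c_mem n l).1 (w3c_mem n l).2

theorem w3n_norm (n : ℕ) (i : ℤ) (a : ℤ → S.A) (l : ℤ) : w3n n i a l = w3n n i a (w3c n l) := by
  rw [w3n_of i a (w3c_mem n l).1 (w3c_mem n l).2, w3n]

theorem w3n_stab (n : ℕ) (i : ℤ) (a : ℤ → S.A) :
    stabilizer G (w3n n i a) = S.Fix a i (i + n + 1) := by
  rw [w3_stab (w3n_norm n i a), fix_congr (a' := a) (c := i) fun l h1 h2 => w3n_of i a h1 h2,
    zero_add, show (n : ℤ) + 1 + i = i + n + 1 by ring]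

theorem w3n_mem {n : ℕ} {i : ℤ} {a : ℤ → S.A} (h : S.IsPath a i (i + n + 1))
    (hc : ¬ IsCyclic (S.Fix a i (i + n + 1))) : w3n n i a ∈ S.W3 n := by
  refine ⟨w3n_norm n i a, fun l h1 h2 => ?_, by rwa [w3n_stab]⟩
  rw [w3n_of i a h1 (by omega), w3n_of i a (by omega) h2, show l + 1 + i = l + i + 1 by ring]
  exact h _ (by omega) (by omega)

theorem w3_inv (n : ℕ) : Inv (⊤ : Subgroup G) (S.W3 n) := by
  rintro g - a ⟨h1, h2, h3⟩
  refine ⟨fun l => by rw [Pi.smul_apply, Pi.smul_apply, ← h1], fun l k1 k2 => ?_, ?_⟩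
  · rw [Pi.smul_apply, Pi.smul_apply, S.tgt_smul, S.src_smul, h2 l k1 k2]
  · rwa [stabilizer_smul_eq_stabilizer_map_conj, isCyclic_conj]

theorem w3_fin (n : ℕ) : FinOrb (⊤ : Subgroup G) (S.W3 n) := by
  obtain ⟨F, -, hF⟩ := S.fin_win (n + 1)
  refine ⟨w3n n 0 '' F, F.finite_toSet.image _, ?_⟩
  rintro a ⟨h1, h2, h3⟩
  rw [w3_stab h1] at h3
  obtain ⟨g, b, hb, e⟩ := hF a 0 (by omega) (by simpa using h2) (by
    intro h
    apply h3
    have : S.Fix a 0 (n + 1) = ⊥ := by simpa using h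
    rw [this]
    infer_instance)
  refine ⟨g⁻¹, Subgroup.mem_top _, b, hb, funext fun l => ?_⟩
  have := e (w3c n l) (w3c_mem n l).1 (by push_cast; exact (w3c_mem n l).2)
  rw [zero_add] at this
  rw [Pi.smul_apply, h1 l, this, inv_smul_smul, w3n, add_zero]

theorem w3_fg {n : ℕ} {a : ℤ → S.A} (h : a ∈ S.W3 n) : (stabilizer G a).FG := by
  rw [w3_stab h.1]
  exact fix_fg (by omega) h.2.1

theorem w3_le_src {n : ℕ} {a : ℤ → S.A} (h : a ∈ S.W3 n) :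
    stabilizer G a ≤ stabilizer G (S.src (a 0)) := by
  rw [w3_stab h.1]
  exact fix_le_src le_rfl (by omega)

theorem w3_le_tgt {n : ℕ} {a : ℤ → S.A} (h : a ∈ S.W3 n) :
    stabilizer G a ≤ stabilizer G (S.tgt (a n)) := by
  rw [w3_stab h.1]
  exact fix_le_tgt (by omega) (by omega)

theorem w3_two {n : ℕ} {a : ℤ → S.A} (h : a ∈ S.W3 n) : 2 ≤ beta (stabilizer G a) :=
  (S.nc_iff (w3_fg h) (w3_le_src h)).1 h.2.2

theorem w3_sub {n : ℕ} {a : ℤ → S.A} (h : a ∈ S.W3 (n + 1)) {i : ℤ} (h0 : 0 ≤ i) (h1 : i ≤ 1) :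
    w3n n i a ∈ S.W3 n := by
  refine w3n_mem (h.2.1.mono h0 (by push_cast; omega)) fun hc => h.2.2 ?_
  rw [w3_stab h.1]
  exact isCyclic_of_le hc (fix_mono h0 (by push_cast; omega))

theorem w3_ext {n : ℕ} {a a' : ℤ → S.A} (h : a ∈ S.W3 n) (h' : a' ∈ S.W3 n)
    (e : ∀ l : ℤ, 0 ≤ l → l < n + 1 → a l = a' l) : a = a' :=
  funext fun l => by rw [h.1 l, h'.1 l, e _ (w3c_mem n l).1 (w3c_mem n l).2]

theorem w3_det0 {n : ℕ} {a a' : ℤ → S.A} (h : a ∈ S.W3 (n + 1)) (h' : a' ∈ S.W3 (n + 1))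
    (e1 : w3n n 0 a = w3n n 0 a') (e2 : a (n + 1) = a' (n + 1)) : a = a' := by
  refine w3_ext h h' fun l k1 k2 => ?_
  by_cases hl : l < n + 1
  · have := congrFun e1 l
    rwa [w3n_of _ _ k1 hl, w3n_of _ _ k1 hl, add_zero] at this
  · rw [show l = n + 1 by push_cast at k2; omega, e2]

theorem w3_det1 {n : ℕ} {a a' : ℤ → S.A} (h : a ∈ S.W3 (n + 1)) (h' : a' ∈ S.W3 (n + 1))
    (e1 : w3n n 1 a = w3n n 1 a') (e2 : a 0 = a' 0) : a = a' := by
  refine w3_ext h h' fun l k1 k2 => ?_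
  by_cases hl : l = 0
  · rw [hl, e2]
  · have := congrFun e1 (l - 1)
    push_cast at k2
    rwa [w3n_of _ _ (by omega) (by omega), w3n_of _ _ (by omega) (by omega),
      sub_add_cancel] at this

theorem w3_ext0 {n : ℕ} {y : ℤ → S.A} (h : y ∈ S.W3 n) {b : S.A} (hb : S.src b = S.tgt (y n))
    (hc : ¬ IsCyclic (stabilizer G y ⊓ stabilizer G b : Subgroup G)) :
    ∃ x ∈ S.W3 (n + 1), w3n n 0 x = y ∧ x (n + 1) = b := by
  let x : ℤ → S.A := fun l => if l < n + 1 then y l else b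
  have h1 : ∀ l : ℤ, l < n + 1 → x l = y l := fun l hl => if_pos hl
  have h2 : x (n + 1) = b := if_neg (lt_irrefl _)
  have h3 : S.IsPath x 0 (0 + (n + 1 : ℕ) + 1) := by
    intro l k1 k2
    push_cast at k2
    by_cases hl : l + 1 < n + 1
    · rw [h1 l (by omega), h1 _ hl]
      exact h.2.1 l k1 hl
    · obtain rfl : l = n := by omega
      rw [h1 _ (by omega), h2, hb]
  refine ⟨w3n (n + 1) 0 x, w3n_mem h3 ?_, funext fun l => ?_, ?_⟩
  · rw [show (0 : ℤ) + (n + 1 : ℕ) + 1 = n + 1 + 1 by push_cast; ring, fix_succ (by omega), h2,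
      fix_congr (a' := y) (c := 0) fun l _ k2 => by rw [add_zero, h1 l k2], add_zero, add_zero,
      ← w3_stab h.1]
    exact hc
  · have := w3c_mem n l
    rw [w3n, add_zero, w3n_of _ _ this.1 (by push_cast; omega), add_zero, h1 _ this.2, ← h.1]
  · rw [w3n_of _ _ (by omega) (by push_cast; omega), add_zero, h2]

theorem w3_ext1 {n : ℕ} {y : ℤ → S.A} (h : y ∈ S.W3 n) {b : S.A} (hb : S.tgt b = S.src (y 0))
    (hc : ¬ IsCyclic (stabilizer G y ⊓ stabilizer G b : Subgroup G)) :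
    ∃ x ∈ S.W3 (n + 1), w3n n 1 x = y ∧ x 0 = b := by
  let x : ℤ → S.A := fun l => if 0 < l then y (l - 1) else b
  have h1 : ∀ l : ℤ, 0 < l → x l = y (l - 1) := fun l hl => if_pos hl
  have h2 : x 0 = b := if_neg (lt_irrefl _)
  have h3 : S.IsPath x 0 (0 + (n + 1 : ℕ) + 1) := by
    intro l k1 k2
    push_cast at k2
    by_cases hl : 0 < l
    · rw [h1 l hl, h1 _ (by omega), show l + 1 - 1 = l - 1 + 1 by ring]
      exact h.2.1 _ (by omega) (by omega)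
    · obtain rfl : l = 0 := by omega
      rw [h1 (0 + 1) (by omega), h2, hb]
      rfl
  refine ⟨w3n (n + 1) 0 x, w3n_mem h3 ?_, funext fun l => ?_, ?_⟩
  · rw [fix_pred (by omega), h2,
      fix_congr (a' := y) (c := -1) fun l k1 _ => by rw [h1 l (by omega), sub_eq_add_neg],
      show (0 : ℤ) + 1 + -1 = 0 by ring,
      show (0 : ℤ) + (n + 1 : ℕ) + 1 + -1 = n + 1 by push_cast; ring, ← w3_stab h.1]
    exact hc
  · have := w3c_mem n l
    rw [w3n, w3n_of _ _ (by omega) (by push_cast; omega), add_zero, h1 _ (by omega),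
      add_sub_cancel_right, ← h.1]
  · rw [w3n_of _ _ le_rfl (by omega), add_zero, h2]

end Sys

/-- Non-cyclic windows of length at least `K` extend in both directions without loss of rank. -/
def Sys.Stable (S : Sys G N) (K : ℕ) : Prop :=
  ∀ (a : ℤ → S.A) (i j : ℤ), i + K ≤ j → i < j → S.IsPath a i j → ¬ IsCyclic (S.Fix a i j) →
    (∃ b, S.src b = S.tgt (a (j - 1)) ∧ ¬ IsCyclic (S.Fix a i j ⊓ stabilizer G b : Subgroup G)) ∧
    (∃ b, S.tgt b = S.src (a i) ∧ ¬ IsCyclic (S.Fix a i j ⊓ stabilizer G b : Subgroup G)) ∧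
    ∀ b, (S.src b = S.tgt (a (j - 1)) ∨ S.tgt b = S.src (a i)) →
      ¬ IsCyclic (S.Fix a i j ⊓ stabilizer G b : Subgroup G) →
      beta (S.Fix a i j ⊓ stabilizer G b) = beta (S.Fix a i j)

theorem Sys.exists_stable {S : Sys G N} (h : S.SI) : ∃ K, 1 ≤ K ∧ S.Stable K := by
  choose F hF using fun n => (w3_fin (S := S) n).exists_reps
  have one : ∀ n, ∀ y ∈ S.W3 n, 1 ≤ w3r G y := fun n y hy => by
    have := w3_two hy
    unfold w3r
    omega
  have s0 := fun n => w3_step h.1 (hF (n + 1)) (hF n) (w3_inv (n + 1)) (w3n n 0)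
    (fun x => x (n + 1)) (fun y => S.tgt (y n)) (fun _ _ => rfl) (fun _ _ => rfl)
    (fun x hx => w3_sub hx le_rfl zero_le_one) (fun x hx x' hx' => w3_det0 hx hx')
    (fun x hx => by
      rw [w3n_of _ _ (by omega) (by omega), add_zero]
      exact (hx.2.1 n (by omega) (by push_cast; omega)).symm)
    (fun y hy => ⟨w3_fg hy, w3_le_tgt hy⟩) (one n)
  have s1 := fun n => w3_step h.2 (hF (n + 1)) (hF n) (w3_inv (n + 1)) (w3n n 1)
    (fun x => x 0) (fun y => S.src (y 0)) (fun _ _ => rfl) (fun _ _ => rfl)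
    (fun x hx => w3_sub hx zero_le_one le_rfl) (fun x hx x' hx' => w3_det1 hx hx')
    (fun x hx => by
      rw [w3n_of _ _ le_rfl (by omega)]
      exact hx.2.1 0 le_rfl (by push_cast; omega))
    (fun y hy => ⟨w3_fg hy, w3_le_src hy⟩) (one n)
  obtain ⟨K, hK⟩ := w3_const (fun n => ∑ x ∈ F n, w3r G x) (fun n => (F n).card)
    (fun n => (s0 n).2.1) (fun n hn => ((s0 n).2.2 hn).2.1) (fun n => by
      rw [Finset.card_eq_sum_ones]
      exact Finset.sum_le_sum fun x hx => one n x ((hF n).sub x hx))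
  refine ⟨K + 1, by omega, fun a i j hij _ hp hc => ?_⟩
  obtain ⟨n, rfl⟩ : ∃ n : ℕ, j = i + n + 1 := ⟨(j - i - 1).toNat, by push_cast at hij; omega⟩
  obtain ⟨k1, k2⟩ := hK n (by push_cast at hij; omega)
  have hy := w3n_mem hp hc
  obtain ⟨p1, -, p2⟩ := s0 n
  obtain ⟨p2, -, p3⟩ := p2 k1
  obtain ⟨q1, -, q2⟩ := s1 n
  obtain ⟨q2, -, q3⟩ := q2 k1
  have e0 : w3n n i a 0 = a i := by rw [w3n_of _ _ le_rfl (by omega), zero_add]
  have e1 : w3n n i a n = a (i + n + 1 - 1) := by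
    rw [w3n_of _ _ (by omega) (by omega)]
    congr 1
    ring
  rw [← w3n_stab, ← e0, ← e1]
  generalize w3n n i a = y at hy
  refine ⟨?_, ?_, fun b hb hcb => ?_⟩
  · obtain ⟨x, hx, rfl⟩ := p2 y hy
    refine ⟨x (n + 1), ?_, by rw [← p1 x hx]; exact hx.2.2⟩
    rw [w3n_of _ _ (by omega) (by omega), add_zero]
    exact (hx.2.1 n (by omega) (by push_cast; omega)).symm
  · obtain ⟨x, hx, rfl⟩ := q2 y hy
    refine ⟨x 0, ?_, by rw [← q1 x hx]; exact hx.2.2⟩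
    rw [w3n_of _ _ le_rfl (by omega)]
    exact hx.2.1 0 le_rfl (by push_cast; omega)
  · have t2 := w3_two hy
    rcases hb with hb | hb
    · obtain ⟨x, hx, rfl, rfl⟩ := w3_ext0 hy hb hcb
      have t1 := w3_two hx
      have t3 := p3 k2 x hx
      rw [← p1 x hx]
      unfold w3r at t3
      omega
    · obtain ⟨x, hx, rfl, rfl⟩ := w3_ext1 hy hb hcb
      have t1 := w3_two hx
      have t3 := q3 k2 x hx
      rw [← q1 x hx]
      unfold w3r at t3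
      omega

end CPOR
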