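import Pool.Agent.P.MP_2cb329_al.F.W1
import Pool.Agent.P.MP_2cb329_al.F.W3

/-! Theorem F: persistent systems and their window systems; the automorphism case. -/

set_option autoImplicit false

namespace CPOR
open ZT MulAction

variable {G : Type} [Group G] {N N' : Type} [MulAction G N] [MulAction G N']

namespace Sys

variable {S : Sys G N}

theorem w4_nc {K K' : Subgroup G} (h : K ≤ K') (hK : ¬ IsCyclic K) : ¬ IsCyclic K' :=
  fun h' => hK (isCyclic_of_le h' h)

theorem w4_congr {a a' : ℤ → S.A} {i j : ℤ} (h : ∀ l, i ≤ l → l < j → a l = a' l) :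
    S.Fix a i j = S.Fix a' i j := by
  have := fix_congr (S := S) (a := a) (a' := a') (i := i) (j := j) (c := 0)
    (fun l h1 h2 => by rw [add_zero]; exact h l h1 h2)
  simpa using this

theorem w4_snoc {a : ℤ → S.A} {i j : ℤ} (hij : i < j) (ha : S.IsPath a i j) {b : S.A}
    (hb : S.src b = S.tgt (a (j - 1))) :
    S.IsPath (Function.update a j b) i (j + 1) ∧
      S.Fix (Function.update a j b) i (j + 1) = S.Fix a i j ⊓ stabilizer G b := by
  constructor
  · intro l h1 h2
    rw [Function.update_of_ne (by omega : l ≠ j)]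
    by_cases hl : l + 1 = j
    · rw [hl, Function.update_self, hb, ← hl, add_sub_cancel_right]
    · rw [Function.update_of_ne hl]
      exact ha l h1 (by omega)
  · rw [fix_succ hij.le, Function.update_self]
    congr 1
    exact w4_congr fun l _ h2 => Function.update_of_ne (by omega) _ _

theorem w4_cons {a : ℤ → S.A} {i j : ℤ} (hij : i < j) (ha : S.IsPath a i j) {b : S.A}
    (hb : S.tgt b = S.src (a i)) :
    S.IsPath (Function.update a (i - 1) b) (i - 1) j ∧
      S.Fix (Function.update a (i - 1) b) (i - 1) j = S.Fix a i j ⊓ stabilizer G b := by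
  constructor
  · intro l h1 h2
    rw [Function.update_of_ne (by omega : l + 1 ≠ i - 1)]
    by_cases hl : l = i - 1
    · rw [hl, Function.update_self, hb, sub_add_cancel]
    · rw [Function.update_of_ne hl]
      exact ha l (by omega) h2
  · rw [fix_pred (by omega : i - 1 < j), Function.update_self, sub_add_cancel]
    congr 1
    exact w4_congr fun l h1 _ => Function.update_of_ne (by omega) _ _

theorem w4_beta_ext {K : ℕ} (hK : S.Stable K) {a : ℤ → S.A} {i j : ℤ} (hij : i < j)
    (hm : i + K ≤ j) (n : ℕ) (ha : S.IsPath a i (j + n)) (hnc : ¬ IsCyclic (S.Fix a i (j + n))) :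
    beta (S.Fix a i (j + n)) = beta (S.Fix a i j) := by
  induction n with
  | zero => simp
  | succ n ih =>
    have e : j + ((n + 1 : ℕ) : ℤ) = j + n + 1 := by push_cast; ring
    rw [e] at ha hnc ⊢
    have h1 := ha.mono le_rfl (by omega : j + n ≤ j + n + 1)
    have h2 := w4_nc (fix_mono le_rfl (by omega : j + n ≤ j + n + 1)) hnc
    rw [← ih h1 h2]
    rw [fix_succ (by omega)] at hnc ⊢
    refine (hK a i (j + n) (by omega) (by omega) h1 h2).2.2 _ (Or.inl ?_) hnc
    have := ha (j + n - 1) (by omega) (by omega)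
    rw [sub_add_cancel] at this
    exact this.symm

theorem w4_nc_smul {a a' : ℤ → S.A} {i j c : ℤ} {g : G}
    (h : ∀ l, i ≤ l → l < j → g • a l = a' (l + c)) {b : S.A}
    (hnc : ¬ IsCyclic (S.Fix a i j ⊓ stabilizer G b : Subgroup G)) :
    ¬ IsCyclic (S.Fix a' (i + c) (j + c) ⊓ stabilizer G (g • b) : Subgroup G) := by
  rw [← fix_smul h, stabilizer_smul_eq_stabilizer_map_conj,
    ← Subgroup.map_inf _ _ _ (MulAut.conj g).injective]
  exact fun h' => hnc ((isCyclic_conj g).1 h')

theorem QPers.stable (h : S.QPers) : S.Stable 1 := by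
  intro a i j _ hij ha hnc
  refine ⟨h.extF a i j hij ha hnc, h.extB a i j hij ha hnc, ?_⟩
  rintro b (hb | hb) hn
  · obtain ⟨h1, h2⟩ := w4_snoc hij ha hb
    rw [← h2] at hn ⊢
    rw [h.bW _ _ _ (by omega) h1 hn, h.bW _ _ _ hij ha hnc, Function.update_of_ne hij.ne]
  · obtain ⟨h1, h2⟩ := w4_cons hij ha hb
    rw [← h2] at hn ⊢
    rw [h.bW _ _ _ (by omega) h1 hn, h.bW _ _ _ hij ha hnc, Function.update_self, h.bA, hb]

theorem QPers.beta_arrow (h : S.QPers) (a : S.A) :
    beta (stabilizer G a) = beta (stabilizer G (S.src a)) := by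
  have e : S.Fix (fun _ => a) 0 (0 + 1) = stabilizer G a := fix_single _ 0
  have := h.bW (fun _ => a) 0 (0 + 1) (by omega) (fun l h1 h2 => by omega)
    (by rw [e]; exact h.ncA a)
  rwa [e] at this

theorem QPers.out_unique (h : S.QPers) (hS : S.SI) {a a' : S.A} (he : S.src a = S.src a') :
    ∃ g ∈ stabilizer G (S.src a), g • a = a' := by
  refine hS.1.unique (S.node_fg _) he le_rfl ?_ ?_
  · rw [inf_eq_right.2 (stab_le_src a), h.beta_arrow]
  · rw [he, inf_eq_right.2 (stab_le_src a')]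
    exact (S.nc_iff (S.fg a') (stab_le_src a')).1 (h.ncA a')

theorem QPers.in_unique (h : S.QPers) (hS : S.SI) {a a' : S.A} (he : S.tgt a = S.tgt a') :
    ∃ g ∈ stabilizer G (S.tgt a), g • a = a' := by
  refine hS.2.unique (S.node_fg _) he le_rfl ?_ ?_
  · rw [inf_eq_right.2 (stab_le_tgt a), h.beta_arrow, h.bA]
  · rw [he, inf_eq_right.2 (stab_le_tgt a')]
    exact (S.nc_iff (S.fg a') (stab_le_src a')).1 (h.ncA a')

theorem QPers.w4_out (h : S.QPers) (hS : S.SI) {a : ℤ → S.A} {i j : ℤ} (hij : i < j)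
    (ha : S.IsPath a i j) {b b' : S.A} (hb : S.src b = S.tgt (a (j - 1)))
    (hb' : S.src b' = S.tgt (a (j - 1)))
    (hn : ¬ IsCyclic (S.Fix a i j ⊓ stabilizer G b : Subgroup G))
    (hn' : ¬ IsCyclic (S.Fix a i j ⊓ stabilizer G b' : Subgroup G)) :
    ∃ k ∈ S.Fix a i j, k • b = b' := by
  have hle : S.Fix a i j ≤ stabilizer G (S.tgt (a (j - 1))) := fix_le_tgt (by omega) (by omega)
  refine hS.1.unique (fix_fg hij ha) (hb.trans hb'.symm) (by rw [hb]; exact hle) ?_ ?_
  · exact ((h.stable a i j (by omega) hij ha (w4_nc inf_le_left hn)).2.2 b (Or.inl hb) hn).ge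
  · exact (S.nc_iff (S.howson (fix_fg hij ha) (S.fg b') hle (by rw [← hb']; exact stab_le_src b'))
      (inf_le_left.trans hle)).1 hn'

theorem QPers.w4_in (h : S.QPers) (hS : S.SI) {a : ℤ → S.A} {i j : ℤ} (hij : i < j)
    (ha : S.IsPath a i j) {b b' : S.A} (hb : S.tgt b = S.src (a i)) (hb' : S.tgt b' = S.src (a i))
    (hn : ¬ IsCyclic (S.Fix a i j ⊓ stabilizer G b : Subgroup G))
    (hn' : ¬ IsCyclic (S.Fix a i j ⊓ stabilizer G b' : Subgroup G)) :
    ∃ k ∈ S.Fix a i j, k • b = b' := by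
  have hle : S.Fix a i j ≤ stabilizer G (S.src (a i)) := fix_le_src le_rfl hij
  refine hS.2.unique (fix_fg hij ha) (hb.trans hb'.symm) (by rw [hb]; exact hle) ?_ ?_
  · exact ((h.stable a i j (by omega) hij ha (w4_nc inf_le_left hn)).2.2 b (Or.inr hb) hn).ge
  · exact (S.nc_iff (S.howson (fix_fg hij ha) (S.fg b') hle (by rw [← hb']; exact stab_le_tgt b'))
      (inf_le_left.trans hle)).1 hn'

theorem Pers.beta_fix {ρ : ℕ} (h : S.Pers ρ) {a : ℤ → S.A} {i j : ℤ} (hij : i < j)
    (ha : S.IsPath a i j) (hnc : ¬ IsCyclic (S.Fix a i j)) : beta (S.Fix a i j) = ρ := by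
  rw [h.bW a i j hij ha hnc, h.bN]

/-- Non-cyclic windows extend to non-cyclic windows of any length. -/
theorem QPers.extend (h : S.QPers) {a : ℤ → S.A} {i j : ℤ} (hij : i < j) (ha : S.IsPath a i j)
    (hnc : ¬ IsCyclic (S.Fix a i j)) (i' j' : ℤ) (hi : i' ≤ i) (hj : j ≤ j') :
    ∃ a', (∀ l, i ≤ l → l < j → a' l = a l) ∧ S.IsPath a' i' j' ∧ ¬ IsCyclic (S.Fix a' i' j') := by
  have fwd : ∀ n : ℕ, ∃ a', (∀ l, i ≤ l → l < j → a' l = a l) ∧ S.IsPath a' i (j + n) ∧
      ¬ IsCyclic (S.Fix a' i (j + n)) := by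
    intro n
    induction n with
    | zero => exact ⟨a, fun _ _ _ => rfl, by simpa using ha,
        by rw [Nat.cast_zero, add_zero]; exact hnc⟩
    | succ n ih =>
      obtain ⟨a', h1, h2, h3⟩ := ih
      obtain ⟨b, hb, hn⟩ := h.extF a' i (j + n) (by omega) h2 h3
      obtain ⟨h4, h5⟩ := w4_snoc (by omega) h2 hb
      have e : j + ((n + 1 : ℕ) : ℤ) = j + n + 1 := by push_cast; ring
      rw [e]
      exact ⟨_, fun l l1 l2 => by rw [Function.update_of_ne (by omega), h1 l l1 l2], h4,
        by rw [h5]; exact hn⟩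
  obtain ⟨a₁, f1, f2, f3⟩ := fwd (j' - j).toNat
  have e1 : j + ((j' - j).toNat : ℤ) = j' := by omega
  rw [e1] at f2 f3
  have bwd : ∀ n : ℕ, ∃ a', (∀ l, i ≤ l → l < j → a' l = a l) ∧ S.IsPath a' (i - n) j' ∧
      ¬ IsCyclic (S.Fix a' (i - n) j') := by
    intro n
    induction n with
    | zero => exact ⟨a₁, f1, by simpa using f2, by rw [Nat.cast_zero, sub_zero]; exact f3⟩
    | succ n ih =>
      obtain ⟨a', h1, h2, h3⟩ := ih
      obtain ⟨b, hb, hn⟩ := h.extB a' (i - n) j' (by omega) h2 h3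
      obtain ⟨h4, h5⟩ := w4_cons (by omega) h2 hb
      have e : i - ((n + 1 : ℕ) : ℤ) = i - n - 1 := by push_cast; ring
      rw [e]
      exact ⟨_, fun l l1 l2 => by rw [Function.update_of_ne (by omega), h1 l l1 l2], h4,
        by rw [h5]; exact hn⟩
  have := bwd (i - i').toNat
  rwa [show i - ((i - i').toNat : ℤ) = i' by omega] at this

/-- Non-cyclic windows of one length whose `l`-th arrows are in one orbit are in one orbit. -/
theorem QPers.win_unique (h : S.QPers) (hS : S.SI) {a a' : ℤ → S.A} {i j c l : ℤ} (hl : i ≤ l)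
    (hl' : l < j) (ha : S.IsPath a i j) (ha' : S.IsPath a' (i + c) (j + c))
    (hnc : ¬ IsCyclic (S.Fix a i j)) (hnc' : ¬ IsCyclic (S.Fix a' (i + c) (j + c))) {g : G}
    (hg : g • a l = a' (l + c)) :
    ∃ g' : G, ∀ r, i ≤ r → r < j → g' • a r = a' (r + c) := by
  have fwd : ∀ n : ℕ, l + 1 + n ≤ j →
      ∃ g' : G, ∀ r, l ≤ r → r < l + 1 + n → g' • a r = a' (r + c) := by
    intro n
    induction n with
    | zero =>
      exact fun _ => ⟨g, fun r r1 r2 => by
        obtain rfl : r = l := by omega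
        exact hg⟩
    | succ n ih =>
      intro hn
      push_cast at hn ⊢
      obtain ⟨g', h1⟩ := ih (by omega)
      have p1 := ha (l + n) (by omega) (by omega)
      have p2 := ha' (l + 1 + n + c - 1) (by omega) (by omega)
      rw [sub_add_cancel] at p2
      have n1 : ¬ IsCyclic (S.Fix a l (l + 1 + n) ⊓ stabilizer G (a (l + 1 + n)) : Subgroup G) := by
        rw [← fix_succ (by omega)]
        exact w4_nc (fix_mono hl (by omega)) hnc
      have n2 : ¬ IsCyclic (S.Fix a' (l + c) (l + 1 + n + c) ⊓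
          stabilizer G (a' (l + 1 + n + c)) : Subgroup G) := by
        rw [← fix_succ (by omega)]
        exact w4_nc (fix_mono (by omega) (by omega)) hnc'
      obtain ⟨k, hk, e⟩ := h.w4_out hS (by omega)
        (ha'.mono (by omega) (by omega) : S.IsPath a' (l + c) (l + 1 + n + c))
        (b := g' • a (l + 1 + n)) (by
          rw [S.src_smul, show l + 1 + (n : ℤ) = l + n + 1 by ring, ← p1, ← S.tgt_smul,
            h1 _ (by omega) (by omega)]
          congr 2
          ring) p2.symm (w4_nc_smul h1 n1) n2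
      refine ⟨k * g', fun r r1 r2 => ?_⟩
      rw [mul_smul]
      by_cases hr : r = l + 1 + n
      · rw [hr, e]
      · rw [h1 r r1 (by omega)]
        exact mem_fix.1 hk _ (by omega) (by omega)
  obtain ⟨g₁, f1⟩ := fwd (j - l - 1).toNat (by omega)
  rw [show l + 1 + ((j - l - 1).toNat : ℤ) = j by omega] at f1
  have bwd : ∀ n : ℕ, i ≤ l - n → ∃ g' : G, ∀ r, l - n ≤ r → r < j → g' • a r = a' (r + c) := by
    intro n
    induction n with
    | zero => exact fun _ => ⟨g₁, fun r r1 r2 => f1 r (by omega) r2⟩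
    | succ n ih =>
      intro hn
      push_cast at hn ⊢
      obtain ⟨g', h1⟩ := ih (by omega)
      have p1 := ha (l - n - 1) (by omega) (by omega)
      have p2 := ha' (l - n + c - 1) (by omega) (by omega)
      rw [sub_add_cancel] at p1 p2
      have n1 : ¬ IsCyclic (S.Fix a (l - n) j ⊓ stabilizer G (a (l - n - 1)) : Subgroup G) := by
        have := fix_pred (a := a) (by omega : l - n - 1 < j)
        rw [sub_add_cancel] at this
        rw [← this]
        exact w4_nc (fix_mono (by omega) le_rfl) hnc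
      have n2 : ¬ IsCyclic (S.Fix a' (l - n + c) (j + c) ⊓
          stabilizer G (a' (l - n + c - 1)) : Subgroup G) := by
        have := fix_pred (a := a') (by omega : l - n + c - 1 < j + c)
        rw [sub_add_cancel] at this
        rw [← this]
        exact w4_nc (fix_mono (by omega) le_rfl) hnc'
      obtain ⟨k, hk, e⟩ := h.w4_in hS (by omega)
        (ha'.mono (by omega) le_rfl : S.IsPath a' (l - n + c) (j + c))
        (b := g' • a (l - n - 1)) (by
          rw [S.tgt_smul, p1, ← S.src_smul, h1 _ le_rfl (by omega)]) p2 (w4_nc_smul h1 n1) n2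
      refine ⟨k * g', fun r r1 r2 => ?_⟩
      rw [mul_smul]
      by_cases hr : r = l - n - 1
      · rw [hr, e]
        congr 1
        ring
      · rw [h1 r (by omega) r2]
        exact mem_fix.1 hk _ (by omega) (by omega)
  have := bwd (l - i).toNat (by omega)
  rwa [show l - ((l - i).toNat : ℤ) = i by omega] at this

/-- The orbit of the node reached after `n` steps depends only on the orbit of the start. -/
theorem QPers.path_type (h : S.QPers) (hS : S.SI) {a a' : ℤ → S.A} {i j c : ℤ}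
    (ha : S.IsPath a i j) (ha' : S.IsPath a' (i + c) (j + c)) {l : ℤ} (hl : i ≤ l) (hl' : l < j)
    {g : G} (hg : g • a l = a' (l + c)) (r : ℤ) (hr : i ≤ r) (hr' : r < j) :
    ∃ g' : G, g' • a r = a' (r + c) := by
  have fwd : ∀ n : ℕ, l + n < j → ∃ g' : G, g' • a (l + n) = a' (l + n + c) := by
    intro n
    induction n with
    | zero => exact fun _ => ⟨g, by simpa using hg⟩
    | succ n ih =>
      intro hn
      push_cast at hn ⊢
      obtain ⟨g', h1⟩ := ih (by omega)
      have p1 := ha (l + n) (by omega) (by omega)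
      have p2 := ha' (l + n + c) (by omega) (by omega)
      obtain ⟨k, -, e⟩ := h.out_unique hS (a := g' • a (l + n + 1)) (a' := a' (l + n + c + 1))
        (by rw [S.src_smul, ← p1, ← S.tgt_smul, h1, p2])
      refine ⟨k * g', ?_⟩
      rw [mul_smul, ← add_assoc, e]
      congr 1
      ring
  have bwd : ∀ n : ℕ, i ≤ l - n → ∃ g' : G, g' • a (l - n) = a' (l - n + c) := by
    intro n
    induction n with
    | zero => exact fun _ => ⟨g, by simpa using hg⟩
    | succ n ih =>
      intro hn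
      push_cast at hn ⊢
      obtain ⟨g', h1⟩ := ih (by omega)
      have p1 := ha (l - n - 1) (by omega) (by omega)
      have p2 := ha' (l - n + c - 1) (by omega) (by omega)
      rw [sub_add_cancel] at p1 p2
      obtain ⟨k, -, e⟩ := h.in_unique hS (a := g' • a (l - n - 1)) (a' := a' (l - n + c - 1))
        (by rw [S.tgt_smul, p1, ← S.src_smul, h1, p2])
      refine ⟨k * g', ?_⟩
      rw [mul_smul, ← sub_sub, e]
      congr 1
      ring
  rcases le_total l r with hlr | hlr
  · have := fwd (r - l).toNat (by omega)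
    rwa [show l + ((r - l).toNat : ℤ) = r by omega] at this
  · have := bwd (l - r).toNat (by omega)
    rwa [show l - ((l - r).toNat : ℤ) = r by omega] at this

end Sys

namespace Over.IsWin

variable {S' : Sys G N'} {S : Sys G N} {O : Over S' S} {m : ℕ} {w : N' → ℤ → S.A}
  (h : O.IsWin m w)
include h

theorem qpers {K : ℕ} (hK : S.Stable K) (hm : K ≤ m) : S'.QPers := by
  have hpos := h.pos
  have hst := fun ω => hK (w ω) 0 m (by omega) (by omega) (h.path ω) (h.nc ω)
  have hsrc : ∀ b : S'.A, beta (stabilizer G b) = beta (stabilizer G (S'.src b)) := by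
    intro b
    have hn := h.ncA b
    rw [h.detOut.stab_eq, h.stab] at hn ⊢
    exact (hst _).2.2 _ (Or.inl (by rw [O.src_A, h.ν_eq])) hn
  have htgt : ∀ b : S'.A, beta (stabilizer G b) = beta (stabilizer G (S'.tgt b)) := by
    intro b
    have hn := h.ncA b
    rw [h.stab_first, h.stab] at hn ⊢
    exact (hst _).2.2 _ (Or.inr (h.tgt_first b)) hn
  refine ⟨h.ncA, fun b => (hsrc b).symm.trans (htgt b), ?_, ?_, ?_, ?_, ?_⟩
  · intro b i j hij hb hn
    obtain ⟨a, ha, h1, h2⟩ := h.unfold hij hb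
    rw [h2 i j le_rfl hij le_rfl] at hn ⊢
    have e : j + m = i + m + ((j - i).toNat : ℤ) := by omega
    rw [e] at ha hn ⊢
    rw [Sys.w4_beta_ext hK (by omega) (by omega) _ ha hn, h.stab]
    have := Sys.fix_congr (S := S) (a := w (S'.src (b i))) (a' := a) (i := 0) (j := m) (c := i)
      (fun l l1 l2 => by rw [(h1 i le_rfl hij).2.1 l l1 l2, add_comm])
    rw [this, zero_add, add_comm]
  · intro ω
    obtain ⟨c, hc, hn⟩ := (hst ω).1
    obtain ⟨b, hb, -⟩ := h.surjA ω c (by rw [h.ν_eq, hc]) (by rw [h.stab]; exact hn)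
    exact ⟨b, hb⟩
  · intro ω
    obtain ⟨c, hc, hn⟩ := (hst ω).2.1
    obtain ⟨b, hb, -⟩ := h.surjB ω c hc (by rw [h.stab]; exact hn)
    exact ⟨b, hb⟩
  · intro b i j hij hb hn
    obtain ⟨a, ha, h1, h2⟩ := h.unfold hij hb
    rw [h2 i j le_rfl hij le_rfl] at hn ⊢
    obtain ⟨c, hc, hn'⟩ := (hK a i (j + m) (by omega) (by omega) ha hn).1
    have h3 := (h1 (j - 1) (by omega) (by omega)).2.2
    have hle : S.Fix a i (j + m) ≤ stabilizer G (S'.tgt (b (j - 1))) := by
      rw [h.stab]
      intro g hg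
      rw [Sys.mem_fix] at hg ⊢
      intro l l1 l2
      rw [h3 l l1 l2]
      exact hg _ (by omega) (by omega)
    obtain ⟨b', hb', e⟩ := h.surjA (S'.tgt (b (j - 1))) c (by
      rw [h.ν_eq, hc, h3 _ (by omega) (by omega)]
      congr 2
      ring) (Sys.w4_nc (inf_le_inf_right _ hle) hn')
    refine ⟨b', hb', Sys.w4_nc ?_ hn'⟩
    rw [h.detOut.stab_eq, hb', e]
    exact le_inf inf_le_left (inf_le_inf_right _ hle)
  · intro b i j hij hb hn
    obtain ⟨a, ha, h1, h2⟩ := h.unfold hij hb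
    rw [h2 i j le_rfl hij le_rfl] at hn ⊢
    obtain ⟨c, hc, hn'⟩ := (hK a i (j + m) (by omega) (by omega) ha hn).2.1
    have h3 := (h1 i le_rfl hij).2.1
    have hle : S.Fix a i (j + m) ≤ stabilizer G (S'.src (b i)) := by
      rw [h.stab]
      intro g hg
      rw [Sys.mem_fix] at hg ⊢
      intro l l1 l2
      rw [h3 l l1 l2]
      exact hg _ (by omega) (by omega)
    obtain ⟨b', hb', e⟩ := h.surjB (S'.src (b i)) c (by
      rw [hc, h3 _ le_rfl (by omega), add_zero]) (Sys.w4_nc (inf_le_inf_right _ hle) hn')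
    refine ⟨b', hb', Sys.w4_nc ?_ hn'⟩
    rw [h.stab_first, hb', e]
    exact le_inf inf_le_left (inf_le_inf_right _ hle)

theorem pers {ρ : ℕ} (hS : S.Pers ρ) : S'.Pers ρ := by
  have hpos := h.pos
  have hq := hS.toQPers
  refine ⟨h.qpers hq.stable hpos, h.si hS.si, hS.two, fun ω => ?_, fun ω ω' => ?_⟩
  · rw [h.stab]
    exact hS.beta_fix (by omega) (h.path ω) (h.nc ω)
  obtain ⟨g, n, p, hn, hp, p0, pn⟩ := hS.conn (S.tgt (w ω (m - 1))) (S.src (w ω' 0))
  obtain ⟨a, a1, a2, a3⟩ := hq.extend (by omega) (h.path ω) (h.nc ω) 0 (m + n + m) le_rfl (by omega)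
  obtain ⟨k, -, e1⟩ := hq.out_unique hS.si (a := p 0) (a' := a (0 + m)) (by
    have := a2 (m - 1) (by omega) (by omega)
    rw [p0, ← a1 _ (by omega) (by omega), this]
    congr 2
    ring)
  obtain ⟨g₁, e2⟩ := hq.path_type hS.si (c := m) hp (a2.mono (by omega) (by omega)) le_rfl
    (by omega) e1 (n - 1) (by omega) (by omega)
  obtain ⟨k₂, -, e3⟩ := hq.out_unique hS.si (a := (g₁ * g) • w ω' 0) (a' := a (0 + (m + n))) (by
    have := a2 (n - 1 + m) (by omega) (by omega)
    rw [S.src_smul, mul_smul, ← pn, ← S.tgt_smul, e2, this]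
    congr 2
    ring)
  rw [← mul_smul] at e3
  obtain ⟨g₂, e4⟩ := hq.win_unique hS.si (c := m + n) le_rfl (by omega) (h.path ω')
    (a2.mono (by omega) (by omega)) (h.nc ω')
    (Sys.w4_nc (Sys.fix_mono (by omega) (by omega)) a3) e3
  obtain ⟨b, hb, h1⟩ := h.fold (i := 0) (j := m + n) (by omega) a2
    (fun l l1 l2 => Sys.w4_nc (Sys.fix_mono l1 l2) a3)
  refine ⟨g₂, m + n, b, by omega, by push_cast; exact hb, h.inj _ _ fun l l1 l2 => ?_,
    h.inj _ _ fun l l1 l2 => ?_⟩
  · rw [(h1 0 le_rfl (by omega)).2.1 l l1 l2, zero_add, a1 l l1 l2]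
  · push_cast
    rw [(h1 (m + n - 1) (by omega) (by omega)).2.2 l l1 l2, h.smul _ _ _ l1 l2, e4 l l1 l2]
    congr 1
    ring

end Over.IsWin

theorem Sys.Pers.aut {S : Sys G N} {ρ : ℕ} (h : S.Pers ρ) (hf : S.FwdStable) (hb : S.BackStable) :
    ∃ m : ℕ, 1 ≤ m ∧ ∀ (N' : Type) [MulAction G N'] (S' : Sys G N') (O : Over S' S)
      (w : N' → ℤ → S.A), O.IsWin m w → S'.Aut ρ := by
  obtain ⟨M₁, m1, hf⟩ := hf
  obtain ⟨M₂, m2, hb⟩ := hb
  refine ⟨max M₁ M₂, m1.trans (le_max_left _ _), fun N' _ S' O w hw => ?_⟩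
  have l1 := le_max_left M₁ M₂
  have l2 := le_max_right M₁ M₂
  generalize max M₁ M₂ = m at hw l1 l2
  have hp := hw.pers h
  refine ⟨⟨fun v => ?_, fun v => ?_⟩, hp.two, hp.bN, hp.conn⟩
  · obtain ⟨b, hb⟩ := hp.outE v
    refine ⟨b, hb, fun b' hb' => hw.detOut _ _ ?_ (hb'.trans hb.symm)⟩
    have key : ∀ c : S'.A, S'.src c = v → S.src (O.A c) = S.tgt (w v (m - 1)) ∧
        ¬ IsCyclic (S.Fix (w v) 0 m ⊓ stabilizer G (O.A c) : Subgroup G) := fun c hc => by
      have hn := hw.ncA c
      rw [hw.detOut.stab_eq, hw.stab, hc] at hn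
      exact ⟨by rw [O.src_A, hw.ν_eq, hc], hn⟩
    obtain ⟨k, hk, e⟩ := h.toQPers.w4_out h.si (by omega) (hw.path v) (key b hb).1 (key b' hb').1
      (key b hb).2 (key b' hb').2
    obtain ⟨h1, h2⟩ := Sys.w4_snoc (by omega) (hw.path v) (key b hb).1
    have h3 := hf (Function.update (w v) m (O.A b)) (m - M₁) (h1.mono (by omega) (by omega))
      (Sys.w4_nc (Sys.fix_mono (i := 0) (j := m + 1) (by omega) (by omega))
        (by rw [h2]; exact (key b hb).2))
    rw [sub_add_cancel, Function.update_self] at h3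
    rw [← e]
    refine h3 (Sys.mem_fix.2 fun l a1 a2 => ?_)
    rw [Function.update_of_ne (by omega)]
    exact Sys.mem_fix.1 hk l (by omega) a2
  · obtain ⟨b, hb'⟩ := hp.inE v
    refine ⟨b, hb', fun b' hb'' => hw.det_first (hb''.trans hb'.symm) ?_⟩
    have key : ∀ c : S'.A, S'.tgt c = v → S.tgt (w (S'.src c) 0) = S.src (w v 0) ∧
        ¬ IsCyclic (S.Fix (w v) 0 m ⊓ stabilizer G (w (S'.src c) 0) : Subgroup G) := fun c hc => by
      have hn := hw.ncA c
      rw [hw.stab_first, hw.stab, hc] at hn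
      exact ⟨by rw [hw.tgt_first, hc], hn⟩
    obtain ⟨k, hk, e⟩ := h.toQPers.w4_in h.si (by omega) (hw.path v) (key b hb').1 (key b' hb'').1
      (key b hb').2 (key b' hb'').2
    obtain ⟨h1, h2⟩ := Sys.w4_cons (by omega) (hw.path v) (key b hb').1
    have h3 := hb (Function.update (w v) (0 - 1) (w (S'.src b) 0)) (0 - 1)
      (h1.mono le_rfl (by omega))
      (Sys.w4_nc (Sys.fix_mono (j := m) le_rfl (by omega)) (by rw [h2]; exact (key b hb').2))
    rw [Function.update_self] at h3
    rw [← e]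
    refine h3 (Sys.mem_fix.2 fun l a1 a2 => ?_)
    rw [Function.update_of_ne (by omega)]
    exact Sys.mem_fix.1 hk l (by omega) (by omega)

end CPOR
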